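import Pool.Agent.Lib.D7.Defs
import Pool.Agent.Lib.TSQ.Bridge

/-!
# The algebra `adj T` of a triple
-/

namespace Pool.Agent.Lib.D7

open Matrix Pool.Agent.Lib.Q5dc

variable {k n m : Type*} [Field k] [Fintype n] [DecidableEq n] [Fintype m] [DecidableEq m]

theorem mem_adj (T : Fin 3 → Matrix n n k) (i : Fin 3) : T i ∈ adj T :=
  NonUnitalAlgebra.subset_adjoin k ⟨i, rfl⟩

theorem adj_le {T T' : Fin 3 → Matrix n n k} (h : ∀ i, T i ∈ adj T') {M : Matrix n n k}
    (hM : M ∈ adj T) : M ∈ adj T' := by
  have h1 : adj T ≤ adj T' := by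
    refine NonUnitalAlgebra.adjoin_le ?_
    rintro _ ⟨i, rfl⟩
    exact h i
  exact h1 hM

/-- induction principle -/
theorem adj_induction {T : Fin 3 → Matrix n n k} {p : Matrix n n k → Prop}
    (mem : ∀ i, p (T i)) (zero : p 0) (add : ∀ x ∈ adj T, ∀ y ∈ adj T, p x → p y → p (x + y))
    (mul : ∀ x ∈ adj T, ∀ y ∈ adj T, p x → p y → p (x * y))
    (smul : ∀ (r : k), ∀ x ∈ adj T, p x → p (r • x)) {M : Matrix n n k} (hM : M ∈ adj T) : p M := by
  unfold adj at hM
  induction hM using NonUnitalAlgebra.adjoin_induction with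
  | mem x hx =>
    obtain ⟨i, rfl⟩ := hx
    exact mem i
  | zero => exact zero
  | add x y hx hy h1 h2 => exact add x hx y hy h1 h2
  | mul x y hx hy h1 h2 => exact mul x hx y hy h1 h2
  | smul r x hx h1 => exact smul r x hx h1

theorem CN.comm {T : Fin 3 → Matrix n n k} (hT : CN T) {M M' : Matrix n n k} (h : M ∈ adj T)
    (h' : M' ∈ adj T) : M * M' = M' * M := by
  have h1 : ∀ j, M * T j = T j * M := by
    intro j
    refine adj_induction (p := fun M => M * T j = T j * M) (fun i => hT.1 i j) (by simp)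
      (fun x _ y _ hx hy => by rw [add_mul, mul_add, hx, hy])
      (fun x _ y _ hx hy => by rw [mul_assoc, hy, ← mul_assoc, hx, mul_assoc])
      (fun r x _ hx => by rw [smul_mul_assoc, hx, mul_smul_comm]) h
  refine adj_induction (p := fun M' => M * M' = M' * M) h1 (by simp)
      (fun x _ y _ hx hy => by rw [mul_add, add_mul, hx, hy])
      (fun x _ y _ hx hy => by rw [← mul_assoc, hx, mul_assoc, hy, mul_assoc])
      (fun r x _ hx => by rw [mul_smul_comm, hx, smul_mul_assoc]) h'

theorem CN.nilp {T : Fin 3 → Matrix n n k} (hT : CN T) {M : Matrix n n k} (h : M ∈ adj T) :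
    IsNilpotent M := by
  refine adj_induction (p := fun M => IsNilpotent M) hT.2 IsNilpotent.zero
    (fun x hx y hy h1 h2 => (show Commute x y from hT.comm hx hy).isNilpotent_add h1 h2)
    (fun x hx y hy h1 h2 => (show Commute x y from hT.comm hx hy).isNilpotent_mul_right h1)
    (fun r x hx h1 => h1.smul r) h

theorem CN.of_adj {T T' : Fin 3 → Matrix n n k} (hT : CN T) (h : ∀ i, T' i ∈ adj T) : CN T' :=
  ⟨fun i j => hT.comm (h i) (h j), fun i => hT.nilp (h i)⟩

/-! ### Nakayama -/

theorem sub_mul_mono {A B C D : Submodule k (Matrix n n k)} (h : A ≤ B) (h' : C ≤ D) :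
    A * C ≤ B * D :=
  Submodule.mul_le.2 fun _ ha _ hb => Submodule.mul_mem_mul (h ha) (h' hb)

/-- the linear span of the three matrices -/
def lin (T : Fin 3 → Matrix n n k) : Submodule k (Matrix n n k) :=
  Submodule.span k {T 0} + Submodule.span k {T 1} + Submodule.span k {T 2}

theorem span_nilp {M : Matrix n n k} (h : IsNilpotent M) :
    IsNilpotent (Submodule.span k {M} : Submodule k (Matrix n n k)) := by
  obtain ⟨e, he⟩ := h
  refine ⟨e, ?_⟩
  rw [Submodule.span_pow, Set.singleton_pow, he, Submodule.span_zero_singleton]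
  rfl

theorem span_comm {M M' : Matrix n n k} (h : M * M' = M' * M) :
    Commute (Submodule.span k {M} : Submodule k (Matrix n n k)) (Submodule.span k {M'}) := by
  show Submodule.span k {M} * Submodule.span k {M'} = Submodule.span k {M'} * Submodule.span k {M}
  rw [Submodule.span_mul_span, Submodule.span_mul_span, Set.singleton_mul_singleton,
    Set.singleton_mul_singleton, h]

theorem lin_nilp {T : Fin 3 → Matrix n n k} (hT : CN T) : IsNilpotent (lin T) := by
  unfold lin
  refine Commute.isNilpotent_add ?_ (Commute.isNilpotent_add ?_ ?_ ?_) ?_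
  · exact (span_comm (hT.1 0 2)).add_left (span_comm (hT.1 1 2))
  · exact span_comm (hT.1 0 1)
  · exact span_nilp (hT.2 0)
  · exact span_nilp (hT.2 1)
  · exact span_nilp (hT.2 2)

theorem mem_lin (T : Fin 3 → Matrix n n k) (i : Fin 3) : T i ∈ lin T := by
  unfold lin
  fin_cases i
  · exact Submodule.mem_sup_left (Submodule.mem_sup_left (Submodule.mem_span_singleton_self _))
  · exact Submodule.mem_sup_left (Submodule.mem_sup_right (Submodule.mem_span_singleton_self _))
  · exact Submodule.mem_sup_right (Submodule.mem_span_singleton_self _)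

/-- `adj T` as a subspace -/
def adjS (T : Fin 3 → Matrix n n k) : Submodule k (Matrix n n k) := (adj T).toSubmodule

theorem mem_adjS {T : Fin 3 → Matrix n n k} {M : Matrix n n k} : M ∈ adjS T ↔ M ∈ adj T := Iff.rfl

theorem adjS_mul (T : Fin 3 → Matrix n n k) : adjS T * adjS T ≤ adjS T := by
  rw [Submodule.mul_le]
  intro a ha b hb
  exact mul_mem (S := NonUnitalSubalgebra k (Matrix n n k)) ha hb

theorem adjS_le (T : Fin 3 → Matrix n n k) : adjS T ≤ lin T * (1 + adjS T) := by
  intro M hM
  have hM' : M ∈ adj T := hM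
  refine adj_induction (p := fun M => M ∈ lin T * (1 + adjS T)) (fun i => ?_) (zero_mem _)
    (fun x _ y _ hx hy => add_mem hx hy) (fun x _ y hy hx _ => ?_)
    (fun r x _ hx => Submodule.smul_mem _ r hx) hM'
  · have h1 : T i = T i * 1 := (mul_one _).symm
    rw [h1]
    refine Submodule.mul_mem_mul (mem_lin T i) ?_
    exact Submodule.mem_sup_left (Submodule.one_le.1 le_rfl)
  · have h1 : x * y ∈ lin T * (1 + adjS T) * adjS T := Submodule.mul_mem_mul hx hy
    rw [mul_assoc] at h1
    refine sub_mul_mono le_rfl ?_ h1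
    rw [add_mul, one_mul]
    exact sup_le le_sup_right ((adjS_mul T).trans le_sup_right)

theorem adjS_nilp {T : Fin 3 → Matrix n n k} (hT : CN T) : IsNilpotent (adjS T) := by
  have hc : Commute (lin T) (1 + adjS T) := by
    refine (Commute.one_right _).add_right ?_
    have key : ∀ M ∈ lin T, ∀ M' ∈ adjS T, M * M' = M' * M := by
      intro M hM M' hM'
      have hM2 : M ∈ adj T := by
        unfold lin at hM
        have h1 : Submodule.span k {T 0} + Submodule.span k {T 1} + Submodule.span k {T 2} ≤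
            adjS T := by
          refine sup_le (sup_le ?_ ?_) ?_
          · rw [Submodule.span_singleton_le_iff_mem]; exact mem_adj T 0
          · rw [Submodule.span_singleton_le_iff_mem]; exact mem_adj T 1
          · rw [Submodule.span_singleton_le_iff_mem]; exact mem_adj T 2
        exact h1 hM
      exact hT.comm hM2 hM'
    apply le_antisymm
    · rw [Submodule.mul_le]
      intro a ha b hb
      rw [key a ha b hb]
      exact Submodule.mul_mem_mul hb ha
    · rw [Submodule.mul_le]
      intro a ha b hb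
      rw [← key b hb a ha]
      exact Submodule.mul_mem_mul hb ha
  obtain ⟨e, he⟩ := lin_nilp hT
  refine ⟨e, ?_⟩
  have h1 : adjS T ^ e ≤ (lin T * (1 + adjS T)) ^ e := pow_le_pow_left' (adjS_le T) e
  rw [hc.mul_pow, he, zero_mul] at h1
  exact le_bot_iff.1 h1

/-- Nakayama: if `T' i ∈ adj T` and each `T i` is in `adj T'` up to sums of products of two
elements of `adj T`, then `T i ∈ adj T'` -/
theorem adj_nak {T T' : Fin 3 → Matrix n n k} (hT : CN T) (h' : ∀ i, T' i ∈ adj T)
    (h : ∀ i, ∃ N ∈ adj T', T i - N ∈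
      Submodule.span k {M : Matrix n n k | ∃ P ∈ adj T, ∃ Q ∈ adj T, M = P * Q}) :
    ∀ i, T i ∈ adj T' := by
  have hW' : adjS T' ≤ adjS T := by
    intro M hM
    exact adj_le h' hM
  have hspan : Submodule.span k {M : Matrix n n k | ∃ P ∈ adj T, ∃ Q ∈ adj T, M = P * Q} ≤
      adjS T * adjS T := by
    rw [Submodule.span_le]
    rintro _ ⟨P, hP, Q, hQ, rfl⟩
    exact Submodule.mul_mem_mul hP hQ
  have h1 : adjS T ≤ adjS T' + adjS T * adjS T := by
    intro M hM
    have hM' : M ∈ adj T := hM
    refine adj_induction (p := fun M => M ∈ adjS T' + adjS T * adjS T) (fun i => ?_) (zero_mem _)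
      (fun x _ y _ hx hy => add_mem hx hy) (fun x hx y hy _ _ => ?_)
      (fun r x _ hx => Submodule.smul_mem _ r hx) hM'
    · obtain ⟨N, hN, hN'⟩ := h i
      have h2 : T i = N + (T i - N) := by abel
      rw [h2]
      exact add_mem (Submodule.mem_sup_left hN) (Submodule.mem_sup_right (hspan hN'))
    · exact Submodule.mem_sup_right (Submodule.mul_mem_mul hx hy)
  have h2 : ∀ e : ℕ, adjS T ≤ adjS T' + adjS T ^ (e + 1) := by
    intro e
    induction e with
    | zero => rw [zero_add, pow_one]; exact le_sup_right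
    | succ e ih =>
      have h3 : adjS T * adjS T ≤ adjS T' + adjS T ^ (e + 2) := by
        refine (sub_mul_mono ih ih).trans ?_
        rw [add_mul, mul_add, mul_add]
        have hp : ∀ a : ℕ, e + 2 ≤ a → adjS T ^ a ≤ adjS T ^ (e + 2) := by
          intro a ha
          induction a, ha using Nat.le_induction with
          | base => exact le_rfl
          | succ a ha iha =>
            refine le_trans ?_ iha
            obtain ⟨b, rfl⟩ : ∃ b, a = b + 1 := ⟨a - 1, by omega⟩
            rw [pow_succ, pow_succ, mul_assoc]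
            exact sub_mul_mono le_rfl (adjS_mul T)
        refine sup_le (sup_le ?_ ?_) (sup_le ?_ ?_)
        · exact (adjS_mul T').trans le_sup_left
        · refine le_trans ?_ le_sup_right
          calc adjS T' * adjS T ^ (e + 1) ≤ adjS T * adjS T ^ (e + 1) :=
                sub_mul_mono hW' le_rfl
            _ = adjS T ^ (e + 2) := by rw [← pow_succ']
        · refine le_trans ?_ le_sup_right
          calc adjS T ^ (e + 1) * adjS T' ≤ adjS T ^ (e + 1) * adjS T :=
                sub_mul_mono le_rfl hW'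
            _ = adjS T ^ (e + 2) := by rw [← pow_succ]
        · refine le_trans ?_ le_sup_right
          rw [← pow_add]
          exact hp _ (by omega)
      exact h1.trans (sup_le le_sup_left h3)
  obtain ⟨e, he⟩ := adjS_nilp hT
  intro i
  have h3 := h2 e (mem_adj T i)
  rw [pow_succ, he, zero_mul, add_zero] at h3
  exact h3

/-! ### polynomials in three matrices -/

/-- every element of `adj T` is a polynomial without constant term -/
theorem exists_free {T : Fin 3 → Matrix n n k} {M : Matrix n n k} (hM : M ∈ adj T) :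
    ∃ f : FreeAlgebra k (Fin 3), FreeAlgebra.lift k T f = M ∧
      (∀ T' : Fin 3 → Matrix n n k, FreeAlgebra.lift k T' f ∈ adj T') ∧
      ∀ p : Fin 3 → Polynomial k, (∀ i, (p i).coeff 0 = 0) →
        (FreeAlgebra.lift k p f).coeff 0 = 0 := by
  refine adj_induction (p := fun M => ∃ f : FreeAlgebra k (Fin 3), FreeAlgebra.lift k T f = M ∧
      (∀ T' : Fin 3 → Matrix n n k, FreeAlgebra.lift k T' f ∈ adj T') ∧
      ∀ p : Fin 3 → Polynomial k, (∀ i, (p i).coeff 0 = 0) →
        (FreeAlgebra.lift k p f).coeff 0 = 0) (fun i => ?_) ?_ ?_ ?_ ?_ hM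
  · refine ⟨FreeAlgebra.ι k i, by simp, fun T' => ?_, fun p hp => ?_⟩
    · rw [FreeAlgebra.lift_ι_apply]; exact mem_adj T' i
    · rw [FreeAlgebra.lift_ι_apply]; exact hp i
  · exact ⟨0, by simp, fun T' => by rw [map_zero]; exact zero_mem _, fun p _ => by simp⟩
  · rintro x - y - ⟨f, hf1, hf2, hf3⟩ ⟨g, hg1, hg2, hg3⟩
    refine ⟨f + g, by rw [map_add, hf1, hg1], fun T' => ?_, fun p hp => ?_⟩
    · rw [map_add]; exact add_mem (hf2 T') (hg2 T')
    · rw [map_add, Polynomial.coeff_add, hf3 p hp, hg3 p hp, add_zero]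
  · rintro x - y - ⟨f, hf1, hf2, hf3⟩ ⟨g, hg1, hg2, hg3⟩
    refine ⟨f * g, by rw [map_mul, hf1, hg1], fun T' => ?_, fun p hp => ?_⟩
    · rw [map_mul]; exact mul_mem (hf2 T') (hg2 T')
    · rw [map_mul, Polynomial.mul_coeff_zero, hf3 p hp, zero_mul]
  · rintro r x - ⟨f, hf1, hf2, hf3⟩
    refine ⟨r • f, by rw [map_smul, hf1], fun T' => ?_, fun p hp => ?_⟩
    · rw [map_smul]; exact SMulMemClass.smul_mem r (hf2 T')
    · rw [map_smul, Polynomial.coeff_smul, hf3 p hp, smul_zero]

/-- if all matrices of `T` are polynomials (without constant term) in those of `T'` and `T'` is a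
limit of curvilinear triples, then so is `T` -/
theorem cl_of_adj {T T' : Fin 3 → Matrix n n k} (h : ∀ i, T i ∈ adj T') (hT : Cl T') : Cl T := by
  choose f hf1 hf2 hf3 using fun i => exists_free (h i)
  intro F hF
  -- generic matrices
  let G : Fin 3 → Matrix n n (MvPolynomial (Fin 3 × n × n) k) :=
    fun i => Matrix.of fun x y => MvPolynomial.X (i, x, y)
  let Φ : Fin 3 → Matrix n n (MvPolynomial (Fin 3 × n × n) k) :=
    fun i => FreeAlgebra.lift k G (f i)
  have hΦ : ∀ (S : Fin 3 → Matrix n n k) (i : Fin 3) (x y : n),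
      MvPolynomial.eval (co S) (Φ i x y) = FreeAlgebra.lift k S (f i) x y := by
    intro S i x y
    have h1 : ((MvPolynomial.aeval (co S) : MvPolynomial (Fin 3 × n × n) k →ₐ[k] k).mapMatrix.comp
        (FreeAlgebra.lift k G)) = FreeAlgebra.lift k S := by
      apply FreeAlgebra.hom_ext
      funext j
      simp only [Function.comp_apply, AlgHom.comp_apply, FreeAlgebra.lift_ι_apply]
      ext a b
      simp [G, co]
    have h2 := congrArg (fun φ => φ (f i) x y) h1
    simp only [AlgHom.comp_apply, AlgHom.mapMatrix_apply, Matrix.map_apply] at h2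
    exact h2
  let F' : MvPolynomial (Fin 3 × n × n) k :=
    MvPolynomial.aeval (fun z : Fin 3 × n × n => Φ z.1 z.2.1 z.2.2) F
  have hF' : ∀ S : Fin 3 → Matrix n n k,
      MvPolynomial.eval (co S) F' =
        MvPolynomial.eval (co fun i => FreeAlgebra.lift k S (f i)) F := by
    intro S
    have h1 : ((MvPolynomial.aeval (co S) : MvPolynomial (Fin 3 × n × n) k →ₐ[k] k).comp
        (MvPolynomial.aeval (fun z : Fin 3 × n × n => Φ z.1 z.2.1 z.2.2))) =
        (MvPolynomial.aeval (co fun i => FreeAlgebra.lift k S (f i)) :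
          MvPolynomial (Fin 3 × n × n) k →ₐ[k] k) := by
      apply MvPolynomial.algHom_ext
      rintro ⟨i, x, y⟩
      simp only [AlgHom.comp_apply, MvPolynomial.aeval_X]
      exact hΦ S i x y
    have h2 := congrArg (fun φ => φ F) h1
    simp only [AlgHom.comp_apply] at h2
    exact h2
  have hcurv : ∀ S : Fin 3 → Matrix n n k, Curv S →
      Curv fun i => FreeAlgebra.lift k S (f i) := by
    rintro S ⟨N, hN1, hN2, hN3⟩
    choose p hp1 hp2 using hN3
    refine ⟨N, hN1, hN2, fun i => ⟨FreeAlgebra.lift k p (f i), hf3 i p hp1, ?_⟩⟩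
    have h1 : ((Polynomial.aeval N : Polynomial k →ₐ[k] Matrix n n k).comp
        (FreeAlgebra.lift k p)) = FreeAlgebra.lift k S := by
      apply FreeAlgebra.hom_ext
      funext j
      simp only [Function.comp_apply, AlgHom.comp_apply, FreeAlgebra.lift_ι_apply]
      exact (hp2 j).symm
    have h2 := congrArg (fun φ => φ (f i)) h1
    simp only [AlgHom.comp_apply] at h2
    exact h2.symm
  have h1 : (fun i => FreeAlgebra.lift k T' (f i)) = T := funext hf1
  rw [← h1, ← hF']
  refine hT F' fun S hS => ?_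
  rw [hF']
  exact hF _ (hcurv S hS)

/-- a commuting nilpotent triple of `7 x 7` matrices is curvilinear if some polynomial in its
matrices has nonzero sixth power -/
theorem cl_of_pow_six {T : Fin 3 → Matrix (Fin 7) (Fin 7) k} (hT : CN T)
    {M : Matrix (Fin 7) (Fin 7) k} (hM : M ∈ adj T) (h : M ^ 6 ≠ 0) : Cl T := by
  obtain ⟨G, hG, hG'⟩ := TSQ.comm_regular (d := 7) (by norm_num) M (hT.nilp hM) h
  choose c hc using fun i => hG' (T i) (hT.comm (mem_adj T i) hM) (hT.2 i)
  exact Cl.of_curv ((TSQ.curv_nf (by norm_num) T).2 ⟨G, hG, c, hc⟩)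

theorem adj_family [Infinite k] {c : k → Fin 3 → Matrix n n k} (hc : PolyFam c)
    {M : Matrix n n k} (hM : M ∈ adj (c 0)) : ∃ M' : k → Matrix n n k, M' 0 = M ∧
      (∀ s, M' s ∈ adj (c s)) ∧ ∀ x y, IsPoly fun s => M' s x y := by
  obtain ⟨f, hf1, hf2, -⟩ := exists_free hM
  refine ⟨fun s => FreeAlgebra.lift k (c s) f, hf1, fun s => hf2 _, fun x y => ?_⟩
  choose p hp using hc
  refine ⟨(FreeAlgebra.lift k (fun i => (Matrix.of fun x y => p i x y :
    Matrix n n (Polynomial k))) f) x y, fun s => ?_⟩
  have h1 : ((Polynomial.aeval s : Polynomial k →ₐ[k] k).mapMatrix.comp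
      (FreeAlgebra.lift k (fun i => (Matrix.of fun x y => p i x y :
        Matrix n n (Polynomial k))))) = FreeAlgebra.lift k (c s) := by
    apply FreeAlgebra.hom_ext
    funext j
    simp only [Function.comp_apply, AlgHom.comp_apply, FreeAlgebra.lift_ι_apply]
    ext a b
    simp only [AlgHom.mapMatrix_apply, Matrix.map_apply, Matrix.of_apply,
      Polynomial.coe_aeval_eq_eval]
    exact (hp j a b s).symm
  have h2 := congrArg (fun φ => φ f x y) h1
  simp only [AlgHom.comp_apply, AlgHom.mapMatrix_apply, Matrix.map_apply,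
    Polynomial.coe_aeval_eq_eval] at h2
  exact h2.symm

end Pool.Agent.Lib.D7
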