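import Pool.Agent.Lib.D7.Poly
import Pool.Agent.Lib.D7.Adj

/-!
# Maximal bad triples: the interface
-/

namespace Pool.Agent.Lib.D7

open Matrix Pool.Agent.Lib.Q5dc

variable {k n m : Type*} [Field k] [Fintype n] [DecidableEq n] [Fintype m] [DecidableEq m]

/-- powers of a polynomial family of matrices are polynomial families -/
theorem isPoly_mul {M N : k → Matrix n n k} (hM : ∀ x y, IsPoly fun s => M s x y)
    (hN : ∀ x y, IsPoly fun s => N s x y) : ∀ x y, IsPoly fun s => (M s * N s) x y := by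
  intro x y
  choose p hp using hM
  choose q hq using hN
  refine ⟨∑ j, p x j * q j y, fun s => ?_⟩
  show (M s * N s) x y = _
  rw [Matrix.mul_apply, Polynomial.eval_finsetSum]
  refine Finset.sum_congr rfl fun j _ => ?_
  rw [Polynomial.eval_mul, ← hp, ← hq]

theorem isPoly_pow {M : k → Matrix n n k} (hM : ∀ x y, IsPoly fun s => M s x y) (i : ℕ) :
    ∀ x y, IsPoly fun s => (M s ^ i) x y := by
  induction i with
  | zero =>
    intro x y
    simp only [pow_zero]
    exact IsPoly.const _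
  | succ i ih =>
    simp only [pow_succ]
    exact isPoly_mul ih hM

variable {ρ : ℕ → ℕ} {T : Fin 3 → Matrix n n k}

theorem rks_le (M : Matrix n n k) : rks M ≤ Fintype.card n * Fintype.card n := by
  unfold rks
  calc ∑ i ∈ Finset.range (Fintype.card n), (M ^ (i + 1)).rank
      ≤ ∑ i ∈ Finset.range (Fintype.card n), Fintype.card n :=
        Finset.sum_le_sum fun i _ => Matrix.rank_le_card_width _
    _ = _ := by simp

theorem MaxR.change {T' : Fin 3 → Matrix n n k} (hT : MaxR ρ T) (hc : CN T')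
    (hm : ∀ i, T i ∈ adj T') : MaxR ρ T' := by
  refine ⟨hc, fun h => hT.ncl (cl_of_adj hm h), ?_, hT.max⟩
  obtain ⟨A, hA, hr⟩ := hT.att
  exact ⟨A, adj_le hm hA, hr⟩

/-- the image of `adj` under an algebra homomorphism -/
theorem mem_adj_map (φ : Matrix n n k →ₙₐ[k] Matrix m m k) {M : Matrix n n k}
    (hM : M ∈ adj T) : φ M ∈ adj fun i => φ (T i) := by
  unfold adj at hM ⊢
  have h : (fun i => φ (T i)) = φ ∘ T := rfl
  rw [h, Set.range_comp, ← NonUnitalAlgHom.map_adjoin]
  exact NonUnitalSubalgebra.mem_map.2 ⟨M, hM, rfl⟩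

theorem conj_pow' (g h : Matrix n n k) (hg : g * h = 1) (hh : h * g = 1) (M : Matrix n n k)
    (i : ℕ) : (g * M * h) ^ i = g * M ^ i * h := by
  have := map_pow (conjHom g h hg hh) M i
  simpa using this.symm

theorem rank_conj (g h : Matrix n n k) (hg : g * h = 1) (hh : h * g = 1) (M : Matrix n n k) :
    (g * M * h).rank = M.rank := by
  have h1 : IsUnit g.det := by
    rw [← Matrix.isUnit_iff_isUnit_det]
    exact ⟨⟨g, h, hg, hh⟩, rfl⟩
  have h2 : IsUnit h.det := by
    rw [← Matrix.isUnit_iff_isUnit_det]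
    exact ⟨⟨h, g, hh, hg⟩, rfl⟩
  rw [Matrix.rank_mul_eq_left_of_isUnit_det _ _ h2, Matrix.rank_mul_eq_right_of_isUnit_det _ _ h1]

theorem CN.conj (hT : CN T) (g h : Matrix n n k) (hg : g * h = 1) (hh : h * g = 1) :
    CN fun i => g * T i * h := by
  refine ⟨fun i j => ?_, fun i => ?_⟩
  · have h1 := congrArg (conjHom g h hg hh) (hT.1 i j)
    rw [map_mul, map_mul] at h1
    exact h1
  · exact (hT.2 i).map (conjHom g h hg hh)

theorem MaxR.conj (hT : MaxR ρ T) (g h : Matrix n n k)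
    (hg : g * h = 1) (hh : h * g = 1) : MaxR ρ fun i => g * T i * h := by
  refine ⟨hT.cn.conj g h hg hh, fun hcl => hT.ncl ?_, ?_, hT.max⟩
  · have h1 := hcl.conj h g hh hg
    have h2 : (fun i => h * (g * T i * h) * g) = T := by
      funext i
      calc h * (g * T i * h) * g = (h * g) * T i * (h * g) := by simp only [Matrix.mul_assoc]
        _ = T i := by rw [hh]; simp
    rwa [h2] at h1
  · obtain ⟨A, hA, hr⟩ := hT.att
    refine ⟨g * A * h, ?_, fun i => ?_⟩
    · exact mem_adj_map ((conjHom g h hg hh : Matrix n n k →ₐ[k] Matrix n n k) :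
        Matrix n n k →ₙₐ[k] Matrix n n k) hA
    · rw [conj_pow' g h hg hh, rank_conj g h hg hh, hr]

theorem CN.transpose (hT : CN T) : CN fun i => (T i)ᵀ := by
  refine ⟨fun i j => ?_, fun i => ?_⟩
  · show (T i)ᵀ * (T j)ᵀ = (T j)ᵀ * (T i)ᵀ
    rw [← Matrix.transpose_mul, ← Matrix.transpose_mul, hT.1]
  · obtain ⟨e, he⟩ := hT.2 i
    exact ⟨e, by rw [← Matrix.transpose_pow, he, Matrix.transpose_zero]⟩

theorem mem_adj_transpose {M : Matrix n n k} (hM : M ∈ adj T) :
    Mᵀ ∈ adj fun i => (T i)ᵀ := by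
  have key : ∀ M ∈ adj T, Mᵀ ∈ adj fun i => (T i)ᵀ := by
    intro M hM
    unfold adj at hM
    induction hM using NonUnitalAlgebra.adjoin_induction with
    | mem x hx =>
      obtain ⟨i, rfl⟩ := hx
      exact mem_adj (fun i => (T i)ᵀ) i
    | zero => rw [Matrix.transpose_zero]; exact zero_mem _
    | add x y _ _ hx hy => rw [Matrix.transpose_add]; exact add_mem hx hy
    | mul x y _ _ hx hy => rw [Matrix.transpose_mul]; exact mul_mem hy hx
    | smul r x _ hx => rw [Matrix.transpose_smul]; exact SMulMemClass.smul_mem r hx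
  exact key M hM

theorem MaxR.transpose (hT : MaxR ρ T) : MaxR ρ fun i => (T i)ᵀ := by
  refine ⟨hT.cn.transpose, fun hcl => hT.ncl ?_, ?_, hT.max⟩
  · have h1 := hcl.transpose
    simpa using h1
  · obtain ⟨A, hA, hr⟩ := hT.att
    refine ⟨Aᵀ, mem_adj_transpose hA, fun i => ?_⟩
    rw [← Matrix.transpose_pow, Matrix.rank_transpose, hr]

theorem pow_card_eq_zero {M : Matrix n n k} (hN : IsNilpotent M) : M ^ Fintype.card n = 0 := by
  have h1 := (Matrix.isNilpotent_charpoly_sub_pow_of_isNilpotent hN).eq_zero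
  have h2 := Matrix.aeval_self_charpoly M
  rw [sub_eq_zero.1 h1, map_pow, Polynomial.aeval_X] at h2
  exact h2

/-- from inequalities between the ranks of the powers and the reverse inequality of the sums -/
theorem rank_eq_of_sum {A M : Matrix n n k} (hA : IsNilpotent A) (hr : ∀ i, (A ^ i).rank = ρ i)
    (hN : IsNilpotent M)
    (h1 : rks M ≤ ∑ i ∈ Finset.range (Fintype.card n), ρ (i + 1))
    (h2 : ∀ i ∈ Finset.range (Fintype.card n), (A ^ (i + 1)).rank ≤ (M ^ (i + 1)).rank) (i : ℕ) :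
    (M ^ i).rank = ρ i := by
  rcases Nat.eq_zero_or_pos i with rfl | hi
  · rw [← hr 0, pow_zero, pow_zero]
  obtain ⟨j, rfl⟩ : ∃ j, i = j + 1 := ⟨i - 1, by omega⟩
  by_cases hj : j < Fintype.card n
  · have h3 : ∀ i ∈ Finset.range (Fintype.card n), ρ (i + 1) ≤ (M ^ (i + 1)).rank := by
      intro i hi
      rw [← hr]
      exact h2 i hi
    have h4 : ∑ i ∈ Finset.range (Fintype.card n), ρ (i + 1) =
        ∑ i ∈ Finset.range (Fintype.card n), (M ^ (i + 1)).rank :=
      le_antisymm (Finset.sum_le_sum h3) h1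
    exact (((Finset.sum_eq_sum_iff_of_le h3).1 h4) j (Finset.mem_range.2 hj)).symm
  · have h5 : ∀ B : Matrix n n k, IsNilpotent B → B ^ (j + 1) = 0 := by
      intro B hB
      obtain ⟨l, hl⟩ : ∃ l, j + 1 = Fintype.card n + l := ⟨j + 1 - Fintype.card n, by omega⟩
      rw [hl, pow_add, pow_card_eq_zero hB, zero_mul]
    rw [← hr, h5 M hN, h5 A hA]

theorem finite_exc [Infinite k] {M : k → Matrix n n k} (hM : ∀ x y, IsPoly fun s => M s x y) :
    {s | ∃ i ∈ Finset.range (Fintype.card n), (M s ^ (i + 1)).rank < (M 0 ^ (i + 1)).rank}.Finite := by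
  have : {s | ∃ i ∈ Finset.range (Fintype.card n),
      (M s ^ (i + 1)).rank < (M 0 ^ (i + 1)).rank} =
      ⋃ i ∈ Finset.range (Fintype.card n), {s | (M s ^ (i + 1)).rank < (M 0 ^ (i + 1)).rank} := by
    ext s
    simp
  rw [this]
  refine Set.Finite.biUnion (Finset.finite_toSet _) fun i _ => ?_
  exact rank_semicont (fun s => M s ^ (i + 1)) (isPoly_pow hM (i + 1)) 0

/-- a linear family of matrices -/
theorem isPoly_line (A B : Matrix n n k) : ∀ x y, IsPoly fun s => (A + s • B) x y := by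
  intro x y
  have h1 : (fun s : k => (A + s • B) x y) = fun s => A x y + s * B x y := by
    funext s
    simp
  rw [h1]
  exact (IsPoly.const _).add (IsPoly.id.mul (IsPoly.const _))

/-- the powers of an element of `adj T` have at most the ranks `ρ` -/
theorem MaxR.rank_le [Infinite k] (hT : MaxR ρ T) {M : Matrix n n k} (hM : M ∈ adj T)
    (i : ℕ) : (M ^ i).rank ≤ ρ i := by
  obtain ⟨A, hA, hr⟩ := hT.att
  have hf1 := finite_exc (isPoly_line A M)
  have hf2 := rank_semicont (fun s => (M + s • A) ^ i) (isPoly_pow (isPoly_line M A) i) 0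
  have hf3 : {s : k | ((M + s⁻¹ • A) ^ i).rank < (M ^ i).rank}.Finite := by
    have h1 : {s : k | ((M + s⁻¹ • A) ^ i).rank < (M ^ i).rank} =
        (fun s => s⁻¹) ⁻¹' {s : k | ((M + s • A) ^ i).rank < ((M + (0 : k) • A) ^ i).rank} := by
      ext s
      simp
    rw [h1]
    exact hf2.preimage (inv_injective.injOn)
  have hfin := (hf1.union hf3).union (Set.finite_singleton (0 : k))
  obtain ⟨s, hs⟩ := hfin.exists_notMem
  simp only [Set.mem_union, not_or, Set.mem_singleton_iff, Set.mem_ofPred_eq, not_exists,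
    not_and, not_lt] at hs
  obtain ⟨⟨h1, h2⟩, h3⟩ := hs
  have hmem : A + s • M ∈ adj T := add_mem hA (SMulMemClass.smul_mem s hM)
  have h4 := rank_eq_of_sum (hT.cn.nilp hA) hr (hT.cn.nilp hmem)
    (hT.max T hT.cn hT.ncl _ hmem) (fun i hi => by simpa using h1 i hi) i
  rw [← h4]
  refine h2.trans ?_
  have h5 : A + s • M = s • (M + s⁻¹ • A) := by
    rw [smul_add, smul_smul, mul_inv_cancel₀ h3, one_smul, add_comm]
  rw [h5, smul_pow]
  have h6 : (s ^ i • (M + s⁻¹ • A) ^ i).rank = ((M + s⁻¹ • A) ^ i).rank := by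
    have h7 : s ^ i • (M + s⁻¹ • A) ^ i =
        (Matrix.scalar n (s ^ i)) * (M + s⁻¹ • A) ^ i := by
      simp [Matrix.smul_eq_diagonal_mul]
    rw [h7]
    refine Matrix.rank_mul_eq_right_of_isUnit_det _ _ ?_
    simp [Matrix.scalar_apply, Matrix.det_diagonal, h3]
  rw [h6]

theorem MaxR.pow_eq_zero [Infinite k] (hT : MaxR ρ T) {M : Matrix n n k} (hM : M ∈ adj T)
    {i : ℕ} (h : ρ i = 0) : M ^ i = 0 := by
  have h1 := hT.rank_le hM i
  rw [h, Nat.le_zero] at h1
  rw [Matrix.rank, Submodule.finrank_eq_zero, LinearMap.range_eq_bot] at h1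
  have h2 : Matrix.mulVecLin (M ^ i) = Matrix.mulVecLin 0 := by rw [h1, Matrix.mulVecLin_zero]
  exact Matrix.toLin'.injective h2

/-- outside of a finite set the members of a polynomial family through a non-limit are non-limits -/
theorem finite_cl [Infinite k] (c : k → Fin 3 → Matrix n n k) (hc : PolyFam c)
    (h0 : ¬ Cl (c 0)) : {s | Cl (c s)}.Finite := by
  choose p hp using hc
  by_contra hinf
  apply h0
  have h1 : ∀ s, (fun i => Matrix.of fun x y => (p i x y).eval s) = c s := by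
    intro s
    funext i
    ext x y
    exact (hp i x y s).symm
  have h2 := Cl.curve p (by
    have : {s : k | Cl (fun i => Matrix.of fun x y => (p i x y).eval s)} = {s | Cl (c s)} := by
      ext s
      rw [Set.mem_ofPred_eq, h1]
      rfl
    rw [this]
    exact hinf) 0
  rwa [h1] at h2

/-- deformation: a polynomial family through a maximal bad triple, commuting and nilpotent
outside of a finite set of parameters, consists of maximal bad triples outside of a finite set -/
theorem MaxR.deform [Infinite k] (hT : MaxR ρ T)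
    (c : k → Fin 3 → Matrix n n k) (hc : PolyFam c) (h0 : c 0 = T) {E : Set k} (hE : E.Finite)
    (hcn : ∀ s ∉ E, CN (c s)) :
    ∃ E' : Set k, E'.Finite ∧ ∀ s ∉ E', MaxR ρ (c s) := by
  subst h0
  obtain ⟨A, hA, hr⟩ := hT.att
  obtain ⟨M, hM0, hM, hMp⟩ := adj_family hc hA
  have hf1 := finite_exc hMp
  have hf2 := finite_cl c hc hT.ncl
  refine ⟨(E ∪ {s | Cl (c s)}) ∪ {s | ∃ i ∈ Finset.range (Fintype.card n),
    (M s ^ (i + 1)).rank < (M 0 ^ (i + 1)).rank}, (hE.union hf2).union hf1, fun s hs => ?_⟩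
  simp only [Set.mem_union, not_or, Set.mem_ofPred_eq, not_exists, not_and, not_lt] at hs
  obtain ⟨⟨h1, h2⟩, h3⟩ := hs
  refine ⟨hcn s h1, h2, ⟨M s, hM s, ?_⟩, hT.max⟩
  exact rank_eq_of_sum (hT.cn.nilp hA) hr ((hcn s h1).nilp (hM s))
    (hT.max _ (hcn s h1) h2 _ (hM s)) (fun i hi => by rw [← hM0]; exact h3 i hi)

/-- raising: impossible for maximal bad triples -/
theorem MaxR.raise [Infinite k] (hT : MaxR ρ T)
    (c : k → Fin 3 → Matrix n n k) (hc : PolyFam c) (h0 : c 0 = T) {E : Set k} (hE : E.Finite)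
    (hcn : ∀ s ∉ E, CN (c s)) (i : ℕ) (M : k → Matrix n n k) (hM : ∀ s, M s ∈ adj (c s))
    (hx : {s | ρ i < (M s ^ i).rank}.Infinite) : False := by
  obtain ⟨E', hE', h1⟩ := hT.deform c hc h0 hE hcn
  obtain ⟨s, hs, hs'⟩ := (hx.sdiff hE').nonempty
  exact absurd ((h1 s hs').rank_le (hM s) i) (not_le.2 hs)

/-- an element of `adj T` is a linear combination of the `T j` up to products -/
theorem mem_adj_lin {M : Matrix n n k} (hM : M ∈ adj T) : ∃ y : Fin 3 → k,
    M - ∑ j, y j • T j ∈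
      Submodule.span k {M : Matrix n n k | ∃ P ∈ adj T, ∃ Q ∈ adj T, M = P * Q} := by
  have key : ∀ M ∈ adj T, ∃ y : Fin 3 → k, M - ∑ j, y j • T j ∈
      Submodule.span k {M : Matrix n n k | ∃ P ∈ adj T, ∃ Q ∈ adj T, M = P * Q} := by
    intro M hM
    have hM' := hM
    unfold adj at hM'
    induction hM' using NonUnitalAlgebra.adjoin_induction with
    | mem x hx =>
      obtain ⟨i, rfl⟩ := hx
      refine ⟨Pi.single i 1, ?_⟩
      have : ∑ j, (Pi.single i (1 : k) : Fin 3 → k) j • T j = T i := by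
        simp [Pi.single_apply]
      rw [this, sub_self]
      exact zero_mem _
    | zero => exact ⟨0, by simp⟩
    | add x y hx hy ihx ihy =>
      obtain ⟨a, ha⟩ := ihx hx
      obtain ⟨b, hb⟩ := ihy hy
      refine ⟨a + b, ?_⟩
      have : x + y - ∑ j, (a + b) j • T j =
          (x - ∑ j, a j • T j) + (y - ∑ j, b j • T j) := by
        simp only [Pi.add_apply, add_smul, Finset.sum_add_distrib]
        abel
      rw [this]
      exact add_mem ha hb
    | mul x y hx hy _ _ =>
      refine ⟨0, ?_⟩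
      simp only [Pi.zero_apply, zero_smul, Finset.sum_const_zero, sub_zero]
      exact Submodule.subset_span ⟨x, hx, y, hy, rfl⟩
    | smul r x hx ih =>
      obtain ⟨a, ha⟩ := ih hx
      refine ⟨r • a, ?_⟩
      have : r • x - ∑ j, (r • a) j • T j = r • (x - ∑ j, a j • T j) := by
        simp only [Pi.smul_apply, smul_assoc, smul_sub, Finset.smul_sum]
      rw [this]
      exact Submodule.smul_mem _ _ ha
  exact key M hM

theorem exists_maxR [Infinite k] (hT : CN T) (h : ¬ Cl T) :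
    ∃ T' : Fin 3 → Matrix n n k, MaxR (fun i => (T' 0 ^ i).rank) T' := by
  classical
  -- a triple and an element with the greatest sum of ranks
  let P : ℕ → Prop := fun m => ∃ T' : Fin 3 → Matrix n n k, CN T' ∧ ¬ Cl T' ∧ ∃ M ∈ adj T',
    rks M = m
  have hP : ∃ m, P m := ⟨_, T, hT, h, T 0, mem_adj T 0, rfl⟩
  have hb : ∀ m, P m → m ≤ Fintype.card n * Fintype.card n := by
    rintro m ⟨T', -, -, M, -, rfl⟩
    exact rks_le M
  obtain ⟨m, hm, hmax⟩ : ∃ m, P m ∧ ∀ m', P m' → m' ≤ m := by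
    refine ⟨Nat.findGreatest P (Fintype.card n * Fintype.card n), ?_, ?_⟩
    · obtain ⟨m, hm⟩ := hP
      exact Nat.findGreatest_spec (hb m hm) hm
    · intro m' hm'
      exact Nat.le_findGreatest (hb m' hm') hm'
  obtain ⟨T₁, hcn, hncl, M, hM, hr⟩ := hm
  obtain ⟨y, hy⟩ := mem_adj_lin hM
  have hf1 := finite_exc (isPoly_line M (T₁ 0))
  obtain ⟨s, hs⟩ := (hf1.union (Set.finite_singleton (-y 0))).exists_notMem
  simp only [Set.mem_union, not_or, Set.mem_singleton_iff, Set.mem_ofPred_eq, not_exists,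
    not_and, not_lt] at hs
  obtain ⟨h1, h2⟩ := hs
  have hy0 : y 0 + s ≠ 0 := fun h3 => h2 (by linear_combination h3)
  have hA : M + s • T₁ 0 ∈ adj T₁ := add_mem hM (SMulMemClass.smul_mem s (mem_adj T₁ 0))
  let T' : Fin 3 → Matrix n n k := ![M + s • T₁ 0, T₁ 1, T₁ 2]
  have hT'mem : ∀ i, T' i ∈ adj T₁ := by
    intro i
    fin_cases i
    · exact hA
    · exact mem_adj T₁ 1
    · exact mem_adj T₁ 2
  have hback : ∀ i, T₁ i ∈ adj T' := by
    refine adj_nak hcn hT'mem fun i => ?_
    fin_cases i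
    · refine ⟨(y 0 + s)⁻¹ • (T' 0 - y 1 • T' 1 - y 2 • T' 2), ?_, ?_⟩
      · exact SMulMemClass.smul_mem _ (sub_mem (sub_mem (mem_adj T' 0)
          (SMulMemClass.smul_mem _ (mem_adj T' 1))) (SMulMemClass.smul_mem _ (mem_adj T' 2)))
      · have h3 : T₁ 0 - (y 0 + s)⁻¹ • (T' 0 - y 1 • T' 1 - y 2 • T' 2) =
            (-(y 0 + s)⁻¹) • (M - ∑ j, y j • T₁ j) := by
          have h4 : T' 0 = M + s • T₁ 0 := rfl
          have h5 : T' 1 = T₁ 1 := rfl
          have h6 : T' 2 = T₁ 2 := rfl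
          rw [h4, h5, h6, Fin.sum_univ_three]
          have h7 : T₁ 0 = (y 0 + s)⁻¹ • (y 0 + s) • T₁ 0 := by
            rw [smul_smul, inv_mul_cancel₀ hy0, one_smul]
          conv_lhs =>
            lhs
            rw [h7]
          module
        have h9 := Submodule.smul_mem _ (-(y 0 + s)⁻¹) hy
        rw [← h3] at h9
        exact h9
    · exact ⟨T' 1, mem_adj T' 1, by
        have : T₁ 1 - T' 1 = 0 := sub_self _
        show T₁ 1 - T' 1 ∈ _
        rw [this]; exact zero_mem _⟩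
    · exact ⟨T' 2, mem_adj T' 2, by
        have : T₁ 2 - T' 2 = 0 := sub_self _
        show T₁ 2 - T' 2 ∈ _
        rw [this]; exact zero_mem _⟩
  have hcn' : CN T' := hcn.of_adj hT'mem
  have hncl' : ¬ Cl T' := fun h3 => hncl (cl_of_adj hback h3)
  have hle : m ≤ rks (T' 0) := by
    rw [← hr]
    unfold rks
    refine Finset.sum_le_sum fun i hi => ?_
    have h6 := h1 i hi
    rw [zero_smul, add_zero] at h6
    exact h6
  refine ⟨T', hcn', hncl', ⟨T' 0, mem_adj T' 0, fun i => rfl⟩, fun T₂ h3 h4 M₂ h5 => ?_⟩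
  exact (hmax _ ⟨T₂, h3, h4, M₂, h5, rfl⟩).trans hle

end Pool.Agent.Lib.D7
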