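import Pool.Agent.Lib.D7.Defs

/-!
# MP_5dcbc3_ag: polynomial functions of one variable, ranks of minors, semicontinuity of the rank,
nilpotency of triangular matrices
-/

namespace Pool.Agent.Lib.D7

open Matrix Pool.Agent.Lib.Q5dc

variable {k n m : Type*} [Field k] [Fintype n] [DecidableEq n] [Fintype m] [DecidableEq m]

/-! ### polynomial functions -/

theorem IsPoly.const (a : k) : IsPoly fun _ : k => a :=
  ⟨Polynomial.C a, fun s => by rw [Polynomial.eval_C]⟩

theorem IsPoly.id : IsPoly fun s : k => s :=
  ⟨Polynomial.X, fun s => by rw [Polynomial.eval_X]⟩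

theorem IsPoly.add {f g : k → k} (hf : IsPoly f) (hg : IsPoly g) :
    IsPoly fun s => f s + g s := by
  obtain ⟨p, hp⟩ := hf
  obtain ⟨q, hq⟩ := hg
  exact ⟨p + q, fun s => by simp only [Polynomial.eval_add, hp, hq]⟩

theorem IsPoly.sub {f g : k → k} (hf : IsPoly f) (hg : IsPoly g) :
    IsPoly fun s => f s - g s := by
  obtain ⟨p, hp⟩ := hf
  obtain ⟨q, hq⟩ := hg
  exact ⟨p - q, fun s => by simp only [Polynomial.eval_sub, hp, hq]⟩

theorem IsPoly.mul {f g : k → k} (hf : IsPoly f) (hg : IsPoly g) :
    IsPoly fun s => f s * g s := by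
  obtain ⟨p, hp⟩ := hf
  obtain ⟨q, hq⟩ := hg
  exact ⟨p * q, fun s => by simp only [Polynomial.eval_mul, hp, hq]⟩

theorem IsPoly.neg {f : k → k} (hf : IsPoly f) : IsPoly fun s => -f s := by
  obtain ⟨p, hp⟩ := hf
  exact ⟨-p, fun s => by simp only [Polynomial.eval_neg, hp]⟩

theorem IsPoly.pow {f : k → k} (hf : IsPoly f) (i : ℕ) : IsPoly fun s => f s ^ i := by
  obtain ⟨p, hp⟩ := hf
  exact ⟨p ^ i, fun s => by simp only [Polynomial.eval_pow, hp]⟩

theorem IsPoly.finite {f : k → k} (hf : IsPoly f) {s₁ : k} (h : f s₁ ≠ 0) :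
    {s | f s = 0}.Finite := by
  obtain ⟨p, hp⟩ := hf
  have hp0 : p ≠ 0 := by
    rintro rfl
    exact h (by rw [hp, Polynomial.eval_zero])
  have e : {s | f s = 0} = {s | p.IsRoot s} := by
    ext s
    rw [Set.mem_ofPred_eq, Set.mem_ofPred_eq, Polynomial.IsRoot.def, hp]
  rw [e]
  exact Polynomial.finite_setOfPred_isRoot hp0

/-- lines are polynomial families -/
theorem PolyFam.line (T D : Fin 3 → Matrix n n k) : PolyFam fun s => T + s • D :=
  fun i x y => (IsPoly.const (T i x y)).add (IsPoly.id.mul (IsPoly.const (D i x y)))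

/-! ### ranks, nilpotency -/

/-- a nonsingular `r x r` minor gives rank at least `r` -/
theorem le_rank_of_minor {r : ℕ} (M : Matrix n n k) (f g : Fin r → n)
    (h : (M.submatrix f g).det ≠ 0) : r ≤ M.rank := by
  have h1 : (M.submatrix f g).rank = r := by
    rw [rank_of_isUnit _ ((Matrix.isUnit_iff_isUnit_det _).2 (isUnit_iff_ne_zero.2 h)),
      Fintype.card_fin]
  have e : M.submatrix f g =
      (1 : Matrix n n k).submatrix f id * (M * (1 : Matrix n n k).submatrix id g) := by
    ext i j
    simp [Matrix.mul_apply, Matrix.one_apply]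
  rw [e] at h1
  rw [← h1]
  exact (rank_mul_le_right _ _).trans (rank_mul_le_left _ _)

/-- a matrix which factors through `k^r` has rank at most `r` -/
theorem rank_le_of_factor {r : ℕ} (M : Matrix n n k) (P : Matrix n (Fin r) k)
    (Q : Matrix (Fin r) n k) (h : M = P * Q) : M.rank ≤ r := by
  rw [h]
  refine (rank_mul_le_left _ _).trans ?_
  exact (rank_le_card_width P).trans (Fintype.card_fin r).le

/-- strictly triangular (after sorting by the weight `w`) matrices are nilpotent -/
theorem isNilpotent_of_weight (M : Matrix n n k) (w : n → ℕ)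
    (h : ∀ i j, w i ≤ w j → M i j = 0) : IsNilpotent M := by
  have key : ∀ N : ℕ, ∀ i j, (M ^ N) i j ≠ 0 → w j + N ≤ w i := by
    intro N
    induction N with
    | zero =>
      intro i j hij
      rw [pow_zero, Matrix.one_apply] at hij
      by_cases e : i = j
      · subst e; simp
      · rw [if_neg e] at hij; exact absurd rfl hij
    | succ N ih =>
      intro i j hij
      rw [pow_succ, Matrix.mul_apply] at hij
      obtain ⟨l, -, hl⟩ := Finset.exists_ne_zero_of_sum_ne_zero hij
      have h1 := ih i l (left_ne_zero_of_mul hl)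
      have h2 : w j < w l := by
        by_contra hc
        exact right_ne_zero_of_mul hl (h l j (not_lt.1 hc))
      omega
  refine ⟨(∑ i, w i) + 1, ?_⟩
  ext i j
  by_contra hne
  have h1 := key _ i j hne
  have h2 : w i ≤ ∑ i, w i := Finset.single_le_sum (f := w) (fun _ _ => Nat.zero_le _)
    (Finset.mem_univ i)
  omega

namespace PolyAux

theorem det_poly {r : ℕ} (M : k → Matrix n n k) (hM : ∀ x y, IsPoly fun s => M s x y)
    (f g : Fin r → n) : IsPoly fun s => ((M s).submatrix f g).det := by
  choose p hp using hM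
  refine ⟨(Matrix.of fun i j => p (f i) (g j)).det, fun s => ?_⟩
  rw [← Polynomial.coe_evalRingHom, RingHom.map_det]
  have e : (M s).submatrix f g =
      (Polynomial.evalRingHom s).mapMatrix (Matrix.of fun i j => p (f i) (g j)) := by
    ext i j
    exact hp (f i) (g j) s
  rw [← e]

/-- a linearly independent subfamily of the right size -/
theorem exists_sub {V ι : Type*} [AddCommGroup V] [Module k V] [Finite ι] (v : ι → V) (r : ℕ)
    (hr : Module.finrank k (Submodule.span k (Set.range v)) = r) :
    ∃ f : Fin r → ι, LinearIndependent k (v ∘ f) := by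
  obtain ⟨κ, a, ha, hsp, hli⟩ := exists_linearIndependent' k v
  have : Finite κ := Finite.of_injective a ha
  have := Fintype.ofFinite κ
  have hcard : Fintype.card κ = r := by
    rw [linearIndependent_iff_card_eq_finrank_span.mp hli, Set.finrank, hsp, hr]
  let e : Fin r ≃ κ := (finCongr hcard.symm).trans (Fintype.equivFin κ).symm
  exact ⟨a ∘ e, hli.comp e e.injective⟩

omit [DecidableEq n] in
theorem exists_minor (M : Matrix n n k) :
    ∃ f g : Fin M.rank → n, (M.submatrix f g).det ≠ 0 := by
  obtain ⟨f, hf⟩ := exists_sub (k := k) M.row M.rank M.rank_eq_finrank_span_row.symm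
  have hN : (M.submatrix f id).rank = M.rank := by
    have h1 : LinearIndependent k (M.submatrix f id).row := hf
    rw [h1.rank_matrix, Fintype.card_fin]
  obtain ⟨g, hg⟩ := exists_sub (k := k) (M.submatrix f id).col M.rank
    ((M.submatrix f id).rank_eq_finrank_span_cols.symm.trans hN)
  refine ⟨f, g, ?_⟩
  have h2 : LinearIndependent k (M.submatrix f g).col := hg
  exact isUnit_iff_ne_zero.1 ((Matrix.isUnit_iff_isUnit_det _).1
    (linearIndependent_cols_iff_isUnit.1 h2))

end PolyAux

open PolyAux

/-- semicontinuity of the rank -/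
theorem rank_semicont [Infinite k] (M : k → Matrix n n k) (hM : ∀ x y, IsPoly fun s => M s x y)
    (s₀ : k) : {s | (M s).rank < (M s₀).rank}.Finite := by
  obtain ⟨f, g, h⟩ := exists_minor (M s₀)
  refine ((det_poly M hM f g).finite h).subset fun s hs => ?_
  by_contra hne
  exact absurd (le_rank_of_minor (M s) f g hne) (not_le.2 hs)

end Pool.Agent.Lib.D7
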