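import Mathlib

/-!
# MP_5dcbc3_ag: small sizes (4, 5, 6): Jordan matrices, explicit families
-/

namespace Pool.Agent.Lib.D7

/-- Jordan matrix of type `(4)` -/
def J4 (k : Type*) [Field k] : Matrix (Fin 4) (Fin 4) k :=
  !![0, 0, 0, 0;
     1, 0, 0, 0;
     0, 1, 0, 0;
     0, 0, 1, 0]

/-- Jordan matrix of type `(3, 1)` -/
def J31 (k : Type*) [Field k] : Matrix (Fin 4) (Fin 4) k :=
  !![0, 0, 0, 0;
     1, 0, 0, 0;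
     0, 1, 0, 0;
     0, 0, 0, 0]

/-- Jordan matrix of type `(5)` -/
def J5 (k : Type*) [Field k] : Matrix (Fin 5) (Fin 5) k :=
  !![0, 0, 0, 0, 0;
     1, 0, 0, 0, 0;
     0, 1, 0, 0, 0;
     0, 0, 1, 0, 0;
     0, 0, 0, 1, 0]

/-- Jordan matrix of type `(4, 1)` -/
def J41 (k : Type*) [Field k] : Matrix (Fin 5) (Fin 5) k :=
  !![0, 0, 0, 0, 0;
     1, 0, 0, 0, 0;
     0, 1, 0, 0, 0;
     0, 0, 1, 0, 0;
     0, 0, 0, 0, 0]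

/-- Jordan matrix of type `(3, 2)` -/
def J32 (k : Type*) [Field k] : Matrix (Fin 5) (Fin 5) k :=
  !![0, 0, 0, 0, 0;
     1, 0, 0, 0, 0;
     0, 1, 0, 0, 0;
     0, 0, 0, 0, 0;
     0, 0, 0, 1, 0]

/-- Jordan matrix of type `(6)` -/
def J6 (k : Type*) [Field k] : Matrix (Fin 6) (Fin 6) k :=
  !![0, 0, 0, 0, 0, 0;
     1, 0, 0, 0, 0, 0;
     0, 1, 0, 0, 0, 0;
     0, 0, 1, 0, 0, 0;
     0, 0, 0, 1, 0, 0;
     0, 0, 0, 0, 1, 0]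

/-- Jordan matrix of type `(5, 1)` -/
def J51 (k : Type*) [Field k] : Matrix (Fin 6) (Fin 6) k :=
  !![0, 0, 0, 0, 0, 0;
     1, 0, 0, 0, 0, 0;
     0, 1, 0, 0, 0, 0;
     0, 0, 1, 0, 0, 0;
     0, 0, 0, 1, 0, 0;
     0, 0, 0, 0, 0, 0]

/-- Jordan matrix of type `(4, 2)` -/
def J42 (k : Type*) [Field k] : Matrix (Fin 6) (Fin 6) k :=
  !![0, 0, 0, 0, 0, 0;
     1, 0, 0, 0, 0, 0;
     0, 1, 0, 0, 0, 0;
     0, 0, 1, 0, 0, 0;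
     0, 0, 0, 0, 0, 0;
     0, 0, 0, 0, 1, 0]

/-- Jordan matrix of type `(3, 3)` -/
def J33 (k : Type*) [Field k] : Matrix (Fin 6) (Fin 6) k :=
  !![0, 0, 0, 0, 0, 0;
     1, 0, 0, 0, 0, 0;
     0, 1, 0, 0, 0, 0;
     0, 0, 0, 0, 0, 0;
     0, 0, 0, 1, 0, 0;
     0, 0, 0, 0, 1, 0]

/-- Jordan matrix of type `(3, 2, 1)` -/
def J321 (k : Type*) [Field k] : Matrix (Fin 6) (Fin 6) k :=
  !![0, 0, 0, 0, 0, 0;
     1, 0, 0, 0, 0, 0;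
     0, 1, 0, 0, 0, 0;
     0, 0, 0, 0, 0, 0;
     0, 0, 0, 1, 0, 0;
     0, 0, 0, 0, 0, 0]

/-- Jordan matrix with one block of size `a` on the first basis vectors of `k^N`, the rest zero -/
def JhN (k : Type*) [Field k] (N a : ℕ) : Matrix (Fin N) (Fin N) k :=
  Matrix.of fun x y => if x.val = y.val + 1 ∧ x.val < a then 1 else 0

/-- matrices commuting with the Jordan matrix `J31` -/
def B31 {k : Type*} [Field k] (c b : k) : Matrix (Fin 4) (Fin 4) k :=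
  !![0, 0, 0, 0;
     0, 0, 0, 0;
     0, 0, 0, b;
     c, 0, 0, 0]

/-- matrices commuting with the Jordan matrix `J41` -/
def B41 {k : Type*} [Field k] (c b : k) : Matrix (Fin 5) (Fin 5) k :=
  !![0, 0, 0, 0, 0;
     0, 0, 0, 0, 0;
     0, 0, 0, 0, 0;
     0, 0, 0, 0, b;
     c, 0, 0, 0, 0]

/-- matrices commuting with the Jordan matrix `J51` -/
def B51 {k : Type*} [Field k] (c b : k) : Matrix (Fin 6) (Fin 6) k :=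
  !![0, 0, 0, 0, 0, 0;
     0, 0, 0, 0, 0, 0;
     0, 0, 0, 0, 0, 0;
     0, 0, 0, 0, 0, 0;
     0, 0, 0, 0, 0, b;
     c, 0, 0, 0, 0, 0]

/-- matrices commuting with the Jordan matrix `J32` -/
def B32 {k : Type*} [Field k] (b0 b1 c0 c1 q1 : k) : Matrix (Fin 5) (Fin 5) k :=
  !![0, 0, 0, 0, 0;
     0, 0, 0, b0, 0;
     0, 0, 0, b1, b0;
     c0, 0, 0, 0, 0;
     c1, c0, 0, q1, 0]

/-- matrices commuting with the Jordan matrix `J42` -/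
def B42 {k : Type*} [Field k] (b0 b1 c0 c1 q1 : k) : Matrix (Fin 6) (Fin 6) k :=
  !![0, 0, 0, 0, 0, 0;
     0, 0, 0, 0, 0, 0;
     0, 0, 0, 0, b0, 0;
     0, 0, 0, 0, b1, b0;
     c0, 0, 0, 0, 0, 0;
     c1, c0, 0, 0, q1, 0]

/-- matrices commuting with the Jordan matrix `J33` -/
def B33 {k : Type*} [Field k] (b0 b1 b2 c0 c1 c2 q1 q2 : k) : Matrix (Fin 6) (Fin 6) k :=
  !![0, 0, 0, b0, 0, 0;
     0, 0, 0, b1, b0, 0;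
     0, 0, 0, b2, b1, b0;
     c0, 0, 0, 0, 0, 0;
     c1, c0, 0, q1, 0, 0;
     c2, c1, c0, q2, q1, 0]

/-- matrices commuting with the Jordan matrix `J321` -/
def B321 {k : Type*} [Field k] (al al1 om be be1 ga pi th et : k) : Matrix (Fin 6) (Fin 6) k :=
  !![0, 0, 0, 0, 0, 0;
     0, 0, 0, be, 0, 0;
     0, 0, 0, be1, be, th;
     al, 0, 0, 0, 0, 0;
     al1, al, 0, ga, 0, et;
     om, 0, 0, pi, 0, 0]

/-- family for the node `(2,2)` (size 4) -/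
def Xn22 {k : Type*} [Field k] (s : k) : Matrix (Fin 4) (Fin 4) k :=
  !![0, 0, 0, 0;
     1, 0, -s ^ 2, s;
     0, 1, s, 0;
     0, 0, s ^ 2, -s]

/-- family for the node `(2,2)` (size 4) -/
def Yn22 {k : Type*} [Field k] (s : k) : Matrix (Fin 4) (Fin 4) k :=
  !![0, 0, 0, 0;
     0, s, -s ^ 2, 2 * s;
     0, 0, s, -1;
     1, -s, s ^ 2, -2 * s]

/-- family for the node `(2,2)` (size 4) -/
def Pn22 {k : Type*} [Field k] (s : k) : Matrix (Fin 4) (Fin 4) k :=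
  !![1, 0, 0, 0;
     0, s, 0, s;
     0, 0, s ^ 2, -s;
     0, 0, 0, s]

/-- family for the node `(3,2)` (size 5) -/
def Xn32 {k : Type*} [Field k] (s : k) : Matrix (Fin 5) (Fin 5) k :=
  !![0, 0, 0, 0, 0;
     1, 0, 0, s ^ 6, s ^ 3;
     0, 1, 0, -s ^ 4, 0;
     0, 0, 1, s ^ 2, 0;
     0, 0, 0, -s ^ 5, -s ^ 2]

/-- family for the node `(3,2)` (size 5) -/
def Yn32 {k : Type*} [Field k] (s : k) : Matrix (Fin 5) (Fin 5) k :=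
  !![0, 0, 0, 0, 0;
     0, s ^ 3, -s ^ 5, s ^ 7, 3 * s ^ 4;
     0, 0, s ^ 3, -s ^ 5, -2 * s ^ 2;
     0, 0, 0, s ^ 3, 1;
     1, -s ^ 2, s ^ 4, -s ^ 6, -3 * s ^ 3]

/-- family for the node `(3,2)` (size 5) -/
def Pn32 {k : Type*} [Field k] (s : k) : Matrix (Fin 5) (Fin 5) k :=
  !![1, 0, 0, 0, 0;
     0, s ^ 2, 0, 0, s ^ 3;
     0, 0, s ^ 4, 0, -s ^ 3;
     0, 0, 0, s ^ 6, s ^ 3;
     0, 0, 0, 0, -s ^ 3]

/-- family for the node `(4,2)` (size 6) -/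
def Xn42 {k : Type*} [Field k] (s : k) : Matrix (Fin 6) (Fin 6) k :=
  !![0, 0, 0, 0, 0, 0;
     1, 0, 0, 0, -s ^ 4, s ^ 2;
     0, 1, 0, 0, s ^ 3, 0;
     0, 0, 1, 0, -s ^ 2, 0;
     0, 0, 0, 1, s, 0;
     0, 0, 0, 0, s ^ 3, -s]

/-- family for the node `(4,2)` (size 6) -/
def Yn42 {k : Type*} [Field k] (s : k) : Matrix (Fin 6) (Fin 6) k :=
  !![0, 0, 0, 0, 0, 0;
     0, s ^ 2, -s ^ 3, s ^ 4, -s ^ 5, 4 * s ^ 3;
     0, 0, s ^ 2, -s ^ 3, s ^ 4, -3 * s ^ 2;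
     0, 0, 0, s ^ 2, -s ^ 3, 2 * s;
     0, 0, 0, 0, s ^ 2, -1;
     1, -s, s ^ 2, -s ^ 3, s ^ 4, -4 * s ^ 2]

/-- family for the node `(4,2)` (size 6) -/
def Pn42 {k : Type*} [Field k] (s : k) : Matrix (Fin 6) (Fin 6) k :=
  !![1, 0, 0, 0, 0, 0;
     0, s, 0, 0, 0, s ^ 2;
     0, 0, s ^ 2, 0, 0, -s ^ 2;
     0, 0, 0, s ^ 3, 0, s ^ 2;
     0, 0, 0, 0, s ^ 4, -s ^ 2;
     0, 0, 0, 0, 0, s ^ 2]

/-- family for the node `(3,3)` (size 6) -/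
def Xn33 {k : Type*} [Field k] (s : k) : Matrix (Fin 6) (Fin 6) k :=
  !![0, 0, 0, 0, 0, 0;
     1, 0, 0, 4 * s ^ 3, s, s ^ 2;
     0, 1, 0, -3 * s ^ 2, 0, 0;
     0, 0, 1, 2 * s, 0, 0;
     0, 0, 0, -4 * s ^ 3, -s, -s ^ 2;
     0, 0, 0, -s ^ 2, 0, -s]

/-- family for the node `(3,3)` (size 6) -/
def Yn33 {k : Type*} [Field k] (s : k) : Matrix (Fin 6) (Fin 6) k :=
  !![0, 0, 0, 0, 0, 0;
     0, s, -s ^ 2, s ^ 3, 0, 6 * s ^ 2;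
     0, 0, s, -s ^ 2, 0, -3 * s;
     0, 0, 0, s, 0, 1;
     1, -s, s ^ 2, -s ^ 3, 0, -6 * s ^ 2;
     0, 0, 0, 0, 1, -3 * s]

/-- family for the node `(3,3)` (size 6) -/
def Pn33 {k : Type*} [Field k] (s : k) : Matrix (Fin 6) (Fin 6) k :=
  !![1, 0, 0, 0, 0, 0;
     0, s, 0, 0, s, 0;
     0, 0, s ^ 2, 0, -s, s ^ 2;
     0, 0, 0, s ^ 3, s, -2 * s ^ 2;
     0, 0, 0, 0, -s, 3 * s ^ 2;
     0, 0, 0, 0, s, -4 * s ^ 2]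

/-- family for the algebra `xy = xz = yz = 0, x^2 = y^2 + z^2` (basis `1, x, y, z, y^2, z^2`) -/
def R321 {k : Type*} [Field k] (t : k) : Fin 3 → Matrix (Fin 6) (Fin 6) k :=
  ![!![0, 0, 0, 0, 0, 0;
     1, 0, 0, 0, 0, 0;
     0, 2 * t, 0, 0, 0, 0;
     0, -2 * t, 0, 0, 0, 0;
     0, 1, 0, 0, 0, 0;
     0, 1, 0, 0, 0, 0],
    !![0, 0, 0, 0, 0, 0;
     0, 0, 0, 0, 0, 0;
     1, 0, 0, -t, -3 * t ^ 2, t ^ 2;
     0, 0, 0, t, 3 * t ^ 2, -t ^ 2;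
     0, 0, 1, 0, -2 * t, 0;
     0, 0, 0, 0, -t, t],
    !![0, 0, 0, 0, 0, 0;
     0, 0, 0, 0, 0, 0;
     0, 0, -t, 0, -t ^ 2, 3 * t ^ 2;
     1, 0, t, 0, t ^ 2, -3 * t ^ 2;
     0, 0, 0, 0, -t, t;
     0, 0, 0, 1, 0, 2 * t]]

/-- the algebra `k + R_1 + R_2` with `R_1 = <e1, e2, e3>`, `R_2 = <e4, e5>`: `x_i e0 = e_i`,
`x_i e_j = sum_l r (q, l) e_(4+l)` with `q` the number of the pair `ij` in `11, 12, 13, 22, 23, 33` -/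
def Tp {k : Type*} [Field k] (r : Fin 6 × Fin 2 → k) : Fin 3 → Matrix (Fin 6) (Fin 6) k :=
  ![!![0, 0, 0, 0, 0, 0;
     1, 0, 0, 0, 0, 0;
     0, 0, 0, 0, 0, 0;
     0, 0, 0, 0, 0, 0;
     0, r (0, 0), r (1, 0), r (2, 0), 0, 0;
     0, r (0, 1), r (1, 1), r (2, 1), 0, 0],
    !![0, 0, 0, 0, 0, 0;
     0, 0, 0, 0, 0, 0;
     1, 0, 0, 0, 0, 0;
     0, 0, 0, 0, 0, 0;
     0, r (1, 0), r (3, 0), r (4, 0), 0, 0;
     0, r (1, 1), r (3, 1), r (4, 1), 0, 0],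
    !![0, 0, 0, 0, 0, 0;
     0, 0, 0, 0, 0, 0;
     0, 0, 0, 0, 0, 0;
     1, 0, 0, 0, 0, 0;
     0, r (2, 0), r (4, 0), r (5, 0), 0, 0;
     0, r (2, 1), r (4, 1), r (5, 1), 0, 0]]

end Pool.Agent.Lib.D7
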