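import Pool.Agent.Lib.D7.Api
import Pool.Agent.Lib.D7.JordanS
import Pool.Agent.Lib.TSQ.Bridge

/-!
# Two tools: regular nilpotent elements and square zero algebras
-/

namespace Pool.Agent.Lib.D7

open Matrix Pool.Agent.Lib.Q5dc

universe u

variable {k : Type u} [Field k]

/-- a commuting nilpotent triple is curvilinear if some polynomial in its matrices is a regular
nilpotent matrix -/
theorem cl_of_pow {n : ℕ} (hn : 0 < n) {T : Fin 3 → Matrix (Fin n) (Fin n) k} (hT : CN T)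
    {M : Matrix (Fin n) (Fin n) k} (hM : M ∈ adj T) (h : M ^ (n - 1) ≠ 0) : Cl T := by
  obtain ⟨G, hG, hGc⟩ := TSQ.comm_regular hn M (hT.nilp hM) h
  have hex : ∀ ν, ∃ c : Fin n → k, T ν = G * TSQ.toep c * G⁻¹ := fun ν =>
    hGc (T ν) (hT.comm (mem_adj T ν) hM) (hT.2 ν)
  choose c hc using hex
  intro F hF
  exact hF _ ((TSQ.curv_nf hn T).2 ⟨G, hG, c, hc⟩)

variable [IsAlgClosed k] [CharZero k]

theorem MaxR.cl_of_sq {n : ℕ} {ρ : ℕ → ℕ} {T : Fin 3 → Matrix (Fin (n + 1)) (Fin (n + 1)) k}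
    (hT : MaxR ρ T) (h2 : ρ 2 = 0) : False := by
  have : Infinite k := IsAlgClosed.instInfinite
  refine hT.ncl (Q5dc.cl_two_step T fun i j => ?_)
  have hsq : ∀ M ∈ adj T, M ^ 2 = 0 := fun M hM => hT.pow_eq_zero hM h2
  have h3 := hsq _ (add_mem (mem_adj T i) (mem_adj T j))
  have h4 := hsq _ (mem_adj T i)
  have h5 := hsq _ (mem_adj T j)
  have h6 : (2 : k) • (T i * T j) = 0 := by
    have h7 : (T i + T j) ^ 2 = T i ^ 2 + T j ^ 2 + (2 : k) • (T i * T j) := by
      rw [pow_two, pow_two, pow_two, add_mul, mul_add, mul_add, hT.cn.1 j i, two_smul]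
      abel
    rw [h3, h4, h5, zero_add, zero_add] at h7
    exact h7.symm
  exact (smul_eq_zero.1 h6).resolve_left two_ne_zero

end Pool.Agent.Lib.D7
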