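import Pool.Agent.Lib.D7.Api
import Pool.Agent.Lib.D7.DefsS

/-!
# MP_5dcbc3_ag: Jordan type `(3, 2)`
-/

namespace Pool.Agent.Lib.D7

open Matrix

namespace T32SAux

variable {k : Type*} [Field k]

theorem comm_J (b0 b1 c0 c1 q1 : k) :
    J32 k * B32 b0 b1 c0 c1 q1 = B32 b0 b1 c0 c1 q1 * J32 k := by
  ext i j
  fin_cases i <;> fin_cases j <;>
    simp [J32, B32, Matrix.mul_apply, Fin.sum_univ_succ]

theorem J_mul (b0 b1 c0 c1 q1 : k) : J32 k * B32 b0 b1 c0 c1 q1 = B32 0 b0 0 c0 0 := by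
  ext i j
  fin_cases i <;> fin_cases j <;>
    simp [J32, B32, Matrix.mul_apply, Fin.sum_univ_succ]

theorem comm_BB {b0 b1 c0 c1 q1 b0' b1' c0' c1' q1' : k}
    (r1 : c0' * b0 = c0 * b0') (r2 : c0' * b1 + c1' * b0 = c0 * b1' + c1 * b0')
    (r4 : c0' * q1 = c0 * q1') (r6 : q1' * b0 = q1 * b0') :
    B32 b0 b1 c0 c1 q1 * B32 b0' b1' c0' c1' q1' =
      B32 b0' b1' c0' c1' q1' * B32 b0 b1 c0 c1 q1 := by
  ext i j
  fin_cases i <;> fin_cases j <;>
    simp [B32, Matrix.mul_apply, Fin.sum_univ_succ] <;>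
    first
    | ring1
    | linear_combination r1
    | linear_combination r2
    | linear_combination r4
    | linear_combination r6
    | linear_combination -r1

theorem rel_BB {b0 b1 c0 c1 q1 b0' b1' c0' c1' q1' : k}
    (h : B32 b0 b1 c0 c1 q1 * B32 b0' b1' c0' c1' q1' =
      B32 b0' b1' c0' c1' q1' * B32 b0 b1 c0 c1 q1) :
    c0' * b0 = c0 * b0' ∧ c0' * b1 + c1' * b0 = c0 * b1' + c1 * b0' ∧
    c0' * q1 = c0 * q1' ∧ q1' * b0 = q1 * b0' := by
  have e1 := congrFun (congrFun h 1) 0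
  have e2 := congrFun (congrFun h 2) 0
  have e4 := congrFun (congrFun h 4) 0
  have e6 := congrFun (congrFun h 2) 3
  simp [B32, Matrix.mul_apply, Fin.sum_univ_succ] at e1 e2 e4 e6
  refine ⟨?_, ?_, ?_, ?_⟩
  · linear_combination e1
  · linear_combination e2
  · linear_combination e4
  · linear_combination e6

/-- the nilpotent matrices commuting with `J32` -/
def S32 (p1 p2 b0 b1 c0 c1 q1 : k) : Matrix (Fin 5) (Fin 5) k :=
  !![0, 0, 0, 0, 0;
     p1, 0, 0, b0, 0;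
     p2, p1, 0, b1, b0;
     c0, 0, 0, 0, 0;
     c1, c0, 0, p1 + q1, 0]

theorem J_sq : J32 k * J32 k = S32 0 1 0 0 0 0 0 := by
  ext i j
  fin_cases i <;> fin_cases j <;> simp [J32, S32, Matrix.mul_apply, Fin.sum_univ_succ]

theorem S_eq (p1 p2 b0 b1 c0 c1 q1 : k) : S32 p1 p2 b0 b1 c0 c1 q1 =
    p1 • J32 k + p2 • (J32 k * J32 k) + B32 b0 b1 c0 c1 q1 := by
  rw [J_sq]
  ext i j
  fin_cases i <;> fin_cases j <;> simp [J32, S32, B32]

theorem nil_row {M : Matrix (Fin 5) (Fin 5) k} (hM : IsNilpotent M) (w : Fin 5 → k) (c : k)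
    (h : w ᵥ* M = c • w) (hw : w ≠ 0) : c = 0 := by
  obtain ⟨n, hn⟩ := hM
  have h1 : ∀ m : ℕ, w ᵥ* M ^ m = c ^ m • w := by
    intro m
    induction m with
    | zero => simp
    | succ m ih =>
      rw [pow_succ, ← Matrix.vecMul_vecMul, ih, Matrix.smul_vecMul, h, smul_smul, pow_succ]
  have h2 := h1 n
  rw [hn, Matrix.vecMul_zero] at h2
  have h3 : c ^ n = 0 := by
    by_contra hc
    exact hw ((smul_eq_zero.1 h2.symm).resolve_left hc)
  exact eq_zero_of_pow_eq_zero h3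

theorem shape (B : Matrix (Fin 5) (Fin 5) k) (hc : J32 k * B = B * J32 k) (hn : IsNilpotent B) :
    ∃ p1 p2 b0 b1 c0 c1 q1 : k, B = S32 p1 p2 b0 b1 c0 c1 q1 := by
  have e : ∀ i j, (J32 k * B) i j = (B * J32 k) i j := fun i j => by rw [hc]
  simp [J32, Matrix.mul_apply, Fin.sum_univ_succ, Fin.forall_fin_succ] at e
  have h01 : B 0 1 = 0 := by grind
  have h02 : B 0 2 = 0 := by grind
  have h03 : B 0 3 = 0 := by grind
  have h04 : B 0 4 = 0 := by grind
  have h31 : B 3 1 = 0 := by grind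
  have h32 : B 3 2 = 0 := by grind
  have h34 : B 3 4 = 0 := by grind
  have h00 : B 0 0 = 0 := by
    refine nil_row hn (Pi.single 0 1) _ ?_ ?_
    · ext j
      fin_cases j <;> simp [Matrix.vecMul, dotProduct, Fin.sum_univ_succ, h01, h02, h03, h04]
    · intro h
      have := congrFun h 0
      simp at this
  have h33 : B 3 3 = 0 := by
    by_contra h
    refine h (nil_row hn (B 3) _ ?_ ?_)
    · ext j
      fin_cases j <;> simp [Matrix.vecMul, dotProduct, Fin.sum_univ_succ, h00, h01, h02, h03, h04,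
        h31, h32, h34]
    · intro h'
      exact h (congrFun h' 3)
  refine ⟨B 1 0, B 2 0, B 1 3, B 2 3, B 3 0, B 4 0, B 4 3 - B 1 0, ?_⟩
  ext i j
  fin_cases i <;> fin_cases j <;> simp [S32] <;> grind

/-! ### membership in subalgebras -/

theorem poly_mem {A : NonUnitalSubalgebra k (Matrix (Fin 5) (Fin 5) k)} (hJ : J32 k ∈ A)
    (p1 p2 : k) : p1 • J32 k + p2 • (J32 k * J32 k) ∈ A :=
  add_mem (SMulMemClass.smul_mem _ hJ) (SMulMemClass.smul_mem _ (mul_mem hJ hJ))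

theorem S_mem {A : NonUnitalSubalgebra k (Matrix (Fin 5) (Fin 5) k)} (hJ : J32 k ∈ A)
    {b0 b1 c0 c1 q1 : k} (hB : B32 b0 b1 c0 c1 q1 ∈ A) (p1 p2 : k) :
    S32 p1 p2 b0 b1 c0 c1 q1 ∈ A := by
  rw [S_eq]
  exact add_mem (poly_mem hJ p1 p2) hB

theorem B_mem {A : NonUnitalSubalgebra k (Matrix (Fin 5) (Fin 5) k)} (hJ : J32 k ∈ A)
    {p1 p2 b0 b1 c0 c1 q1 : k} (hS : S32 p1 p2 b0 b1 c0 c1 q1 ∈ A) :
    B32 b0 b1 c0 c1 q1 ∈ A := by
  have h : B32 b0 b1 c0 c1 q1 = S32 p1 p2 b0 b1 c0 c1 q1 -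
      (p1 • J32 k + p2 • (J32 k * J32 k)) := by
    rw [S_eq, add_sub_cancel_left]
  rw [h]
  exact sub_mem hS (poly_mem hJ p1 p2)

theorem m0 {n : Type*} [Fintype n] [DecidableEq n] (A B C : Matrix n n k) :
    A ∈ adj ![A, B, C] := mem_adj ![A, B, C] 0

theorem m1 {n : Type*} [Fintype n] [DecidableEq n] (A B C : Matrix n n k) :
    B ∈ adj ![A, B, C] := mem_adj ![A, B, C] 1

theorem m2 {n : Type*} [Fintype n] [DecidableEq n] (A B C : Matrix n n k) :
    C ∈ adj ![A, B, C] := mem_adj ![A, B, C] 2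

theorem change3 {n : Type*} [Fintype n] [DecidableEq n] {ρ : ℕ → ℕ} {A B C B' C' : Matrix n n k}
    (hT : MaxR ρ ![A, B, C]) (hB : B' ∈ adj ![A, B, C]) (hC : C' ∈ adj ![A, B, C])
    (hB' : B ∈ adj ![A, B', C']) (hC' : C ∈ adj ![A, B', C']) : MaxR ρ ![A, B', C'] := by
  refine hT.change (hT.cn.of_adj ?_) ?_
  · intro i
    fin_cases i
    · exact m0 A B C
    · exact hB
    · exact hC
  · intro i
    fin_cases i
    · exact m0 A B' C'
    · exact hB'
    · exact hC'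

/-! ### commuting nilpotent triples -/

theorem nil_J : IsNilpotent (J32 k) := by
  refine isNilpotent_of_weight _ ![0, 2, 4, 1, 3] ?_
  intro i j
  fin_cases i <;> fin_cases j <;> simp [J32]

theorem nil_B (b0 b1 c0 c1 q1 : k) : IsNilpotent (B32 b0 b1 c0 c1 q1) := by
  refine isNilpotent_of_weight _ ![0, 2, 4, 1, 3] ?_
  intro i j
  fin_cases i <;> fin_cases j <;> simp [B32]

theorem cn_BB {b0 b1 c0 c1 q1 b0' b1' c0' c1' q1' : k}
    (r1 : c0' * b0 = c0 * b0') (r2 : c0' * b1 + c1' * b0 = c0 * b1' + c1 * b0')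
    (r4 : c0' * q1 = c0 * q1') (r6 : q1' * b0 = q1 * b0') :
    CN ![J32 k, B32 b0 b1 c0 c1 q1, B32 b0' b1' c0' c1' q1'] := by
  have h1 := comm_J b0 b1 c0 c1 q1
  have h2 := comm_J b0' b1' c0' c1' q1'
  have h3 := comm_BB r1 r2 r4 r6
  constructor
  · intro i j
    fin_cases i <;> fin_cases j
    · rfl
    · exact h1
    · exact h2
    · exact h1.symm
    · rfl
    · exact h3
    · exact h2.symm
    · exact h3.symm
    · rfl
  · intro i
    fin_cases i
    · exact nil_J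
    · exact nil_B _ _ _ _ _
    · exact nil_B _ _ _ _ _

theorem add_smul_B (b0 b1 c0 c1 q1 b0' b1' c0' c1' q1' s : k) :
    B32 b0 b1 c0 c1 q1 + s • B32 b0' b1' c0' c1' q1' =
      B32 (b0 + s * b0') (b1 + s * b1') (c0 + s * c0') (c1 + s * c1') (q1 + s * q1') := by
  ext i j
  fin_cases i <;> fin_cases j <;> simp [B32]

theorem add_B (b0 b1 c0 c1 q1 b0' b1' c0' c1' q1' : k) :
    B32 b0 b1 c0 c1 q1 + B32 b0' b1' c0' c1' q1' =
      B32 (b0 + b0') (b1 + b1') (c0 + c0') (c1 + c1') (q1 + q1') := by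
  ext i j
  fin_cases i <;> fin_cases j <;> simp [B32]

theorem smul_B (b0 b1 c0 c1 q1 s : k) :
    s • B32 b0 b1 c0 c1 q1 = B32 (s * b0) (s * b1) (s * c0) (s * c1) (s * q1) := by
  ext i j
  fin_cases i <;> fin_cases j <;> simp [B32]

theorem zero_B : B32 (0 : k) 0 0 0 0 = 0 := by
  ext i j
  fin_cases i <;> fin_cases j <;> simp [B32]

theorem deform3 [Infinite k] {n : Type*} [Fintype n] [DecidableEq n] {ρ : ℕ → ℕ}
    {A B C D E : Matrix n n k}
    (hT : MaxR ρ ![A, B, C]) (hcn : ∀ s : k, CN ![A, B + s • D, C + s • E])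
    {F : Set k} (hF : F.Finite) : ∃ s ∉ F, MaxR ρ ![A, B + s • D, C + s • E] := by
  have hl : ∀ s : k, ![A, B, C] + s • ![0, D, E] = ![A, B + s • D, C + s • E] := by
    intro s
    funext i
    fin_cases i <;> simp
  obtain ⟨E', hE', h⟩ := hT.deform (fun s => ![A, B, C] + s • ![0, D, E]) (PolyFam.line _ _)
    (by simp) (Set.finite_empty) (by
      intro s _
      simp only [hl]
      exact hcn s)
  obtain ⟨s, hs⟩ := ((hE'.union hF).infinite_compl).nonempty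
  refine ⟨s, fun h' => hs (Or.inr h'), ?_⟩
  rw [← hl]
  exact h s fun h' => hs (Or.inl h')

theorem mulVec_B (b0 b1 c0 c1 q1 x0 x1 x2 x3 x4 : k) :
    B32 b0 b1 c0 c1 q1 *ᵥ ![x0, x1, x2, x3, x4] =
      ![0, b0 * x3, b1 * x3 + b0 * x4, c0 * x0, c1 * x0 + c0 * x1 + q1 * x3] := by
  ext i
  fin_cases i <;> simp [B32, Matrix.mulVec, dotProduct, Fin.sum_univ_succ] <;> ring

theorem pow_four {b0 b1 c0 c1 q1 : k} (h : B32 b0 b1 c0 c1 q1 ^ 4 = 0) :
    (b0 * c0) ^ 2 = 0 := by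
  have h1 : (B32 b0 b1 c0 c1 q1 ^ 4) *ᵥ ![1, 0, 0, 0, 0] = 0 := by
    rw [h, Matrix.zero_mulVec]
  simp only [pow_succ, pow_zero, one_mul, ← Matrix.mulVec_mulVec, mulVec_B] at h1
  have h2 := congrFun h1 2
  simp at h2
  simp
  tauto

theorem rank_four {ρ : ℕ → ℕ} (hρ : ∀ i, ρ i = (J32 k ^ i).rank) : ρ 4 = 0 := by
  have h : J32 k ^ 4 = 0 := by
    have h1 : J32 k ^ 4 = (J32 k * J32 k) * (J32 k * J32 k) := by
      simp only [pow_succ, pow_zero, one_mul, mul_assoc]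
    rw [h1, J_sq]
    ext i j
    fin_cases i <;> fin_cases j <;> simp [S32, Matrix.mul_apply, Fin.sum_univ_succ]
  rw [hρ, h, Matrix.rank_zero]

section

variable [Infinite k] {ρ : ℕ → ℕ} (hρ : ∀ i, ρ i = (J32 k ^ i).rank)

include hρ

theorem planar {b0 b1 c0 c1 q1 : k}
    (hT : MaxR ρ ![J32 k, B32 b0 b1 c0 c1 q1, 0]) : False := by
  obtain ⟨s, hs, hM⟩ := deform3 (D := B32 1 0 1 0 0) (E := 0) hT (by
    intro s
    rw [add_smul_B, smul_zero, add_zero, ← zero_B]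
    apply cn_BB <;> ring) (F := {-b0, -c0}) (by simp)
  have hb : b0 + s ≠ 0 := by
    intro h
    exact hs (Or.inl (by linear_combination h))
  have hc : c0 + s ≠ 0 := by
    intro h
    refine hs (Or.inr ?_)
    change s = -c0
    linear_combination h
  have h6 := hM.pow_eq_zero (m1 _ _ _) (rank_four hρ)
  rw [add_smul_B] at h6
  have h7 := pow_four h6
  rw [mul_one] at h7
  exact (pow_ne_zero 2 (mul_ne_zero hb hc)) h7

theorem caseA {b0 b1 c0 c1 q1 b0' b1' c0' c1' q1' : k}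
    (hT : MaxR ρ ![J32 k, B32 b0 b1 c0 c1 q1, B32 b0' b1' c0' c1' q1'])
    (h : b0 ≠ 0 ∨ c0 ≠ 0) : False := by
  obtain ⟨r1, r2, r4, r6⟩ := rel_BB (hT.cn.1 1 2)
  have hl : ∃ l m : k, B32 b0' b1' c0' c1' q1' =
      l • B32 b0 b1 c0 c1 q1 + m • (J32 k * B32 b0 b1 c0 c1 q1) := by
    simp only [J_mul, smul_B, add_B, mul_zero, add_zero]
    rcases h with h | h
    · refine ⟨b0' / b0, (b1' - b0' / b0 * b1) / b0, ?_⟩
      congr 1
      · field_simp
      · field_simp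
        ring
      · field_simp
        linear_combination r1
      · field_simp
        linear_combination b0 * r2 - b1 * r1
      · field_simp
        linear_combination r6
    · refine ⟨c0' / c0, (c1' - c0' / c0 * c1) / c0, ?_⟩
      congr 1
      · field_simp
        linear_combination (-1 : k) * r1
      · field_simp
        linear_combination -c0 * r2 + c1 * r1
      · field_simp
      · field_simp
        ring
      · field_simp
        linear_combination (-1 : k) * r4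
  obtain ⟨l, m, hC⟩ := hl
  refine planar hρ (change3 hT (m1 _ _ _) (zero_mem _) (m1 _ _ _) ?_)
  rw [hC]
  have h0 := m0 (J32 k) (B32 b0 b1 c0 c1 q1) 0
  have h1 := m1 (J32 k) (B32 b0 b1 c0 c1 q1) 0
  exact add_mem (SMulMemClass.smul_mem _ h1) (SMulMemClass.smul_mem _ (mul_mem h0 h1))

theorem caseC {b1 c1 q1 b1' c1' q1' : k}
    (hT : MaxR ρ ![J32 k, B32 0 b1 0 c1 q1, B32 0 b1' 0 c1' q1']) : False := by
  -- first make `q1` nonzero
  obtain ⟨s, hs, hM⟩ := deform3 (D := B32 0 0 0 0 1) (E := 0) hT (by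
    intro s
    rw [add_smul_B, smul_zero, add_zero]
    apply cn_BB <;> ring) (F := {-q1}) (by simp)
  rw [add_smul_B, smul_zero, add_zero] at hM
  simp only [mul_zero, add_zero, mul_one] at hM
  have hq : q1 + s ≠ 0 := by
    intro h
    refine hs ?_
    change s = -q1
    linear_combination h
  generalize q1 + s = q at hM hq
  -- then make `q1'` zero
  have hM2 : MaxR ρ ![J32 k, B32 0 b1 0 c1 q,
      B32 0 (b1' - q1' / q * b1) 0 (c1' - q1' / q * c1) 0] := by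
    have e1 : B32 0 (b1' - q1' / q * b1) 0 (c1' - q1' / q * c1) 0 =
        B32 0 b1' 0 c1' q1' + (-(q1' / q)) • B32 0 b1 0 c1 q := by
      rw [add_smul_B]
      congr 1 <;> field_simp <;> ring
    have e2 : B32 0 b1' 0 c1' q1' =
        B32 0 (b1' - q1' / q * b1) 0 (c1' - q1' / q * c1) 0 + (q1' / q) • B32 0 b1 0 c1 q := by
      rw [add_smul_B]
      congr 1 <;> field_simp <;> ring
    refine change3 hM (m1 _ _ _) ?_ (m1 _ _ _) ?_
    · rw [e1]
      exact add_mem (m2 _ _ _) (SMulMemClass.smul_mem _ (m1 _ _ _))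
    · have h2 := m2 (J32 k) (B32 0 b1 0 c1 q)
        (B32 0 (b1' - q1' / q * b1) 0 (c1' - q1' / q * c1) 0)
      have h3 := add_mem h2 (SMulMemClass.smul_mem (q1' / q)
        (m1 (J32 k) (B32 0 b1 0 c1 q) (B32 0 (b1' - q1' / q * b1) 0 (c1' - q1' / q * c1) 0)))
      rw [← e2] at h3
      exact h3
  generalize b1' - q1' / q * b1 = e at hM2
  generalize c1' - q1' / q * c1 = f at hM2
  -- make the triple planar
  obtain ⟨t, ht, hM3⟩ := deform3 (D := B32 e 0 f 0 0) (E := 0) hM2 (by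
    intro s
    rw [add_smul_B, smul_zero, add_zero]
    apply cn_BB <;> ring) (F := {0}) (by simp)
  rw [add_smul_B, smul_zero, add_zero] at hM3
  simp only [mul_zero, add_zero, zero_add] at hM3
  have ht0 : t ≠ 0 := ht
  refine planar hρ (change3 hM3 (m1 _ _ _) (zero_mem _) (m1 _ _ _) ?_)
  have e3 : B32 0 e 0 f 0 = t⁻¹ • (J32 k * B32 (t * e) b1 (t * f) c1 q) := by
    rw [J_mul, smul_B]
    congr 1 <;> field_simp <;> ring
  rw [e3]
  have h0 := m0 (J32 k) (B32 (t * e) b1 (t * f) c1 q) 0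
  have h1 := m1 (J32 k) (B32 (t * e) b1 (t * f) c1 q) 0
  exact SMulMemClass.smul_mem _ (mul_mem h0 h1)

theorem no_BB {b0 b1 c0 c1 q1 b0' b1' c0' c1' q1' : k}
    (hT : MaxR ρ ![J32 k, B32 b0 b1 c0 c1 q1, B32 b0' b1' c0' c1' q1']) : False := by
  by_cases h1 : b0 ≠ 0 ∨ c0 ≠ 0
  · exact caseA hρ hT h1
  have hT' := change3 hT (m2 _ _ _) (m1 _ _ _) (m2 _ _ _) (m1 _ _ _)
  by_cases h2 : b0' ≠ 0 ∨ c0' ≠ 0
  · exact caseA hρ hT' h2
  push Not at h1 h2
  obtain ⟨rfl, rfl⟩ := h1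
  obtain ⟨rfl, rfl⟩ := h2
  exact caseC hρ hT

end

end T32SAux

theorem no_32 {k : Type*} [Field k] [IsAlgClosed k] [CharZero k] {ρ : ℕ → ℕ} {T : Fin 3 → Matrix (Fin 5) (Fin 5) k}
    (hT : MaxR ρ T) (hρ : ∀ i, ρ i = (J32 k ^ i).rank) (h0 : T 0 = J32 k) : False := by
  have h1 := hT.cn.1 0 1
  have h2 := hT.cn.1 0 2
  rw [h0] at h1 h2
  obtain ⟨p1, p2, b0, b1, c0, c1, q1, hB⟩ := T32SAux.shape _ h1 (hT.cn.2 1)
  obtain ⟨p1', p2', b0', b1', c0', c1', q1', hC⟩ := T32SAux.shape _ h2 (hT.cn.2 2)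
  have hJ : J32 k ∈ adj T := h0 ▸ mem_adj T 0
  have hBm : B32 b0 b1 c0 c1 q1 ∈ adj T :=
    T32SAux.B_mem (p1 := p1) (p2 := p2) hJ (hB ▸ mem_adj T 1)
  have hCm : B32 b0' b1' c0' c1' q1' ∈ adj T :=
    T32SAux.B_mem (p1 := p1') (p2 := p2') hJ (hC ▸ mem_adj T 2)
  refine T32SAux.no_BB hρ (b0 := b0) (b1 := b1) (c0 := c0) (c1 := c1)
    (q1 := q1) (b0' := b0') (b1' := b1') (c0' := c0') (c1' := c1')
    (q1' := q1') (hT.change (hT.cn.of_adj ?_) ?_)
  · intro i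
    fin_cases i
    · exact hJ
    · exact hBm
    · exact hCm
  · intro i
    fin_cases i
    · exact h0 ▸ T32SAux.m0 _ _ _
    · exact hB ▸ T32SAux.S_mem (T32SAux.m0 _ _ _) (T32SAux.m1 _ _ _) p1 p2
    · exact hC ▸ T32SAux.S_mem (T32SAux.m0 _ _ _) (T32SAux.m2 _ _ _) p1' p2'

end Pool.Agent.Lib.D7
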