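import Pool.Agent.Lib.D7.T3211e

namespace Pool.Agent.Lib.D7

open Matrix Pool.Agent.Lib.Q5dc

namespace T3211Aux

variable {k : Type*} [Field k]

/-! ### polynomial identities in one variable -/

theorem lin1 [Infinite k] {x x' : k}
    (h : (Polynomial.C x + Polynomial.C x' * Polynomial.X : Polynomial k) = 0) :
    x = 0 ∧ x' = 0 := by
  have h0 := congrArg (fun p => p.coeff 0) h
  have h1 := congrArg (fun p => p.coeff 1) h
  simp [Polynomial.coeff_C] at h0 h1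
  exact ⟨h0, h1⟩

theorem lin2 [Infinite k] {x x' y y' : k} (h : ∀ c : k, (x + c * x') * (y + c * y') = 0) :
    (x = 0 ∧ x' = 0) ∨ (y = 0 ∧ y' = 0) := by
  have h1 : (Polynomial.C x + Polynomial.C x' * Polynomial.X : Polynomial k) *
      (Polynomial.C y + Polynomial.C y' * Polynomial.X) = 0 := by
    refine Polynomial.funext fun c => ?_
    have := h c
    simp only [Polynomial.eval_mul, Polynomial.eval_add, Polynomial.eval_C, Polynomial.eval_X,
      Polynomial.eval_zero]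
    linear_combination this
  rcases mul_eq_zero.mp h1 with h2 | h2
  · exact Or.inl (lin1 h2)
  · exact Or.inr (lin1 h2)

theorem lin3 [Infinite k] {x x' y y' z z' : k}
    (h : ∀ c : k, (x + c * x') * (y + c * y') * (z + c * z') = 0) :
    (x = 0 ∧ x' = 0) ∨ (y = 0 ∧ y' = 0) ∨ (z = 0 ∧ z' = 0) := by
  have h1 : (Polynomial.C x + Polynomial.C x' * Polynomial.X : Polynomial k) *
      (Polynomial.C y + Polynomial.C y' * Polynomial.X) *
      (Polynomial.C z + Polynomial.C z' * Polynomial.X) = 0 := by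
    refine Polynomial.funext fun c => ?_
    have := h c
    simp only [Polynomial.eval_mul, Polynomial.eval_add, Polynomial.eval_C, Polynomial.eval_X,
      Polynomial.eval_zero]
    linear_combination this
  rcases mul_eq_zero.mp h1 with h2 | h2
  · rcases mul_eq_zero.mp h2 with h3 | h3
    · exact Or.inl (lin1 h3)
    · exact Or.inr (Or.inl (lin1 h3))
  · exact Or.inr (Or.inr (lin1 h2))

/-! ### duality -/

/-- the permutation -/
def sg : Fin 7 → Fin 7 := ![2, 1, 0, 4, 3, 5, 6]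

theorem sg_sg (i : Fin 7) : sg (sg i) = i := by
  fin_cases i <;> rfl

/-- its matrix -/
def Sg (k : Type*) [Field k] : Matrix (Fin 7) (Fin 7) k :=
  Matrix.of fun i j => if j = sg i then 1 else 0

theorem Sg_mul (X : Matrix (Fin 7) (Fin 7) k) (i j : Fin 7) : (Sg k * X) i j = X (sg i) j := by
  simp [Sg, Matrix.mul_apply]

theorem mul_Sg (X : Matrix (Fin 7) (Fin 7) k) (i j : Fin 7) : (X * Sg k) i j = X i (sg j) := by
  have : ∀ l : Fin 7, (j = sg l) ↔ (l = sg j) := by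
    intro l
    constructor
    · rintro rfl; rw [sg_sg]
    · rintro rfl; rw [sg_sg]
  simp [Sg, Matrix.mul_apply, this]

theorem Sg_Sg : Sg k * Sg k = 1 := by
  ext i j
  rw [Sg_mul, Sg, Matrix.of_apply, sg_sg, Matrix.one_apply]
  simp [eq_comm]

theorem dual {ρ : ℕ → ℕ} {al al1 w0 w1 be be1 ga p0 p1 t0 t1 e0 e1 n00 n01 n10 n11
    al' al1' w0' w1' be' be1' ga' p0' p1' t0' t1' e0' e1' n00' n01' n10' n11' : k}
    (hT : MaxR ρ ![J3211 k, B3211 al al1 w0 w1 be be1 ga p0 p1 t0 t1 e0 e1 n00 n01 n10 n11,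
      B3211 al' al1' w0' w1' be' be1' ga' p0' p1' t0' t1' e0' e1' n00' n01' n10' n11']) :
    MaxR ρ ![J3211 k, B3211 be be1 t0 t1 al al1 ga e0 e1 w0 w1 p0 p1 n00 n10 n01 n11,
      B3211 be' be1' t0' t1' al' al1' ga' e0' e1' w0' w1' p0' p1' n00' n10' n01' n11'] := by
  have h := (hT.transpose).conj (Sg k) (Sg k) Sg_Sg Sg_Sg
  have h1 : (fun i => Sg k * ((![J3211 k,
      B3211 al al1 w0 w1 be be1 ga p0 p1 t0 t1 e0 e1 n00 n01 n10 n11,
      B3211 al' al1' w0' w1' be' be1' ga' p0' p1' t0' t1' e0' e1' n00' n01' n10' n11'] :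
        Fin 3 → Matrix (Fin 7) (Fin 7) k) i)ᵀ * Sg k) =
      ![J3211 k, B3211 be be1 t0 t1 al al1 ga e0 e1 w0 w1 p0 p1 n00 n10 n01 n11,
      B3211 be' be1' t0' t1' al' al1' ga' e0' e1' w0' w1' p0' p1' n00' n10' n01' n11'] := by
    funext l
    ext i j
    rw [mul_Sg, Sg_mul, Matrix.transpose_apply]
    fin_cases l <;> fin_cases i <;> fin_cases j <;> simp [sg, J3211, B3211]
  rw [h1] at h
  exact h

/-! ### conditions -/

theorem condR [CharZero k] {ρ : ℕ → ℕ} (hρ : ρ 1 ≤ 3) {T : Fin 3 → Matrix (Fin 7) (Fin 7) k}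
    (hT : MaxR ρ T) (hJ : J3211 k ∈ adj T)
    {al al1 w0 w1 be be1 ga p0 p1 t0 t1 e0 e1 n00 n01 n10 n11 : k}
    (hX : B3211 al al1 w0 w1 be be1 ga p0 p1 t0 t1 e0 e1 n00 n01 n10 n11 ∈ adj T) (s : k)
    (i j : Fin 7) (hi : i = 5 ∨ i = 6) (hj : j = 5 ∨ j = 6) :
    (1 + s * ga - s * al1 * (s * be) - s * be1 * (s * al)) *
      (s * B3211 al al1 w0 w1 be be1 ga p0 p1 t0 t1 e0 e1 n00 n01 n10 n11 i j) -
      (s * B3211 al al1 w0 w1 be be1 ga p0 p1 t0 t1 e0 e1 n00 n01 n10 n11 4 j -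
       s * B3211 al al1 w0 w1 be be1 ga p0 p1 t0 t1 e0 e1 n00 n01 n10 n11 2 j * (s * al)) *
      (s * B3211 al al1 w0 w1 be be1 ga p0 p1 t0 t1 e0 e1 n00 n01 n10 n11 i 3 -
       s * B3211 al al1 w0 w1 be be1 ga p0 p1 t0 t1 e0 e1 n00 n01 n10 n11 i 0 * (s * be)) = 0 := by
  have : Infinite k := CharZero.infinite k
  have h1 := hT.rank_le ((adj T).add_mem hJ (SMulMemClass.smul_mem s hX)) 1
  rw [pow_one] at h1
  by_contra h
  have h2 : 4 ≤ (J3211 k + s • B3211 al al1 w0 w1 be be1 ga p0 p1 t0 t1 e0 e1 n00 n01 n10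
      n11).rank := by
    refine rank4 i j ?_ ?_ ?_ ?_ ?_ ?_ ?_
    · simp [J3211, B3211]
    · simp [J3211, B3211]
    · rcases hj with rfl | rfl <;> simp [J3211, B3211]
    · simp [J3211, B3211]
    · simp [J3211, B3211]
    · rcases hi with rfl | rfl <;> simp [J3211, B3211]
    · intro h3
      apply h
      rw [← h3]
      rcases hi with rfl | rfl <;> rcases hj with rfl | rfl <;> simp [J3211, B3211]
  omega

theorem condN [CharZero k] {ρ : ℕ → ℕ} (hρ : ρ 1 ≤ 3) {T : Fin 3 → Matrix (Fin 7) (Fin 7) k}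
    (hT : MaxR ρ T) (hJ : J3211 k ∈ adj T)
    {al al1 w0 w1 be be1 ga p0 p1 t0 t1 e0 e1 n00 n01 n10 n11 : k}
    (hX : B3211 al al1 w0 w1 be be1 ga p0 p1 t0 t1 e0 e1 n00 n01 n10 n11 ∈ adj T) :
    n00 = 0 ∧ n01 = 0 ∧ n10 = 0 ∧ n11 = 0 := by
  have key : ∀ i j : Fin 7, (i = 5 ∨ i = 6) → (j = 5 ∨ j = 6) →
      B3211 al al1 w0 w1 be be1 ga p0 p1 t0 t1 e0 e1 n00 n01 n10 n11 i j = 0 := by
    intro i j hi hj
    have h1 := condR hρ hT hJ hX 1 i j hi hj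
    have h2 := condR hρ hT hJ hX (-1) i j hi hj
    have h3 := condR hρ hT hJ hX 2 i j hi hj
    have h4 := condR hρ hT hJ hX (-2) i j hi hj
    have h5 : (12 : k) * B3211 al al1 w0 w1 be be1 ga p0 p1 t0 t1 e0 e1 n00 n01 n10 n11 i j =
        0 := by
      linear_combination 8 * h1 - 8 * h2 - h3 + h4
    exact (mul_eq_zero.mp h5).resolve_left (by norm_num)
  refine ⟨?_, ?_, ?_, ?_⟩
  · simpa [B3211] using key 5 5 (by simp) (by simp)
  · simpa [B3211] using key 5 6 (by simp) (by simp)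
  · simpa [B3211] using key 6 5 (by simp) (by simp)
  · simpa [B3211] using key 6 6 (by simp) (by simp)

theorem condB [CharZero k] {ρ : ℕ → ℕ} (hρ : ρ 1 ≤ 3) {T : Fin 3 → Matrix (Fin 7) (Fin 7) k}
    (hT : MaxR ρ T) (hJ : J3211 k ∈ adj T)
    {al al1 w0 w1 be1 ga p0 p1 t0 t1 e0 e1 : k}
    (hX : B3211 al al1 w0 w1 0 be1 ga p0 p1 t0 t1 e0 e1 0 0 0 0 ∈ adj T) :
    (p0 * e0 = 0 ∧ p0 * e1 = 0 ∧ p1 * e0 = 0 ∧ p1 * e1 = 0) ∧
    (al * p0 * t0 = 0 ∧ al * p0 * t1 = 0 ∧ al * p1 * t0 = 0 ∧ al * p1 * t1 = 0) := by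
  have key : ∀ i j : Fin 7, (i = 5 ∨ i = 6) → (j = 5 ∨ j = 6) →
      B3211 al al1 w0 w1 0 be1 ga p0 p1 t0 t1 e0 e1 0 0 0 0 i 3 *
      B3211 al al1 w0 w1 0 be1 ga p0 p1 t0 t1 e0 e1 0 0 0 0 4 j = 0 ∧
      al * B3211 al al1 w0 w1 0 be1 ga p0 p1 t0 t1 e0 e1 0 0 0 0 i 3 *
      B3211 al al1 w0 w1 0 be1 ga p0 p1 t0 t1 e0 e1 0 0 0 0 2 j = 0 := by
    intro i j hi hj
    have h1 := condR hρ hT hJ hX 1 i j hi hj
    have h2 := condR hρ hT hJ hX (-1) i j hi hj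
    have h0 : B3211 al al1 w0 w1 0 be1 ga p0 p1 t0 t1 e0 e1 0 0 0 0 i j = 0 := by
      rcases hi with rfl | rfl <;> rcases hj with rfl | rfl <;> simp [B3211]
    rw [h0] at h1 h2
    constructor
    · have h5 : (2 : k) * (B3211 al al1 w0 w1 0 be1 ga p0 p1 t0 t1 e0 e1 0 0 0 0 i 3 *
          B3211 al al1 w0 w1 0 be1 ga p0 p1 t0 t1 e0 e1 0 0 0 0 4 j) = 0 := by
        linear_combination -h1 - h2
      exact (mul_eq_zero.mp h5).resolve_left (by norm_num)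
    · have h5 : (2 : k) * (al * B3211 al al1 w0 w1 0 be1 ga p0 p1 t0 t1 e0 e1 0 0 0 0 i 3 *
          B3211 al al1 w0 w1 0 be1 ga p0 p1 t0 t1 e0 e1 0 0 0 0 2 j) = 0 := by
        linear_combination h1 - h2
      exact (mul_eq_zero.mp h5).resolve_left (by norm_num)
  have a := key 5 5 (by simp) (by simp)
  have b := key 5 6 (by simp) (by simp)
  have c := key 6 5 (by simp) (by simp)
  have d := key 6 6 (by simp) (by simp)
  have r53 : B3211 al al1 w0 w1 0 be1 ga p0 p1 t0 t1 e0 e1 0 0 0 0 5 3 = p0 := rfl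
  have r63 : B3211 al al1 w0 w1 0 be1 ga p0 p1 t0 t1 e0 e1 0 0 0 0 6 3 = p1 := rfl
  have r45 : B3211 al al1 w0 w1 0 be1 ga p0 p1 t0 t1 e0 e1 0 0 0 0 4 5 = e0 := rfl
  have r46 : B3211 al al1 w0 w1 0 be1 ga p0 p1 t0 t1 e0 e1 0 0 0 0 4 6 = e1 := rfl
  have r25 : B3211 al al1 w0 w1 0 be1 ga p0 p1 t0 t1 e0 e1 0 0 0 0 2 5 = t0 := rfl
  have r26 : B3211 al al1 w0 w1 0 be1 ga p0 p1 t0 t1 e0 e1 0 0 0 0 2 6 = t1 := rfl
  rw [r53, r45, r25] at a
  rw [r53, r46, r26] at b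
  rw [r63, r45, r25] at c
  rw [r63, r46, r26] at d
  exact ⟨⟨a.1, b.1, c.1, d.1⟩, ⟨a.2, b.2, c.2, d.2⟩⟩

theorem condC [CharZero k] {ρ : ℕ → ℕ} (hρ : ρ 3 = 0) {T : Fin 3 → Matrix (Fin 7) (Fin 7) k}
    (hT : MaxR ρ T) (hJ : J3211 k ∈ adj T)
    {al al1 w0 w1 be be1 ga p0 p1 t0 t1 e0 e1 n00 n01 n10 n11 : k}
    (hX : B3211 al al1 w0 w1 be be1 ga p0 p1 t0 t1 e0 e1 n00 n01 n10 n11 ∈ adj T) :
    al * be = 0 := by
  have : Infinite k := CharZero.infinite k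
  have key : ∀ s : k, s * s * (3 * (al * be)) + s * s * s * (al * be * ga + be * (e0 * w0 + e1 * w1)
      + al * (t0 * p0 + t1 * p1) +
      (t0 * (n00 * w0 + n01 * w1) + t1 * (n10 * w0 + n11 * w1))) = 0 := by
    intro s
    have h1 := hT.pow_eq_zero ((adj T).add_mem hJ (SMulMemClass.smul_mem s hX)) hρ
    have h2 := congrFun (congrFun h1 2) 0
    rw [pow_succ, pow_two] at h2
    simp [Matrix.mul_apply, Fin.sum_univ_succ, J3211, B3211] at h2
    linear_combination h2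
  have h1 := key 1
  have h2 := key (-1)
  have h3 : (6 : k) * (al * be) = 0 := by linear_combination h1 + h2
  exact (mul_eq_zero.mp h3).resolve_left (by norm_num)

theorem case_be0 [CharZero k] {ρ : ℕ → ℕ} (hρ1 : ρ 1 ≤ 3) (hρ3 : ρ 3 = 0)
    {al al1 w0 w1 be1 ga p0 p1 t0 t1 e0 e1
    al' al1' w0' w1' be1' ga' p0' p1' t0' t1' e0' e1' : k}
    (hT : MaxR ρ ![J3211 k, B3211 al al1 w0 w1 0 be1 ga p0 p1 t0 t1 e0 e1 0 0 0 0,
      B3211 al' al1' w0' w1' 0 be1' ga' p0' p1' t0' t1' e0' e1' 0 0 0 0]) : False := by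
  have : Infinite k := CharZero.infinite k
  have key : ∀ c : k,
    ((p0 + c * p0') * (e0 + c * e0') = 0 ∧ (p0 + c * p0') * (e1 + c * e1') = 0 ∧
     (p1 + c * p1') * (e0 + c * e0') = 0 ∧ (p1 + c * p1') * (e1 + c * e1') = 0) ∧
    ((al + c * al') * (p0 + c * p0') * (t0 + c * t0') = 0 ∧
     (al + c * al') * (p0 + c * p0') * (t1 + c * t1') = 0 ∧
     (al + c * al') * (p1 + c * p1') * (t0 + c * t0') = 0 ∧
     (al + c * al') * (p1 + c * p1') * (t1 + c * t1') = 0) := by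
    intro c
    have h := (adj _).add_mem (SMulMemClass.smul_mem (1 : k) (mem_adj ![J3211 k,
      B3211 al al1 w0 w1 0 be1 ga p0 p1 t0 t1 e0 e1 0 0 0 0,
      B3211 al' al1' w0' w1' 0 be1' ga' p0' p1' t0' t1' e0' e1' 0 0 0 0] 1))
      (SMulMemClass.smul_mem c (mem_adj ![J3211 k,
      B3211 al al1 w0 w1 0 be1 ga p0 p1 t0 t1 e0 e1 0 0 0 0,
      B3211 al' al1' w0' w1' 0 be1' ga' p0' p1' t0' t1' e0' e1' 0 0 0 0] 2))
    have h2 := B_lin 1 c al al1 w0 w1 0 be1 ga p0 p1 t0 t1 e0 e1 0 0 0 0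
      al' al1' w0' w1' 0 be1' ga' p0' p1' t0' t1' e0' e1' 0 0 0 0
    simp only [one_mul, mul_zero, add_zero] at h2
    have h3 := condB hρ1 hT (mem_adj _ 0) (h2 ▸ h)
    exact h3
  have q00 := lin2 fun c => (key c).1.1
  have q01 := lin2 fun c => (key c).1.2.1
  have q10 := lin2 fun c => (key c).1.2.2.1
  have q11 := lin2 fun c => (key c).1.2.2.2
  have r00 := lin3 fun c => (key c).2.1
  have r01 := lin3 fun c => (key c).2.2.1
  have r10 := lin3 fun c => (key c).2.2.2.1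
  have r11 := lin3 fun c => (key c).2.2.2.2
  by_cases hp0 : p0 = 0 ∧ p0' = 0
  · by_cases hp1 : p1 = 0 ∧ p1' = 0
    · obtain ⟨rfl, rfl⟩ := hp0
      obtain ⟨rfl, rfl⟩ := hp1
      exact caseI hρ1 hT
    · obtain ⟨rfl, rfl⟩ := q10.resolve_left hp1
      obtain ⟨rfl, rfl⟩ := q11.resolve_left hp1
      by_cases hal : al = 0 ∧ al' = 0
      · obtain ⟨rfl, rfl⟩ := hal
        exact caseI hρ1 (dual hT)
      · obtain ⟨rfl, rfl⟩ := (r10.resolve_left hal).resolve_left hp1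
        obtain ⟨rfl, rfl⟩ := (r11.resolve_left hal).resolve_left hp1
        by_cases hal1 : al = 0
        · exact caseIII hρ3 (swap hT) fun h => hal ⟨hal1, h⟩
        · exact caseIII hρ3 hT hal1
  · obtain ⟨rfl, rfl⟩ := q00.resolve_left hp0
    obtain ⟨rfl, rfl⟩ := q01.resolve_left hp0
    by_cases hal : al = 0 ∧ al' = 0
    · obtain ⟨rfl, rfl⟩ := hal
      exact caseI hρ1 (dual hT)
    · obtain ⟨rfl, rfl⟩ := (r00.resolve_left hal).resolve_left hp0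
      obtain ⟨rfl, rfl⟩ := (r01.resolve_left hal).resolve_left hp0
      by_cases hal1 : al = 0
      · exact caseIII hρ3 (swap hT) fun h => hal ⟨hal1, h⟩
      · exact caseIII hρ3 hT hal1

theorem case_gen [CharZero k] {ρ : ℕ → ℕ} (hρ1 : ρ 1 ≤ 3) (hρ3 : ρ 3 = 0)
    {al al1 w0 w1 be be1 ga p0 p1 t0 t1 e0 e1 n00 n01 n10 n11
    al' al1' w0' w1' be' be1' ga' p0' p1' t0' t1' e0' e1' n00' n01' n10' n11' : k}
    (hT : MaxR ρ ![J3211 k, B3211 al al1 w0 w1 be be1 ga p0 p1 t0 t1 e0 e1 n00 n01 n10 n11,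
      B3211 al' al1' w0' w1' be' be1' ga' p0' p1' t0' t1' e0' e1' n00' n01' n10' n11']) :
    False := by
  have : Infinite k := CharZero.infinite k
  obtain ⟨rfl, rfl, rfl, rfl⟩ := condN hρ1 hT (mem_adj _ 0) (mem_adj ![J3211 k,
    B3211 al al1 w0 w1 be be1 ga p0 p1 t0 t1 e0 e1 n00 n01 n10 n11,
      B3211 al' al1' w0' w1' be' be1' ga' p0' p1' t0' t1' e0' e1' n00' n01' n10' n11'] 1)
  obtain ⟨rfl, rfl, rfl, rfl⟩ := condN hρ1 hT (mem_adj _ 0) (mem_adj ![J3211 k,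
    B3211 al al1 w0 w1 be be1 ga p0 p1 t0 t1 e0 e1 0 0 0 0,
      B3211 al' al1' w0' w1' be' be1' ga' p0' p1' t0' t1' e0' e1' n00' n01' n10' n11'] 2)
  have key : ∀ c : k, (al + c * al') * (be + c * be') = 0 := by
    intro c
    have h := (adj _).add_mem (SMulMemClass.smul_mem (1 : k) (mem_adj ![J3211 k,
      B3211 al al1 w0 w1 be be1 ga p0 p1 t0 t1 e0 e1 0 0 0 0,
      B3211 al' al1' w0' w1' be' be1' ga' p0' p1' t0' t1' e0' e1' 0 0 0 0] 1))
      (SMulMemClass.smul_mem c (mem_adj ![J3211 k,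
      B3211 al al1 w0 w1 be be1 ga p0 p1 t0 t1 e0 e1 0 0 0 0,
      B3211 al' al1' w0' w1' be' be1' ga' p0' p1' t0' t1' e0' e1' 0 0 0 0] 2))
    have h2 := B_lin 1 c al al1 w0 w1 be be1 ga p0 p1 t0 t1 e0 e1 0 0 0 0
      al' al1' w0' w1' be' be1' ga' p0' p1' t0' t1' e0' e1' 0 0 0 0
    simp only [one_mul, mul_zero, add_zero] at h2
    exact condC hρ3 hT (mem_adj _ 0) (h2 ▸ h)
  rcases lin2 key with ⟨rfl, rfl⟩ | ⟨rfl, rfl⟩
  · exact case_be0 hρ1 hρ3 (dual hT)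
  · exact case_be0 hρ1 hρ3 hT

end T3211Aux

variable {k : Type*} [Field k] [IsAlgClosed k] [CharZero k]

theorem no_3211 {ρ : ℕ → ℕ} {T : Fin 3 → Matrix (Fin 7) (Fin 7) k} (hT : MaxR ρ T)
    (hρ : ∀ i, ρ i = (J3211 k ^ i).rank) (h0 : T 0 = J3211 k) : False := by
  have hρ1 : ρ 1 ≤ 3 := by
    rw [hρ, pow_one]
    exact T3211Aux.rank_J
  have hρ3 : ρ 3 = 0 := by
    rw [hρ, T3211Aux.J_cube, Matrix.rank_zero]
  have hTe : T = ![J3211 k, T 1, T 2] := by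
    funext i
    fin_cases i
    · exact h0
    · rfl
    · rfl
  have hcB : J3211 k * T 1 = T 1 * J3211 k := by
    rw [← h0]
    exact hT.cn.1 0 1
  have hcC : J3211 k * T 2 = T 2 * J3211 k := by
    rw [← h0]
    exact hT.cn.1 0 2
  have hB := T3211Aux.shape hcB (hT.cn.2 1)
  have hC := T3211Aux.shape hcC (hT.cn.2 2)
  rw [hTe] at hT
  have key : ∀ {B C B' C' : Matrix (Fin 7) (Fin 7) k} {b1 b2 c1 c2 : k},
      B = B' + b1 • J3211 k + b2 • (J3211 k * J3211 k) →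
      C = C' + c1 • J3211 k + c2 • (J3211 k * J3211 k) → MaxR ρ ![J3211 k, B, C] →
      MaxR ρ ![J3211 k, B', C'] := by
    intro B C B' C' b1 b2 c1 c2 hB hC hT
    refine T3211Aux.lin hT ?_ ?_ ?_ ?_
    · have h1 := mem_adj ![J3211 k, B, C] 0
      have h2 := mem_adj ![J3211 k, B, C] 1
      have h3 := (adj _).sub_mem ((adj _).sub_mem h2 (SMulMemClass.smul_mem b2
        ((adj _).mul_mem h1 h1))) (SMulMemClass.smul_mem b1 h1)
      have h4 : B' = B - b2 • (J3211 k * J3211 k) - b1 • J3211 k := by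
        rw [hB]
        abel
      rw [h4]
      exact h3
    · have h1 := mem_adj ![J3211 k, B, C] 0
      have h2 := mem_adj ![J3211 k, B, C] 2
      have h3 := (adj _).sub_mem ((adj _).sub_mem h2 (SMulMemClass.smul_mem c2
        ((adj _).mul_mem h1 h1))) (SMulMemClass.smul_mem c1 h1)
      have h4 : C' = C - c2 • (J3211 k * J3211 k) - c1 • J3211 k := by
        rw [hC]
        abel
      rw [h4]
      exact h3
    · have h1 := mem_adj ![J3211 k, B', C'] 0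
      have h2 := mem_adj ![J3211 k, B', C'] 1
      have h3 := (adj _).add_mem ((adj _).add_mem h2 (SMulMemClass.smul_mem b1 h1))
        (SMulMemClass.smul_mem b2 ((adj _).mul_mem h1 h1))
      rw [hB]
      exact h3
    · have h1 := mem_adj ![J3211 k, B', C'] 0
      have h2 := mem_adj ![J3211 k, B', C'] 2
      have h3 := (adj _).add_mem ((adj _).add_mem h2 (SMulMemClass.smul_mem c1 h1))
        (SMulMemClass.smul_mem c2 ((adj _).mul_mem h1 h1))
      rw [hC]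
      exact h3
  exact T3211Aux.case_gen hρ1 hρ3 (key hB hC hT)

end Pool.Agent.Lib.D7
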