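import Mathlib

/-!
# MP_5dcbc3_ag: explicit one-parameter families of commuting nilpotent 7 x 7 matrices
-/

namespace Pool.Agent.Lib.D7

variable {k : Type*} [Field k]

/-- family for the node `(5,2)` -/
def X52 (s : k) : Matrix (Fin 7) (Fin 7) k :=
  !![0, 0, 0, 0, 0, 0, 0;
     1, 0, 0, 0, 0, s ^ 10, s ^ 5;
     0, 1, 0, 0, 0, -s ^ 8, 0;
     0, 0, 1, 0, 0, s ^ 6, 0;
     0, 0, 0, 1, 0, -s ^ 4, 0;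
     0, 0, 0, 0, 1, s ^ 2, 0;
     0, 0, 0, 0, 0, -s ^ 7, -s ^ 2]

/-- family for the node `(5,2)` -/
def Y52 (s : k) : Matrix (Fin 7) (Fin 7) k :=
  !![0, 0, 0, 0, 0, 0, 0;
     0, s ^ 5, -s ^ 7, s ^ 9, -s ^ 11, s ^ 13, 5 * s ^ 8;
     0, 0, s ^ 5, -s ^ 7, s ^ 9, -s ^ 11, -4 * s ^ 6;
     0, 0, 0, s ^ 5, -s ^ 7, s ^ 9, 3 * s ^ 4;
     0, 0, 0, 0, s ^ 5, -s ^ 7, -2 * s ^ 2;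
     0, 0, 0, 0, 0, s ^ 5, 1;
     1, -s ^ 2, s ^ 4, -s ^ 6, s ^ 8, -s ^ 10, -5 * s ^ 5]

/-- family for the node `(5,2)` -/
def P52 (s : k) : Matrix (Fin 7) (Fin 7) k :=
  !![1, 0, 0, 0, 0, 0, 0;
     0, s ^ 2, 0, 0, 0, 0, s ^ 5;
     0, 0, s ^ 4, 0, 0, 0, -s ^ 5;
     0, 0, 0, s ^ 6, 0, 0, s ^ 5;
     0, 0, 0, 0, s ^ 8, 0, -s ^ 5;
     0, 0, 0, 0, 0, s ^ 10, s ^ 5;
     0, 0, 0, 0, 0, 0, -s ^ 5]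

/-- family for the node `(4,3)` -/
def X43 (s : k) : Matrix (Fin 7) (Fin 7) k :=
  !![0, 0, 0, 0, 0, 0, 0;
     1, 0, 0, 0, -5 * s ^ 12, s ^ 4, s ^ 8;
     0, 1, 0, 0, 4 * s ^ 9, 0, 0;
     0, 0, 1, 0, -3 * s ^ 6, 0, 0;
     0, 0, 0, 1, 2 * s ^ 3, 0, 0;
     0, 0, 0, 0, 5 * s ^ 11, -s ^ 3, -s ^ 7;
     0, 0, 0, 0, s ^ 7, 0, -s ^ 3]

/-- family for the node `(4,3)` -/
def Y43 (s : k) : Matrix (Fin 7) (Fin 7) k :=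
  !![0, 0, 0, 0, 0, 0, 0;
     0, s ^ 4, -s ^ 7, s ^ 10, -s ^ 13, 0, 10 * s ^ 9;
     0, 0, s ^ 4, -s ^ 7, s ^ 10, 0, -6 * s ^ 6;
     0, 0, 0, s ^ 4, -s ^ 7, 0, 3 * s ^ 3;
     0, 0, 0, 0, s ^ 4, 0, -1;
     1, -s ^ 3, s ^ 6, -s ^ 9, s ^ 12, 0, -10 * s ^ 8;
     0, 0, 0, 0, 0, 1, -4 * s ^ 4]

/-- family for the node `(4,3)` -/
def P43 (s : k) : Matrix (Fin 7) (Fin 7) k :=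
  !![1, 0, 0, 0, 0, 0, 0;
     0, s ^ 3, 0, 0, 0, s ^ 4, 0;
     0, 0, s ^ 6, 0, 0, -s ^ 4, s ^ 8;
     0, 0, 0, s ^ 9, 0, s ^ 4, -2 * s ^ 8;
     0, 0, 0, 0, s ^ 12, -s ^ 4, 3 * s ^ 8;
     0, 0, 0, 0, 0, s ^ 4, -4 * s ^ 8;
     0, 0, 0, 0, 0, -s ^ 4, 5 * s ^ 8]

/-- the node algebra `xy = 0, y^3 = c x^4` -/
def Nd43 (c : k) : Fin 3 → Matrix (Fin 7) (Fin 7) k :=
  ![!![0, 0, 0, 0, 0, 0, 0;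
     1, 0, 0, 0, 0, 0, 0;
     0, 1, 0, 0, 0, 0, 0;
     0, 0, 1, 0, 0, 0, 0;
     0, 0, 0, 1, 0, 0, 0;
     0, 0, 0, 0, 0, 0, 0;
     0, 0, 0, 0, 0, 0, 0],
    !![0, 0, 0, 0, 0, 0, 0;
     0, 0, 0, 0, 0, 0, 0;
     0, 0, 0, 0, 0, 0, 0;
     0, 0, 0, 0, 0, 0, 0;
     0, 0, 0, 0, 0, 0, c;
     1, 0, 0, 0, 0, 0, 0;
     0, 0, 0, 0, 0, 1, 0],
    0]

/-- family for the algebra `xy = xz = yz = 0, x^3 = y^2 + z^2` (basis `1, x, x^2, y, z, y^2, z^2`) -/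
def R421 (t : k) : Fin 3 → Matrix (Fin 7) (Fin 7) k :=
  ![!![0, 0, 0, 0, 0, 0, 0;
     1, 0, 0, 0, 0, 0, 0;
     0, 1, 0, 0, 0, 0, 0;
     0, 0, 2 * t, 0, 0, 0, 0;
     0, 0, -2 * t, 0, 0, 0, 0;
     0, 0, 1, 0, 0, 0, 0;
     0, 0, 1, 0, 0, 0, 0],
    !![0, 0, 0, 0, 0, 0, 0;
     0, 0, 0, 0, 0, 0, 0;
     0, 0, 0, 0, 0, 0, 0;
     1, 0, 0, 0, -t, -3 * t ^ 2, t ^ 2;
     0, 0, 0, 0, t, 3 * t ^ 2, -t ^ 2;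
     0, 0, 0, 1, 0, -2 * t, 0;
     0, 0, 0, 0, 0, -t, t],
    !![0, 0, 0, 0, 0, 0, 0;
     0, 0, 0, 0, 0, 0, 0;
     0, 0, 0, 0, 0, 0, 0;
     0, 0, 0, -t, 0, -t ^ 2, 3 * t ^ 2;
     1, 0, 0, t, 0, t ^ 2, -3 * t ^ 2;
     0, 0, 0, 0, 0, -t, t;
     0, 0, 0, 0, 1, 0, 2 * t]]

/-- family for the last case of type `(3,3,1)` (basis `E0, E1, X E0, Y E0, Z E0, Y^2 E0, Z^2 E0`) -/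
def S331 (l : k) : Fin 3 → Matrix (Fin 7) (Fin 7) k :=
  ![!![0, 0, 0, 0, 0, 0, 0;
     0, 0, 4 * l ^ 2, 0, 0, 0, 0;
     1, 0, 0, 0, 0, 0, 0;
     0, 0, -2 * l, 0, 0, 0, 0;
     0, 0, -2 * l, 0, 0, 0, 0;
     0, 0, -1, 0, 0, 0, 0;
     0, 0, 1, 0, 0, 0, 0],
    !![0, 0, 0, 0, 0, 0, 0;
     0, l, 0, 0, 0, 4 * l ^ 3, 0;
     0, 0, 0, 0, 0, 0, 0;
     1, -1, 0, 0, -1 / 2 * l, -11 / 4 * l ^ 2, 1 / 4 * l ^ 2;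
     0, 0, 0, 0, 1 / 2 * l, -5 / 4 * l ^ 2, -1 / 4 * l ^ 2;
     0, 0, 0, 1, 0, -2 * l, 0;
     0, 0, 0, 0, 0, 1 / 2 * l, 1 / 2 * l],
    !![0, 0, 0, 0, 0, 0, 0;
     0, -l, 0, 0, 0, 0, 4 * l ^ 3;
     0, 0, 0, 0, 0, 0, 0;
     0, 0, 0, -1 / 2 * l, 0, -1 / 4 * l ^ 2, -5 / 4 * l ^ 2;
     1, 1, 0, 1 / 2 * l, 0, 1 / 4 * l ^ 2, -11 / 4 * l ^ 2;
     0, 0, 0, 0, 0, -1 / 2 * l, -1 / 2 * l;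
     0, 0, 0, 0, 1, 0, 2 * l]]

/-- family for the nets `r11 = a e5, r12 = b e6, r13 = r22 = e4, r23 = e5, r33 = e6` -/
def NQ (s a b : k) : Fin 3 → Matrix (Fin 7) (Fin 7) k :=
  ![!![0, 0, 0, 0, 0, 0, 0;
     1, 0, 0, 0, 0, 0, 0;
     0, s, 0, 0, 0, 0, 0;
     0, 0, s, 0, 0, 0, 0;
     0, 0, 0, 1, 0, 0, 0;
     0, a, 0, 0, s, 0, 0;
     0, 0, b, 0, 0, s, 0],
    !![0, 0, 0, 0, 0, 0, 0;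
     0, 0, 0, 0, 0, 0, 0;
     1, 0, 0, 0, 0, 0, 0;
     0, s, 0, 0, 0, 0, 0;
     0, 0, 1, 0, 0, 0, 0;
     0, 0, 0, 1, 0, 0, 0;
     0, b, 0, 0, s, 0, 0],
    !![0, 0, 0, 0, 0, 0, 0;
     0, 0, 0, 0, 0, 0, 0;
     0, 0, 0, 0, 0, 0, 0;
     1, 0, 0, 0, 0, 0, 0;
     0, 1, 0, 0, 0, 0, 0;
     0, 0, 1, 0, 0, 0, 0;
     0, 0, 0, 1, 0, 0, 0]]

end Pool.Agent.Lib.D7
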