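import Pool.Agent.Lib.D7.Defs
import Pool.Agent.Lib.D7.Fams
import Pool.Agent.Lib.D7.Api

/-!
# MP_5dcbc3_ag: the nets `NQ` are limits of curvilinear triples
-/

namespace Pool.Agent.Lib.D7

open Matrix Pool.Agent.Lib.Q5dc

variable {k : Type*} [Field k]

namespace Q1Aux

/-- square of the first matrix -/
def X2 (s a b : k) : Matrix (Fin 7) (Fin 7) k :=
  !![0, 0, 0, 0, 0, 0, 0;
     0, 0, 0, 0, 0, 0, 0;
     s, 0, 0, 0, 0, 0, 0;
     0, s ^ 2, 0, 0, 0, 0, 0;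
     0, 0, s, 0, 0, 0, 0;
     a, 0, 0, s, 0, 0, 0;
     0, s * (a + b), 0, 0, s ^ 2, 0, 0]

/-- cube of the first matrix -/
def X3 (s a b : k) : Matrix (Fin 7) (Fin 7) k :=
  !![0, 0, 0, 0, 0, 0, 0;
     0, 0, 0, 0, 0, 0, 0;
     0, 0, 0, 0, 0, 0, 0;
     s ^ 2, 0, 0, 0, 0, 0, 0;
     0, s ^ 2, 0, 0, 0, 0, 0;
     0, 0, s ^ 2, 0, 0, 0, 0;
     s * (a + b), 0, 0, s ^ 2, 0, 0, 0]

/-- sixth power of the first matrix -/
def X6 (s : k) : Matrix (Fin 7) (Fin 7) k :=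
  !![0, 0, 0, 0, 0, 0, 0;
     0, 0, 0, 0, 0, 0, 0;
     0, 0, 0, 0, 0, 0, 0;
     0, 0, 0, 0, 0, 0, 0;
     0, 0, 0, 0, 0, 0, 0;
     0, 0, 0, 0, 0, 0, 0;
     s ^ 4, 0, 0, 0, 0, 0, 0]

/-- square of the second matrix -/
def Y2 (s : k) : Matrix (Fin 7) (Fin 7) k :=
  !![0, 0, 0, 0, 0, 0, 0;
     0, 0, 0, 0, 0, 0, 0;
     0, 0, 0, 0, 0, 0, 0;
     0, 0, 0, 0, 0, 0, 0;
     1, 0, 0, 0, 0, 0, 0;
     0, s, 0, 0, 0, 0, 0;
     0, 0, s, 0, 0, 0, 0]

/-- square of the third matrix -/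
def Z2 : Matrix (Fin 7) (Fin 7) k :=
  !![0, 0, 0, 0, 0, 0, 0;
     0, 0, 0, 0, 0, 0, 0;
     0, 0, 0, 0, 0, 0, 0;
     0, 0, 0, 0, 0, 0, 0;
     0, 0, 0, 0, 0, 0, 0;
     0, 0, 0, 0, 0, 0, 0;
     1, 0, 0, 0, 0, 0, 0]

theorem hX2 (s a b : k) : NQ s a b 0 * NQ s a b 0 = X2 s a b := by
  ext i j
  fin_cases i <;> fin_cases j <;>
    simp [NQ, X2, Matrix.mul_apply, Fin.sum_univ_succ] <;> ring

theorem hX3 (s a b : k) : X2 s a b * NQ s a b 0 = X3 s a b := by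
  ext i j
  fin_cases i <;> fin_cases j <;>
    simp [NQ, X2, X3, Matrix.mul_apply, Fin.sum_univ_succ] <;> ring

theorem hX6 (s a b : k) : X3 s a b * X3 s a b = X6 s := by
  ext i j
  fin_cases i <;> fin_cases j <;>
    simp [X3, X6, Matrix.mul_apply, Fin.sum_univ_succ] <;> ring

theorem hX12 (s : k) : X6 s * X6 s = 0 := by
  ext i j
  fin_cases i <;> fin_cases j <;>
    simp [X6, Matrix.mul_apply, Fin.sum_univ_succ]

theorem hY2 (s a b : k) : NQ s a b 1 * NQ s a b 1 = Y2 s := by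
  ext i j
  fin_cases i <;> fin_cases j <;>
    simp [NQ, Y2, Matrix.mul_apply, Fin.sum_univ_succ]

theorem hY4 (s : k) : Y2 s * Y2 s = 0 := by
  ext i j
  fin_cases i <;> fin_cases j <;>
    simp [Y2, Matrix.mul_apply, Fin.sum_univ_succ]

theorem hZ2 (s a b : k) : NQ s a b 2 * NQ s a b 2 = Z2 := by
  ext i j
  fin_cases i <;> fin_cases j <;>
    simp [NQ, Z2, Matrix.mul_apply, Fin.sum_univ_succ]

theorem hZ4 : (Z2 : Matrix (Fin 7) (Fin 7) k) * Z2 = 0 := by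
  ext i j
  fin_cases i <;> fin_cases j <;>
    simp [Z2, Matrix.mul_apply, Fin.sum_univ_succ]

theorem hXY (s a b : k) : NQ s a b 0 * NQ s a b 1 = NQ s a b 1 * NQ s a b 0 := by
  ext i j
  fin_cases i <;> fin_cases j <;>
    simp [NQ, Matrix.mul_apply, Fin.sum_univ_succ] <;> ring

theorem hXZ (s a b : k) : NQ s a b 0 * NQ s a b 2 = NQ s a b 2 * NQ s a b 0 := by
  ext i j
  fin_cases i <;> fin_cases j <;>
    simp [NQ, Matrix.mul_apply, Fin.sum_univ_succ]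

theorem hYZ (s a b : k) : NQ s a b 1 * NQ s a b 2 = NQ s a b 2 * NQ s a b 1 := by
  ext i j
  fin_cases i <;> fin_cases j <;>
    simp [NQ, Matrix.mul_apply, Fin.sum_univ_succ]

theorem pow6 (s a b : k) : NQ s a b 0 ^ 6 = X6 s := by
  have h3 : NQ s a b 0 ^ 3 = X3 s a b := by
    rw [pow_succ, pow_two, hX2, hX3]
  have h6 : NQ s a b 0 ^ 6 = NQ s a b 0 ^ 3 * NQ s a b 0 ^ 3 := by rw [← pow_add]
  rw [h6, h3, hX6]

theorem cn (s a b : k) : CN (NQ s a b) := by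
  constructor
  · intro i j
    fin_cases i <;> fin_cases j
    · rfl
    · exact hXY s a b
    · exact hXZ s a b
    · exact (hXY s a b).symm
    · rfl
    · exact hYZ s a b
    · exact (hXZ s a b).symm
    · exact (hYZ s a b).symm
    · rfl
  · intro i
    fin_cases i
    · exact ⟨6 * 2, by
        change NQ s a b 0 ^ (6 * 2) = 0
        rw [pow_mul, pow6, pow_two, hX12]⟩
    · exact ⟨2 * 2, by
        change NQ s a b 1 ^ (2 * 2) = 0
        rw [pow_mul, pow_two (NQ s a b 1), hY2, pow_two, hY4]⟩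
    · exact ⟨2 * 2, by
        change NQ s a b 2 ^ (2 * 2) = 0
        rw [pow_mul, pow_two (NQ s a b 2), hZ2, pow_two, hZ4]⟩

theorem cl_ne {s : k} (hs : s ≠ 0) (a b : k) : Cl (NQ s a b) := by
  refine cl_of_pow_six (cn s a b) (mem_adj (NQ s a b) 0) ?_
  rw [pow6]
  intro h
  have h1 := congrFun (congrFun h 6) 0
  simp [X6] at h1
  exact hs h1

end Q1Aux

open Q1Aux

/-- the nets `NQ` are limits of curvilinear triples -/
theorem cl_NQ [Infinite k] (a b : k) : Cl (NQ 0 a b) := by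
  by_contra h0
  have h1 : PolyFam fun s => NQ s a b := by
    have hc : ∀ r : k, IsPoly fun _ : k => r := IsPoly.const
    intro i x y
    fin_cases i <;> fin_cases x <;> fin_cases y <;> simp [NQ] <;>
      first | exact hc _ | exact IsPoly.id
  have h2 := finite_cl (fun s => NQ s a b) h1 h0
  have h3 : (({0}ᶜ : Set k)).Infinite := (Set.finite_singleton (0 : k)).infinite_compl
  exact h3 (h2.subset fun s hs => cl_ne hs a b)

end Pool.Agent.Lib.D7
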