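import Pool.Agent.Lib.D7.Defs
import Pool.Agent.Lib.D7.Fams
import Pool.Agent.Lib.D7.Api
import Pool.Agent.Lib.D7.Q1
import Pool.Agent.Lib.Q5dc.Tan

/-!
# MP_5dcbc3_ag: all triples `Tq r` are limits of curvilinear triples
-/

namespace Pool.Agent.Lib.D7

open Matrix Pool.Agent.Lib.Q5dc

variable {k : Type*} [Field k]

namespace Q2Aux

/-- index type with blocks of sizes `1, 3, 3` -/
abbrev N7 := Fin 1 ⊕ (Fin 3 ⊕ Fin 3)

/-- the triple attached to a net of quadratic maps -/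
def Tb (Q : Fin 3 → Matrix (Fin 3) (Fin 3) k) (i : Fin 3) : Matrix N7 N7 k :=
  fromBlocks 0 0 (fromRows (Matrix.of fun a _ => if a = i then 1 else 0) 0)
    (fromBlocks 0 0 (Q i) 0)

/-- transformed net -/
def tr (g h : Matrix (Fin 3) (Fin 3) k) (Q : Fin 3 → Matrix (Fin 3) (Fin 3) k) (i : Fin 3) :
    Matrix (Fin 3) (Fin 3) k := h * (∑ j, g j i • Q j) * g

/-- block diagonal matrix -/
def Dg (g h : Matrix (Fin 3) (Fin 3) k) : Matrix N7 N7 k :=
  fromBlocks 1 0 0 (fromBlocks g 0 0 h)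

theorem Dg_mul {g gi h hi : Matrix (Fin 3) (Fin 3) k} (hg : g * gi = 1) (hh : h * hi = 1) :
    Dg g h * Dg gi hi = 1 := by
  simp [Dg, fromBlocks_multiply, hg, hh]

theorem sum_Tb (c : Fin 3 → k) (Q : Fin 3 → Matrix (Fin 3) (Fin 3) k) :
    ∑ j, c j • Tb Q j = fromBlocks 0 0 (fromRows (Matrix.of fun a _ => c a) 0)
      (fromBlocks 0 0 (∑ j, c j • Q j) 0) := by
  ext x y
  simp only [Matrix.sum_apply, Matrix.smul_apply, smul_eq_mul]
  rcases x with x | x | x <;> rcases y with y | y | y <;>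
    simp [Tb, Matrix.sum_apply]

theorem conj_Tb {g gi h : Matrix (Fin 3) (Fin 3) k} (hg : gi * g = 1)
    (Q : Fin 3 → Matrix (Fin 3) (Fin 3) k) (i : Fin 3) :
    Dg gi h * (∑ j, g j i • Tb Q j) = Tb (tr g h Q) i * Dg gi h := by
  have hg' : g * gi = 1 := mul_eq_one_comm.1 hg
  have h1 : gi * (Matrix.of fun a (_ : Fin 1) => g a i) =
      Matrix.of fun a (_ : Fin 1) => if a = i then (1 : k) else 0 := by
    ext a b
    have h2 := congrFun (congrFun hg a) i
    rw [Matrix.mul_apply] at h2 ⊢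
    simp only [Matrix.of_apply]
    rw [h2, Matrix.one_apply]
  have h2 : h * (∑ j, g j i • Q j) = tr g h Q i * gi := by
    rw [tr, Matrix.mul_assoc, hg', Matrix.mul_one]
  rw [sum_Tb, Dg, Tb]
  simp only [fromBlocks_multiply, Matrix.mul_zero, Matrix.zero_mul, add_zero, zero_add,
    Matrix.mul_one, fromBlocks_mul_fromRows, h1, ← h2]

theorem cl_Tb {g gi h hi : Matrix (Fin 3) (Fin 3) k} (hg : gi * g = 1) (hh : h * hi = 1)
    {Q : Fin 3 → Matrix (Fin 3) (Fin 3) k} (hT : Cl (Tb Q)) : Cl (Tb (tr g h Q)) := by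
  have h1 : Cl (fun i => ∑ j, g j i • Tb Q j) :=
    cl_of_adj (fun i => sum_mem fun j _ => SMulMemClass.smul_mem _ (mem_adj _ j)) hT
  have hD : Dg gi h * Dg g hi = 1 := Dg_mul hg hh
  have hD' := mul_eq_one_comm.1 hD
  have h2 := Cl.conj _ _ hD hD' h1
  have h3 : (fun i => Dg gi h * (∑ j, g j i • Tb Q j) * Dg g hi) = Tb (tr g h Q) := by
    funext i
    rw [conj_Tb hg, Matrix.mul_assoc, hD, Matrix.mul_one]
  rwa [h3] at h2

/-- numbering of the blocks -/
def e7 : N7 ≃ Fin 7 := (Equiv.sumCongr (Equiv.refl _) finSumFinEquiv).trans finSumFinEquiv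

/-- pairs of indices -/
def ix (i j : Fin 3) : Fin 6 := ![![0, 1, 2], ![1, 3, 4], ![2, 4, 5]] i j

/-- the net with coefficients `r` -/
def Qr (r : Fin 6 × Fin 3 → k) (i : Fin 3) : Matrix (Fin 3) (Fin 3) k :=
  Matrix.of fun l j => r (ix i j, l)

theorem reindex_Tb (r : Fin 6 × Fin 3 → k) (i : Fin 3) :
    Matrix.reindexAlgEquiv k k e7 (Tb (Qr r) i) = Tq r i := by
  ext x y
  fin_cases i <;> fin_cases x <;> fin_cases y <;> rfl

theorem reindex_symm (r : Fin 6 × Fin 3 → k) (i : Fin 3) :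
    (Matrix.reindexAlgEquiv k k e7).symm (Tq r i) = Tb (Qr r) i := by
  rw [← reindex_Tb, AlgEquiv.symm_apply_apply]

theorem cl_iff (r : Fin 6 × Fin 3 → k) : Cl (Tq r) ↔ Cl (Tb (Qr r)) := by
  have hc : Fintype.card N7 = Fintype.card (Fin 7) := by simp
  constructor
  · intro h
    have h1 := Cl.mapEquiv (Matrix.reindexAlgEquiv k k e7).symm hc.symm h
    have h2 : (fun i => (Matrix.reindexAlgEquiv k k e7).symm (Tq r i)) = Tb (Qr r) :=
      funext fun i => reindex_symm r i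
    rwa [h2] at h1
  · intro h
    have h1 := Cl.mapEquiv (Matrix.reindexAlgEquiv k k e7) hc h
    have h2 : (fun i => (Matrix.reindexAlgEquiv k k e7) (Tb (Qr r) i)) = Tq r :=
      funext fun i => reindex_Tb r i
    rwa [h2] at h1

/-- the coefficients of the net `NQ 0 a b` -/
def rN (a b : k) (x : Fin 6 × Fin 3) : k :=
  ![![0, a, 0], ![0, 0, b], ![1, 0, 0], ![1, 0, 0], ![0, 1, 0], ![0, 0, 1]] x.1 x.2

theorem NQ_eq (a b : k) : NQ 0 a b = Tq (rN a b) := by
  funext i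
  ext x y
  fin_cases i <;> fin_cases x <;> fin_cases y <;> rfl

/-- first index of a pair -/
def ri : Fin 6 → Fin 3 := ![0, 0, 0, 1, 1, 2]

/-- second index of a pair -/
def ci : Fin 6 → Fin 3 := ![0, 1, 2, 1, 2, 2]

omit [Field k] in
theorem Qr_sym (r : Fin 6 × Fin 3 → k) (i l j : Fin 3) : Qr r i l j = Qr r j l i := by
  fin_cases i <;> fin_cases j <;> rfl

omit [Field k] in
theorem Qr_at (r : Fin 6 × Fin 3 → k) (a : Fin 6) (l : Fin 3) : Qr r (ri a) l (ci a) = r (a, l) := by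
  fin_cases a <;> rfl

omit [Field k] in
theorem eq_Qr {P : Fin 3 → Matrix (Fin 3) (Fin 3) k} (h : ∀ i l j, P i l j = P j l i) :
    Qr (fun x => P (ri x.1) x.2 (ci x.1)) = P := by
  funext i
  ext l j
  fin_cases i <;> fin_cases j <;> first | rfl | exact h _ _ _

theorem tr_sym (g h : Matrix (Fin 3) (Fin 3) k) {Q : Fin 3 → Matrix (Fin 3) (Fin 3) k}
    (hQ : ∀ i l j, Q i l j = Q j l i) (i l j : Fin 3) : tr g h Q i l j = tr g h Q j l i := by
  simp only [tr, Matrix.mul_apply, Matrix.sum_apply, Matrix.smul_apply, smul_eq_mul]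
  simp only [Fin.sum_univ_three]
  rw [hQ 1 0 0, hQ 1 1 0, hQ 1 2 0, hQ 2 0 0, hQ 2 1 0, hQ 2 2 0, hQ 2 0 1, hQ 2 1 1, hQ 2 2 1]
  ring

section

variable (G H : Matrix (Fin 3) (Fin 3) k) (b : k) (R E : Fin 3 → Matrix (Fin 3) (Fin 3) k)
  (i : Fin 3)

/-- first coefficient of the net -/
def Nm : Matrix (Fin 3) (Fin 3) k := b • E i + ∑ j, G j i • R j

/-- second coefficient of the net -/
def Lm : Matrix (Fin 3) (Fin 3) k := b • ∑ j, G j i • E j

/-- coefficients of the curve -/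
def W1 : Matrix (Fin 3) (Fin 3) k := Nm G b R E i + H * R i + R i * G

/-- coefficients of the curve -/
def W2 : Matrix (Fin 3) (Fin 3) k :=
  Lm G b E i + H * Nm G b R E i + Nm G b R E i * G + H * R i * G

/-- coefficients of the curve -/
def W3 : Matrix (Fin 3) (Fin 3) k :=
  H * Lm G b E i + Lm G b E i * G + H * Nm G b R E i * G

/-- coefficients of the curve -/
def W4 : Matrix (Fin 3) (Fin 3) k := H * Lm G b E i * G

theorem tr_expand (s : k) :
    tr (1 + s • G) (1 + s • H) (fun j => R j + (s * b) • E j) i =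
      R i + s • (W1 G H b R E i + s • W2 G H b R E i + s ^ 2 • W3 G H b R E i +
        s ^ 3 • W4 G H b E i) := by
  have h1 : ∑ j, (1 + s • G) j i • (R j + (s * b) • E j) =
      R i + s • Nm G b R E i + s ^ 2 • Lm G b E i := by
    have h2 : ∀ j, (1 + s • G) j i • (R j + (s * b) • E j) =
        ((1 : Matrix (Fin 3) (Fin 3) k) j i • R j + (s * b) • (1 : Matrix (Fin 3) (Fin 3) k) j i • E j)
          + s • (G j i • R j) + (s ^ 2 * b) • (G j i • E j) := by
      intro j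
      rw [Matrix.add_apply, Matrix.smul_apply, smul_eq_mul]
      module
    simp only [h2, Finset.sum_add_distrib, ← Finset.smul_sum]
    have h3 : ∀ F : Fin 3 → Matrix (Fin 3) (Fin 3) k,
        ∑ j, (1 : Matrix (Fin 3) (Fin 3) k) j i • F j = F i := by
      intro F
      simp [Matrix.one_apply]
    rw [h3, h3, Nm, Lm]
    module
  rw [tr, h1]
  simp only [W1, W2, W3, W4, Matrix.add_mul, Matrix.mul_add, Matrix.one_mul, Matrix.mul_one,
    Matrix.smul_mul, Matrix.mul_smul, Matrix.mul_assoc, smul_add, smul_smul]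
  module

end

section

variable (v : Fin 6 × Fin 3 → k)

/-- direction of the linear change -/
def Gm : Matrix (Fin 3) (Fin 3) k :=
  !![2 / 3 * v (0, 1) - 1 / 3 * v (2, 0) + 1 / 3 * v (3, 0) - 2 / 3 * v (4, 1) + 1 / 2 * v (5, 2),
     v (1, 1) - v (2, 2) + v (3, 2),
     -3 * v (0, 2) - v (1, 0) + v (2, 1) - v (3, 1) + 3 * v (4, 2);
     v (0, 2) + v (1, 0) - v (4, 2),
     1 / 3 * v (0, 1) - 2 / 3 * v (2, 0) + 2 / 3 * v (3, 0) - 1 / 3 * v (4, 1) + 1 / 2 * v (5, 2),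
     -v (0, 0) - v (1, 1) + 3 * v (2, 2) - 3 * v (3, 2) + v (4, 0);
     v (2, 2) - v (3, 2),
     -v (0, 2) + v (4, 2),
     1 / 2 * v (5, 2)]

/-- direction of the change of basis -/
def Hm : Matrix (Fin 3) (Fin 3) k :=
  !![-2 / 3 * v (0, 1) + 4 / 3 * v (2, 0) - 1 / 3 * v (3, 0) + 2 / 3 * v (4, 1) - v (5, 2),
     v (0, 0) - 2 * v (2, 2) + 2 * v (3, 2),
     6 * v (0, 2) + 2 * v (1, 0) - 2 * v (2, 1) + 2 * v (3, 1) - 6 * v (4, 2) + v (5, 0);
     2 * v (0, 2) + v (3, 1) - 2 * v (4, 2),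
     -1 / 3 * v (0, 1) + 2 / 3 * v (2, 0) - 2 / 3 * v (3, 0) + 4 / 3 * v (4, 1) - v (5, 2),
     2 * v (0, 0) + 2 * v (1, 1) - 6 * v (2, 2) + 6 * v (3, 2) - 2 * v (4, 0) + v (5, 1);
     v (3, 2),
     v (0, 2),
     0]

/-- the derivative of the net `NQ 0 1 b` with respect to `b` -/
def rE (x : Fin 6 × Fin 3) : k :=
  ![![0, 0, 0], ![0, 0, 1], ![0, 0, 0], ![0, 0, 0], ![0, 0, 0], ![0, 0, 0]] x.1 x.2

theorem W1_apply (G H : Matrix (Fin 3) (Fin 3) k) (b : k)
    (R E : Fin 3 → Matrix (Fin 3) (Fin 3) k) (i l j : Fin 3) :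
    W1 G H b R E i l j = b * E i l j + (G 0 i * R 0 l j + G 1 i * R 1 l j + G 2 i * R 2 l j) +
      (H l 0 * R i 0 j + H l 1 * R i 1 j + H l 2 * R i 2 j) +
      (R i l 0 * G 0 j + R i l 1 * G 1 j + R i l 2 * G 2 j) := by
  simp only [W1, Nm, Matrix.add_apply, Matrix.mul_apply, Matrix.sum_apply, Matrix.smul_apply,
    smul_eq_mul]
  simp only [Fin.sum_univ_three]

theorem W1_eq [CharZero k] (a : Fin 6) (l : Fin 3) :
    W1 (Gm v) (Hm v) (v (1, 2)) (Qr (rN 1 0)) (Qr rE) (ri a) l (ci a) = v (a, l) := by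
  rw [W1_apply]
  fin_cases a <;> fin_cases l <;>
    simp [Gm, Hm, Qr, rN, rE, ri, ci, ix] <;> ring

end

theorem isPoly_det (M : Matrix (Fin 3) (Fin 3) k) : IsPoly fun s : k => (1 + s • M).det := by
  have h1 := PolyAux.det_poly (fun s : k => 1 + s • M) (fun x y => by
    simp only [Matrix.add_apply, Matrix.smul_apply, smul_eq_mul]
    exact (IsPoly.const _).add (IsPoly.id.mul (IsPoly.const _))) id id
  simpa using h1

theorem finite_det (M : Matrix (Fin 3) (Fin 3) k) : {s : k | (1 + s • M).det = 0}.Finite := by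
  refine (isPoly_det M).finite (s₁ := 0) ?_
  simp

theorem Qr_line (s : k) (j : Fin 3) : Qr (rN 1 s) j = Qr (rN 1 0) j + s • Qr rE j := by
  ext x y
  fin_cases j <;> fin_cases x <;> fin_cases y <;> simp [Qr, rN, rE, ix]

theorem curve [CharZero k] (v : Fin 6 × Fin 3 → k) : ∃ u : Fin 6 × Fin 3 → Polynomial k,
    (∀ x, (u x).eval 0 = v x) ∧
      {s : k | (fun x => rN 1 0 x + s * (u x).eval s) ∈ {r : Fin 6 × Fin 3 → k | Cl (Tq r)}}.Infinite := by
  have hinf : Infinite k := inferInstance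
  set G := Gm v with hG
  set H := Hm v with hH
  set b := v (1, 2) with hb
  refine ⟨fun x => Polynomial.C (W1 G H b (Qr (rN 1 0)) (Qr rE) (ri x.1) x.2 (ci x.1)) +
    Polynomial.X * Polynomial.C (W2 G H b (Qr (rN 1 0)) (Qr rE) (ri x.1) x.2 (ci x.1)) +
    Polynomial.X ^ 2 * Polynomial.C (W3 G H b (Qr (rN 1 0)) (Qr rE) (ri x.1) x.2 (ci x.1)) +
    Polynomial.X ^ 3 * Polynomial.C (W4 G H b (Qr rE) (ri x.1) x.2 (ci x.1)), ?_, ?_⟩
  · rintro ⟨a, l⟩
    have h1 := W1_eq v a l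
    simp only [Polynomial.eval_add, Polynomial.eval_mul, Polynomial.eval_C, Polynomial.eval_X,
      Polynomial.eval_pow]
    rw [← hG, ← hH, ← hb] at h1
    rw [h1]
    ring
  · have hf := (finite_det G).union (finite_det H)
    refine hf.infinite_compl.mono ?_
    intro s hs
    simp only [Set.mem_compl_iff, Set.mem_union, Set.mem_ofPred_eq, not_or] at hs
    obtain ⟨hs1, hs2⟩ := hs
    have hg : (1 + s • G) * (1 + s • G)⁻¹ = 1 :=
      Matrix.mul_nonsing_inv _ (isUnit_iff_ne_zero.2 hs1)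
    have hh : (1 + s • H) * (1 + s • H)⁻¹ = 1 :=
      Matrix.mul_nonsing_inv _ (isUnit_iff_ne_zero.2 hs2)
    have h1 : Cl (Tb (Qr (rN 1 (s * b)))) := by
      rw [← cl_iff, ← NQ_eq]
      exact cl_NQ _ _
    have h2 := cl_Tb (mul_eq_one_comm.1 hg) hh h1
    show Cl (Tq fun x => rN 1 0 x + s * (_ : Polynomial k).eval s)
    rw [cl_iff]
    have h3 : (fun x : Fin 6 × Fin 3 => rN 1 0 x + s * Polynomial.eval s
        (Polynomial.C (W1 G H b (Qr (rN 1 0)) (Qr rE) (ri x.1) x.2 (ci x.1)) +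
    Polynomial.X * Polynomial.C (W2 G H b (Qr (rN 1 0)) (Qr rE) (ri x.1) x.2 (ci x.1)) +
    Polynomial.X ^ 2 * Polynomial.C (W3 G H b (Qr (rN 1 0)) (Qr rE) (ri x.1) x.2 (ci x.1)) +
    Polynomial.X ^ 3 * Polynomial.C (W4 G H b (Qr rE) (ri x.1) x.2 (ci x.1)))) =
        fun x => tr (1 + s • G) (1 + s • H) (Qr (rN 1 (s * b))) (ri x.1) x.2 (ci x.1) := by
      funext x
      have h4 : Qr (rN 1 (s * b)) = fun j => Qr (rN 1 0) j + (s * b) • Qr rE j :=
        funext fun j => Qr_line _ j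
      rw [h4, tr_expand]
      have h5 := Qr_at (rN (1 : k) 0) x.1 x.2
      simp only [Polynomial.eval_add, Polynomial.eval_mul, Polynomial.eval_C, Polynomial.eval_X,
        Polynomial.eval_pow, Matrix.add_apply, Matrix.smul_apply, smul_eq_mul]
      rw [h5]
    have h6 : Qr (fun x => tr (1 + s • G) (1 + s • H) (Qr (rN 1 (s * b))) (ri x.1) x.2 (ci x.1)) =
        tr (1 + s • G) (1 + s • H) (Qr (rN 1 (s * b))) :=
      eq_Qr (tr_sym _ _ (Qr_sym _))
    rw [h3, h6]
    exact h2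

/-- polynomial functions of several variables -/
def IsP {ι : Type*} (f : (ι → k) → k) : Prop := ∃ p : MvPolynomial ι k, ∀ r, f r = MvPolynomial.eval r p

theorem IsP.const {ι : Type*} (a : k) : IsP fun _ : ι → k => a :=
  ⟨MvPolynomial.C a, fun r => by rw [MvPolynomial.eval_C]⟩

theorem IsP.var {ι : Type*} (x : ι) : IsP fun r : ι → k => r x :=
  ⟨MvPolynomial.X x, fun r => by rw [MvPolynomial.eval_X]⟩

theorem isP_Tq (z : Fin 3 × Fin 7 × Fin 7) :
    IsP fun r : Fin 6 × Fin 3 → k => Tq r z.1 z.2.1 z.2.2 := by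
  obtain ⟨i, x, y⟩ := z
  fin_cases i <;> fin_cases x <;> fin_cases y <;>
    first
      | exact IsP.const 0
      | exact IsP.const 1
      | exact IsP.var (0, 0)
      | exact IsP.var (0, 1)
      | exact IsP.var (0, 2)
      | exact IsP.var (1, 0)
      | exact IsP.var (1, 1)
      | exact IsP.var (1, 2)
      | exact IsP.var (2, 0)
      | exact IsP.var (2, 1)
      | exact IsP.var (2, 2)
      | exact IsP.var (3, 0)
      | exact IsP.var (3, 1)
      | exact IsP.var (3, 2)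
      | exact IsP.var (4, 0)
      | exact IsP.var (4, 1)
      | exact IsP.var (4, 2)
      | exact IsP.var (5, 0)
      | exact IsP.var (5, 1)
      | exact IsP.var (5, 2)

end Q2Aux

open Q2Aux MvPolynomial in
/-- all triples `Tq r` are limits of curvilinear triples -/
theorem cl_Tq [IsAlgClosed k] [CharZero k] (r : Fin 6 × Fin 3 → k) : Cl (Tq r) := by
  have hinf : Infinite k := inferInstance
  intro F hF
  choose p hp using isP_Tq (k := k)
  have hev : ∀ r : Fin 6 × Fin 3 → k, eval r (aeval p F) = eval (co (Tq r)) F := by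
    intro r
    have h1 : ((aeval r : MvPolynomial (Fin 6 × Fin 3) k →ₐ[k] k).comp (aeval p)) =
        (aeval (co (Tq r)) : MvPolynomial (Fin 3 × Fin 7 × Fin 7) k →ₐ[k] k) := by
      apply MvPolynomial.algHom_ext
      intro z
      simp only [AlgHom.comp_apply, aeval_X]
      exact (hp z r).symm
    exact congrArg (fun f => f F) h1
  have h0 : aeval p F = 0 := by
    refine eq_zero_of_curves {r : Fin 6 × Fin 3 → k | Cl (Tq r)} (rN 1 0) curve _ ?_
    intro r hr
    rw [hev]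
    exact hr F hF
  rw [← hev, h0, map_zero]

end Pool.Agent.Lib.D7
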