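import Pool.Agent.Lib.D7.T322a
import Pool.Agent.Lib.D7.Q2

/-!
# MP_5dcbc3_ag: Jordan type `(3, 2, 2)`, the case `b = 0`
-/

namespace Pool.Agent.Lib.D7

open Matrix Pool.Agent.Lib.Q5dc

variable {k : Type*} [Field k]

namespace T322Aux

theorem conj_aux {n : Type*} [Fintype n] [DecidableEq n] {X Y g h : Matrix n n k}
    (hgh : g * h = 1) (hX : X * g = g * Y) : X = g * Y * h := by
  rw [← hX, Matrix.mul_assoc, hgh, Matrix.mul_one]

section

variable {a0 a1 c0 c1 d0 d1 n00 n01 n10 n11 a0' a1' c0' c1' d0' d1' n00' n01' n10' n11' t : k}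

variable [IsAlgClosed k] [CharZero k]

theorem cl_gen (hD : a0 * a1' - a1 * a0' ≠ 0)
    (h1 : d0 * a0' + d1 * a1' = d0' * a0 + d1' * a1)
    (h2 : n00 * a0' + n01 * a1' = n00' * a0 + n01' * a1)
    (h3 : n10 * a0' + n11 * a1' = n10' * a0 + n11' * a1) :
    Cl ![J322 k, E322 a0 a1 c0 c1 d0 d1 n00 n01 n10 n11,
      E322 a0' a1' c0' c1' d0' d1' n00' n01' n10' n11'] := by
  have ht : (a0 * a1' - a1 * a0')⁻¹ * (a0 * a1' - a1 * a0') = 1 := inv_mul_cancel₀ hD
  have hG := G_mul_H (c0 := c0) (c1 := c1) (c0' := c0') (c1' := c1') ht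
  have hH := mul_eq_one_comm.1 hG
  have h4 := Cl.conj _ _ hG hH (cl_Tq (r322 a0 a1 d0 d1 n00 n01 n10 n11 a0' a1' d0' d1' n00' n01'
    n10' n11' (a0 * a1' - a1 * a0')⁻¹))
  convert h4 using 1
  funext i
  fin_cases i
  · exact conj_aux hG conj0
  · exact conj_aux hG (conj1 ht)
  · exact conj_aux hG (conj2 ht h1 h2 h3)

end

variable [IsAlgClosed k] [CharZero k]

omit [CharZero k] in
theorem cl_polyFam {n : Type*} [Fintype n] [DecidableEq n] {c : k → Fin 3 → Matrix n n k}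
    (hc : PolyFam c) (h : {s | Cl (c s)}.Infinite) (s : k) : Cl (c s) := by
  choose p hp using hc
  have h1 : ∀ s, (fun i => Matrix.of fun x y => (p i x y).eval s) = c s := by
    intro s
    funext i
    ext x y
    exact (hp i x y s).symm
  rw [← h1 s]
  refine Cl.curve p ?_ s
  simpa only [h1] using h

omit [CharZero k] in
theorem cl_line {n : Type*} [Fintype n] [DecidableEq n] {A B C A' B' C' : Matrix n n k}
    {E : Set k} (hE : E.Finite) (h : ∀ s ∉ E, Cl ![A + s • A', B + s • B', C + s • C']) :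
    Cl ![A, B, C] := by
  have h1 : ∀ s : k, ![A, B, C] + s • ![A', B', C'] =
      ![A + s • A', B + s • B', C + s • C'] := by
    intro s
    funext i
    fin_cases i <;> rfl
  have h2 := cl_polyFam (PolyFam.line ![A, B, C] ![A', B', C']) (by
    refine (hE.infinite_compl).mono ?_
    intro s hs
    have h3 := h s hs
    rw [← h1] at h3
    exact h3) 0
  have h4 : ![A, B, C] + (0 : k) • ![A', B', C'] = ![A, B, C] := by
    rw [zero_smul, add_zero]
  simp only [h4] at h2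
  exact h2

omit [IsAlgClosed k] [CharZero k] in
theorem cl_swap {n : Type*} [Fintype n] [DecidableEq n] {A B C : Matrix n n k}
    (h : Cl ![A, C, B]) : Cl ![A, B, C] := by
  refine cl_of_adj ?_ h
  intro i
  fin_cases i
  · exact mem_adj ![A, C, B] 0
  · exact mem_adj ![A, C, B] 2
  · exact mem_adj ![A, C, B] 1

section

variable {a0 a1 c0 c1 d0 d1 n00 n01 n10 n11 a0' a1' c0' c1' d0' d1' n00' n01' n10' n11' : k}

omit [IsAlgClosed k] [CharZero k] in
theorem E_add_smul (s : k) : E322 a0 a1 c0 c1 d0 d1 n00 n01 n10 n11 +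
    s • E322 a0' a1' c0' c1' d0' d1' n00' n01' n10' n11' =
    E322 (a0 + s * a0') (a1 + s * a1') (c0 + s * c0') (c1 + s * c1') (d0 + s * d0')
      (d1 + s * d1') (n00 + s * n00') (n01 + s * n01') (n10 + s * n10') (n11 + s * n11') := by
  ext i j
  fin_cases i <;> fin_cases j <;> simp [E322]

/-- the case `a_C ≠ 0` -/
theorem cl_a' {f0 f1 : k} (hf : f0 * a0' + f1 * a1' = 1)
    (h1 : d0 * a0' + d1 * a1' = d0' * a0 + d1' * a1)
    (h2 : n00 * a0' + n01 * a1' = n00' * a0 + n01' * a1)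
    (h3 : n10 * a0' + n11 * a1' = n10' * a0 + n11' * a1) :
    Cl ![J322 k, E322 a0 a1 c0 c1 d0 d1 n00 n01 n10 n11,
      E322 a0' a1' c0' c1' d0' d1' n00' n01' n10' n11'] := by
  refine cl_line (A' := 0) (B' := E322 f1 (-f0) 0 0 ((d0' * f1 - d1' * f0) * f0)
    ((d0' * f1 - d1' * f0) * f1) ((n00' * f1 - n01' * f0) * f0) ((n00' * f1 - n01' * f0) * f1)
    ((n10' * f1 - n11' * f0) * f0) ((n10' * f1 - n11' * f0) * f1)) (C' := 0)
    (E := {-(a0 * a1' - a1 * a0')}) (Set.finite_singleton _) ?_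
  intro s hs
  have hx : a0 * a1' - a1 * a0' + s ≠ 0 := by
    intro h0
    apply hs
    rw [Set.mem_singleton_iff]
    linear_combination h0
  have h5 : Cl ![J322 k, E322 (a0 + s * f1) (a1 - s * f0) c0 c1
      (d0 + s * ((d0' * f1 - d1' * f0) * f0)) (d1 + s * ((d0' * f1 - d1' * f0) * f1))
      (n00 + s * ((n00' * f1 - n01' * f0) * f0)) (n01 + s * ((n00' * f1 - n01' * f0) * f1))
      (n10 + s * ((n10' * f1 - n11' * f0) * f0)) (n11 + s * ((n10' * f1 - n11' * f0) * f1)),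
      E322 a0' a1' c0' c1' d0' d1' n00' n01' n10' n11'] := by
    refine cl_gen ?_ ?_ ?_ ?_
    · intro h0
      apply hx
      linear_combination h0 - s * hf
    · linear_combination h1 + s * (d0' * f1 - d1' * f0) * hf
    · linear_combination h2 + s * (n00' * f1 - n01' * f0) * hf
    · linear_combination h3 + s * (n10' * f1 - n11' * f0) * hf
  have h6 : E322 (a0 + s * f1) (a1 - s * f0) c0 c1
      (d0 + s * ((d0' * f1 - d1' * f0) * f0)) (d1 + s * ((d0' * f1 - d1' * f0) * f1))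
      (n00 + s * ((n00' * f1 - n01' * f0) * f0)) (n01 + s * ((n00' * f1 - n01' * f0) * f1))
      (n10 + s * ((n10' * f1 - n11' * f0) * f0)) (n11 + s * ((n10' * f1 - n11' * f0) * f1)) =
      E322 a0 a1 c0 c1 d0 d1 n00 n01 n10 n11 + s • E322 f1 (-f0) 0 0
        ((d0' * f1 - d1' * f0) * f0) ((d0' * f1 - d1' * f0) * f1)
        ((n00' * f1 - n01' * f0) * f0) ((n00' * f1 - n01' * f0) * f1)
        ((n10' * f1 - n11' * f0) * f0) ((n10' * f1 - n11' * f0) * f1) := by
    rw [E_add_smul]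
    congr 1 <;> ring
  rw [smul_zero, add_zero, add_zero, ← h6]
  exact h5

omit [IsAlgClosed k] [CharZero k] in
theorem exists_f (h : a0' ≠ 0 ∨ a1' ≠ 0) : ∃ f0 f1 : k, f0 * a0' + f1 * a1' = 1 := by
  rcases h with h | h
  · exact ⟨a0'⁻¹, 0, by field_simp; ring⟩
  · exact ⟨0, a1'⁻¹, by field_simp; ring⟩

/-- the case `a_C ≠ 0` or `a_B ≠ 0` -/
theorem cl_a (h : (a0' ≠ 0 ∨ a1' ≠ 0) ∨ (a0 ≠ 0 ∨ a1 ≠ 0))
    (h1 : d0 * a0' + d1 * a1' = d0' * a0 + d1' * a1)
    (h2 : n00 * a0' + n01 * a1' = n00' * a0 + n01' * a1)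
    (h3 : n10 * a0' + n11 * a1' = n10' * a0 + n11' * a1) :
    Cl ![J322 k, E322 a0 a1 c0 c1 d0 d1 n00 n01 n10 n11,
      E322 a0' a1' c0' c1' d0' d1' n00' n01' n10' n11'] := by
  rcases h with h | h
  · obtain ⟨f0, f1, hf⟩ := exists_f h
    exact cl_a' hf h1 h2 h3
  · obtain ⟨f0, f1, hf⟩ := exists_f h
    exact cl_swap (cl_a' hf h1.symm h2.symm h3.symm)

/-- the case `b = 0` -/
theorem cl_b (h1 : d0 * a0' + d1 * a1' = d0' * a0 + d1' * a1)
    (h2 : n00 * a0' + n01 * a1' = n00' * a0 + n01' * a1)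
    (h3 : n10 * a0' + n11 * a1' = n10' * a0 + n11' * a1) :
    Cl ![J322 k, E322 a0 a1 c0 c1 d0 d1 n00 n01 n10 n11,
      E322 a0' a1' c0' c1' d0' d1' n00' n01' n10' n11'] := by
  by_cases h : (a0' ≠ 0 ∨ a1' ≠ 0) ∨ (a0 ≠ 0 ∨ a1 ≠ 0)
  · exact cl_a h h1 h2 h3
  push Not at h
  obtain ⟨⟨rfl, rfl⟩, rfl, rfl⟩ := h
  obtain ⟨v, hv0, hv⟩ := Matrix.exists_mulVec_eq_zero_iff.2
    (show (!![d0, d1, -d0', -d1'; n00, n01, -n00', -n01'; n10, n11, -n10', -n11'; 0, 0, 0, 0] :
      Matrix (Fin 4) (Fin 4) k).det = 0 from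
      Matrix.det_eq_zero_of_row_eq_zero 3 (fun j => by fin_cases j <;> rfl))
  have e1 := congrFun hv 0
  have e2 := congrFun hv 1
  have e3 := congrFun hv 2
  simp [Matrix.mulVec, dotProduct, Fin.sum_univ_succ] at e1 e2 e3
  have hv' : (v 0 ≠ 0 ∨ v 1 ≠ 0) ∨ (v 2 ≠ 0 ∨ v 3 ≠ 0) := by
    by_contra hcon
    push Not at hcon
    apply hv0
    funext i
    fin_cases i
    · exact hcon.1.1
    · exact hcon.1.2
    · exact hcon.2.1
    · exact hcon.2.2
  refine cl_line (A' := 0) (B' := E322 (v 2) (v 3) 0 0 0 0 0 0 0 0)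
    (C' := E322 (v 0) (v 1) 0 0 0 0 0 0 0 0) (E := {0}) (Set.finite_singleton _) ?_
  intro s hs
  have hs0 : s ≠ 0 := hs
  rw [smul_zero, add_zero, E_add_smul, E_add_smul]
  refine cl_a ?_ ?_ ?_ ?_
  · simp only [zero_add]
    rcases hv' with (h | h) | (h | h)
    · exact Or.inl (Or.inl (mul_ne_zero hs0 h))
    · exact Or.inl (Or.inr (mul_ne_zero hs0 h))
    · exact Or.inr (Or.inl (mul_ne_zero hs0 h))
    · exact Or.inr (Or.inr (mul_ne_zero hs0 h))
  · linear_combination s * e1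
  · linear_combination s * e2
  · linear_combination s * e3

end

/-- the permutation `v_i <-> v_(2-i)`, `u0 <-> u1`, `w0 <-> w1` -/
def pe : Fin 7 ≃ Fin 7 where
  toFun := ![2, 1, 0, 4, 3, 6, 5]
  invFun := ![2, 1, 0, 4, 3, 6, 5]
  left_inv := by intro i; fin_cases i <;> rfl
  right_inv := by intro i; fin_cases i <;> rfl

/-- the case `a = 0`, by duality -/
theorem cl_dual {b0 b1 c0 c1 d0 d1 n00 n01 n10 n11 b0' b1' c0' c1' d0' d1' n00' n01' n10' n11' : k}
    (h1 : c0 * b0' + c1 * b1' = c0' * b0 + c1' * b1)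
    (h2 : n00 * b0' + n10 * b1' = n00' * b0 + n10' * b1)
    (h3 : n01 * b0' + n11 * b1' = n01' * b0 + n11' * b1) :
    Cl ![J322 k, B322 0 0 c0 c1 b0 b1 d0 d1 n00 n01 n10 n11 0 0 0 0,
      B322 0 0 c0' c1' b0' b1' d0' d1' n00' n01' n10' n11' 0 0 0 0] := by
  have h4 := cl_b (c0 := d0) (c1 := d1) (c0' := d0') (c1' := d1') h1 h2 h3
  have h5 := Cl.transpose (Cl.mapEquiv (Matrix.reindexAlgEquiv k k pe) rfl h4)
  have h6 : ∀ M : Matrix (Fin 7) (Fin 7) k, ∀ x y,
      (Matrix.reindexAlgEquiv k k pe M).transpose x y =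
        M (![2, 1, 0, 4, 3, 6, 5] y) (![2, 1, 0, 4, 3, 6, 5] x) := fun M x y => rfl
  convert h5 using 1
  funext i
  fin_cases i
  · ext x y
    rw [h6]
    change J322 k x y = J322 k _ _
    fin_cases x <;> fin_cases y <;> simp [J322]
  · ext x y
    rw [h6]
    change B322 0 0 c0 c1 b0 b1 d0 d1 n00 n01 n10 n11 0 0 0 0 x y =
      E322 b0 b1 d0 d1 c0 c1 n00 n10 n01 n11 _ _
    fin_cases x <;> fin_cases y <;> simp [B322, E322]
  · ext x y
    rw [h6]
    change B322 0 0 c0' c1' b0' b1' d0' d1' n00' n01' n10' n11' 0 0 0 0 x y =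
      E322 b0' b1' d0' d1' c0' c1' n00' n10' n01' n11' _ _
    fin_cases x <;> fin_cases y <;> simp [B322, E322]

end T322Aux

open T322Aux in
theorem no_322 [IsAlgClosed k] [CharZero k] {ρ : ℕ → ℕ} {T : Fin 3 → Matrix (Fin 7) (Fin 7) k}
    (hT : MaxR ρ T) (hρ : ∀ i, ρ i = (J322 k ^ i).rank) (h0 : T 0 = J322 k) : False := by
  have c01 := hT.cn.1 0 1
  have c02 := hT.cn.1 0 2
  rw [h0] at c01 c02
  obtain ⟨p1, p2, a0, a1, c0, c1, b0, b1, d0, d1, n00, n01, n10, n11, z00, z01, z10, z11, hB⟩ :=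
    shape c01 (hT.cn.2 1)
  obtain ⟨q1, q2, a0', a1', c0', c1', b0', b1', d0', d1', n00', n01', n10', n11', z00', z01',
    z10', z11', hC⟩ := shape c02 (hT.cn.2 2)
  have mJ : J322 k ∈ adj T := h0 ▸ mem_adj T 0
  have mK : K322 k ∈ adj T := by
    rw [K_eq]
    exact mul_mem mJ mJ
  have mB : B322 a0 a1 c0 c1 b0 b1 d0 d1 n00 n01 n10 n11 z00 z01 z10 z11 ∈ adj T := by
    have h1 : B322 a0 a1 c0 c1 b0 b1 d0 d1 n00 n01 n10 n11 z00 z01 z10 z11 =
        T 1 - (p1 • J322 k + p2 • K322 k) := by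
      rw [hB]
      abel
    rw [h1]
    exact sub_mem (mem_adj T 1) (add_mem (SMulMemClass.smul_mem _ mJ)
      (SMulMemClass.smul_mem _ mK))
  have mC : B322 a0' a1' c0' c1' b0' b1' d0' d1' n00' n01' n10' n11' z00' z01' z10' z11' ∈
      adj T := by
    have h1 : B322 a0' a1' c0' c1' b0' b1' d0' d1' n00' n01' n10' n11' z00' z01' z10' z11' =
        T 2 - (q1 • J322 k + q2 • K322 k) := by
      rw [hC]
      abel
    rw [h1]
    exact sub_mem (mem_adj T 2) (add_mem (SMulMemClass.smul_mem _ mJ)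
      (SMulMemClass.smul_mem _ mK))
  have key : ∀ M ∈ adj T, ∀ s : k, ((J322 k + s • M) ^ 2).rank ≤ 1 := by
    intro M hM s
    refine (hT.rank_le (add_mem mJ (SMulMemClass.smul_mem _ hM)) 2).trans ?_
    rw [hρ]
    exact rank_J_sq
  obtain ⟨rfl, rfl, rfl, rfl⟩ := z_zero (key _ mB)
  obtain ⟨rfl, rfl, rfl, rfl⟩ := z_zero (key _ mC)
  have e1 := ab_zero (key _ mB)
  have e2 := ab_zero (key _ mC)
  have e3 : B322 a0 a1 c0 c1 b0 b1 d0 d1 n00 n01 n10 n11 0 0 0 0 +
      B322 a0' a1' c0' c1' b0' b1' d0' d1' n00' n01' n10' n11' 0 0 0 0 =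
      B322 (a0 + a0') (a1 + a1') (c0 + c0') (c1 + c1') (b0 + b0') (b1 + b1') (d0 + d0')
        (d1 + d1') (n00 + n00') (n01 + n01') (n10 + n10') (n11 + n11') 0 0 0 0 := by
    ext x y
    fin_cases x <;> fin_cases y <;> simp [B322]
  have e4 := ab_zero (e3 ▸ key _ (add_mem mB mC))
  have hcomm := hT.cn.comm mB mC
  -- `T` is a limit of curvilinear triples as soon as the reduced triple is
  have fin : Cl ![J322 k, B322 a0 a1 c0 c1 b0 b1 d0 d1 n00 n01 n10 n11 0 0 0 0,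
      B322 a0' a1' c0' c1' b0' b1' d0' d1' n00' n01' n10' n11' 0 0 0 0] → False := by
    intro h
    refine hT.ncl (cl_of_adj ?_ h)
    have nJ := mem_adj ![J322 k, B322 a0 a1 c0 c1 b0 b1 d0 d1 n00 n01 n10 n11 0 0 0 0,
      B322 a0' a1' c0' c1' b0' b1' d0' d1' n00' n01' n10' n11' 0 0 0 0] 0
    have nB := mem_adj ![J322 k, B322 a0 a1 c0 c1 b0 b1 d0 d1 n00 n01 n10 n11 0 0 0 0,
      B322 a0' a1' c0' c1' b0' b1' d0' d1' n00' n01' n10' n11' 0 0 0 0] 1
    have nC := mem_adj ![J322 k, B322 a0 a1 c0 c1 b0 b1 d0 d1 n00 n01 n10 n11 0 0 0 0,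
      B322 a0' a1' c0' c1' b0' b1' d0' d1' n00' n01' n10' n11' 0 0 0 0] 2
    have nK := mul_mem nJ nJ
    change J322 k * J322 k ∈ _ at nK
    rw [← K_eq] at nK
    intro i
    fin_cases i
    · exact h0 ▸ nJ
    · exact hB ▸ add_mem (add_mem (SMulMemClass.smul_mem _ nJ) (SMulMemClass.smul_mem _ nK)) nB
    · exact hC ▸ add_mem (add_mem (SMulMemClass.smul_mem _ nJ) (SMulMemClass.smul_mem _ nK)) nC
  have hcase : (b0 = 0 ∧ b1 = 0 ∧ b0' = 0 ∧ b1' = 0) ∨ (a0 = 0 ∧ a1 = 0 ∧ a0' = 0 ∧ a1' = 0) := by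
    obtain ⟨e11, e12, e13, e14⟩ := e1
    obtain ⟨e21, e22, e23, e24⟩ := e2
    obtain ⟨e41, e42, e43, e44⟩ := e4
    by_cases ha0 : a0 = 0
    · by_cases ha1 : a1 = 0
      · by_cases ha0' : a0' = 0
        · by_cases ha1' : a1' = 0
          · exact Or.inr ⟨ha0, ha1, ha0', ha1'⟩
          · left
            have hb0' : b0' = 0 := (mul_eq_zero.1 e23).resolve_left ha1'
            have hb1' : b1' = 0 := (mul_eq_zero.1 e24).resolve_left ha1'
            refine ⟨?_, ?_, hb0', hb1'⟩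
            · rw [ha1, hb0', zero_add, add_zero] at e43
              exact (mul_eq_zero.1 e43).resolve_left ha1'
            · rw [ha1, hb1', zero_add, add_zero] at e44
              exact (mul_eq_zero.1 e44).resolve_left ha1'
        · left
          have hb0' : b0' = 0 := (mul_eq_zero.1 e21).resolve_left ha0'
          have hb1' : b1' = 0 := (mul_eq_zero.1 e22).resolve_left ha0'
          refine ⟨?_, ?_, hb0', hb1'⟩
          · rw [ha0, hb0', zero_add, add_zero] at e41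
            exact (mul_eq_zero.1 e41).resolve_left ha0'
          · rw [ha0, hb1', zero_add, add_zero] at e42
            exact (mul_eq_zero.1 e42).resolve_left ha0'
      · left
        have hb0 : b0 = 0 := (mul_eq_zero.1 e13).resolve_left ha1
        have hb1 : b1 = 0 := (mul_eq_zero.1 e14).resolve_left ha1
        refine ⟨hb0, hb1, ?_, ?_⟩
        · have h : a1 * b0' = 0 := by
            rw [hb0] at e43
            linear_combination e43 - e23
          exact (mul_eq_zero.1 h).resolve_left ha1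
        · have h : a1 * b1' = 0 := by
            rw [hb1] at e44
            linear_combination e44 - e24
          exact (mul_eq_zero.1 h).resolve_left ha1
    · left
      have hb0 : b0 = 0 := (mul_eq_zero.1 e11).resolve_left ha0
      have hb1 : b1 = 0 := (mul_eq_zero.1 e12).resolve_left ha0
      refine ⟨hb0, hb1, ?_, ?_⟩
      · have h : a0 * b0' = 0 := by
          rw [hb0] at e41
          linear_combination e41 - e21
        exact (mul_eq_zero.1 h).resolve_left ha0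
      · have h : a0 * b1' = 0 := by
          rw [hb1] at e42
          linear_combination e42 - e22
        exact (mul_eq_zero.1 h).resolve_left ha0
  rcases hcase with ⟨rfl, rfl, rfl, rfl⟩ | ⟨rfl, rfl, rfl, rfl⟩
  · apply fin
    simp only [E_eq] at hcomm ⊢
    obtain ⟨r1, r2, r3⟩ := rel hcomm
    exact cl_b r1 r2 r3
  · apply fin
    have h1 := congrFun (congrFun hcomm 2) 0
    have h2 := congrFun (congrFun hcomm 2) 3
    have h3 := congrFun (congrFun hcomm 2) 5
    simp [Matrix.mul_apply, B322, Fin.sum_univ_succ] at h1 h2 h3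
    refine cl_dual ?_ ?_ ?_
    · linear_combination -h1
    · linear_combination -h2
    · linear_combination -h3

end Pool.Agent.Lib.D7
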