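import Pool.Agent.Lib.D6.Run

/-!
# Runs in a plane and changes of plane

`qq t k` is the `k`-th point of the plane of `z` and `u`: `qq t 0 = z`, `qq t 1 = u`,
`qq t (k+2) = step (qq t (k+1)) (qq t k)`.  A digit `d = (n, j, i)` sends the state `t = (u, z, W)` to
`(step (qq t n) W, qq t j, qq t i)`, where `i = j ± 1`.
-/

set_option autoImplicit false

namespace Pool.Agent.D7

open Pool.Agent.D6

/-- A digit. -/
structure Dg where
  n : ℕ
  j : ℕ
  i : ℕ
deriving DecidableEq

/-- Valid digits. -/
structure Dg.Ok (d : Dg) (N : ℕ) : Prop where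
  h2 : 2 ≤ d.n
  hN : d.n ≤ N
  hj : d.j ≤ d.n
  hi : d.i ≤ d.n
  hs : d.i = d.j + 1 ∨ d.j = d.i + 1

/-- The points of the plane. -/
def qq (t : St) : ℕ → Pt
  | 0 => t.z
  | k + 1 => (rn t k).u

/-- The effect of a digit. -/
def nx (d : Dg) (t : St) : St := ⟨step (qq t d.n) t.W, qq t d.j, qq t d.i⟩

variable {t : St}

theorem qq_zero (t : St) : qq t 0 = t.z := rfl
theorem qq_one (t : St) : qq t 1 = t.u := rfl

theorem rn_z' (t : St) (k : ℕ) : (rn t k).z = qq t k := by
  cases k with
  | zero => rfl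
  | succ k => exact rn_z t k

theorem rn_u' (t : St) (k : ℕ) : (rn t k).u = qq t (k + 1) := rfl

theorem rn_v' (t : St) (k : ℕ) : (rn t k).v = qq t (k + 2) := (rn_u t k).symm

theorem qq_succ (t : St) (k : ℕ) : qq t (k + 2) = step (qq t (k + 1)) (qq t k) := by
  rw [← rn_v', St.v, rn_u', rn_z']

theorem box_qq (h : Inv t) (k : ℕ) : Box (qq t k) := by
  rw [← rn_z']; exact (rn_inv h k).bz

theorem good_qq_succ (h : Inv t) (k : ℕ) : Good (qq t k) (qq t (k + 1)) := by
  have := (rn_inv h k).gz
  rw [rn_z', rn_u'] at this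
  exact this

theorem good_qq (h : Inv t) {k l : ℕ} (hkl : k < l) : Good (qq t k) (qq t l) := by
  induction l with
  | zero => omega
  | succ l ih =>
    rcases Nat.lt_or_ge k l with h1 | h1
    · exact good_trans (box_qq h l) (ih h1) (good_qq_succ h l)
    · have e : k = l := by omega
      subst e
      exact good_qq_succ h k

/-- `W` comes before the points `qq t k`, `k ≥ 1`. -/
theorem good_W (h : Inv t) (k : ℕ) (hk : 1 ≤ k) : Good t.W (qq t k) := by
  obtain ⟨l, rfl⟩ : ∃ l, k = l + 1 := ⟨k - 1, by omega⟩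
  have := (rn_inv h l).gW
  rw [rn_W, rn_u'] at this
  exact this

/-- The state with `u = qq t n`, next point `step (qq t n) W`. -/
def sw (t : St) (n : ℕ) : St := ⟨qq t n, t.W, qq t (n - 1)⟩

theorem det_qq (t : St) (k : ℕ) : det3 (qq t k) (qq t (k + 1)) t.W = det3 t.z t.u t.W := by
  induction k with
  | zero => rfl
  | succ k ih => rw [qq_succ, det_step, ih]

theorem inv_sw (h : Inv t) (n : ℕ) (hn : 1 ≤ n) : Inv (sw t n) := by
  obtain ⟨l, rfl⟩ : ∃ l, n = l + 1 := ⟨n - 1, by omega⟩
  refine ⟨box_qq h (l + 1), h.bW, box_qq h l, good_W h (l + 1) (by omega), good_qq_succ h l, ?_⟩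
  · simp only [sw, Nat.add_sub_cancel]
    have e := det_qq t l
    have h4 := h.hd
    have e2 : det3 t.W (qq t (l + 1)) (qq t l) = - det3 (qq t l) (qq t (l + 1)) t.W := by
      unfold det3; ring
    rw [e2, e, neg_sq]
    exact h4

theorem sw_v (t : St) (n : ℕ) : (sw t n).v = step (qq t n) t.W := rfl

theorem box_X (h : Inv t) (n : ℕ) (hn : 1 ≤ n) : Box (step (qq t n) t.W) := (inv_sw h n hn).bv
theorem good_X (h : Inv t) (n : ℕ) (hn : 1 ≤ n) : Good (qq t n) (step (qq t n) t.W) :=
  (inv_sw h n hn).gv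

theorem good_qX (h : Inv t) (n : ℕ) (hn : 1 ≤ n) (k : ℕ) (hk : k ≤ n) :
    Good (qq t k) (step (qq t n) t.W) := by
  rcases Nat.lt_or_ge k n with h1 | h1
  · exact good_trans (box_qq h n) (good_qq h h1) (good_X h n hn)
  · have e : k = n := by omega
    subst e
    exact good_X h k hn

/-- The points of the plane are in a plane. -/
theorem det_plane (t : St) (k l : ℕ) : det3 (qq t k) (qq t (k + 1)) (qq t l) = 0 := by
  have key : ∀ k, det3 (qq t k) (qq t (k + 1)) t.z = 0 ∧ det3 (qq t k) (qq t (k + 1)) t.u = 0 := by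
    intro k
    induction k with
    | zero => constructor <;> (simp only [qq_zero, qq_one, zero_add]; unfold det3; ring)
    | succ k ih =>
      constructor
      · rw [qq_succ, det_step]; exact ih.1
      · rw [qq_succ, det_step]; exact ih.2
  have hk := key k
  have aux : ∀ l, det3 (qq t k) (qq t (k + 1)) (qq t l) = 0 ∧
      det3 (qq t k) (qq t (k + 1)) (qq t (l + 1)) = 0 := by
    intro l
    induction l with
    | zero => exact hk
    | succ l ih =>
      refine ⟨ih.2, ?_⟩
      rw [qq_succ]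
      have e : ∀ P Q A B : Pt, det3 P Q (step A B) = br A B * det3 P Q A - det3 P Q B := by
        intro P Q A B
        simp only [det3, step]
        ring
      rw [e, ih.1, ih.2]
      ring
  exact (aux l).1

theorem det_lin (P Q A B : Pt) : det3 P Q (step A B) = br A B * det3 P Q A - det3 P Q B := by
  simp only [det3, step]
  ring

theorem det_lin2 (P A B Q : Pt) : det3 P (step A B) Q = br A B * det3 P A Q - det3 P B Q := by
  simp only [det3, step]
  ring

theorem inv_nx (h : Inv t) {d : Dg} {N : ℕ} (hd : d.Ok N) : Inv (nx d t) := by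
  have hn : 1 ≤ d.n := by have := hd.h2; omega
  refine ⟨box_X h _ hn, box_qq h _, box_qq h _, good_qX h _ hn _ hd.hj, good_qX h _ hn _ hd.hi, ?_⟩
  simp only [nx]
  rw [det_lin2]
  have key : ∀ k, det3 (qq t k) (step (qq t d.n) t.W) (qq t (k + 1)) ^ 2 = 4 := by
    intro k
    rw [det_lin2]
    have e1 : det3 (qq t k) (qq t d.n) (qq t (k + 1)) = 0 := by
      have := det_plane t k d.n
      unfold det3 at this ⊢
      linarith
    have e2 : det3 (qq t k) t.W (qq t (k + 1)) = - det3 t.z t.u t.W := by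
      rw [← det_qq t k]
      unfold det3; ring
    rw [e1, e2]
    have := h.hd
    nlinarith
  rw [← det_lin2]
  rcases hd.hs with e | e
  · rw [e]; exact key _
  · rw [e]
    have := key d.i
    have e3 : det3 (qq t (d.i + 1)) (step (qq t d.n) t.W) (qq t d.i) =
        - det3 (qq t d.i) (step (qq t d.n) t.W) (qq t (d.i + 1)) := by
      unfold det3; ring
    rw [e3, neg_sq]
    exact this

/-- A path of states. -/
structure Path (T : ℕ → St) (D : ℕ → Dg) (N : ℕ) : Prop where
  inv0 : Inv (T 0)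
  ok : ∀ n, (D n).Ok N
  st : ∀ n, T (n + 1) = nx (D n) (T n)

variable {T : ℕ → St} {D : ℕ → Dg} {N : ℕ}

theorem Path.inv (h : Path T D N) (n : ℕ) : Inv (T n) := by
  induction n with
  | zero => exact h.inv0
  | succ n ih => rw [h.st n]; exact inv_nx ih (h.ok n)

theorem Path.n1 (h : Path T D N) (n : ℕ) : 1 ≤ (D n).n := by have := (h.ok n).h2; omega

theorem Path.good_step (h : Path T D N) (n k : ℕ) (hk : k ≤ (D n).n) :
    Good (qq (T n) k) (T (n + 1)).u := by
  rw [h.st n]
  exact good_qX (h.inv n) _ (h.n1 n) k hk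

theorem Path.good_u (h : Path T D N) {n m : ℕ} (hnm : n < m) : Good (T n).u (T m).u := by
  induction m with
  | zero => omega
  | succ m ih =>
    rcases Nat.lt_or_ge n m with h1 | h1
    · exact good_trans (h.inv m).bu (ih h1) (h.good_step m 1 (h.n1 m))
    · have e : n = m := by omega
      subst e
      exact h.good_step n 1 (h.n1 n)

theorem Path.mono (h : Path T D N) : StrictMono (fun n => D6.slope (T n).u) := by
  intro n m hnm
  exact slope_lt (h.inv n).bu (h.inv m).bu (h.good_u hnm)

theorem Path.bdd (h : Path T D N) : BddAbove (Set.range fun n => D6.slope (T n).u) :=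
  ⟨1, by rintro _ ⟨n, rfl⟩; exact slope_le_one (h.inv n).bu⟩

theorem Path.tendsto (h : Path T D N) :
    Filter.Tendsto (fun n => D6.slope (T n).u) Filter.atTop (nhds (xi T)) :=
  tendsto_atTop_ciSup h.mono.monotone h.bdd

theorem Path.xi_le (h : Path T D N) : xi T ≤ 1 := ciSup_le fun n => slope_le_one (h.inv n).bu

theorem Path.le_xi (h : Path T D N) : 1 / 2 ≤ xi T :=
  (half_le_slope (h.inv 0).bu).trans (le_ciSup h.bdd 0)

theorem Path.app_of_good (h : Path T D N) {P : Pt} (hP : Box P) (m0 : ℕ)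
    (hg : ∀ m, m0 ≤ m → Good P (T m).u) : App (xi T) P := by
  have hx := hP.xpos
  have hlim : Filter.Tendsto (fun n => (P.x : ℝ) * (P.x * D6.slope (T n).u - P.y)) Filter.atTop
      (nhds ((P.x : ℝ) * (P.x * xi T - P.y))) :=
    ((h.tendsto.const_mul _).sub_const _).const_mul _
  have key : ∀ m, m0 ≤ m → 1 / 3 ≤ (P.x : ℝ) * (P.x * D6.slope (T m).u - P.y) ∧
      (P.x : ℝ) * (P.x * D6.slope (T m).u - P.y) ≤ 2 := by
    intro m hm
    have g := hg m hm
    have hb := (h.inv m).bu
    have hux := hb.xpos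
    have e : (P.x : ℝ) * (P.x * D6.slope (T m).u - P.y) = P.x * (ga P (T m).u : ℝ) / (T m).u.x := by
      unfold D6.slope ga
      push_cast
      field_simp
    rw [e]
    have h1 := x_le_ga hP g
    have h2 := ga_le_x hP g
    have h1' : ((T m).u.x : ℝ) ≤ 3 * (P.x * (ga P (T m).u : ℝ)) := by exact_mod_cast h1
    have h2' : (P.x : ℝ) * (ga P (T m).u : ℝ) ≤ 2 * (T m).u.x := by exact_mod_cast h2
    constructor
    · rw [le_div_iff₀ hux]; linarith
    · rw [div_le_iff₀ hux]; linarith
  refine ⟨hP, ?_, ?_⟩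
  · refine ge_of_tendsto hlim ?_
    filter_upwards [Filter.eventually_ge_atTop m0] with m hm using (key m hm).1
  · refine le_of_tendsto hlim ?_
    filter_upwards [Filter.eventually_ge_atTop m0] with m hm using (key m hm).2

theorem Path.app_q (h : Path T D N) (n k : ℕ) (hk : k ≤ (D n).n) : App (xi T) (qq (T n) k) := by
  refine h.app_of_good (box_qq (h.inv n) k) (n + 1) fun m hm => ?_
  rcases Nat.lt_or_ge (n + 1) m with h1 | h1
  · exact good_trans (h.inv (n + 1)).bu (h.good_step n k hk) (h.good_u h1)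
  · have e : m = n + 1 := by omega
    subst e
    exact h.good_step n k hk

theorem Path.app_u (h : Path T D N) (n : ℕ) : App (xi T) (T n).u := h.app_q n 1 (h.n1 n)

theorem Path.app_z (h : Path T D N) (n : ℕ) : App (xi T) (T n).z := h.app_q n 0 (Nat.zero_le _)

theorem Path.app_v (h : Path T D N) (n : ℕ) : App (xi T) (T n).v := by
  have := h.app_q n 2 (h.ok n).h2
  have e : (T n).v = qq (T n) 2 := rn_v' (T n) 0
  rw [e]; exact this

theorem Path.app_X (h : Path T D N) (n : ℕ) : App (xi T) (step (qq (T n) (D n).n) (T n).W) := by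
  have := h.app_u (n + 1)
  rw [h.st n] at this
  exact this

theorem Path.app_W (h : Path T D N) (n : ℕ) : App (xi T) (T n).W := by
  refine h.app_of_good (h.inv n).bW (n + 1) fun m hm => ?_
  exact good_trans (h.inv n).bu (h.inv n).gW (h.good_u (by omega))

end Pool.Agent.D7
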