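import Pool.Agent.Lib.D7.Ex

/-!
# The exponents `hat w_2` and `hat w_2^*`: lower bounds
-/

set_option autoImplicit false

open Filter Topology

namespace Pool.Agent.D7

open Pool.Agent.D6

namespace LoAux

variable {t : St}

theorem rn_add (t : St) (j m : ℕ) : rn (rn t j) m = rn t (j + m) := by
  unfold rn
  rw [add_comm, Function.iterate_add_apply]

theorem qq_rn (t : St) (j m : ℕ) : qq (rn t j) m = qq t (j + m) := by
  cases m with
  | zero => exact rn_z' t j
  | succ m =>
    change (rn (rn t j) m).u = (rn t (j + m)).u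
    rw [rn_add]

/-- Coordinates in the plane. -/
theorem coord (t : St) (m : ℕ) : ∃ α β : ℤ, (qq t m).x = α * t.z.x + β * t.u.x ∧
    (qq t m).y = α * t.z.y + β * t.u.y ∧ (qq t m).z = α * t.z.z + β * t.u.z := by
  have key : ∀ m, (∃ α β : ℤ, (qq t m).x = α * t.z.x + β * t.u.x ∧
      (qq t m).y = α * t.z.y + β * t.u.y ∧ (qq t m).z = α * t.z.z + β * t.u.z) ∧
      (∃ α β : ℤ, (qq t (m + 1)).x = α * t.z.x + β * t.u.x ∧
      (qq t (m + 1)).y = α * t.z.y + β * t.u.y ∧ (qq t (m + 1)).z = α * t.z.z + β * t.u.z) := by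
    intro m
    induction m with
    | zero =>
      refine ⟨⟨1, 0, ?_, ?_, ?_⟩, ⟨0, 1, ?_, ?_, ?_⟩⟩ <;>
        simp only [qq_zero, zero_add, qq_one] <;> ring
    | succ m ih =>
      refine ⟨ih.2, ?_⟩
      obtain ⟨⟨α, β, a1, a2, a3⟩, ⟨α', β', b1, b2, b3⟩⟩ := ih
      rw [qq_succ]
      refine ⟨br (qq t (m + 1)) (qq t m) * α' - α, br (qq t (m + 1)) (qq t m) * β' - β, ?_, ?_, ?_⟩
      · simp only [step]; rw [b1, a1]; ring
      · simp only [step]; rw [b2, a2]; ring
      · simp only [step]; rw [b3, a3]; ring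
  exact (key m).1

theorem det_zero (t : St) (m n : ℕ) : det3 (qq t m) (qq t n) t.z = 0 := by
  obtain ⟨α, β, a1, a2, a3⟩ := coord t m
  obtain ⟨α', β', b1, b2, b3⟩ := coord t n
  unfold det3
  rw [a1, a2, a3, b1, b2, b3]
  ring

/-- The determinant `det (q_m, W, q_0)`. -/
theorem det_bd (h : Inv t) (m : ℕ) (hm : 1 ≤ m) :
    |(det3 (qq t m) t.W t.z : ℝ)| ≤ 12 * Real.exp (lg (qq t m) - lg t.u) := by
  obtain ⟨α, β, a1, a2, a3⟩ := coord t m
  have e1 : det3 (qq t m) t.W t.z = β * det3 t.u t.W t.z := by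
    unfold det3; rw [a1, a2, a3]; ring
  have e2 : ga t.z (qq t m) = β * ga t.z t.u := by
    unfold ga; rw [a1, a2]; ring
  have hg := good_qq h (k := 0) (l := m) hm
  rw [qq_zero] at hg
  have c1 := ga_le_x h.bz hg
  have c2 := x_le_ga h.bz h.gz
  have c3 := hg.hc
  have c4 := h.gz.hc
  have hβ : 0 < β := by
    by_contra hcon
    push Not at hcon
    have : β * ga t.z t.u ≤ 0 := mul_nonpos_of_nonpos_of_nonneg hcon (by linarith)
    linarith
  have hd : |(det3 t.u t.W t.z : ℝ)| = 2 := by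
    have e3 : det3 t.u t.W t.z = det3 t.z t.u t.W := by unfold det3; ring
    rw [e3]
    exact ExLoAux.abs_det h
  have hβ' : (0 : ℝ) < β := by exact_mod_cast hβ
  rw [e1]
  push_cast
  rw [abs_mul, hd, abs_of_pos hβ', Real.exp_sub, (box_qq h m).exp_lg, h.bu.exp_lg]
  have hux := h.bu.xpos
  rw [← mul_div_assoc, le_div_iff₀ hux]
  have k1 : β * t.u.x ≤ 6 * (qq t m).x := by
    have k2 : β * t.u.x ≤ β * (3 * (t.z.x * ga t.z t.u)) := mul_le_mul_of_nonneg_left c2 hβ.le
    have k3 : β * (3 * (t.z.x * ga t.z t.u)) = 3 * (t.z.x * ga t.z (qq t m)) := by rw [e2]; ring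
    linarith
  have k1' : (β : ℝ) * t.u.x ≤ 6 * (qq t m).x := by exact_mod_cast k1
  linarith

/-- The determinant of the third case. -/
theorem det_bd' (h : Inv t) (n i j : ℕ) (hji : j < i) :
    |(det3 (qq t i) (step (qq t n) t.W) (step (step (qq t n) t.W) (qq t j)) : ℝ)| ≤
      12 * Real.exp (lg (qq t i) - lg (qq t (j + 1))) := by
  have e1 : det3 (qq t i) (step (qq t n) t.W) (step (step (qq t n) t.W) (qq t j)) =
      det3 (qq t i) t.W (qq t j) := by
    rw [det_lin]
    have e2 : det3 (qq t i) (step (qq t n) t.W) (step (qq t n) t.W) = 0 := by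
      unfold det3; ring
    rw [e2, det_lin2]
    have e3 : det3 (qq t i) (qq t n) (qq t j) = 0 := by
      obtain ⟨α, β, a1, a2, a3⟩ := coord t i
      obtain ⟨α', β', b1, b2, b3⟩ := coord t n
      obtain ⟨α'', β'', c1, c2, c3⟩ := coord t j
      unfold det3
      rw [a1, a2, a3, b1, b2, b3, c1, c2, c3]
      ring
    rw [e3]
    ring
  rw [e1]
  have hr := rn_inv h j
  have := det_bd hr (i - j) (by omega)
  rw [qq_rn, rn_W, rn_z', rn_u'] at this
  have e : j + (i - j) = i := by omega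
  rwa [e] at this

end LoAux

theorem ex_lo {T : ℕ → St} {D : ℕ → Dg} {N : ℕ} {Λ : ℝ} (hΛ : 5 ≤ Λ) (h : Path T D N) (l : Lim T D Λ)
    (htr : Transcendental ℚ (xi T)) (r : ℝ) (hr0 : 0 ≤ r) (hr : r < (2 * Λ - 1) / (Λ - 1)) :
    ∃ X₀ : ℝ, ∀ X : ℝ, X₀ ≤ X → WnF.Appr 2 (xi T) r X ∧ PolAp 2 (xi T) r X := by
  obtain ⟨K, hK, hap⟩ := poly_ap
  obtain ⟨ε, κ, δ, hε, hκ, hδ, hk, hrd⟩ := ExLoAux.consts hΛ hr
  set L : ℝ := Real.log 2 with hLdef
  have hL : 0 < L := Real.log_pos (by norm_num)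
  set k : ℝ := Real.log K with hkdef
  have hk0 : 0 ≤ k := Real.log_nonneg hK
  have l12 : Real.log (2 + 10) ≤ Real.log 22 := Real.log_le_log (by norm_num) (by norm_num)
  have l22 : Real.log (12 + 10) ≤ Real.log 22 := Real.log_le_log (by norm_num) (by norm_num)
  have p22 : 0 < Real.log 22 := Real.log_pos (by norm_num)
  -- the constant
  obtain ⟨C, hC⟩ : ∃ C : ℝ, C = k + Real.log 22 + r * k + r * L + 2 * L + N := ⟨_, rfl⟩
  have hrk : 0 ≤ r * k := mul_nonneg hr0 hk0
  have hrL : 0 ≤ r * L := mul_nonneg hr0 hL.le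
  have hN0 : (0 : ℝ) ≤ N := Nat.cast_nonneg _
  have hC0 : 0 < C := by rw [hC]; linarith
  have hev : ∀ᶠ n in atTop, max (4 * C) (C / δ) ≤ lg (T n).u - lg (T n).z :=
    l.t4.eventually_ge_atTop _
  obtain ⟨n0, hn0⟩ := ((hev.and (l.t1 ε hε)).and (l.t2 ε hε)).exists_forall_of_atTop
  refine ⟨max 1 (Real.exp (k + (lg (T n0).u - lg (T n0).z))), fun X hX => ?_⟩
  have hX1 : 1 ≤ X := (le_max_left _ _).trans hX
  have hXe : Real.exp (k + (lg (T n0).u - lg (T n0).z)) ≤ X := (le_max_right _ _).trans hX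
  have hX0 : 0 < X := by linarith
  have hlX : k + (lg (T n0).u - lg (T n0).z) ≤ Real.log X := by
    rw [Real.le_log_iff_exp_le hX0]; exact hXe
  obtain ⟨t, ht⟩ : ∃ t : ℝ, t = Real.log X - k := ⟨_, rfl⟩
  have hlt : Real.log X = t + k := by rw [ht]; ring
  obtain ⟨n, hn, hn1, hn2⟩ := first_passage (a := fun n => lg (T n).u - lg (T n).z) l.t4 n0 t
    (by rw [ht]; linarith)
  have hn1' : lg (T n).u - lg (T n).z ≤ t := hn1
  have hn2' : t < lg (T (n + 1)).u - lg (T (n + 1)).z := hn2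
  obtain ⟨⟨g0, g1⟩, g2⟩ := hn0 n hn
  obtain ⟨⟨g0', g1'⟩, -⟩ := hn0 (n + 1) (by omega)
  have a1 : 4 * C ≤ lg (T n).u - lg (T n).z := (le_max_left _ _).trans g0
  have a2 : C ≤ δ * (lg (T n).u - lg (T n).z) := by
    have := (le_max_right _ _).trans g0
    rwa [div_le_iff₀' hδ] at this
  have hi := h.inv n
  have hi' := h.inv (n + 1)
  have hok := h.ok n
  have hnn := h.n1 n
  have lz := hi.bz.lg_pos
  have lW := hi.bW.lg_pos
  have hWu := lg_lt hi.bW hi.gW
  have det2 := ExLoAux.abs_det hi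
  have hLC : L ≤ C := by rw [hC]; linarith
  have rt : r * Real.log X = r * t + r * k := by rw [hlt]; ring
  -- names
  set q := qq (T n) with hq
  set m := (D n).n with hm
  set j := (D n).j with hj
  have eT : T (n + 1) = ⟨step (q m) (T n).W, q j, q (D n).i⟩ := h.st n
  have hX' := lg_X hi m hnn
  have aX := h.app_X n
  set X' := step (q m) (T n).W with hX'def
  have hv2 : 2 * lg (T n).u - lg (T n).z ≤ lg (q 2) := (lg_succ hi 0).1
  have hqm : lg (q 2) ≤ lg (q m) := lg_qq_mono hi hok.h2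
  have hqW : lg (T n).u - lg (T n).z ≤ lg (q m) - lg (T n).W := by linarith
  have a3 : C ≤ δ * (lg (q m) - lg (T n).W) :=
    a2.trans (mul_le_mul_of_nonneg_left hqW hδ.le)
  rw [eT] at hn2' g1'
  change t < lg X' - lg (q j) at hn2'
  change lg X' ≤ (Λ + ε) * lg (q j) at g1'
  have hv' := hi'.lv
  have av' := h.app_v (n + 1)
  rw [eT] at hv' av'
  change 2 * lg X' - lg (q j) ≤ lg (step X' (q j)) ∧ _ at hv'
  change App (xi T) (step X' (q j)) at av'
  rcases lt_or_ge t (lg X' - lg (q m)) with ht1 | ht1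
  · -- the pair (z, u)
    refine ExLoAux.fin hK hap h.le_xi h.xi_le htr (h.app_z n) (h.app_u n) hi.gz aX hr0 hX1
      2 0 (by norm_num) ?_ ?_ (by linarith) (by linarith) ?_
    · have e : det3 (T n).z (T n).u X' = - det3 (T n).z (T n).u (T n).W := by
        rw [hX'def, det_lin]
        have e2 : det3 (T n).z (T n).u (q m) = 0 := det_plane (T n) 0 m
        rw [e2]; ring
      rw [e]; push_cast; rw [abs_neg, det2]; simp
    · have h5 := lg_lt (box_qq hi m) (good_X hi m hnn)
      change lg (q m) < lg X' at h5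
      have h6 : lg (T n).u ≤ lg (q m) := lg_qq_mono hi (k := 1) hnn
      linarith
    · have h3 := ExLoAux.rec (Y := t - L) (Z' := lg X') hκ hk hrd g2 a3 hr0 (by linarith)
        hX'.1
      have h4 : r * (t - L) = r * t - r * L := by ring
      rw [rt]
      linarith
  · -- the pairs (q_i, X')
    have hjm : j ≤ m := hok.hj
    have hex : ∃ i, j < i ∧ i ≤ m ∧ lg X' - lg (q i) ≤ t ∧ t < lg X' - lg (q (i - 1)) := by
      by_contra hcon
      push Not at hcon
      have key : ∀ a, a ≤ m - j → lg X' - lg (q (m - a)) ≤ t := by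
        intro a
        induction a with
        | zero => intro _; exact ht1
        | succ a ih =>
          intro ha
          have h1 := ih (by omega)
          have h2 := hcon (m - a) (by omega) (by omega) h1
          have e : m - (a + 1) = m - a - 1 := by omega
          rw [e]; exact h2
      have := key (m - j) le_rfl
      have e : m - (m - j) = j := by omega
      rw [e] at this
      linarith
    obtain ⟨i, hji, him, hi1, hi2⟩ := hex
    obtain ⟨i', rfl⟩ : ∃ i', i = i' + 1 := ⟨i - 1, by omega⟩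
    simp only [Nat.add_sub_cancel] at hi2
    have aqi := h.app_q n (i' + 1) him
    have gqi := good_qX hi m hnn (i' + 1) him
    have m1 : lg (q (i' + 1)) ≤ lg (q m) := lg_qq_mono hi him
    have m2 : lg (q j) ≤ lg (q i') := lg_qq_mono hi (by omega)
    have m3 : lg (q i') ≤ lg (q m) := lg_qq_mono hi (by omega)
    have m4 : lg (q (j + 1)) ≤ lg (q (i' + 1)) := lg_qq_mono hi (by omega)
    have gp1 := (lg_gap hi i').2
    have gp2 := (lg_gap hi j).1
    have hi'N : (i' : ℝ) ≤ N := by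
      have : i' ≤ N := by have := hok.hN; omega
      exact_mod_cast this
    have hXm : lg (q m) - lg (T n).W ≤ lg X' - lg (q m) := by linarith [hX'.1]
    have b1 : C ≤ δ * (lg X' - lg (q i')) :=
      a3.trans (mul_le_mul_of_nonneg_left (by linarith) hδ.le)
    have b2 : lg X' ≤ (Λ + ε) * lg (q i') :=
      g1'.trans (mul_le_mul_of_nonneg_left m2 (by linarith))
    refine ExLoAux.fin hK hap h.le_xi h.xi_le htr aqi aX gqi av' hr0 hX1
      12 (lg (q (i' + 1)) - lg (q (j + 1))) (by norm_num) ?_ ?_ ?_ ?_ ?_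
    · exact LoAux.det_bd' hi m (i' + 1) j (by omega)
    · have h5 := lg_lt hi'.bu hi'.gv
      rw [eT] at h5
      change lg X' < lg (step X' (q j)) at h5
      have h6 := (box_qq hi (i' + 1)).lg_pos
      linarith
    · linarith
    · linarith
    · have h3 := ExLoAux.rec (Y := t) (Z' := lg (step X' (q j)) - (lg (q (i' + 1)) - lg (q (j + 1))) + N)
        hκ hk hrd b2 b1 hr0 hi2.le (by linarith [hv'.1])
      rw [rt]
      linarith

end Pool.Agent.D7
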