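import Pool.Agent.Lib.D7.Ex

/-!
# The exponents `hat w_2` and `hat w_2^*`: upper bounds

Adapted from `Pool.Agent.Lib.D6.ExUp`.
-/

set_option autoImplicit false

open Filter Topology

namespace Pool.Agent.D7

open Pool.Agent.D6

namespace ExUpAux7

/-- The common part of the two bounds. -/
theorem core {T : ℕ → St} {D : ℕ → Dg} {N : ℕ} {Λ : ℝ} (hΛ : 5 ≤ Λ) (h : Path T D N)
    (l : Lim T D Λ)
    (r : ℝ) (hr : (2 * Λ - 1) / (Λ - 1) < r) (X₀ C : ℝ) (hC : 0 < C) :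
    ∃ n, X₀ ≤ ((T n).v.x : ℝ) / (T n).u.x / 20 ∧ 1 ≤ ((T n).v.x : ℝ) / (T n).u.x / 20 ∧
      C * (((T n).v.x : ℝ) / (T n).u.x / 20) ^ (-r) ≤ 1 / (20 * ((T n).v.x : ℝ)) := by
  have hΛ1 : 0 < Λ - 1 := by linarith
  have e0 : (2 * Λ - 1) / (Λ - 1) = 2 + 1 / (Λ - 1) := by field_simp; ring
  rw [e0] at hr
  set s : ℝ := r - 2 with hs
  have hs0 : 1 / (Λ - 1) < s := by rw [hs]; linarith
  have hspos : 0 < s := lt_trans (by positivity) hs0
  have hs1 : 1 < (Λ - 1) * s := by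
    rw [div_lt_iff₀ hΛ1] at hs0; linarith
  obtain ⟨ε, hε0, hε1, hεs⟩ : ∃ ε : ℝ, 0 < ε ∧ ε ≤ 1 ∧ ε * s ≤ ((Λ - 1) * s - 1) / 2 := by
    refine ⟨min 1 (((Λ - 1) * s - 1) / (2 * s)), ?_, min_le_left _ _, ?_⟩
    · apply lt_min one_pos
      apply div_pos (by linarith) (by linarith)
    · calc min 1 (((Λ - 1) * s - 1) / (2 * s)) * s ≤ ((Λ - 1) * s - 1) / (2 * s) * s := by
            apply mul_le_mul_of_nonneg_right (min_le_right _ _) hspos.le
        _ = ((Λ - 1) * s - 1) / 2 := by field_simp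
  set K : ℝ := Λ - 1 - ε with hK
  have hK0 : 0 < K := by rw [hK]; linarith
  have hKs : 1 < K * s := by
    have : K * s = (Λ - 1) * s - ε * s := by rw [hK]; ring
    rw [this]; linarith
  set θ : ℝ := s - 1 / K with hθ
  have hθ0 : 0 < θ := by
    rw [hθ, sub_pos, div_lt_iff₀ hK0]; linarith
  have hev : ∀ᶠ n in atTop, max (((r + 1) * Real.log 20 + Real.log C) / θ)
      (Real.log (20 * max X₀ 1)) ≤ lg (T n).u - lg (T n).z := l.t4.eventually_ge_atTop _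
  obtain ⟨n, hn1, hn2⟩ := ((l.t3 ε hε0).and_eventually hev).exists
  have hi := h.inv n
  have hlv := hi.lv
  have g1 := (le_max_left _ _).trans hn2
  have g2 := (le_max_right _ _).trans hn2
  have hux := hi.bu.xpos
  have hvx := hi.bv.xpos
  have hlog20 : 0 < Real.log 20 := Real.log_pos (by norm_num)
  have hr1 : 1 < r := by
    have : r = s + 2 := by rw [hs]; ring
    rw [this]; linarith
  set g : ℝ := lg (T n).u - lg (T n).z with hg
  have hz : lg (T n).z ≤ g / K := by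
    rw [le_div_iff₀ hK0, hg, hK]
    linarith
  -- the size of X
  set Y : ℝ := ((T n).v.x : ℝ) / (T n).u.x / 20 with hY
  have hY0 : 0 < Y := by rw [hY]; positivity
  have hlY : Real.log Y = lg (T n).v - lg (T n).u - Real.log 20 := by
    rw [hY, Real.log_div (by positivity) (by norm_num), Real.log_div hvx.ne' hux.ne']
    rfl
  have hYg : g - Real.log 20 ≤ Real.log Y := by
    rw [hlY, hg]; linarith [hlv.1]
  have hmax : max X₀ 1 ≤ Y := by
    have hm : 0 < max X₀ 1 := lt_of_lt_of_le one_pos (le_max_right _ _)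
    have h1 : Real.log (20 * max X₀ 1) = Real.log 20 + Real.log (max X₀ 1) :=
      Real.log_mul (by norm_num) hm.ne'
    rw [h1] at g2
    have h2 : Real.log (max X₀ 1) ≤ Real.log Y := by linarith
    exact (Real.log_le_log_iff hm hY0).1 h2
  refine ⟨n, (le_max_left _ _).trans hmax, (le_max_right _ _).trans hmax, ?_⟩
  have hlhs : C * Y ^ (-r) = Real.exp (Real.log C + Real.log Y * (-r)) := by
    rw [Real.exp_add, Real.exp_log hC, Real.rpow_def_of_pos hY0]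
  have hrhs : 1 / (20 * ((T n).v.x : ℝ)) = Real.exp (-(Real.log 20 + lg (T n).v)) := by
    rw [Real.exp_neg, Real.exp_add, Real.exp_log (by norm_num : (0:ℝ) < 20), hi.bv.exp_lg, one_div]
  rw [hlhs, hrhs, Real.exp_le_exp, hlY]
  rw [div_le_iff₀ hθ0] at g1
  have hlog2 : 0 < Real.log 2 := Real.log_pos (by norm_num)
  have k1 : lg (T n).u = g + lg (T n).z := by rw [hg]; ring
  have k2 : (s - 1 / K) * g = s * g - g / K := by ring
  have k3 : r = s + 2 := by rw [hs]; ring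
  obtain ⟨d, hd⟩ : ∃ d, d = lg (T n).v - (2 * lg (T n).u - lg (T n).z) := ⟨_, rfl⟩
  have hd0 : 0 ≤ d := by rw [hd]; linarith [hlv.1]
  have k4 : lg (T n).v = lg (T n).u + g + d := by rw [hd, hg]; ring
  have k5 : lg (T n).v - lg (T n).u - Real.log 20 = g + d - Real.log 20 := by rw [k4]; ring
  rw [k5, k4, k1]
  rw [hθ] at g1
  have g1' : (r + 1) * Real.log 20 + Real.log C ≤ s * g - g / K := by rw [← k2]; linarith
  have k6 : (g + d - Real.log 20) * (-r) = - (s * g) - 2 * g - r * d + r * Real.log 20 := by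
    rw [k3]; ring
  rw [k6]
  have k7 : d ≤ r * d := by nlinarith
  nlinarith

end ExUpAux7

theorem hwn_le {T : ℕ → St} {D : ℕ → Dg} {N : ℕ} {Λ : ℝ} (hΛ : 5 ≤ Λ) (h : Path T D N)
    (l : Lim T D Λ) :
    hwn 2 (xi T) ≤ (((2 * Λ - 1) / (Λ - 1) : ℝ) : EReal) := by
  apply sSup_le
  rintro _ ⟨r, rfl, X₀, hX⟩
  rw [EReal.coe_le_coe_iff]
  by_contra hlt
  rw [not_le] at hlt
  obtain ⟨n, h1, h2, h3⟩ := ExUpAux7.core hΛ h l r hlt X₀ 1 one_pos
  obtain ⟨x, hx1, hx2, hx3⟩ := hX _ h1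
  rw [Fin.sum_univ_three] at hx2 hx3
  have e : (x 0 : ℝ) * xi T ^ ((0 : Fin 3) : ℕ) + x 1 * xi T ^ ((1 : Fin 3) : ℕ) +
      x 2 * xi T ^ ((2 : Fin 3) : ℕ) = (x 0 : ℝ) + x 1 * xi T + x 2 * xi T ^ 2 := by
    simp
  rw [e] at hx2 hx3
  refine w_lower h.le_xi h.xi_le (h.inv n) (h.app_u n) (h.app_v n) (x 0) (x 1) (x 2) ?_ (hx1 1)
    (hx1 2) ?_
  · rintro ⟨y0, y1, y2⟩
    rw [y0, y1, y2] at hx2
    simp at hx2
  · rw [one_mul] at h3
    exact hx3.trans h3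

theorem hws_le' {T : ℕ → St} {D : ℕ → Dg} {N : ℕ} {Λ : ℝ} (hΛ : 5 ≤ Λ) (h : Path T D N)
    (l : Lim T D Λ) :
    WnF.hws 2 (xi T) ≤ (((2 * Λ - 1) / (Λ - 1) : ℝ) : EReal) := by
  apply sSup_le
  rintro _ ⟨r, rfl, X₀, hX⟩
  rw [EReal.coe_le_coe_iff]
  by_contra hlt
  rw [not_le] at hlt
  obtain ⟨n, h1, h2, h3⟩ := ExUpAux7.core hΛ h l r hlt X₀ 4 (by norm_num)
  obtain ⟨P, hP, hdeg, hhp, α, hα, hα0, hαle⟩ := hX _ h1
  have hξ1 := h.xi_le
  have hξ0 := h.le_xi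
  have hr0 : 0 ≤ r := by
    have hw : 0 ≤ (2 * Λ - 1) / (Λ - 1) := div_nonneg (by linarith) (by linarith)
    linarith
  have hp1 : 1 ≤ WnF.hp P := WnF.DUpperAux.one_le_hp P hP.ne_zero
  have hXr : (((T n).v.x : ℝ) / (T n).u.x / 20) ^ (-r) ≤ 1 :=
    Real.rpow_le_one_of_one_le_of_nonpos h2 (by linarith)
  have hXr0 : 0 ≤ (((T n).v.x : ℝ) / (T n).u.x / 20) ^ (-r) := Real.rpow_nonneg (by linarith) _
  have hp0 : 0 < WnF.hp P := by linarith
  have hd1 : |xi T - α| ≤ 1 := by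
    refine hαle.trans ?_
    have : (WnF.hp P)⁻¹ ≤ 1 := inv_le_one_of_one_le₀ hp1
    calc (WnF.hp P)⁻¹ * _ ≤ 1 * 1 := mul_le_mul this hXr hXr0 zero_le_one
      _ = 1 := by norm_num
  have hs3 : |xi T + α| ≤ 3 := by
    rw [abs_le] at hd1 ⊢
    constructor <;> linarith [hd1.1, hd1.2]
  have ev : ∀ y : ℝ, Polynomial.aeval y P =
      (P.coeff 0 : ℝ) + P.coeff 1 * y + P.coeff 2 * y ^ 2 := by
    intro y
    rw [WnF.DUpperAux.ev_eq P 2 hdeg y, Finset.sum_range_succ, Finset.sum_range_succ,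
      Finset.sum_range_succ, Finset.sum_range_zero]
    ring
  have hval : |(P.coeff 0 : ℝ) + P.coeff 1 * xi T + P.coeff 2 * xi T ^ 2| ≤
      4 * (((T n).v.x : ℝ) / (T n).u.x / 20) ^ (-r) := by
    have e : (P.coeff 0 : ℝ) + P.coeff 1 * xi T + P.coeff 2 * xi T ^ 2 =
        (xi T - α) * (P.coeff 1 + P.coeff 2 * (xi T + α)) := by
      have h0 := ev α
      rw [hα] at h0
      linear_combination -h0
    rw [e, abs_mul]
    have c1 := WnF.DUpperAux.coeff_le_hp P 1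
    have c2 := WnF.DUpperAux.coeff_le_hp P 2
    have b : |(P.coeff 1 : ℝ) + P.coeff 2 * (xi T + α)| ≤ 4 * WnF.hp P := by
      refine (abs_add_le _ _).trans ?_
      rw [abs_mul]
      have : |(P.coeff 2 : ℝ)| * |xi T + α| ≤ WnF.hp P * 3 :=
        mul_le_mul c2 hs3 (abs_nonneg _) hp0.le
      linarith
    calc |xi T - α| * |(P.coeff 1 : ℝ) + P.coeff 2 * (xi T + α)|
        ≤ ((WnF.hp P)⁻¹ * (((T n).v.x : ℝ) / (T n).u.x / 20) ^ (-r)) * (4 * WnF.hp P) :=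
          mul_le_mul hαle b (abs_nonneg _) (mul_nonneg (inv_nonneg.2 hp0.le) hXr0)
      _ = 4 * (((T n).v.x : ℝ) / (T n).u.x / 20) ^ (-r) := by field_simp
  refine w_lower h.le_xi h.xi_le (h.inv n) (h.app_u n) (h.app_v n) (P.coeff 0) (P.coeff 1)
    (P.coeff 2) ?_ ((WnF.DUpperAux.coeff_le_hp P 1).trans hhp)
    ((WnF.DUpperAux.coeff_le_hp P 2).trans hhp) (hval.trans h3)
  rintro ⟨y0, y1, y2⟩
  apply hP.ne_zero
  ext i
  rw [Polynomial.coeff_zero]
  by_cases hi : i ≤ 2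
  · interval_cases i
    · exact y0
    · exact y1
    · exact y2
  · exact Polynomial.coeff_eq_zero_of_natDegree_lt (by omega)

end Pool.Agent.D7
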