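import Pool.Agent.Lib.D7.Ex

/-!
# Different continuations give different limits
-/

set_option autoImplicit false

namespace Pool.Agent.D7

open Pool.Agent.D6

theorem xi_ne {T T' : ℕ → St} {D D' : ℕ → Dg} {N : ℕ} (h : Path T D N) (h' : Path T' D' N) (m : ℕ)
    (e : T m = T' m) (hn : (D m).n < (D' m).n)
    (c1 : 5 ≤ lg (T m).u - lg (T m).z) (c2 : 5 ≤ lg (T m).u - lg (T m).W) : xi T ≠ xi T' := by
  intro hxi
  set t := T m with ht
  set n := (D m).n with hnn
  have hi : Inv t := h.inv m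
  have hn2 : 2 ≤ n := (h.ok m).h2
  have hn1 : 1 ≤ n := by omega
  have hX : App (xi T) (step (qq t n) t.W) := h.app_X m
  have hq : App (xi T) (qq t n) := h.app_q m n le_rfl
  have hy : App (xi T) (qq t (n + 1)) := by
    have := h'.app_q m (n + 1) (by omega)
    rw [← e, ← hxi] at this
    exact this
  have h1 := h.le_xi
  have h2 := h.xi_le
  have hsw := inv_sw hi n hn1
  have pq := (box_qq hi n).xpos
  have py := (box_qq hi (n + 1)).xpos
  have pX := (box_X hi n hn1).xpos
  obtain ⟨l, hl⟩ : ∃ l, n = l + 1 := ⟨n - 1, by omega⟩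
  have g1 := (lg_gap hi n).1
  have g2 := (lg_succ hi l).2
  have g3 := (lg_X hi n hn1).1
  have g4 : lg t.u ≤ lg (qq t l) := lg_qq_mono hi (k := 1) (by omega)
  have e60 : Real.log 60 ≤ 5 := by
    rw [Real.log_le_iff_le_exp (by norm_num)]
    have h1 := Real.exp_one_gt_d9
    have h2 : Real.exp 5 = Real.exp 1 ^ 5 := by
      rw [← Real.exp_nat_mul]; norm_num
    rw [h2]
    have h3 : (2.7 : ℝ) ^ 5 ≤ Real.exp 1 ^ 5 := by
      apply pow_le_pow_left₀ (by norm_num) (by linarith)
    refine le_trans ?_ h3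
    norm_num
  have e40 : Real.log 20 + Real.log 2 ≤ 5 := by
    rw [← Real.log_mul (by norm_num) (by norm_num)]
    refine le_trans (Real.log_le_log (by norm_num) ?_) e60
    norm_num
  have k1 : 60 * ((qq t n).x : ℝ) ≤ (qq t (n + 1)).x := by
    rw [← Real.log_le_log_iff (by positivity) py, Real.log_mul (by norm_num) pq.ne']
    change Real.log 60 + lg (qq t n) ≤ lg (qq t (n + 1))
    linarith
  have k2 : 20 * ((qq t (n + 1)).x : ℝ) ≤ (step (qq t n) t.W).x := by
    rw [← Real.log_le_log_iff (by positivity) pX, Real.log_mul (by norm_num) py.ne']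
    change Real.log 20 + lg (qq t (n + 1)) ≤ lg (step (qq t n) t.W)
    rw [hl] at g3 ⊢
    have g2' : lg (qq t (l + 1 + 1)) ≤ 2 * lg (qq t (l + 1)) - lg (qq t l) + Real.log 2 := g2
    linarith
  have hyx : (0 : ℤ) < (qq t (n + 1)).x := by exact_mod_cast py
  refine lam_lower (ξ := xi T) h1 h2 hsw hq hX (qq t (n + 1)).x (qq t (n + 1)).y (qq t (n + 1)).z
    (by omega) ?_ ?_ ?_
  · rw [abs_of_pos py]
    change ((qq t (n + 1)).x : ℝ) ≤ ((step (qq t n) t.W).x : ℝ) / 20
    linarith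
  · refine hy.a_abs.trans ?_
    change 2 / ((qq t (n + 1)).x : ℝ) ≤ 1 / (20 * ((qq t n).x : ℝ))
    rw [div_le_div_iff₀ py (by positivity)]
    linarith
  · refine (hy.b_abs h1 h2).trans ?_
    change 3 / ((qq t (n + 1)).x : ℝ) ≤ 1 / (20 * ((qq t n).x : ℝ))
    rw [div_le_div_iff₀ py (by positivity)]
    linarith

end Pool.Agent.D7
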