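import Pool.Agent.Lib.D7.Limit
import Pool.Agent.Lib.D7.Inj
import Pool.Agent.Lib.D7.ExUp
import Pool.Agent.Lib.D7.ExLo
import Pool.Agent.Lib.D6.Fin

/-!
# Assembly
-/

set_option autoImplicit false

open Filter Topology

namespace Pool.Agent.D7

open Pool.Agent.D6

/-- The effect of the digit `(2, 0, 1)`. -/
theorem st201 {t : St} (h : Inv t) : gH (nx (dC 2) t) = gG t ∧ gZ (nx (dC 2) t) = gZ t ∧
    4 * gG t - gH t ≤ gG (nx (dC 2) t) := by
  refine ⟨rfl, rfl, ?_⟩
  have h1 := (lg_X h 2 (by norm_num)).1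
  have h2 := (lg_size h 2).1
  have e : gG (nx (dC 2) t) = lg (step (qq t 2) t.W) - lg t.z := rfl
  rw [e]
  unfold gG gH
  push_cast at h2
  linarith

/-- The initial digits. -/
def ini (M : ℕ) : List Dg := List.replicate M (dC 2)

theorem ini_run (M : ℕ) : Inv (run (ini M) s0) ∧ 0 ≤ gH (run (ini M) s0) ∧
    gH (run (ini M) s0) ≤ gG (run (ini M) s0) ∧ 3 ^ M ≤ gG (run (ini M) s0) ∧
    gZ (run (ini M) s0) = gZ s0 ∧
    (1 ≤ M → 3 * gH (run (ini M) s0) ≤ gG (run (ini M) s0)) := by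
  induction M with
  | zero =>
    have h1 := g_s0
    have h2 := zW_s0
    have h3 : lg s0.W ≤ lg s0.u := by
      unfold lg
      apply Real.log_le_log
      · norm_num [s0]
      · norm_num [s0]
    refine ⟨inv_s0, ?_, ?_, ?_, rfl, fun h => absurd h (by norm_num)⟩
    · simp only [ini, List.replicate, run, gH]; linarith
    · simp only [ini, List.replicate, run, gH, gG]; linarith
    · simp only [ini, List.replicate, run, gG, pow_zero]; linarith
  | succ M ih =>
    obtain ⟨i1, i2, i3, i4, i5, _⟩ := ih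
    have e : run (ini (M + 1)) s0 = nx (dC 2) (run (ini M) s0) := by
      rw [ini, List.replicate_succ', run_append]
      rfl
    rw [e]
    obtain ⟨e1, e2, e3⟩ := st201 i1
    refine ⟨inv_nx i1 (dC_ok le_rfl), ?_, ?_, ?_, ?_, fun _ => ?_⟩
    · rw [e1]; linarith
    · rw [e1]; linarith
    · rw [pow_succ]; linarith
    · rw [e2, i5]
    · rw [e1]; linarith

theorem exists_start (Γ : ℝ) : ∃ s : St, US Γ 0 s := by
  obtain ⟨M, hM⟩ := pow_unbounded_of_one_lt (max Γ 1) (by norm_num : (1 : ℝ) < 3)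
  obtain ⟨i1, i2, i3, i4, i5, i6⟩ := ini_run (M + 1)
  have h3 : (3 : ℝ) ^ (M + 1) = 3 ^ M * 3 := pow_succ _ _
  have hmax1 := le_max_left Γ 1
  have hmax2 := le_max_right Γ 1
  refine ⟨run (ini (M + 1)) s0, i1, i2, ?_, ?_, ?_⟩
  · linarith [i6 (by omega)]
  · rw [i5]
    have e : gZ s0 = Real.log 2 := by norm_num [gZ, lg, s0]
    rw [e]
    linarith [log2_le]
  · rw [pow_zero]
    linarith

theorem w5_ok : ∀ d ∈ w5, d.Ok 4 := by
  intro d hd
  have : d = dA := by
    simp only [w5, List.mem_cons, List.not_mem_nil, or_false, or_self] at hd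
    exact hd
  rw [this]
  exact ⟨by decide, by decide, by decide, by decide, by decide⟩

theorem wu_ok (c : Bool) : ∀ d ∈ wu c, d.Ok 4 := by
  intro d hd
  rw [wu, List.mem_append] at hd
  rcases hd with hd | hd
  · exact w5_ok d hd
  · have hA : dA.Ok 4 := ⟨by decide, by decide, by decide, by decide, by decide⟩
    cases c
    · simp only [Bool.false_eq_true, if_false, List.mem_cons, List.not_mem_nil, or_false] at hd
      rw [hd]; exact dB_ok
    · simp only [if_true, List.mem_cons, List.not_mem_nil, or_false] at hd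
      rcases hd with hd | hd
      · rw [hd]; exact hA
      · rw [hd]; exact dB_ok

theorem Dg.Ok.mono {d : Dg} {N N' : ℕ} (h : d.Ok N) (hN : N ≤ N') : d.Ok N' :=
  ⟨h.h2, h.hN.trans hN, h.hj, h.hi, h.hs⟩

theorem bl_ok {w : ℕ → List Dg} {N : ℕ} (h : ∀ b, ∀ d ∈ w b, d.Ok N) (b : ℕ) :
    ∀ d ∈ bl w b, d.Ok N := by
  induction b with
  | zero => intro d hd; simp [bl] at hd
  | succ b ih =>
    intro d hd
    rw [bl, List.mem_append] at hd
    rcases hd with hd | hd
    · exact h b d hd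
    · exact ih d hd

theorem fam {P : Pm} {T : Tr} (hP : Rng P T) {Λ : ℝ} (hΛ : 6 ≤ Λ)
    (hσs : 1 / (Λ - 1) ≤ (P.sn : ℝ) / P.sd) (hst : ∃ m : ℕ, 2 ≤ m ∧ 2 * m * (1 / (Λ - 1)) ≤ 1 ∧
      InK P (1 / (Λ - 1)) (2 * m * (1 / (Λ - 1)))) :
    ∃ (X : (ℕ → Bool) → ℕ → St) (D : (ℕ → Bool) → ℕ → Dg) (N : ℕ),
      (∀ ω, Path (X ω) (D ω) N ∧ Lim (X ω) (D ω) Λ) ∧
      Function.Injective fun ω => xi (X ω) := by
  obtain ⟨m, hm, hmσ, hin⟩ := hst
  obtain ⟨σ, hσ⟩ : ∃ σ : ℝ, σ = 1 / (Λ - 1) := ⟨_, rfl⟩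
  rw [← hσ] at hσs hmσ hin
  have hσ0 : 0 < σ := by
    rw [hσ]
    have : 0 < Λ - 1 := by linarith
    positivity
  have hσ5 : σ ≤ 1 / 5 := by
    rw [hσ]
    exact one_div_le_one_div_of_le (by norm_num) (by linarith)
  obtain ⟨C, hC0, hC⟩ := exists_C hP.toCrt hσ0.le hσs
  obtain ⟨w, f, hf0, hf, hw, hs⟩ := back hP.ck hin
  obtain ⟨K, hK⟩ : ∃ K, K = C + 2 * Er m := ⟨_, rfl⟩
  have hE := (Er_pos m).le
  have hK0 : 0 ≤ K := by linarith
  have hγ : (0 : ℝ) < P.γ := by exact_mod_cast hP.γ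
  have hhi : (0 : ℝ) ≤ P.hi := by
    have h1 := hP.lo
    have h2 := hP.lh
    exact_mod_cast (by omega : 0 ≤ P.hi)
  obtain ⟨Γ, hΓ⟩ : ∃ Γ : ℝ, Γ = 100000 + (P.γ * (P.γ + P.hi) : ℝ) * C + 100 * K / σ := ⟨_, rfl⟩
  have q1 : 0 ≤ (P.γ * (P.γ + P.hi) : ℝ) * C := by positivity
  have q2 : 0 ≤ 100 * K / σ := by positivity
  have g1 : 100000 ≤ Γ := by linarith
  have g2 : (P.γ * (P.γ + P.hi) : ℝ) * C ≤ Γ := by linarith
  have g3 : 100 * K ≤ σ * Γ := by
    have : σ * (100 * K / σ) = 100 * K := by field_simp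
    have h2 : σ * (100 * K / σ) ≤ σ * Γ := mul_le_mul_of_nonneg_left (by linarith) hσ0.le
    linarith
  obtain ⟨s, hs0⟩ := exists_start Γ
  have ur := fun (b : ℕ) (c : Bool) (t : St) (ht : US Γ b t) =>
    unit_run hP hσ0 hσ5 hC0 hC hf hw hs hm hmσ hf0 hK.ge g1 g2 g3 b c ht
  let U : (ℕ → Bool) → ℕ → List Dg := fun ω b => un m w (ω b) b
  have hU : ∀ ω b, U ω b ≠ [] := by
    intro ω b h
    have : (U ω b).length = 0 := by rw [h]; rfl
    simp only [U, un, wu, w5, List.length_append, List.length_cons, List.length_nil] at this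
    omega
  have hwok : ∀ b, ∀ d ∈ w b, d.Ok P.N := by
    intro b d hd
    have := (hw b).ok
    simp only [okw, Bool.and_eq_true, List.all_eq_true] at this
    exact okd_sound (this.1.1.1.1 d hd)
  obtain ⟨N, hN⟩ : ∃ N, N = max 4 (max P.N m) := ⟨_, rfl⟩
  have hUN : ∀ ω b, ∀ d ∈ U ω b, d.Ok N := by
    intro ω b d hd
    simp only [U, un, List.mem_append] at hd
    rcases hd with hd | hd | hd
    · exact (wu_ok _ d hd).mono (by rw [hN]; exact le_max_left _ _)
    · exact (bl_ok hwok b d hd).mono (by rw [hN]; exact (le_max_left _ _).trans (le_max_right _ _))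
    · rw [List.mem_singleton] at hd
      rw [hd]
      exact (dC_ok hm).mono (by rw [hN]; exact (le_max_right _ _).trans (le_max_right _ _))
  have hus : ∀ ω b, US Γ b (run (fl (U ω) b) s) := by
    intro ω b
    induction b with
    | zero => exact hs0
    | succ b ih =>
      rw [fl, run_append]
      exact (ur b (ω b) _ ih).1
  have hsp : ∀ ω, ∀ b : ℕ, 1 ≤ b → SP σ K b (run (fl (U ω) b) s) := by
    intro ω b hb
    obtain ⟨c, rfl⟩ : ∃ c, b = c + 1 := ⟨b - 1, by omega⟩
    rw [fl, run_append]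
    exact (ur c (ω c) _ (hus ω c)).2.1
  have hwd : ∀ ω, ∀ b : ℕ, 1 ≤ b →
      Wd σ (-(K * (b + 1))) (2 ^ b) (U ω b) (run (fl (U ω) b) s) :=
    fun ω b hb => (ur b (ω b) _ (hus ω b)).2.2 (hsp ω b hb)
  have hG : ∀ ω, ∀ b : ℕ, 1 ≤ b → (2 : ℝ) ^ b ≤ gG (run (fl (U ω) b) s) := by
    intro ω b _
    refine le_trans ?_ (hus ω b).g
    exact le_mul_of_one_le_left (by positivity) (by linarith)
  have hpath : ∀ ω, Path (ts (U ω) s) (dg (U ω)) N := fun ω => path_ts (hU ω) (hUN ω) hs0.inv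
  refine ⟨fun ω => ts (U ω) s, fun ω => dg (U ω), N, fun ω => ⟨hpath ω,
    lim_of_units (hU ω) (hUN ω) hs0.inv (by linarith) hσ hK0 (hwd ω) (hsp ω) (hG ω)⟩, ?_⟩
  -- injectivity
  have key : ∀ ω ω' : ℕ → Bool, ∀ k, (∀ i, i < k → ω i = ω' i) → ω k = false → ω' k = true →
      xi (ts (U ω') s) ≠ xi (ts (U ω) s) := by
    intro ω ω' k hk h1 h2
    have efl : ∀ j, j ≤ k → fl (U ω) j = fl (U ω') j := by
      intro j hj
      induction j with
      | zero => rfl
      | succ j ih =>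
        rw [fl, fl, ih (by omega)]
        simp only [U]
        rw [hk j (by omega)]
    have ek := efl k le_rfl
    obtain ⟨τ, hτ⟩ : ∃ τ, τ = (fl (U ω) k).length + 5 := ⟨_, rfl⟩
    have lenω : ∀ ω'' : ℕ → Bool, 5 < (U ω'' k).length := by
      intro ω''
      simp only [U, un, wu, w5, List.length_append, List.length_cons, List.length_nil]
      rcases ω'' k with _ | _
      · simp only [Bool.false_eq_true, if_false, List.length_cons, List.length_nil]
        omega
      · simp only [if_true, List.length_cons, List.length_nil]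
        omega
    have a1 : ts (U ω) s τ = run w5 (run (fl (U ω) k) s) ∧ dg (U ω) τ = dB := by
      have hlt : τ < (fl (U ω) (k + 1)).length := by
        rw [hτ, fl, List.length_append]
        have := lenω ω
        omega
      obtain ⟨i, hi, b1, b2, b3⟩ := pos_unit (hU ω) s (by omega : (fl (U ω) k).length ≤ τ) hlt
      have hi5 : i = 5 := by omega
      subst hi5
      rw [b1, b2]
      simp only [U, un, wu, w5, h1]
      exact ⟨rfl, rfl⟩
    have a2 : ts (U ω') s τ = run w5 (run (fl (U ω') k) s) ∧ dg (U ω') τ = dA := by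
      have hlt : τ < (fl (U ω') (k + 1)).length := by
        rw [hτ, fl, List.length_append, ek]
        have := lenω ω'
        omega
      obtain ⟨i, hi, b1, b2, b3⟩ := pos_unit (hU ω') s (by rw [← ek]; omega :
        (fl (U ω') k).length ≤ τ) hlt
      have hi5 : i = 5 := by rw [← ek] at b3; omega
      subst hi5
      rw [b1, b2]
      simp only [U, un, wu, w5, h2]
      exact ⟨rfl, rfl⟩
    have u := hus ω' k
    have hΓk : 100000 ≤ gG (run (fl (U ω') k) s) := by
      refine g1.trans (le_trans ?_ u.g)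
      exact le_mul_of_one_le_right (by linarith) (one_le_pow₀ (by norm_num))
    have fk := fork u.inv u.h0 u.h1 u.z hΓk
    refine xi_ne (hpath ω') (hpath ω) τ ?_ ?_ ?_ ?_
    · rw [a1.1, a2.1, ek]
    · rw [a1.2, a2.2]; decide
    · rw [a2.1]
      exact fk.1
    · rw [a2.1]
      have e : ∀ t : St, lg t.u - lg t.W = gG t - gH t := by
        intro t; unfold gG gH; ring
      rw [e]
      exact fk.2
  intro ω ω' he
  by_contra hne
  have hex : ∃ i, ω i ≠ ω' i := by
    by_contra h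
    push Not at h
    exact hne (funext h)
  classical
  have h1 := Nat.find_spec hex
  have h2 : ∀ k, k < Nat.find hex → ω k = ω' k := fun k hk => by
    have := Nat.find_min hex hk
    push Not at this
    exact this
  generalize Nat.find hex = i at h1 h2
  rcases hb : ω i with _ | _
  · have hb' : ω' i = true := by
      rw [hb] at h1
      rcases h3 : ω' i with _ | _
      · rw [h3] at h1; exact absurd rfl h1
      · rfl
    exact key ω ω' i h2 hb hb' he.symm
  · have hb' : ω' i = false := by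
      rw [hb] at h1
      rcases h3 : ω' i with _ | _
      · rfl
      · rw [h3] at h1; exact absurd rfl h1
    exact key ω' ω i (fun k hk => (h2 k hk).symm) hb' hb he

theorem main_of {P : Pm} {T : Tr} (hP : Rng P T) {Λ : ℝ} (hΛ : 6 ≤ Λ)
    (hσs : 1 / (Λ - 1) ≤ (P.sn : ℝ) / P.sd) (hst : ∃ m : ℕ, 2 ≤ m ∧ 2 * m * (1 / (Λ - 1)) ≤ 1 ∧
      InK P (1 / (Λ - 1)) (2 * m * (1 / (Λ - 1)))) : ∃ ξ : ℝ, Transcendental ℚ ξ ∧
    hlam 2 ξ = ((Λ / (2 * Λ - 1) : ℝ) : EReal) ∧
    hwn 2 ξ = (((2 * Λ - 1) / (Λ - 1) : ℝ) : EReal) ∧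
    WnF.hws 2 ξ = (((2 * Λ - 1) / (Λ - 1) : ℝ) : EReal) := by
  obtain ⟨X, D, N, hX, hinj⟩ := fam hP hΛ hσs hst
  obtain ⟨ω, hω⟩ : ∃ ω, Transcendental ℚ (xi (X ω)) := by
    by_contra hcon
    push Not at hcon
    have hc : {x : ℝ | IsAlgebraic ℚ x}.Countable := Algebraic.countable ℚ ℝ
    have h1 : (Set.range fun ω : ℕ → Bool => xi (X ω)).Countable := by
      refine hc.mono ?_
      rintro _ ⟨ω, rfl⟩
      have := hcon ω
      unfold Transcendental at this
      push Not at this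
      exact this
    have h2 : (Set.univ : Set (ℕ → Bool)).Countable := by
      have h3 := Set.countable_of_injective_of_countable_image (s := Set.univ)
        (f := fun ω : ℕ → Bool => xi (X ω)) hinj.injOn
      rw [Set.image_univ] at h3
      exact h3 h1
    have h4 : Uncountable (ℕ → Bool) := by
      rw [← Cardinal.aleph0_lt_mk_iff]
      simp [Cardinal.aleph0_lt_continuum]
    exact Set.not_countable_univ h2
  obtain ⟨hp, l⟩ := hX ω
  refine ⟨_, hω, hlam_eq (by linarith) hp l, ?_, ?_⟩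
  · apply le_antisymm (hwn_le (by linarith) hp l)
    by_contra hcon
    rw [not_le] at hcon
    obtain ⟨v, hv1, hv2⟩ := EReal.lt_iff_exists_real_btwn.1 hcon
    rw [EReal.coe_lt_coe_iff] at hv2
    have hpos : 0 < (2 * Λ - 1) / (Λ - 1) := by
      apply div_pos <;> linarith
    have hm : max v 0 < (2 * Λ - 1) / (Λ - 1) := max_lt hv2 hpos
    obtain ⟨X₀, hX⟩ := ex_lo (by linarith) hp l hω (max v 0) (le_max_right _ _) hm
    have hmem : ((max v 0 : ℝ) : EReal) ≤ hwn 2 (xi (X ω)) :=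
      le_sSup ⟨max v 0, rfl, X₀, fun X h => (hX X h).2⟩
    have h5 : (v : EReal) ≤ ((max v 0 : ℝ) : EReal) := EReal.coe_le_coe_iff.2 (le_max_left _ _)
    exact absurd (h5.trans hmem) (not_le.2 hv1)
  · apply le_antisymm (hws_le' (by linarith) hp l)
    by_contra hcon
    rw [not_le] at hcon
    obtain ⟨v, hv1, hv2⟩ := EReal.lt_iff_exists_real_btwn.1 hcon
    rw [EReal.coe_lt_coe_iff] at hv2
    have hpos : 0 < (2 * Λ - 1) / (Λ - 1) := by
      apply div_pos <;> linarith
    have hm : max v 0 < (2 * Λ - 1) / (Λ - 1) := max_lt hv2 hpos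
    obtain ⟨X₀, hX⟩ := ex_lo (by linarith) hp l hω (max v 0) (le_max_right _ _) hm
    have hmem : ((max v 0 : ℝ) : EReal) ≤ WnF.hws 2 (xi (X ω)) :=
      le_sSup ⟨max v 0, rfl, X₀, fun X h => (hX X h).1⟩
    have h5 : (v : EReal) ≤ ((max v 0 : ℝ) : EReal) := EReal.coe_le_coe_iff.2 (le_max_left _ _)
    exact absurd (h5.trans hmem) (not_le.2 hv1)

end Pool.Agent.D7
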