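import Pool.Agent.Lib.D7.Cert

/-!
# Blocks of words
-/

set_option autoImplicit false

namespace Pool.Agent.D7

open Pool.Agent.D6

/-- The static hypotheses on a certificate. -/
structure Crt (P : Pm) (T : Tr) : Prop where
  ck : chk P P.B T = true
  sd : 0 < P.sd
  γ : 0 < P.γ
  lo : 0 ≤ P.lo
  lh : P.lo < P.hi
  bd : ∀ κ θ : ℝ, InK P κ θ → 0 ≤ κ ∧ κ ≤ 1 ∧ 0 ≤ θ ∧ θ ≤ 1

/-- One backward step. -/
structure Bk (P : Pm) (T : Tr) (l : List Dg) (κ θ : ℝ) : Prop where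
  m : l ∈ T.words
  ok : okw P l = true
  f : ∀ f ∈ fs P.sn P.sd l P.r P.r', 0 ≤ Fm.ev f κ θ

theorem back {P : Pm} {T : Tr} (hc : chk P P.B T = true) {κ θ : ℝ} (h0 : InK P κ θ) :
    ∃ (w : ℕ → List Dg) (f : ℕ → ℝ × ℝ), f 0 = (κ, θ) ∧ (∀ k, InK P (f k).1 (f k).2) ∧
      (∀ k, Bk P T (w k) (f k).1 (f k).2) ∧
      ∀ k, f (k + 1) = (pk (w k) (f k).1 (f k).2, pt (w k) (f k).1 (f k).2) := by
  classical
  have key : ∀ x : {x : ℝ × ℝ // InK P x.1 x.2}, ∃ l : List Dg, Bk P T l x.1.1 x.1.2 ∧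
      InK P (pk l x.1.1 x.1.2) (pt l x.1.1 x.1.2) := by
    intro x
    obtain ⟨l, h1, h2, h3, h4⟩ := chk_sound P T P.B hc x.1.1 x.1.2 x.2.1 x.2
    exact ⟨l, ⟨h1, h2, h3⟩, h4⟩
  choose W hW hW' using key
  let g : ℕ → {x : ℝ × ℝ // InK P x.1 x.2} := fun k =>
    Nat.rec ⟨(κ, θ), h0⟩ (fun _ x => ⟨(pk (W x) x.1.1 x.1.2, pt (W x) x.1.1 x.1.2), hW' x⟩) k
  exact ⟨fun k => W (g k), fun k => (g k).1, rfl, fun k => (g k).2, fun k => hW (g k), fun k => rfl⟩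

/-- The cone. -/
def InR (P : Pm) (t : St) : Prop :=
  (P.lo : ℝ) * gG t ≤ P.γ * gH t ∧ (P.γ : ℝ) * gH t ≤ P.hi * gG t

/-- The effect of a word. -/
theorem word_step {P : Pm} {T : Tr} (hP : Crt P T) {σ C : ℝ} {l : List Dg}
    (hC : RW σ P.sn P.sd P.γ P.N l 1 0 C) {κ θ : ℝ} (hκ : |κ| ≤ 1) (hθ : |θ| ≤ 1)
    (hb : Bk P T l κ θ) {t : St} (ht : Inv t) (hr : InR P t)
    (hG : (P.γ * (P.γ + P.hi) : ℝ) * C ≤ gG t) :
    Wd σ (Fn (pk l κ θ) (pt l κ θ) t - C) (gG t - C) l t ∧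
    |Fn κ θ (run l t) - Fn (pk l κ θ) (pt l κ θ) t| ≤ C ∧ InR P (run l t) ∧
    2 * gG t ≤ gG (run l t) := by
  obtain ⟨c1, c2, c3⟩ := hb
  have hγ : (0 : ℝ) < P.γ := by exact_mod_cast hP.γ
  have hγ1 : (1 : ℝ) ≤ P.γ := by exact_mod_cast hP.γ
  have hlo : (0 : ℝ) ≤ P.lo := by exact_mod_cast hP.lo
  have hlh : (P.lo : ℝ) < P.hi := by exact_mod_cast hP.lh
  have hd : (0 : ℝ) < P.γ * (P.hi - P.lo) := mul_pos hγ (by linarith)
  simp only [okw, okr, Bool.and_eq_true, decide_eq_true_eq] at c2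
  obtain ⟨⟨⟨⟨c4, c5⟩, c6⟩, ⟨c7, c8⟩, c9⟩, ⟨c10, c11⟩, c12⟩ := c2
  obtain ⟨α, hα⟩ : ∃ α : ℝ, α = (P.hi * gG t - P.γ * gH t) / (P.γ * (P.hi - P.lo)) := ⟨_, rfl⟩
  obtain ⟨β, hβ⟩ : ∃ β : ℝ, β = (P.γ * gH t - P.lo * gG t) / (P.γ * (P.hi - P.lo)) := ⟨_, rfl⟩
  have hα0 : 0 ≤ α := by rw [hα]; exact div_nonneg (by linarith [hr.2]) hd.le
  have hβ0 : 0 ≤ β := by rw [hβ]; exact div_nonneg (by linarith [hr.1]) hd.le
  have eG : α * P.γ + β * P.γ = gG t := by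
    have : P.hi - P.lo ≠ (0 : ℝ) := by linarith
    rw [hα, hβ]; field_simp; ring
  have eH : α * P.lo + β * P.hi = gH t := by
    have : P.hi - P.lo ≠ (0 : ℝ) := by linarith
    rw [hα, hβ]; field_simp; ring
  obtain ⟨w1, w2, w3, w4⟩ := hC.w κ θ hκ hθ t ht α β hα0 hβ0 P.r P.r'
    (by simp only [Pm.r, Pm.r']; rw [eG]; simp) (by simp only [Pm.r, Pm.r']; rw [eH]; simp) c3 c5 c6
  have hC0 := hC.c
  rw [abs_le] at w3 w4
  have d7 : (P.lo : ℝ) * (mrs l P.r).1 + 1 ≤ P.γ * (mrs l P.r).2 := by exact_mod_cast c7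
  have d8 : (P.γ : ℝ) * (mrs l P.r).2 + 1 ≤ P.hi * (mrs l P.r).1 := by exact_mod_cast c8
  have d9 : 2 * (P.γ : ℝ) + 1 ≤ (mrs l P.r).1 := by exact_mod_cast c9
  have d10 : (P.lo : ℝ) * (mrs l P.r').1 + 1 ≤ P.γ * (mrs l P.r').2 := by exact_mod_cast c10
  have d11 : (P.γ : ℝ) * (mrs l P.r').2 + 1 ≤ P.hi * (mrs l P.r').1 := by exact_mod_cast c11
  have d12 : 2 * (P.γ : ℝ) + 1 ≤ (mrs l P.r').1 := by exact_mod_cast c12
  have s0 : (P.γ + P.hi) * C ≤ α + β := by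
    have e : (P.γ : ℝ) * ((P.γ + P.hi) * C) ≤ P.γ * (α + β) := by
      have : (P.γ : ℝ) * (α + β) = gG t := by rw [← eG]; ring
      rw [this]; linarith
    exact le_of_mul_le_mul_left e hγ
  have s1 : P.γ * C ≥ C := by nlinarith
  have s2 : 0 ≤ P.lo * C := mul_nonneg hlo hC0
  have s3 : P.lo * C ≤ P.hi * C := mul_le_mul_of_nonneg_right hlh.le hC0
  have a7 := mul_le_mul_of_nonneg_left d7 hα0
  have a8 := mul_le_mul_of_nonneg_left d8 hα0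
  have a9 := mul_le_mul_of_nonneg_left d9 hα0
  have b10 := mul_le_mul_of_nonneg_left d10 hβ0
  have b11 := mul_le_mul_of_nonneg_left d11 hβ0
  have b12 := mul_le_mul_of_nonneg_left d12 hβ0
  have g1 := mul_le_mul_of_nonneg_left w3.1 hlo
  have g2 := mul_le_mul_of_nonneg_left w3.2 hlo
  have g3 := mul_le_mul_of_nonneg_left w3.1 (hlo.trans hlh.le)
  have g4 := mul_le_mul_of_nonneg_left w4.1 hγ.le
  have g5 := mul_le_mul_of_nonneg_left w4.2 hγ.le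
  refine ⟨?_, w2, ⟨?_, ?_⟩, ?_⟩
  · refine Wd_mono le_rfl ?_ _ _ w1
    have : (P.γ : ℝ) * (α + β) = gG t := by rw [← eG]; ring
    rw [this]
  · nlinarith
  · nlinarith
  · nlinarith

/-- A block. -/
def bl (w : ℕ → List Dg) : ℕ → List Dg
  | 0 => []
  | b + 1 => w b ++ bl w b

theorem blk_run {P : Pm} {T : Tr} (hP : Crt P T) {σ C : ℝ} (hC0 : 0 ≤ C)
    (hC : ∀ l ∈ T.words, (∀ d ∈ l, d.Ok P.N) → RW σ P.sn P.sd P.γ P.N l 1 0 C)
    {w : ℕ → List Dg} {f : ℕ → ℝ × ℝ}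
    (hf : ∀ k, InK P (f k).1 (f k).2) (hw : ∀ k, Bk P T (w k) (f k).1 (f k).2)
    (hs : ∀ k, f (k + 1) = (pk (w k) (f k).1 (f k).2, pt (w k) (f k).1 (f k).2)) (b : ℕ) :
    ∀ t : St, Inv t → InR P t → (P.γ * (P.γ + P.hi) : ℝ) * C ≤ gG t → 0 ≤ gG t →
    Wd σ (Fn (f b).1 (f b).2 t - C * b) (gG t - C) (bl w b) t ∧
    |Fn (f 0).1 (f 0).2 (run (bl w b) t) - Fn (f b).1 (f b).2 t| ≤ C * b ∧
    InR P (run (bl w b) t) ∧ 2 ^ b * gG t ≤ gG (run (bl w b) t) ∧ Inv (run (bl w b) t) := by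
  induction b with
  | zero =>
    intro t ht hr _ _
    simp only [bl, run, Wd, pow_zero, one_mul, Nat.cast_zero, mul_zero, sub_self, abs_zero, le_refl,
      true_and]
    exact ⟨hr, ht⟩
  | succ b ih =>
    intro t ht hr hG hG0
    have hd : ∀ d ∈ w b, d.Ok P.N := by
      intro d hd
      have := (hw b).ok
      simp only [okw, Bool.and_eq_true, List.all_eq_true] at this
      exact okd_sound (this.1.1.1.1 d hd)
    obtain ⟨k1, k2, k3, k4⟩ := hP.bd _ _ (hf b)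
    obtain ⟨w1, w2, w3, w4⟩ := word_step hP (hC _ (hw b).m hd) (κ := (f b).1) (θ := (f b).2)
      (by rw [abs_of_nonneg k1]; exact k2) (by rw [abs_of_nonneg k3]; exact k4) (hw b) ht hr hG
    have ht' := inv_run (w b) hd ht
    have e1 : (f (b + 1)).1 = pk (w b) (f b).1 (f b).2 := by rw [hs b]
    have e2 : (f (b + 1)).2 = pt (w b) (f b).1 (f b).2 := by rw [hs b]
    rw [← e1, ← e2] at w1 w2
    obtain ⟨v1, v2, v3, v4, v5⟩ := ih (run (w b) t) ht' w3 (by linarith) (by linarith)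
    rw [bl, Wd_append, run_append]
    rw [abs_le] at w2 v2
    have hb0 : (0 : ℝ) ≤ C * b := by positivity
    have hcast : C * ((b + 1 : ℕ) : ℝ) = C * b + C := by push_cast; ring
    rw [hcast]
    refine ⟨⟨Wd_mono (by linarith) le_rfl _ _ w1, Wd_mono (by linarith) (by linarith) _ _ v1⟩, ?_, v3,
      ?_, v5⟩
    · rw [abs_le]
      constructor <;> linarith [w2.1, w2.2, v2.1, v2.2]
    · have h2 : (0 : ℝ) < 2 ^ b := by positivity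
      have := mul_le_mul_of_nonneg_left w4 h2.le
      calc (2 : ℝ) ^ (b + 1) * gG t = 2 ^ b * (2 * gG t) := by rw [pow_succ]; ring
        _ ≤ 2 ^ b * gG (run (w b) t) := this
        _ ≤ _ := v4

/-- A common constant for the words of a tree. -/
theorem exists_C {P : Pm} {T : Tr} (hP : Crt P T) {σ : ℝ} (hσ : 0 ≤ σ)
    (hσs : σ ≤ (P.sn : ℝ) / P.sd) :
    ∃ C : ℝ, 0 ≤ C ∧ ∀ l ∈ T.words, (∀ d ∈ l, d.Ok P.N) → RW σ P.sn P.sd P.γ P.N l 1 0 C := by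
  classical
  obtain ⟨C, h1, h2⟩ := run_words (γ := P.γ) (N := P.N) (K0 := 1) (c0 := 0) hσ hσs hP.sd hP.γ.le
    zero_le_one (T.words.filter fun l => decide (∀ d ∈ l, d.Ok P.N)) (by
      intro l hl
      simpa using (List.mem_filter.1 hl).2) le_rfl
  refine ⟨C, h1, fun l hl hd => h2 l ?_⟩
  rw [List.mem_filter]
  exact ⟨hl, by simpa using hd⟩

end Pool.Agent.D7
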