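import Pool.Agent.Lib.D7.Cert

/-!
# The data of a certificate
-/

set_option autoImplicit false

namespace Pool.Agent.D7.C7

def d201 : Dg := ⟨2, 0, 1⟩
def d210 : Dg := ⟨2, 1, 0⟩
def d212 : Dg := ⟨2, 1, 2⟩
def d221 : Dg := ⟨2, 2, 1⟩
def d301 : Dg := ⟨3, 0, 1⟩
def d312 : Dg := ⟨3, 1, 2⟩
def d321 : Dg := ⟨3, 2, 1⟩
def d323 : Dg := ⟨3, 2, 3⟩
def d332 : Dg := ⟨3, 3, 2⟩
def d401 : Dg := ⟨4, 0, 1⟩
def d412 : Dg := ⟨4, 1, 2⟩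
def d421 : Dg := ⟨4, 2, 1⟩
def d423 : Dg := ⟨4, 2, 3⟩
def d432 : Dg := ⟨4, 3, 2⟩
def d434 : Dg := ⟨4, 3, 4⟩
def d443 : Dg := ⟨4, 4, 3⟩
def d512 : Dg := ⟨5, 1, 2⟩
def d523 : Dg := ⟨5, 2, 3⟩
def d532 : Dg := ⟨5, 3, 2⟩
def d534 : Dg := ⟨5, 3, 4⟩
def d543 : Dg := ⟨5, 4, 3⟩
def d545 : Dg := ⟨5, 4, 5⟩
def d554 : Dg := ⟨5, 5, 4⟩
def d623 : Dg := ⟨6, 2, 3⟩
def d634 : Dg := ⟨6, 3, 4⟩
def d643 : Dg := ⟨6, 4, 3⟩
def d645 : Dg := ⟨6, 4, 5⟩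
def d654 : Dg := ⟨6, 5, 4⟩
def d656 : Dg := ⟨6, 5, 6⟩

/-- The forms of the base region. -/
def B : List Fm := [⟨1, 0, 0⟩, ⟨-1, 0, 1⟩, ⟨-75, 1000, -115⟩, ⟨170, -1000, 800⟩]

/-- The zones. -/
def Z : List (List Fm) := [
  [⟨216939, -1025889, 258903⟩, ⟨1025890, 216939, -435278⟩, ⟨-216939, 1025889, -246446⟩, ⟨-1025890, -216939, 664243⟩],
  [⟨214331, -1026438, 272864⟩, ⟨1026437, 214331, -319024⟩, ⟨-214331, 1026438, -262987⟩, ⟨-1026438, -214330, 545558⟩],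
  [⟨-211575, 1027009, -390179⟩, ⟨-1027009, -211574, 99763⟩, ⟨211575, -1027009, 395751⟩, ⟨1027009, 211574, -78714⟩],
  [⟨-176758, 1033571, -441284⟩, ⟨-1033571, -176755, 1141725⟩, ⟨176756, -1033571, 445494⟩, ⟨1033571, 176754, -1136989⟩],
  [⟨353946, -987033, 444832⟩, ⟨987033, 353947, -387942⟩, ⟨-353946, 987033, -439202⟩, ⟨-987033, -353945, 413516⟩],
  [⟨164034, -1035666, 525086⟩, ⟨1035667, 164031, -716342⟩, ⟨-164032, 1035667, -520881⟩, ⟨-1035666, -164033, 722786⟩],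
  [⟨-151382, 1037591, -581341⟩, ⟨-1037591, -151382, 1147317⟩, ⟨151382, -1037591, 591259⟩, ⟨1037591, 151382, -856410⟩],
  [⟨347679, -989258, 412805⟩, ⟨989258, 347679, -1148235⟩, ⟨-347679, 989258, -387533⟩, ⟨-989258, -347679, 1257895⟩],
  [⟨267453, -1013894, 72889⟩, ⟨1013894, 267452, -1021648⟩, ⟨-267453, 1013894, -66766⟩, ⟨-1013894, -267453, 1105197⟩],
  [⟨183018, -1032481, 84207⟩, ⟨1032481, 183018, -778754⟩, ⟨-183018, 1032481, -79503⟩, ⟨-1032481, -183018, 920620⟩],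
  [⟨312186, -1001025, 540284⟩, ⟨1001026, 312185, -384424⟩, ⟨-312186, 1001025, -536075⟩, ⟨-1001026, -312185, 389906⟩],
  [⟨-121757, 1041483, -426752⟩, ⟨-1041483, -121755, 405515⟩, ⟨121757, -1041483, 430974⟩, ⟨1041483, 121758, -346883⟩],
  [⟨120446, -1041635, 186342⟩, ⟨1041636, 120444, -230240⟩, ⟨-120446, 1041635, -182137⟩, ⟨-1041636, -120444, 234569⟩],
  [⟨-135249, 1039817, -70613⟩, ⟨-1039817, -135249, 1068967⟩, ⟨135250, -1039817, 74818⟩, ⟨1039817, 135250, -1053400⟩],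
  [⟨-181560, 1032738, -95510⟩, ⟨-1032738, -181561, 671492⟩, ⟨181560, -1032738, 99719⟩, ⟨1032738, 181559, -645989⟩]]

/-- The constants. -/
def P : Pm := ⟨1, 6, 7, 100, 10, 39, B, Z⟩

def t7_1 : Tr := .ct ⟨-1045992, 4061784, -430985⟩
 (.lf [d221, d323, d221, d523, d201] [(1, 0), (0, 2), (6, 1)])
 (.ct ⟨471274, -4167744, 868348⟩
 (.ct ⟨-471272, 4167744, -864391⟩
 (.lf [d221, d221, d545, d512] [(2, 0), (0, 6), (6, 1)])
 (.ct ⟨471272, -4167744, 864233⟩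
 (.ct ⟨-471270, 4167744, -861440⟩
 (.lf [d221, d221, d545, d512] [(4, 0), (0, 8), (8, 1), (1, 4)])
 (.lf [d512, d221, d301] [(5, 8), (0, 4)]))
 (.lf [d332, d545, d512] [(0, 7), (1, 3)])))
 (.ct ⟨470851, -4167791, 871281⟩
 (.ct ⟨-470846, 4167792, -868891⟩
 (.lf [d323, d656, d512] [(0, 7), (3, 0), (7, 1), (1, 3)])
 (.lf [d212, d656, d512] [(3, 2), (7, 0), (0, 3)]))
 (.ct ⟨633767, -4146146, 751501⟩
 (.ct ⟨-633764, 4146146, -749370⟩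
 (.lf [d321, d221, d301, d221, d301] [(0, 8), (1, 4), (8, 1)])
 (.lf [d545, d656, d512] [(4, 2), (8, 0)]))
 (.ct ⟨633842, -4146134, 755387⟩
 (.ct ⟨-633842, 4146134, -752667⟩
 (.lf [d312, d221, d301, d221, d301] [(5, 0), (0, 9), (9, 1), (1, 5)])
 (.lf [d312, d332, d301, d221, d301] [(5, 2), (9, 0)]))
 (.ct ⟨641269, -4144992, 752269⟩
 (.ct ⟨-641269, 4144992, -749802⟩
 (.lf [d221, d221, d421, d221, d301] [(6, 0), (0, 10), (10, 1), (1, 6)])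
 (.lf [d221, d332, d301, d221, d301] [(6, 2), (10, 0)]))
 (.lf [d423, d321, d221, d301] [(0, 9), (9, 7)]))))))
def t7_2 : Tr := .ct ⟨472070, -4167654, 860733⟩
 (.lf [d545, d512] [(3, 5), (5, 0)])
 (.ct ⟨471274, -4167744, 868348⟩
 (.ct ⟨-471272, 4167744, -864391⟩
 (.lf [d221, d221, d545, d512] [(8, 0), (0, 7), (7, 1)])
 (.ct ⟨471272, -4167744, 864233⟩
 (.ct ⟨-471270, 4167744, -861440⟩
 (.lf [d221, d221, d545, d512] [(10, 0), (0, 9), (9, 1), (1, 10)])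
 (.lf [d512, d221, d301] [(4, 9), (0, 10)]))
 (.lf [d332, d545, d512] [(0, 8), (1, 9)])))
 (.ct ⟨470851, -4167791, 871281⟩
 (.ct ⟨-470846, 4167792, -868891⟩
 (.lf [d323, d656, d512] [(0, 8), (9, 0), (8, 1), (1, 9)])
 (.lf [d212, d656, d512] [(9, 2), (8, 0), (0, 9)]))
 (.ct ⟨633767, -4146146, 751501⟩
 (.ct ⟨-633764, 4146146, -749370⟩
 (.lf [d321, d221, d301, d221, d301] [(0, 9), (1, 10), (9, 1)])
 (.lf [d545, d656, d512] [(10, 2), (9, 0)]))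
 (.ct ⟨633842, -4146134, 755387⟩
 (.ct ⟨-633842, 4146134, -752667⟩
 (.lf [d312, d221, d301, d221, d301] [(11, 0), (0, 10), (10, 1), (1, 11)])
 (.lf [d312, d332, d301, d221, d301] [(11, 2), (10, 0)]))
 (.ct ⟨641269, -4144992, 752269⟩
 (.ct ⟨-641269, 4144992, -749802⟩
 (.lf [d221, d221, d421, d221, d301] [(12, 0), (0, 11), (11, 1), (1, 12)])
 (.lf [d221, d332, d301, d221, d301] [(12, 2), (11, 0)]))
 (.lf [d423, d321, d221, d301] [(0, 10), (10, 6)]))))))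
def t7_3 : Tr := .ct ⟨1045945, -4061796, 430684⟩
 (.lf [d323, d221, d523, d201] [(5, 1), (9, 0), (1, 9), (0, 5)])
 (.ct ⟨-1045926, 4061801, -431046⟩
 (.lf [d221, d212, d221, d523, d201] [(6, 0), (10, 4)])
 (.ct ⟨-1045945, 4061796, -430866⟩
 (.ct ⟨1046203, -4061729, 430785⟩
 (.lf [d323, d221, d523, d201] [(1, 12), (8, 1), (2, 0)])
 (.ct ⟨333054, -4181060, 948845⟩
 (.lf [d201] [(1, 0), (3, 9), (9, 1)])
 (.ct ⟨-643658, 4144622, -750938⟩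
 (.ct ⟨643356, -4144669, 777075⟩
 (.lf [d321, d221, d301] [(5, 1), (3, 0), (0, 5)])
 (.ct ⟨651674, -4143369, 786932⟩
 (.lf [d312, d332, d301] [(1, 4), (0, 6), (4, 0)])
 (.lf [d312, d221, d301] [(6, 0), (4, 6)])))
 (.ct ⟨472070, -4167654, 860733⟩
 (.lf [d545, d512] [(2, 3), (3, 0)])
 (t7_1)))))
 (.ct ⟨1046004, -4061781, 430707⟩
 (.lf [d434, d221, d523, d201] [(3, 12), (12, 0), (0, 8)])
 (.ct ⟨-333048, 4181060, -1109254⟩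
 (.lf [d201] [(13, 2), (0, 1), (1, 13), (2, 0)])
 (.ct ⟨333054, -4181060, 948845⟩
 (.lf [d201] [(2, 0), (3, 10), (10, 2)])
 (.ct ⟨643356, -4144669, 777075⟩
 (.ct ⟨-643658, 4144622, -750938⟩
 (.lf [d321, d221, d301] [(5, 0), (4, 1), (1, 5)])
 (t7_2))
 (.ct ⟨-632374, 4146359, -803646⟩
 (.lf [d312, d221, d301] [(5, 0), (0, 4), (3, 5)])
 (.lf [d312, d332, d301] [(1, 4), (0, 5)]))))))))
def t7_4 : Tr := .ct ⟨-4103558, -867756, 2656968⟩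
 (.ct ⟨-867756, 4103558, -985786⟩
 (.zn 0 [(3, 2), (0, 4), (4, 1)])
 (.ct ⟨607755, -4150039, 1108132⟩
 (.lf [d545, d412] [(1, 7), (7, 5), (5, 0), (0, 1)])
 (.ct ⟨1058734, -4058481, 882274⟩
 (.ct ⟨-1056189, 4059144, -876123⟩
 (.lf [d332, d545, d201] [(0, 3), (2, 0), (3, 1), (1, 2)])
 (.lf [d323, d545, d201] [(7, 3), (0, 2), (2, 7)]))
 (.ct ⟨1056093, -4059169, 889822⟩
 (.lf [d221, d221, d545, d201] [(2, 1), (3, 0)])
 (.lf [d212, d212, d656, d201] [(2, 0), (3, 2)])))))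
 (.ct ⟨1058734, -4058481, 882274⟩
 (.ct ⟨-1056189, 4059144, -876123⟩
 (.lf [d332, d545, d201] [(0, 4), (2, 0), (4, 1), (1, 2)])
 (.lf [d323, d545, d201] [(5, 4), (0, 2), (2, 5)]))
 (.ct ⟨1056093, -4059169, 889822⟩
 (.lf [d221, d221, d545, d201] [(2, 1), (4, 0)])
 (.ct ⟨-867063, 4103704, -1030384⟩
 (.lf [d323, d201, d312] [(0, 1), (1, 5), (3, 0)])
 (.ct ⟨1054029, -4059706, 896390⟩
 (.lf [d323, d656, d201] [(4, 2), (1, 0)])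
 (.ct ⟨558559, -4156946, 1233212⟩
 (.ct ⟨-558492, 4156955, -1219589⟩
 (.lf [d321, d221, d412] [(0, 2), (6, 0), (2, 1), (1, 3)])
 (.ct ⟨1053561, -4059827, 898851⟩
 (.lf [d212, d545, d656, d201] [(7, 3), (1, 0)])
 (.ct ⟨558999, -4156887, 1219144⟩
 (.ct ⟨-558998, 4156887, -1216479⟩
 (.lf [d332, d221, d210, d221, d412] [(9, 0), (0, 2), (1, 9), (2, 1)])
 (.lf [d221, d545, d656, d201] [(9, 2), (0, 9)]))
 (.lf [d212, d321, d221, d412] [(8, 0), (2, 8), (1, 2)]))))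
 (.lf [d312, d332, d412] [(0, 1), (1, 2)]))))))
def t7_5 : Tr := .ct ⟨607755, -4150039, 1108132⟩
 (.lf [d545, d412] [(5, 1), (2, 5), (1, 0), (0, 2)])
 (.ct ⟨426082, -4172606, 1187380⟩
 (.ct ⟨-425955, 4172619, -1176451⟩
 (.lf [d434, d623] [(0, 2), (4, 0), (3, 1), (1, 4)])
 (.ct ⟨428423, -4172366, 1170048⟩
 (.ct ⟨-428219, 4172387, -1156561⟩
 (.lf [d323, d623] [(0, 4), (6, 0), (4, 1)])
 (.lf [d323, d201, d312] [(4, 0), (0, 6)]))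
 (.ct ⟨-426417, 4172572, -1172388⟩
 (.lf [d212, d434, d623] [(0, 4), (2, 6), (6, 0), (4, 2)])
 (.lf [d332, d323, d623] [(6, 1), (0, 6)]))))
 (.ct ⟨424558, -4172761, 1198663⟩
 (.ct ⟨-424471, 4172770, -1189483⟩
 (.lf [d545, d623] [(0, 4), (5, 0), (4, 1), (1, 5)])
 (.lf [d434, d434, d623] [(2, 4), (0, 5), (5, 2)]))
 (.ct ⟨-867063, 4103704, -1030384⟩
 (.lf [d323, d201, d312] [(0, 4), (4, 5), (1, 0)])
 (.ct ⟨424351, -4172782, 1202323⟩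
 (.ct ⟨-423930, 4172825, -1199517⟩
 (.lf [d332, d545, d623] [(0, 6), (2, 0), (6, 1)])
 (.lf [d323, d545, d623] [(3, 6), (0, 2), (2, 3)]))
 (.ct ⟨423914, -4172827, 1204998⟩
 (.lf [d221, d221, d545, d623] [(2, 1), (6, 0)])
 (.ct ⟨423640, -4172855, 1207370⟩
 (.lf [d221, d212, d656, d623] [(3, 1), (7, 0), (0, 3)])
 (.ct ⟨-867675, 4103575, -1027852⟩
 (.lf [d221, d332, d212, d201, d312] [(1, 0), (0, 8), (4, 1)])
 (.lf [d212, d545, d656, d623] [(0, 1), (8, 0)]))))))))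
def t7_6 : Tr := .ct ⟨426082, -4172606, 1187380⟩
 (.ct ⟨-425955, 4172619, -1176451⟩
 (.lf [d434, d623] [(0, 4), (8, 0), (4, 1), (1, 8)])
 (.ct ⟨-426417, 4172572, -1172388⟩
 (.lf [d212, d434, d623] [(0, 5), (1, 9), (9, 0), (5, 1)])
 (.lf [d332, d323, d623] [(9, 3), (0, 9)])))
 (.ct ⟨424558, -4172761, 1198663⟩
 (.ct ⟨-424471, 4172770, -1189483⟩
 (.lf [d545, d623] [(0, 5), (9, 0), (5, 1), (1, 9)])
 (.lf [d545, d434, d623] [(2, 5), (9, 2), (0, 9)]))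
 (.ct ⟨-856902, 4105838, -1086021⟩
 (.lf [d312, d312, d312] [(0, 5), (1, 0), (5, 9), (9, 1)])
 (.ct ⟨424351, -4172782, 1202323⟩
 (.ct ⟨-423930, 4172825, -1199517⟩
 (.lf [d332, d545, d623] [(0, 7), (2, 0), (7, 1)])
 (.lf [d323, d545, d623] [(3, 7), (0, 2), (2, 3)]))
 (.ct ⟨423914, -4172827, 1204998⟩
 (.lf [d221, d221, d545, d623] [(2, 1), (7, 0)])
 (.ct ⟨423640, -4172855, 1207370⟩
 (.lf [d221, d212, d656, d623] [(3, 1), (8, 0), (0, 3)])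
 (.ct ⟨-856935, 4105831, -1083604⟩
 (.lf [d312, d312, d312, d312] [(0, 9), (1, 0), (9, 4), (4, 1)])
 (.ct ⟨901836, -4096203, 1069371⟩
 (.ct ⟨-901832, 4096204, -1066334⟩
 (.lf [d321, d221, d301, d221, d201] [(0, 11), (3, 0), (1, 3), (11, 1)])
 (.lf [d434, d656, d623] [(0, 3), (11, 0)]))
 (.lf [d312, d332, d301, d221, d201] [(2, 0), (1, 2)]))))))))
def t7_7 : Tr := .ct ⟨4105750, 857324, -1276099⟩
 (.ct ⟨-857324, 4105750, -1051950⟩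
 (.ct ⟨857324, -4105750, 1091453⟩
 (.zn 1 [(2, 1), (1, 3), (3, 0)])
 (.lf [d312, d312, d312] [(2, 0), (3, 6), (6, 2)]))
 (.ct ⟨866454, -4103833, 1046173⟩
 (.lf [d434, d201, d312] [(2, 4), (3, 0), (0, 2)])
 (.ct ⟨866091, -4103909, 1048407⟩
 (.lf [d212, d545, d201, d312] [(3, 1), (2, 0), (0, 3)])
 (.lf [d545, d201, d312] [(3, 0), (0, 2), (2, 3)]))))
 (.ct ⟨607755, -4150039, 1108132⟩
 (.lf [d545, d412] [(6, 3), (11, 6), (0, 11), (3, 0)])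
 (.ct ⟨428423, -4172366, 1170048⟩
 (.ct ⟨-428219, 4172387, -1156561⟩
 (.lf [d323, d623] [(0, 5), (7, 0), (3, 1)])
 (.ct ⟨432477, -4171948, 1140023⟩
 (.ct ⟨-432099, 4171987, -1122467⟩
 (.lf [d212, d623] [(0, 4), (9, 0), (4, 1)])
 (.lf [d321, d221, d201] [(4, 0), (9, 15)]))
 (.ct ⟨-428967, 4172310, -1149986⟩
 (.lf [d212, d323, d623] [(9, 0), (0, 4), (2, 9), (7, 2)])
 (.ct ⟨430056, -4172198, 1148588⟩
 (.ct ⟨-429929, 4172211, -1141532⟩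
 (.lf [d332, d212, d623] [(0, 6), (6, 1), (1, 11)])
 (.lf [d434, d212, d623] [(3, 6), (0, 11), (11, 3)]))
 (.ct ⟨-429899, 4172214, -1148748⟩
 (.lf [d312, d221, d221, d212, d623] [(11, 0), (0, 6), (2, 11)])
 (.lf [d443, d212, d623] [(1, 6), (0, 11)]))))))
 (t7_6)))
def t7_8 : Tr := .ct ⟨-571077, 4155245, -1256438⟩
 (.ct ⟨570586, -4155312, 1276832⟩
 (.lf [d221, d332, d412] [(8, 1), (2, 0), (0, 8)])
 (.lf [d423, d221, d412] [(8, 0), (0, 2)]))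
 (.ct ⟨564837, -4156097, 1246909⟩
 (.ct ⟨-564866, 4156093, -1228003⟩
 (.lf [d312, d332, d412] [(6, 0), (0, 4), (1, 6)])
 (.ct ⟨-558492, 4156955, -1219589⟩
 (.lf [d321, d221, d412] [(0, 5), (7, 0), (5, 1)])
 (.ct ⟨866026, -4103923, 1052264⟩
 (.ct ⟨-866002, 4103928, -1046742⟩
 (.lf [d545, d201, d312] [(0, 2), (9, 0), (2, 1)])
 (.lf [d201, d312] [(9, 7), (7, 2), (0, 9), (2, 0)]))
 (.ct ⟨-558998, 4156887, -1216479⟩
 (.ct ⟨558999, -4156887, 1219144⟩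
 (.lf [d332, d221, d210, d221, d412] [(10, 1), (1, 2), (0, 10), (2, 0)])
 (.lf [d212, d321, d221, d412] [(10, 0), (3, 10), (2, 3)]))
 (.ct ⟨865968, -4103935, 1054218⟩
 (.ct ⟨-865851, 4103960, -1052739⟩
 (.lf [d332, d545, d201, d312] [(0, 2), (11, 0), (2, 1)])
 (.lf [d323, d545, d201, d312] [(3, 2), (0, 11), (11, 3)]))
 (.ct ⟨865846, -4103961, 1055648⟩
 (.lf [d221, d221, d545, d201, d312] [(11, 1), (0, 11), (2, 0)])
 (.ct ⟨865770, -4103977, 1056910⟩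
 (.lf [d221, d212, d656, d201, d312] [(12, 1), (0, 12), (3, 0)])
 (.lf [d212, d545, d656, d201, d312] [(12, 0), (3, 12)]))))))))
 (.ct ⟨557762, -4157053, 1262024⟩
 (.lf [d432, d221, d412] [(6, 1), (4, 0)])
 (.lf [d423, d332, d412] [(0, 4), (4, 2)])))
def t7_9 : Tr := .ct ⟨1059597, -4058256, 847673⟩
 (.ct ⟨-1046016, 4061777, -432856⟩
 (.lf [d201] [(6, 1), (2, 0), (0, 6), (5, 2)])
 (.ct ⟨-1069742, 4055594, -284382⟩
 (.ct ⟨1046016, -4061777, 428603⟩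
 (.lf [d201] [(0, 4), (4, 1), (1, 8), (8, 0)])
 (t7_3))
 (.ct ⟨1069742, -4055594, 274076⟩
 (.ct ⟨-1119692, 4042088, -186620⟩
 (.lf [d201] [(9, 1), (5, 0), (1, 5)])
 (.lf [d201, d201] [(5, 9), (9, 0)]))
 (.ct ⟨4055576, 1069808, -4086594⟩
 (.zn 8 [(2, 0), (1, 9), (9, 2)])
 (.ct ⟨472070, -4167654, 860733⟩
 (.ct ⟨-471962, 4167666, -849269⟩
 (.lf [d545, d512] [(0, 3), (4, 0), (3, 1)])
 (.lf [d512] [(4, 7), (3, 0), (0, 4)]))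
 (.ct ⟨471813, -4167683, 864987⟩
 (.ct ⟨-471293, 4167741, -862240⟩
 (.lf [d332, d545, d512] [(0, 4), (5, 0), (3, 1), (1, 5)])
 (.lf [d323, d545, d512] [(2, 4), (0, 5), (5, 2)]))
 (.ct ⟨471274, -4167744, 868348⟩
 (.lf [d221, d221, d545, d512] [(5, 1), (3, 0)])
 (.ct ⟨470851, -4167791, 871281⟩
 (.ct ⟨-470846, 4167792, -868891⟩
 (.lf [d323, d656, d512] [(0, 5), (7, 0), (5, 1), (1, 7)])
 (.lf [d212, d656, d512] [(7, 2), (5, 0), (0, 7)]))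
 (.ct ⟨-1069713, 4055601, -282949⟩
 (.lf [d312, d312, d312, d201] [(0, 5), (5, 7), (1, 0)])
 (.lf [d545, d656, d512] [(0, 1), (5, 0)]))))))))))
 (.ct ⟨607622, -4150058, 1093715⟩
 (.ct ⟨-601585, 4150937, -932461⟩
 (.lf [d412] [(0, 2), (6, 0), (2, 1)])
 (.ct ⟨1059992, -4058153, 872717⟩
 (.lf [d545, d201] [(3, 1), (7, 3), (0, 7), (1, 0)])
 (.ct ⟨-626764, 4147210, -906931⟩
 (.lf [d212, d412] [(8, 0), (2, 8), (0, 1), (1, 2)])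
 (.ct ⟨-644998, 4144414, -892094⟩
 (.lf [d332, d221, d301] [(9, 0), (0, 2), (1, 9)])
 (.lf [d323, d545, d201] [(2, 0), (0, 9), (9, 2)])))))
 (.ct ⟨-856144, 4105996, -1097849⟩
 (.lf [d312, d312] [(0, 7), (6, 0), (7, 4), (4, 6)])
 (.ct ⟨1059992, -4058153, 872717⟩
 (.lf [d545, d201] [(2, 3), (3, 8), (0, 2), (1, 0)])
 (.ct ⟨867756, -4103558, 1035610⟩
 (.ct ⟨4103558, 867756, -1741113⟩
 (t7_4)
 (t7_5))
 (.ct ⟨-4105751, -857320, 2182229⟩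
 (t7_7)
 (.ct ⟨-545975, 4158617, -1336005⟩
 (.lf [d212, d523] [(4, 0), (0, 3), (3, 4)])
 (.ct ⟨866454, -4103833, 1046173⟩
 (.lf [d434, d201, d312] [(2, 3), (4, 0), (0, 2)])
 (.ct ⟨-563074, 4156337, -1281819⟩
 (.ct ⟨562155, -4156461, 1310601⟩
 (.lf [d221, d221, d412] [(7, 1), (2, 0), (0, 7)])
 (.ct ⟨-562155, 4156461, -1311751⟩
 (.lf [d221, d221, d412] [(8, 0), (0, 7), (4, 8)])
 (.lf [d212, d332, d412] [(1, 3), (0, 8)])))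
 (t7_8)))))))))
def t7_10 : Tr := .ct ⟨1110715, -4044564, 494231⟩
 (.ct ⟨-1069742, 4055594, -284382⟩
 (.ct ⟨333054, -4181060, 948845⟩
 (.lf [d201] [(0, 5), (3, 1), (1, 0), (2, 3), (5, 2)])
 (.lf [d201] [(1, 5), (0, 1), (5, 0)]))
 (.ct ⟨1069742, -4055594, 274076⟩
 (.lf [d201] [(3, 4), (5, 0), (0, 3), (4, 5)])
 (.ct ⟨709079, -4133932, 567259⟩
 (.lf [d301] [(4, 1), (2, 4), (1, 0), (0, 2)])
 (.ct ⟨-468323, 4168076, -803959⟩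
 (.lf [d512] [(0, 2), (2, 7), (3, 0)])
 (.ct ⟨481867, -4166532, 788351⟩
 (.lf [d212, d512] [(4, 2), (3, 0), (0, 4)])
 (.lf [d221, d212, d512] [(4, 0), (1, 4)]))))))
 (.ct ⟨481788, -4166541, 736602⟩
 (.lf [d212, d512] [(2, 1), (7, 2), (1, 0), (0, 4)])
 (.ct ⟨-468706, 4168033, -740780⟩
 (.lf [d212, d512] [(0, 1), (1, 2), (2, 5), (5, 0)])
 (.ct ⟨-1097612, 4048140, -592421⟩
 (.lf [d201] [(2, 0), (0, 1), (6, 2)])
 (.ct ⟨1097612, -4048140, 587793⟩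
 (.lf [d201] [(3, 2), (0, 3), (2, 0)])
 (.ct ⟨-479525, 4166802, -737490⟩
 (.ct ⟨479525, -4166802, 738379⟩
 (.lf [d423, d221, d321, d212, d512] [(3, 1), (1, 2), (4, 0), (0, 3)])
 (.lf [d212, d201] [(0, 4), (4, 3), (3, 0)]))
 (.ct ⟨481781, -4166542, 736929⟩
 (.lf [d332, d423, d212, d512] [(3, 5), (5, 2), (2, 0), (0, 3)])
 (.ct ⟨4166543, 481776, -920962⟩
 (.ct ⟨-4166543, -481776, 938274⟩
 (.zn 12 [(3, 1), (2, 0)])
 (.lf [d212, d201] [(4, 3), (3, 0), (2, 4)]))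
 (.lf [d212, d201] [(1, 0), (2, 4), (4, 1)]))))))))
def t7_11 : Tr := .ct ⟨726240, -4130952, 388915⟩
 (.ct ⟨-732073, 4129922, -329934⟩
 (.lf [d301] [(0, 5), (3, 0), (1, 3), (5, 1)])
 (.ct ⟨4129922, 732072, -3115017⟩
 (.ct ⟨-4129922, -732072, 3682476⟩
 (.zn 9 [(7, 2), (2, 1), (5, 4), (4, 0)])
 (.lf [d323, d545, d201, d212, d301] [(4, 7), (7, 0)]))
 (.ct ⟨-730863, 4130136, -329873⟩
 (.ct ⟨730863, -4130136, 330703⟩
 (.lf [d321, d221, d412, d212, d301] [(1, 2), (6, 1), (0, 6), (2, 0)])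
 (.lf [d312, d332, d412, d212, d301] [(0, 2), (2, 3)]))
 (.ct ⟨709185, -4133914, 345455⟩
 (.ct ⟨-709184, 4133914, -344843⟩
 (.lf [d323, d656, d423, d301] [(0, 3), (7, 0), (3, 1)])
 (.lf [d221, d221, d545, d423, d301] [(7, 3), (0, 7)]))
 (.ct ⟨732073, -4129922, 328826⟩
 (.ct ⟨-732072, 4129922, -328430⟩
 (.lf [d323, d201, d312, d212, d301] [(0, 4), (4, 1), (8, 0)])
 (.ct ⟨709178, -4133915, 345673⟩
 (.lf [d212, d545, d656, d423, d301] [(9, 3), (5, 0), (0, 1)])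
 (.lf [d221, d545, d656, d423, d301] [(1, 0), (5, 1)])))
 (.lf [d434, d201, d312, d212, d301] [(7, 0), (2, 7)]))))))
 (.ct ⟨-726240, 4130952, -391980⟩
 (.lf [d301] [(0, 5), (6, 0), (5, 6)])
 (.ct ⟨452916, -4169779, 557713⟩
 (.lf [d301] [(4, 2), (2, 0), (0, 1), (7, 4)])
 (.ct ⟨4130952, 726236, -2583958⟩
 (.ct ⟨-4130951, -726244, 2685965⟩
 (.zn 14 [(3, 1), (4, 0)])
 (.ct ⟨-452916, 4169779, -565680⟩
 (.lf [d301] [(0, 5), (5, 9), (9, 1), (1, 0)])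
 (.lf [d212, d301] [(5, 0), (0, 1), (1, 5)])))
 (.ct ⟨-731233, 4130071, -387802⟩
 (.lf [d212, d301] [(2, 0), (0, 1), (1, 3), (3, 2)])
 (.ct ⟨726079, -4130980, 390489⟩
 (.ct ⟨-726121, 4130972, -389211⟩
 (.lf [d221, d321, d212, d301] [(4, 0), (0, 3), (3, 1), (1, 4)])
 (.lf [d212, d301] [(6, 3), (0, 4), (4, 6), (3, 0)]))
 (.ct ⟨-731218, 4130073, -387312⟩
 (.lf [d423, d332, d423, d212, d301] [(0, 3), (4, 0), (3, 2)])
 (.lf [d332, d423, d432, d212, d301] [(1, 3), (3, 0)])))))))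
def t7_12 : Tr := .ct ⟨-474181, 4167414, -553995⟩
 (.ct ⟨709079, -4133932, 567259⟩
 (.lf [d301] [(1, 7), (7, 0), (2, 1), (0, 2)])
 (.ct ⟨-1088030, 4050726, -181342⟩
 (.lf [d201, d201] [(1, 0), (4, 3)])
 (.lf [d512] [(0, 1), (8, 0)])))
 (.ct ⟨531355, -4160511, 425080⟩
 (.ct ⟨-540998, 4159268, -291999⟩
 (.lf [d401] [(9, 0), (0, 8), (8, 1), (3, 9), (1, 3)])
 (.ct ⟨527205, -4161038, 303798⟩
 (.lf [d212, d401] [(10, 9), (0, 1), (1, 10), (9, 0)])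
 (.ct ⟨372792, -4177704, 459049⟩
 (.lf [d401] [(1, 0), (2, 1), (0, 2)])
 (.ct ⟨4159267, 541000, -4213601⟩
 (.zn 13 [(3, 0), (2, 11), (11, 3)])
 (.ct ⟨-543784, 4158904, -288391⟩
 (.lf [d212, d401] [(2, 0), (0, 1), (1, 4), (4, 2)])
 (.ct ⟨540908, -4159279, 290902⟩
 (.ct ⟨-540932, 4159276, -289948⟩
 (.lf [d221, d321, d212, d401] [(4, 0), (1, 4), (3, 1)])
 (.lf [d212, d401] [(5, 3), (0, 4), (4, 5), (3, 0)]))
 (.ct ⟨-543775, 4158905, -288028⟩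
 (.lf [d423, d332, d423, d212, d401] [(4, 0), (0, 3), (3, 2)])
 (.lf [d332, d423, d432, d212, d401] [(1, 3), (3, 0)]))))))))
 (.ct ⟨474182, -4167414, 519718⟩
 (.ct ⟨-700903, 4135326, -268684⟩
 (.lf [d301] [(9, 1), (0, 9), (2, 0), (4, 2), (1, 4)])
 (.lf [d312, d301] [(2, 9), (9, 0), (0, 2)]))
 (.ct ⟨732073, -4129922, 325746⟩
 (.lf [d301] [(1, 9), (9, 3), (0, 1), (3, 0)])
 (t7_11))))
def t7_13 : Tr := .ct ⟨1392328, -3956464, 2092583⟩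
 (.ct ⟨-534103, 4160159, -1893625⟩
 (.ct ⟨-1415837, 3948112, -1773158⟩
 (.lf [d212] [(1, 0), (7, 2), (6, 1), (2, 6), (0, 3), (3, 7)])
 (.lf [d423] [(1, 3), (3, 0), (0, 1)]))
 (.lf [d423] [(5, 2), (0, 5), (2, 0)]))
 (.ct ⟨1386905, -3958368, 2163952⟩
 (.ct ⟨-1392329, 3956464, -2098252⟩
 (.lf [d212] [(6, 0), (0, 7), (7, 1), (1, 6)])
 (.ct ⟨-447760, 4170335, -2420757⟩
 (.lf [d212] [(0, 3), (3, 8), (8, 1), (1, 0)])
 (.ct ⟨447756, -4170336, 2403150⟩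
 (.lf [d212] [(8, 4), (4, 0), (0, 2), (2, 8)])
 (.ct ⟨-1389880, 3957325, -2096620⟩
 (.lf [d423, d221, d423, d212] [(0, 2), (1, 0), (2, 3)])
 (.ct ⟨1391897, -3956616, 2095428⟩
 (.lf [d332, d423, d212] [(2, 6), (6, 3), (0, 2), (3, 0)])
 (.ct ⟨1240562, -4006644, 2155665⟩
 (.lf [d332, d321, d212] [(3, 1), (1, 0), (0, 2)])
 (.ct ⟨-1240558, 4006645, -2156050⟩
 (.lf [d423, d332, d321, d212] [(0, 2), (5, 3), (3, 0)])
 (.zn 10 [(0, 3), (3, 1), (1, 2), (2, 0)]))))))))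
 (.ct ⟨423465, -4172872, 2819111⟩
 (.lf [d212] [(6, 1), (1, 0), (4, 6), (0, 4)])
 (.ct ⟨-1119692, 4042088, -2426003⟩
 (.lf [d323] [(5, 0), (8, 5)])
 (.ct ⟨-1262013, 3999939, -2270914⟩
 (.lf [d543, d212] [(6, 0), (0, 3), (1, 6)])
 (.ct ⟨-1256277, 4001744, -2265586⟩
 (.lf [d221, d221, d432, d212] [(0, 4), (3, 0), (4, 1)])
 (.lf [d212, d543, d212] [(3, 4), (0, 3)]))))))
def t7_14 : Tr := .ct ⟨-500787, 4164300, -1603238⟩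
 (.lf [d543, d332, d523] [(0, 1), (1, 3), (2, 0)])
 (.ct ⟨846414, -4108013, 1568535⟩
 (.lf [d212, d545, d656, d312] [(3, 2), (1, 0)])
 (.ct ⟨-504140, 4163896, -1601818⟩
 (.lf [d534, d443, d523] [(4, 0), (0, 1), (2, 4)])
 (.ct ⟨-504115, 4163899, -1600376⟩
 (.lf [d212, d534, d443, d523] [(0, 2), (2, 1), (1, 5)])
 (.ct ⟨846308, -4108035, 1569042⟩
 (.lf [d221, d323, d656, d656, d312] [(6, 3), (0, 6), (1, 0)])
 (.ct ⟨-504093, 4163902, -1598856⟩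
 (.ct ⟨504052, -4163907, 1599813⟩
 (.lf [d332, d423, d443, d523] [(8, 1), (0, 8), (2, 0)])
 (.ct ⟨-504082, 4163903, -1600083⟩
 (.lf [d212, d654, d443, d523] [(0, 3), (4, 9)])
 (.ct ⟨504117, -4163899, 1600013⟩
 (.lf [d201, d212, d534, d443, d523] [(2, 4), (0, 10), (4, 0)])
 (.ct ⟨504108, -4163900, 1600068⟩
 (.lf [d534, d221, d423, d443, d523] [(11, 1), (5, 0)])
 (.lf [d212, d654, d443, d523] [(0, 5), (2, 11)])))))
 (.ct ⟨504027, -4163910, 1598161⟩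
 (.ct ⟨-504028, 4163909, -1596988⟩
 (.lf [d434, d423, d443, d523] [(9, 0), (0, 3), (1, 9)])
 (.lf [d423, d443, d523] [(9, 3), (0, 9)]))
 (.ct ⟨-504100, 4163901, -1598357⟩
 (.lf [d432, d221, d423, d443, d523] [(9, 0), (2, 9), (0, 3)])
 (.lf [d545, d423, d443, d523] [(1, 3), (3, 0)]))))))))
def t7_15 : Tr := .ct ⟨-485460, 4166115, -1716109⟩
 (.lf [d312, d221, d212, d221, d523] [(0, 7), (1, 6), (6, 0)])
 (.ct ⟨486824, -4165956, 1715406⟩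
 (.lf [d434, d221, d523] [(3, 8), (8, 0), (0, 7)])
 (.ct ⟨4165932, 487032, -1387534⟩
 (.ct ⟨-4165933, -487020, 1622058⟩
 (.zn 11 [(3, 1), (0, 3), (2, 0)])
 (.ct ⟨846796, -4107934, 1566958⟩
 (.lf [d221, d212, d656, d312] [(3, 11), (0, 3)])
 (.lf [d332, d434, d656, d312] [(3, 0), (4, 1)])))
 (.ct ⟨484122, -4166271, 1716350⟩
 (.lf [d443, d534, d212, d221, d523] [(9, 2), (1, 0), (0, 9)])
 (.ct ⟨-485875, 4166067, -1715886⟩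
 (.lf [d443, d534, d323, d221, d523] [(0, 2), (4, 10), (10, 0)])
 (.ct ⟨744784, -4127649, 1627927⟩
 (.lf [d321, d221, d301, d221, d312] [(2, 3), (0, 2)])
 (.ct ⟨744889, -4127630, 1632617⟩
 (.ct ⟨-744888, 4127630, -1629418⟩
 (.lf [d312, d221, d301, d221, d312] [(0, 3), (4, 0), (3, 1)])
 (.lf [d312, d332, d301, d221, d312] [(4, 2), (3, 0)]))
 (.ct ⟨744739, -4127657, 1636772⟩
 (.ct ⟨-744728, 4127659, -1633585⟩
 (.lf [d221, d221, d301, d221, d312] [(0, 4), (5, 0), (1, 5), (4, 1)])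
 (.lf [d332, d443, d301, d221, d312] [(5, 2), (4, 0)]))
 (.ct ⟨-744739, 4127657, -1636909⟩
 (.lf [d221, d221, d301, d221, d312] [(0, 4), (5, 0), (4, 14)])
 (.lf [d212, d332, d301, d221, d312] [(5, 1), (4, 0)])))))))))
def t7_16 : Tr := .ct ⟨-481398, 4166586, -1731932⟩
 (.ct ⟨481867, -4166532, 1752085⟩
 (.lf [d212, d634] [(1, 5), (4, 1), (5, 0), (0, 4)])
 (.ct ⟨476846, -4167110, 1779141⟩
 (.ct ⟨-476594, 4167139, -1763808⟩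
 (.lf [d323, d634] [(0, 7), (6, 0), (7, 1)])
 (.ct ⟨-477519, 4167033, -1757666⟩
 (.lf [d212, d323, d634] [(0, 8), (1, 7), (7, 0), (8, 1)])
 (.lf [d332, d212, d634] [(7, 3), (0, 7)])))
 (.ct ⟨473952, -4167440, 1794733⟩
 (.ct ⟨-473795, 4167458, -1782374⟩
 (.lf [d434, d634] [(0, 8), (7, 0), (8, 1)])
 (.lf [d434, d323, d634] [(2, 8), (0, 7), (7, 2)]))
 (.ct ⟨846796, -4107934, 1566958⟩
 (.lf [d221, d212, d656, d312] [(1, 8), (0, 1)])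
 (.ct ⟨472070, -4167654, 1804872⟩
 (.lf [d545, d634] [(8, 2), (1, 0)])
 (.ct ⟨-744739, 4127657, -1636909⟩
 (.lf [d221, d221, d301, d221, d312] [(0, 2), (1, 0), (2, 9)])
 (.ct ⟨744739, -4127657, 1636772⟩
 (.ct ⟨-744728, 4127659, -1633585⟩
 (.lf [d221, d221, d301, d221, d312] [(0, 4), (3, 0), (1, 3), (4, 1)])
 (.lf [d434, d656, d312] [(3, 4), (0, 3)]))
 (.lf [d212, d332, d301, d221, d312] [(2, 0), (3, 1)]))))))))
 (.ct ⟨485865, -4166068, 1715457⟩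
 (.ct ⟨-485538, 4166106, -1704462⟩
 (.lf [d323, d221, d523] [(0, 6), (6, 1), (1, 5)])
 (.ct ⟨492846, -4165248, 1700508⟩
 (.lf [d212, d554, d221, d523] [(6, 4), (7, 0)])
 (.ct ⟨492492, -4165290, 1702555⟩
 (.lf [d221, d221, d554, d221, d523] [(7, 1), (2, 0), (0, 7)])
 (.lf [d312, d323, d221, d523] [(7, 0), (2, 7)]))))
 (.ct ⟨-483150, 4166384, -1720311⟩
 (.lf [d212, d212, d634] [(5, 0), (0, 6), (2, 5), (6, 2)])
 (t7_15)))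
def t7_17 : Tr := .ct ⟨-745176, 4127578, -1638810⟩
 (.ct ⟨745120, -4127588, 1655033⟩
 (.lf [d412, d221, d312] [(11, 1), (1, 2), (0, 3), (2, 0)])
 (.lf [d212, d656, d312] [(0, 2), (3, 0)]))
 (.ct ⟨496246, -4164844, 1680416⟩
 (.ct ⟨-496182, 4164852, -1653990⟩
 (.lf [d221, d221, d523] [(2, 0), (0, 3), (3, 1)])
 (.ct ⟨-496063, 4164866, -1634602⟩
 (.ct ⟨496182, -4164852, 1652973⟩
 (.lf [d221, d221, d523] [(1, 5), (14, 1), (5, 0), (0, 14)])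
 (.lf [d212, d332, d523] [(0, 5), (2, 4)]))
 (.ct ⟨-506504, 4163609, -1613989⟩
 (.ct ⟨506524, -4163606, 1629154⟩
 (.lf [d221, d443, d523] [(15, 1), (1, 6), (0, 15), (6, 0)])
 (.lf [d221, d332, d523] [(15, 0), (2, 15)]))
 (.ct ⟨-506740, 4163580, -1604682⟩
 (.ct ⟨506504, -4163609, 1613405⟩
 (.lf [d221, d443, d523] [(16, 1), (1, 7), (7, 0), (0, 16)])
 (.lf [d221, d332, d523] [(16, 0), (7, 2)]))
 (.ct ⟨-4108037, -846296, 399050⟩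
 (.ct ⟨846300, -4108036, 1583002⟩
 (.zn 2 [(17, 8), (0, 17), (1, 2)])
 (.lf [d543, d332, d523] [(17, 0), (0, 2)]))
 (.ct ⟨846989, -4107894, 1566925⟩
 (.lf [d221, d212, d656, d312] [(1, 8), (2, 0)])
 (t7_14)))))))
 (.ct ⟨493373, -4165185, 1696607⟩
 (.ct ⟨-493355, 4165188, -1682314⟩
 (.lf [d443, d221, d523] [(3, 0), (0, 4), (4, 1), (1, 3)])
 (.lf [d332, d221, d523] [(3, 2), (4, 0), (0, 3)]))
 (t7_16)))
def t7_18 : Tr := .ct ⟨744156, -4127762, 1753579⟩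
 (.ct ⟨-744235, 4127748, -1733107⟩
 (.lf [d423, d221, d312] [(10, 0), (0, 11), (1, 10), (5, 1)])
 (.ct ⟨770142, -4122993, 1717754⟩
 (.ct ⟨-770177, 4122986, -1704079⟩
 (.lf [d423, d332, d312] [(4, 0), (0, 13), (1, 4)])
 (.ct ⟨743678, -4127848, 1728700⟩
 (.ct ⟨-743674, 4127849, -1725749⟩
 (.lf [d321, d221, d312, d221, d312] [(0, 15), (1, 2)])
 (.lf [d545, d312, d221, d312] [(6, 15), (2, 6), (15, 0)]))
 (.ct ⟨743828, -4127821, 1732028⟩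
 (.lf [d312, d221, d312, d221, d312] [(1, 15), (15, 0), (0, 2)])
 (.ct ⟨743558, -4127870, 1733104⟩
 (.lf [d332, d312, d221, d312] [(3, 1), (16, 0), (0, 3)])
 (.ct ⟨-775707, 4121949, -1697494⟩
 (.lf [d423, d332, d432, d332, d312] [(0, 17), (1, 0), (4, 1)])
 (.ct ⟨4134285, 707016, -4547959⟩
 (.zn 3 [(18, 1), (0, 2)])
 (.lf [d332, d423, d423] [(1, 2), (0, 1)])))))))
 (.ct ⟨-789682, 4119295, -1710982⟩
 (.ct ⟨789113, -4119404, 1724512⟩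
 (.lf [d221, d443, d312] [(2, 1), (3, 0), (0, 13)])
 (.lf [d221, d332, d312] [(13, 0), (3, 13)]))
 (.ct ⟨-788418, 4119537, -1708244⟩
 (.lf [d321, d221, d443, d312] [(2, 0), (0, 3), (3, 1)])
 (.lf [d323, d423, d423] [(0, 2), (2, 3)])))))
 (.ct ⟨-766273, 4123713, -1744396⟩
 (.lf [d221, d221, d312] [(1, 0), (0, 5), (5, 10)])
 (.lf [d221, d332, d312] [(1, 5), (0, 1)]))
def t7_19 : Tr := .ct ⟨-3948133, -1415780, 1654062⟩
 (.ct ⟨3948130, 1415787, -1551769⟩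
 (.ct ⟨1415784, -3948131, 1779326⟩
 (.ct ⟨-1415784, 3948131, -1756810⟩
 (.zn 4 [(2, 6), (6, 0), (3, 8), (8, 1)])
 (.lf [d545, d201, d212] [(6, 3), (0, 6)]))
 (.ct ⟨1382593, -3959877, 1797395⟩
 (.lf [d312, d332, d412, d212] [(2, 1), (0, 2)])
 (.lf [d432, d221, d412, d212] [(2, 0), (8, 17)])))
 (.ct ⟨-1382596, 3959876, -1791115⟩
 (.ct ⟨1382593, -3959877, 1797395⟩
 (.lf [d312, d332, d412, d212] [(1, 2), (6, 1), (0, 17)])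
 (.lf [d432, d221, d412, d212] [(17, 0), (2, 17)]))
 (.ct ⟨-1381924, 3960110, -1787363⟩
 (.lf [d321, d221, d412, d212] [(0, 2), (6, 0), (2, 1)])
 (.ct ⟨706329, -4134403, 2015105⟩
 (.lf [d221, d434, d656, d423] [(1, 7), (0, 1)])
 (.ct ⟨-1415687, 3948166, -1772522⟩
 (.lf [d434, d201, d312, d212] [(1, 0), (0, 4), (2, 1)])
 (.lf [d323, d201, d312, d212] [(1, 4), (4, 0), (0, 1)]))))))
 (.ct ⟨1438548, -3939894, 1747909⟩
 (.lf [d545, d201, d212] [(4, 2), (2, 6), (6, 0)])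
 (.ct ⟨1438395, -3939950, 1751085⟩
 (.ct ⟨-1438084, 3940063, -1748482⟩
 (.lf [d332, d545, d201, d212] [(0, 8), (3, 0), (8, 1)])
 (.lf [d323, d545, d201, d212] [(2, 8), (0, 3), (3, 2)]))
 (.ct ⟨1438073, -3940068, 1753314⟩
 (.lf [d221, d221, d545, d201, d212] [(3, 1), (8, 0)])
 (.ct ⟨-643937, 4144579, -2045256⟩
 (.lf [d332, d221, d210, d221, d423] [(4, 0), (0, 1), (9, 4)])
 (.lf [d323, d656, d201, d212] [(4, 1), (0, 4)])))))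
def t7_20 : Tr := .ct ⟨708686, -4133999, 2007938⟩
 (.lf [d332, d545, d423] [(10, 5), (1, 0)])
 (.ct ⟨707176, -4134258, 2012727⟩
 (.lf [d212, d221, d545, d423] [(11, 1), (2, 0)])
 (.ct ⟨-1445909, 3937199, -1686898⟩
 (.ct ⟨1438500, -3939912, 1738965⟩
 (.lf [d201, d212] [(2, 1), (1, 4), (4, 0)])
 (t7_19))
 (.ct ⟨706329, -4134403, 2015105⟩
 (.lf [d221, d434, d656, d423] [(1, 2), (0, 1)])
 (.ct ⟨-643937, 4144579, -2045256⟩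
 (.lf [d332, d221, d210, d221, d423] [(2, 0), (0, 1), (5, 2)])
 (.ct ⟨-1386485, 3958516, -1697946⟩
 (.lf [d412, d212] [(0, 1), (1, 3), (2, 0)])
 (.ct ⟨-1391465, 3956768, -1681659⟩
 (.ct ⟨1391477, -3956764, 1693216⟩
 (.lf [d221, d221, d301, d212] [(4, 1), (1, 3), (3, 0)])
 (.lf [d432, d201, d212] [(0, 3), (2, 4)]))
 (.ct ⟨-1391596, 3956722, -1669954⟩
 (.ct ⟨1390629, -3957062, 1681897⟩
 (.lf [d221, d221, d301, d212] [(5, 1), (1, 4), (0, 5), (4, 0)])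
 (.lf [d534, d221, d301, d212] [(5, 0), (4, 2)]))
 (.ct ⟨-1389774, 3957362, -1659142⟩
 (.ct ⟨1389764, -3957365, 1670209⟩
 (.lf [d312, d221, d301, d212] [(6, 1), (1, 5), (0, 6)])
 (.lf [d543, d221, d301, d212] [(0, 5), (5, 2)]))
 (.ct ⟨-643984, 4144571, -2044740⟩
 (.lf [d221, d221, d210, d221, d423] [(0, 6), (1, 0), (6, 5), (5, 1)])
 (.lf [d323, d221, d545, d656, d423] [(1, 6), (0, 1)]))))))))))
def t7_21 : Tr := .ct ⟨650968, -4143480, 2064599⟩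
 (.ct ⟨-651030, 4143470, -2061599⟩
 (.lf [d201, d332, d423] [(10, 0), (0, 5), (1, 10), (5, 1)])
 (.ct ⟨643358, -4144668, 2065574⟩
 (.lf [d545, d321, d221, d423] [(11, 3), (3, 6), (6, 0)])
 (.ct ⟨708686, -4133999, 2007938⟩
 (.lf [d332, d545, d423] [(1, 7), (2, 0)])
 (.ct ⟨640677, -4145084, 2068299⟩
 (.ct ⟨-640676, 4145084, -2067293⟩
 (.lf [d434, d643, d221, d423] [(4, 0), (0, 3), (2, 1)])
 (.lf [d332, d545, d321, d221, d423] [(4, 3), (0, 4)]))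
 (.ct ⟨640664, -4145086, 2069042⟩
 (.lf [d545, d643, d221, d423] [(4, 1), (0, 4), (2, 0)])
 (.ct ⟨-642565, 4144792, -2067917⟩
 (.ct ⟨642564, -4144792, 2069295⟩
 (.lf [d412, d221, d321, d221, d423] [(6, 1), (0, 6), (1, 4)])
 (.lf [d212, d656, d423] [(0, 4), (6, 0)]))
 (.ct ⟨640662, -4145086, 2069335⟩
 (.lf [d332, d545, d643, d221, d423] [(6, 2), (0, 6), (4, 0)])
 (.ct ⟨640657, -4145087, 2069592⟩
 (.lf [d212, d656, d643, d221, d423] [(7, 1), (5, 0)])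
 (.lf [d212, d656, d423] [(0, 5), (2, 0)])))))))))
 (.ct ⟨-651655, 4143372, -2066061⟩
 (.lf [d312, d312, d332, d423] [(10, 0), (0, 5), (3, 10), (14, 3)])
 (.ct ⟨650966, -4143480, 2066092⟩
 (.lf [d545, d201, d332, d423] [(11, 2), (2, 6), (0, 11)])
 (.ct ⟨-651652, 4143372, -2065436⟩
 (.lf [d312, d312, d312, d332, d423] [(0, 7), (1, 0), (2, 12), (7, 2)])
 (.lf [d323, d545, d201, d332, d423] [(0, 1), (7, 0), (1, 7)]))))
def t7_22 : Tr := .ct ⟨689539, -4137236, 2068614⟩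
 (.ct ⟨652130, -4143297, 2094227⟩
 (.lf [d332, d423] [(5, 3), (1, 5), (3, 0), (0, 1)])
 (.ct ⟨651931, -4143329, 2094803⟩
 (.lf [d332, d312, d332, d423] [(2, 1), (0, 2), (4, 0)])
 (.ct ⟨-632874, 4146282, -2108088⟩
 (.lf [d423, d332, d312, d221, d423] [(0, 1), (1, 5), (3, 0)])
 (.ct ⟨-4142665, -656132, 2891143⟩
 (.zn 5 [(1, 4), (4, 2), (2, 0), (0, 1)])
 (.lf [d332, d423, d423, d332, d423] [(2, 1), (1, 0)])))))
 (.ct ⟨-652018, 4143315, -2092151⟩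
 (.ct ⟨652018, -4143315, 2094303⟩
 (.lf [d312, d221, d312, d332, d423] [(12, 1), (1, 2), (2, 0), (0, 12)])
 (.ct ⟨656064, -4142676, 2093017⟩
 (.ct ⟨-656064, 4142676, -2092006⟩
 (.lf [d423, d221, d432, d332, d423] [(0, 4), (2, 0), (1, 14)])
 (.ct ⟨651931, -4143329, 2094803⟩
 (.lf [d332, d312, d332, d423] [(1, 3), (0, 1), (5, 0)])
 (.ct ⟨632874, -4146282, 2107994⟩
 (.lf [d332, d312, d221, d423] [(2, 1), (0, 2), (6, 0)])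
 (.ct ⟨4142667, 656124, -2865369⟩
 (.zn 5 [(3, 0), (1, 7), (7, 3)])
 (.lf [d332, d423, d423, d221, d423] [(1, 0), (0, 3)])))))
 (.ct ⟨-652013, 4143316, -2094824⟩
 (.lf [d423, d221, d312, d332, d423] [(0, 1), (1, 5), (14, 0)])
 (.ct ⟨651931, -4143329, 2094803⟩
 (.lf [d332, d312, d332, d423] [(15, 2), (0, 15), (2, 0)])
 (.ct ⟨632285, -4146372, 2103061⟩
 (.lf [d545, d312, d221, d423] [(16, 1), (0, 2)])
 (.lf [d201, d212] [(3, 2), (2, 0)]))))))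
 (.ct ⟨642333, -4144827, 2096090⟩
 (.lf [d434, d432, d221, d423] [(12, 6), (2, 0), (0, 1)])
 (.ct ⟨-651969, 4143323, -2090695⟩
 (.lf [d321, d221, d312, d332, d423] [(0, 3), (1, 0), (3, 2)])
 (.lf [d545, d312, d221, d423] [(0, 1), (3, 0)]))))
def t7_23 : Tr := .ct ⟨651674, -4143369, 2090279⟩
 (.ct ⟨-651712, 4143363, -2068514⟩
 (.lf [d312, d332, d423] [(7, 0), (0, 11), (1, 7), (11, 1)])
 (.ct ⟨643356, -4144669, 2063787⟩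
 (.ct ⟨-643266, 4144683, -2047979⟩
 (.lf [d321, d221, d423] [(0, 4), (9, 0), (1, 9), (4, 1)])
 (t7_20))
 (t7_21)))
 (.ct ⟨633309, -4146216, 2125681⟩
 (.ct ⟨-633367, 4146207, -2108295⟩
 (.lf [d423, d221, d423] [(8, 0), (1, 8), (0, 2)])
 (.ct ⟨-652149, 4143294, -2095082⟩
 (.lf [d423, d332, d423] [(9, 0), (0, 1), (1, 9)])
 (t7_22)))
 (.ct ⟨-659967, 4142056, -2111974⟩
 (.ct ⟨659313, -4142160, 2134696⟩
 (.lf [d221, d332, d423] [(2, 1), (5, 0), (0, 9)])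
 (.lf [d221, d221, d423] [(9, 0), (5, 9)]))
 (.ct ⟨648119, -4143927, 2118325⟩
 (.ct ⟨-648112, 4143928, -2112849⟩
 (.lf [d412, d221, d221, d423] [(0, 14), (3, 0), (14, 1)])
 (.ct ⟨633308, -4146216, 2127128⟩
 (.lf [d545, d423, d221, d423] [(4, 15), (1, 4), (0, 1)])
 (.ct ⟨-633709, 4146155, -2126911⟩
 (.ct ⟨633709, -4146155, 2128706⟩
 (.lf [d312, d332, d423, d221, d423] [(1, 17), (3, 1), (17, 0), (0, 3)])
 (.lf [d221, d423] [(0, 17), (3, 0), (17, 3)]))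
 (.lf [d332, d545, d423, d221, d423] [(1, 16), (16, 0)]))))
 (.ct ⟨652435, -4143249, 2117984⟩
 (.ct ⟨-652454, 4143246, -2113579⟩
 (.lf [d534, d332, d423] [(2, 0), (0, 15), (1, 3)])
 (.lf [d534, d443, d423] [(2, 15), (0, 2)]))
 (.ct ⟨-659455, 4142138, -2110753⟩
 (.lf [d312, d221, d332, d423] [(0, 15), (15, 3), (1, 0)])
 (.lf [d534, d221, d423] [(0, 1), (15, 0)]))))))
def t7_24 : Tr := .ct ⟨1438500, -3939912, 1738965⟩
 (.ct ⟨-1445909, 3937199, -1686898⟩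
 (.lf [d201, d212] [(2, 0), (0, 10), (10, 1), (4, 2)])
 (.ct ⟨-1441985, 3938637, -1682321⟩
 (.lf [d323, d201, d212] [(3, 0), (0, 11), (11, 1)])
 (.lf [d434, d412, d212] [(3, 11), (11, 0), (0, 3)])))
 (.ct ⟨-1412523, 3949299, -1811301⟩
 (.lf [d312, d212] [(0, 10), (10, 6), (4, 0)])
 (.ct ⟨-1380609, 3960569, -1824148⟩
 (.lf [d212, d523, d212] [(5, 0), (11, 1)])
 (.ct ⟨1438548, -3939894, 1747909⟩
 (.lf [d545, d201, d212] [(3, 12), (6, 3), (12, 0)])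
 (.ct ⟨-1382407, 3959942, -1808746⟩
 (.ct ⟨1382310, -3959975, 1818173⟩
 (.lf [d221, d221, d412, d212] [(8, 1), (1, 2), (2, 0), (0, 8)])
 (.ct ⟨-1382310, 3959975, -1818561⟩
 (.lf [d221, d221, d412, d212] [(9, 0), (0, 3), (4, 9)])
 (.lf [d212, d332, d412, d212] [(1, 3), (0, 9)])))
 (.ct ⟨-1383251, 3959647, -1801514⟩
 (.lf [d221, d332, d412, d212] [(8, 0), (0, 2), (1, 8)])
 (.ct ⟨-1381843, 3960138, -1796400⟩
 (.ct ⟨1381848, -3960137, 1801355⟩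
 (.lf [d432, d221, d412, d212] [(1, 4), (10, 1), (4, 0)])
 (.lf [d221, d443, d412, d212] [(0, 4), (2, 10)]))
 (.ct ⟨-1382596, 3959876, -1791115⟩
 (.lf [d312, d332, d412, d212] [(0, 4), (10, 0), (1, 10)])
 (.lf [d321, d221, d412, d212] [(10, 4), (4, 0)]))))))))
def t7_25 : Tr := .ct ⟨1390953, -3956948, 1651737⟩
 (.ct ⟨-1390985, 3956936, -1643012⟩
 (.lf [d321, d221, d301, d212] [(2, 0), (0, 6), (6, 1)])
 (.ct ⟨605668, -4150344, 2333014⟩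
 (.lf [d221, d323, d656, d534] [(1, 3), (7, 0), (0, 1)])
 (.ct ⟨1372917, -3963242, 1656459⟩
 (.ct ⟨-1372906, 3963245, -1652674⟩
 (.lf [d545, d512, d212] [(0, 9), (2, 0), (9, 1), (1, 2)])
 (.ct ⟨-1372531, 3963375, -1650126⟩
 (.lf [d512, d212] [(0, 10), (3, 0), (10, 1), (1, 3)])
 (.lf [d434, d512, d212] [(3, 10), (10, 0), (0, 3)])))
 (.ct ⟨1372835, -3963270, 1658862⟩
 (.ct ⟨-1372835, 3963270, -1657564⟩
 (.lf [d221, d221, d545, d512, d212] [(3, 0), (0, 10), (10, 1), (1, 3)])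
 (.ct ⟨1372835, -3963270, 1657506⟩
 (.ct ⟨-1372835, 3963270, -1656592⟩
 (.lf [d221, d221, d545, d512, d212] [(5, 0), (0, 12), (12, 1), (1, 5)])
 (.lf [d323, d545, d512, d212] [(4, 12), (0, 5), (5, 4)]))
 (.lf [d332, d545, d512, d212] [(0, 11), (1, 4)])))
 (.ct ⟨1372792, -3963285, 1659772⟩
 (.ct ⟨-1372791, 3963285, -1658990⟩
 (.lf [d323, d656, d512, d212] [(0, 11), (4, 0), (11, 1)])
 (.lf [d212, d656, d512, d212] [(4, 2), (11, 0), (0, 4)]))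
 (.ct ⟨-1390717, 3957031, -1642822⟩
 (.lf [d212, d532, d221, d301, d212] [(4, 0), (11, 5)])
 (.lf [d221, d434, d656, d512, d212] [(4, 1), (11, 0)])))))))
 (.ct ⟨1391848, -3956633, 1656193⟩
 (.lf [d312, d332, d301, d212] [(1, 6), (0, 2)])
 (.lf [d312, d312, d221, d301, d212] [(2, 0), (3, 2), (6, 3)]))
def t7_26 : Tr := .ct ⟨-1390716, 3957031, -1550134⟩
 (.ct ⟨1390716, -3957031, 1651218⟩
 (.zn 7 [(11, 0), (0, 2), (2, 1)])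
 (.ct ⟨-1391596, 3956722, -1669954⟩
 (.ct ⟨1391465, -3956768, 1681209⟩
 (.lf [d221, d221, d301, d212] [(4, 1), (1, 13), (13, 0), (0, 4)])
 (.ct ⟨-1391465, 3956768, -1681659⟩
 (.lf [d221, d221, d301, d212] [(5, 0), (0, 14), (7, 5)])
 (.lf [d423, d412, d212] [(5, 1), (14, 0)])))
 (.ct ⟨-1389774, 3957362, -1659142⟩
 (.ct ⟨1389764, -3957365, 1670209⟩
 (.lf [d312, d221, d301, d212] [(5, 1), (1, 14), (0, 5)])
 (.lf [d212, d443, d301, d212] [(0, 14), (2, 5)]))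
 (.ct ⟨1391848, -3956633, 1656193⟩
 (.lf [d312, d332, d301, d212] [(3, 14), (0, 5)])
 (.lf [d432, d221, d301, d212] [(5, 0), (1, 5)])))))
 (.ct ⟨-562155, 4156461, -2436060⟩
 (.ct ⟨562237, -4156450, 2466116⟩
 (.lf [d221, d221, d534] [(3, 1), (1, 12), (12, 0)])
 (.ct ⟨-543289, 4158969, -2497883⟩
 (.ct ⟨543885, -4158891, 2521468⟩
 (.lf [d212, d645] [(1, 14), (4, 1), (14, 0)])
 (.ct ⟨537508, -4159720, 2542983⟩
 (.lf [d323, d645] [(5, 1), (15, 0)])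
 (.ct ⟨534391, -4160122, 2555726⟩
 (.lf [d212, d434, d645] [(6, 1), (16, 0)])
 (.lf [d545, d645] [(6, 0), (16, 6)]))))
 (.ct ⟨558559, -4156946, 2479329⟩
 (.lf [d443, d221, d534] [(4, 2), (14, 0), (0, 4)])
 (.lf [d212, d221, d534] [(4, 0), (1, 4)]))))
 (.ct ⟨-562003, 4156482, -2413886⟩
 (.ct ⟨562155, -4156461, 2434910⟩
 (.lf [d221, d221, d534] [(1, 13), (4, 1), (13, 0), (0, 4)])
 (.lf [d332, d221, d534] [(4, 0), (13, 2)]))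
 (.lf [d221, d332, d534] [(3, 4), (0, 3)])))
def t7_27 : Tr := .ct ⟨543885, -4158891, 2521468⟩
 (.ct ⟨-543289, 4158969, -2497883⟩
 (.lf [d212, d645] [(0, 3), (5, 0), (3, 1)])
 (.ct ⟨558559, -4156946, 2479329⟩
 (.lf [d443, d221, d534] [(6, 3), (0, 6), (4, 0)])
 (.lf [d212, d212, d645] [(6, 0), (1, 6), (4, 1)])))
 (.ct ⟨537508, -4159720, 2542983⟩
 (.lf [d323, d645] [(5, 1), (3, 0)])
 (.ct ⟨534391, -4160122, 2555726⟩
 (.lf [d212, d434, d645] [(6, 1), (4, 0)])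
 (.ct ⟨-1391465, 3956768, -1681659⟩
 (.lf [d221, d221, d301, d212] [(1, 0), (0, 5), (7, 1)])
 (.ct ⟨-1391596, 3956722, -1669954⟩
 (.ct ⟨1391465, -3956768, 1681209⟩
 (.lf [d221, d221, d301, d212] [(3, 1), (1, 7), (7, 0), (0, 3)])
 (.lf [d423, d412, d212] [(3, 0), (7, 2)]))
 (.ct ⟨-1389774, 3957362, -1659142⟩
 (.ct ⟨1389764, -3957365, 1670209⟩
 (.lf [d312, d221, d301, d212] [(4, 1), (1, 8), (0, 4)])
 (.lf [d212, d443, d301, d212] [(0, 8), (2, 4)]))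
 (.ct ⟨531457, -4160497, 2563387⟩
 (.lf [d545, d645] [(1, 4), (8, 0), (0, 1)])
 (.ct ⟨1390953, -3956948, 1651737⟩
 (.ct ⟨-1390985, 3956936, -1643012⟩
 (.lf [d321, d221, d301, d212] [(2, 0), (0, 10), (10, 1)])
 (.ct ⟨530450, -4160626, 2568736⟩
 (.lf [d221, d221, d545, d645] [(1, 3), (11, 0), (0, 1)])
 (.lf [d323, d656, d645] [(1, 0), (11, 1)])))
 (.ct ⟨1391848, -3956633, 1656193⟩
 (.lf [d312, d332, d301, d212] [(1, 10), (0, 2)])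
 (.lf [d432, d221, d301, d212] [(2, 0), (3, 2)])))))))))
def t7_28 : Tr := .ct ⟨605528, -4150364, 2365034⟩
 (.ct ⟨-605528, 4150364, -2325366⟩
 (.ct ⟨4150364, 605528, -3425642⟩
 (.zn 6 [(10, 2), (0, 1)])
 (.ct ⟨-1391465, 3956768, -1681659⟩
 (.ct ⟨1391477, -3956764, 1693216⟩
 (.lf [d221, d221, d301, d212] [(3, 1), (1, 4), (4, 0)])
 (.lf [d212, d412, d212] [(3, 0), (5, 3), (4, 5)]))
 (.ct ⟨-1391596, 3956722, -1669954⟩
 (.ct ⟨1391465, -3956768, 1681209⟩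
 (.lf [d221, d221, d301, d212] [(4, 1), (1, 5), (5, 0), (0, 4)])
 (.lf [d212, d332, d301, d212] [(0, 5), (2, 4)]))
 (.ct ⟨-1389774, 3957362, -1659142⟩
 (.ct ⟨1389764, -3957365, 1670209⟩
 (.lf [d312, d221, d301, d212] [(5, 1), (1, 4), (0, 5)])
 (.lf [d221, d332, d301, d212] [(0, 6), (2, 5)]))
 (.ct ⟨606442, -4150231, 2330289⟩
 (.ct ⟨-606440, 4150231, -2325189⟩
 (.lf [d221, d221, d545, d534] [(2, 0), (0, 5), (5, 1), (1, 2)])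
 (.lf [d212, d545, d534] [(6, 5), (0, 2)]))
 (t7_25))))))
 (.ct ⟨607755, -4150039, 2323642⟩
 (.lf [d545, d534] [(3, 4), (4, 10), (10, 1), (0, 3)])
 (.lf [d212, d545, d534] [(0, 1), (1, 3), (3, 0)])))
 (.ct ⟨3957031, 1390716, -4592941⟩
 (t7_26)
 (.ct ⟨562237, -4156450, 2466116⟩
 (.ct ⟨-562155, 4156461, -2436060⟩
 (.lf [d221, d221, d534] [(4, 0), (0, 2), (2, 1)])
 (.ct ⟨570586, -4155312, 2418003⟩
 (.ct ⟨-571077, 4155245, -2398592⟩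
 (.lf [d221, d332, d534] [(6, 0), (4, 1), (1, 6)])
 (.ct ⟨-570692, 4155297, -2397338⟩
 (.lf [d312, d221, d332, d534] [(0, 6), (6, 1), (7, 0)])
 (.ct ⟨565411, -4156019, 2400890⟩
 (.ct ⟨-565366, 4156025, -2398781⟩
 (.lf [d534, d332, d534] [(0, 8), (9, 0), (1, 9)])
 (.lf [d534, d443, d534] [(9, 8), (0, 9)]))
 (.ct ⟨-570560, 4155316, -2396358⟩
 (.lf [d212, d523, d221, d332, d534] [(1, 0), (8, 2)])
 (.lf [d434, d534, d332, d534] [(0, 1), (8, 0), (1, 8)])))))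
 (.lf [d221, d443, d534] [(0, 3), (1, 5)])))
 (t7_27)))
def t7_29 : Tr := .ct ⟨709079, -4133932, 1985418⟩
 (.ct ⟨-700903, 4135326, -1787306⟩
 (.lf [d423] [(0, 6), (5, 0), (6, 1), (1, 2)])
 (.ct ⟨850610, -4107146, 1550936⟩
 (.lf [d545, d312] [(6, 5), (5, 7), (7, 0)])
 (.ct ⟨758001, -4125242, 1673550⟩
 (.ct ⟨-758418, 4125165, -1643243⟩
 (.lf [d321, d221, d312] [(8, 0), (9, 1), (1, 8)])
 (.ct ⟨848067, -4107672, 1562614⟩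
 (.ct ⟨-848062, 4107673, -1555482⟩
 (.lf [d221, d221, d545, d312] [(10, 0), (0, 2), (2, 1)])
 (.ct ⟨848062, -4107673, 1555205⟩
 (.lf [d221, d221, d545, d312] [(11, 5), (0, 11), (3, 0)])
 (.lf [d332, d545, d312] [(0, 3), (1, 11)])))
 (t7_17)))
 (.ct ⟨742751, -4128015, 1725648⟩
 (.ct ⟨-742870, 4127993, -1686938⟩
 (.lf [d312, d221, d312] [(9, 0), (0, 2), (1, 9)])
 (.ct ⟨-745865, 4127453, -1679039⟩
 (.ct ⟨745822, -4127461, 1684965⟩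
 (.lf [d523, d221, d312] [(11, 1), (0, 11), (1, 4)])
 (.lf [d312, d312, d221, d312] [(11, 0), (2, 11), (0, 2)]))
 (.lf [d212, d523, d221, d312] [(10, 3), (3, 0), (0, 10)])))
 (t7_18)))))
 (.ct ⟨607622, -4150058, 2308959⟩
 (.ct ⟨-601585, 4150937, -2235896⟩
 (.lf [d534] [(0, 7), (7, 1), (3, 0)])
 (.ct ⟨-626764, 4147210, -2160460⟩
 (.ct ⟨623744, -4147666, 2212216⟩
 (.lf [d212, d534] [(5, 1), (1, 9), (2, 0), (0, 5), (9, 2)])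
 (.lf [d212, d221, d423] [(0, 2), (2, 5)]))
 (.ct ⟨709260, -4133901, 2002468⟩
 (.lf [d545, d423] [(5, 4), (4, 9), (9, 0)])
 (t7_23))))
 (.ct ⟨-1386485, 3958516, -1697946⟩
 (.ct ⟨1387128, -3958290, 1752692⟩
 (.lf [d412, d212] [(1, 8), (8, 0), (2, 1)])
 (t7_24))
 (t7_28)))
def t7_30 : Tr := .ct ⟨850352, -4107200, 1530629⟩
 (.ct ⟨-838693, 4109596, -1160196⟩
 (.ct ⟨-308614, 4182935, -1336489⟩
 (.lf [d312] [(1, 4), (0, 1), (4, 2), (3, 0)])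
 (.ct ⟨-841480, 4109026, -1189697⟩
 (.lf [d312] [(1, 4), (4, 0), (0, 1)])
 (.ct ⟨841480, -4109026, 1186274⟩
 (.lf [d312] [(3, 2), (0, 5), (5, 3)])
 (.lf [d312, d221, d201] [(0, 2), (1, 5)]))))
 (.ct ⟨-611244, 4149526, -714127⟩
 (t7_9)
 (.ct ⟨-1119692, 4042088, -186620⟩
 (.ct ⟨474161, -4167416, 705763⟩
 (.ct ⟨-1041762, 4062871, -225719⟩
 (.lf [d201] [(2, 1), (1, 6), (8, 0), (0, 2), (6, 8)])
 (.lf [d301] [(8, 2), (2, 0), (0, 8)]))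
 (t7_10))
 (t7_12))))
 (.ct ⟨-1386905, 3958368, -2177223⟩
 (.ct ⟨1397411, -3954672, 2515335⟩
 (.ct ⟨-1481541, 3923929, -2099777⟩
 (.lf [d212] [(4, 2), (2, 0), (0, 5), (5, 7), (7, 1)])
 (.ct ⟨707274, -4134241, 3043088⟩
 (.lf [d212] [(1, 3), (3, 6), (6, 0), (0, 1)])
 (.lf [d323] [(0, 6), (6, 1), (1, 0)])))
 (.ct ⟨1059597, -4058256, 2966867⟩
 (.ct ⟨-1053390, 4059871, -2707047⟩
 (.ct ⟨-1108693, 4045119, -2680037⟩
 (.lf [d323] [(6, 1), (1, 0), (0, 3), (3, 9), (9, 2)])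
 (.lf [d323] [(0, 1), (1, 3), (3, 0)]))
 (.ct ⟨384795, -4176616, 2946475⟩
 (.lf [d323] [(6, 3), (0, 1), (1, 6), (3, 0)])
 (.lf [d221, d212] [(0, 3), (1, 0)])))
 (.ct ⟨850352, -4107200, 3231333⟩
 (.ct ⟨-882103, 4100498, -3014407⟩
 (.ct ⟨-846302, 4108036, -3021167⟩
 (.lf [d434] [(7, 0), (0, 1), (1, 3), (3, 10), (10, 2)])
 (.lf [d221, d323] [(1, 0), (0, 7)]))
 (.lf [d221, d323] [(6, 2), (0, 6)]))
 (.ct ⟨-735175, 4129371, -3269324⟩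
 (.lf [d212, d545] [(6, 0), (9, 6), (1, 9)])
 (.lf [d332, d434] [(6, 1), (0, 6)])))))
 (.ct ⟨-1500638, 3916666, -1750749⟩
 (t7_13)
 (t7_29)))

/-- The tree. -/
def T : Tr := t7_30

theorem chk_T : chk P B T = true := by decide +kernel

theorem ins_S : ins P [⟨1, 0, 0⟩, ⟨-6, 0, 1⟩, ⟨10, 5, -4⟩, ⟨0, -5, 4⟩] [(2, 1), (1, 3), (3, 2)] = true := by decide +kernel

end Pool.Agent.D7.C7
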