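import Pool.Agent.Lib.D7.Word

/-!
# The checker of the certificate
-/

set_option autoImplicit false

namespace Pool.Agent.D7

open Pool.Agent.D6

/-- The negative of a form. -/
def Fm.neg (f : Fm) : Fm := ⟨-f.a, -f.b, -f.c⟩

/-- The composition with the pull-back. -/
def cmp (b : Fm) (p : Fm × Fm) : Fm :=
  ⟨b.a * p.1.a + b.b * p.2.a, b.a * p.1.b + b.b * p.2.b, b.a * p.1.c + b.b * p.2.c + b.c⟩

theorem neg_ev (f : Fm) (κ θ : ℝ) : f.neg.ev κ θ = - f.ev κ θ := by
  simp only [Fm.neg, Fm.ev]; push_cast; ring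

theorem cmp_ev (b : Fm) (l : List Dg) (κ θ : ℝ) :
    (cmp b (pf l)).ev κ θ = b.ev (pk l κ θ) (pt l κ θ) := by
  simp only [cmp, Fm.ev, pk, pt]; push_cast; ring

/-- The constants of a certificate. -/
structure Pm where
  sn : ℤ
  sd : ℤ
  N : ℕ
  γ : ℤ
  lo : ℤ
  hi : ℤ
  B : List Fm
  Z : List (List Fm)

/-- The region of the functionals. -/
def InK (P : Pm) (κ θ : ℝ) : Prop :=
  (∀ b ∈ P.B, 0 ≤ Fm.ev b κ θ) ∧ ∀ z ∈ P.Z, ∃ e ∈ z, Fm.ev e κ θ ≤ 0

/-- The constant form. -/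
def one : Fm := ⟨0, 0, 1⟩

/-- `f` is a nonnegative combination of `h1`, `h2` and a nonnegative constant. -/
def fk (h1 h2 f : Fm) : Bool :=
  decide (0 < h1.a * h2.b - h2.a * h1.b) && decide (0 ≤ f.a * h2.b - h2.a * f.b) &&
    decide (0 ≤ h1.a * f.b - f.a * h1.b) &&
    decide ((f.a * h2.b - h2.a * f.b) * h1.c + (h1.a * f.b - f.a * h1.b) * h2.c ≤
      (h1.a * h2.b - h2.a * h1.b) * f.c)

/-- The same with a positive constant. -/
def fks (h1 h2 f : Fm) : Bool :=
  decide (0 < h1.a * h2.b - h2.a * h1.b) && decide (0 ≤ f.a * h2.b - h2.a * f.b) &&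
    decide (0 ≤ h1.a * f.b - f.a * h1.b) &&
    decide ((f.a * h2.b - h2.a * f.b) * h1.c + (h1.a * f.b - f.a * h1.b) * h2.c <
      (h1.a * h2.b - h2.a * h1.b) * f.c)

theorem fk_sound {h1 h2 f : Fm} {κ θ : ℝ} (h : fk h1 h2 f = true) (p1 : 0 ≤ h1.ev κ θ)
    (p2 : 0 ≤ h2.ev κ θ) : 0 ≤ f.ev κ θ := by
  simp only [fk, Bool.and_eq_true, decide_eq_true_eq] at h
  obtain ⟨⟨⟨a1, a2⟩, a3⟩, a4⟩ := h
  have b1 : (0 : ℝ) < h1.a * h2.b - h2.a * h1.b := by exact_mod_cast a1
  have b2 : (0 : ℝ) ≤ f.a * h2.b - h2.a * f.b := by exact_mod_cast a2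
  have b3 : (0 : ℝ) ≤ h1.a * f.b - f.a * h1.b := by exact_mod_cast a3
  have b4 : ((f.a : ℝ) * h2.b - h2.a * f.b) * h1.c + (h1.a * f.b - f.a * h1.b) * h2.c ≤
      (h1.a * h2.b - h2.a * h1.b) * f.c := by exact_mod_cast a4
  have c1 := mul_nonneg b2 p1
  have c2 := mul_nonneg b3 p2
  have key : 0 ≤ ((h1.a : ℝ) * h2.b - h2.a * h1.b) * f.ev κ θ := by
    unfold Fm.ev at c1 c2 ⊢
    linarith
  exact nonneg_of_mul_nonneg_right key b1

theorem fks_sound {h1 h2 f : Fm} {κ θ : ℝ} (h : fks h1 h2 f = true) (p1 : 0 ≤ h1.ev κ θ)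
    (p2 : 0 ≤ h2.ev κ θ) : 0 < f.ev κ θ := by
  simp only [fks, Bool.and_eq_true, decide_eq_true_eq] at h
  obtain ⟨⟨⟨a1, a2⟩, a3⟩, a4⟩ := h
  have b1 : (0 : ℝ) < h1.a * h2.b - h2.a * h1.b := by exact_mod_cast a1
  have b2 : (0 : ℝ) ≤ f.a * h2.b - h2.a * f.b := by exact_mod_cast a2
  have b3 : (0 : ℝ) ≤ h1.a * f.b - f.a * h1.b := by exact_mod_cast a3
  have b4 : ((f.a : ℝ) * h2.b - h2.a * f.b) * h1.c + (h1.a * f.b - f.a * h1.b) * h2.c <
      (h1.a * h2.b - h2.a * h1.b) * f.c := by exact_mod_cast a4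
  have c1 := mul_nonneg b2 p1
  have c2 := mul_nonneg b3 p2
  have key : 0 < ((h1.a : ℝ) * h2.b - h2.a * h1.b) * f.ev κ θ := by
    unfold Fm.ev at c1 c2 ⊢
    linarith
  exact (pos_iff_pos_of_mul_pos key).1 b1

/-- The form `f` is nonnegative on the cell `hs`. -/
def okf (hs : List Fm) (ps : List (ℕ × ℕ)) (f : Fm) : Bool :=
  ps.any fun p => fk (hs.getD p.1 one) (hs.getD p.2 one) f

/-- The form `f` is positive on the cell `hs`. -/
def oks (hs : List Fm) (ps : List (ℕ × ℕ)) (f : Fm) : Bool :=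
  ps.any fun p => fks (hs.getD p.1 one) (hs.getD p.2 one) f

theorem getD_nonneg {hs : List Fm} {κ θ : ℝ} (h : ∀ f ∈ hs, 0 ≤ Fm.ev f κ θ) (i : ℕ) :
    0 ≤ (hs.getD i one).ev κ θ := by
  rcases Nat.lt_or_ge i hs.length with h1 | h1
  · rw [List.getD_eq_getElem _ _ h1]
    exact h _ (List.getElem_mem h1)
  · rw [List.getD_eq_default _ _ h1]
    simp [one, Fm.ev]

theorem okf_sound {hs : List Fm} {ps : List (ℕ × ℕ)} {f : Fm} {κ θ : ℝ}
    (h : ∀ f ∈ hs, 0 ≤ Fm.ev f κ θ) (hk : okf hs ps f = true) : 0 ≤ f.ev κ θ := by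
  simp only [okf, List.any_eq_true] at hk
  obtain ⟨p, _, hp⟩ := hk
  exact fk_sound hp (getD_nonneg h _) (getD_nonneg h _)

theorem oks_sound {hs : List Fm} {ps : List (ℕ × ℕ)} {f : Fm} {κ θ : ℝ}
    (h : ∀ f ∈ hs, 0 ≤ Fm.ev f κ θ) (hk : oks hs ps f = true) : 0 < f.ev κ θ := by
  simp only [oks, List.any_eq_true] at hk
  obtain ⟨p, _, hp⟩ := hk
  exact fks_sound hp (getD_nonneg h _) (getD_nonneg h _)

/-- The set where all the forms of `z` are positive does not meet the cell `hs`. -/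
def sep (hs z : List Fm) : Bool :=
  hs.any fun h => z.any fun e => z.any fun e' => fks e e' h.neg

theorem sep_sound {hs z : List Fm} {κ θ : ℝ} (h : ∀ f ∈ hs, 0 ≤ Fm.ev f κ θ)
    (hk : sep hs z = true) : ∃ e ∈ z, Fm.ev e κ θ ≤ 0 := by
  by_contra hcon
  push Not at hcon
  simp only [sep, List.any_eq_true] at hk
  obtain ⟨f, hf, e, he, e', he', hp⟩ := hk
  have h1 := fks_sound hp (hcon e he).le (hcon e' he').le
  rw [neg_ev] at h1
  linarith [h f hf]

/-- Valid digits, decidably. -/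
def okd (N : ℕ) (d : Dg) : Bool :=
  decide (2 ≤ d.n) && decide (d.n ≤ N) && decide (d.j ≤ d.n) && decide (d.i ≤ d.n) &&
    (decide (d.i = d.j + 1) || decide (d.j = d.i + 1))

theorem okd_sound {N : ℕ} {d : Dg} (h : okd N d = true) : d.Ok N := by
  simp only [okd, Bool.and_eq_true, Bool.or_eq_true, decide_eq_true_eq] at h
  obtain ⟨⟨⟨⟨a1, a2⟩, a3⟩, a4⟩, a5⟩ := h
  exact ⟨a1, a2, a3, a4, a5⟩

/-- The ray `(γ, lo)`. -/
def Pm.r (P : Pm) : ℤ × ℤ := (P.γ, P.lo)
/-- The ray `(γ, hi)`. -/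
def Pm.r' (P : Pm) : ℤ × ℤ := (P.γ, P.hi)

/-- The final ray is strictly inside the cone and has doubled. -/
def okr (P : Pm) (e : ℤ × ℤ) : Bool :=
  decide (P.lo * e.1 < P.γ * e.2) && decide (P.γ * e.2 < P.hi * e.1) && decide (2 * P.γ + 1 ≤ e.1)

/-- The static conditions of a word. -/
def okw (P : Pm) (l : List Dg) : Bool :=
  l.all (okd P.N) && mono P.γ l P.r && mono P.γ l P.r' && okr P (mrs l P.r) && okr P (mrs l P.r')

/-- The tree of cells. -/
inductive Tr
  | lf (l : List Dg) (ps : List (ℕ × ℕ))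
  | zn (k : ℕ) (ps : List (ℕ × ℕ))
  | ct (h : Fm) (p q : Tr)

/-- The words of a tree. -/
def Tr.words : Tr → List (List Dg)
  | .lf l _ => [l]
  | .zn _ _ => []
  | .ct _ p q => p.words ++ q.words

/-- The check of a leaf. -/
def chl (P : Pm) (hs : List Fm) (l : List Dg) (ps : List (ℕ × ℕ)) : Bool :=
  okw P l && (fs P.sn P.sd l P.r P.r').all (okf hs ps) &&
    P.B.all (fun b => okf hs ps (cmp b (pf l))) &&
    P.Z.all (fun z => (z.any fun e => okf hs ps (cmp e (pf l)).neg) ||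
      sep hs (z.map fun e => cmp e (pf l)))

/-- The check of a zone cell. -/
def chz (P : Pm) (hs : List Fm) (k : ℕ) (ps : List (ℕ × ℕ)) : Bool :=
  match P.Z[k]? with
  | some z => z.all (oks hs ps)
  | none => false

/-- The check of a tree. -/
def chk (P : Pm) : List Fm → Tr → Bool
  | hs, .lf l ps => chl P hs l ps
  | hs, .zn k ps => chz P hs k ps
  | hs, .ct h p q => chk P (h :: hs) p && chk P (h.neg :: hs) q

theorem chk_sound (P : Pm) (T : Tr) : ∀ hs : List Fm, chk P hs T = true → ∀ κ θ : ℝ,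
    (∀ f ∈ hs, 0 ≤ Fm.ev f κ θ) → InK P κ θ → ∃ l ∈ T.words, okw P l = true ∧
      (∀ f ∈ fs P.sn P.sd l P.r P.r', 0 ≤ Fm.ev f κ θ) ∧ InK P (pk l κ θ) (pt l κ θ) := by
  induction T with
  | lf l ps =>
    intro hs h κ θ hh _
    simp only [chk, chl, Bool.and_eq_true] at h
    obtain ⟨⟨⟨h1, h2⟩, h3⟩, h4⟩ := h
    rw [List.all_eq_true] at h2 h3 h4
    refine ⟨l, by simp [Tr.words], h1, fun f hf => okf_sound hh (h2 f hf), ⟨?_, ?_⟩⟩
    · intro b hb
      rw [← cmp_ev]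
      exact okf_sound hh (h3 b hb)
    · intro z hz
      have := h4 z hz
      rw [Bool.or_eq_true] at this
      rcases this with this | this
      · rw [List.any_eq_true] at this
        obtain ⟨e, he, hk⟩ := this
        refine ⟨e, he, ?_⟩
        have := okf_sound hh hk
        rw [neg_ev, cmp_ev] at this
        linarith
      · obtain ⟨e, he, hk⟩ := sep_sound hh this
        rw [List.mem_map] at he
        obtain ⟨e', he', rfl⟩ := he
        refine ⟨e', he', ?_⟩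
        rw [cmp_ev] at hk
        exact hk
  | zn k ps =>
    intro hs h κ θ hh hK
    exfalso
    simp only [chk, chz] at h
    rcases hz : P.Z[k]? with _ | z
    · rw [hz] at h; simp at h
    · rw [hz] at h
      simp only [List.all_eq_true] at h
      obtain ⟨e, he, hle⟩ := hK.2 z (List.mem_of_getElem? hz)
      have := oks_sound hh (h e he)
      linarith
  | ct f p q ihp ihq =>
    intro hs h κ θ hh hK
    simp only [chk, Bool.and_eq_true] at h
    rcases le_total 0 (f.ev κ θ) with h1 | h1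
    · obtain ⟨l, hl, hr⟩ := ihp (f :: hs) h.1 κ θ (by
        intro g hg
        rcases List.mem_cons.1 hg with e | e
        · rw [e]; exact h1
        · exact hh g e) hK
      exact ⟨l, by simp [Tr.words, hl], hr⟩
    · obtain ⟨l, hl, hr⟩ := ihq (f.neg :: hs) h.2 κ θ (by
        intro g hg
        rcases List.mem_cons.1 hg with e | e
        · rw [e, neg_ev]; linarith
        · exact hh g e) hK
      exact ⟨l, by simp [Tr.words, hl], hr⟩

/-- The cell `hs` is inside the region. -/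
def ins (P : Pm) (hs : List Fm) (ps : List (ℕ × ℕ)) : Bool :=
  P.B.all (okf hs ps) && P.Z.all (fun z => (z.any fun e => okf hs ps e.neg) || sep hs z)

theorem ins_sound {P : Pm} {hs : List Fm} {ps : List (ℕ × ℕ)} {κ θ : ℝ}
    (h : ∀ f ∈ hs, 0 ≤ Fm.ev f κ θ) (hk : ins P hs ps = true) : InK P κ θ := by
  simp only [ins, Bool.and_eq_true, List.all_eq_true] at hk
  refine ⟨fun b hb => okf_sound h (hk.1 b hb), fun z hz => ?_⟩
  have := hk.2 z hz
  rw [Bool.or_eq_true] at this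
  rcases this with this | this
  · rw [List.any_eq_true] at this
    obtain ⟨e, he, hk⟩ := this
    refine ⟨e, he, ?_⟩
    have := okf_sound h hk
    rw [neg_ev] at this
    linarith
  · exact sep_sound h this

end Pool.Agent.D7
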