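import Pool.Agent.Lib.Q5dc.Defs

/-!
# MP_5dcbc3_ag: commuting nilpotent triples of 7 x 7 matrices

Definitions for the proof that all of them are limits of curvilinear ones.
-/

namespace Pool.Agent.Lib.D7

open Matrix

/-- commuting nilpotent triples -/
def CN {k n : Type*} [Field k] [Fintype n] [DecidableEq n] (T : Fin 3 → Matrix n n k) : Prop :=
  (∀ i j, T i * T j = T j * T i) ∧ ∀ i, IsNilpotent (T i)

/-- sum of the ranks of the powers -/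
noncomputable def rks {k n : Type*} [Field k] [Fintype n] [DecidableEq n] (M : Matrix n n k) : ℕ :=
  ∑ i ∈ Finset.range (Fintype.card n), (M ^ (i + 1)).rank

/-- the matrices which are polynomials without constant term in the matrices of `T` -/
def adj {k n : Type*} [Field k] [Fintype n] [DecidableEq n] (T : Fin 3 → Matrix n n k) :
    NonUnitalSubalgebra k (Matrix n n k) :=
  NonUnitalAlgebra.adjoin k (Set.range T)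

/-- a commuting nilpotent triple outside of the closure of the curvilinear ones such that some
polynomial in its matrices has ranks of powers `ρ`, and the sum of the ranks of the powers is never
greater for the polynomials in the matrices of another such triple -/
structure MaxR {k n : Type*} [Field k] [Fintype n] [DecidableEq n] (ρ : ℕ → ℕ)
    (T : Fin 3 → Matrix n n k) : Prop where
  cn : CN T
  ncl : ¬ Q5dc.Cl T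
  att : ∃ A ∈ adj T, ∀ i, (A ^ i).rank = ρ i
  max : ∀ T' : Fin 3 → Matrix n n k, CN T' → ¬ Q5dc.Cl T' → ∀ M ∈ adj T',
    rks M ≤ ∑ i ∈ Finset.range (Fintype.card n), ρ (i + 1)

/-- polynomial functions of one variable -/
def IsPoly {k : Type*} [Field k] (f : k → k) : Prop := ∃ p : Polynomial k, ∀ s, f s = p.eval s

/-- one-parameter families of triples, polynomial in the parameter -/
def PolyFam {k n : Type*} [Field k] (c : k → Fin 3 → Matrix n n k) : Prop :=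
  ∀ i x y, IsPoly fun s => c s i x y

/-- Jordan matrix of type `(7)` -/
def J7 (k : Type*) [Field k] : Matrix (Fin 7) (Fin 7) k :=
  !![0, 0, 0, 0, 0, 0, 0;
     1, 0, 0, 0, 0, 0, 0;
     0, 1, 0, 0, 0, 0, 0;
     0, 0, 1, 0, 0, 0, 0;
     0, 0, 0, 1, 0, 0, 0;
     0, 0, 0, 0, 1, 0, 0;
     0, 0, 0, 0, 0, 1, 0]

/-- Jordan matrix of type `(6, 1)` -/
def J61 (k : Type*) [Field k] : Matrix (Fin 7) (Fin 7) k :=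
  !![0, 0, 0, 0, 0, 0, 0;
     1, 0, 0, 0, 0, 0, 0;
     0, 1, 0, 0, 0, 0, 0;
     0, 0, 1, 0, 0, 0, 0;
     0, 0, 0, 1, 0, 0, 0;
     0, 0, 0, 0, 1, 0, 0;
     0, 0, 0, 0, 0, 0, 0]

/-- Jordan matrix of type `(5, 2)` -/
def J52 (k : Type*) [Field k] : Matrix (Fin 7) (Fin 7) k :=
  !![0, 0, 0, 0, 0, 0, 0;
     1, 0, 0, 0, 0, 0, 0;
     0, 1, 0, 0, 0, 0, 0;
     0, 0, 1, 0, 0, 0, 0;
     0, 0, 0, 1, 0, 0, 0;
     0, 0, 0, 0, 0, 0, 0;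
     0, 0, 0, 0, 0, 1, 0]

/-- Jordan matrix of type `(5, 1, 1)` -/
def J511 (k : Type*) [Field k] : Matrix (Fin 7) (Fin 7) k :=
  !![0, 0, 0, 0, 0, 0, 0;
     1, 0, 0, 0, 0, 0, 0;
     0, 1, 0, 0, 0, 0, 0;
     0, 0, 1, 0, 0, 0, 0;
     0, 0, 0, 1, 0, 0, 0;
     0, 0, 0, 0, 0, 0, 0;
     0, 0, 0, 0, 0, 0, 0]

/-- Jordan matrix of type `(4, 3)` -/
def J43 (k : Type*) [Field k] : Matrix (Fin 7) (Fin 7) k :=
  !![0, 0, 0, 0, 0, 0, 0;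
     1, 0, 0, 0, 0, 0, 0;
     0, 1, 0, 0, 0, 0, 0;
     0, 0, 1, 0, 0, 0, 0;
     0, 0, 0, 0, 0, 0, 0;
     0, 0, 0, 0, 1, 0, 0;
     0, 0, 0, 0, 0, 1, 0]

/-- Jordan matrix of type `(4, 2, 1)` -/
def J421 (k : Type*) [Field k] : Matrix (Fin 7) (Fin 7) k :=
  !![0, 0, 0, 0, 0, 0, 0;
     1, 0, 0, 0, 0, 0, 0;
     0, 1, 0, 0, 0, 0, 0;
     0, 0, 1, 0, 0, 0, 0;
     0, 0, 0, 0, 0, 0, 0;
     0, 0, 0, 0, 1, 0, 0;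
     0, 0, 0, 0, 0, 0, 0]

/-- Jordan matrix of type `(4, 1, 1, 1)` -/
def J4111 (k : Type*) [Field k] : Matrix (Fin 7) (Fin 7) k :=
  !![0, 0, 0, 0, 0, 0, 0;
     1, 0, 0, 0, 0, 0, 0;
     0, 1, 0, 0, 0, 0, 0;
     0, 0, 1, 0, 0, 0, 0;
     0, 0, 0, 0, 0, 0, 0;
     0, 0, 0, 0, 0, 0, 0;
     0, 0, 0, 0, 0, 0, 0]

/-- Jordan matrix of type `(3, 3, 1)` -/
def J331 (k : Type*) [Field k] : Matrix (Fin 7) (Fin 7) k :=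
  !![0, 0, 0, 0, 0, 0, 0;
     1, 0, 0, 0, 0, 0, 0;
     0, 1, 0, 0, 0, 0, 0;
     0, 0, 0, 0, 0, 0, 0;
     0, 0, 0, 1, 0, 0, 0;
     0, 0, 0, 0, 1, 0, 0;
     0, 0, 0, 0, 0, 0, 0]

/-- Jordan matrix of type `(3, 2, 2)` -/
def J322 (k : Type*) [Field k] : Matrix (Fin 7) (Fin 7) k :=
  !![0, 0, 0, 0, 0, 0, 0;
     1, 0, 0, 0, 0, 0, 0;
     0, 1, 0, 0, 0, 0, 0;
     0, 0, 0, 0, 0, 0, 0;
     0, 0, 0, 1, 0, 0, 0;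
     0, 0, 0, 0, 0, 0, 0;
     0, 0, 0, 0, 0, 1, 0]

/-- Jordan matrix of type `(3, 2, 1, 1)` -/
def J3211 (k : Type*) [Field k] : Matrix (Fin 7) (Fin 7) k :=
  !![0, 0, 0, 0, 0, 0, 0;
     1, 0, 0, 0, 0, 0, 0;
     0, 1, 0, 0, 0, 0, 0;
     0, 0, 0, 0, 0, 0, 0;
     0, 0, 0, 1, 0, 0, 0;
     0, 0, 0, 0, 0, 0, 0;
     0, 0, 0, 0, 0, 0, 0]

/-- Jordan matrix of type `(3, 1, 1, 1, 1)` -/
def J31111 (k : Type*) [Field k] : Matrix (Fin 7) (Fin 7) k :=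
  !![0, 0, 0, 0, 0, 0, 0;
     1, 0, 0, 0, 0, 0, 0;
     0, 1, 0, 0, 0, 0, 0;
     0, 0, 0, 0, 0, 0, 0;
     0, 0, 0, 0, 0, 0, 0;
     0, 0, 0, 0, 0, 0, 0;
     0, 0, 0, 0, 0, 0, 0]

/-- `v0 -> c u0, u0 -> b v5 (v0..v5 = 0..5, u0 = 6)` -/
def B61 {k : Type*} [Field k] (c b : k) : Matrix (Fin 7) (Fin 7) k :=
  !![0, 0, 0, 0, 0, 0, 0;
     0, 0, 0, 0, 0, 0, 0;
     0, 0, 0, 0, 0, 0, 0;
     0, 0, 0, 0, 0, 0, 0;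
     0, 0, 0, 0, 0, 0, 0;
     0, 0, 0, 0, 0, 0, b;
     c, 0, 0, 0, 0, 0, 0]

/-- `v0 -> c0 u0 + c1 u1, v1 -> c0 u1, u0 -> b0 v3 + b1 v4 + q1 u1, u1 -> b0 v4 (v0..v4 = 0..4, u0, u1 = 5, 6)` -/
def B52 {k : Type*} [Field k] (b0 b1 c0 c1 q1 : k) : Matrix (Fin 7) (Fin 7) k :=
  !![0, 0, 0, 0, 0, 0, 0;
     0, 0, 0, 0, 0, 0, 0;
     0, 0, 0, 0, 0, 0, 0;
     0, 0, 0, 0, 0, b0, 0;
     0, 0, 0, 0, 0, b1, b0;
     c0, 0, 0, 0, 0, 0, 0;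
     c1, c0, 0, 0, 0, q1, 0]

/-- `v0 -> c0 u0 + c1 u1 + c2 u2, ..., u0 -> b0 v1 + b1 v2 + b2 v3 + q1 u1 + q2 u2, ... (v0..v3 = 0..3, u0, u1, u2 = 4, 5, 6)` -/
def B43 {k : Type*} [Field k] (b0 b1 b2 c0 c1 c2 q1 q2 : k) : Matrix (Fin 7) (Fin 7) k :=
  !![0, 0, 0, 0, 0, 0, 0;
     0, 0, 0, 0, b0, 0, 0;
     0, 0, 0, 0, b1, b0, 0;
     0, 0, 0, 0, b2, b1, b0;
     c0, 0, 0, 0, 0, 0, 0;
     c1, c0, 0, 0, q1, 0, 0;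
     c2, c1, c0, 0, q2, q1, 0]

/-- `v0 -> al u0 + al1 u1 + om p, v1 -> al u1, u0 -> be v2 + be1 v3 + ga u1 + pi p, u1 -> be v3, p -> th v3 + et u1 (v0..v3 = 0..3, u0, u1 = 4, 5, p = 6)` -/
def B421 {k : Type*} [Field k] (al al1 om be be1 ga pi th et : k) : Matrix (Fin 7) (Fin 7) k :=
  !![0, 0, 0, 0, 0, 0, 0;
     0, 0, 0, 0, 0, 0, 0;
     0, 0, 0, 0, be, 0, 0;
     0, 0, 0, 0, be1, be, th;
     al, 0, 0, 0, 0, 0, 0;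
     al1, al, 0, 0, ga, 0, et;
     om, 0, 0, 0, pi, 0, 0]

/-- `v0 -> a00 v1 + a10 u1 + m00 v2 + m10 u2 + w0 p, u0 -> a01 v1 + a11 u1 + m01 v2 + m11 u2 + w1 p, v1 -> a00 v2 + a10 u2, u1 -> a01 v2 + a11 u2, p -> t0 v2 + t1 u2` (v0, v1, v2 = 0, 1, 2, u0, u1, u2 = 3, 4, 5, p = 6) -/
def B331 {k : Type*} [Field k] (a00 a01 a10 a11 m00 m01 m10 m11 t0 t1 w0 w1 : k) : Matrix (Fin 7) (Fin 7) k :=
  !![0, 0, 0, 0, 0, 0, 0;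
     a00, 0, 0, a01, 0, 0, 0;
     m00, a00, 0, m01, a01, 0, t0;
     0, 0, 0, 0, 0, 0, 0;
     a10, 0, 0, a11, 0, 0, 0;
     m10, a10, 0, m11, a11, 0, t1;
     w0, 0, 0, w1, 0, 0, 0]

/-- `v0 -> a0 u0 + a1 w0 + c0 u1 + c1 w1, v1 -> a0 u1 + a1 w1, u0 -> b0 v1 + d0 v2 + n00 u1 + n10 w1 + z00 u0 + z10 w0, w0 -> b1 v1 + d1 v2 + n01 u1 + n11 w1 + z01 u0 + z11 w0, u1 -> b0 v2 + z00 u1 + z10 w1, w1 -> b1 v2 + z01 u1 + z11 w1` (v0, v1, v2 = 0, 1, 2, u0, u1 = 3, 4, w0, w1 = 5, 6) -/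
def B322 {k : Type*} [Field k] (a0 a1 c0 c1 b0 b1 d0 d1 n00 n01 n10 n11 z00 z01 z10 z11 : k) : Matrix (Fin 7) (Fin 7) k :=
  !![0, 0, 0, 0, 0, 0, 0;
     0, 0, 0, b0, 0, b1, 0;
     0, 0, 0, d0, b0, d1, b1;
     a0, 0, 0, z00, 0, z01, 0;
     c0, a0, 0, n00, z00, n01, z01;
     a1, 0, 0, z10, 0, z11, 0;
     c1, a1, 0, n10, z10, n11, z11]

/-- `v0 -> al u0 + al1 u1 + w0 p + w1 q, v1 -> al u1, u0 -> be v1 + be1 v2 + ga u1 + p0 p + p1 q, u1 -> be v2, p -> t0 v2 + e0 u1 + n00 p + n10 q, q -> t1 v2 + e1 u1 + n01 p + n11 q` (v0, v1, v2 = 0, 1, 2, u0, u1 = 3, 4, p = 5, q = 6) -/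
def B3211 {k : Type*} [Field k] (al al1 w0 w1 be be1 ga p0 p1 t0 t1 e0 e1 n00 n01 n10 n11 : k) :
    Matrix (Fin 7) (Fin 7) k :=
  !![0, 0, 0, 0, 0, 0, 0;
     0, 0, 0, be, 0, 0, 0;
     0, 0, 0, be1, be, t0, t1;
     al, 0, 0, 0, 0, 0, 0;
     al1, al, 0, ga, 0, e0, e1;
     w0, 0, 0, p0, 0, n00, n01;
     w1, 0, 0, p1, 0, n10, n11]

/-- the algebra `k + R_1 + R_2` with `R_1 = <e1, e2, e3>`, `R_2 = <e4, e5, e6>`: `x_i e0 = e_i`,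
`x_i e_j = sum_l r (q, l) e_(4+l)` with `q` the number of the pair `ij` in `11, 12, 13, 22, 23, 33` -/
def Tq {k : Type*} [Field k] (r : Fin 6 × Fin 3 → k) : Fin 3 → Matrix (Fin 7) (Fin 7) k :=
  ![!![0, 0, 0, 0, 0, 0, 0;
     1, 0, 0, 0, 0, 0, 0;
     0, 0, 0, 0, 0, 0, 0;
     0, 0, 0, 0, 0, 0, 0;
     0, r (0, 0), r (1, 0), r (2, 0), 0, 0, 0;
     0, r (0, 1), r (1, 1), r (2, 1), 0, 0, 0;
     0, r (0, 2), r (1, 2), r (2, 2), 0, 0, 0],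
    !![0, 0, 0, 0, 0, 0, 0;
     0, 0, 0, 0, 0, 0, 0;
     1, 0, 0, 0, 0, 0, 0;
     0, 0, 0, 0, 0, 0, 0;
     0, r (1, 0), r (3, 0), r (4, 0), 0, 0, 0;
     0, r (1, 1), r (3, 1), r (4, 1), 0, 0, 0;
     0, r (1, 2), r (3, 2), r (4, 2), 0, 0, 0],
    !![0, 0, 0, 0, 0, 0, 0;
     0, 0, 0, 0, 0, 0, 0;
     0, 0, 0, 0, 0, 0, 0;
     1, 0, 0, 0, 0, 0, 0;
     0, r (2, 0), r (4, 0), r (5, 0), 0, 0, 0;
     0, r (2, 1), r (4, 1), r (5, 1), 0, 0, 0;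
     0, r (2, 2), r (4, 2), r (5, 2), 0, 0, 0]]

end Pool.Agent.Lib.D7
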