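import Pool.Agent.Lib.D7.Ex

/-!
# The recursion of the logarithms

`gG = lg u - lg z`, `gH = lg W - lg z`, `gZ = lg z`.  A digit `(n, j, i)` acts, up to bounded errors, by
`G' = (2n-j) G - H`, `H' = (i-j) G`, `Z' = Z + j G`.
-/

set_option autoImplicit false

namespace Pool.Agent.D7

open Pool.Agent.D6

noncomputable def gG (t : St) : ℝ := lg t.u - lg t.z
noncomputable def gH (t : St) : ℝ := lg t.W - lg t.z
noncomputable def gZ (t : St) : ℝ := lg t.z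

/-- The coefficient of `G`. -/
def Dg.a (d : Dg) : ℤ := 2 * d.n - d.j
/-- The sign. -/
def Dg.s (d : Dg) : ℤ := d.i - d.j

/-- The bound of the errors. -/
noncomputable def Er (N : ℕ) : ℝ := 2 * (N : ℝ) ^ 2 + 1

theorem Er_pos (N : ℕ) : 0 < Er N := by unfold Er; positivity

/-- One digit. -/
structure Est (d : Dg) (t t' : St) (E : ℝ) : Prop where
  g : |gG t' - (d.a * gG t - gH t)| ≤ E
  h : |gH t' - d.s * gG t| ≤ E
  z : |gZ t' - (gZ t + d.j * gG t)| ≤ E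

theorem Dg.Ok.s_abs {d : Dg} {N : ℕ} (hd : d.Ok N) : d.s = 1 ∨ d.s = -1 := by
  unfold Dg.s
  rcases hd.hs with e | e
  · left; rw [e]; push_cast; ring
  · right; rw [e]; push_cast; ring

theorem Dg.Ok.a_pos {d : Dg} {N : ℕ} (hd : d.Ok N) : 0 ≤ d.a ∧ d.a ≤ 2 * N := by
  unfold Dg.a
  have h1 := hd.hj
  have h2 := hd.hN
  constructor <;> omega

theorem est {t : St} (h : Inv t) {d : Dg} {N : ℕ} (hd : d.Ok N) : Est d t (nx d t) (Er N) := by
  have hn : 1 ≤ d.n := by have := hd.h2; omega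
  have hX := lg_X h d.n hn
  have sn := lg_size h d.n
  have sj := lg_size h d.j
  have si := lg_size h d.i
  have l2 := log2_le
  have l0 := log2_nonneg
  have cn : ((d.n : ℕ) : ℝ) ≤ N := by exact_mod_cast hd.hN
  have cj : ((d.j : ℕ) : ℝ) ≤ N := by
    have := hd.hj; have := hd.hN
    exact_mod_cast (by omega : d.j ≤ N)
  have ci : ((d.i : ℕ) : ℝ) ≤ N := by
    have := hd.hi; have := hd.hN
    exact_mod_cast (by omega : d.i ≤ N)
  have pn : (0 : ℝ) ≤ (d.n : ℕ) := Nat.cast_nonneg _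
  have pj : (0 : ℝ) ≤ (d.j : ℕ) := Nat.cast_nonneg _
  have pi : (0 : ℝ) ≤ (d.i : ℕ) := Nat.cast_nonneg _
  have qn : ((d.n : ℕ) : ℝ) ^ 2 ≤ (N : ℝ) ^ 2 := pow_le_pow_left₀ pn cn 2
  have qj : ((d.j : ℕ) : ℝ) ^ 2 ≤ (N : ℝ) ^ 2 := pow_le_pow_left₀ pj cj 2
  have qi : ((d.i : ℕ) : ℝ) ^ 2 ≤ (N : ℝ) ^ 2 := pow_le_pow_left₀ pi ci 2
  have zn : (0 : ℝ) ≤ (d.n : ℝ) ^ 2 := sq_nonneg _
  have zj : (0 : ℝ) ≤ (d.j : ℝ) ^ 2 := sq_nonneg _
  have zi : (0 : ℝ) ≤ (d.i : ℝ) ^ 2 := sq_nonneg _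
  have zN : (0 : ℝ) ≤ (N : ℝ) ^ 2 := sq_nonneg _
  have ea : ((d.a : ℤ) : ℝ) = 2 * d.n - d.j := by unfold Dg.a; push_cast; ring
  have es : ((d.s : ℤ) : ℝ) = d.i - d.j := by unfold Dg.s; push_cast; ring
  have r1 : gG t = lg t.u - lg t.z := rfl
  have r2 : gH t = lg t.W - lg t.z := rfl
  have r3 : gZ t = lg t.z := rfl
  have r4 : gG (nx d t) = lg (step (qq t d.n) t.W) - lg (qq t d.j) := rfl
  have r5 : gH (nx d t) = lg (qq t d.i) - lg (qq t d.j) := rfl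
  have r6 : gZ (nx d t) = lg (qq t d.j) := rfl
  rw [← r1] at sn sj si
  have m1 : ((2 : ℝ) * d.n - d.j) * gG t = 2 * ((d.n : ℝ) * gG t) - (d.j : ℝ) * gG t := by ring
  have m2 : ((d.i : ℝ) - d.j) * gG t = (d.i : ℝ) * gG t - (d.j : ℝ) * gG t := by ring
  refine ⟨?_, ?_, ?_⟩
  · rw [r4, r2, ea, m1, abs_le]
    unfold Er
    constructor <;> linarith [hX.1, hX.2, sn.1, sn.2, sj.1, sj.2]
  · rw [r5, es, m2, abs_le]
    unfold Er
    constructor <;> linarith [si.1, si.2, sj.1, sj.2]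
  · rw [r6, r3, abs_le]
    unfold Er
    constructor <;> linarith [sj.1, sj.2]

/-- The run of a word. -/
def run : List Dg → St → St
  | [], t => t
  | d :: l, t => run l (nx d t)

theorem run_append (l l' : List Dg) (t : St) : run (l ++ l') t = run l' (run l t) := by
  induction l generalizing t with
  | nil => rfl
  | cons d l ih => exact ih _

theorem inv_run {N : ℕ} (l : List Dg) (hl : ∀ d ∈ l, d.Ok N) {t : St} (h : Inv t) : Inv (run l t) := by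
  induction l generalizing t with
  | nil => exact h
  | cons d l ih =>
    exact ih (fun e he => hl e (List.mem_cons_of_mem _ he)) (inv_nx h (hl d (List.mem_cons_self)))

/-- The size conditions along a word. -/
def Wd (σ x g : ℝ) : List Dg → St → Prop
  | [], _ => True
  | d :: l, t => σ * gG t + x ≤ gZ t ∧ σ * d.n * gG t - (1 + σ) * gH t + x ≤ gZ t ∧ g ≤ gG t ∧
      Wd σ x g l (nx d t)

theorem Wd_mono {σ x g x' g' : ℝ} (hx : x' ≤ x) (hg : g' ≤ g) (l : List Dg) (t : St)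
    (h : Wd σ x g l t) : Wd σ x' g' l t := by
  induction l generalizing t with
  | nil => trivial
  | cons d l ih =>
    obtain ⟨h1, h2, h3, h4⟩ := h
    exact ⟨by linarith, by linarith, by linarith, ih _ h4⟩

theorem Wd_append {σ x g : ℝ} (l l' : List Dg) (t : St) :
    Wd σ x g (l ++ l') t ↔ Wd σ x g l t ∧ Wd σ x g l' (run l t) := by
  induction l generalizing t with
  | nil => simp [Wd, run]
  | cons d l ih =>
    simp only [List.cons_append, Wd, run, ih]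
    tauto

/-- An affine form. -/
structure Fm where
  a : ℤ
  b : ℤ
  c : ℤ

/-- The value of a form. -/
noncomputable def Fm.ev (f : Fm) (κ θ : ℝ) : ℝ := f.a * κ + f.b * θ + f.c

/-- The pull-back of the coordinates. -/
def pf : List Dg → Fm × Fm
  | [] => (⟨1, 0, 0⟩, ⟨0, 1, 0⟩)
  | d :: l => ((pf l).2, ⟨d.a * (pf l).2.a - d.s * (pf l).1.a, d.a * (pf l).2.b - d.s * (pf l).1.b,
      d.a * (pf l).2.c - d.s * (pf l).1.c - d.j⟩)

/-- The functional `Z + κ H - θ G`. -/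
noncomputable def Fn (κ θ : ℝ) (t : St) : ℝ := gZ t + κ * gH t - θ * gG t

/-- The pulled back `κ`. -/
noncomputable def pk (l : List Dg) (κ θ : ℝ) : ℝ := (pf l).1.ev κ θ
/-- The pulled back `θ`. -/
noncomputable def pt (l : List Dg) (κ θ : ℝ) : ℝ := (pf l).2.ev κ θ

theorem pk_nil (κ θ : ℝ) : pk [] κ θ = κ := by simp [pk, pf, Fm.ev]
theorem pt_nil (κ θ : ℝ) : pt [] κ θ = θ := by simp [pt, pf, Fm.ev]
theorem pk_cons (d : Dg) (l : List Dg) (κ θ : ℝ) : pk (d :: l) κ θ = pt l κ θ := rfl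
theorem pt_cons (d : Dg) (l : List Dg) (κ θ : ℝ) :
    pt (d :: l) κ θ = d.a * pt l κ θ - d.j - d.s * pk l κ θ := by
  simp only [pt, pk, pf, Fm.ev]
  push_cast
  ring

/-- The effect of a digit on a ray. -/
def mr (d : Dg) (r : ℤ × ℤ) : ℤ × ℤ := (d.a * r.1 - r.2, d.s * r.1)

/-- The effect of a word on a ray. -/
def mrs : List Dg → ℤ × ℤ → ℤ × ℤ
  | [], r => r
  | d :: l, r => mrs l (mr d r)

/-- The form of the first size condition, threshold `sn / sd`. -/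
def f1 (sn sd : ℤ) (p : Fm × Fm) (r : ℤ × ℤ) : Fm :=
  ⟨sd * (r.1 * p.2.a - r.2 * p.1.a), sd * (r.1 * p.2.b - r.2 * p.1.b),
    sd * (r.1 * p.2.c - r.2 * p.1.c) - sn * r.1⟩

/-- The form of the second size condition. -/
def f2 (sn sd : ℤ) (n : ℤ) (p : Fm × Fm) (r : ℤ × ℤ) : Fm :=
  ⟨sd * (r.1 * p.2.a - r.2 * p.1.a), sd * (r.1 * p.2.b - r.2 * p.1.b),
    sd * (r.1 * p.2.c - r.2 * p.1.c) - sn * n * r.1 + (sn + sd) * r.2⟩

/-- The forms of a word. -/
def fs (sn sd : ℤ) : List Dg → ℤ × ℤ → ℤ × ℤ → List Fm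
  | [], _, _ => []
  | d :: l, r, r' => f1 sn sd (pf (d :: l)) r :: f1 sn sd (pf (d :: l)) r' ::
      f2 sn sd d.n (pf (d :: l)) r :: f2 sn sd d.n (pf (d :: l)) r' :: fs sn sd l (mr d r) (mr d r')

/-- The rays stay beyond `γ` and below the diagonal. -/
def mono (γ : ℤ) : List Dg → ℤ × ℤ → Bool
  | [], r => decide (γ ≤ r.1) && decide (r.2 ≤ r.1)
  | d :: l, r => decide (γ ≤ r.1) && decide (r.2 ≤ r.1) && mono γ l (mr d r)

theorem f1_ev (sn sd : ℤ) (l : List Dg) (r : ℤ × ℤ) (κ θ : ℝ) :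
    (f1 sn sd (pf l) r).ev κ θ = sd * (r.1 * pt l κ θ - r.2 * pk l κ θ) - sn * r.1 := by
  simp only [f1, Fm.ev, pt, pk]
  push_cast
  ring

theorem f2_ev (sn sd n : ℤ) (l : List Dg) (r : ℤ × ℤ) (κ θ : ℝ) :
    (f2 sn sd n (pf l) r).ev κ θ =
      sd * (r.1 * pt l κ θ - r.2 * pk l κ θ) - sn * n * r.1 + (sn + sd) * r.2 := by
  simp only [f2, Fm.ev, pt, pk]
  push_cast
  ring

/-- The bound of the pulled back coordinates. -/
noncomputable def Kb (N : ℕ) (K0 : ℝ) : ℕ → ℝ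
  | 0 => K0
  | m + 1 => (2 * N + 1) * Kb N K0 m + N

theorem Kb_nonneg (N : ℕ) {K0 : ℝ} (h : 0 ≤ K0) (m : ℕ) : 0 ≤ Kb N K0 m := by
  induction m with
  | zero => exact h
  | succ m ih => rw [Kb]; positivity

theorem Kb_le (N : ℕ) {K0 : ℝ} (h : 0 ≤ K0) (m : ℕ) : Kb N K0 m ≤ Kb N K0 (m + 1) := by
  have := Kb_nonneg N h m
  rw [Kb]
  have h1 : (0 : ℝ) ≤ N := Nat.cast_nonneg _
  nlinarith

theorem pkt_bd {N : ℕ} {K0 : ℝ} (hK : 0 ≤ K0) (l : List Dg) (hl : ∀ d ∈ l, d.Ok N) {κ θ : ℝ}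
    (hκ : |κ| ≤ K0) (hθ : |θ| ≤ K0) :
    |pk l κ θ| ≤ Kb N K0 l.length ∧ |pt l κ θ| ≤ Kb N K0 l.length := by
  induction l with
  | nil => rw [pk_nil, pt_nil]; exact ⟨hκ, hθ⟩
  | cons d l ih =>
    obtain ⟨h1, h2⟩ := ih fun e he => hl e (List.mem_cons_of_mem _ he)
    have hd := hl d List.mem_cons_self
    rw [pk_cons, pt_cons, List.length_cons]
    refine ⟨h2.trans (Kb_le N hK _), ?_⟩
    rw [Kb]
    have ha := hd.a_pos
    have ha0 : (0 : ℝ) ≤ d.a := by exact_mod_cast ha.1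
    have ha1 : (d.a : ℝ) ≤ 2 * N := by exact_mod_cast ha.2
    have hj0 : (0 : ℝ) ≤ d.j := Nat.cast_nonneg _
    have hj1 : (d.j : ℝ) ≤ N := by
      have := hd.hj; have := hd.hN
      exact_mod_cast (by omega : d.j ≤ N)
    have hs : |((d.s : ℤ) : ℝ)| = 1 := by
      rcases hd.s_abs with e | e <;> rw [e] <;> simp
    have e1 : |(d.a : ℝ) * pt l κ θ| ≤ 2 * N * Kb N K0 l.length := by
      rw [abs_mul, abs_of_nonneg ha0]
      exact mul_le_mul ha1 h2 (abs_nonneg _) (by positivity)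
    have e2 : |(d.s : ℝ) * pk l κ θ| ≤ Kb N K0 l.length := by
      rw [abs_mul, hs, one_mul]; exact h1
    have e3 : |(d.j : ℝ)| ≤ N := by rw [abs_of_nonneg hj0]; exact hj1
    calc |(d.a : ℝ) * pt l κ θ - d.j - d.s * pk l κ θ|
        ≤ |(d.a : ℝ) * pt l κ θ| + |(d.j : ℝ)| + |(d.s : ℝ) * pk l κ θ| := by
          refine (abs_sub _ _).trans ?_
          gcongr
          exact abs_sub _ _
      _ ≤ (2 * N + 1) * Kb N K0 l.length + N := by linarith

/-- The functional after one digit. -/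
theorem Fn_step {d : Dg} {N : ℕ} (hd : d.Ok N) {t : St} (h : Inv t) (l : List Dg) (κ θ B : ℝ)
    (h1 : |pk l κ θ| ≤ B) (h2 : |pt l κ θ| ≤ B) :
    |Fn (pk l κ θ) (pt l κ θ) (nx d t) - Fn (pk (d :: l) κ θ) (pt (d :: l) κ θ) t| ≤
      Er N * (1 + 2 * B) := by
  obtain ⟨eg, eh, ez⟩ := est h hd
  rw [pk_cons, pt_cons]
  have e : Fn (pk l κ θ) (pt l κ θ) (nx d t) -
      Fn (pt l κ θ) (d.a * pt l κ θ - d.j - d.s * pk l κ θ) t =
      (gZ (nx d t) - (gZ t + d.j * gG t)) + pk l κ θ * (gH (nx d t) - d.s * gG t) -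
      pt l κ θ * (gG (nx d t) - (d.a * gG t - gH t)) := by
    unfold Fn; ring
  rw [e]
  have hE := (Er_pos N).le
  have b1 : |pk l κ θ * (gH (nx d t) - d.s * gG t)| ≤ B * Er N := by
    rw [abs_mul]
    exact mul_le_mul h1 eh (abs_nonneg _) ((abs_nonneg _).trans h1)
  have b2 : |pt l κ θ * (gG (nx d t) - (d.a * gG t - gH t))| ≤ B * Er N := by
    rw [abs_mul]
    exact mul_le_mul h2 eg (abs_nonneg _) ((abs_nonneg _).trans h2)
  calc _ ≤ |gZ (nx d t) - (gZ t + d.j * gG t)| + |pk l κ θ * (gH (nx d t) - d.s * gG t)| +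
        |pt l κ θ * (gG (nx d t) - (d.a * gG t - gH t))| := by
        refine (abs_sub _ _).trans ?_
        gcongr
        exact abs_add_le _ _
    _ ≤ Er N * (1 + 2 * B) := by linarith

end Pool.Agent.D7
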