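import Pool.Agent.Lib.D7.Alg
import Pool.Agent.Lib.D6.ExLam
import Pool.Agent.Lib.D6.ExUp
import Pool.Agent.Lib.D6.ExLo

/-!
# The exponents of the limit of a path
-/

set_option autoImplicit false

open Filter Topology

namespace Pool.Agent.D7

open Pool.Agent.D6

/-- The hypotheses on the sizes. -/
structure Lim (T : ℕ → St) (D : ℕ → Dg) (Λ : ℝ) : Prop where
  t1 : ∀ ε : ℝ, 0 < ε → ∀ᶠ n in atTop, lg (T n).u ≤ (Λ + ε) * lg (T n).z
  t2 : ∀ ε : ℝ, 0 < ε → ∀ᶠ n in atTop, lg (qq (T n) (D n).n) ≤ (Λ + ε) * lg (T n).W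
  t3 : ∀ ε : ℝ, 0 < ε → ∃ᶠ n in atTop, (Λ - ε) * lg (T n).z ≤ lg (T n).u
  t4 : Tendsto (fun n => lg (T n).u - lg (T n).z) atTop atTop

variable {T : ℕ → St} {D : ℕ → Dg} {N : ℕ} {Λ : ℝ}

theorem Lim.u_top (h : Path T D N) (l : Lim T D Λ) : Tendsto (fun n => lg (T n).u) atTop atTop :=
  tendsto_atTop_mono (fun n => by have := (h.inv n).bz.lg_pos; linarith) l.t4

/-- Logarithms along a run. -/
theorem lg_qq_mono {t : St} (h : Inv t) {k l : ℕ} (hkl : k ≤ l) : lg (qq t k) ≤ lg (qq t l) := by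
  rcases Nat.lt_or_ge k l with h1 | h1
  · exact (lg_lt (box_qq h k) (good_qq h h1)).le
  · have e : k = l := by omega
    rw [e]

theorem lg_gap {t : St} (h : Inv t) (k : ℕ) : lg t.u - lg t.z ≤ lg (qq t (k + 1)) - lg (qq t k) ∧
    lg (qq t (k + 1)) - lg (qq t k) ≤ lg t.u - lg t.z + k := by
  have := gap h k
  rw [rn_u', rn_z'] at this
  exact this

theorem lg_size {t : St} (h : Inv t) (k : ℕ) : lg t.z + k * (lg t.u - lg t.z) ≤ lg (qq t k) ∧
    lg (qq t k) ≤ lg t.z + k * (lg t.u - lg t.z) + (k : ℝ) ^ 2 := by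
  have := size h k
  rw [rn_z'] at this
  exact this

theorem lg_succ {t : St} (h : Inv t) (k : ℕ) :
    2 * lg (qq t (k + 1)) - lg (qq t k) ≤ lg (qq t (k + 2)) ∧
    lg (qq t (k + 2)) ≤ 2 * lg (qq t (k + 1)) - lg (qq t k) + Real.log 2 := by
  have := (rn_inv h k).lv
  rw [rn_v', rn_u', rn_z'] at this
  exact this

theorem lg_X {t : St} (h : Inv t) (n : ℕ) (hn : 1 ≤ n) :
    2 * lg (qq t n) - lg t.W ≤ lg (step (qq t n) t.W) ∧
    lg (step (qq t n) t.W) ≤ 2 * lg (qq t n) - lg t.W + Real.log 2 :=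
  (inv_sw h n hn).lv

/-- The last index below a level. -/
theorem last_le (a : ℕ → ℝ) (t : ℝ) (M : ℕ) (hM : 1 ≤ M) (h1 : a 1 ≤ t) :
    ∃ k, 1 ≤ k ∧ k ≤ M ∧ a k ≤ t ∧ (k < M → t < a (k + 1)) := by
  induction M with
  | zero => omega
  | succ M ih =>
    rcases Nat.eq_zero_or_pos M with h0 | h0
    · subst h0
      exact ⟨1, le_rfl, le_rfl, h1, fun h => absurd h (lt_irrefl _)⟩
    · obtain ⟨k, k1, k2, k3, k4⟩ := ih h0
      rcases Nat.lt_or_ge k M with h2 | h2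
      · exact ⟨k, k1, by omega, k3, fun _ => k4 h2⟩
      · have e : k = M := by omega
        subst e
        rcases le_or_gt (a (k + 1)) t with h3 | h3
        · exact ⟨k + 1, by omega, le_rfl, h3, fun h => absurd h (lt_irrefl _)⟩
        · exact ⟨k, k1, by omega, k3, fun _ => h3⟩

namespace ExAux

theorem upper (hΛ : 5 ≤ Λ) (h : Path T D N) (l : Lim T D Λ)
    {r X₀ : ℝ} (hr : Λ / (2 * Λ - 1) < r) (H : ∀ X : ℝ, X₀ ≤ X → SimAp 2 (xi T) r X) : False := by
  have hp : 0 < 2 * Λ - 1 := by linarith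
  have hr1 : Λ < r * (2 * Λ - 1) := by rwa [div_lt_iff₀ hp] at hr
  have hr2 : 1 / 2 < r := by nlinarith
  set d := r * (2 * Λ - 1) - Λ with hd
  have hd0 : 0 < d := by linarith
  obtain ⟨ε, hε0, hε1, hε2⟩ : ∃ ε : ℝ, 0 < ε ∧ ε ≤ 1 ∧ ε * (2 * r - 1) < d := by
    refine ⟨min 1 (d / (2 * (2 * r - 1))), ?_, min_le_left _ _, ?_⟩
    · apply lt_min one_pos
      apply div_pos hd0
      linarith
    · have h3 : 0 < 2 * r - 1 := by linarith
      calc min 1 (d / (2 * (2 * r - 1))) * (2 * r - 1) ≤ d / (2 * (2 * r - 1)) * (2 * r - 1) := by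
            gcongr
            exact min_le_right _ _
        _ = d / 2 := by field_simp
        _ < d := by linarith
  have hL : 0 < Λ - ε := by linarith
  set c := r * (2 - 1 / (Λ - ε)) - 1 with hc
  have hc0 : 0 < c := by
    have e : c = (d - ε * (2 * r - 1)) / (Λ - ε) := by
      rw [hc, hd]
      field_simp
      ring
    rw [e]
    apply div_pos _ hL
    linarith
  obtain ⟨n, h3, h4⟩ := ((l.t3 ε hε0).and_eventually ((l.u_top h).eventually_ge_atTop
    (max (20 * X₀) ((1 + r) * Real.log 20 / c)))).exists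
  have h5 : 20 * X₀ ≤ lg (T n).u := (le_max_left _ _).trans h4
  have h6 : (1 + r) * Real.log 20 ≤ c * lg (T n).u := by
    have := (le_max_right (20 * X₀) ((1 + r) * Real.log 20 / c)).trans h4
    rw [div_le_iff₀ hc0] at this
    linarith
  have hi := h.inv n
  have h7 := hi.lv.1
  have h8 : lg (T n).z ≤ lg (T n).u * (1 / (Λ - ε)) := by
    rw [mul_one_div, le_div_iff₀ hL]
    linarith
  have h9 : (1 + c) * lg (T n).u ≤ r * lg (T n).v := by
    have e : (1 + c) * lg (T n).u = r * (2 * lg (T n).u - lg (T n).u * (1 / (Λ - ε))) := by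
      rw [hc]; ring
    rw [e]
    apply mul_le_mul_of_nonneg_left _ (by linarith)
    linarith
  have hvx := hi.bv.xpos
  have hux := hi.bu.xpos
  have huv := lg_lt hi.bu hi.gv
  have hX : X₀ ≤ ((T n).v.x : ℝ) / 20 := by
    have h10 : lg (T n).v ≤ (T n).v.x - 1 := Real.log_le_sub_one_of_pos hvx
    rw [le_div_iff₀ (by norm_num)]
    linarith
  obtain ⟨x, hx0, hx1, hx2⟩ := H _ hX
  have hXp : 0 < ((T n).v.x : ℝ) / 20 := by positivity
  have key : (((T n).v.x : ℝ) / 20) ^ (-r) ≤ 1 / (20 * (T n).u.x) := by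
    rw [Real.rpow_def_of_pos hXp, Real.log_div hvx.ne' (by norm_num)]
    have e : 1 / (20 * ((T n).u.x : ℝ)) = Real.exp (-(Real.log 20 + lg (T n).u)) := by
      rw [Real.exp_neg, Real.exp_add, Real.exp_log (by norm_num), hi.bu.exp_lg, one_div]
    rw [e]
    apply Real.exp_le_exp.2
    change (lg (T n).v - Real.log 20) * -r ≤ _
    nlinarith
  refine lam_lower h.le_xi h.xi_le hi (h.app_u n) (h.app_v n) (x 0) (x 1) (x 2) hx0 hx1 ?_ ?_
  · have := hx2 0
    simp only [Fin.val_zero, zero_add, pow_one] at this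
    exact this.trans key
  · have := hx2 1
    have e : ((1 : Fin 2) : ℕ) + 1 = 2 := rfl
    rw [e] at this
    exact this.trans key

theorem lower (hΛ : 5 ≤ Λ) (h : Path T D N) (l : Lim T D Λ)
    {r : ℝ} (hr0 : 0 ≤ r) (hr : r < Λ / (2 * Λ - 1)) :
    ∃ X₀ : ℝ, ∀ X : ℝ, X₀ ≤ X → SimAp 2 (xi T) r X := by
  have hp : 0 < 2 * Λ - 1 := by linarith
  have hr1 : r * (2 * Λ - 1) < Λ := by rwa [lt_div_iff₀ hp] at hr
  have hr2 : 2 * r - 1 ≤ 1 := by nlinarith
  set d := Λ - r * (2 * Λ - 1) with hd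
  have hd0 : 0 < d := by linarith
  obtain ⟨ε, hε0, hε2⟩ : ∃ ε : ℝ, 0 < ε ∧ ε * (2 * r - 1) < d := by
    refine ⟨d / 2, by linarith, ?_⟩
    nlinarith
  have hL : 0 < Λ + ε := by linarith
  set c := 1 - r * (2 - 1 / (Λ + ε)) with hc
  have hc0 : 0 < c := by
    have e : c = (d - ε * (2 * r - 1)) / (Λ + ε) := by
      rw [hc, hd]
      field_simp
      ring
    rw [e]
    apply div_pos _ hL
    linarith
  obtain ⟨n0, hn0⟩ := (((l.t1 ε hε0).and (l.t2 ε hε0)).and ((l.u_top h).eventually_ge_atTop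
    ((r * Real.log 2 + Real.log 3) / c))).exists_forall_of_atTop
  refine ⟨(T n0).u.x, fun X hX => ?_⟩
  have hX0 : 0 < X := lt_of_lt_of_le (h.inv n0).bu.xpos hX
  obtain ⟨n, hn, ha, hb⟩ := first_passage (l.u_top h) n0 (Real.log X)
    (Real.log_le_log (h.inv n0).bu.xpos hX)
  obtain ⟨⟨ht1, ht2⟩, hB⟩ := hn0 n hn
  have hB' : r * Real.log 2 + Real.log 3 ≤ c * lg (T n).u := by
    rw [div_le_iff₀ hc0] at hB
    linarith
  have hi := h.inv n
  have hgen : ∀ p q s : ℝ, lg (T n).u ≤ p → p ≤ (Λ + ε) * q → s ≤ 2 * p - q + Real.log 2 →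
      r * s ≤ p - Real.log 3 := by
    intro p q s h1 h2 h3
    have h4 : p * (1 / (Λ + ε)) ≤ q := by
      rw [mul_one_div, div_le_iff₀ hL]
      linarith
    have h5 : r * s ≤ r * (2 * p - p * (1 / (Λ + ε)) + Real.log 2) :=
      mul_le_mul_of_nonneg_left (by linarith) hr0
    have h6 : r * (2 * p - p * (1 / (Λ + ε)) + Real.log 2) = (1 - c) * p + r * Real.log 2 := by
      rw [hc]; ring
    have h7 : c * lg (T n).u ≤ c * p := mul_le_mul_of_nonneg_left h1 hc0.le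
    linarith
  obtain ⟨k, k1, k2, k3, k4⟩ := last_le (fun k => lg (qq (T n) k)) (Real.log X) (D n).n (h.n1 n) ha
  obtain ⟨k', rfl⟩ : ∃ k', k = k' + 1 := ⟨k - 1, by omega⟩
  have hux : lg (T n).u ≤ lg (qq (T n) (k' + 1)) := lg_qq_mono hi (k := 1) k1
  have hXk : ((qq (T n) (k' + 1)).x : ℝ) ≤ X := by
    have := Real.exp_le_exp.2 k3
    rw [(box_qq hi _).exp_lg, Real.exp_log hX0] at this
    exact this
  refine ExLamAux.sim_of_app h.le_xi h.xi_le (h.app_q n _ k2) hXk ?_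
  rcases Nat.lt_or_ge (k' + 1) (D n).n with h5 | h5
  · have h6 := k4 h5
    have h7 := (lg_succ hi k').2
    refine hgen _ (lg (qq (T n) k')) _ hux ?_ (h6.le.trans h7)
    rcases Nat.eq_zero_or_pos k' with h8 | h8
    · subst h8
      exact ht1
    · obtain ⟨k'', rfl⟩ : ∃ k'', k' = k'' + 1 := ⟨k' - 1, by omega⟩
      have h9 := (lg_succ hi k'').2
      have h10 := (box_qq hi k'').lg_lo
      have h11 := (box_qq hi (k'' + 1)).lg_lo
      have h12 : 0 < Real.log 2 := Real.log_pos (by norm_num)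
      nlinarith
  · have e : k' + 1 = (D n).n := by omega
    rw [e] at hux ⊢
    have e2 : lg (T (n + 1)).u = lg (step (qq (T n) (D n).n) (T n).W) := by rw [h.st n]; rfl
    rw [e2] at hb
    exact hgen _ _ _ hux ht2 (hb.le.trans (lg_X hi _ (h.n1 n)).2)

end ExAux

theorem hlam_eq (hΛ : 5 ≤ Λ) (h : Path T D N) (l : Lim T D Λ) :
    hlam 2 (xi T) = ((Λ / (2 * Λ - 1) : ℝ) : EReal) := by
  apply le_antisymm
  · apply sSup_le
    rintro _ ⟨r, rfl, X₀, H⟩
    rw [EReal.coe_le_coe_iff]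
    by_contra hr
    exact ExAux.upper hΛ h l (not_le.1 hr) H
  · by_contra hlt
    rw [not_le] at hlt
    obtain ⟨r, h1, h2⟩ := EReal.lt_iff_exists_real_btwn.1 hlt
    have h2' : r < Λ / (2 * Λ - 1) := EReal.coe_lt_coe_iff.1 h2
    have hpos : 0 < Λ / (2 * Λ - 1) := div_pos (by linarith) (by linarith)
    obtain ⟨X₀, H⟩ := ExAux.lower hΛ h l (le_max_right r 0) (max_lt h2' hpos)
    apply absurd h1 (not_lt.2 _)
    apply le_sSup
    refine ⟨r, rfl, max X₀ 1, fun X hX => ?_⟩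
    exact ExLamAux.sim_mono (le_max_left r 0) ((le_max_right _ _).trans hX)
      (H X ((le_max_left _ _).trans hX))

end Pool.Agent.D7
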