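import Pool.Agent.Lib.D7.Api

/-!
# MP_5dcbc3_ag: the hooks `(5,1,1)`, `(4,1,1,1)`, `(3,1,1,1,1)`

For `3 ≤ a ≤ 5` let `A = Jh a`, `v_i -> v_(i+1)` (`i + 1 < a`), `U = <e_a, .., e_6> -> 0`. The other two
matrices are, modulo polynomials in `A`, of the form `v0 -> w, u -> β(u) v_(a-1)`, and there is a
family which raises the rank of `A`.
-/

namespace Pool.Agent.Lib.D7

open Matrix

namespace HookAux

/-- Jordan matrices of the hooks -/
def Jh (k : Type*) [Field k] (a : ℕ) : Matrix (Fin 7) (Fin 7) k :=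
  Matrix.of fun x y => if x.val = y.val + 1 ∧ x.val < a then 1 else 0

section

variable {k : Type*} [Field k]

theorem J511_eq : J511 k = Jh k 5 := by
  ext i j
  fin_cases i <;> fin_cases j <;> simp [J511, Jh]

theorem J4111_eq : J4111 k = Jh k 4 := by
  ext i j
  fin_cases i <;> fin_cases j <;> simp [J4111, Jh]

theorem J31111_eq : J31111 k = Jh k 3 := by
  ext i j
  fin_cases i <;> fin_cases j <;> simp [J31111, Jh]

theorem Jh_mul_pos (a : ℕ) (M : Matrix (Fin 7) (Fin 7) k) {x x' : Fin 7} (y : Fin 7)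
    (h : x.val = x'.val + 1) (hx : x.val < a) : (Jh k a * M) x y = M x' y := by
  rw [Matrix.mul_apply, Finset.sum_eq_single x']
  · simp [Jh, h ▸ hx, h]
  · intro z _ hz
    have : ¬ (x.val = z.val + 1 ∧ x.val < a) := fun h1 => hz (Fin.ext (by omega))
    simp [Jh, this]
  · simp

theorem Jh_mul_zero (a : ℕ) (M : Matrix (Fin 7) (Fin 7) k) {x : Fin 7} (y : Fin 7)
    (h : x.val = 0 ∨ a ≤ x.val) : (Jh k a * M) x y = 0 := by
  rw [Matrix.mul_apply]
  refine Finset.sum_eq_zero fun z _ => ?_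
  have : ¬ (x.val = z.val + 1 ∧ x.val < a) := fun h1 => by omega
  simp [Jh, this]

theorem mul_Jh_pos (a : ℕ) (M : Matrix (Fin 7) (Fin 7) k) (x : Fin 7) {y y' : Fin 7}
    (h : y'.val = y.val + 1) (hx : y'.val < a) : (M * Jh k a) x y = M x y' := by
  rw [Matrix.mul_apply, Finset.sum_eq_single y']
  · simp [Jh, h ▸ hx, h]
  · intro z _ hz
    have : ¬ (z.val = y.val + 1 ∧ z.val < a) := fun h1 => hz (Fin.ext (by omega))
    simp [Jh, this]
  · simp

theorem mul_Jh_zero (a : ℕ) (M : Matrix (Fin 7) (Fin 7) k) (x : Fin 7) {y : Fin 7}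
    (h : a ≤ y.val + 1) : (M * Jh k a) x y = 0 := by
  rw [Matrix.mul_apply]
  refine Finset.sum_eq_zero fun z _ => ?_
  have : ¬ (z.val = y.val + 1 ∧ z.val < a) := fun h1 => by omega
  simp [Jh, this]

theorem Jh_pow (a : ℕ) : ∀ (i : ℕ), i < a → ∀ x : Fin 7,
    (Jh k a ^ i) x 0 = if x.val = i then 1 else 0
  | 0, _, x => by
    rw [pow_zero, Matrix.one_apply]
    simp only [Fin.ext_iff, Fin.val_zero]
  | i + 1, hi, x => by
    rw [pow_succ']
    by_cases h : x.val = 0 ∨ a ≤ x.val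
    · rw [Jh_mul_zero a _ _ h, if_neg (by omega)]
    · push Not at h
      have hx : x.val = (⟨x.val - 1, by omega⟩ : Fin 7).val + 1 := by
        show x.val = x.val - 1 + 1
        omega
      rw [Jh_mul_pos a _ _ hx h.2, Jh_pow a i (by omega)]
      by_cases h2 : x.val = i + 1
      · rw [if_pos h2, if_pos (by show x.val - 1 = i; omega)]
      · rw [if_neg h2, if_neg (by show ¬ (x.val - 1 = i); omega)]

/-- rank raising -/
theorem rank_lt {a : ℕ} {N : Matrix (Fin 7) (Fin 7) k}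
    (hN : ∀ x y : Fin 7, N x y ≠ 0 → a ≤ x.val ∧ a ≤ y.val) (h0 : N ≠ 0) :
    (Jh k a).rank < (Jh k a + N).rank := by
  obtain ⟨x, y, hxy⟩ : ∃ x y, N x y ≠ 0 := by
    by_contra h
    push Not at h
    exact h0 (Matrix.ext h)
  have hy := (hN x y hxy).2
  have hx := (hN x y hxy).1
  -- the projection
  set R : Matrix (Fin 7) (Fin 7) k := Matrix.diagonal fun z => if z.val < a then 1 else 0 with hR
  have e1 : (Jh k a + N) * R = Jh k a := by
    ext i j
    rw [hR, Matrix.mul_diagonal, Matrix.add_apply]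
    by_cases hj : j.val < a
    · have : N i j = 0 := by
        by_contra h
        have := (hN i j h).2
        omega
      rw [this, if_pos hj, add_zero, mul_one]
    · rw [if_neg hj, mul_zero]
      have : ¬ (i.val = j.val + 1 ∧ i.val < a) := fun h => by omega
      simp [Jh, this]
  rw [Matrix.rank, Matrix.rank]
  refine Submodule.finrank_lt_finrank_of_lt (lt_of_le_of_ne ?_ ?_)
  · rintro _ ⟨v, rfl⟩
    refine ⟨R *ᵥ v, ?_⟩
    rw [Matrix.mulVecLin_apply, Matrix.mulVecLin_apply, Matrix.mulVec_mulVec, e1]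
  · intro h
    have h1 : (Jh k a + N) *ᵥ (Pi.single y 1) ∈ LinearMap.range (Jh k a).mulVecLin := by
      rw [h]
      exact ⟨_, rfl⟩
    obtain ⟨v, hv⟩ := h1
    have h2 := congrFun hv x
    rw [Matrix.mulVecLin_apply, Matrix.mulVec_single_one, Matrix.col_apply, Matrix.add_apply] at h2
    have h3 : Jh k a x y = 0 := by
      have : ¬ (x.val = y.val + 1 ∧ x.val < a) := fun h => by omega
      simp [Jh, this]
    have h4 : ((Jh k a) *ᵥ v) x = 0 := by
      rw [Matrix.mulVec, dotProduct]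
      refine Finset.sum_eq_zero fun z _ => ?_
      have : ¬ (x.val = z.val + 1 ∧ x.val < a) := fun h => by omega
      simp [Jh, this]
    rw [h3, h4, zero_add] at h2
    exact hxy h2.symm

/-! ### unit vectors -/

/-- unit vectors -/
def E (k : Type*) [Field k] (x : Fin 7) : Fin 7 → k := Pi.single x 1

theorem dot_E (w : Fin 7 → k) (x : Fin 7) : w ⬝ᵥ E k x = w x := by
  simp [E]

theorem E_dot (w : Fin 7 → k) (x : Fin 7) : E k x ⬝ᵥ w = w x := by
  simp [E]

theorem E_same (x : Fin 7) : E k x x = 1 := by simp [E]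

theorem E_ne {x y : Fin 7} (h : y ≠ x) : E k x y = 0 := by simp [E, h]

theorem J_mulVec_E {a : ℕ} {y y' : Fin 7} (h : y'.val = y.val + 1) (hx : y'.val < a) :
    Jh k a *ᵥ E k y = E k y' := by
  ext x
  rw [E, Matrix.mulVec_single_one, Matrix.col_apply]
  by_cases hxy : x = y'
  · subst hxy
    rw [E_same]
    simp [Jh, h ▸ hx, h]
  · rw [E_ne hxy]
    have : ¬ (x.val = y.val + 1 ∧ x.val < a) := fun h1 => hxy (Fin.ext (by omega))
    simp [Jh, this]

theorem J_mulVec_zero {a : ℕ} {w : Fin 7 → k} (hw : ∀ x : Fin 7, x.val + 1 < a → w x = 0) :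
    Jh k a *ᵥ w = 0 := by
  ext x
  rw [Matrix.mulVec, dotProduct]
  refine Finset.sum_eq_zero fun z _ => ?_
  by_cases h : x.val = z.val + 1 ∧ x.val < a
  · rw [hw z (by omega), mul_zero]
  · simp [Jh, h]

theorem E_vecMul_J {a : ℕ} {x x' : Fin 7} (h : x.val = x'.val + 1) (hx : x.val < a) :
    E k x ᵥ* Jh k a = E k x' := by
  ext y
  rw [Matrix.vecMul, E_dot]
  by_cases hxy : y = x'
  · subst hxy
    rw [E_same]
    simp [Jh, h ▸ hx, h]
  · rw [E_ne hxy]
    have : ¬ (x.val = y.val + 1 ∧ x.val < a) := fun h1 => hxy (Fin.ext (by omega))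
    simp [Jh, this]

theorem vecMul_J_zero {a : ℕ} {b : Fin 7 → k} (hb : ∀ x : Fin 7, x.val ≠ 0 → x.val < a → b x = 0) :
    b ᵥ* Jh k a = 0 := by
  ext y
  rw [Matrix.vecMul, dotProduct]
  refine Finset.sum_eq_zero fun z _ => ?_
  by_cases h : z.val = y.val + 1 ∧ z.val < a
  · rw [hb z (by omega) h.2, zero_mul]
  · simp [Jh, h]

/-! ### matrices commuting with `Jh a` -/

theorem comm_low {a : ℕ} {M : Matrix (Fin 7) (Fin 7) k} (h : Jh k a * M = M * Jh k a)
    (h0 : ∀ x : Fin 7, x.val < a → M x 0 = 0) : ∀ (n : ℕ) (x y : Fin 7), y.val = n →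
      x.val < a → y.val < a → M x y = 0
  | 0, x, y, hy, hx, _ => by
    have : y = 0 := Fin.ext hy
    rw [this]
    exact h0 x hx
  | n + 1, x, y, hy, hx, hya => by
    have hy' : y.val = (⟨n, by omega⟩ : Fin 7).val + 1 := hy
    rw [← mul_Jh_pos a M x hy' hya, ← h]
    by_cases hx0 : x.val = 0
    · exact Jh_mul_zero a _ _ (Or.inl hx0)
    · have hx' : x.val = (⟨x.val - 1, by omega⟩ : Fin 7).val + 1 := by
        show x.val = x.val - 1 + 1
        omega
      rw [Jh_mul_pos a _ _ hx' hx]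
      exact comm_low h h0 n _ _ rfl (by show x.val - 1 < a; omega) (by show n < a; omega)

theorem comm_side {a : ℕ} {M : Matrix (Fin 7) (Fin 7) k} (h : Jh k a * M = M * Jh k a)
    {x y : Fin 7} (hx : x.val = 0 ∨ a ≤ x.val) (hy : y.val ≠ 0) (hya : y.val < a) : M x y = 0 := by
  have hy' : y.val = (⟨y.val - 1, by omega⟩ : Fin 7).val + 1 := by
    show y.val = y.val - 1 + 1
    omega
  rw [← mul_Jh_pos a M x hy' hya, ← h]
  exact Jh_mul_zero a _ _ hx

theorem comm_top {a : ℕ} (_ha : a ≤ 7) {M : Matrix (Fin 7) (Fin 7) k}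
    (h : Jh k a * M = M * Jh k a) {x y : Fin 7} (hx : x.val + 1 < a) (hy : a ≤ y.val + 1) :
    M x y = 0 := by
  rw [← Jh_mul_pos a M (x := ⟨x.val + 1, by omega⟩) y rfl hx, h]
  exact mul_Jh_zero a _ _ hy

theorem diag_zero {M : Matrix (Fin 7) (Fin 7) k} (h : ∀ y, y ≠ 0 → M 0 y = 0)
    (hn : IsNilpotent M) : M 0 0 = 0 := by
  have h1 : ∀ n : ℕ, (M ^ n) 0 0 = M 0 0 ^ n := by
    intro n
    induction n with
    | zero => simp
    | succ n ih =>
      rw [pow_succ', Matrix.mul_apply, Finset.sum_eq_single 0, ih, pow_succ']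
      · intro z _ hz
        rw [h z hz, zero_mul]
      · simp
  obtain ⟨n, hn⟩ := hn
  have h2 := h1 n
  rw [hn, Matrix.zero_apply] at h2
  exact eq_zero_of_pow_eq_zero h2.symm

theorem pow_mem_adj (A : Matrix (Fin 7) (Fin 7) k) : ∀ i : ℕ, 1 ≤ i →
    A ^ i ∈ NonUnitalAlgebra.adjoin k {A}
  | 0, h => absurd h (by omega)
  | 1, _ => by
    rw [pow_one]
    exact NonUnitalAlgebra.subset_adjoin k rfl
  | i + 2, _ => by
    rw [pow_succ]
    exact mul_mem (pow_mem_adj A (i + 1) (by omega)) (NonUnitalAlgebra.subset_adjoin k rfl)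

theorem low_le {T : Fin 3 → Matrix (Fin 7) (Fin 7) k} {A : Matrix (Fin 7) (Fin 7) k}
    (hA : A ∈ adj T) {P : Matrix (Fin 7) (Fin 7) k} (hP : P ∈ NonUnitalAlgebra.adjoin k {A}) :
    P ∈ adj T := by
  have h : NonUnitalAlgebra.adjoin k {A} ≤ adj T := by
    refine NonUnitalAlgebra.adjoin_le ?_
    rintro _ rfl
    exact hA
  exact h hP

/-- the shape of the other matrices -/
theorem shape [Infinite k] {a : ℕ} (ha : 3 ≤ a) (ha' : a ≤ 5) {t : Fin 7} (ht : t.val + 1 = a)
    {ρ : ℕ → ℕ} {T : Fin 3 → Matrix (Fin 7) (Fin 7) k} (hT : MaxR ρ T)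
    (hρ : ρ 1 = (Jh k a).rank) (h0 : T 0 = Jh k a) {B : Matrix (Fin 7) (Fin 7) k}
    (hB : B ∈ adj T) :
    ∃ w b : Fin 7 → k, (∀ x : Fin 7, x.val < a → w x = 0) ∧ (∀ x : Fin 7, x.val < a → b x = 0) ∧
      B - (vecMulVec w (E k 0) + vecMulVec (E k t) b) ∈ NonUnitalAlgebra.adjoin k {Jh k a} := by
  classical
  have hJ : Jh k a ∈ adj T := by
    rw [← h0]
    exact mem_adj T 0
  have hJB := hT.cn.comm hJ hB
  set P : Matrix (Fin 7) (Fin 7) k :=
    ∑ i ∈ Finset.univ.filter (fun i : Fin 7 => 1 ≤ i.val ∧ i.val < a), B i 0 • (Jh k a) ^ i.val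
    with hPdef
  have hP : P ∈ NonUnitalAlgebra.adjoin k {Jh k a} := by
    rw [hPdef]
    refine sum_mem fun i hi => ?_
    rw [Finset.mem_filter] at hi
    exact SMulMemClass.smul_mem _ (pow_mem_adj _ _ hi.2.1)
  have hPT : P ∈ adj T := low_le hJ hP
  set M := B - P with hM
  have hMT : M ∈ adj T := sub_mem hB hPT
  have hJM := hT.cn.comm hJ hMT
  have hP0 : ∀ x : Fin 7, x.val < a → P x 0 = if x.val = 0 then 0 else B x 0 := by
    intro x hx
    rw [hPdef, Matrix.sum_apply]
    by_cases hx0 : x.val = 0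
    · rw [if_pos hx0]
      refine Finset.sum_eq_zero fun i hi => ?_
      rw [Finset.mem_filter] at hi
      rw [Matrix.smul_apply, Jh_pow a _ hi.2.2, if_neg (by omega), smul_zero]
    · rw [if_neg hx0, Finset.sum_eq_single x]
      · rw [Matrix.smul_apply, Jh_pow a _ hx, if_pos rfl, smul_eq_mul, mul_one]
      · intro i hi hix
        rw [Finset.mem_filter] at hi
        rw [Matrix.smul_apply, Jh_pow a _ hi.2.2, if_neg, smul_zero]
        exact fun h => hix (Fin.ext h.symm)
      · intro h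
        exact absurd (Finset.mem_filter.2 ⟨Finset.mem_univ _, by omega, hx⟩) h
  have hB0 : B 0 0 = 0 := by
    refine diag_zero (fun y hy => ?_) (hT.cn.nilp hB)
    have hy' : y.val ≠ 0 := fun h => hy (Fin.ext h)
    by_cases hya : y.val < a
    · exact comm_side hJB (Or.inl rfl) hy' hya
    · exact comm_top (by omega) hJB (by show 0 + 1 < a; omega) (by omega)
  have hM0 : ∀ x : Fin 7, x.val < a → M x 0 = 0 := by
    intro x hx
    rw [hM, Matrix.sub_apply, hP0 x hx]
    by_cases hx0 : x.val = 0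
    · have : x = 0 := Fin.ext hx0
      rw [if_pos hx0, this, hB0, sub_zero]
    · rw [if_neg hx0, sub_self]
  have hlow : ∀ x y : Fin 7, x.val < a → y.val < a → M x y = 0 := fun x y hx hy =>
    comm_low hJM hM0 _ x y rfl hx hy
  set w : Fin 7 → k := fun x => if x.val < a then 0 else M x 0 with hw
  set b : Fin 7 → k := fun y => if y.val < a then 0 else M t y with hb
  set N : Matrix (Fin 7) (Fin 7) k := Matrix.of fun x y =>
    if a ≤ x.val ∧ a ≤ y.val then M x y else 0 with hN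
  have hw0 : ∀ x : Fin 7, x.val < a → w x = 0 := fun x hx => by rw [hw]; simp [hx]
  have hb0 : ∀ x : Fin 7, x.val < a → b x = 0 := fun x hx => by rw [hb]; simp [hx]
  have hdec : M = vecMulVec w (E k 0) + vecMulVec (E k t) b + N := by
    ext x y
    rw [Matrix.add_apply, Matrix.add_apply, Matrix.vecMulVec_apply, Matrix.vecMulVec_apply]
    by_cases hx : x.val < a
    · have hNxy : N x y = 0 := by
        rw [hN, Matrix.of_apply, if_neg (by omega)]
      rw [hw0 x hx, hNxy, zero_mul, zero_add, add_zero]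
      by_cases hy : y.val < a
      · rw [hb0 y hy, mul_zero, hlow x y hx hy]
      · by_cases hxt : x = t
        · subst hxt
          rw [E_same, one_mul, hb]
          simp [hy]
        · have hxt' : x.val ≠ t.val := fun h => hxt (Fin.ext h)
          rw [E_ne hxt, zero_mul]
          exact comm_top (by omega) hJM (by omega) (by omega)
    · have hxt : x ≠ t := fun h => by
        rw [h] at hx
        omega
      rw [E_ne hxt, zero_mul, add_zero]
      by_cases hy : y.val < a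
      · have hNxy : N x y = 0 := by
          rw [hN, Matrix.of_apply, if_neg (by omega)]
        rw [hNxy, add_zero]
        by_cases hy0 : y = 0
        · rw [hy0, E_same, mul_one, hw]
          simp [hx]
        · rw [E_ne hy0, mul_zero]
          exact comm_side hJM (Or.inr (by omega)) (fun h => hy0 (Fin.ext h)) hy
      · have hy0 : y ≠ 0 := fun h => by
          rw [h] at hy
          exact hy (by show 0 < a; omega)
        rw [E_ne hy0, mul_zero, zero_add, hN, Matrix.of_apply, if_pos (by omega)]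
  have hNz : N = 0 := by
    by_contra hNne
    have h1 : (Jh k a).rank < (Jh k a + N).rank := rank_lt (fun x y h => by
      by_contra h2
      rw [hN, Matrix.of_apply, if_neg h2] at h
      exact h rfl) hNne
    have h2 : ((Jh k a + M) ^ 1).rank ≤ ρ 1 := hT.rank_le (add_mem hJ hMT) 1
    rw [pow_one, hρ] at h2
    have e1 : (1 - vecMulVec w (E k 1)) * (Jh k a + M) = Jh k a + vecMulVec (E k t) b + N := by
      have h3 : E k 1 ᵥ* (Jh k a + M) = E k 0 := by
        rw [Matrix.vecMul_add, E_vecMul_J (x := 1) (x' := 0) rfl (by show 1 < a; omega)]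
        have h4 : E k 1 ᵥ* M = 0 := by
          ext y
          rw [Matrix.vecMul, E_dot]
          by_cases hy : y.val < a
          · exact hlow 1 y (by show 1 < a; omega) hy
          · exact comm_top (by omega) hJM (by show 1 + 1 < a; omega) (by omega)
        rw [h4, add_zero]
      rw [sub_mul, one_mul, Matrix.vecMulVec_mul, h3, hdec]
      abel
    obtain ⟨p, hp⟩ : ∃ p : Fin 7, t.val = p.val + 1 := ⟨⟨t.val - 1, by omega⟩, by
      show t.val = t.val - 1 + 1
      omega⟩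
    have e2 : (Jh k a + vecMulVec (E k t) b + N) * (1 - vecMulVec (E k p) b) = Jh k a + N := by
      have h3 : (Jh k a + vecMulVec (E k t) b + N) *ᵥ E k p = E k t := by
        rw [Matrix.add_mulVec, Matrix.add_mulVec, J_mulVec_E hp (by omega),
          Matrix.vecMulVec_mulVec, dot_E, hb0 p (by omega)]
        have h4 : N *ᵥ E k p = 0 := by
          ext x
          rw [Matrix.mulVec, dot_E, hN, Matrix.of_apply, if_neg (by omega)]
          rfl
        rw [h4]
        simp
      rw [mul_sub, mul_one, Matrix.mul_vecMulVec, h3]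
      abel
    have h3 := Matrix.rank_mul_le_left (Jh k a + vecMulVec (E k t) b + N)
      (1 - vecMulVec (E k p) b)
    rw [e2, ← e1] at h3
    have h4 := Matrix.rank_mul_le_right (1 - vecMulVec w (E k 1)) (Jh k a + M)
    omega
  refine ⟨w, b, hw0, hb0, ?_⟩
  have : B - (vecMulVec w (E k 0) + vecMulVec (E k t) b) = P := by
    rw [hNz, add_zero] at hdec
    rw [← hdec, hM]
    abel
  rw [this]
  exact hP

/-! ### the family -/

theorem R_mul_R (x y x' y' : Fin 7 → k) :
    vecMulVec x y * vecMulVec x' y' = (y ⬝ᵥ x') • vecMulVec x y' := by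
  ext i j
  rw [Matrix.mul_apply, Matrix.smul_apply, Matrix.vecMulVec_apply, smul_eq_mul, dotProduct,
    Finset.sum_mul]
  refine Finset.sum_congr rfl fun z _ => ?_
  rw [Matrix.vecMulVec_apply, Matrix.vecMulVec_apply]
  ring

/-- the family of the other matrices -/
def FB (t p : Fin 7) (n nu : Fin 7 → k) (s : k) (w b : Fin 7 → k) : Matrix (Fin 7) (Fin 7) k :=
  vecMulVec w (E k 0) + vecMulVec (E k t) b + s • ((nu ⬝ᵥ w) • vecMulVec n (E k 1) +
    (b ⬝ᵥ n) • vecMulVec (E k p) nu)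

section

variable {a : ℕ} {t p : Fin 7} {n nu w b w' b' : Fin 7 → k}

theorem mulFB (ha : 3 ≤ a) (ht : t.val + 1 = a) (hp : p.val + 2 = a)
    (hn : ∀ x : Fin 7, x.val < a → n x = 0) (hnu : ∀ x : Fin 7, x.val < a → nu x = 0)
    (hnn : nu ⬝ᵥ n = 0) (hb : ∀ x : Fin 7, x.val < a → b x = 0)
    (hw' : ∀ x : Fin 7, x.val < a → w' x = 0) (s : k) :
    FB t p n nu s w b * FB t p n nu s w' b' =
      (b ⬝ᵥ w') • vecMulVec (E k t) (E k 0) +
      (s * (nu ⬝ᵥ w') * (b ⬝ᵥ n)) • vecMulVec (E k t) (E k 1) +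
      (s ^ 2 * E k 1 p * (nu ⬝ᵥ w) * (b' ⬝ᵥ n)) • vecMulVec n nu +
      (s * (b ⬝ᵥ n) * (nu ⬝ᵥ w')) • vecMulVec (E k p) (E k 0) := by
  have c0 : (0 : Fin 7).val < a := by show 0 < a; omega
  have c1 : (1 : Fin 7).val < a := by show 1 < a; omega
  have t0 : (0 : Fin 7) ≠ t := fun h => by rw [← h] at ht; simp at ht; omega
  have t1 : (1 : Fin 7) ≠ t := fun h => by rw [← h] at ht; simp at ht; omega
  have p0 : (0 : Fin 7) ≠ p := fun h => by rw [← h] at hp; simp at hp; omega
  simp only [FB, mul_add, add_mul, smul_mul_assoc, mul_smul_comm, smul_add, R_mul_R, E_dot, dot_E,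
    hw' 0 c0, hw' 1 c1, hn 0 c0, hn 1 c1, hb t (by omega), hb p (by omega), hnu t (by omega),
    hnu p (by omega), hnn, E_ne t0.symm, E_ne t1.symm, E_ne p0.symm, zero_smul, smul_zero, add_zero,
    zero_add, smul_smul]
  module

theorem comFB (ha : 3 ≤ a) (ht : t.val + 1 = a) (hp : p.val + 2 = a)
    (hn : ∀ x : Fin 7, x.val < a → n x = 0) (hnu : ∀ x : Fin 7, x.val < a → nu x = 0)
    (hnn : nu ⬝ᵥ n = 0) (hb : ∀ x : Fin 7, x.val < a → b x = 0)
    (hw : ∀ x : Fin 7, x.val < a → w x = 0) (s : k) :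
    (Jh k a + s • vecMulVec n nu) * FB t p n nu s w b =
      FB t p n nu s w b * (Jh k a + s • vecMulVec n nu) := by
  have c0 : (0 : Fin 7).val < a := by show 0 < a; omega
  have c1 : (1 : Fin 7).val < a := by show 1 < a; omega
  have j1 : Jh k a *ᵥ w = 0 := J_mulVec_zero fun x hx => hw x (by omega)
  have j2 : Jh k a *ᵥ n = 0 := J_mulVec_zero fun x hx => hn x (by omega)
  have j3 : Jh k a *ᵥ E k t = 0 := J_mulVec_zero fun x hx => E_ne fun h => by
    rw [h] at hx
    omega
  have j4 : Jh k a *ᵥ E k p = E k t := J_mulVec_E (by omega) (by omega)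
  have j5 : E k 0 ᵥ* Jh k a = 0 := vecMul_J_zero fun x hx _ => E_ne fun h => hx (by rw [h]; rfl)
  have j6 : E k 1 ᵥ* Jh k a = E k 0 := E_vecMul_J rfl c1
  have j7 : b ᵥ* Jh k a = 0 := vecMul_J_zero fun x _ hx => hb x hx
  have j8 : nu ᵥ* Jh k a = 0 := vecMul_J_zero fun x _ hx => hnu x hx
  have m1 : Jh k a * FB t p n nu s w b = (s * (b ⬝ᵥ n)) • vecMulVec (E k t) nu := by
    simp only [FB, mul_add, mul_smul_comm, smul_add, Matrix.mul_vecMulVec, j1, j2, j3, j4,
      smul_zero, add_zero, zero_add, smul_smul, Matrix.zero_vecMulVec]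
  have m2 : FB t p n nu s w b * Jh k a = (s * (nu ⬝ᵥ w)) • vecMulVec n (E k 0) := by
    simp only [FB, add_mul, smul_mul_assoc, smul_add, Matrix.vecMulVec_mul, j5, j6, j7, j8,
      smul_zero, add_zero, zero_add, smul_smul, Matrix.vecMulVec_zero]
  have m3 : vecMulVec n nu * FB t p n nu s w b = (nu ⬝ᵥ w) • vecMulVec n (E k 0) := by
    simp only [FB, mul_add, mul_smul_comm, smul_add, R_mul_R, dot_E,
      hnu t (by omega), hnu p (by omega), hnn, zero_smul, smul_zero, add_zero]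
  have m4 : FB t p n nu s w b * vecMulVec n nu = (b ⬝ᵥ n) • vecMulVec (E k t) nu := by
    simp only [FB, add_mul, smul_mul_assoc, smul_add, R_mul_R, E_dot,
      hn 0 c0, hn 1 c1, hnn, zero_smul, smul_zero, add_zero, zero_add]
  rw [add_mul, mul_add, smul_mul_assoc, mul_smul_comm, m1, m2, m3, m4]
  module

theorem nilFB (ha : 3 ≤ a) (ht : t.val + 1 = a) (hp : p.val + 2 = a)
    (hn : ∀ x : Fin 7, x.val < a → n x = 0) (hnu : ∀ x : Fin 7, x.val < a → nu x = 0)
    (hnn : nu ⬝ᵥ n = 0) (hb : ∀ x : Fin 7, x.val < a → b x = 0)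
    (hw : ∀ x : Fin 7, x.val < a → w x = 0) (s : k) : IsNilpotent (FB t p n nu s w b) := by
  have c0 : (0 : Fin 7).val < a := by show 0 < a; omega
  have c1 : (1 : Fin 7).val < a := by show 1 < a; omega
  have t0 : (0 : Fin 7) ≠ t := fun h => by rw [← h] at ht; simp at ht; omega
  have t1 : (1 : Fin 7) ≠ t := fun h => by rw [← h] at ht; simp at ht; omega
  have p0 : (0 : Fin 7) ≠ p := fun h => by rw [← h] at hp; simp at hp; omega
  refine ⟨6, ?_⟩
  have e1 := mulFB (w := w) (b := b) (w' := w) (b' := b) ha ht hp hn hnu hnn hb hw s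
  have e2 : FB t p n nu s w b ^ 6 = (FB t p n nu s w b * FB t p n nu s w b) *
      (FB t p n nu s w b * FB t p n nu s w b) * (FB t p n nu s w b * FB t p n nu s w b) := by
    simp only [pow_succ, pow_zero, one_mul, mul_assoc]
  rw [e2, e1]
  simp only [mul_add, add_mul, smul_mul_assoc, mul_smul_comm, R_mul_R, E_dot, dot_E,
    hn 0 c0, hn 1 c1, hnu t (by omega), hnu p (by omega), hnn, E_ne t0.symm, E_ne t1.symm,
    E_ne p0.symm, zero_smul, smul_zero, add_zero, zero_add]

theorem exists_n [IsAlgClosed k] (ha : a ≤ 6) (hw : ∀ x : Fin 7, x.val < a → w x = 0)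
    (hw' : ∀ x : Fin 7, x.val < a → w' x = 0) : ∃ n : Fin 7 → k, n ≠ 0 ∧
      (∀ x : Fin 7, x.val < a → n x = 0) ∧
      ∃ μ : k, (b ⬝ᵥ n) • w' - (b' ⬝ᵥ n) • w = μ • n := by
  let U : Submodule k (Fin 7 → k) :=
    { carrier := {v | ∀ x : Fin 7, x.val < a → v x = 0}
      add_mem' := fun {v v'} hv hv' x hx => by rw [Pi.add_apply, hv x hx, hv' x hx, add_zero]
      zero_mem' := fun _ _ => rfl
      smul_mem' := fun c v hv x hx => by rw [Pi.smul_apply, hv x hx, smul_zero] }
  let f : (Fin 7 → k) →ₗ[k] (Fin 7 → k) :=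
    { toFun := fun v => (b ⬝ᵥ v) • w' - (b' ⬝ᵥ v) • w
      map_add' := fun v v' => by
        simp only [dotProduct_add]
        module
      map_smul' := fun c v => by
        simp only [dotProduct_smul, smul_eq_mul, RingHom.id_apply]
        module }
  have hf : ∀ v ∈ U, f v ∈ U := fun v _ x hx => by
    show ((b ⬝ᵥ v) • w' - (b' ⬝ᵥ v) • w) x = 0
    rw [Pi.sub_apply, Pi.smul_apply, Pi.smul_apply, hw x hx, hw' x hx]
    simp
  have h6 : E k 6 ∈ U := fun x hx => E_ne fun h => by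
    rw [h] at hx
    have : (6 : Fin 7).val = 6 := rfl
    omega
  have hnt : Nontrivial U := by
    refine ⟨⟨E k 6, h6⟩, 0, fun h => ?_⟩
    have h1 := congrFun (congrArg Subtype.val h) 6
    rw [show ((⟨E k 6, h6⟩ : U) : Fin 7 → k) 6 = 1 from E_same 6] at h1
    exact one_ne_zero h1
  obtain ⟨μ, hμ⟩ := Module.End.exists_eigenvalue (f.restrict hf : Module.End k U)
  obtain ⟨v, hv⟩ := hμ.exists_hasEigenvector
  refine ⟨v, fun h => hv.2 (Subtype.ext h), v.2, μ, ?_⟩
  have h1 := congrArg Subtype.val hv.apply_eq_smul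
  exact h1

end

theorem no_hook [IsAlgClosed k] {a : ℕ} (ha : 3 ≤ a) (ha' : a ≤ 5) {ρ : ℕ → ℕ}
    {T : Fin 3 → Matrix (Fin 7) (Fin 7) k} (hT : MaxR ρ T) (hρ : ρ 1 = (Jh k a).rank)
    (h0 : T 0 = Jh k a) : False := by
  have hinf : Infinite k := IsAlgClosed.instInfinite
  obtain ⟨t, ht⟩ : ∃ t : Fin 7, t.val + 1 = a := ⟨⟨a - 1, by omega⟩, by show a - 1 + 1 = a; omega⟩
  obtain ⟨p, hp⟩ : ∃ p : Fin 7, p.val + 2 = a := ⟨⟨a - 2, by omega⟩, by show a - 2 + 2 = a; omega⟩
  obtain ⟨w, b, hw, hb, hB⟩ := shape ha ha' ht hT hρ h0 (mem_adj T 1)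
  obtain ⟨w', b', hw', hb', hC⟩ := shape ha ha' ht hT hρ h0 (mem_adj T 2)
  have hJ : Jh k a ∈ adj T := by
    rw [← h0]
    exact mem_adj T 0
  set B' := vecMulVec w (E k 0) + vecMulVec (E k t) b with hB'
  set C' := vecMulVec w' (E k 0) + vecMulVec (E k t) b' with hC'
  have mB : B' ∈ adj T := by
    have := sub_mem (mem_adj T 1) (low_le hJ hB)
    rwa [sub_sub_cancel] at this
  have mC : C' ∈ adj T := by
    have := sub_mem (mem_adj T 2) (low_le hJ hC)
    rwa [sub_sub_cancel] at this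
  have hc : CN ![Jh k a, B', C'] := by
    refine hT.cn.of_adj fun i => ?_
    fin_cases i
    · exact hJ
    · exact mB
    · exact mC
  have hJ' : Jh k a ∈ adj ![Jh k a, B', C'] := mem_adj ![Jh k a, B', C'] 0
  have hT' : MaxR ρ ![Jh k a, B', C'] := by
    refine hT.change hc fun i => ?_
    fin_cases i
    · show T 0 ∈ _
      rw [h0]
      exact hJ'
    · have := add_mem (low_le hJ' hB) (mem_adj ![Jh k a, B', C'] 1)
      rwa [show (![Jh k a, B', C'] : Fin 3 → Matrix (Fin 7) (Fin 7) k) 1 = B' from rfl,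
        sub_add_cancel] at this
    · have := add_mem (low_le hJ' hC) (mem_adj ![Jh k a, B', C'] 2)
      rwa [show (![Jh k a, B', C'] : Fin 3 → Matrix (Fin 7) (Fin 7) k) 2 = C' from rfl,
        sub_add_cancel] at this
  obtain ⟨n, hn0, hn, μ, hμ⟩ := exists_n (a := a) (b := b) (b' := b') (by omega) hw hw'
  obtain ⟨i, hi⟩ : ∃ i, n i ≠ 0 := by
    by_contra h
    push Not at h
    exact hn0 (funext h)
  have hia : a ≤ i.val := by
    by_contra h
    exact hi (hn i (by omega))
  obtain ⟨j, hj, hja⟩ : ∃ j : Fin 7, j ≠ i ∧ a ≤ j.val := by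
    by_cases h : i = 6
    · refine ⟨5, fun h2 => ?_, by show a ≤ 5; omega⟩
      rw [h] at h2
      exact absurd h2 (by decide)
    · exact ⟨6, fun h2 => h h2.symm, by show a ≤ 6; omega⟩
  set nu : Fin 7 → k := n i • E k j - n j • E k i with hnu'
  have hnu : ∀ x : Fin 7, x.val < a → nu x = 0 := by
    intro x hx
    rw [hnu', Pi.sub_apply, Pi.smul_apply, Pi.smul_apply, E_ne (fun h => by rw [h] at hx; omega),
      E_ne (fun h => by rw [h] at hx; omega)]
    simp
  have hnn : nu ⬝ᵥ n = 0 := by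
    rw [hnu', sub_dotProduct, smul_dotProduct, smul_dotProduct, E_dot, E_dot, smul_eq_mul,
      smul_eq_mul]
    ring
  have hrel : (b ⬝ᵥ n) * (nu ⬝ᵥ w') = (b' ⬝ᵥ n) * (nu ⬝ᵥ w) := by
    have h1 := congrArg (fun v => nu ⬝ᵥ v) hμ
    simp only [dotProduct_sub, dotProduct_smul, hnn, smul_eq_mul, mul_zero] at h1
    exact sub_eq_zero.1 h1
  have hnz : vecMulVec n nu ≠ 0 := by
    intro h
    have h1 := congrFun (congrFun h i) j
    rw [Matrix.vecMulVec_apply, hnu', Pi.sub_apply, Pi.smul_apply, Pi.smul_apply, E_same,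
      E_ne hj, Matrix.zero_apply] at h1
    simp at h1
    exact hi h1
  have hsupp : ∀ x y : Fin 7, vecMulVec n nu x y ≠ 0 → a ≤ x.val ∧ a ≤ y.val := by
    intro x y h
    rw [Matrix.vecMulVec_apply] at h
    constructor
    · by_contra h2
      exact h (by rw [hn x (by omega), zero_mul])
    · by_contra h2
      exact h (by rw [hnu y (by omega), mul_zero])
  have z0 : ∀ (w b : Fin 7 → k), FB t p n nu 0 w b = vecMulVec w (E k 0) + vecMulVec (E k t) b := by
    intro w b
    rw [FB, zero_smul, add_zero]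
  -- the relation `BC = CB`
  have hbw : b ⬝ᵥ w' = b' ⬝ᵥ w := by
    have h1 : B' * C' = C' * B' := hc.1 1 2
    rw [hB', hC', ← z0, ← z0, mulFB ha ht hp hn hnu hnn hb hw', mulFB ha ht hp hn hnu hnn hb' hw] at h1
    have h2 := congrFun (congrFun h1 t) 0
    have p0 : (0 : Fin 7) ≠ t := fun h => by rw [← h] at ht; simp at ht; omega
    simp [Matrix.vecMulVec_apply, E_same] at h2
    exact h2
  have hcn : ∀ s : k, CN ![Jh k a + s • vecMulVec n nu, FB t p n nu s w b,
      FB t p n nu s w' b'] := by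
    intro s
    have h01 := comFB ha ht hp hn hnu hnn hb hw s
    have h02 := comFB ha ht hp hn hnu hnn hb' hw' s
    have h12 : FB t p n nu s w b * FB t p n nu s w' b' =
        FB t p n nu s w' b' * FB t p n nu s w b := by
      rw [mulFB ha ht hp hn hnu hnn hb hw', mulFB ha ht hp hn hnu hnn hb' hw, hbw]
      have e1 : s * (nu ⬝ᵥ w') * (b ⬝ᵥ n) = s * (nu ⬝ᵥ w) * (b' ⬝ᵥ n) := by
        linear_combination s * hrel
      have e2 : s ^ 2 * E k 1 p * (nu ⬝ᵥ w) * (b' ⬝ᵥ n) =
          s ^ 2 * E k 1 p * (nu ⬝ᵥ w') * (b ⬝ᵥ n) := by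
        linear_combination -(s ^ 2 * E k 1 p) * hrel
      have e3 : s * (b ⬝ᵥ n) * (nu ⬝ᵥ w') = s * (b' ⬝ᵥ n) * (nu ⬝ᵥ w) := by
        linear_combination s * hrel
      rw [e1, e2, e3]
    refine ⟨fun x y => ?_, fun x => ?_⟩
    · fin_cases x <;> fin_cases y
      · rfl
      · exact h01
      · exact h02
      · exact h01.symm
      · rfl
      · exact h12
      · exact h02.symm
      · exact h12.symm
      · rfl
    · fin_cases x
      · show IsNilpotent (Jh k a + s • vecMulVec n nu)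
        have e1 : Jh k a * (s • vecMulVec n nu) = 0 := by
          rw [mul_smul_comm, Matrix.mul_vecMulVec, J_mulVec_zero fun x hx => hn x (by omega)]
          simp
        have e2 : (s • vecMulVec n nu) * Jh k a = 0 := by
          rw [smul_mul_assoc, Matrix.vecMulVec_mul, vecMul_J_zero fun x _ hx => hnu x hx]
          simp
        refine Commute.isNilpotent_add (e1.trans e2.symm) (hc.2 0) ⟨2, ?_⟩
        rw [pow_two, smul_mul_assoc, mul_smul_comm, R_mul_R, hnn]
        simp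
      · exact nilFB ha ht hp hn hnu hnn hb hw s
      · exact nilFB ha ht hp hn hnu hnn hb' hw' s
  refine hT'.raise (fun s => ![Jh k a + s • vecMulVec n nu, FB t p n nu s w b,
    FB t p n nu s w' b']) ?_ ?_ Set.finite_empty (fun s _ => hcn s) 1
    (fun s => Jh k a + s • vecMulVec n nu) (fun s => mem_adj ![Jh k a + s • vecMulVec n nu,
      FB t p n nu s w b, FB t p n nu s w' b'] 0) ?_
  · have h1 := PolyFam.line ![Jh k a, B', C'] ![vecMulVec n nu,
      (nu ⬝ᵥ w) • vecMulVec n (E k 1) + (b ⬝ᵥ n) • vecMulVec (E k p) nu,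
      (nu ⬝ᵥ w') • vecMulVec n (E k 1) + (b' ⬝ᵥ n) • vecMulVec (E k p) nu]
    refine (congrArg PolyFam (funext fun s => funext fun i => ?_)).mp h1
    fin_cases i <;> rfl
  · funext i
    fin_cases i
    · show Jh k a + (0:k) • vecMulVec n nu = Jh k a
      rw [zero_smul, add_zero]
    · exact z0 w b
    · exact z0 w' b'
  · refine (Set.finite_singleton (0 : k)).infinite_compl.mono fun s hs => ?_
    have hs0 : s ≠ 0 := hs
    show ρ 1 < ((Jh k a + s • vecMulVec n nu) ^ 1).rank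
    rw [pow_one, hρ]
    refine rank_lt (fun x y h => hsupp x y fun h2 => h ?_) (smul_ne_zero hs0 hnz)
    rw [Matrix.smul_apply, h2, smul_zero]

end

end HookAux

open HookAux

variable {k : Type*} [Field k] [IsAlgClosed k] [CharZero k]

theorem no_511 {ρ : ℕ → ℕ} {T : Fin 3 → Matrix (Fin 7) (Fin 7) k} (hT : MaxR ρ T)
    (hρ : ∀ i, ρ i = (J511 k ^ i).rank) (h0 : T 0 = J511 k) : False := by
  refine no_hook (a := 5) (by norm_num) (by norm_num) hT ?_ (h0.trans J511_eq)
  rw [hρ 1, pow_one, J511_eq]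

theorem no_4111 {ρ : ℕ → ℕ} {T : Fin 3 → Matrix (Fin 7) (Fin 7) k} (hT : MaxR ρ T)
    (hρ : ∀ i, ρ i = (J4111 k ^ i).rank) (h0 : T 0 = J4111 k) : False := by
  refine no_hook (a := 4) (by norm_num) (by norm_num) hT ?_ (h0.trans J4111_eq)
  rw [hρ 1, pow_one, J4111_eq]

theorem no_31111 {ρ : ℕ → ℕ} {T : Fin 3 → Matrix (Fin 7) (Fin 7) k} (hT : MaxR ρ T)
    (hρ : ∀ i, ρ i = (J31111 k ^ i).rank) (h0 : T 0 = J31111 k) : False := by
  refine no_hook (a := 3) (by norm_num) (by norm_num) hT ?_ (h0.trans J31111_eq)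
  rw [hρ 1, pow_one, J31111_eq]

end Pool.Agent.Lib.D7
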