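import Pool.Agent.Lib.D7.T331bC

/-!
# MP_5dcbc3_ag: type (3,3,1), generic case
-/

namespace Pool.Agent.Lib.D7.T331bAux

open Matrix Pool.Agent.Lib.D7

section
variable {k : Type*} [Field k] [IsAlgClosed k]

theorem quad_factor (a0 a1 a2 : k) : ∃ x2 y2 x3 y3 : k,
    a0 = x2 * x3 ∧ a1 = x2 * y3 + y2 * x3 ∧ a2 = y2 * y3 := by
  by_cases h : a2 = 0
  · exact ⟨1, 0, a0, a1, by ring, by ring, by rw [h]; ring⟩
  · -- a root of `a0 + a1 t + a2 t ^ 2`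
    obtain ⟨r, hr⟩ := IsAlgClosed.exists_root
      (Polynomial.C a2 * Polynomial.X ^ 2 + Polynomial.C a1 * Polynomial.X + Polynomial.C a0)
      (by rw [Polynomial.degree_quadratic h]; decide)
    simp only [Polynomial.IsRoot, Polynomial.eval_add, Polynomial.eval_mul, Polynomial.eval_C,
      Polynomial.eval_pow, Polynomial.eval_X] at hr
    exact ⟨-r, 1, a1 + a2 * r, a2, by linear_combination hr, by ring, by ring⟩

theorem cubic_factor (a0 a1 a2 a3 : k) : ∃ x1 y1 x2 y2 x3 y3 : k,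
    a0 = x1 * x2 * x3 ∧ a1 = x1 * x2 * y3 + x1 * y2 * x3 + y1 * x2 * x3 ∧
    a2 = x1 * y2 * y3 + y1 * x2 * y3 + y1 * y2 * x3 ∧ a3 = y1 * y2 * y3 := by
  by_cases h : a3 = 0
  · obtain ⟨x2, y2, x3, y3, h0, h1, h2⟩ := quad_factor a0 a1 a2
    exact ⟨1, 0, x2, y2, x3, y3, by rw [h0]; ring, by rw [h1]; ring, by rw [h2]; ring,
      by rw [h]; ring⟩
  · obtain ⟨r, hr⟩ := IsAlgClosed.exists_root
      (Polynomial.C a3 * Polynomial.X ^ 3 + Polynomial.C a2 * Polynomial.X ^ 2 +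
        Polynomial.C a1 * Polynomial.X + Polynomial.C a0)
      (by rw [Polynomial.degree_cubic h]; decide)
    simp only [Polynomial.IsRoot, Polynomial.eval_add, Polynomial.eval_mul, Polynomial.eval_C,
      Polynomial.eval_pow, Polynomial.eval_X] at hr
    obtain ⟨x2, y2, x3, y3, h0, h1, h2⟩ := quad_factor (a1 + a2 * r + a3 * r ^ 2) (a2 + a3 * r) a3
    refine ⟨-r, 1, x2, y2, x3, y3, ?_, ?_, ?_, ?_⟩
    · linear_combination hr - r * h0
    · linear_combination h0 - r * h1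
    · linear_combination h1 - r * h2
    · linear_combination h2

end

variable {k : Type*} [Field k] [IsAlgClosed k] [CharZero k]

/-- the case of off-diagonal matrices -/
theorem offdiag {ρ : ℕ → ℕ} (hρ : ρ 3 = 0) {b b' c c' m00 m01 m10 m11 l00 l01 l10 l11 : k}
    (hT : MaxR ρ (Tn 0 b b' 0 m00 m01 m10 m11 0 c c' 0 l00 l01 l10 l11)) : False := by
  obtain ⟨x1, y1, x2, y2, x3, y3, h0, h1, h2, h3⟩ := cubic_factor (-b') c' b (-c)
  -- target `(0, 1), (1, 1), (2, 1)`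
  have lin : ∀ p q : k, IsPoly fun s : k => p + s * q := fun p q =>
    (IsPoly.const p).add (IsPoly.id.mul (IsPoly.const q))
  obtain ⟨X1, hX1⟩ : ∃ X1 : k → k, X1 = fun s => x1 + s * (0 - x1) := ⟨_, rfl⟩
  obtain ⟨X2, hX2⟩ : ∃ X1 : k → k, X1 = fun s => x2 + s * (1 - x2) := ⟨_, rfl⟩
  obtain ⟨X3, hX3⟩ : ∃ X1 : k → k, X1 = fun s => x3 + s * (2 - x3) := ⟨_, rfl⟩
  obtain ⟨Y1, hY1⟩ : ∃ X1 : k → k, X1 = fun s => y1 + s * (1 - y1) := ⟨_, rfl⟩
  obtain ⟨Y2, hY2⟩ : ∃ X1 : k → k, X1 = fun s => y2 + s * (1 - y2) := ⟨_, rfl⟩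
  obtain ⟨Y3, hY3⟩ : ∃ X1 : k → k, X1 = fun s => y3 + s * (1 - y3) := ⟨_, rfl⟩
  have pX1 : IsPoly X1 := hX1 ▸ lin _ _
  have pX2 : IsPoly X2 := hX2 ▸ lin _ _
  have pX3 : IsPoly X3 := hX3 ▸ lin _ _
  have pY1 : IsPoly Y1 := hY1 ▸ lin _ _
  have pY2 : IsPoly Y2 := hY2 ▸ lin _ _
  have pY3 : IsPoly Y3 := hY3 ▸ lin _ _
  have cst : ∀ p : k, IsPoly fun _ : k => p := IsPoly.const
  have pf := Tn_poly (cst 0) ((((pX1.mul pY2).mul pY3).add ((pY1.mul pX2).mul pY3)).add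
    ((pY1.mul pY2).mul pX3)) ((pX1.mul pX2).mul pX3).neg (cst 0) (cst m00) (cst m01) (cst m10)
    (cst m11) (cst 0) ((pY1.mul pY2).mul pY3).neg ((((pX1.mul pX2).mul pY3).add
    ((pX1.mul pY2).mul pX3)).add ((pY1.mul pX2).mul pX3)) (cst 0) (cst l00) (cst l01)
    (cst l10) (cst l11)
  have z1 : X1 0 = x1 := by rw [hX1]; ring
  have z2 : X2 0 = x2 := by rw [hX2]; ring
  have z3 : X3 0 = x3 := by rw [hX3]; ring
  have z4 : Y1 0 = y1 := by rw [hY1]; ring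
  have z5 : Y2 0 = y2 := by rw [hY2]; ring
  have z6 : Y3 0 = y3 := by rw [hY3]; ring
  have o1 : X1 1 = 0 := by rw [hX1]; ring
  have o2 : X2 1 = 1 := by rw [hX2]; ring
  have o3 : X3 1 = 2 := by rw [hX3]; ring
  have o4 : Y1 1 = 1 := by rw [hY1]; ring
  have o5 : Y2 1 = 1 := by rw [hY2]; ring
  have o6 : Y3 1 = 1 := by rw [hY3]; ring
  have h3' : c = -(y1 * y2 * y3) := by rw [← h3, neg_neg]
  have h0' : b' = -(x1 * x2 * x3) := by rw [← h0, neg_neg]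
  obtain ⟨E, hE, hE'⟩ := hT.deform _ pf (by
    show Tn 0 (X1 0 * Y2 0 * Y3 0 + Y1 0 * X2 0 * Y3 0 + Y1 0 * Y2 0 * X3 0)
      (-(X1 0 * X2 0 * X3 0)) 0 m00 m01 m10 m11 0 (-(Y1 0 * Y2 0 * Y3 0))
      (X1 0 * X2 0 * Y3 0 + X1 0 * Y2 0 * X3 0 + Y1 0 * X2 0 * X3 0) 0 l00 l01 l10 l11 = _
    rw [z1, z2, z3, z4, z5, z6, ← h0', ← h1, ← h2, ← h3']) (E := ∅) Set.finite_empty
    (fun s _ => Tn_cn _ _ _ _ _ _ _ _ _ _ _ _ _ _ _ _)
  have F1 := ((pX1.mul pY2).add (pY1.mul pX2)).finite (s₁ := 1) (by rw [o1, o2, o4, o5]; norm_num)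
  have F2 := ((pX1.mul pY3).add (pY1.mul pX3)).finite (s₁ := 1) (by rw [o1, o3, o4, o6]; norm_num)
  have F3 := ((pX2.mul pY3).add (pY2.mul pX3)).finite (s₁ := 1) (by rw [o2, o3, o5, o6]; norm_num)
  have F4 := ((pX1.mul pY2).sub (pY1.mul pX2)).finite (s₁ := 1) (by rw [o1, o2, o4, o5]; norm_num)
  have F5 := ((pX1.mul pY3).sub (pY1.mul pX3)).finite (s₁ := 1) (by rw [o1, o3, o4, o6]; norm_num)
  have F6 := ((pX2.mul pY3).sub (pY2.mul pX3)).finite (s₁ := 1) (by rw [o2, o3, o5, o6]; norm_num)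
  obtain ⟨s, hs⟩ := ((((((hE.union F1).union F2).union F3).union F4).union F5).union
    F6).exists_notMem
  simp only [Set.mem_union, Set.mem_ofPred_eq, not_or] at hs
  obtain ⟨⟨⟨⟨⟨⟨g0, g1⟩, g2⟩, g3⟩, g4⟩, g5⟩, g6⟩ := hs
  exact final331 hρ g1 g2 g3 g4 g5 g6 rfl rfl rfl rfl (hE' s g0)

/-- commutator diagonal -/
theorem diag2 {ρ : ℕ → ℕ} (hρ : ρ 3 = 0) {j00 j01 j10 j11 i00 i01 i10 i11 r0 r1 v0 v1
    a00 a01 a10 a11 m00 m01 m10 m11 s0 s1 w0 w1 b00 b01 b10 b11 l00 l01 l10 l11 t0 t1 z0 z1 : k}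
    (hT : MaxR ρ ![B331 j00 j01 j10 j11 i00 i01 i10 i11 r0 r1 v0 v1,
      B331 a00 a01 a10 a11 m00 m01 m10 m11 s0 s1 w0 w1,
      B331 b00 b01 b10 b11 l00 l01 l10 l11 t0 t1 z0 z1])
    (hj0 : j00 = 1) (hj1 : j01 = 0) (hj2 : j10 = 0) (hj3 : j11 = 1)
    (hi0 : i00 = 0) (hi1 : i01 = 0) (hi2 : i10 = 0) (hi3 : i11 = 0)
    (hr0 : r0 = 0) (hr1 : r1 = 0) (hv0 : v0 = 0) (hv1 : v1 = 0)
    (hs0 : s0 = 1) (hs1 : s1 = 0) (ht0 : t0 = 0) (ht1 : t1 = 1) (hw : w0 = 0) (hz : z1 = 0)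
    (hz' : z0 ≠ 0) : False := by
  subst hj0 hj1 hj2 hj3 hi0 hi1 hi2 hi3 hr0 hr1 hv0 hv1 hs0 hs1 ht0 ht1 hw hz
  rw [← J331_eq] at hT
  have hc := hT.cn.1 1 2
  simp only [cons_val, B331_mul] at hc
  obtain ⟨e1, e2, e3, e4⟩ := B331_inj hc
  have ha : a00 = a11 := by
    refine sub_eq_zero.1 ((mul_eq_zero.1 (?_ : z0 * (a00 - a11) = 0)).resolve_left hz')
    linear_combination (a00 - a11) * e1 + a01 * e3 + a10 * e2
  have hb : b00 = b11 := by
    refine sub_eq_zero.1 ((mul_eq_zero.1 (?_ : z0 * (b00 - b11) = 0)).resolve_left hz')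
    linear_combination (b00 - b11) * e1 + b01 * e3 + b10 * e2
  subst ha hb
  -- subtract the scalars
  set T : Fin 3 → Matrix (Fin 7) (Fin 7) k :=
    ![J331 k, B331 a00 a01 a10 a00 m00 m01 m10 m11 1 0 0 w1,
      B331 b00 b01 b10 b00 l00 l01 l10 l11 0 1 z0 0] with hTdef
  have hT' : ∀ i, (![T 0, T 1 + (-a00) • T 0, T 2 + (-b00) • T 0] :
      Fin 3 → Matrix (Fin 7) (Fin 7) k) i ∈ adj T := by
    intro i
    fin_cases i
    · exact mem_adj T 0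
    · exact add_mem (mem_adj T 1) (smem (mem_adj T 0) _)
    · exact add_mem (mem_adj T 2) (smem (mem_adj T 0) _)
  set T' : Fin 3 → Matrix (Fin 7) (Fin 7) k :=
    ![T 0, T 1 + (-a00) • T 0, T 2 + (-b00) • T 0] with hT'def
  have hM : MaxR ρ T' := hT.change (hT.cn.of_adj hT') (by
    intro i
    fin_cases i
    · exact mem_adj T' 0
    · show T 1 ∈ adj T'
      have h1 := add_mem (mem_adj T' 1) (smem (mem_adj T' 0) a00)
      have h2 : T' 1 + a00 • T' 0 = T 1 := by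
        show T 1 + (-a00) • T 0 + a00 • T 0 = T 1
        rw [neg_smul]; abel
      rwa [h2] at h1
    · show T 2 ∈ adj T'
      have h1 := add_mem (mem_adj T' 2) (smem (mem_adj T' 0) b00)
      have h2 : T' 2 + b00 • T' 0 = T 2 := by
        show T 2 + (-b00) • T 0 + b00 • T 0 = T 2
        rw [neg_smul]; abel
      rwa [h2] at h1)
  have h3 : T' = ![J331 k, B331 0 a01 a10 0 m00 m01 m10 m11 1 0 0 w1,
      B331 0 b01 b10 0 l00 l01 l10 l11 0 1 z0 0] := by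
    rw [hT'def, hTdef]
    ext i x y
    fin_cases i
    · rfl
    · show (B331 a00 a01 a10 a00 m00 m01 m10 m11 1 0 0 w1 + (-a00) • J331 k) x y =
        B331 0 a01 a10 0 m00 m01 m10 m11 1 0 0 w1 x y
      rw [J331_eq, B331_smul, B331_add]
      simp
    · show (B331 b00 b01 b10 b00 l00 l01 l10 l11 0 1 z0 0 + (-b00) • J331 k) x y =
        B331 0 b01 b10 0 l00 l01 l10 l11 0 1 z0 0 x y
      rw [J331_eq, B331_smul, B331_add]
      simp
  rw [h3] at hM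
  rw [eq_Tn hM.cn] at hM
  exact offdiag hρ hM

theorem diag1 {ρ : ℕ → ℕ} (hρ : ρ 3 = 0) {k00 k01 k10 k11
    a00 a01 a10 a11 m00 m01 m10 m11 b00 b01 b10 b11 l00 l01 l10 l11 : k}
    (hT : MaxR ρ ![J331 k, B331 a00 a01 a10 a11 m00 m01 m10 m11 1 0 k10 k11,
      B331 b00 b01 b10 b11 l00 l01 l10 l11 0 1 (-k00) (-k01)])
    (htr : k11 = -k00) (h01 : k01 ≠ 0) (hd : k00 ^ 2 + k01 * k10 ≠ 0) : False := by
  obtain ⟨e, he⟩ := IsAlgClosed.exists_pow_nat_eq (k00 ^ 2 + k01 * k10) (n := 2) (by norm_num)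
  have ne : e ≠ 0 := by
    rintro rfl
    exact hd (by rw [← he]; norm_num)
  have two : (2 : k) ≠ 0 := two_ne_zero
  obtain ⟨f, hf⟩ : ∃ f : k, k01 * f = 1 := ⟨k01⁻¹, mul_inv_cancel₀ h01⟩
  obtain ⟨p, hp⟩ : ∃ p : k, p = (e - k00) * f := ⟨_, rfl⟩
  obtain ⟨q, hq⟩ : ∃ q : k, q = (-e - k00) * f := ⟨_, rfl⟩
  have npq : q - p ≠ 0 := by
    intro h
    apply mul_ne_zero two ne
    have : (2 * e) * (k01 * f) = -(k01 * (q - p)) := by rw [hp, hq]; ring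
    rw [hf, h] at this
    linear_combination this
  obtain ⟨d, hd'⟩ : ∃ d : k, d * (q - p) = 1 := ⟨(q - p)⁻¹, inv_mul_cancel₀ npq⟩
  have hGH : Gm (q * d) (-d) (-(p * d)) d * Gm 1 1 p q = 1 := by
    rw [Gm_mul, ← Gm_one]
    congr 1
    · linear_combination hd'
    · ring
    · ring
    · linear_combination hd'
  have hHG : Gm 1 1 p q * Gm (q * d) (-d) (-(p * d)) d = 1 := by
    rw [Gm_mul, ← Gm_one]
    congr 1
    · linear_combination hd'
    · ring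
    · ring
    · linear_combination hd'
  have h1 := hT.conj _ _ hGH hHG
  set T : Fin 3 → Matrix (Fin 7) (Fin 7) k := fun i => Gm (q * d) (-d) (-(p * d)) d *
    (![J331 k, B331 a00 a01 a10 a11 m00 m01 m10 m11 1 0 k10 k11,
      B331 b00 b01 b10 b11 l00 l01 l10 l11 0 1 (-k00) (-k01)] :
      Fin 3 → Matrix (Fin 7) (Fin 7) k) i * Gm 1 1 p q with hTdef
  have hT' : ∀ i, (![T 0, T 1 + p • T 2, T 1 + q • T 2] :
      Fin 3 → Matrix (Fin 7) (Fin 7) k) i ∈ adj T := by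
    intro i
    fin_cases i
    · exact mem_adj T 0
    · exact add_mem (mem_adj T 1) (smem (mem_adj T 2) _)
    · exact add_mem (mem_adj T 1) (smem (mem_adj T 2) _)
  set T' : Fin 3 → Matrix (Fin 7) (Fin 7) k := ![T 0, T 1 + p • T 2, T 1 + q • T 2] with hT'def
  have hM : MaxR ρ T' := h1.change (h1.cn.of_adj hT') (by
    intro i
    fin_cases i
    · exact mem_adj T' 0
    · show T 1 ∈ adj T'
      have h1 := add_mem (smem (mem_adj T' 1) (q * d)) (smem (mem_adj T' 2) (-(p * d)))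
      have h2 : (q * d) • T' 1 + (-(p * d)) • T' 2 = T 1 := by
        show (q * d) • (T 1 + p • T 2) + (-(p * d)) • (T 1 + q • T 2) = T 1
        ext x y
        simp only [Matrix.add_apply, Matrix.smul_apply, smul_eq_mul]
        linear_combination T 1 x y * hd'
      rwa [h2] at h1
    · show T 2 ∈ adj T'
      have h1 := add_mem (smem (mem_adj T' 1) (-d)) (smem (mem_adj T' 2) d)
      have h2 : (-d) • T' 1 + d • T' 2 = T 2 := by
        show (-d) • (T 1 + p • T 2) + d • (T 1 + q • T 2) = T 2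
        ext x y
        simp only [Matrix.add_apply, Matrix.smul_apply, smul_eq_mul]
        linear_combination T 2 x y * hd'
      rwa [h2] at h1)
  have h3 : T' = ![Gm (q * d) (-d) (-(p * d)) d * J331 k * Gm 1 1 p q,
      Gm (q * d) (-d) (-(p * d)) d * B331 a00 a01 a10 a11 m00 m01 m10 m11 1 0 k10 k11 *
        Gm 1 1 p q + p • (Gm (q * d) (-d) (-(p * d)) d *
        B331 b00 b01 b10 b11 l00 l01 l10 l11 0 1 (-k00) (-k01) * Gm 1 1 p q),
      Gm (q * d) (-d) (-(p * d)) d * B331 a00 a01 a10 a11 m00 m01 m10 m11 1 0 k10 k11 *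
        Gm 1 1 p q + q • (Gm (q * d) (-d) (-(p * d)) d *
        B331 b00 b01 b10 b11 l00 l01 l10 l11 0 1 (-k00) (-k01) * Gm 1 1 p q)] := rfl
  rw [h3] at hM
  simp only [J331_eq, Gm_mul_B331, B331_mul_Gm, B331_smul, B331_add] at hM
  refine diag2 hρ hM ?_ ?_ ?_ ?_ ?_ ?_ ?_ ?_ ?_ ?_ ?_ ?_ ?_ ?_ ?_ ?_ ?_ ?_ ?_
  · linear_combination hd'
  · ring
  · ring
  · linear_combination hd'
  · ring
  · ring
  · ring
  · ring
  · ring
  · ring
  · ring
  · ring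
  · linear_combination hd'
  · ring
  · ring
  · linear_combination hd'
  · refine (mul_eq_zero.1 ?_).resolve_left h01
    rw [htr, hp]
    linear_combination (-2 * k00 * (e - k00) - (e - k00) ^ 2 * (k01 * f + 1)) * hf - he
  · refine (mul_eq_zero.1 ?_).resolve_left h01
    rw [htr, hq]
    linear_combination (-2 * k00 * (-e - k00) - (-e - k00) ^ 2 * (k01 * f + 1)) * hf - he
  · intro h
    apply mul_ne_zero two (pow_ne_zero 2 ne)
    have h4 := congrArg (fun t => k01 * t) h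
    simp only [mul_zero] at h4
    rw [htr, hp, hq] at h4
    linear_combination h4 + he + (-2 * k00 ^ 2 + (k00 ^ 2 - e ^ 2) * (k01 * f + 1)) * hf

end T331bAux

open T331bAux

variable {k : Type*} [Field k] [IsAlgClosed k] [CharZero k]

/-- type `(3,3,1)`, generic case -/
theorem no_331g {ρ : ℕ → ℕ} (hρ : ∀ i, ρ i = (J331 k ^ i).rank)
    {a00 a01 a10 a11 m00 m01 m10 m11 w0 w1 b00 b01 b10 b11 l00 l01 l10 l11 z0 z1 : k}
    (hT : MaxR ρ ![J331 k, B331 a00 a01 a10 a11 m00 m01 m10 m11 1 0 w0 w1,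
      B331 b00 b01 b10 b11 l00 l01 l10 l11 0 1 z0 z1]) : False := by
  have h3 : ρ 3 = 0 := by
    have h4 : J331 k ^ 3 = 0 := by
      rw [pow_succ, pow_two, J331_eq, B331_mul, B331_mul]
      ext i j
      fin_cases i <;> fin_cases j <;> simp [B331]
    rw [hρ, h4, Matrix.rank_zero]
  rw [eq_Tn hT.cn] at hT
  have lin : ∀ p q : k, IsPoly fun s : k => p + s * (q - p) := fun p q =>
    (IsPoly.const p).add (IsPoly.id.mul (IsPoly.const (q - p)))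
  have cst : ∀ p : k, IsPoly fun _ : k => p := IsPoly.const
  obtain ⟨A00, hA00⟩ : ∃ f : k → k, f = fun s => a00 + s * (0 - a00) := ⟨_, rfl⟩
  obtain ⟨A01, hA01⟩ : ∃ f : k → k, f = fun s => a01 + s * (1 - a01) := ⟨_, rfl⟩
  obtain ⟨A10, hA10⟩ : ∃ f : k → k, f = fun s => a10 + s * (0 - a10) := ⟨_, rfl⟩
  obtain ⟨A11, hA11⟩ : ∃ f : k → k, f = fun s => a11 + s * (0 - a11) := ⟨_, rfl⟩
  obtain ⟨B00, hB00⟩ : ∃ f : k → k, f = fun s => b00 + s * (1 - b00) := ⟨_, rfl⟩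
  obtain ⟨B01, hB01⟩ : ∃ f : k → k, f = fun s => b01 + s * (0 - b01) := ⟨_, rfl⟩
  obtain ⟨B10, hB10⟩ : ∃ f : k → k, f = fun s => b10 + s * (1 - b10) := ⟨_, rfl⟩
  obtain ⟨B11, hB11⟩ : ∃ f : k → k, f = fun s => b11 + s * (0 - b11) := ⟨_, rfl⟩
  have i1 : IsPoly A00 := hA00 ▸ lin _ _
  have i2 : IsPoly A01 := hA01 ▸ lin _ _
  have i3 : IsPoly A10 := hA10 ▸ lin _ _
  have i4 : IsPoly A11 := hA11 ▸ lin _ _
  have i5 : IsPoly B00 := hB00 ▸ lin _ _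
  have i6 : IsPoly B01 := hB01 ▸ lin _ _
  have i7 : IsPoly B10 := hB10 ▸ lin _ _
  have i8 : IsPoly B11 := hB11 ▸ lin _ _
  have z1 : A00 0 = a00 := by rw [hA00]; ring
  have z2 : A01 0 = a01 := by rw [hA01]; ring
  have z3 : A10 0 = a10 := by rw [hA10]; ring
  have z4 : A11 0 = a11 := by rw [hA11]; ring
  have z5 : B00 0 = b00 := by rw [hB00]; ring
  have z6 : B01 0 = b01 := by rw [hB01]; ring
  have z7 : B10 0 = b10 := by rw [hB10]; ring
  have z8 : B11 0 = b11 := by rw [hB11]; ring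
  have o1 : A00 1 = 0 := by rw [hA00]; ring
  have o2 : A01 1 = 1 := by rw [hA01]; ring
  have o3 : A10 1 = 0 := by rw [hA10]; ring
  have o4 : A11 1 = 0 := by rw [hA11]; ring
  have o5 : B00 1 = 1 := by rw [hB00]; ring
  have o6 : B01 1 = 0 := by rw [hB01]; ring
  have o7 : B10 1 = 1 := by rw [hB10]; ring
  have o8 : B11 1 = 0 := by rw [hB11]; ring
  have pf := Tn_poly i1 i2 i3 i4 (cst m00) (cst m01) (cst m10) (cst m11) i5 i6 i7 i8 (cst l00)
    (cst l01) (cst l10) (cst l11)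
  obtain ⟨E, hE, hE'⟩ := hT.deform _ pf (by
    show Tn (A00 0) (A01 0) (A10 0) (A11 0) m00 m01 m10 m11 (B00 0) (B01 0) (B10 0) (B11 0)
      l00 l01 l10 l11 = _
    rw [z1, z2, z3, z4, z5, z6, z7, z8]) (E := ∅) Set.finite_empty
    (fun s _ => Tn_cn _ _ _ _ _ _ _ _ _ _ _ _ _ _ _ _)
  have P00 := ((i1.mul i5).add (i2.mul i7)).sub ((i5.mul i1).add (i6.mul i3))
  have P01 := ((i1.mul i6).add (i2.mul i8)).sub ((i5.mul i2).add (i6.mul i4))
  have P10 := ((i3.mul i5).add (i4.mul i7)).sub ((i7.mul i1).add (i8.mul i3))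
  have F1 := P01.finite (s₁ := 1) (by rw [o1, o2, o4, o5, o6, o8]; norm_num)
  have F2 := ((P00.pow 2).add (P01.mul P10)).finite (s₁ := 1)
    (by rw [o1, o2, o3, o4, o5, o6, o7, o8]; norm_num)
  obtain ⟨s, hs⟩ := ((hE.union F1).union F2).exists_notMem
  simp only [Set.mem_union, Set.mem_ofPred_eq, not_or] at hs
  obtain ⟨⟨g0, g1⟩, g2⟩ := hs
  exact diag1 h3 (hE' s g0) (by ring) g1 g2

end Pool.Agent.Lib.D7
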