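import Pool.Agent.Lib.D7.Api
import Pool.Agent.Lib.D7.T331b

set_option autoImplicit false

/-!
# MP_5dcbc3_ag: type (3,3,1), reduction to independent functionals
-/

namespace Pool.Agent.Lib.D7

open Matrix Pool.Agent.Lib.Q5dc

namespace T331aAux

variable {k : Type*} [Field k]

/-- matrices of the shape `B331` -/
def Gd (M : Matrix (Fin 7) (Fin 7) k) : Prop :=
  M = B331 (M 1 0) (M 1 3) (M 4 0) (M 4 3) (M 2 0) (M 2 3) (M 5 0) (M 5 3) (M 2 6) (M 5 6)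
    (M 6 0) (M 6 3)

theorem gd_B (a00 a01 a10 a11 m00 m01 m10 m11 t0 t1 w0 w1 : k) :
    Gd (B331 a00 a01 a10 a11 m00 m01 m10 m11 t0 t1 w0 w1) := by
  simp [Gd, B331]

theorem B_mul (a00 a01 a10 a11 m00 m01 m10 m11 t0 t1 w0 w1 b00 b01 b10 b11 l00 l01 l10 l11 s0 s1
    z0 z1 : k) : B331 a00 a01 a10 a11 m00 m01 m10 m11 t0 t1 w0 w1 *
      B331 b00 b01 b10 b11 l00 l01 l10 l11 s0 s1 z0 z1 =
      B331 0 0 0 0 (a00 * b00 + a01 * b10 + t0 * z0) (a00 * b01 + a01 * b11 + t0 * z1)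
        (a10 * b00 + a11 * b10 + t1 * z0) (a10 * b01 + a11 * b11 + t1 * z1) 0 0 0 0 := by
  ext i j
  fin_cases i <;> fin_cases j <;>
    simp [B331, Matrix.mul_apply, Fin.sum_univ_succ, add_assoc]

theorem B_add (a00 a01 a10 a11 m00 m01 m10 m11 t0 t1 w0 w1 b00 b01 b10 b11 l00 l01 l10 l11 s0 s1
    z0 z1 : k) : B331 a00 a01 a10 a11 m00 m01 m10 m11 t0 t1 w0 w1 +
      B331 b00 b01 b10 b11 l00 l01 l10 l11 s0 s1 z0 z1 =
      B331 (a00 + b00) (a01 + b01) (a10 + b10) (a11 + b11) (m00 + l00) (m01 + l01) (m10 + l10)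
        (m11 + l11) (t0 + s0) (t1 + s1) (w0 + z0) (w1 + z1) := by
  ext i j
  fin_cases i <;> fin_cases j <;> simp [B331]

theorem B_smul (s a00 a01 a10 a11 m00 m01 m10 m11 t0 t1 w0 w1 : k) :
    s • B331 a00 a01 a10 a11 m00 m01 m10 m11 t0 t1 w0 w1 =
      B331 (s * a00) (s * a01) (s * a10) (s * a11) (s * m00) (s * m01) (s * m10)
        (s * m11) (s * t0) (s * t1) (s * w0) (s * w1) := by
  ext i j
  fin_cases i <;> fin_cases j <;> simp [B331]

theorem J_eq : J331 k = B331 1 0 0 1 0 0 0 0 0 0 0 0 := by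
  ext i j
  fin_cases i <;> fin_cases j <;> simp [B331, J331]

theorem gd_J : Gd (J331 k) := by
  rw [J_eq]
  exact gd_B ..

theorem Gd.add {M M' : Matrix (Fin 7) (Fin 7) k} (h : Gd M) (h' : Gd M') : Gd (M + M') := by
  have e : M + M' = _ := congrArg₂ (· + ·) h h'
  exact e.trans (B_add ..)

theorem Gd.smul {M : Matrix (Fin 7) (Fin 7) k} (h : Gd M) (s : k) : Gd (s • M) := by
  have e : s • M = _ := congrArg (s • ·) h
  exact e.trans (B_smul ..)

/-- the four equations of commutation -/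
def Eq4 (M M' : Matrix (Fin 7) (Fin 7) k) : Prop :=
  M 1 0 * M' 1 0 + M 1 3 * M' 4 0 + M 2 6 * M' 6 0 =
    M' 1 0 * M 1 0 + M' 1 3 * M 4 0 + M' 2 6 * M 6 0 ∧
  M 1 0 * M' 1 3 + M 1 3 * M' 4 3 + M 2 6 * M' 6 3 =
    M' 1 0 * M 1 3 + M' 1 3 * M 4 3 + M' 2 6 * M 6 3 ∧
  M 4 0 * M' 1 0 + M 4 3 * M' 4 0 + M 5 6 * M' 6 0 =
    M' 4 0 * M 1 0 + M' 4 3 * M 4 0 + M' 5 6 * M 6 0 ∧
  M 4 0 * M' 1 3 + M 4 3 * M' 4 3 + M 5 6 * M' 6 3 =
    M' 4 0 * M 1 3 + M' 4 3 * M 4 3 + M' 5 6 * M 6 3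

theorem Gd.mul {M M' : Matrix (Fin 7) (Fin 7) k} (h : Gd M) (h' : Gd M') : M * M' =
    B331 0 0 0 0 (M 1 0 * M' 1 0 + M 1 3 * M' 4 0 + M 2 6 * M' 6 0)
      (M 1 0 * M' 1 3 + M 1 3 * M' 4 3 + M 2 6 * M' 6 3)
      (M 4 0 * M' 1 0 + M 4 3 * M' 4 0 + M 5 6 * M' 6 0)
      (M 4 0 * M' 1 3 + M 4 3 * M' 4 3 + M 5 6 * M' 6 3) 0 0 0 0 := by
  have e : M * M' = _ := congrArg₂ (· * ·) h h'
  exact e.trans (B_mul ..)

theorem Gd.comm_iff {M M' : Matrix (Fin 7) (Fin 7) k} (h : Gd M) (h' : Gd M') :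
    M * M' = M' * M ↔ Eq4 M M' := by
  rw [h.mul h', h'.mul h]
  constructor
  · intro e
    refine ⟨?_, ?_, ?_, ?_⟩
    · simpa [B331] using congrFun (congrFun e 2) 0
    · simpa [B331] using congrFun (congrFun e 2) 3
    · simpa [B331] using congrFun (congrFun e 5) 0
    · simpa [B331] using congrFun (congrFun e 5) 3
  · rintro ⟨e1, e2, e3, e4⟩
    rw [e1, e2, e3, e4]

theorem Gd.nilp {M : Matrix (Fin 7) (Fin 7) k} (h : Gd M) : IsNilpotent M := by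
  rw [h]
  refine isNilpotent_of_weight _ ![0, 1, 2, 0, 1, 2, 1] fun i j hij => ?_
  fin_cases i <;> fin_cases j <;> simp [B331] at hij ⊢

theorem cn_of {M M' : Matrix (Fin 7) (Fin 7) k} (h : Gd M) (h' : Gd M') (e : Eq4 M M') :
    CN ![J331 k, M, M'] := by
  have hc := (h.comm_iff h').2 e
  have hJ : ∀ {N : Matrix (Fin 7) (Fin 7) k}, Gd N → J331 k * N = N * J331 k := by
    intro N hN
    rw [gd_J.comm_iff hN]
    refine ⟨?_, ?_, ?_, ?_⟩ <;> simp [J331]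
  refine ⟨fun i j => ?_, fun i => ?_⟩
  · fin_cases i <;> fin_cases j <;> simp
    · exact hJ h
    · exact hJ h'
    · exact (hJ h).symm
    · exact hc
    · exact (hJ h').symm
    · exact hc.symm
  · fin_cases i
    · exact gd_J.nilp
    · exact h.nilp
    · exact h'.nilp

/-! ### the shape -/

theorem JM0 (M : Matrix (Fin 7) (Fin 7) k) (j) : (J331 k * M) 0 j = 0 := by
  rw [Matrix.mul_apply, Fin.sum_univ_seven]; simp [J331]
theorem JM1 (M : Matrix (Fin 7) (Fin 7) k) (j) : (J331 k * M) 1 j = M 0 j := by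
  rw [Matrix.mul_apply, Fin.sum_univ_seven]; simp [J331]
theorem JM2 (M : Matrix (Fin 7) (Fin 7) k) (j) : (J331 k * M) 2 j = M 1 j := by
  rw [Matrix.mul_apply, Fin.sum_univ_seven]; simp [J331]
theorem JM3 (M : Matrix (Fin 7) (Fin 7) k) (j) : (J331 k * M) 3 j = 0 := by
  rw [Matrix.mul_apply, Fin.sum_univ_seven]; simp [J331]
theorem JM4 (M : Matrix (Fin 7) (Fin 7) k) (j) : (J331 k * M) 4 j = M 3 j := by
  rw [Matrix.mul_apply, Fin.sum_univ_seven]; simp [J331]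
theorem JM5 (M : Matrix (Fin 7) (Fin 7) k) (j) : (J331 k * M) 5 j = M 4 j := by
  rw [Matrix.mul_apply, Fin.sum_univ_seven]; simp [J331]
theorem JM6 (M : Matrix (Fin 7) (Fin 7) k) (j) : (J331 k * M) 6 j = 0 := by
  rw [Matrix.mul_apply, Fin.sum_univ_seven]; simp [J331]
theorem MJ0 (M : Matrix (Fin 7) (Fin 7) k) (i) : (M * J331 k) i 0 = M i 1 := by
  rw [Matrix.mul_apply, Fin.sum_univ_seven]; simp [J331]
theorem MJ1 (M : Matrix (Fin 7) (Fin 7) k) (i) : (M * J331 k) i 1 = M i 2 := by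
  rw [Matrix.mul_apply, Fin.sum_univ_seven]; simp [J331]
theorem MJ2 (M : Matrix (Fin 7) (Fin 7) k) (i) : (M * J331 k) i 2 = 0 := by
  rw [Matrix.mul_apply, Fin.sum_univ_seven]; simp [J331]
theorem MJ3 (M : Matrix (Fin 7) (Fin 7) k) (i) : (M * J331 k) i 3 = M i 4 := by
  rw [Matrix.mul_apply, Fin.sum_univ_seven]; simp [J331]
theorem MJ4 (M : Matrix (Fin 7) (Fin 7) k) (i) : (M * J331 k) i 4 = M i 5 := by
  rw [Matrix.mul_apply, Fin.sum_univ_seven]; simp [J331]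
theorem MJ5 (M : Matrix (Fin 7) (Fin 7) k) (i) : (M * J331 k) i 5 = 0 := by
  rw [Matrix.mul_apply, Fin.sum_univ_seven]; simp [J331]
theorem MJ6 (M : Matrix (Fin 7) (Fin 7) k) (i) : (M * J331 k) i 6 = 0 := by
  rw [Matrix.mul_apply, Fin.sum_univ_seven]; simp [J331]

theorem gd_of {M : Matrix (Fin 7) (Fin 7) k} (h : J331 k * M = M * J331 k)
    (h2 : J331 k * (J331 k * M) = 0) (h3 : M * M * M = 0) : Gd M := by
  have e : ∀ i j, (J331 k * M) i j = (M * J331 k) i j := fun i j => by rw [h]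
  have e2 : ∀ i j, (J331 k * (J331 k * M)) i j = 0 := fun i j => by rw [h2]; rfl
  have r0 : ∀ j, M 0 j = 0 := fun j => by
    have := e2 2 j
    rwa [JM2, JM1] at this
  have r3 : ∀ j, M 3 j = 0 := fun j => by
    have := e2 5 j
    rwa [JM5, JM4] at this
  have m11 : M 1 1 = 0 := by have := e 1 0; rw [JM1, MJ0, r0] at this; exact this.symm
  have m12 : M 1 2 = 0 := by have := e 1 1; rw [JM1, MJ1, r0] at this; exact this.symm
  have m14 : M 1 4 = 0 := by have := e 1 3; rw [JM1, MJ3, r0] at this; exact this.symm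
  have m15 : M 1 5 = 0 := by have := e 1 4; rw [JM1, MJ4, r0] at this; exact this.symm
  have m16 : M 1 6 = 0 := by have := e 2 6; rw [JM2, MJ6] at this; exact this
  have m21 : M 2 1 = M 1 0 := by have := e 2 0; rw [JM2, MJ0] at this; exact this.symm
  have m22 : M 2 2 = 0 := by have := e 2 1; rw [JM2, MJ1, m11] at this; exact this.symm
  have m24 : M 2 4 = M 1 3 := by have := e 2 3; rw [JM2, MJ3] at this; exact this.symm
  have m25 : M 2 5 = 0 := by have := e 2 4; rw [JM2, MJ4, m14] at this; exact this.symm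
  have m41 : M 4 1 = 0 := by have := e 4 0; rw [JM4, MJ0, r3] at this; exact this.symm
  have m42 : M 4 2 = 0 := by have := e 4 1; rw [JM4, MJ1, r3] at this; exact this.symm
  have m44 : M 4 4 = 0 := by have := e 4 3; rw [JM4, MJ3, r3] at this; exact this.symm
  have m45 : M 4 5 = 0 := by have := e 4 4; rw [JM4, MJ4, r3] at this; exact this.symm
  have m46 : M 4 6 = 0 := by have := e 5 6; rw [JM5, MJ6] at this; exact this
  have m51 : M 5 1 = M 4 0 := by have := e 5 0; rw [JM5, MJ0] at this; exact this.symm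
  have m52 : M 5 2 = 0 := by have := e 5 1; rw [JM5, MJ1, m41] at this; exact this.symm
  have m54 : M 5 4 = M 4 3 := by have := e 5 3; rw [JM5, MJ3] at this; exact this.symm
  have m55 : M 5 5 = 0 := by have := e 5 4; rw [JM5, MJ4, m44] at this; exact this.symm
  have m61 : M 6 1 = 0 := by have := e 6 0; rw [JM6, MJ0] at this; exact this.symm
  have m62 : M 6 2 = 0 := by have := e 6 1; rw [JM6, MJ1] at this; exact this.symm
  have m64 : M 6 4 = 0 := by have := e 6 3; rw [JM6, MJ3] at this; exact this.symm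
  have m65 : M 6 5 = 0 := by have := e 6 4; rw [JM6, MJ4] at this; exact this.symm
  have m66 : M 6 6 = 0 := by
    have e3 : (M * M * M) 6 6 = 0 := by rw [h3]; rfl
    have e4 : ∀ j, (M * M) 6 j = M 6 6 * M 6 j := by
      intro j
      rw [Matrix.mul_apply, Fin.sum_univ_seven]
      simp only [m61, m62, m64, m65, r0, r3]
      ring
    rw [Matrix.mul_apply, Fin.sum_univ_seven] at e3
    simp only [e4, m61, m62, m64, m65, r0, r3] at e3
    have e5 : M 6 6 ^ 3 = 0 := by rw [← e3]; ring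
    exact pow_eq_zero_iff (by norm_num) |>.1 e5
  unfold Gd
  ext i j
  fin_cases i <;> fin_cases j <;> simp [B331, r0, r3, m11, m12, m14, m15, m16, m21, m22, m24, m25,
    m41, m42, m44, m45, m46, m51, m52, m54, m55, m61, m62, m64, m65, m66]

section
variable [CharZero k] {ρ : ℕ → ℕ} {T : Fin 3 → Matrix (Fin 7) (Fin 7) k}

theorem cube (hT : MaxR ρ T) (h3 : ρ 3 = 0) {X : Matrix (Fin 7) (Fin 7) k} (hX : X ∈ adj T) :
    X * X * X = 0 := by
  have h := hT.pow_eq_zero hX h3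
  rw [← h, pow_succ, pow_two]

theorem sqmul (hT : MaxR ρ T) (h3 : ρ 3 = 0) {X Y : Matrix (Fin 7) (Fin 7) k} (hX : X ∈ adj T)
    (hY : Y ∈ adj T) : X * (X * Y) = 0 := by
  have c : Y * X = X * Y := hT.cn.comm hY hX
  have h1 := cube hT h3 (add_mem hX hY)
  have h2 := cube hT h3 (sub_mem hX hY)
  have h4 := cube hT h3 hY
  have e1 : (X + Y) * (X + Y) * (X + Y) - (X - Y) * (X - Y) * (X - Y) - (2 : ℤ) • (Y * Y * Y) =
      (2 : ℤ) • (X * (X * Y)) + (2 : ℤ) • (X * (Y * X)) + (2 : ℤ) • (Y * X * X) := by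
    noncomm_ring
  rw [h1, h2, h4, c, show X * Y * X = X * (X * Y) by rw [mul_assoc, c]] at e1
  have e2 : (6 : ℤ) • (X * (X * Y)) = 0 := by
    rw [show (6 : ℤ) = 2 + 2 + 2 by norm_num, add_smul, add_smul, ← e1]
    simp
  ext i j
  have e3 := congrFun (congrFun e2 i) j
  simpa using e3

theorem shape (hT : MaxR ρ T) (h3 : ρ 3 = 0) (h0 : T 0 = J331 k) (i : Fin 3) : Gd (T i) := by
  have hA := mem_adj T 0
  have hB := mem_adj T i
  rw [h0] at hA
  exact gd_of (hT.cn.comm hA hB) (sqmul hT h3 hA hB) (cube hT h3 hB)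

omit [CharZero k] in
/-- linear changes -/
theorem chg2 (hT : MaxR ρ T) (a b c d : k) (h : a * d - b * c ≠ 0) :
    MaxR ρ ![T 0, a • T 1 + b • T 2, c • T 1 + d • T 2] := by
  have m := mem_adj T
  have hc : CN ![T 0, a • T 1 + b • T 2, c • T 1 + d • T 2] := by
    refine hT.cn.of_adj fun i => ?_
    fin_cases i
    · exact m 0
    · exact add_mem (SMulMemClass.smul_mem _ (m 1)) (SMulMemClass.smul_mem _ (m 2))
    · exact add_mem (SMulMemClass.smul_mem _ (m 1)) (SMulMemClass.smul_mem _ (m 2))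
  refine hT.change hc fun i => ?_
  have m' := mem_adj ![T 0, a • T 1 + b • T 2, c • T 1 + d • T 2]
  have m0 := m' 0
  have m1 := m' 1
  have m2 := m' 2
  simp only [Matrix.cons_val_zero, Matrix.cons_val_one, Matrix.cons_val_two,
    Matrix.head_cons, Matrix.tail_cons] at m0 m1 m2
  fin_cases i
  · exact m0
  · have e : (a * d - b * c) • T 1 = d • (a • T 1 + b • T 2) - b • (c • T 1 + d • T 2) := by
      module
    have hm := sub_mem (SMulMemClass.smul_mem d m1) (SMulMemClass.smul_mem b m2)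
    rw [← e] at hm
    have hm2 := SMulMemClass.smul_mem (a * d - b * c)⁻¹ hm
    rwa [inv_smul_smul₀ h] at hm2
  · have e : (a * d - b * c) • T 2 = a • (c • T 1 + d • T 2) - c • (a • T 1 + b • T 2) := by
      module
    have hm := sub_mem (SMulMemClass.smul_mem a m2) (SMulMemClass.smul_mem c m1)
    rw [← e] at hm
    have hm2 := SMulMemClass.smul_mem (a * d - b * c)⁻¹ hm
    rwa [inv_smul_smul₀ h] at hm2

/-- deformations -/
theorem dfm (hT : MaxR ρ T) (h0 : T 0 = J331 k) (g1 : Gd (T 1)) (g2 : Gd (T 2))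
    {D1 D2 : Matrix (Fin 7) (Fin 7) k} (d1 : Gd D1) (d2 : Gd D2)
    (hE : ∀ s : k, Eq4 (T 1 + s • D1) (T 2 + s • D2)) :
    ∃ E : Set k, E.Finite ∧ ∀ s ∉ E, MaxR ρ ![J331 k, T 1 + s • D1, T 2 + s • D2] := by
  refine hT.deform (fun s => ![J331 k, T 1 + s • D1, T 2 + s • D2]) ?_ ?_ Set.finite_empty ?_
  · intro i x y
    fin_cases i
    · exact IsPoly.const _
    · exact (IsPoly.const (T 1 x y)).add (IsPoly.id.mul (IsPoly.const (D1 x y)))
    · exact (IsPoly.const (T 2 x y)).add (IsPoly.id.mul (IsPoly.const (D2 x y)))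
  · funext i
    fin_cases i
    · exact h0.symm
    · simp
    · simp
  · intro s _
    exact cn_of (g1.add (d1.smul s)) (g2.add (d2.smul s)) (hE s)

end

/-! ### base change -/

/-- block diagonal matrices -/
def G (a b c d : k) : Matrix (Fin 7) (Fin 7) k :=
  !![a, 0, 0, b, 0, 0, 0;
     0, a, 0, 0, b, 0, 0;
     0, 0, a, 0, 0, b, 0;
     c, 0, 0, d, 0, 0, 0;
     0, c, 0, 0, d, 0, 0;
     0, 0, c, 0, 0, d, 0;
     0, 0, 0, 0, 0, 0, 1]

theorem G_mul (a b c d a' b' c' d' : k) : G a b c d * G a' b' c' d' =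
    G (a * a' + b * c') (a * b' + b * d') (c * a' + d * c') (c * b' + d * d') := by
  ext i j
  fin_cases i <;> fin_cases j <;>
    simp [G, Matrix.mul_apply, Fin.sum_univ_succ]

theorem G_one : G 1 0 0 1 = (1 : Matrix (Fin 7) (Fin 7) k) := by
  ext i j
  fin_cases i <;> fin_cases j <;> simp [G]

theorem G_J (a b c d : k) : G a b c d * J331 k = J331 k * G a b c d := by
  ext i j
  fin_cases i <;> fin_cases j <;>
    simp [G, J331, Matrix.mul_apply, Fin.sum_univ_succ]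

theorem G_26 (a b c d a' b' c' d' : k) (M : Matrix (Fin 7) (Fin 7) k) :
    (G a b c d * M * G a' b' c' d') 2 6 = a * M 2 6 + b * M 5 6 := by
  rw [Matrix.mul_apply, Fin.sum_univ_seven]
  simp [G, Matrix.mul_apply, Fin.sum_univ_seven]

theorem G_56 (a b c d a' b' c' d' : k) (M : Matrix (Fin 7) (Fin 7) k) :
    (G a b c d * M * G a' b' c' d') 5 6 = c * M 2 6 + d * M 5 6 := by
  rw [Matrix.mul_apply, Fin.sum_univ_seven]
  simp [G, Matrix.mul_apply, Fin.sum_univ_seven]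

/-- the permutation for the duality -/
def Pm (k : Type*) [Field k] : Matrix (Fin 7) (Fin 7) k :=
  !![0, 0, 1, 0, 0, 0, 0;
     0, 1, 0, 0, 0, 0, 0;
     1, 0, 0, 0, 0, 0, 0;
     0, 0, 0, 0, 0, 1, 0;
     0, 0, 0, 0, 1, 0, 0;
     0, 0, 0, 1, 0, 0, 0;
     0, 0, 0, 0, 0, 0, 1]

theorem Pm_mul : Pm k * Pm k = 1 := by
  ext i j
  fin_cases i <;> fin_cases j <;>
    simp [Pm, Matrix.mul_apply, Fin.sum_univ_succ]

theorem Pm_J : Pm k * (J331 k)ᵀ * Pm k = J331 k := by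
  have h : Pm k * (J331 k)ᵀ = J331 k * Pm k := by
    ext i j
    fin_cases i <;> fin_cases j <;>
      simp [Pm, J331, Matrix.mul_apply, Fin.sum_univ_succ]
  rw [h, mul_assoc, Pm_mul, mul_one]

theorem Pm_26 (M : Matrix (Fin 7) (Fin 7) k) : (Pm k * Mᵀ * Pm k) 2 6 = M 6 0 := by
  rw [Matrix.mul_apply, Fin.sum_univ_seven]
  simp [Pm, Matrix.mul_apply, Fin.sum_univ_seven]

theorem Pm_56 (M : Matrix (Fin 7) (Fin 7) k) : (Pm k * Mᵀ * Pm k) 5 6 = M 6 3 := by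
  rw [Matrix.mul_apply, Fin.sum_univ_seven]
  simp [Pm, Matrix.mul_apply, Fin.sum_univ_seven]

/-! ### entries -/

section
variable (a00 a01 a10 a11 m00 m01 m10 m11 t0 t1 w0 w1 : k)

theorem x10 : B331 a00 a01 a10 a11 m00 m01 m10 m11 t0 t1 w0 w1 1 0 = a00 := rfl
theorem x13 : B331 a00 a01 a10 a11 m00 m01 m10 m11 t0 t1 w0 w1 1 3 = a01 := rfl
theorem x40 : B331 a00 a01 a10 a11 m00 m01 m10 m11 t0 t1 w0 w1 4 0 = a10 := rfl
theorem x43 : B331 a00 a01 a10 a11 m00 m01 m10 m11 t0 t1 w0 w1 4 3 = a11 := rfl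
theorem x26 : B331 a00 a01 a10 a11 m00 m01 m10 m11 t0 t1 w0 w1 2 6 = t0 := rfl
theorem x56 : B331 a00 a01 a10 a11 m00 m01 m10 m11 t0 t1 w0 w1 5 6 = t1 := rfl
theorem x60 : B331 a00 a01 a10 a11 m00 m01 m10 m11 t0 t1 w0 w1 6 0 = w0 := rfl
theorem x63 : B331 a00 a01 a10 a11 m00 m01 m10 m11 t0 t1 w0 w1 6 3 = w1 := rfl

end

theorem J_cube : J331 k ^ 3 = 0 := by
  have h : B331 0 0 0 0 0 0 0 0 0 0 0 0 = (0 : Matrix (Fin 7) (Fin 7) k) := by
    ext i j
    fin_cases i <;> fin_cases j <;> simp [B331]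
  rw [J_eq, pow_succ, pow_two, B_mul, B_mul, ← h]
  congr 1 <;> ring

theorem exists_perp {x y : k} (h : x ≠ 0 ∨ y ≠ 0) : ∃ a b : k, x * b - y * a ≠ 0 := by
  rcases h with h | h
  · exact ⟨0, 1, by simpa using h⟩
  · exact ⟨1, 0, by simpa using h⟩

theorem exists_sq {x y : k} (h : x ≠ 0 ∨ y ≠ 0) : ∃ a b : k, b * x * x - a * y * y ≠ 0 := by
  rcases h with h | h
  · exact ⟨0, 1, by simpa using h⟩
  · exact ⟨1, 0, by simpa using h⟩

/-- commuting 2 x 2 matrices -/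
theorem comm2 {a00 a01 a10 a11 b00 b01 b10 b11 : k} (e1 : a01 * b10 = b01 * a10)
    (e2 : a00 * b01 + a01 * b11 = b00 * a01 + b01 * a11)
    (e3 : a10 * b00 + a11 * b10 = b10 * a00 + b11 * a10)
    (h : ¬ (b01 = 0 ∧ b10 = 0 ∧ b00 = b11)) :
    ∃ l : k, a01 = l * b01 ∧ a10 = l * b10 ∧ a00 - a11 = l * (b00 - b11) := by
  by_cases h1 : b01 = 0
  · by_cases h2 : b10 = 0
    · have h4 : b00 - b11 ≠ 0 := fun h5 => h ⟨h1, h2, sub_eq_zero.1 h5⟩
      refine ⟨(a00 - a11) / (b00 - b11), ?_, ?_, (div_mul_cancel₀ _ h4).symm⟩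
      · subst h1
        have h5 : (b00 - b11) * a01 = 0 := by linear_combination -e2
        rw [(mul_eq_zero.1 h5).resolve_left h4, mul_zero]
      · subst h2
        have h5 : (b00 - b11) * a10 = 0 := by linear_combination e3
        rw [(mul_eq_zero.1 h5).resolve_left h4, mul_zero]
    · refine ⟨a10 / b10, ?_, (div_mul_cancel₀ _ h2).symm, ?_⟩
      · rw [div_mul_eq_mul_div, eq_div_iff h2]
        linear_combination e1
      · rw [div_mul_eq_mul_div, eq_div_iff h2]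
        linear_combination -e3
  · refine ⟨a01 / b01, (div_mul_cancel₀ _ h1).symm, ?_, ?_⟩
    · rw [div_mul_eq_mul_div, eq_div_iff h1]
      linear_combination -e1
    · rw [div_mul_eq_mul_div, eq_div_iff h1]
      linear_combination e2

theorem dep2 {x y z w : k} (h : x * w - y * z = 0) (h' : z ≠ 0 ∨ w ≠ 0) :
    ∃ l : k, x = l * z ∧ y = l * w := by
  rcases h' with h' | h'
  · refine ⟨x / z, (div_mul_cancel₀ _ h').symm, ?_⟩
    rw [div_mul_eq_mul_div, eq_div_iff h']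
    linear_combination -h
  · refine ⟨y / w, ?_, (div_mul_cancel₀ _ h').symm⟩
    rw [div_mul_eq_mul_div, eq_div_iff h']
    linear_combination h

section
variable [IsAlgClosed k] [CharZero k] {ρ : ℕ → ℕ} {T : Fin 3 → Matrix (Fin 7) (Fin 7) k}

omit [CharZero k] in
theorem pick {E : Set k} (hE : E.Finite) : ∃ s, s ∉ E ∧ s ≠ 0 := by
  have : Infinite k := IsAlgClosed.instInfinite
  obtain ⟨s, hs⟩ := (hE.union (Set.finite_singleton (0 : k))).infinite_compl.nonempty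
  rw [Set.mem_compl_iff, Set.mem_union, not_or] at hs
  exact ⟨s, hs.1, hs.2⟩

omit [CharZero k] in
theorem pick2 {E : Set k} (hE : E.Finite) (e f : k) : ∃ s, s ∉ E ∧ s * s + e * s + f ≠ 0 := by
  have : Infinite k := IsAlgClosed.instInfinite
  have hF : {s : k | s * s + e * s + f = 0}.Finite := by
    by_cases h : ∃ r : k, r * r + e * r + f = 0
    · obtain ⟨r, hr⟩ := h
      refine ((Set.finite_singleton (-e - r)).insert r).subset fun s hs => ?_
      have hs' : s * s + e * s + f = 0 := hs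
      have h1 : (s - r) * (s - (-e - r)) = 0 := by linear_combination hs' - hr
      rcases mul_eq_zero.1 h1 with h2 | h2
      · exact Or.inl (sub_eq_zero.1 h2)
      · exact Or.inr (sub_eq_zero.1 h2)
    · refine Set.finite_empty.subset fun s hs => h ⟨s, hs⟩
  obtain ⟨s, hs⟩ := (hE.union hF).infinite_compl.nonempty
  rw [Set.mem_compl_iff, Set.mem_union, not_or] at hs
  exact ⟨s, hs.1, hs.2⟩

/-- independent `theta`'s -/
theorem indT (hρ : ∀ i, ρ i = (J331 k ^ i).rank) (hT : MaxR ρ T) (h0 : T 0 = J331 k)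
    (hd : T 1 2 6 * T 2 5 6 - T 1 5 6 * T 2 2 6 ≠ 0) : False := by
  have h3 : ρ 3 = 0 := by rw [hρ, J_cube, Matrix.rank_zero]
  set δ : k := T 1 2 6 * T 2 5 6 - T 1 5 6 * T 2 2 6 with hδ
  obtain ⟨T', hT', h0', b26, b56, c26, c56⟩ : ∃ T' : Fin 3 → Matrix (Fin 7) (Fin 7) k,
      MaxR ρ T' ∧ T' 0 = J331 k ∧ T' 1 2 6 = 1 ∧ T' 1 5 6 = 0 ∧ T' 2 2 6 = 0 ∧ T' 2 5 6 = 1 := by
    have i1 : δ⁻¹ * δ = 1 := inv_mul_cancel₀ hd
    have e1 : G (δ⁻¹ * T 2 5 6) (-(δ⁻¹ * T 2 2 6)) (-(δ⁻¹ * T 1 5 6)) (δ⁻¹ * T 1 2 6) *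
        G (T 1 2 6) (T 2 2 6) (T 1 5 6) (T 2 5 6) = 1 := by
      rw [G_mul, ← G_one]
      congr 1
      · linear_combination i1
      · ring
      · ring
      · linear_combination i1
    have e2 : G (T 1 2 6) (T 2 2 6) (T 1 5 6) (T 2 5 6) *
        G (δ⁻¹ * T 2 5 6) (-(δ⁻¹ * T 2 2 6)) (-(δ⁻¹ * T 1 5 6)) (δ⁻¹ * T 1 2 6) = 1 := by
      rw [G_mul, ← G_one]
      congr 1
      · linear_combination i1
      · ring
      · ring
      · linear_combination i1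
    refine ⟨_, hT.conj _ _ e1 e2, ?_, ?_, ?_, ?_, ?_⟩
    · show _ * T 0 * _ = _
      rw [h0, G_J, mul_assoc, e1, mul_one]
    · refine (G_26 _ _ _ _ _ _ _ _ (T 1)).trans ?_
      linear_combination i1
    · refine (G_56 _ _ _ _ _ _ _ _ (T 1)).trans ?_
      ring
    · refine (G_26 _ _ _ _ _ _ _ _ (T 2)).trans ?_
      ring
    · refine (G_56 _ _ _ _ _ _ _ _ (T 2)).trans ?_
      linear_combination i1
  have g1 : Gd (T' 1) := shape hT' h3 h0' 1
  have g2 : Gd (T' 2) := shape hT' h3 h0' 2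
  have e : T' = ![J331 k, B331 (T' 1 1 0) (T' 1 1 3) (T' 1 4 0) (T' 1 4 3) (T' 1 2 0) (T' 1 2 3)
      (T' 1 5 0) (T' 1 5 3) 1 0 (T' 1 6 0) (T' 1 6 3), B331 (T' 2 1 0) (T' 2 1 3) (T' 2 4 0)
      (T' 2 4 3) (T' 2 2 0) (T' 2 2 3) (T' 2 5 0) (T' 2 5 3) 0 1 (T' 2 6 0) (T' 2 6 3)] := by
    funext i
    fin_cases i
    · exact h0'
    · exact Eq.trans g1 (by rw [b26, b56]; rfl)
    · exact Eq.trans g2 (by rw [c26, c56]; rfl)
  rw [e] at hT'
  exact no_331g hρ hT'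

/-- independent `w`'s -/
theorem indW (hρ : ∀ i, ρ i = (J331 k ^ i).rank) (hT : MaxR ρ T) (h0 : T 0 = J331 k)
    (hd : T 1 6 0 * T 2 6 3 - T 1 6 3 * T 2 6 0 ≠ 0) : False := by
  refine indT hρ (hT.transpose.conj (Pm k) (Pm k) Pm_mul Pm_mul) ?_ ?_
  · show Pm k * (T 0)ᵀ * Pm k = _
    rw [h0, Pm_J]
  · show (Pm k * (T 1)ᵀ * Pm k) 2 6 * (Pm k * (T 2)ᵀ * Pm k) 5 6 -
      (Pm k * (T 1)ᵀ * Pm k) 5 6 * (Pm k * (T 2)ᵀ * Pm k) 2 6 ≠ 0
    rw [Pm_26, Pm_56, Pm_26, Pm_56]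
    exact hd

/-- both `theta`'s are zero -/
theorem caseZ (hρ : ∀ i, ρ i = (J331 k ^ i).rank) (hT : MaxR ρ T) (h0 : T 0 = J331 k)
    (b26 : T 1 2 6 = 0) (b56 : T 1 5 6 = 0) (c26 : T 2 2 6 = 0) (c56 : T 2 5 6 = 0) : False := by
  have h3 : ρ 3 = 0 := by rw [hρ, J_cube, Matrix.rank_zero]
  have g1 : Gd (T 1) := shape hT h3 h0 1
  have g2 : Gd (T 2) := shape hT h3 h0 2
  obtain ⟨c1, c2, c3, c4⟩ := (g1.comm_iff g2).1 (hT.cn.1 1 2)
  rw [b26, c26] at c1 c2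
  rw [b56, c56] at c3 c4
  obtain ⟨E, hE, h⟩ := dfm hT h0 g1 g2 (gd_B 0 0 0 0 0 0 0 0 0 0 1 0)
    (gd_B 0 0 0 0 0 0 0 0 0 0 0 1) (by
      intro s
      unfold Eq4
      simp only [Matrix.add_apply, Matrix.smul_apply, smul_eq_mul, x10, x13, x40, x43, x26, x56,
        x60, x63, b26, b56, c26, c56]
      refine ⟨?_, ?_, ?_, ?_⟩
      · linear_combination c1
      · linear_combination c2
      · linear_combination c3
      · linear_combination c4)
  obtain ⟨s, hs, hs2⟩ := pick2 hE (T 1 6 0 + T 2 6 3) (T 1 6 0 * T 2 6 3 - T 1 6 3 * T 2 6 0)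
  refine indW hρ (h s hs) rfl ?_
  simp only [Matrix.cons_val_zero, Matrix.cons_val_one, Matrix.cons_val_two,
    Matrix.head_cons, Matrix.tail_cons, Matrix.add_apply, Matrix.smul_apply, smul_eq_mul, x60, x63]
  intro h4
  apply hs2
  linear_combination h4

/-- `theta_C = 0`, `w_B = 0` -/
theorem caseA (hρ : ∀ i, ρ i = (J331 k ^ i).rank) (hT : MaxR ρ T) (h0 : T 0 = J331 k)
    (c26 : T 2 2 6 = 0) (c56 : T 2 5 6 = 0) (b60 : T 1 6 0 = 0) (b63 : T 1 6 3 = 0)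
    (ht : T 1 2 6 ≠ 0 ∨ T 1 5 6 ≠ 0) : False := by
  have h3 : ρ 3 = 0 := by rw [hρ, J_cube, Matrix.rank_zero]
  have g1 : Gd (T 1) := shape hT h3 h0 1
  have g2 : Gd (T 2) := shape hT h3 h0 2
  obtain ⟨c1, c2, c3, c4⟩ := (g1.comm_iff g2).1 (hT.cn.1 1 2)
  rw [c26, b60] at c1
  rw [c26, b63] at c2
  rw [c56, b60] at c3
  rw [c56, b63] at c4
  obtain ⟨a, b, hab⟩ := exists_perp ht
  obtain ⟨E, hE, h⟩ := dfm hT h0 g1 g2 (gd_B 0 0 0 0 0 0 0 0 0 0 0 0)
    (gd_B 0 0 0 0 0 0 0 0 a b 0 0) (by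
      intro s
      unfold Eq4
      simp only [Matrix.add_apply, Matrix.smul_apply, smul_eq_mul, x10, x13, x40, x43, x26, x56,
        x60, x63, b60, b63, c26, c56]
      refine ⟨?_, ?_, ?_, ?_⟩
      · linear_combination c1
      · linear_combination c2
      · linear_combination c3
      · linear_combination c4)
  obtain ⟨s, hs, hs2⟩ := pick hE
  refine indT hρ (h s hs) rfl ?_
  simp only [Matrix.cons_val_zero, Matrix.cons_val_one, Matrix.cons_val_two,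
    Matrix.head_cons, Matrix.tail_cons, Matrix.add_apply, Matrix.smul_apply, smul_eq_mul, x26, x56,
    c26, c56]
  intro h4
  apply mul_ne_zero hs2 hab
  linear_combination h4

/-- `theta_C = 0`, `w_C = 0`, `theta` is not an eigenvector of `N_C` -/
theorem caseAl (hρ : ∀ i, ρ i = (J331 k ^ i).rank) (hT : MaxR ρ T) (h0 : T 0 = J331 k)
    (c26 : T 2 2 6 = 0) (c56 : T 2 5 6 = 0) (c60 : T 2 6 0 = 0) (c63 : T 2 6 3 = 0)
    (ht : T 1 2 6 * (T 2 4 0 * T 1 2 6 + T 2 4 3 * T 1 5 6) -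
      T 1 5 6 * (T 2 1 0 * T 1 2 6 + T 2 1 3 * T 1 5 6) ≠ 0) : False := by
  have h3 : ρ 3 = 0 := by rw [hρ, J_cube, Matrix.rank_zero]
  have g1 : Gd (T 1) := shape hT h3 h0 1
  have g2 : Gd (T 2) := shape hT h3 h0 2
  obtain ⟨c1, c2, c3, c4⟩ := (g1.comm_iff g2).1 (hT.cn.1 1 2)
  rw [c26, c60] at c1
  rw [c26, c63] at c2
  rw [c56, c60] at c3
  rw [c56, c63] at c4
  obtain ⟨E, hE, h⟩ := dfm hT h0 g1 g2
    (gd_B (-(T 1 2 6 * T 1 6 0)) (-(T 1 2 6 * T 1 6 3)) (-(T 1 5 6 * T 1 6 0))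
      (-(T 1 5 6 * T 1 6 3)) 0 0 0 0 0 0 0 0)
    (gd_B 0 0 0 0 0 0 0 0 (T 2 1 0 * T 1 2 6 + T 2 1 3 * T 1 5 6)
      (T 2 4 0 * T 1 2 6 + T 2 4 3 * T 1 5 6) (T 1 6 0 * T 2 1 0 + T 1 6 3 * T 2 4 0)
      (T 1 6 0 * T 2 1 3 + T 1 6 3 * T 2 4 3)) (by
      intro s
      unfold Eq4
      simp only [Matrix.add_apply, Matrix.smul_apply, smul_eq_mul, x10, x13, x40, x43, x26, x56,
        x60, x63, c26, c56, c60, c63]
      refine ⟨?_, ?_, ?_, ?_⟩
      · linear_combination c1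
      · linear_combination c2
      · linear_combination c3
      · linear_combination c4)
  obtain ⟨s, hs, hs2⟩ := pick hE
  refine indT hρ (h s hs) rfl ?_
  simp only [Matrix.cons_val_zero, Matrix.cons_val_one, Matrix.cons_val_two,
    Matrix.head_cons, Matrix.tail_cons, Matrix.add_apply, Matrix.smul_apply, smul_eq_mul, x26, x56,
    c26, c56]
  intro h4
  apply mul_ne_zero hs2 ht
  linear_combination h4

/-- `theta_C = 0`, `w_C = 0`, `theta` is not an eigenvector of `N_B` -/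
theorem caseBe (hρ : ∀ i, ρ i = (J331 k ^ i).rank) (hT : MaxR ρ T) (h0 : T 0 = J331 k)
    (c26 : T 2 2 6 = 0) (c56 : T 2 5 6 = 0) (c60 : T 2 6 0 = 0) (c63 : T 2 6 3 = 0)
    (ht : T 1 2 6 * (T 1 4 0 * T 1 2 6 + T 1 4 3 * T 1 5 6) -
      T 1 5 6 * (T 1 1 0 * T 1 2 6 + T 1 1 3 * T 1 5 6) ≠ 0) : False := by
  have h3 : ρ 3 = 0 := by rw [hρ, J_cube, Matrix.rank_zero]
  have g1 : Gd (T 1) := shape hT h3 h0 1
  have g2 : Gd (T 2) := shape hT h3 h0 2
  obtain ⟨c1, c2, c3, c4⟩ := (g1.comm_iff g2).1 (hT.cn.1 1 2)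
  rw [c26, c60] at c1
  rw [c26, c63] at c2
  rw [c56, c60] at c3
  rw [c56, c63] at c4
  obtain ⟨E, hE, h⟩ := dfm hT h0 g1 g2 (gd_B 0 0 0 0 0 0 0 0 0 0 0 0)
    (gd_B (T 1 2 6 * T 1 6 0) (T 1 2 6 * T 1 6 3) (T 1 5 6 * T 1 6 0)
      (T 1 5 6 * T 1 6 3) 0 0 0 0 (T 1 1 0 * T 1 2 6 + T 1 1 3 * T 1 5 6)
      (T 1 4 0 * T 1 2 6 + T 1 4 3 * T 1 5 6) (T 1 6 0 * T 1 1 0 + T 1 6 3 * T 1 4 0)
      (T 1 6 0 * T 1 1 3 + T 1 6 3 * T 1 4 3)) (by
      intro s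
      unfold Eq4
      simp only [Matrix.add_apply, Matrix.smul_apply, smul_eq_mul, x10, x13, x40, x43, x26, x56,
        x60, x63, c26, c56, c60, c63]
      refine ⟨?_, ?_, ?_, ?_⟩
      · linear_combination c1
      · linear_combination c2
      · linear_combination c3
      · linear_combination c4)
  obtain ⟨s, hs, hs2⟩ := pick hE
  refine indT hρ (h s hs) rfl ?_
  simp only [Matrix.cons_val_zero, Matrix.cons_val_one, Matrix.cons_val_two,
    Matrix.head_cons, Matrix.tail_cons, Matrix.add_apply, Matrix.smul_apply, smul_eq_mul, x26, x56,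
    c26, c56]
  intro h4
  apply mul_ne_zero hs2 ht
  linear_combination h4

/-- `theta_C = 0`, `w_C = 0`, `N_C` scalar -/
theorem caseSC (hρ : ∀ i, ρ i = (J331 k ^ i).rank) (hT : MaxR ρ T) (h0 : T 0 = J331 k)
    (c26 : T 2 2 6 = 0) (c56 : T 2 5 6 = 0) (c60 : T 2 6 0 = 0) (c63 : T 2 6 3 = 0)
    (ht : T 1 2 6 ≠ 0 ∨ T 1 5 6 ≠ 0) (n1 : T 2 1 3 = 0) (n2 : T 2 4 0 = 0)
    (n3 : T 2 1 0 = T 2 4 3) : False := by
  by_cases hb : T 1 2 6 * (T 1 4 0 * T 1 2 6 + T 1 4 3 * T 1 5 6) -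
      T 1 5 6 * (T 1 1 0 * T 1 2 6 + T 1 1 3 * T 1 5 6) = 0
  swap
  · exact caseBe hρ hT h0 c26 c56 c60 c63 hb
  have h3 : ρ 3 = 0 := by rw [hρ, J_cube, Matrix.rank_zero]
  have g1 : Gd (T 1) := shape hT h3 h0 1
  have g2 : Gd (T 2) := shape hT h3 h0 2
  obtain ⟨a, b, hab⟩ := exists_sq ht
  obtain ⟨E, hE, h⟩ := dfm hT h0 g1 g2 (gd_B 0 a b 0 0 0 0 0 0 0 0 0)
    (gd_B 0 0 0 0 0 0 0 0 0 0 0 0) (by
      intro s
      unfold Eq4
      simp only [Matrix.add_apply, Matrix.smul_apply, smul_eq_mul, x10, x13, x40, x43, x26, x56,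
        x60, x63, c26, c56, c60, c63, n1, n2, n3]
      refine ⟨?_, ?_, ?_, ?_⟩ <;> ring)
  obtain ⟨s, hs, hs2⟩ := pick hE
  refine caseBe hρ (h s hs) rfl ?_ ?_ ?_ ?_ ?_
  · show (T 2 + s • _) 2 6 = 0
    simp only [Matrix.add_apply, Matrix.smul_apply, smul_eq_mul, x26, c26, mul_zero, add_zero]
  · show (T 2 + s • _) 5 6 = 0
    simp only [Matrix.add_apply, Matrix.smul_apply, smul_eq_mul, x56, c56, mul_zero, add_zero]
  · show (T 2 + s • _) 6 0 = 0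
    simp only [Matrix.add_apply, Matrix.smul_apply, smul_eq_mul, x60, c60, mul_zero, add_zero]
  · show (T 2 + s • _) 6 3 = 0
    simp only [Matrix.add_apply, Matrix.smul_apply, smul_eq_mul, x63, c63, mul_zero, add_zero]
  · simp only [Matrix.cons_val_zero, Matrix.cons_val_one,
      Matrix.add_apply, Matrix.smul_apply, smul_eq_mul,
      x10, x13, x40, x43, x26, x56]
    intro h4
    apply mul_ne_zero hs2 hab
    linear_combination h4 - hb

/-- `theta_C = 0`, `w_C = 0`, `N_B` scalar -/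
theorem caseSB (hρ : ∀ i, ρ i = (J331 k ^ i).rank) (hT : MaxR ρ T) (h0 : T 0 = J331 k)
    (c26 : T 2 2 6 = 0) (c56 : T 2 5 6 = 0) (c60 : T 2 6 0 = 0) (c63 : T 2 6 3 = 0)
    (ht : T 1 2 6 ≠ 0 ∨ T 1 5 6 ≠ 0) (n1 : T 1 1 3 = 0) (n2 : T 1 4 0 = 0)
    (n3 : T 1 1 0 = T 1 4 3) : False := by
  by_cases hb : T 1 2 6 * (T 2 4 0 * T 1 2 6 + T 2 4 3 * T 1 5 6) -
      T 1 5 6 * (T 2 1 0 * T 1 2 6 + T 2 1 3 * T 1 5 6) = 0
  swap
  · exact caseAl hρ hT h0 c26 c56 c60 c63 hb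
  have h3 : ρ 3 = 0 := by rw [hρ, J_cube, Matrix.rank_zero]
  have g1 : Gd (T 1) := shape hT h3 h0 1
  have g2 : Gd (T 2) := shape hT h3 h0 2
  obtain ⟨a, b, hab⟩ := exists_sq ht
  obtain ⟨E, hE, h⟩ := dfm hT h0 g1 g2 (gd_B 0 0 0 0 0 0 0 0 0 0 0 0)
    (gd_B 0 a b 0 0 0 0 0 0 0 0 0) (by
      intro s
      unfold Eq4
      simp only [Matrix.add_apply, Matrix.smul_apply, smul_eq_mul, x10, x13, x40, x43, x26, x56,
        x60, x63, c26, c56, c60, c63, n1, n2, n3]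
      refine ⟨?_, ?_, ?_, ?_⟩ <;> ring)
  obtain ⟨s, hs, hs2⟩ := pick hE
  refine caseAl hρ (h s hs) rfl ?_ ?_ ?_ ?_ ?_
  · show (T 2 + s • _) 2 6 = 0
    simp only [Matrix.add_apply, Matrix.smul_apply, smul_eq_mul, x26, c26, mul_zero, add_zero]
  · show (T 2 + s • _) 5 6 = 0
    simp only [Matrix.add_apply, Matrix.smul_apply, smul_eq_mul, x56, c56, mul_zero, add_zero]
  · show (T 2 + s • _) 6 0 = 0
    simp only [Matrix.add_apply, Matrix.smul_apply, smul_eq_mul, x60, c60, mul_zero, add_zero]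
  · show (T 2 + s • _) 6 3 = 0
    simp only [Matrix.add_apply, Matrix.smul_apply, smul_eq_mul, x63, c63, mul_zero, add_zero]
  · simp only [Matrix.cons_val_zero, Matrix.cons_val_one, Matrix.cons_val_two,
      Matrix.head_cons, Matrix.tail_cons, Matrix.add_apply, Matrix.smul_apply, smul_eq_mul,
      x10, x13, x40, x43, x26, x56]
    intro h4
    apply mul_ne_zero hs2 hab
    linear_combination h4 - hb

/-- `theta_C = 0`, `w_C = 0` -/
theorem caseB (hρ : ∀ i, ρ i = (J331 k ^ i).rank) (hT : MaxR ρ T) (h0 : T 0 = J331 k)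
    (c26 : T 2 2 6 = 0) (c56 : T 2 5 6 = 0) (c60 : T 2 6 0 = 0) (c63 : T 2 6 3 = 0)
    (ht : T 1 2 6 ≠ 0 ∨ T 1 5 6 ≠ 0) : False := by
  by_cases hn : T 2 1 3 = 0 ∧ T 2 4 0 = 0 ∧ T 2 1 0 = T 2 4 3
  · exact caseSC hρ hT h0 c26 c56 c60 c63 ht hn.1 hn.2.1 hn.2.2
  have h3 : ρ 3 = 0 := by rw [hρ, J_cube, Matrix.rank_zero]
  have g1 : Gd (T 1) := shape hT h3 h0 1
  have g2 : Gd (T 2) := shape hT h3 h0 2
  obtain ⟨c1, c2, c3, c4⟩ := (g1.comm_iff g2).1 (hT.cn.1 1 2)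
  rw [c26, c60] at c1
  rw [c26, c63] at c2
  rw [c56, c60] at c3
  obtain ⟨l, l1, l2, l3⟩ := comm2 (a00 := T 1 1 0) (a01 := T 1 1 3) (a10 := T 1 4 0)
    (a11 := T 1 4 3) (b00 := T 2 1 0) (b01 := T 2 1 3) (b10 := T 2 4 0) (b11 := T 2 4 3)
    (by linear_combination c1) (by linear_combination c2) (by linear_combination c3) hn
  have hT' := chg2 hT 1 (-l) 0 1 (by simp)
  refine caseSB hρ hT' h0 ?_ ?_ ?_ ?_ ?_ ?_ ?_ ?_
  · show ((0 : k) • T 1 + (1 : k) • T 2) 2 6 = 0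
    simp only [Matrix.add_apply, Matrix.smul_apply, smul_eq_mul, c26]
    ring
  · show ((0 : k) • T 1 + (1 : k) • T 2) 5 6 = 0
    simp only [Matrix.add_apply, Matrix.smul_apply, smul_eq_mul, c56]
    ring
  · show ((0 : k) • T 1 + (1 : k) • T 2) 6 0 = 0
    simp only [Matrix.add_apply, Matrix.smul_apply, smul_eq_mul, c60]
    ring
  · show ((0 : k) • T 1 + (1 : k) • T 2) 6 3 = 0
    simp only [Matrix.add_apply, Matrix.smul_apply, smul_eq_mul, c63]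
    ring
  · show ((1 : k) • T 1 + (-l) • T 2) 2 6 ≠ 0 ∨ ((1 : k) • T 1 + (-l) • T 2) 5 6 ≠ 0
    simp only [Matrix.add_apply, Matrix.smul_apply, smul_eq_mul, c26, c56]
    simpa using ht
  · show ((1 : k) • T 1 + (-l) • T 2) 1 3 = 0
    simp only [Matrix.add_apply, Matrix.smul_apply, smul_eq_mul]
    linear_combination l1
  · show ((1 : k) • T 1 + (-l) • T 2) 4 0 = 0
    simp only [Matrix.add_apply, Matrix.smul_apply, smul_eq_mul]
    linear_combination l2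
  · show ((1 : k) • T 1 + (-l) • T 2) 1 0 = ((1 : k) • T 1 + (-l) • T 2) 4 3
    simp only [Matrix.add_apply, Matrix.smul_apply, smul_eq_mul]
    linear_combination l3

/-- `theta_C = 0` -/
theorem caseM (hρ : ∀ i, ρ i = (J331 k ^ i).rank) (hT : MaxR ρ T) (h0 : T 0 = J331 k)
    (c26 : T 2 2 6 = 0) (c56 : T 2 5 6 = 0) (ht : T 1 2 6 ≠ 0 ∨ T 1 5 6 ≠ 0) : False := by
  by_cases hw : T 1 6 0 * T 2 6 3 - T 1 6 3 * T 2 6 0 = 0
  swap
  · exact indW hρ hT h0 hw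
  by_cases hz : T 2 6 0 = 0 ∧ T 2 6 3 = 0
  · exact caseB hρ hT h0 c26 c56 hz.1 hz.2 ht
  obtain ⟨l, l1, l2⟩ := dep2 hw (by
    by_contra h
    push Not at h
    exact hz h)
  have hT' := chg2 hT 1 (-l) 0 1 (by simp)
  refine caseA hρ hT' h0 ?_ ?_ ?_ ?_ ?_
  · show ((0 : k) • T 1 + (1 : k) • T 2) 2 6 = 0
    simp only [Matrix.add_apply, Matrix.smul_apply, smul_eq_mul, c26]
    ring
  · show ((0 : k) • T 1 + (1 : k) • T 2) 5 6 = 0
    simp only [Matrix.add_apply, Matrix.smul_apply, smul_eq_mul, c56]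
    ring
  · show ((1 : k) • T 1 + (-l) • T 2) 6 0 = 0
    simp only [Matrix.add_apply, Matrix.smul_apply, smul_eq_mul]
    linear_combination l1
  · show ((1 : k) • T 1 + (-l) • T 2) 6 3 = 0
    simp only [Matrix.add_apply, Matrix.smul_apply, smul_eq_mul]
    linear_combination l2
  · show ((1 : k) • T 1 + (-l) • T 2) 2 6 ≠ 0 ∨ ((1 : k) • T 1 + (-l) • T 2) 5 6 ≠ 0
    simp only [Matrix.add_apply, Matrix.smul_apply, smul_eq_mul, c26, c56]
    simpa using ht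

/-- `theta_C` is not zero, `theta_B` is a multiple of it -/
theorem caseN (hρ : ∀ i, ρ i = (J331 k ^ i).rank) (hT : MaxR ρ T) (h0 : T 0 = J331 k)
    (hd : T 1 2 6 * T 2 5 6 - T 1 5 6 * T 2 2 6 = 0) (ht : T 2 2 6 ≠ 0 ∨ T 2 5 6 ≠ 0) :
    False := by
  obtain ⟨l, l1, l2⟩ := dep2 hd ht
  have hT' := chg2 hT 0 1 1 (-l) (by simp)
  refine caseM hρ hT' h0 ?_ ?_ ?_
  · show ((1 : k) • T 1 + (-l) • T 2) 2 6 = 0
    simp only [Matrix.add_apply, Matrix.smul_apply, smul_eq_mul]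
    linear_combination l1
  · show ((1 : k) • T 1 + (-l) • T 2) 5 6 = 0
    simp only [Matrix.add_apply, Matrix.smul_apply, smul_eq_mul]
    linear_combination l2
  · show ((0 : k) • T 1 + (1 : k) • T 2) 2 6 ≠ 0 ∨ ((0 : k) • T 1 + (1 : k) • T 2) 5 6 ≠ 0
    simp only [Matrix.add_apply, Matrix.smul_apply, smul_eq_mul]
    simpa using ht

end

end T331aAux

open T331aAux in
/-- Type (3,3,1) does not occur. -/
theorem no_331 {k : Type*} [Field k] [IsAlgClosed k] [CharZero k] {ρ : ℕ → ℕ}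
    {T : Fin 3 → Matrix (Fin 7) (Fin 7) k} (hT : MaxR ρ T)
    (hρ : ∀ i, ρ i = (J331 k ^ i).rank) (h0 : T 0 = J331 k) : False := by
  by_cases hd : T 1 2 6 * T 2 5 6 - T 1 5 6 * T 2 2 6 = 0
  swap
  · exact indT hρ hT h0 hd
  by_cases hC : T 2 2 6 = 0 ∧ T 2 5 6 = 0
  · by_cases hB : T 1 2 6 = 0 ∧ T 1 5 6 = 0
    · exact caseZ hρ hT h0 hB.1 hB.2 hC.1 hC.2
    · refine caseM hρ hT h0 hC.1 hC.2 ?_
      by_contra h
      push Not at h
      exact hB h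
  · refine caseN hρ hT h0 hd ?_
    by_contra h
    push Not at h
    exact hC h

end Pool.Agent.Lib.D7
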