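import Pool.Agent.Lib.D7.T421bA
import Pool.Agent.Lib.D7.R421

/-!
# D7.T421b: type (4, 2, 1), the last case
-/

namespace Pool.Agent.Lib.D7
open Matrix Pool.Agent.Lib.Q5dc
namespace T421bAux

section last

variable {k : Type*} [Field k]

/-- the final triple -/
def TF (be ga b g th et a c l r ρ l' r' ρ' : k) : Fin 3 → Matrix (Fin 7) (Fin 7) k :=
  ![fX be ga b g th et a c, fY be ga b g th et l r ρ, fY be ga b g th et l' r' ρ']

theorem TF0 (be ga b g th et a c l r ρ l' r' ρ' : k) :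
    TF be ga b g th et a c l r ρ l' r' ρ' 0 = fX be ga b g th et a c := by
  rw [TF, Matrix.cons_val_zero]

theorem TF1 (be ga b g th et a c l r ρ l' r' ρ' : k) :
    TF be ga b g th et a c l r ρ l' r' ρ' 1 = fY be ga b g th et l r ρ := by
  rw [TF, Matrix.cons_val_one, Matrix.cons_val_zero]

theorem TF2 (be ga b g th et a c l r ρ l' r' ρ' : k) :
    TF be ga b g th et a c l r ρ l' r' ρ' 2 = fY be ga b g th et l' r' ρ' := by
  simp only [TF, Matrix.cons_val]

theorem TF_mem (be ga b g th et a c l r ρ l' r' ρ' : k) (i : Fin 3) :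
    TF be ga b g th et a c l r ρ l' r' ρ' i ∈ adj (TA 1 0 0 be ga b g 0 0 1 b g th et) := by
  have m0 := mem_adj (TA 1 0 0 be ga b g 0 0 1 b g th et) 0
  have m1 := mem_adj (TA 1 0 0 be ga b g 0 0 1 b g th et) 1
  have m2 := mem_adj (TA 1 0 0 be ga b g 0 0 1 b g th et) 2
  rw [TA0] at m0
  rw [TA1] at m1
  rw [TA2] at m2
  have m3 := mul_mem m0 m0
  rw [JJ] at m3
  match i with
  | 0 =>
    rw [TF0, fX]
    exact add_mem (add_mem m0 (SMulMemClass.smul_mem a m1)) (SMulMemClass.smul_mem c m2)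
  | 1 =>
    rw [TF1, fY]
    exact SMulMemClass.smul_mem l (sub_mem (sub_mem m1 (SMulMemClass.smul_mem r m2))
      (SMulMemClass.smul_mem ρ m3))
  | 2 =>
    rw [TF2, fY]
    exact SMulMemClass.smul_mem l' (sub_mem (sub_mem m1 (SMulMemClass.smul_mem r' m2))
      (SMulMemClass.smul_mem ρ' m3))

theorem TF_nak {be ga b g th et a c l r ρ l' r' ρ' : k} (hc : CN (TA 1 0 0 be ga b g 0 0 1 b g th et))
    (hl : l ≠ 0) (hl' : l' ≠ 0) (hr : r - r' ≠ 0) (i : Fin 3) :
    TA 1 0 0 be ga b g 0 0 1 b g th et i ∈ adj (TF be ga b g th et a c l r ρ l' r' ρ') := by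
  refine adj_nak hc (TF_mem be ga b g th et a c l r ρ l' r' ρ') (fun i => ?_) i
  have m0 := mem_adj (TA 1 0 0 be ga b g 0 0 1 b g th et) 0
  rw [TA0] at m0
  have hJ : J2 k ∈ Submodule.span k {M : Matrix (Fin 7) (Fin 7) k |
      ∃ P ∈ adj (TA 1 0 0 be ga b g 0 0 1 b g th et),
        ∃ Q ∈ adj (TA 1 0 0 be ga b g 0 0 1 b g th et), M = P * Q} :=
    Submodule.subset_span ⟨_, m0, _, m0, JJ.symm⟩
  have n0 := mem_adj (TF be ga b g th et a c l r ρ l' r' ρ') 0
  have n1 := mem_adj (TF be ga b g th et a c l r ρ l' r' ρ') 1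
  have n2 := mem_adj (TF be ga b g th et a c l r ρ l' r' ρ') 2
  rw [TF0] at n0
  rw [TF1] at n1
  rw [TF2] at n2
  have k1 : (-(r' / (r - r') * l⁻¹)) • fY be ga b g th et l r ρ
      + (r / (r - r') * l'⁻¹) • fY be ga b g th et l' r' ρ' ∈
      adj (TF be ga b g th et a c l r ρ l' r' ρ') :=
    add_mem (SMulMemClass.smul_mem _ n1) (SMulMemClass.smul_mem _ n2)
  have k2 : (-(1 / (r - r') * l⁻¹)) • fY be ga b g th et l r ρ
      + (1 / (r - r') * l'⁻¹) • fY be ga b g th et l' r' ρ' ∈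
      adj (TF be ga b g th et a c l r ρ l' r' ρ') :=
    add_mem (SMulMemClass.smul_mem _ n1) (SMulMemClass.smul_mem _ n2)
  have d1 : B421 1 0 0 0 be ga 0 b g - ((-(r' / (r - r') * l⁻¹)) • fY be ga b g th et l r ρ
      + (r / (r - r') * l'⁻¹) • fY be ga b g th et l' r' ρ') =
      ((r * ρ' - r' * ρ) / (r - r')) • J2 k := by
    unfold fY
    match_scalars <;> field_simp <;> ring
  have d2 : B421 0 0 1 0 b g 0 th et - ((-(1 / (r - r') * l⁻¹)) • fY be ga b g th et l r ρ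
      + (1 / (r - r') * l'⁻¹) • fY be ga b g th et l' r' ρ') =
      ((ρ' - ρ) / (r - r')) • J2 k := by
    unfold fY
    match_scalars <;> field_simp <;> ring
  match i with
  | 0 =>
    refine ⟨fX be ga b g th et a c - a • ((-(r' / (r - r') * l⁻¹)) • fY be ga b g th et l r ρ
      + (r / (r - r') * l'⁻¹) • fY be ga b g th et l' r' ρ')
      - c • ((-(1 / (r - r') * l⁻¹)) • fY be ga b g th et l r ρ
      + (1 / (r - r') * l'⁻¹) • fY be ga b g th et l' r' ρ'),
      sub_mem (sub_mem n0 (SMulMemClass.smul_mem a k1)) (SMulMemClass.smul_mem c k2), ?_⟩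
    rw [TA0]
    have e : J421 k - (fX be ga b g th et a c
      - a • ((-(r' / (r - r') * l⁻¹)) • fY be ga b g th et l r ρ
      + (r / (r - r') * l'⁻¹) • fY be ga b g th et l' r' ρ')
      - c • ((-(1 / (r - r') * l⁻¹)) • fY be ga b g th et l r ρ
      + (1 / (r - r') * l'⁻¹) • fY be ga b g th et l' r' ρ')) =
        (-a) • (B421 1 0 0 0 be ga 0 b g - ((-(r' / (r - r') * l⁻¹)) • fY be ga b g th et l r ρ
      + (r / (r - r') * l'⁻¹) • fY be ga b g th et l' r' ρ'))
        + (-c) • (B421 0 0 1 0 b g 0 th et - ((-(1 / (r - r') * l⁻¹)) • fY be ga b g th et l r ρ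
      + (1 / (r - r') * l'⁻¹) • fY be ga b g th et l' r' ρ')) := by
      unfold fX
      module
    rw [e, d1, d2]
    exact add_mem (Submodule.smul_mem _ _ (Submodule.smul_mem _ _ hJ))
      (Submodule.smul_mem _ _ (Submodule.smul_mem _ _ hJ))
  | 1 =>
    refine ⟨_, k1, ?_⟩
    rw [TA1, d1]
    exact Submodule.smul_mem _ _ hJ
  | 2 =>
    refine ⟨_, k2, ?_⟩
    rw [TA2, d2]
    exact Submodule.smul_mem _ _ hJ

variable {ρ : ℕ → ℕ}

theorem step6 [IsAlgClosed k] [CharZero k] (h4 : ρ 4 = 0)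
    {be ga b g th et a c l r s l' r' s' : k}
    (hT : MaxR ρ (TA 1 0 0 be ga b g 0 0 1 b g th et))
    (h1 : 1 + a * ga + c * g = 0) (h2 : a * g + c * et = 0)
    (hs : s = a * be - a * r * b + c * b - c * r * th)
    (hs' : s' = a * be - a * r' * b + c * b - c * r' * th)
    (h3 : ga - (r + r') * g + r * r' * et = 0) (h5 : be - (r + r') * b + r * r' * th = 0)
    (h6 : l ^ 2 * (ga - 2 * g * r + et * r ^ 2) + l' ^ 2 * (ga - 2 * g * r' + et * r' ^ 2) = 0)
    (h7 : l ^ 2 * (be - 2 * b * r + th * r ^ 2) + l' ^ 2 * (be - 2 * b * r' + th * r' ^ 2) = 1)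
    (hl : l ≠ 0) (hl' : l' ≠ 0) (hr : r - r' ≠ 0)
    (hd : (be - 2 * b * r + th * r ^ 2) * (ga - 2 * g * r' + et * r' ^ 2) -
      (be - 2 * b * r' + th * r' ^ 2) * (ga - 2 * g * r + et * r ^ 2) ≠ 0) : False := by
  have F := full_N be ga b g th et
  have hXY : fX be ga b g th et a c * fY be ga b g th et l r s = 0 :=
    F.xy a c r s l (by rw [h1, h2]; ring) hs
  have hYX : fY be ga b g th et l r s * fX be ga b g th et a c = 0 :=
    F.yx a c r s l (by rw [h1, h2]; ring) hs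
  have hXZ : fX be ga b g th et a c * fY be ga b g th et l' r' s' = 0 :=
    F.xy a c r' s' l' (by rw [h1, h2]; ring) hs'
  have hZX : fY be ga b g th et l' r' s' * fX be ga b g th et a c = 0 :=
    F.yx a c r' s' l' (by rw [h1, h2]; ring) hs'
  have hYZ : fY be ga b g th et l r s * fY be ga b g th et l' r' s' = 0 :=
    F.yz r r' s s' l l' h3 h5
  have hZY : fY be ga b g th et l' r' s' * fY be ga b g th et l r s = 0 :=
    F.yz r' r s' s l' l (by linear_combination h3) (by linear_combination h5)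
  have hX : fX be ga b g th et a c * (fX be ga b g th et a c * fX be ga b g th et a c) =
      fY be ga b g th et l r s * fY be ga b g th et l r s
        + fY be ga b g th et l' r' s' * fY be ga b g th et l' r' s' := by
    have e1 : fX be ga b g th et a c * (fX be ga b g th et a c * fX be ga b g th et a c)
        = E2 0 1 := F.xxx a c
    have e2 : fY be ga b g th et l r s * fY be ga b g th et l r s = _ := F.yy r s l
    have e3 : fY be ga b g th et l' r' s' * fY be ga b g th et l' r' s' = _ := F.yy r' s' l'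
    rw [e1, e2, e3]
    match_scalars
    · linear_combination -h7
    · linear_combination -h6
  obtain ⟨g1, g2, g3⟩ := cols_mul (fX be ga b g th et a c) (fY be ga b g th et l r s)
    (fY be ga b g th et l' r' s') (Pi.single 0 1) hXY hYX hXZ hZX hYZ hZY hX
  have hdet : IsUnit (cols (fX be ga b g th et a c) (fY be ga b g th et l r s)
      (fY be ga b g th et l' r' s') (Pi.single 0 1)).det := by
    rw [cols_fin]
    refine det_HH ?_ ?_
    · have e : l * -(l' * r') - l' * -(l * r) = l * l' * (r - r') := by ring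
      rw [e]
      exact mul_ne_zero (mul_ne_zero hl hl') hr
    · have e : l ^ 2 * (be - 2 * b * r + th * r ^ 2) * (l' ^ 2 * (ga - 2 * g * r' + et * r' ^ 2)) -
        l' ^ 2 * (be - 2 * b * r' + th * r' ^ 2) * (l ^ 2 * (ga - 2 * g * r + et * r ^ 2)) =
        l ^ 2 * l' ^ 2 * ((be - 2 * b * r + th * r ^ 2) * (ga - 2 * g * r' + et * r' ^ 2) -
      (be - 2 * b * r' + th * r' ^ 2) * (ga - 2 * g * r + et * r ^ 2)) := by ring
      rw [e]
      exact mul_ne_zero (mul_ne_zero (pow_ne_zero 2 hl) (pow_ne_zero 2 hl')) hd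
  obtain ⟨H, hH⟩ : ∃ H, H = cols (fX be ga b g th et a c) (fY be ga b g th et l r s)
      (fY be ga b g th et l' r' s') (Pi.single 0 1) := ⟨_, rfl⟩
  rw [← hH] at g1 g2 g3 hdet
  have i1 : H⁻¹ * H = 1 := Matrix.nonsing_inv_mul H hdet
  have i2 : H * H⁻¹ = 1 := Matrix.mul_nonsing_inv H hdet
  have hcn : CN (TF be ga b g th et a c l r s l' r' s') :=
    CN.of_adj hT.cn (TF_mem be ga b g th et a c l r s l' r' s')
  have hM := (hT.change hcn (TF_nak hT.cn hl hl' hr)).conj H⁻¹ H i1 i2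
  have hfin : (fun i => H⁻¹ * TF be ga b g th et a c l r s l' r' s' i * H) = R421 (0 : k) := by
    funext i
    match i with
    | 0 => rw [TF0, Matrix.mul_assoc, g1, ← Matrix.mul_assoc, i1, Matrix.one_mul]
    | 1 => rw [TF1, Matrix.mul_assoc, g2, ← Matrix.mul_assoc, i1, Matrix.one_mul]
    | 2 => rw [TF2, Matrix.mul_assoc, g3, ← Matrix.mul_assoc, i1, Matrix.one_mul]
  rw [hfin] at hM
  exact no_R421 hM h4

theorem step5 [IsAlgClosed k] [CharZero k] (h4 : ρ 4 = 0) {be ga b g th et : k}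
    (hT : MaxR ρ (TA 1 0 0 be ga b g 0 0 1 b g th et)) (hG : Gen be ga b g th et ≠ 0) :
    False := by
  obtain ⟨k1, hk1⟩ : ∃ x, x = g * th - et * b := ⟨_, rfl⟩
  obtain ⟨k2, hk2⟩ : ∃ x, x = et * be - ga * th := ⟨_, rfl⟩
  obtain ⟨k3, hk3⟩ : ∃ x, x = ga * b - g * be := ⟨_, rfl⟩
  obtain ⟨D, hD⟩ : ∃ x, x = ga * et - g ^ 2 := ⟨_, rfl⟩
  rw [Gen, ← hk1, ← hk2, ← hk3, ← hD] at hG
  have hR := right_ne_zero_of_mul hG
  have hG' := left_ne_zero_of_mul hG
  have hdisc := right_ne_zero_of_mul hG'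
  have hG'' := left_ne_zero_of_mul hG'
  have hk : k1 ≠ 0 := right_ne_zero_of_mul hG''
  have hD0 : D ≠ 0 := left_ne_zero_of_mul hG''
  obtain ⟨δ, hδ⟩ := IsAlgClosed.exists_pow_nat_eq (k2 ^ 2 - 4 * k1 * k3) (n := 2) (by norm_num)
  have hδ0 : δ ≠ 0 := by
    rintro rfl
    apply hdisc
    rw [← hδ]
    ring
  have h2 : (2 : k) ≠ 0 := two_ne_zero
  obtain ⟨r, hr⟩ : ∃ x, x = (-k2 + δ) / (2 * k1) := ⟨_, rfl⟩
  obtain ⟨r', hr'⟩ : ∃ x, x = (-k2 - δ) / (2 * k1) := ⟨_, rfl⟩
  have hσ : k1 * (r + r') = -k2 := by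
    rw [hr, hr']
    field_simp
    ring
  have hπ : k1 * (r * r') = k3 := by
    rw [hr, hr']
    field_simp
    linear_combination -hδ
  have hrr : r - r' ≠ 0 := by
    have e : k1 * (r - r') = δ := by
      rw [hr, hr']
      field_simp
      ring
    intro h
    rw [h, mul_zero] at e
    exact hδ0 e.symm
  obtain ⟨q, hq⟩ : ∃ x, x = ga - 2 * g * r + et * r ^ 2 := ⟨_, rfl⟩
  obtain ⟨q', hq'⟩ : ∃ x, x = ga - 2 * g * r' + et * r' ^ 2 := ⟨_, rfl⟩
  obtain ⟨p, hp⟩ : ∃ x, x = be - 2 * b * r + th * r ^ 2 := ⟨_, rfl⟩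
  obtain ⟨p', hp'⟩ : ∃ x, x = be - 2 * b * r' + th * r' ^ 2 := ⟨_, rfl⟩
  have hqq : k1 ^ 2 * (q * q') = (k1 * ga - k3 * et) ^ 2 +
      (2 * g * k1 + k2 * et) * (k2 * ga + 2 * g * k3) := by
    rw [hq, hq']
    linear_combination (-2 * g * ga * k1 + et * ga * (k1 * (r + r') - k2) - 2 * g * et * k3) * hσ
      + (-2 * et * ga * k1 + 4 * g ^ 2 * k1 - 2 * g * et * (k1 * (r + r'))
        + et ^ 2 * (k1 * (r * r') + k3)) * hπ
  have hqq0 : q * q' ≠ 0 := by
    intro h
    rw [h, mul_zero] at hqq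
    exact hR hqq.symm
  have hq0 : q ≠ 0 := left_ne_zero_of_mul hqq0
  have hq'0 : q' ≠ 0 := right_ne_zero_of_mul hqq0
  obtain ⟨Dt, hDt⟩ : ∃ x, x = p * q' - p' * q := ⟨_, rfl⟩
  have hDt1 : k1 * Dt = (r - r') * (k2 ^ 2 - 4 * k1 * k3) := by
    have e : Dt = -(r - r') * (2 * k3 + (r + r') * k2 + 2 * (r * r') * k1) := by
      rw [hDt, hp, hp', hq, hq', hk1, hk2, hk3]
      ring
    rw [e]
    linear_combination (-(r - r') * k2) * hσ + (-(r - r') * 2 * k1) * hπ
  have hDt0 : Dt ≠ 0 := by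
    intro h
    rw [h, mul_zero] at hDt1
    exact mul_ne_zero hrr hdisc hDt1.symm
  obtain ⟨l, hl⟩ := IsAlgClosed.exists_pow_nat_eq (q' / Dt) (n := 2) (by norm_num)
  obtain ⟨l', hl'⟩ := IsAlgClosed.exists_pow_nat_eq (-q / Dt) (n := 2) (by norm_num)
  have hl0 : l ≠ 0 := by
    rintro rfl
    have : q' / Dt ≠ 0 := div_ne_zero hq'0 hDt0
    apply this
    rw [← hl]
    ring
  have hl'0 : l' ≠ 0 := by
    rintro rfl
    have : -q / Dt ≠ 0 := div_ne_zero (neg_ne_zero.2 hq0) hDt0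
    apply this
    rw [← hl']
    ring
  refine step6 h4 (a := -et / D) (c := g / D) (l := l) (l' := l') (r := r) (r' := r') hT
    ?_ ?_ rfl rfl ?_ ?_ ?_ ?_ hl0 hl'0 hrr ?_
  · field_simp
    rw [hD]
    ring
  · field_simp
    ring
  · apply (mul_right_injective₀ hk)
    show k1 * (ga - (r + r') * g + r * r' * et) = k1 * 0
    have e : k1 * ga + k2 * g + k3 * et = 0 := by
      rw [hk1, hk2, hk3]
      ring
    linear_combination -g * hσ + et * hπ + e
  · apply (mul_right_injective₀ hk)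
    show k1 * (be - (r + r') * b + r * r' * th) = k1 * 0
    have e : k1 * be + k2 * b + k3 * th = 0 := by
      rw [hk1, hk2, hk3]
      ring
    linear_combination -b * hσ + th * hπ + e
  · rw [← hq, ← hq', hl, hl']
    ring
  · rw [← hp, ← hp', hl, hl']
    field_simp
    rw [hDt]
    ring
  · rw [← hp, ← hp', ← hq, ← hq', ← hDt]
    exact hDt0

end last

end T421bAux

open T421bAux in
/-- type `(4, 2, 1)`, the case without the parameters `be`, `pi` -/
theorem no_421A {k : Type*} [Field k] [IsAlgClosed k] [CharZero k] {ρ : ℕ → ℕ}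
    (hρ : ∀ i, ρ i = (J421 k ^ i).rank)
    {al al1 om be1 ga th et al' al1' om' be1' ga' th' et' : k}
    (hT : MaxR ρ ![J421 k, B421 al al1 om 0 be1 ga 0 th et,
      B421 al' al1' om' 0 be1' ga' 0 th' et']) : False := by
  have : Infinite k := CharZero.infinite k
  have h4 : ρ 4 = 0 := by
    have e : J421 k ^ 4 = 0 := by
      have e1 : J421 k ^ 4 = J421 k * (J421 k * (J421 k * J421 k)) := by
        simp only [pow_succ, pow_zero, Matrix.one_mul, Matrix.mul_assoc]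
      rw [e1, JJ, JJ2, JE]
    rw [hρ, e, Matrix.rank_zero]
  obtain ⟨be2, ga2, b2, g2, th2, et2, h1⟩ := step1 hT
  obtain ⟨be3, ga3, b3, g3, th3, et3, h2, h3⟩ := step4 h1
  exact step5 h4 h2 h3

end Pool.Agent.Lib.D7
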