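import Pool.Agent.Lib.D7.Api
import Pool.Agent.Lib.D7.T421b

/-!
# MP_5dcbc3_ag: no maximal bad triple with Jordan type `(4, 2, 1)`
-/

namespace Pool.Agent.Lib.D7

open Matrix

variable {k : Type*} [Field k]

namespace T421aAux

/-! ### explicit matrices -/

theorem mulB (al al1 om be be1 ga pi th et al' al1' om' be' be1' ga' pi' th' et' : k) :
    B421 al al1 om be be1 ga pi th et * B421 al' al1' om' be' be1' ga' pi' th' et' =
    !![0, 0, 0, 0, 0, 0, 0;
     0, 0, 0, 0, 0, 0, 0;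
     al' * be, 0, 0, 0, 0, 0, 0;
     al' * be1 + al1' * be + om' * th, al' * be, 0, 0, ga' * be + pi' * th, 0, et' * be;
     0, 0, 0, 0, 0, 0, 0;
     al' * ga + om' * et, 0, 0, 0, pi' * et, 0, 0;
     al' * pi, 0, 0, 0, 0, 0, 0] := by
  ext i j
  fin_cases i <;> fin_cases j <;>
    simp [B421, Matrix.mul_apply, Fin.sum_univ_succ] <;> ring

theorem JB (al al1 om be be1 ga pi th et : k) :
    J421 k * B421 al al1 om be be1 ga pi th et = B421 0 al 0 0 be 0 0 0 0 := by
  ext i j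
  fin_cases i <;> fin_cases j <;>
    simp [B421, J421, Matrix.mul_apply, Fin.sum_univ_succ]

theorem BJ (al al1 om be be1 ga pi th et : k) :
    B421 al al1 om be be1 ga pi th et * J421 k = B421 0 al 0 0 be 0 0 0 0 := by
  ext i j
  fin_cases i <;> fin_cases j <;>
    simp [B421, J421, Matrix.mul_apply, Fin.sum_univ_succ]

theorem addB (al al1 om be be1 ga pi th et al' al1' om' be' be1' ga' pi' th' et' : k) :
    B421 al al1 om be be1 ga pi th et + B421 al' al1' om' be' be1' ga' pi' th' et' =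
    B421 (al + al') (al1 + al1') (om + om') (be + be') (be1 + be1') (ga + ga') (pi + pi')
      (th + th') (et + et') := by
  ext i j
  fin_cases i <;> fin_cases j <;> simp [B421]

theorem subB (al al1 om be be1 ga pi th et al' al1' om' be' be1' ga' pi' th' et' : k) :
    B421 al al1 om be be1 ga pi th et - B421 al' al1' om' be' be1' ga' pi' th' et' =
    B421 (al - al') (al1 - al1') (om - om') (be - be') (be1 - be1') (ga - ga') (pi - pi')
      (th - th') (et - et') := by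
  ext i j
  fin_cases i <;> fin_cases j <;> simp [B421]

theorem smulB (c al al1 om be be1 ga pi th et : k) :
    c • B421 al al1 om be be1 ga pi th et =
    B421 (c * al) (c * al1) (c * om) (c * be) (c * be1) (c * ga) (c * pi) (c * th) (c * et) := by
  ext i j
  fin_cases i <;> fin_cases j <;> simp [B421]

theorem zeroB : B421 (0 : k) 0 0 0 0 0 0 0 0 = 0 := by
  ext i j
  fin_cases i <;> fin_cases j <;> simp [B421]

theorem J2 : J421 k * J421 k =
    !![0, 0, 0, 0, 0, 0, 0;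
     0, 0, 0, 0, 0, 0, 0;
     1, 0, 0, 0, 0, 0, 0;
     0, 1, 0, 0, 0, 0, 0;
     0, 0, 0, 0, 0, 0, 0;
     0, 0, 0, 0, 0, 0, 0;
     0, 0, 0, 0, 0, 0, 0] := by
  ext i j
  fin_cases i <;> fin_cases j <;>
    simp [J421, Matrix.mul_apply, Fin.sum_univ_succ]

theorem mulJ2 :
    !![0, 0, 0, 0, 0, 0, 0;
     0, 0, 0, 0, 0, 0, 0;
     1, 0, 0, 0, 0, 0, 0;
     0, 1, 0, 0, 0, 0, 0;
     0, 0, 0, 0, 0, 0, 0;
     0, 0, 0, 0, 0, 0, 0;
     0, 0, 0, 0, 0, 0, 0] * J421 k =
    !![0, 0, 0, 0, 0, 0, 0;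
     0, 0, 0, 0, 0, 0, 0;
     0, 0, 0, 0, 0, 0, 0;
     1, 0, 0, 0, 0, 0, 0;
     0, 0, 0, 0, 0, 0, 0;
     0, 0, 0, 0, 0, 0, 0;
     0, 0, 0, 0, 0, 0, 0] := by
  ext i j
  fin_cases i <;> fin_cases j <;>
    simp [J421, Matrix.mul_apply, Fin.sum_univ_succ]

/-! ### nilpotency and commutation -/

theorem nilJ : IsNilpotent (J421 k) := by
  refine isNilpotent_of_weight _ ![0, 1, 2, 4, 1, 3, 2] fun i j h => ?_
  fin_cases i <;> fin_cases j <;> first | rfl | (exfalso; revert h; decide)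

theorem nilB (al al1 om be be1 ga pi th et : k) :
    IsNilpotent (B421 al al1 om be be1 ga pi th et) := by
  refine isNilpotent_of_weight _ ![0, 1, 2, 4, 1, 3, 2] fun i j h => ?_
  fin_cases i <;> fin_cases j <;> first | rfl | (exfalso; revert h; decide)

/-- the relations for commuting matrices -/
def Rel (al al1 om be be1 ga pi th et al' al1' om' be' be1' ga' pi' th' et' : k) : Prop :=
  al' * be = al * be' ∧ al' * pi = al * pi' ∧ al' * ga + om' * et = al * ga' + om * et' ∧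
  al' * be1 + al1' * be + om' * th = al * be1' + al1 * be' + om * th' ∧ pi' * et = pi * et' ∧
  ga' * be + pi' * th = ga * be' + pi * th' ∧ et' * be = et * be'

theorem comm_of_rel {al al1 om be be1 ga pi th et al' al1' om' be' be1' ga' pi' th' et' : k}
    (h : Rel al al1 om be be1 ga pi th et al' al1' om' be' be1' ga' pi' th' et') :
    B421 al al1 om be be1 ga pi th et * B421 al' al1' om' be' be1' ga' pi' th' et' =
      B421 al' al1' om' be' be1' ga' pi' th' et' * B421 al al1 om be be1 ga pi th et := by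
  obtain ⟨h1, h2, h3, h4, h5, h6, h7⟩ := h
  rw [mulB, mulB, h1, h2, h3, h4, h5, h6, h7]

theorem rel_of_comm {al al1 om be be1 ga pi th et al' al1' om' be' be1' ga' pi' th' et' : k}
    (h : B421 al al1 om be be1 ga pi th et * B421 al' al1' om' be' be1' ga' pi' th' et' =
      B421 al' al1' om' be' be1' ga' pi' th' et' * B421 al al1 om be be1 ga pi th et) :
    Rel al al1 om be be1 ga pi th et al' al1' om' be' be1' ga' pi' th' et' := by
  rw [mulB, mulB] at h
  have e := fun i j => congrFun (congrFun h i) j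
  refine ⟨?_, ?_, ?_, ?_, ?_, ?_, ?_⟩
  · exact e 2 0
  · exact e 6 0
  · exact e 5 0
  · exact e 3 0
  · exact e 5 4
  · exact e 3 4
  · exact e 3 6

theorem cnB {al al1 om be be1 ga pi th et al' al1' om' be' be1' ga' pi' th' et' : k}
    (h : Rel al al1 om be be1 ga pi th et al' al1' om' be' be1' ga' pi' th' et') :
    CN ![J421 k, B421 al al1 om be be1 ga pi th et,
      B421 al' al1' om' be' be1' ga' pi' th' et'] := by
  have h1 := comm_of_rel h
  constructor
  · intro i j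
    fin_cases i <;> fin_cases j
    · rfl
    · exact (JB ..).trans (BJ ..).symm
    · exact (JB ..).trans (BJ ..).symm
    · exact (BJ ..).trans (JB ..).symm
    · rfl
    · exact h1
    · exact (BJ ..).trans (JB ..).symm
    · exact h1.symm
    · rfl
  · intro i
    fin_cases i
    · exact nilJ
    · exact nilB ..
    · exact nilB ..

theorem rank_J : (J421 k).rank ≤ 4 := by
  refine rank_le_of_factor (r := 4) _
    !![0, 0, 0, 0;
     1, 0, 0, 0;
     0, 1, 0, 0;
     0, 0, 1, 0;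
     0, 0, 0, 0;
     0, 0, 0, 1;
     0, 0, 0, 0]
    !![1, 0, 0, 0, 0, 0, 0;
     0, 1, 0, 0, 0, 0, 0;
     0, 0, 1, 0, 0, 0, 0;
     0, 0, 0, 0, 1, 0, 0] ?_
  ext i j
  fin_cases i <;> fin_cases j <;> simp [J421, Matrix.mul_apply, Fin.sum_univ_succ]

theorem rank5 {al al1 om be be1 ga pi th et : k} (h : pi * et ≠ 0) :
    5 ≤ (J421 k + B421 al al1 om be be1 ga pi th et).rank := by
  refine le_rank_of_minor _ ![1, 2, 3, 5, 6] ![0, 1, 2, 4, 6] ?_
  have e : (J421 k + B421 al al1 om be be1 ga pi th et).submatrix ![1, 2, 3, 5, 6]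
      ![0, 1, 2, 4, 6] = !![1, 0, 0, 0, 0;
      0, 1, 0, be, 0;
      0, 0, 1, be1, th;
      al1, al, 0, 1 + ga, et;
      om, 0, 0, pi, 0] := by
    ext i j
    fin_cases i <;> fin_cases j <;> simp [J421, B421]
  rw [e]
  have e2 : Matrix.det !![1, 0, 0, 0, 0;
      0, 1, 0, be, 0;
      0, 0, 1, be1, th;
      al1, al, 0, 1 + ga, et;
      om, 0, 0, pi, 0] = -(pi * et) := by
    simp [Matrix.det_succ_row_zero, Fin.sum_univ_succ, Fin.succAbove]
    ring
  rw [e2]
  exact neg_ne_zero.2 h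

/-! ### the shape of matrices commuting with `J421` -/

theorem eig {M : Matrix (Fin 7) (Fin 7) k} (hM : IsNilpotent M) {w : Fin 7 → k} {c : k}
    (h : w ᵥ* M = c • w) (hc : c ≠ 0) : w = 0 := by
  obtain ⟨N, hN⟩ := hM
  have key : ∀ N : ℕ, w ᵥ* M ^ N = c ^ N • w := by
    intro N
    induction N with
    | zero => simp
    | succ N ih =>
      rw [pow_succ, ← Matrix.vecMul_vecMul, ih, Matrix.smul_vecMul, h, smul_smul, pow_succ]
  have h1 := key N
  rw [hN, Matrix.vecMul_zero] at h1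
  exact (smul_eq_zero.1 h1.symm).resolve_left (pow_ne_zero _ hc)

theorem shape {B : Matrix (Fin 7) (Fin 7) k} (hc : J421 k * B = B * J421 k)
    (hn : IsNilpotent B) : ∃ x1 x2 x3 al al1 om be be1 ga pi th et : k,
      B = x1 • J421 k + x2 • (J421 k * J421 k) + x3 • (J421 k * J421 k * J421 k) +
        B421 al al1 om be be1 ga pi th et := by
  have e : ∀ i j, (J421 k * B) i j = (B * J421 k) i j := fun i j => by rw [hc]
  have e00 : B 0 1 = 0 := by simpa [J421, Matrix.mul_apply, Fin.sum_univ_succ] using (e 0 0).symm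
  have e01 : B 0 2 = 0 := by simpa [J421, Matrix.mul_apply, Fin.sum_univ_succ] using (e 0 1).symm
  have e02 : B 0 3 = 0 := by simpa [J421, Matrix.mul_apply, Fin.sum_univ_succ] using (e 0 2).symm
  have e04 : B 0 5 = 0 := by simpa [J421, Matrix.mul_apply, Fin.sum_univ_succ] using (e 0 4).symm
  have e10 : B 0 0 = B 1 1 := by simpa [J421, Matrix.mul_apply, Fin.sum_univ_succ] using e 1 0
  have e11 : B 0 1 = B 1 2 := by simpa [J421, Matrix.mul_apply, Fin.sum_univ_succ] using e 1 1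
  have e12 : B 0 2 = B 1 3 := by simpa [J421, Matrix.mul_apply, Fin.sum_univ_succ] using e 1 2
  have e13 : B 0 3 = 0 := by simpa [J421, Matrix.mul_apply, Fin.sum_univ_succ] using e 1 3
  have e14 : B 0 4 = B 1 5 := by simpa [J421, Matrix.mul_apply, Fin.sum_univ_succ] using e 1 4
  have e15 : B 0 5 = 0 := by simpa [J421, Matrix.mul_apply, Fin.sum_univ_succ] using e 1 5
  have e16 : B 0 6 = 0 := by simpa [J421, Matrix.mul_apply, Fin.sum_univ_succ] using e 1 6
  have e20 : B 1 0 = B 2 1 := by simpa [J421, Matrix.mul_apply, Fin.sum_univ_succ] using e 2 0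
  have e21 : B 1 1 = B 2 2 := by simpa [J421, Matrix.mul_apply, Fin.sum_univ_succ] using e 2 1
  have e22 : B 1 2 = B 2 3 := by simpa [J421, Matrix.mul_apply, Fin.sum_univ_succ] using e 2 2
  have e23 : B 1 3 = 0 := by simpa [J421, Matrix.mul_apply, Fin.sum_univ_succ] using e 2 3
  have e24 : B 1 4 = B 2 5 := by simpa [J421, Matrix.mul_apply, Fin.sum_univ_succ] using e 2 4
  have e25 : B 1 5 = 0 := by simpa [J421, Matrix.mul_apply, Fin.sum_univ_succ] using e 2 5
  have e26 : B 1 6 = 0 := by simpa [J421, Matrix.mul_apply, Fin.sum_univ_succ] using e 2 6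
  have e30 : B 2 0 = B 3 1 := by simpa [J421, Matrix.mul_apply, Fin.sum_univ_succ] using e 3 0
  have e31 : B 2 1 = B 3 2 := by simpa [J421, Matrix.mul_apply, Fin.sum_univ_succ] using e 3 1
  have e32 : B 2 2 = B 3 3 := by simpa [J421, Matrix.mul_apply, Fin.sum_univ_succ] using e 3 2
  have e33 : B 2 3 = 0 := by simpa [J421, Matrix.mul_apply, Fin.sum_univ_succ] using e 3 3
  have e34 : B 2 4 = B 3 5 := by simpa [J421, Matrix.mul_apply, Fin.sum_univ_succ] using e 3 4
  have e35 : B 2 5 = 0 := by simpa [J421, Matrix.mul_apply, Fin.sum_univ_succ] using e 3 5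
  have e36 : B 2 6 = 0 := by simpa [J421, Matrix.mul_apply, Fin.sum_univ_succ] using e 3 6
  have e40 : B 4 1 = 0 := by simpa [J421, Matrix.mul_apply, Fin.sum_univ_succ] using (e 4 0).symm
  have e41 : B 4 2 = 0 := by simpa [J421, Matrix.mul_apply, Fin.sum_univ_succ] using (e 4 1).symm
  have e42 : B 4 3 = 0 := by simpa [J421, Matrix.mul_apply, Fin.sum_univ_succ] using (e 4 2).symm
  have e44 : B 4 5 = 0 := by simpa [J421, Matrix.mul_apply, Fin.sum_univ_succ] using (e 4 4).symm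
  have e50 : B 4 0 = B 5 1 := by simpa [J421, Matrix.mul_apply, Fin.sum_univ_succ] using e 5 0
  have e51 : B 4 1 = B 5 2 := by simpa [J421, Matrix.mul_apply, Fin.sum_univ_succ] using e 5 1
  have e52 : B 4 2 = B 5 3 := by simpa [J421, Matrix.mul_apply, Fin.sum_univ_succ] using e 5 2
  have e53 : B 4 3 = 0 := by simpa [J421, Matrix.mul_apply, Fin.sum_univ_succ] using e 5 3
  have e54 : B 4 4 = B 5 5 := by simpa [J421, Matrix.mul_apply, Fin.sum_univ_succ] using e 5 4
  have e55 : B 4 5 = 0 := by simpa [J421, Matrix.mul_apply, Fin.sum_univ_succ] using e 5 5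
  have e56 : B 4 6 = 0 := by simpa [J421, Matrix.mul_apply, Fin.sum_univ_succ] using e 5 6
  have e60 : B 6 1 = 0 := by simpa [J421, Matrix.mul_apply, Fin.sum_univ_succ] using (e 6 0).symm
  have e61 : B 6 2 = 0 := by simpa [J421, Matrix.mul_apply, Fin.sum_univ_succ] using (e 6 1).symm
  have e62 : B 6 3 = 0 := by simpa [J421, Matrix.mul_apply, Fin.sum_univ_succ] using (e 6 2).symm
  have e64 : B 6 5 = 0 := by simpa [J421, Matrix.mul_apply, Fin.sum_univ_succ] using (e 6 4).symm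
  have f06 : B 0 6 = 0 := e16
  have f04 : B 0 4 = 0 := e14.trans e25
  have f14 : B 1 4 = 0 := e24.trans e35
  have f12 : B 1 2 = 0 := e11.symm.trans e00
  have f13 : B 1 3 = 0 := e12.symm.trans e01
  have f23 : B 2 3 = 0 := e22.symm.trans f12
  have d0 : B 0 0 = 0 := by
    by_contra h0
    have h1 := eig (w := ![1, 0, 0, 0, 0, 0, 0]) hn (c := B 0 0) (by
      ext j
      fin_cases j <;>
        simp [Matrix.vecMul, dotProduct, Fin.sum_univ_succ, e00, e01, e02, f04, e04, f06]) h0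
    have h2 := congrFun h1 0
    simp at h2
  have d4 : B 4 4 = 0 := by
    by_contra h0
    have h1 := eig (w := ![B 4 0, 0, 0, 0, B 4 4, 0, 0]) hn (c := B 4 4) (by
      ext j
      fin_cases j <;>
        simp [Matrix.vecMul, dotProduct, Fin.sum_univ_succ, d0, e00, e01, e02, f04, e04, f06,
          e40, e41, e42, e44, e56]) h0
    have h2 := congrFun h1 4
    exact h0 (by simpa using h2)
  have d6 : B 6 6 = 0 := by
    by_contra h0
    have h1 := eig (w := ![B 6 6 * B 6 0 + B 6 4 * B 4 0, 0, 0, 0, B 6 6 * B 6 4, 0,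
        B 6 6 * B 6 6]) hn (c := B 6 6) (by
      ext j
      fin_cases j <;>
        simp [Matrix.vecMul, dotProduct, Fin.sum_univ_succ, d0, d4, e00, e01, e02, f04, e04, f06,
          e40, e41, e42, e44, e56, e60, e61, e62, e64] <;> ring) h0
    have h2 := congrFun h1 6
    exact h0 (by simpa using h2)
  have g11 : B 1 1 = 0 := e10.symm.trans d0
  have g22 : B 2 2 = 0 := e21.symm.trans g11
  have g33 : B 3 3 = 0 := e32.symm.trans g22
  have g55 : B 5 5 = 0 := e54.symm.trans d4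
  have g52 : B 5 2 = 0 := e51.symm.trans e40
  have g53 : B 5 3 = 0 := e52.symm.trans e41
  have g21 : B 2 1 = B 1 0 := e20.symm
  have g32 : B 3 2 = B 1 0 := e31.symm.trans g21
  have g31 : B 3 1 = B 2 0 := e30.symm
  have g35 : B 3 5 = B 2 4 := e34.symm
  have g51 : B 5 1 = B 4 0 := e50.symm
  refine ⟨B 1 0, B 2 0, B 3 0, B 4 0, B 5 0, B 6 0, B 2 4, B 3 4, B 5 4 - B 1 0, B 6 4, B 3 6,
    B 5 6, ?_⟩
  rw [J2, mulJ2]
  ext i j
  fin_cases i <;> fin_cases j <;>
    simp [J421, B421, d0, d4, d6, g11, g22, g33, g55, g52, g53, g21, g32, g31, g35, g51, f12,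
      f13, f14, f23, f04, f06, e00, e01, e02, e04, e25, e26, e35, e36, e40, e41, e42, e44, e56,
      e60, e61, e62, e64]

/-! ### families -/

/-- the matrix with a vector of parameters -/
def Bv (b : Fin 9 → k) : Matrix (Fin 7) (Fin 7) k :=
  B421 (b 0) (b 1) (b 2) (b 3) (b 4) (b 5) (b 6) (b 7) (b 8)

/-- the relations for vectors of parameters -/
def RelV (b c : Fin 9 → k) : Prop :=
  Rel (b 0) (b 1) (b 2) (b 3) (b 4) (b 5) (b 6) (b 7) (b 8)
    (c 0) (c 1) (c 2) (c 3) (c 4) (c 5) (c 6) (c 7) (c 8)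

theorem Bv_line (b e : Fin 9 → k) (s : k) : Bv (b + s • e) = Bv b + s • Bv e := by
  unfold Bv
  rw [smulB, addB]
  rfl

theorem line_eq (b c e f : Fin 9 → k) (s : k) :
    ![J421 k, Bv b, Bv c] + s • ![0, Bv e, Bv f] =
      ![J421 k, Bv (b + s • e), Bv (c + s • f)] := by
  rw [Bv_line, Bv_line]
  funext i
  fin_cases i
  · simp
  · simp
  · simp

theorem rho1 {ρ : ℕ → ℕ} (hρ : ∀ i, ρ i = (J421 k ^ i).rank) : ρ 1 ≤ 4 := by
  rw [hρ, pow_one]
  exact rank_J

theorem raise_line [Infinite k] {ρ : ℕ → ℕ} (hρ : ∀ i, ρ i = (J421 k ^ i).rank)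
    {b c : Fin 9 → k} (e f : Fin 9 → k) (hT : MaxR ρ ![J421 k, Bv b, Bv c])
    (hrel : ∀ s : k, RelV (b + s • e) (c + s • f))
    (hfin : {s : k | (b 6 + s * e 6) * (b 8 + s * e 8) = 0}.Finite) : False := by
  refine hT.raise (fun s => ![J421 k, Bv b, Bv c] + s • ![0, Bv e, Bv f]) (PolyFam.line _ _)
    (by simp) Set.finite_empty (fun s _ => ?_) 1 (fun s => J421 k + Bv (b + s • e))
    (fun s => ?_) ?_
  · rw [line_eq]
    exact cnB (hrel s)
  · rw [line_eq]
    exact add_mem (mem_adj ![J421 k, Bv (b + s • e), Bv (c + s • f)] 0)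
      (mem_adj ![J421 k, Bv (b + s • e), Bv (c + s • f)] 1)
  · refine hfin.infinite_compl.mono fun s hs => ?_
    have h5 : 5 ≤ (J421 k + Bv (b + s • e)).rank := rank5 hs
    have h4 := rho1 hρ
    show ρ 1 < ((J421 k + Bv (b + s • e)) ^ 1).rank
    rw [pow_one]
    omega

theorem deform_line [Infinite k] {ρ : ℕ → ℕ}
    {b c : Fin 9 → k} (e f : Fin 9 → k) (hT : MaxR ρ ![J421 k, Bv b, Bv c])
    (hrel : ∀ s : k, RelV (b + s • e) (c + s • f)) {F : Set k} (hF : F.Finite) :
    ∃ s, s ∉ F ∧ MaxR ρ ![J421 k, Bv (b + s • e), Bv (c + s • f)] := by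
  obtain ⟨E', hE', h⟩ := hT.deform (fun s => ![J421 k, Bv b, Bv c] + s • ![0, Bv e, Bv f])
    (PolyFam.line _ _) (by simp) Set.finite_empty (fun s _ => by
      rw [line_eq]
      exact cnB (hrel s))
  obtain ⟨s, hs⟩ := (hE'.union hF).infinite_compl.nonempty
  rw [Set.mem_compl_iff, Set.mem_union, not_or] at hs
  refine ⟨s, hs.2, ?_⟩
  have h1 := h s hs.1
  rwa [line_eq] at h1

theorem change3 {ρ : ℕ → ℕ} {A B C B' C' : Matrix (Fin 7) (Fin 7) k}
    (hT : MaxR ρ ![A, B, C]) (h1 : B' ∈ adj ![A, B, C]) (h2 : C' ∈ adj ![A, B, C])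
    (h3 : B ∈ adj ![A, B', C']) (h4 : C ∈ adj ![A, B', C']) : MaxR ρ ![A, B', C'] := by
  have h0 : A ∈ adj ![A, B, C] := mem_adj ![A, B, C] 0
  have h0' : A ∈ adj ![A, B', C'] := mem_adj ![A, B', C'] 0
  refine hT.change (hT.cn.of_adj fun i => ?_) fun i => ?_
  · fin_cases i
    exacts [h0, h1, h2]
  · fin_cases i
    exacts [h0', h3, h4]

theorem m0 (A B C : Matrix (Fin 7) (Fin 7) k) : A ∈ adj ![A, B, C] := mem_adj ![A, B, C] 0

theorem m1 (A B C : Matrix (Fin 7) (Fin 7) k) : B ∈ adj ![A, B, C] := mem_adj ![A, B, C] 1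

theorem m2 (A B C : Matrix (Fin 7) (Fin 7) k) : C ∈ adj ![A, B, C] := mem_adj ![A, B, C] 2

theorem pe [Infinite k] {ρ : ℕ → ℕ} (hρ : ∀ i, ρ i = (J421 k ^ i).rank)
    {T : Fin 3 → Matrix (Fin 7) (Fin 7) k} (hT : MaxR ρ T) (hA : J421 k ∈ adj T)
    {al al1 om be be1 ga pi th et : k} (hX : B421 al al1 om be be1 ga pi th et ∈ adj T) :
    pi * et = 0 := by
  by_contra h
  have h1 := hT.rank_le (add_mem hA hX) 1
  rw [pow_one] at h1
  have h2 := rank5 (al := al) (al1 := al1) (om := om) (be := be) (be1 := be1) (ga := ga)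
    (th := th) h
  have h3 := rho1 hρ
  omega

/-! ### the case `(1)` -/

theorem caseB [Infinite k] {ρ : ℕ → ℕ} (hρ : ∀ i, ρ i = (J421 k ^ i).rank)
    {al1 om be be1 ga pi th : k}
    (hT : MaxR ρ ![J421 k, B421 1 al1 om be be1 ga pi th 0, 0]) : False := by
  rw [← zeroB] at hT
  refine raise_line hρ (b := ![1, al1, om, be, be1, ga, pi, th, 0])
    (c := ![0, 0, 0, 0, 0, 0, 0, 0, 0]) ![0, 0, 0, 0, 0, 0, 1, 0, 1]
    ![0, 0, 0, 0, 0, 0, 0, 0, 0] hT (fun s => ?_) ?_
  · simp [RelV, Rel]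
  · refine (Set.toFinite ({0, -pi} : Set k)).subset fun s hs => ?_
    have hs' : (pi + s * 1) * (0 + s * 1) = 0 := hs
    rw [mul_one, zero_add] at hs'
    rcases mul_eq_zero.1 hs' with h | h
    · exact Or.inr (eq_neg_of_add_eq_zero_right h)
    · exact Or.inl h

theorem id1a (al1 om be be1 ga pi th om' : k) (hp : pi ≠ 0) :
    B421 0 0 om' 0 (om' * th) 0 0 0 0 = (om' / pi) •
      (B421 1 al1 om be be1 ga pi th 0 * B421 1 al1 om be be1 ga pi th 0
        - ga • (J421 k * B421 1 al1 om be be1 ga pi th 0) - be • (J421 k * J421 k)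
        - (be1 + al1 * be + om * th) • (J421 k * J421 k * J421 k)) := by
  rw [mulB, JB, J2, mulJ2]
  ext i j
  fin_cases i <;> fin_cases j <;> simp [B421] <;> field_simp

theorem case1a [Infinite k] {ρ : ℕ → ℕ} (hρ : ∀ i, ρ i = (J421 k ^ i).rank)
    {al1 om be be1 ga pi th om' : k}
    (hT : MaxR ρ ![J421 k, B421 1 al1 om be be1 ga pi th 0,
      B421 0 0 om' 0 (om' * th) 0 0 0 0]) : False := by
  by_cases h0 : om' = 0
  · subst h0
    rw [zero_mul, zeroB] at hT
    exact caseB hρ hT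
  · obtain ⟨s, hs, hT'⟩ := deform_line (b := ![1, al1, om, be, be1, ga, pi, th, 0])
      (c := ![0, 0, om', 0, om' * th, 0, 0, 0, 0]) ![0, 0, 0, 0, 0, 0, 1, 0, 0]
      ![0, 0, 0, 0, 0, 0, 0, 0, 0] hT (fun s => by simp [RelV, Rel])
      (Set.finite_singleton (-pi))
    have hp : pi + s ≠ 0 := fun h => hs (eq_neg_of_add_eq_zero_right h)
    have hT2 : MaxR ρ ![J421 k, B421 1 al1 om be be1 ga (pi + s) th 0,
        B421 0 0 om' 0 (om' * th) 0 0 0 0] := by
      simpa [Bv] using hT'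
    refine caseB hρ (change3 hT2 (m1 _ _ _) (zero_mem _) (m1 _ _ _) ?_)
    rw [id1a al1 om be be1 ga (pi + s) th om' hp]
    have a0 := m0 (J421 k) (B421 1 al1 om be be1 ga (pi + s) th 0) 0
    have a1 := m1 (J421 k) (B421 1 al1 om be be1 ga (pi + s) th 0) 0
    exact SMulMemClass.smul_mem _ (sub_mem (sub_mem (sub_mem (mul_mem a1 a1)
      (SMulMemClass.smul_mem _ (mul_mem a0 a1))) (SMulMemClass.smul_mem _ (mul_mem a0 a0)))
      (SMulMemClass.smul_mem _ (mul_mem (mul_mem a0 a0) a0)))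

theorem case1b3 [Infinite k] {ρ : ℕ → ℕ} (hρ : ∀ i, ρ i = (J421 k ^ i).rank)
    {be be1 ga om th : k} (hbe : be ≠ 0) (hom : om ≠ 0) (hth : th ≠ 0)
    (hT : MaxR ρ ![J421 k, B421 1 0 0 be be1 ga 0 0 0, B421 0 0 om 0 0 0 0 th 0]) : False := by
  refine raise_line hρ (b := ![1, 0, 0, be, be1, ga, 0, 0, 0])
    (c := ![0, 0, om, 0, 0, 0, 0, th, 0]) ![0, 0, 0, 0, 0, 0, 1, 0, th / (om * be)]
    ![0, 0, 0, 0, 0, th / be, 0, 0, 0] hT (fun s => ?_) ?_
  · simp [RelV, Rel]
    constructor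
    · field_simp
    · field_simp
  · refine (Set.finite_singleton (0 : k)).subset fun s hs => ?_
    have h' : ((0 : k) + s * 1) * (0 + s * (th / (om * be))) = 0 := hs
    have h2 : th / (om * be) ≠ 0 := div_ne_zero hth (mul_ne_zero hom hbe)
    simpa [h2, hom, hbe, hth] using h'

theorem case1b2 [Infinite k] {ρ : ℕ → ℕ} (hρ : ∀ i, ρ i = (J421 k ^ i).rank)
    {be be1 ga om th : k} (hth : th ≠ 0)
    (hT : MaxR ρ ![J421 k, B421 1 0 0 be be1 ga 0 0 0, B421 0 0 om 0 0 0 0 th 0]) : False := by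
  obtain ⟨s, hs, hT'⟩ := deform_line (b := ![1, 0, 0, be, be1, ga, 0, 0, 0])
      (c := ![0, 0, om, 0, 0, 0, 0, th, 0]) ![0, 0, 0, 1, 0, 0, 0, 0, 0]
      ![0, 0, 1, 0, 0, 0, 0, 0, 0] hT (fun s => by simp [RelV, Rel])
      (Set.toFinite ({-be, -om} : Set k))
  have h1 : be + s ≠ 0 := fun h => hs (Or.inl (eq_neg_of_add_eq_zero_right h))
  have h2 : om + s ≠ 0 := fun h => hs (Or.inr (eq_neg_of_add_eq_zero_right h))
  refine case1b3 (be1 := be1) (ga := ga) hρ h1 h2 hth ?_
  simpa [Bv] using hT'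

/-- change of basis -/
def Hm (a b : k) : Matrix (Fin 7) (Fin 7) k :=
  !![1, 0, 0, 0, 0, 0, 0;
     0, 1, 0, 0, 0, 0, 0;
     0, 0, 1, 0, 0, 0, 0;
     0, 0, 0, 1, 0, 0, 0;
     0, 0, 0, 0, 1, 0, 0;
     0, 0, 0, 0, a, 1, 0;
     0, 0, 0, 0, b, 0, 1]

theorem Hm_mul (a b : k) : Hm (-a) (-b) * Hm a b = 1 := by
  ext i j
  fin_cases i <;> fin_cases j <;>
    simp [Hm, Matrix.mul_apply, Fin.sum_univ_succ]

theorem Hm_J (a b : k) : J421 k * Hm a b = Hm a b * J421 k := by
  ext i j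
  fin_cases i <;> fin_cases j <;>
    simp [Hm, J421, Matrix.mul_apply, Fin.sum_univ_succ]

theorem Hm_B (al1 om be be1 ga : k) : B421 1 al1 om be be1 ga 0 0 0 * Hm al1 om =
    Hm al1 om * B421 1 0 0 be (be1 + al1 * be) ga 0 0 0 := by
  ext i j
  fin_cases i <;> fin_cases j <;>
    simp [Hm, B421, Matrix.mul_apply, Fin.sum_univ_succ] <;> ring

theorem Hm_C (al1 om om' th' : k) : B421 0 0 om' 0 (-(om * th')) 0 0 th' 0 * Hm al1 om =
    Hm al1 om * B421 0 0 om' 0 0 0 0 th' 0 := by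
  ext i j
  fin_cases i <;> fin_cases j <;>
    simp [Hm, B421, Matrix.mul_apply, Fin.sum_univ_succ] <;> ring

theorem case1b1 [Infinite k] {ρ : ℕ → ℕ} (hρ : ∀ i, ρ i = (J421 k ^ i).rank)
    {al1 om be be1 ga om' th' : k} (hth : th' ≠ 0)
    (hT : MaxR ρ ![J421 k, B421 1 al1 om be be1 ga 0 0 0,
      B421 0 0 om' 0 (-(om * th')) 0 0 th' 0]) : False := by
  have g1 := Hm_mul al1 om
  have g2 := Hm_mul (-al1) (-om)
  rw [neg_neg, neg_neg] at g2
  have h1 := hT.conj (Hm (-al1) (-om)) (Hm al1 om) g1 g2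
  have h2 : (fun i => Hm (-al1) (-om) * (![J421 k, B421 1 al1 om be be1 ga 0 0 0,
      B421 0 0 om' 0 (-(om * th')) 0 0 th' 0] : Fin 3 → Matrix (Fin 7) (Fin 7) k) i
        * Hm al1 om) =
      ![J421 k, B421 1 0 0 be (be1 + al1 * be) ga 0 0 0, B421 0 0 om' 0 0 0 0 th' 0] := by
    funext i
    fin_cases i
    · show Hm (-al1) (-om) * J421 k * Hm al1 om = J421 k
      rw [Matrix.mul_assoc, Hm_J, ← Matrix.mul_assoc, g1, Matrix.one_mul]
    · show Hm (-al1) (-om) * B421 1 al1 om be be1 ga 0 0 0 * Hm al1 om = _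
      rw [Matrix.mul_assoc, Hm_B, ← Matrix.mul_assoc, g1, Matrix.one_mul]
      rfl
    · show Hm (-al1) (-om) * B421 0 0 om' 0 (-(om * th')) 0 0 th' 0 * Hm al1 om = _
      rw [Matrix.mul_assoc, Hm_C, ← Matrix.mul_assoc, g1, Matrix.one_mul]
      rfl
  rw [h2] at h1
  exact case1b2 hρ hth h1

theorem case1b [Infinite k] {ρ : ℕ → ℕ} (hρ : ∀ i, ρ i = (J421 k ^ i).rank)
    {al1 om be be1 ga th om' th' : k} (hth : th' ≠ 0)
    (hT : MaxR ρ ![J421 k, B421 1 al1 om be be1 ga 0 th 0,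
      B421 0 0 om' 0 (om' * th - om * th') 0 0 th' 0]) : False := by
  have e1 : B421 1 al1 om be be1 ga 0 th 0 -
      (th / th') • B421 0 0 om' 0 (om' * th - om * th') 0 0 th' 0 =
      B421 1 al1 (om - th / th' * om') be (be1 - th / th' * (om' * th - om * th')) ga 0 0 0 := by
    rw [smulB, subB]
    congr 1 <;> field_simp <;> ring
  have e2 : -((om - th / th' * om') * th') = om' * th - om * th' := by
    field_simp
    ring
  refine case1b1 (al1 := al1) (om := om - th / th' * om') (be := be)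
    (be1 := be1 - th / th' * (om' * th - om * th')) (ga := ga) (om' := om') hρ hth ?_
  rw [e2, ← e1]
  refine change3 hT (sub_mem (m1 _ _ _) (SMulMemClass.smul_mem _ (m2 _ _ _))) (m2 _ _ _) ?_
    (m2 _ _ _)
  have h := add_mem (m1 (J421 k) (B421 1 al1 om be be1 ga 0 th 0 -
      (th / th') • B421 0 0 om' 0 (om' * th - om * th') 0 0 th' 0)
      (B421 0 0 om' 0 (om' * th - om * th') 0 0 th' 0))
    (SMulMemClass.smul_mem (th / th') (m2 (J421 k) (B421 1 al1 om be be1 ga 0 th 0 -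
      (th / th') • B421 0 0 om' 0 (om' * th - om * th') 0 0 th' 0)
      (B421 0 0 om' 0 (om' * th - om * th') 0 0 th' 0)))
  rwa [sub_add_cancel] at h

theorem case1 [Infinite k] {ρ : ℕ → ℕ} (hρ : ∀ i, ρ i = (J421 k ^ i).rank)
    {al1 om be be1 ga pi th al1' om' be' be1' ga' pi' th' : k}
    (hT : MaxR ρ ![J421 k, B421 1 al1 om be be1 ga pi th 0,
      B421 0 al1' om' be' be1' ga' pi' th' 0]) : False := by
  obtain ⟨h1, h2, h3, h4, h5, h6, h7⟩ := rel_of_comm (hT.cn.1 1 2)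
  have b0 : be' = 0 := by simpa using h1.symm
  have p0 : pi' = 0 := by simpa using h2.symm
  have g0 : ga' = 0 := by simpa using h3.symm
  subst b0 p0 g0
  have b1 : be1' = al1' * be + (om' * th - om * th') := by
    have h := h4
    simp only [zero_mul, zero_add, one_mul, mul_zero, add_zero] at h
    rw [← add_sub_assoc, h]
    ring
  have q0 : pi * th' = 0 := by simpa using h6.symm
  have e1 : B421 0 al1' om' 0 be1' 0 0 th' 0 -
      al1' • (J421 k * B421 1 al1 om be be1 ga pi th 0) =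
      B421 0 0 om' 0 (om' * th - om * th') 0 0 th' 0 := by
    rw [JB, smulB, subB, b1]
    congr 1 <;> ring
  have hT2 : MaxR ρ ![J421 k, B421 1 al1 om be be1 ga pi th 0,
      B421 0 0 om' 0 (om' * th - om * th') 0 0 th' 0] := by
    rw [← e1]
    refine change3 hT (m1 _ _ _) (sub_mem (m2 _ _ _) (SMulMemClass.smul_mem _
      (mul_mem (m0 _ _ _) (m1 _ _ _)))) (m1 _ _ _) ?_
    have h := add_mem (m2 (J421 k) (B421 1 al1 om be be1 ga pi th 0)
        (B421 0 al1' om' 0 be1' 0 0 th' 0 -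
          al1' • (J421 k * B421 1 al1 om be be1 ga pi th 0)))
      (SMulMemClass.smul_mem al1' (mul_mem (m0 (J421 k) (B421 1 al1 om be be1 ga pi th 0)
        (B421 0 al1' om' 0 be1' 0 0 th' 0 -
          al1' • (J421 k * B421 1 al1 om be be1 ga pi th 0)))
        (m1 (J421 k) (B421 1 al1 om be be1 ga pi th 0)
        (B421 0 al1' om' 0 be1' 0 0 th' 0 -
          al1' • (J421 k * B421 1 al1 om be be1 ga pi th 0)))))
    rwa [sub_add_cancel] at h
  by_cases ht : th' = 0
  · subst ht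
    rw [mul_zero, sub_zero] at hT2
    exact case1a hρ hT2
  · have hp : pi = 0 := (mul_eq_zero.1 q0).resolve_right ht
    subst hp
    exact case1b hρ ht hT2

theorem case_al [Infinite k] {ρ : ℕ → ℕ} (hρ : ∀ i, ρ i = (J421 k ^ i).rank)
    {al al1 om be be1 ga pi th al' al1' om' be' be1' ga' pi' th' : k} (hal : al ≠ 0)
    (hT : MaxR ρ ![J421 k, B421 al al1 om be be1 ga pi th 0,
      B421 al' al1' om' be' be1' ga' pi' th' 0]) : False := by
  have e1 : al⁻¹ • B421 al al1 om be be1 ga pi th 0 = B421 1 (al⁻¹ * al1) (al⁻¹ * om) (al⁻¹ * be)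
      (al⁻¹ * be1) (al⁻¹ * ga) (al⁻¹ * pi) (al⁻¹ * th) 0 := by
    rw [smulB, inv_mul_cancel₀ hal, mul_zero]
  have e2 : B421 al' al1' om' be' be1' ga' pi' th' 0 -
      (al' / al) • B421 al al1 om be be1 ga pi th 0 = B421 0 (al1' - al' / al * al1)
      (om' - al' / al * om) (be' - al' / al * be) (be1' - al' / al * be1) (ga' - al' / al * ga)
      (pi' - al' / al * pi) (th' - al' / al * th) 0 := by
    rw [smulB, subB, div_mul_cancel₀ _ hal, sub_self, mul_zero, sub_zero]
  have hT2 : MaxR ρ ![J421 k, al⁻¹ • B421 al al1 om be be1 ga pi th 0,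
      B421 al' al1' om' be' be1' ga' pi' th' 0 -
        (al' / al) • B421 al al1 om be be1 ga pi th 0] := by
    have hB : B421 al al1 om be be1 ga pi th 0 ∈ adj ![J421 k,
        al⁻¹ • B421 al al1 om be be1 ga pi th 0, B421 al' al1' om' be' be1' ga' pi' th' 0 -
        (al' / al) • B421 al al1 om be be1 ga pi th 0] := by
      have h := SMulMemClass.smul_mem al (m1 (J421 k) (al⁻¹ • B421 al al1 om be be1 ga pi th 0)
        (B421 al' al1' om' be' be1' ga' pi' th' 0 -
        (al' / al) • B421 al al1 om be be1 ga pi th 0))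
      rwa [smul_smul, mul_inv_cancel₀ hal, one_smul] at h
    refine change3 hT (SMulMemClass.smul_mem _ (m1 _ _ _)) (sub_mem (m2 _ _ _)
      (SMulMemClass.smul_mem _ (m1 _ _ _))) hB ?_
    have h := add_mem (m2 (J421 k) (al⁻¹ • B421 al al1 om be be1 ga pi th 0)
        (B421 al' al1' om' be' be1' ga' pi' th' 0 -
        (al' / al) • B421 al al1 om be be1 ga pi th 0)) (SMulMemClass.smul_mem (al' / al) hB)
    rwa [sub_add_cancel] at h
  rw [e1, e2] at hT2
  exact case1 hρ hT2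

/-! ### duality -/

/-- permutation matrix -/
def Sg (k : Type*) [Field k] : Matrix (Fin 7) (Fin 7) k :=
  !![0, 0, 0, 1, 0, 0, 0;
     0, 0, 1, 0, 0, 0, 0;
     0, 1, 0, 0, 0, 0, 0;
     1, 0, 0, 0, 0, 0, 0;
     0, 0, 0, 0, 0, 1, 0;
     0, 0, 0, 0, 1, 0, 0;
     0, 0, 0, 0, 0, 0, 1]

theorem Sg_mul : Sg k * Sg k = 1 := by
  ext i j
  fin_cases i <;> fin_cases j <;>
    simp [Sg, Matrix.mul_apply, Fin.sum_univ_succ]

theorem Sg_J : (J421 k)ᵀ * Sg k = Sg k * J421 k := by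
  ext i j
  fin_cases i <;> fin_cases j <;>
    simp [Sg, J421, Matrix.mul_apply, Fin.sum_univ_succ]

theorem Sg_B (al al1 om be be1 ga pi th et : k) :
    (B421 al al1 om be be1 ga pi th et)ᵀ * Sg k = Sg k * B421 be be1 th al al1 ga et om pi := by
  ext i j
  fin_cases i <;> fin_cases j <;>
    simp [Sg, B421, Matrix.mul_apply, Fin.sum_univ_succ]

theorem dual {ρ : ℕ → ℕ}
    {al al1 om be be1 ga pi th et al' al1' om' be' be1' ga' pi' th' et' : k}
    (hT : MaxR ρ ![J421 k, B421 al al1 om be be1 ga pi th et,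
      B421 al' al1' om' be' be1' ga' pi' th' et']) :
    MaxR ρ ![J421 k, B421 be be1 th al al1 ga et om pi,
      B421 be' be1' th' al' al1' ga' et' om' pi'] := by
  have h1 := hT.transpose.conj (Sg k) (Sg k) Sg_mul Sg_mul
  have h2 : (fun i => Sg k * ((![J421 k, B421 al al1 om be be1 ga pi th et,
      B421 al' al1' om' be' be1' ga' pi' th' et'] : Fin 3 → Matrix (Fin 7) (Fin 7) k) i)ᵀ
        * Sg k) =
      ![J421 k, B421 be be1 th al al1 ga et om pi,
        B421 be' be1' th' al' al1' ga' et' om' pi'] := by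
    funext i
    fin_cases i
    · show Sg k * (J421 k)ᵀ * Sg k = J421 k
      rw [Matrix.mul_assoc, Sg_J, ← Matrix.mul_assoc, Sg_mul, Matrix.one_mul]
    · show Sg k * (B421 al al1 om be be1 ga pi th et)ᵀ * Sg k = _
      rw [Matrix.mul_assoc, Sg_B, ← Matrix.mul_assoc, Sg_mul, Matrix.one_mul]
      rfl
    · show Sg k * (B421 al' al1' om' be' be1' ga' pi' th' et')ᵀ * Sg k = _
      rw [Matrix.mul_assoc, Sg_B, ← Matrix.mul_assoc, Sg_mul, Matrix.one_mul]
      rfl
  rwa [h2] at h1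

variable [IsAlgClosed k] [CharZero k]

theorem case_et {ρ : ℕ → ℕ} (hρ : ∀ i, ρ i = (J421 k ^ i).rank)
    {al al1 om be be1 ga pi th al' al1' om' be' be1' ga' pi' th' : k}
    (hT : MaxR ρ ![J421 k, B421 al al1 om be be1 ga pi th 0,
      B421 al' al1' om' be' be1' ga' pi' th' 0]) : False := by
  have hinf : Infinite k := inferInstance
  by_cases h1 : al = 0
  · by_cases h2 : al' = 0
    · subst h1 h2
      exact no_421A hρ (dual hT)
    · exact case_al hρ h2 (change3 hT (m2 _ _ _) (m1 _ _ _) (m2 _ _ _) (m1 _ _ _))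
  · exact case_al hρ h1 hT

theorem caseAll {ρ : ℕ → ℕ} (hρ : ∀ i, ρ i = (J421 k ^ i).rank)
    {al al1 om be be1 ga pi th et al' al1' om' be' be1' ga' pi' th' et' : k}
    (hT : MaxR ρ ![J421 k, B421 al al1 om be be1 ga pi th et,
      B421 al' al1' om' be' be1' ga' pi' th' et']) : False := by
  have hinf : Infinite k := inferInstance
  obtain ⟨-, -, -, -, h5, -, -⟩ := rel_of_comm (hT.cn.1 1 2)
  have p1 := pe hρ hT (m0 _ _ _) (m1 _ _ _)
  have p2 := pe hρ hT (m0 _ _ _) (m2 _ _ _)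
  have p3 : (pi + pi') * (et + et') = 0 := by
    have h := add_mem (m1 (J421 k) (B421 al al1 om be be1 ga pi th et)
      (B421 al' al1' om' be' be1' ga' pi' th' et')) (m2 (J421 k)
      (B421 al al1 om be be1 ga pi th et) (B421 al' al1' om' be' be1' ga' pi' th' et'))
    rw [addB] at h
    exact pe hρ hT (m0 _ _ _) h
  have p4 : pi * et' = 0 := by
    have h : (2 : k) * (pi * et') = 0 := by
      linear_combination p3 - p1 - p2 - h5
    exact (mul_eq_zero.1 h).resolve_left two_ne_zero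
  have p5 : pi' * et = 0 := h5.trans p4
  by_cases h1 : et = 0
  · by_cases h2 : et' = 0
    · subst h1 h2
      exact case_et hρ hT
    · have q1 : pi = 0 := (mul_eq_zero.1 p4).resolve_right h2
      have q2 : pi' = 0 := (mul_eq_zero.1 p2).resolve_right h2
      subst q1 q2
      exact case_et hρ (dual hT)
  · have q1 : pi = 0 := (mul_eq_zero.1 p1).resolve_right h1
    have q2 : pi' = 0 := (mul_eq_zero.1 p5).resolve_right h1
    subst q1 q2
    exact case_et hρ (dual hT)

end T421aAux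

open T421aAux

variable [IsAlgClosed k] [CharZero k]

theorem no_421 {ρ : ℕ → ℕ} {T : Fin 3 → Matrix (Fin 7) (Fin 7) k} (hT : MaxR ρ T)
    (hρ : ∀ i, ρ i = (J421 k ^ i).rank) (h0 : T 0 = J421 k) : False := by
  have hT' : MaxR ρ ![J421 k, T 1, T 2] := by
    have e : T = ![J421 k, T 1, T 2] := by
      funext i
      fin_cases i
      exacts [h0, rfl, rfl]
    rwa [← e]
  obtain ⟨x1, x2, x3, al, al1, om, be, be1, ga, pi, th, et, hB⟩ :=
    shape (hT'.cn.1 0 1) (hT'.cn.2 1)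
  obtain ⟨y1, y2, y3, al', al1', om', be', be1', ga', pi', th', et', hC⟩ :=
    shape (hT'.cn.1 0 2) (hT'.cn.2 2)
  have key : ∀ (B C : Matrix (Fin 7) (Fin 7) k) (a b c : k),
      a • J421 k + b • (J421 k * J421 k) + c • (J421 k * J421 k * J421 k) ∈
        adj ![J421 k, B, C] := fun B C a b c =>
    add_mem (add_mem (SMulMemClass.smul_mem _ (m0 _ _ _))
      (SMulMemClass.smul_mem _ (mul_mem (m0 _ _ _) (m0 _ _ _))))
      (SMulMemClass.smul_mem _ (mul_mem (mul_mem (m0 _ _ _) (m0 _ _ _)) (m0 _ _ _)))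
  have hB' : B421 al al1 om be be1 ga pi th et ∈ adj ![J421 k, T 1, T 2] := by
    have h := sub_mem (m1 (J421 k) (T 1) (T 2)) (key (T 1) (T 2) x1 x2 x3)
    have e : T 1 - (x1 • J421 k + x2 • (J421 k * J421 k) + x3 • (J421 k * J421 k * J421 k)) =
        B421 al al1 om be be1 ga pi th et := by
      rw [sub_eq_iff_eq_add, add_comm]
      exact hB
    rwa [e] at h
  have hC' : B421 al' al1' om' be' be1' ga' pi' th' et' ∈ adj ![J421 k, T 1, T 2] := by
    have h := sub_mem (m2 (J421 k) (T 1) (T 2)) (key (T 1) (T 2) y1 y2 y3)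
    have e : T 2 - (y1 • J421 k + y2 • (J421 k * J421 k) + y3 • (J421 k * J421 k * J421 k)) =
        B421 al' al1' om' be' be1' ga' pi' th' et' := by
      rw [sub_eq_iff_eq_add, add_comm]
      exact hC
    rwa [e] at h
  refine caseAll hρ (change3 hT' hB' hC' ?_ ?_)
  · have h := add_mem (key (B421 al al1 om be be1 ga pi th et)
      (B421 al' al1' om' be' be1' ga' pi' th' et') x1 x2 x3) (m1 _ _ _)
    rw [← hB] at h
    exact h
  · have h := add_mem (key (B421 al al1 om be be1 ga pi th et)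
      (B421 al' al1' om' be' be1' ga' pi' th' et') y1 y2 y3) (m2 _ _ _)
    rw [← hC] at h
    exact h

end Pool.Agent.Lib.D7
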