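import Pool.Agent.Lib.D7.Api

/-!
# MP_5dcbc3_ag: Jordan type `(4, 3)`
-/

namespace Pool.Agent.Lib.D7

open Matrix

namespace T43Aux

variable {k : Type*} [Field k]

theorem comm_J (b0 b1 b2 c0 c1 c2 q1 q2 : k) :
    J43 k * B43 b0 b1 b2 c0 c1 c2 q1 q2 = B43 b0 b1 b2 c0 c1 c2 q1 q2 * J43 k := by
  ext i j
  fin_cases i <;> fin_cases j <;>
    simp [J43, B43, Matrix.mul_apply, Fin.sum_univ_succ]

theorem J_mul (b0 b1 b2 c0 c1 c2 q1 q2 : k) :
    J43 k * B43 b0 b1 b2 c0 c1 c2 q1 q2 = B43 0 b0 b1 0 c0 c1 0 q1 := by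
  ext i j
  fin_cases i <;> fin_cases j <;>
    simp [J43, B43, Matrix.mul_apply, Fin.sum_univ_succ]

theorem comm_BB {b0 b1 b2 c0 c1 c2 q1 q2 b0' b1' b2' c0' c1' c2' q1' q2' : k}
    (r1 : c0' * b0 = c0 * b0') (r2 : c0' * b1 + c1' * b0 = c0 * b1' + c1 * b0')
    (r3 : c0' * b2 + c1' * b1 + c2' * b0 = c0 * b2' + c1 * b1' + c2 * b0')
    (r4 : c0' * q1 = c0 * q1') (r5 : c0' * q2 + c1' * q1 = c0 * q2' + c1 * q1')
    (r6 : q1' * b0 = q1 * b0') (r7 : q1' * b1 + q2' * b0 = q1 * b1' + q2 * b0') :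
    B43 b0 b1 b2 c0 c1 c2 q1 q2 * B43 b0' b1' b2' c0' c1' c2' q1' q2' =
      B43 b0' b1' b2' c0' c1' c2' q1' q2' * B43 b0 b1 b2 c0 c1 c2 q1 q2 := by
  ext i j
  fin_cases i <;> fin_cases j <;>
    simp [B43, Matrix.mul_apply, Fin.sum_univ_succ] <;>
    first
    | ring1
    | linear_combination r1
    | linear_combination r2
    | linear_combination r3
    | linear_combination r4
    | linear_combination r5
    | linear_combination r6
    | linear_combination r7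
    | linear_combination -r1
    | linear_combination -r2
    | linear_combination -r3

theorem rel_BB {b0 b1 b2 c0 c1 c2 q1 q2 b0' b1' b2' c0' c1' c2' q1' q2' : k}
    (h : B43 b0 b1 b2 c0 c1 c2 q1 q2 * B43 b0' b1' b2' c0' c1' c2' q1' q2' =
      B43 b0' b1' b2' c0' c1' c2' q1' q2' * B43 b0 b1 b2 c0 c1 c2 q1 q2) :
    c0' * b0 = c0 * b0' ∧ c0' * b1 + c1' * b0 = c0 * b1' + c1 * b0' ∧
    c0' * b2 + c1' * b1 + c2' * b0 = c0 * b2' + c1 * b1' + c2 * b0' ∧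
    c0' * q1 = c0 * q1' ∧ c0' * q2 + c1' * q1 = c0 * q2' + c1 * q1' ∧
    q1' * b0 = q1 * b0' ∧ q1' * b1 + q2' * b0 = q1 * b1' + q2 * b0' := by
  have e1 := congrFun (congrFun h 1) 0
  have e2 := congrFun (congrFun h 2) 0
  have e3 := congrFun (congrFun h 3) 0
  have e4 := congrFun (congrFun h 5) 0
  have e5 := congrFun (congrFun h 6) 0
  have e6 := congrFun (congrFun h 2) 4
  have e7 := congrFun (congrFun h 3) 4
  simp [B43, Matrix.mul_apply, Fin.sum_univ_succ] at e1 e2 e3 e4 e5 e6 e7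
  refine ⟨?_, ?_, ?_, ?_, ?_, ?_, ?_⟩
  · linear_combination e1
  · linear_combination e2
  · linear_combination e3
  · linear_combination e4
  · linear_combination e5
  · linear_combination e6
  · linear_combination e7

/-- the nilpotent matrices commuting with `J43` -/
def S43 (p1 p2 p3 b0 b1 b2 c0 c1 c2 q1 q2 : k) : Matrix (Fin 7) (Fin 7) k :=
  !![0, 0, 0, 0, 0, 0, 0;
     p1, 0, 0, 0, b0, 0, 0;
     p2, p1, 0, 0, b1, b0, 0;
     p3, p2, p1, 0, b2, b1, b0;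
     c0, 0, 0, 0, 0, 0, 0;
     c1, c0, 0, 0, p1 + q1, 0, 0;
     c2, c1, c0, 0, p2 + q2, p1 + q1, 0]

theorem J_sq : J43 k * J43 k = S43 0 1 0 0 0 0 0 0 0 0 0 := by
  ext i j
  fin_cases i <;> fin_cases j <;> simp [J43, S43, Matrix.mul_apply, Fin.sum_univ_succ]

theorem J_cu : J43 k * (J43 k * J43 k) = S43 0 0 1 0 0 0 0 0 0 0 0 := by
  rw [J_sq]
  ext i j
  fin_cases i <;> fin_cases j <;> simp [J43, S43, Matrix.mul_apply, Fin.sum_univ_succ]

theorem S_eq (p1 p2 p3 b0 b1 b2 c0 c1 c2 q1 q2 : k) : S43 p1 p2 p3 b0 b1 b2 c0 c1 c2 q1 q2 =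
    p1 • J43 k + p2 • (J43 k * J43 k) + p3 • (J43 k * (J43 k * J43 k)) +
      B43 b0 b1 b2 c0 c1 c2 q1 q2 := by
  rw [J_cu, J_sq]
  ext i j
  fin_cases i <;> fin_cases j <;> simp [J43, S43, B43]

theorem nil_row {M : Matrix (Fin 7) (Fin 7) k} (hM : IsNilpotent M) (w : Fin 7 → k) (c : k)
    (h : w ᵥ* M = c • w) (hw : w ≠ 0) : c = 0 := by
  obtain ⟨n, hn⟩ := hM
  have h1 : ∀ m : ℕ, w ᵥ* M ^ m = c ^ m • w := by
    intro m
    induction m with
    | zero => simp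
    | succ m ih =>
      rw [pow_succ, ← Matrix.vecMul_vecMul, ih, Matrix.smul_vecMul, h, smul_smul, pow_succ]
  have h2 := h1 n
  rw [hn, Matrix.vecMul_zero] at h2
  have h3 : c ^ n = 0 := by
    by_contra hc
    exact hw ((smul_eq_zero.1 h2.symm).resolve_left hc)
  rcases Nat.eq_zero_or_pos n with hn0 | hn0
  · rw [hn0, pow_zero] at h3
    exact absurd h3 one_ne_zero
  · exact (pow_eq_zero_iff hn0.ne').1 h3

theorem shape (B : Matrix (Fin 7) (Fin 7) k) (hc : J43 k * B = B * J43 k) (hn : IsNilpotent B) :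
    ∃ p1 p2 p3 b0 b1 b2 c0 c1 c2 q1 q2 : k, B = S43 p1 p2 p3 b0 b1 b2 c0 c1 c2 q1 q2 := by
  have e : ∀ i j, (J43 k * B) i j = (B * J43 k) i j := fun i j => by rw [hc]
  simp [J43, Matrix.mul_apply, Fin.sum_univ_succ, Fin.forall_fin_succ] at e
  obtain ⟨⟨a1, a2, a3, a4, a5⟩, ⟨a6, a7, a8, a9, a10, a11, a12⟩,
    ⟨a13, a14, a15, a16, a17, a18, a19⟩, ⟨a20, a21, a22, a23, a24, a25, a26⟩,
    ⟨a27, a28, a29, a30, a31⟩, ⟨a32, a33, a34, a35, a36, a37, a38⟩,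
    a39, a40, a41, a42, a43, a44, a45⟩ := e
  have h04 : B 0 4 = 0 := by rw [a10, a18, a26]
  have h00 : B 0 0 = 0 := by
    refine nil_row hn (Pi.single 0 1) _ ?_ ?_
    · ext j
      fin_cases j <;> simp [Matrix.vecMul, dotProduct, Fin.sum_univ_succ, ← a1, ← a2, ← a3, ← a4,
        ← a5, h04]
    · intro h
      have := congrFun h 0
      simp at this
  have h44 : B 4 4 = 0 := by
    by_contra h
    refine h (nil_row hn (B 4) _ ?_ ?_)
    · ext j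
      fin_cases j <;> simp [Matrix.vecMul, dotProduct, Fin.sum_univ_succ, ← a1, ← a2, ← a3, ← a4,
        ← a5, h04, h00, ← a27, ← a28, ← a29, ← a30, ← a31]
    · intro h'
      exact h (congrFun h' 4)
  refine ⟨B 1 0, B 2 0, B 3 0, B 1 4, B 2 4, B 3 4, B 4 0, B 5 0, B 6 0, B 5 4 - B 1 0,
    B 6 4 - B 2 0, ?_⟩
  ext i j
  fin_cases i <;> fin_cases j <;> simp [S43] <;> grind

/-! ### membership in subalgebras -/

theorem poly_mem {A : NonUnitalSubalgebra k (Matrix (Fin 7) (Fin 7) k)} (hJ : J43 k ∈ A)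
    (p1 p2 p3 : k) :
    p1 • J43 k + p2 • (J43 k * J43 k) + p3 • (J43 k * (J43 k * J43 k)) ∈ A :=
  add_mem (add_mem (SMulMemClass.smul_mem _ hJ) (SMulMemClass.smul_mem _ (mul_mem hJ hJ)))
    (SMulMemClass.smul_mem _ (mul_mem hJ (mul_mem hJ hJ)))

theorem S_mem {A : NonUnitalSubalgebra k (Matrix (Fin 7) (Fin 7) k)} (hJ : J43 k ∈ A)
    {b0 b1 b2 c0 c1 c2 q1 q2 : k} (hB : B43 b0 b1 b2 c0 c1 c2 q1 q2 ∈ A) (p1 p2 p3 : k) :
    S43 p1 p2 p3 b0 b1 b2 c0 c1 c2 q1 q2 ∈ A := by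
  rw [S_eq]
  exact add_mem (poly_mem hJ p1 p2 p3) hB

theorem B_mem {A : NonUnitalSubalgebra k (Matrix (Fin 7) (Fin 7) k)} (hJ : J43 k ∈ A)
    {p1 p2 p3 b0 b1 b2 c0 c1 c2 q1 q2 : k} (hS : S43 p1 p2 p3 b0 b1 b2 c0 c1 c2 q1 q2 ∈ A) :
    B43 b0 b1 b2 c0 c1 c2 q1 q2 ∈ A := by
  have h : B43 b0 b1 b2 c0 c1 c2 q1 q2 = S43 p1 p2 p3 b0 b1 b2 c0 c1 c2 q1 q2 -
      (p1 • J43 k + p2 • (J43 k * J43 k) + p3 • (J43 k * (J43 k * J43 k))) := by
    rw [S_eq, add_sub_cancel_left]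
  rw [h]
  exact sub_mem hS (poly_mem hJ p1 p2 p3)

theorem m0 {n : Type*} [Fintype n] [DecidableEq n] (A B C : Matrix n n k) :
    A ∈ adj ![A, B, C] := mem_adj ![A, B, C] 0

theorem m1 {n : Type*} [Fintype n] [DecidableEq n] (A B C : Matrix n n k) :
    B ∈ adj ![A, B, C] := mem_adj ![A, B, C] 1

theorem m2 {n : Type*} [Fintype n] [DecidableEq n] (A B C : Matrix n n k) :
    C ∈ adj ![A, B, C] := mem_adj ![A, B, C] 2

theorem change3 {n : Type*} [Fintype n] [DecidableEq n] {ρ : ℕ → ℕ} {A B C B' C' : Matrix n n k}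
    (hT : MaxR ρ ![A, B, C]) (hB : B' ∈ adj ![A, B, C]) (hC : C' ∈ adj ![A, B, C])
    (hB' : B ∈ adj ![A, B', C']) (hC' : C ∈ adj ![A, B', C']) : MaxR ρ ![A, B', C'] := by
  refine hT.change (hT.cn.of_adj ?_) ?_
  · intro i
    fin_cases i
    · exact m0 A B C
    · exact hB
    · exact hC
  · intro i
    fin_cases i
    · exact m0 A B' C'
    · exact hB'
    · exact hC'

/-! ### commuting nilpotent triples -/

theorem nil_J : IsNilpotent (J43 k) := by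
  refine isNilpotent_of_weight _ ![0, 2, 4, 6, 1, 3, 5] ?_
  intro i j
  fin_cases i <;> fin_cases j <;> simp [J43]

theorem nil_B (b0 b1 b2 c0 c1 c2 q1 q2 : k) : IsNilpotent (B43 b0 b1 b2 c0 c1 c2 q1 q2) := by
  refine isNilpotent_of_weight _ ![0, 2, 4, 6, 1, 3, 5] ?_
  intro i j
  fin_cases i <;> fin_cases j <;> simp [B43]

theorem cn_BB {b0 b1 b2 c0 c1 c2 q1 q2 b0' b1' b2' c0' c1' c2' q1' q2' : k}
    (r1 : c0' * b0 = c0 * b0') (r2 : c0' * b1 + c1' * b0 = c0 * b1' + c1 * b0')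
    (r3 : c0' * b2 + c1' * b1 + c2' * b0 = c0 * b2' + c1 * b1' + c2 * b0')
    (r4 : c0' * q1 = c0 * q1') (r5 : c0' * q2 + c1' * q1 = c0 * q2' + c1 * q1')
    (r6 : q1' * b0 = q1 * b0') (r7 : q1' * b1 + q2' * b0 = q1 * b1' + q2 * b0') :
    CN ![J43 k, B43 b0 b1 b2 c0 c1 c2 q1 q2, B43 b0' b1' b2' c0' c1' c2' q1' q2'] := by
  have h1 := comm_J b0 b1 b2 c0 c1 c2 q1 q2
  have h2 := comm_J b0' b1' b2' c0' c1' c2' q1' q2'
  have h3 := comm_BB r1 r2 r3 r4 r5 r6 r7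
  constructor
  · intro i j
    fin_cases i <;> fin_cases j
    · rfl
    · exact h1
    · exact h2
    · exact h1.symm
    · rfl
    · exact h3
    · exact h2.symm
    · exact h3.symm
    · rfl
  · intro i
    fin_cases i
    · exact nil_J
    · exact nil_B _ _ _ _ _ _ _ _
    · exact nil_B _ _ _ _ _ _ _ _

theorem add_smul_B (b0 b1 b2 c0 c1 c2 q1 q2 b0' b1' b2' c0' c1' c2' q1' q2' s : k) :
    B43 b0 b1 b2 c0 c1 c2 q1 q2 + s • B43 b0' b1' b2' c0' c1' c2' q1' q2' =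
      B43 (b0 + s * b0') (b1 + s * b1') (b2 + s * b2') (c0 + s * c0') (c1 + s * c1')
        (c2 + s * c2') (q1 + s * q1') (q2 + s * q2') := by
  ext i j
  fin_cases i <;> fin_cases j <;> simp [B43]

theorem add_B (b0 b1 b2 c0 c1 c2 q1 q2 b0' b1' b2' c0' c1' c2' q1' q2' : k) :
    B43 b0 b1 b2 c0 c1 c2 q1 q2 + B43 b0' b1' b2' c0' c1' c2' q1' q2' =
      B43 (b0 + b0') (b1 + b1') (b2 + b2') (c0 + c0') (c1 + c1')
        (c2 + c2') (q1 + q1') (q2 + q2') := by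
  ext i j
  fin_cases i <;> fin_cases j <;> simp [B43]

theorem smul_B (b0 b1 b2 c0 c1 c2 q1 q2 s : k) :
    s • B43 b0 b1 b2 c0 c1 c2 q1 q2 =
      B43 (s * b0) (s * b1) (s * b2) (s * c0) (s * c1) (s * c2) (s * q1) (s * q2) := by
  ext i j
  fin_cases i <;> fin_cases j <;> simp [B43]

theorem zero_B : B43 (0 : k) 0 0 0 0 0 0 0 = 0 := by
  ext i j
  fin_cases i <;> fin_cases j <;> simp [B43]

theorem deform3 [Infinite k] {n : Type*} [Fintype n] [DecidableEq n] {ρ : ℕ → ℕ}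
    {A B C D E : Matrix n n k}
    (hT : MaxR ρ ![A, B, C]) (hcn : ∀ s : k, CN ![A, B + s • D, C + s • E])
    {F : Set k} (hF : F.Finite) : ∃ s ∉ F, MaxR ρ ![A, B + s • D, C + s • E] := by
  have hl : ∀ s : k, ![A, B, C] + s • ![0, D, E] = ![A, B + s • D, C + s • E] := by
    intro s
    funext i
    fin_cases i <;> simp
  obtain ⟨E', hE', h⟩ := hT.deform (fun s => ![A, B, C] + s • ![0, D, E]) (PolyFam.line _ _)
    (by simp) (Set.finite_empty) (by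
      intro s _
      simp only [hl]
      exact hcn s)
  obtain ⟨s, hs⟩ := ((hE'.union hF).infinite_compl).nonempty
  refine ⟨s, fun h' => hs (Or.inr h'), ?_⟩
  rw [← hl]
  exact h s fun h' => hs (Or.inl h')

theorem mulVec_B (b0 b1 b2 c0 c1 c2 q1 q2 x0 x1 x2 x3 x4 x5 x6 : k) :
    B43 b0 b1 b2 c0 c1 c2 q1 q2 *ᵥ ![x0, x1, x2, x3, x4, x5, x6] =
      ![0, b0 * x4, b1 * x4 + b0 * x5, b2 * x4 + b1 * x5 + b0 * x6, c0 * x0,
        c1 * x0 + c0 * x1 + q1 * x4, c2 * x0 + c1 * x1 + c0 * x2 + q2 * x4 + q1 * x5] := by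
  ext i
  fin_cases i <;> simp [B43, Matrix.mulVec, dotProduct, Fin.sum_univ_succ] <;> ring

theorem pow_six {b0 b1 b2 c0 c1 c2 q1 q2 : k} (h : B43 b0 b1 b2 c0 c1 c2 q1 q2 ^ 6 = 0) :
    (b0 * c0) ^ 3 = 0 := by
  have h1 : (B43 b0 b1 b2 c0 c1 c2 q1 q2 ^ 6) *ᵥ ![1, 0, 0, 0, 0, 0, 0] = 0 := by
    rw [h, Matrix.zero_mulVec]
  simp only [pow_succ, pow_zero, one_mul, ← Matrix.mulVec_mulVec, mulVec_B] at h1
  have h2 := congrFun h1 3
  simp at h2
  simp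
  tauto

theorem rank_six {ρ : ℕ → ℕ} (hρ : ∀ i, ρ i = (J43 k ^ i).rank) : ρ 6 = 0 := by
  have h : J43 k ^ 6 = 0 := by
    have h1 : J43 k ^ 6 = (J43 k * (J43 k * J43 k)) * (J43 k * (J43 k * J43 k)) := by
      simp only [pow_succ, pow_zero, one_mul, mul_assoc]
    rw [h1, J_cu]
    ext i j
    fin_cases i <;> fin_cases j <;> simp [S43, Matrix.mul_apply, Fin.sum_univ_succ]
  rw [hρ, h, Matrix.rank_zero]

section

variable [Infinite k] {ρ : ℕ → ℕ} (hρ : ∀ i, ρ i = (J43 k ^ i).rank)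

include hρ

theorem planar {b0 b1 b2 c0 c1 c2 q1 q2 : k}
    (hT : MaxR ρ ![J43 k, B43 b0 b1 b2 c0 c1 c2 q1 q2, 0]) : False := by
  obtain ⟨s, hs, hM⟩ := deform3 (D := B43 1 0 0 1 0 0 0 0) (E := 0) hT (by
    intro s
    rw [add_smul_B, smul_zero, add_zero, ← zero_B]
    apply cn_BB <;> ring) (F := {-b0, -c0}) (by simp)
  have hb : b0 + s ≠ 0 := by
    intro h
    exact hs (Or.inl (by linear_combination h))
  have hc : c0 + s ≠ 0 := by
    intro h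
    refine hs (Or.inr ?_)
    change s = -c0
    linear_combination h
  have h6 := hM.pow_eq_zero (m1 _ _ _) (rank_six hρ)
  rw [add_smul_B] at h6
  have h7 := pow_six h6
  rw [mul_one] at h7
  exact (pow_ne_zero 3 (mul_ne_zero hb hc)) h7

theorem caseA {b0 b1 b2 c0 c1 c2 q1 q2 b0' b1' b2' c0' c1' c2' q1' q2' : k}
    (hT : MaxR ρ ![J43 k, B43 b0 b1 b2 c0 c1 c2 q1 q2, B43 b0' b1' b2' c0' c1' c2' q1' q2'])
    (h : b0 ≠ 0 ∨ c0 ≠ 0) : False := by
  obtain ⟨r1, r2, r3, r4, r5, r6, r7⟩ := rel_BB (hT.cn.1 1 2)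
  have hl : ∃ l m n : k, B43 b0' b1' b2' c0' c1' c2' q1' q2' =
      l • B43 b0 b1 b2 c0 c1 c2 q1 q2 + m • (J43 k * B43 b0 b1 b2 c0 c1 c2 q1 q2) +
        n • (J43 k * (J43 k * B43 b0 b1 b2 c0 c1 c2 q1 q2)) := by
    simp only [J_mul, smul_B, add_B, mul_zero, add_zero]
    rcases h with h | h
    · refine ⟨b0' / b0, (b1' - b0' / b0 * b1) / b0,
        (b2' - b0' / b0 * b2 - (b1' - b0' / b0 * b1) / b0 * b1) / b0, ?_⟩
      congr 1
      · field_simp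
      · field_simp
        ring
      · field_simp
        ring
      · field_simp
        linear_combination r1
      · field_simp
        linear_combination b0 * r2 - b1 * r1
      · field_simp
        linear_combination b0 ^ 2 * r3 - b0 * b1 * r2 + (b1 ^ 2 - b0 * b2) * r1
      · field_simp
        linear_combination r6
      · field_simp
        linear_combination b0 * r7 - b1 * r6
    · refine ⟨c0' / c0, (c1' - c0' / c0 * c1) / c0,
        (c2' - c0' / c0 * c2 - (c1' - c0' / c0 * c1) / c0 * c1) / c0, ?_⟩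
      congr 1
      · field_simp
        linear_combination (-1 : k) * r1
      · field_simp
        linear_combination -c0 * r2 + c1 * r1
      · field_simp
        linear_combination -c0 ^ 2 * r3 + c0 * c1 * r2 - (c1 ^ 2 - c0 * c2) * r1
      · field_simp
      · field_simp
        ring
      · field_simp
        ring
      · field_simp
        linear_combination (-1 : k) * r4
      · field_simp
        linear_combination -c0 * r5 + c1 * r4
  obtain ⟨l, m, n, hC⟩ := hl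
  refine planar hρ (change3 hT (m1 _ _ _) (zero_mem _) (m1 _ _ _) ?_)
  rw [hC]
  have h0 := m0 (J43 k) (B43 b0 b1 b2 c0 c1 c2 q1 q2) 0
  have h1 := m1 (J43 k) (B43 b0 b1 b2 c0 c1 c2 q1 q2) 0
  exact add_mem (add_mem (SMulMemClass.smul_mem _ h1) (SMulMemClass.smul_mem _ (mul_mem h0 h1)))
    (SMulMemClass.smul_mem _ (mul_mem h0 (mul_mem h0 h1)))

theorem caseC {b1 b2 c1 c2 q1 q2 b2' c2' q2' : k}
    (hT : MaxR ρ ![J43 k, B43 0 b1 b2 0 c1 c2 q1 q2, B43 0 0 b2' 0 0 c2' 0 q2']) : False := by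
  -- first make `q1` nonzero
  obtain ⟨s, hs, hM⟩ := deform3 (D := B43 0 0 0 0 0 0 1 0) (E := 0) hT (by
    intro s
    rw [add_smul_B, smul_zero, add_zero]
    apply cn_BB <;> ring) (F := {-q1}) (by simp)
  rw [add_smul_B, smul_zero, add_zero] at hM
  simp only [mul_zero, add_zero, mul_one] at hM
  have hq : q1 + s ≠ 0 := by
    intro h
    refine hs ?_
    change s = -q1
    linear_combination h
  generalize q1 + s = q at hM hq
  -- then make `q2'` zero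
  have hM2 : MaxR ρ ![J43 k, B43 0 b1 b2 0 c1 c2 q q2,
      B43 0 0 (b2' - q2' / q * b1) 0 0 (c2' - q2' / q * c1) 0 0] := by
    have e1 : B43 0 0 (b2' - q2' / q * b1) 0 0 (c2' - q2' / q * c1) 0 0 =
        B43 0 0 b2' 0 0 c2' 0 q2' + (-(q2' / q)) • (J43 k * B43 0 b1 b2 0 c1 c2 q q2) := by
      rw [J_mul, add_smul_B]
      congr 1 <;> field_simp <;> ring
    have e2 : B43 0 0 b2' 0 0 c2' 0 q2' =
        B43 0 0 (b2' - q2' / q * b1) 0 0 (c2' - q2' / q * c1) 0 0 +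
          (q2' / q) • (J43 k * B43 0 b1 b2 0 c1 c2 q q2) := by
      rw [J_mul, add_smul_B]
      congr 1 <;> field_simp <;> ring
    refine change3 hM (m1 _ _ _) ?_ (m1 _ _ _) ?_
    · rw [e1]
      exact add_mem (m2 _ _ _) (SMulMemClass.smul_mem _ (mul_mem (m0 _ _ _) (m1 _ _ _)))
    · have h2 := m2 (J43 k) (B43 0 b1 b2 0 c1 c2 q q2)
        (B43 0 0 (b2' - q2' / q * b1) 0 0 (c2' - q2' / q * c1) 0 0)
      have h3 := add_mem h2 (SMulMemClass.smul_mem (q2' / q)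
        (mul_mem (m0 (J43 k) (B43 0 b1 b2 0 c1 c2 q q2)
          (B43 0 0 (b2' - q2' / q * b1) 0 0 (c2' - q2' / q * c1) 0 0))
          (m1 (J43 k) (B43 0 b1 b2 0 c1 c2 q q2)
          (B43 0 0 (b2' - q2' / q * b1) 0 0 (c2' - q2' / q * c1) 0 0))))
      rw [← e2] at h3
      exact h3
  generalize b2' - q2' / q * b1 = e at hM2
  generalize c2' - q2' / q * c1 = f at hM2
  -- make the triple planar
  obtain ⟨t, ht, hM3⟩ := deform3 (D := B43 e 0 0 f 0 0 0 0) (E := 0) hM2 (by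
    intro s
    rw [add_smul_B, smul_zero, add_zero]
    apply cn_BB <;> ring) (F := {0}) (by simp)
  rw [add_smul_B, smul_zero, add_zero] at hM3
  simp only [mul_zero, add_zero, zero_add] at hM3
  have ht0 : t ≠ 0 := ht
  refine planar hρ (change3 hM3 (m1 _ _ _) (zero_mem _) (m1 _ _ _) ?_)
  have e3 : B43 0 0 e 0 0 f 0 0 =
      t⁻¹ • (J43 k * (J43 k * B43 (t * e) b1 b2 (t * f) c1 c2 q q2)) := by
    rw [J_mul, J_mul, smul_B]
    congr 1 <;> field_simp <;> ring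
  rw [e3]
  have h0 := m0 (J43 k) (B43 (t * e) b1 b2 (t * f) c1 c2 q q2) 0
  have h1 := m1 (J43 k) (B43 (t * e) b1 b2 (t * f) c1 c2 q q2) 0
  exact SMulMemClass.smul_mem _ (mul_mem h0 (mul_mem h0 h1))

theorem no_BB {b0 b1 b2 c0 c1 c2 q1 q2 b0' b1' b2' c0' c1' c2' q1' q2' : k}
    (hT : MaxR ρ ![J43 k, B43 b0 b1 b2 c0 c1 c2 q1 q2, B43 b0' b1' b2' c0' c1' c2' q1' q2']) :
    False := by
  by_cases h1 : b0 ≠ 0 ∨ c0 ≠ 0
  · exact caseA hρ hT h1
  have hT' := change3 hT (m2 _ _ _) (m1 _ _ _) (m2 _ _ _) (m1 _ _ _)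
  by_cases h2 : b0' ≠ 0 ∨ c0' ≠ 0
  · exact caseA hρ hT' h2
  push Not at h1 h2
  obtain ⟨rfl, rfl⟩ := h1
  obtain ⟨rfl, rfl⟩ := h2
  obtain ⟨-, -, r3, -, r5, -, r7⟩ := rel_BB (hT.cn.1 1 2)
  simp only [zero_mul, mul_zero, add_zero, zero_add] at r3 r5 r7
  -- `r3 : c1' * b1 = c1 * b1'`, `r5 : c1' * q1 = c1 * q1'`, `r7 : q1' * b1 = q1 * b1'`
  by_cases h3 : b1 = 0 ∧ c1 = 0 ∧ q1 = 0
  · obtain ⟨rfl, rfl, rfl⟩ := h3
    exact caseC hρ hT'
  · have hl : ∃ l : k, b1' = l * b1 ∧ c1' = l * c1 ∧ q1' = l * q1 := by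
      by_cases hb : b1 = 0
      · by_cases hc : c1 = 0
        · by_cases hq : q1 = 0
          · exact absurd ⟨hb, hc, hq⟩ h3
          · refine ⟨q1' / q1, ?_, ?_, ?_⟩
            · field_simp
              linear_combination -r7
            · field_simp
              linear_combination r5
            · field_simp
        · refine ⟨c1' / c1, ?_, ?_, ?_⟩
          · field_simp
            linear_combination -r3
          · field_simp
          · field_simp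
            linear_combination -r5
      · refine ⟨b1' / b1, ?_, ?_, ?_⟩
        · field_simp
        · field_simp
          linear_combination r3
        · field_simp
          linear_combination r7
    obtain ⟨l, rfl, rfl, rfl⟩ := hl
    have e1 : B43 0 0 (b2' - l * b2) 0 0 (c2' - l * c2) 0 (q2' - l * q2) =
        B43 0 (l * b1) b2' 0 (l * c1) c2' (l * q1) q2' + (-l) • B43 0 b1 b2 0 c1 c2 q1 q2 := by
      rw [add_smul_B]
      congr 1 <;> ring
    have e2 : B43 0 (l * b1) b2' 0 (l * c1) c2' (l * q1) q2' =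
        B43 0 0 (b2' - l * b2) 0 0 (c2' - l * c2) 0 (q2' - l * q2) +
          l • B43 0 b1 b2 0 c1 c2 q1 q2 := by
      rw [add_smul_B]
      congr 1 <;> ring
    refine caseC hρ (change3 (B' := B43 0 b1 b2 0 c1 c2 q1 q2)
      (C' := B43 0 0 (b2' - l * b2) 0 0 (c2' - l * c2) 0 (q2' - l * q2)) hT (m1 _ _ _) ?_
      (m1 _ _ _) ?_)
    · rw [e1]
      exact add_mem (m2 _ _ _) (SMulMemClass.smul_mem _ (m1 _ _ _))
    · have h4 := add_mem (m2 (J43 k) (B43 0 b1 b2 0 c1 c2 q1 q2)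
        (B43 0 0 (b2' - l * b2) 0 0 (c2' - l * c2) 0 (q2' - l * q2)))
        (SMulMemClass.smul_mem l (m1 (J43 k) (B43 0 b1 b2 0 c1 c2 q1 q2)
        (B43 0 0 (b2' - l * b2) 0 0 (c2' - l * c2) 0 (q2' - l * q2))))
      rw [← e2] at h4
      exact h4

end

end T43Aux

theorem no_43 {k : Type*} [Field k] [IsAlgClosed k] [CharZero k] {ρ : ℕ → ℕ} {T : Fin 3 → Matrix (Fin 7) (Fin 7) k}
    (hT : MaxR ρ T) (hρ : ∀ i, ρ i = (J43 k ^ i).rank) (h0 : T 0 = J43 k) : False := by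
  have h1 := hT.cn.1 0 1
  have h2 := hT.cn.1 0 2
  rw [h0] at h1 h2
  obtain ⟨p1, p2, p3, b0, b1, b2, c0, c1, c2, q1, q2, hB⟩ := T43Aux.shape _ h1 (hT.cn.2 1)
  obtain ⟨p1', p2', p3', b0', b1', b2', c0', c1', c2', q1', q2', hC⟩ :=
    T43Aux.shape _ h2 (hT.cn.2 2)
  have hJ : J43 k ∈ adj T := h0 ▸ mem_adj T 0
  have hBm : B43 b0 b1 b2 c0 c1 c2 q1 q2 ∈ adj T :=
    T43Aux.B_mem (p1 := p1) (p2 := p2) (p3 := p3) hJ (hB ▸ mem_adj T 1)
  have hCm : B43 b0' b1' b2' c0' c1' c2' q1' q2' ∈ adj T :=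
    T43Aux.B_mem (p1 := p1') (p2 := p2') (p3 := p3') hJ (hC ▸ mem_adj T 2)
  refine T43Aux.no_BB hρ (b0 := b0) (b1 := b1) (b2 := b2) (c0 := c0) (c1 := c1) (c2 := c2)
    (q1 := q1) (q2 := q2) (b0' := b0') (b1' := b1') (b2' := b2') (c0' := c0') (c1' := c1')
    (c2' := c2') (q1' := q1') (q2' := q2') (hT.change (hT.cn.of_adj ?_) ?_)
  · intro i
    fin_cases i
    · exact hJ
    · exact hBm
    · exact hCm
  · intro i
    fin_cases i
    · exact h0 ▸ T43Aux.m0 _ _ _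
    · exact hB ▸ T43Aux.S_mem (T43Aux.m0 _ _ _) (T43Aux.m1 _ _ _) p1 p2 p3
    · exact hC ▸ T43Aux.S_mem (T43Aux.m0 _ _ _) (T43Aux.m2 _ _ _) p1' p2' p3'

end Pool.Agent.Lib.D7
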