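import Mathlib
import Pool.Agent.Lib.Q5dc.Defs
import Pool.Agent.Lib.D7.Defs
import Pool.Agent.Lib.D7.Fams

/-!
# D7.N43: the node algebras `x y = 0`, `y^3 = c x^4` are limits of curvilinear ones

For `s ≠ 0` the matrices `X43 s`, `Y43 s` are conjugate (by `P43 s`) to `s^3 N` and
`s^4 (N - N^2 + N^3 - N^4 + N^5 - N^6)`, `N = J7 k`; at `s = 0` they are `Nd43 (-1)`.
For general `c` one multiplies `Y43` by a cube root `l` of `-c` and rescales the basis.
-/

namespace Pool.Agent.Lib.D7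

open Matrix Pool.Agent.Lib.Q5dc

namespace N43Aux

section
variable {k : Type*} [Field k]

/-- inverse of `P43 s`, `r = 1 / s` -/
def Q43 (r : k) : Matrix (Fin 7) (Fin 7) k :=
  !![1, 0, 0, 0, 0, 0, 0;
     0, r ^ 3, 0, 0, 0, -5 * r ^ 3, -4 * r ^ 3;
     0, 0, r ^ 6, 0, 0, 4 * r ^ 6, 3 * r ^ 6;
     0, 0, 0, r ^ 9, 0, -3 * r ^ 9, -2 * r ^ 9;
     0, 0, 0, 0, r ^ 12, 2 * r ^ 12, r ^ 12;
     0, 0, 0, 0, 0, 5 * r ^ 4, 4 * r ^ 4;
     0, 0, 0, 0, 0, r ^ 8, r ^ 8]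

theorem PQ {s : k} (hs : s ≠ 0) : P43 s * Q43 s⁻¹ = 1 := by
  ext i j
  fin_cases i <;> fin_cases j <;>
    simp [P43, Q43, Matrix.mul_apply, Fin.sum_univ_succ] <;> field_simp <;> ring

/-- `N - N^2 + N^3 - N^4 + N^5 - N^6` -/
def E7 (k : Type*) [Field k] : Matrix (Fin 7) (Fin 7) k :=
  !![0, 0, 0, 0, 0, 0, 0;
     1, 0, 0, 0, 0, 0, 0;
     -1, 1, 0, 0, 0, 0, 0;
     1, -1, 1, 0, 0, 0, 0;
     -1, 1, -1, 1, 0, 0, 0;
     1, -1, 1, -1, 1, 0, 0;
     -1, 1, -1, 1, -1, 1, 0]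

theorem E7_eq : E7 k = J7 k - J7 k * E7 k := by
  ext i j
  fin_cases i <;> fin_cases j <;>
    simp [E7, J7]

theorem PX (s : k) : P43 s * X43 s = (s ^ 3 • J7 k) * P43 s := by
  ext i j
  fin_cases i <;> fin_cases j <;>
    simp [P43, X43, J7, Matrix.mul_apply, Fin.sum_univ_succ] <;> ring

theorem PY (s : k) : P43 s * Y43 s = (s ^ 4 • E7 k) * P43 s := by
  ext i j
  fin_cases i <;> fin_cases j <;>
    simp [P43, Y43, E7, Matrix.mul_apply, Fin.sum_univ_succ] <;> ring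

theorem J7_pow_ne (m : ℕ) : ∀ i j : Fin 7, (J7 k ^ m) i j ≠ 0 → (j : ℕ) + m = i := by
  have hJ : ∀ i j : Fin 7, J7 k i j ≠ 0 → (j : ℕ) + 1 = i := by
    intro i j
    fin_cases i <;> fin_cases j <;> simp [J7]
  induction m with
  | zero =>
    intro i j hij
    rw [pow_zero, Matrix.one_apply] at hij
    by_cases e : i = j
    · subst e; simp
    · rw [if_neg e] at hij; exact absurd rfl hij
  | succ m ih =>
    intro i j hij
    rw [pow_succ, Matrix.mul_apply] at hij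
    obtain ⟨l, -, hl⟩ := Finset.exists_ne_zero_of_sum_ne_zero hij
    have h1 := ih i l (left_ne_zero_of_mul hl)
    have h2 := hJ l j (right_ne_zero_of_mul hl)
    omega

theorem J7_pow : J7 k ^ 7 = 0 := by
  ext i j
  by_contra h
  have h1 := J7_pow_ne 7 i j h
  omega

theorem J7_col (j : Fin 7) (h : (j : ℕ) + 1 < 7) :
    J7 k *ᵥ (Pi.single j 1) = Pi.single (⟨j + 1, h⟩ : Fin 7) 1 := by
  ext i
  rw [Matrix.mulVec_single_one]
  fin_cases j <;> first | (exfalso; simp at h; done) | (fin_cases i <;> simp [J7])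

theorem J7_pow_six : J7 k ^ 6 ≠ 0 := by
  intro h
  have h1 : (J7 k ^ 6) *ᵥ (Pi.single 0 1) = Pi.single 6 1 := by
    have e : J7 k ^ 6 = J7 k * (J7 k * (J7 k * (J7 k * (J7 k * J7 k)))) := by
      simp only [pow_succ, pow_zero, one_mul, Matrix.mul_assoc]
    rw [e]
    simp only [← Matrix.mulVec_mulVec]
    rw [J7_col 0 (by decide), J7_col _ (by decide), J7_col _ (by decide), J7_col _ (by decide),
      J7_col _ (by decide), J7_col _ (by decide)]
    rfl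
  rw [h, Matrix.zero_mulVec] at h1
  have h2 := congrFun h1 6
  simp at h2

theorem E7_poly : E7 k = Polynomial.aeval (J7 k) (Polynomial.X - Polynomial.X ^ 2 +
    Polynomial.X ^ 3 - Polynomial.X ^ 4 + Polynomial.X ^ 5 - Polynomial.X ^ 6 :
      Polynomial k) := by
  simp only [map_add, map_sub, map_pow, Polynomial.aeval_X]
  have h := E7_eq (k := k)
  have h7 := J7_pow (k := k)
  generalize J7 k = N at h h7 ⊢
  generalize E7 k = E at h ⊢
  have h1 : N ^ 6 * E = 0 := by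
    calc N ^ 6 * E = N ^ 6 * (N - N * E) := by rw [← h]
      _ = N ^ 7 - N ^ 7 * E := by rw [mul_sub, ← mul_assoc, ← pow_succ]
      _ = 0 := by rw [h7, zero_mul, sub_zero]
  have h2 : E = N - N ^ 2 + N ^ 3 - N ^ 4 + N ^ 5 - N ^ 6 + N ^ 6 * E := by
    have a1 : E = N - N * E := h
    have a2 : N * E = N ^ 2 - N ^ 2 * E := by
      conv_lhs => rw [a1]
      rw [mul_sub, ← mul_assoc, ← pow_two]
    have a3 : N ^ 2 * E = N ^ 3 - N ^ 3 * E := by
      conv_lhs => rw [a1]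
      rw [mul_sub, ← mul_assoc, ← pow_succ]
    have a4 : N ^ 3 * E = N ^ 4 - N ^ 4 * E := by
      conv_lhs => rw [a1]
      rw [mul_sub, ← mul_assoc, ← pow_succ]
    have a5 : N ^ 4 * E = N ^ 5 - N ^ 5 * E := by
      conv_lhs => rw [a1]
      rw [mul_sub, ← mul_assoc, ← pow_succ]
    have a6 : N ^ 5 * E = N ^ 6 - N ^ 6 * E := by
      conv_lhs => rw [a1]
      rw [mul_sub, ← mul_assoc, ← pow_succ]
    calc E = N - N * E := a1
      _ = _ := by rw [a2, a3, a4, a5, a6]; abel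
  rw [h1, add_zero] at h2
  exact h2

theorem curv0 (a b : k) : Curv ![a • J7 k, b • E7 k, (0 : Matrix (Fin 7) (Fin 7) k)] := by
  refine ⟨J7 k, ?_, ?_, fun i => ?_⟩
  · rw [Fintype.card_fin]; exact J7_pow
  · rw [Fintype.card_fin]; exact J7_pow_six
  · fin_cases i
    · exact ⟨a • Polynomial.X, by simp, by simp⟩
    · refine ⟨b • (Polynomial.X - Polynomial.X ^ 2 + Polynomial.X ^ 3 - Polynomial.X ^ 4 +
        Polynomial.X ^ 5 - Polynomial.X ^ 6), by simp [Polynomial.coeff_X_pow], ?_⟩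
      change b • E7 k = _
      rw [map_smul, ← E7_poly]
    · exact ⟨0, by simp, by simp⟩

theorem curvS {s : k} (hs : s ≠ 0) (l : k) :
    Curv ![X43 s, l • Y43 s, (0 : Matrix (Fin 7) (Fin 7) k)] := by
  have hPQ := PQ hs
  have hQP : Q43 s⁻¹ * P43 s = 1 := mul_eq_one_comm.1 hPQ
  have h := (curv0 (s ^ 3) (l * s ^ 4)).conj (Q43 s⁻¹) (P43 s) hQP hPQ
  have e : ![X43 s, l • Y43 s, (0 : Matrix (Fin 7) (Fin 7) k)] = fun i =>
      Q43 s⁻¹ * ![s ^ 3 • J7 k, (l * s ^ 4) • E7 k, (0 : Matrix (Fin 7) (Fin 7) k)] i * P43 s := by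
    funext i
    fin_cases i
    · change X43 s = Q43 s⁻¹ * (s ^ 3 • J7 k) * P43 s
      rw [Matrix.mul_assoc, ← PX, ← Matrix.mul_assoc, hQP, Matrix.one_mul]
    · change l • Y43 s = Q43 s⁻¹ * ((l * s ^ 4) • E7 k) * P43 s
      rw [mul_smul, Matrix.mul_smul, Matrix.smul_mul, Matrix.mul_assoc, ← PY, ← Matrix.mul_assoc,
        hQP, Matrix.one_mul]
    · change (0 : Matrix (Fin 7) (Fin 7) k) = Q43 s⁻¹ * 0 * P43 s
      rw [Matrix.mul_zero, Matrix.zero_mul]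
  rw [e]
  exact h

open Polynomial in
/-- `X43` with the variable `X` -/
noncomputable def XP (k : Type*) [Field k] : Matrix (Fin 7) (Fin 7) k[X] :=
  !![0, 0, 0, 0, 0, 0, 0;
     1, 0, 0, 0, -5 * X ^ 12, X ^ 4, X ^ 8;
     0, 1, 0, 0, 4 * X ^ 9, 0, 0;
     0, 0, 1, 0, -3 * X ^ 6, 0, 0;
     0, 0, 0, 1, 2 * X ^ 3, 0, 0;
     0, 0, 0, 0, 5 * X ^ 11, -X ^ 3, -X ^ 7;
     0, 0, 0, 0, X ^ 7, 0, -X ^ 3]

open Polynomial in
/-- `Y43` with the variable `X` -/
noncomputable def YP (k : Type*) [Field k] : Matrix (Fin 7) (Fin 7) k[X] :=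
  !![0, 0, 0, 0, 0, 0, 0;
     0, X ^ 4, -X ^ 7, X ^ 10, -X ^ 13, 0, 10 * X ^ 9;
     0, 0, X ^ 4, -X ^ 7, X ^ 10, 0, -6 * X ^ 6;
     0, 0, 0, X ^ 4, -X ^ 7, 0, 3 * X ^ 3;
     0, 0, 0, 0, X ^ 4, 0, -1;
     1, -X ^ 3, X ^ 6, -X ^ 9, X ^ 12, 0, -10 * X ^ 8;
     0, 0, 0, 0, 0, 1, -4 * X ^ 4]

theorem XP_eval (s : k) (x y : Fin 7) : (XP k x y).eval s = X43 s x y := by
  fin_cases x <;> fin_cases y <;> simp [XP, X43]

theorem YP_eval (s : k) (x y : Fin 7) : (YP k x y).eval s = Y43 s x y := by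
  fin_cases x <;> fin_cases y <;> simp [YP, Y43]

theorem clS [Infinite k] (l s : k) : Cl ![X43 s, l • Y43 s, (0 : Matrix (Fin 7) (Fin 7) k)] := by
  set c : Fin 3 → Fin 7 → Fin 7 → Polynomial k :=
    ![XP k, fun x y => Polynomial.C l * YP k x y, 0] with hc
  have e : ∀ s : k, (fun i => Matrix.of fun x y => (c i x y).eval s) =
      ![X43 s, l • Y43 s, (0 : Matrix (Fin 7) (Fin 7) k)] := by
    intro s
    funext i
    ext x y
    fin_cases i
    · exact XP_eval s x y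
    · change (Polynomial.C l * YP k x y).eval s = l * Y43 s x y
      rw [Polynomial.eval_mul, Polynomial.eval_C, YP_eval]
    · exact Polynomial.eval_zero
  rw [← e s]
  refine Cl.curve c ?_ s
  refine (Set.Finite.infinite_compl (Set.finite_singleton (0 : k))).mono fun s hs => ?_
  rw [Set.mem_ofPred_eq, e s]
  exact Cl.of_curv (curvS hs l)

/-- the scaling of the basis -/
def Dg (l : k) : Matrix (Fin 7) (Fin 7) k := Matrix.diagonal ![1, 1, 1, 1, 1, l, l ^ 2]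

theorem Dg_mul {l r : k} (h : l * r = 1) : Dg l * Dg r = 1 := by
  rw [Dg, Dg, Matrix.diagonal_mul_diagonal, ← Matrix.diagonal_one]
  congr 1
  funext i
  fin_cases i <;> simp [h, ← mul_pow]

theorem conjX (l r : k) : Dg r * X43 0 * Dg l = Nd43 (-l ^ 3) 0 := by
  ext i j
  fin_cases i <;> fin_cases j <;>
    simp [Dg, X43, Nd43, Matrix.mul_apply, Matrix.diagonal_apply]

theorem conjY {l r : k} (h : l * r = 1) : Dg r * (l • Y43 0) * Dg l = Nd43 (-l ^ 3) 1 := by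
  ext i j
  fin_cases i <;> fin_cases j <;>
    simp [Dg, Y43, Nd43, Matrix.mul_apply, Matrix.diagonal_apply] <;>
    first | ring1 | linear_combination h | linear_combination (l * r + 1) * h

end

end N43Aux

open N43Aux

theorem cl_node43 {k : Type*} [Field k] [IsAlgClosed k] [CharZero k] (c : k) (hc : c ≠ 0) :
    Cl (Nd43 c) := by
  obtain ⟨l, hl⟩ := IsAlgClosed.exists_pow_nat_eq (-c) (n := 3) (by norm_num)
  have hl0 : l ≠ 0 := by
    rintro rfl
    apply hc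
    have : -c = 0 := by rw [← hl]; simp
    simpa using this
  have hlr : l * l⁻¹ = 1 := mul_inv_cancel₀ hl0
  have hrl : l⁻¹ * l = 1 := inv_mul_cancel₀ hl0
  have : Infinite k := IsAlgClosed.instInfinite
  have h := (clS l (0 : k)).conj (Dg l⁻¹) (Dg l) (Dg_mul hrl) (Dg_mul hlr)
  have e : Nd43 c = fun i =>
      Dg l⁻¹ * ![X43 0, l • Y43 0, (0 : Matrix (Fin 7) (Fin 7) k)] i * Dg l := by
    have hc' : c = -l ^ 3 := by rw [hl, neg_neg]
    rw [hc']
    funext i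
    fin_cases i
    · exact (conjX l l⁻¹).symm
    · exact (conjY hlr).symm
    · change (0 : Matrix (Fin 7) (Fin 7) k) = Dg l⁻¹ * 0 * Dg l
      rw [Matrix.mul_zero, Matrix.zero_mul]
  rw [e]
  exact h

end Pool.Agent.Lib.D7
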