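import Pool.Agent.Lib.D7.Api
import Pool.Agent.Lib.D7.N43

/-!
# MP_5dcbc3_ag: type (5, 2)

There is no maximal bad triple whose first matrix is the Jordan matrix of type `(5, 2)`.
-/

namespace Pool.Agent.Lib.D7

open Matrix Pool.Agent.Lib.Q5dc

variable {k : Type*} [Field k]

namespace T52Aux

/-! ### products of the explicit matrices -/

theorem J_mul_B (b0 b1 c0 c1 q1 : k) : J52 k * B52 b0 b1 c0 c1 q1 = B52 0 b0 0 c0 0 := by
  ext i j
  fin_cases i <;> fin_cases j <;> simp [J52, B52, Matrix.mul_apply, Fin.sum_univ_succ]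

theorem B_mul_J (b0 b1 c0 c1 q1 : k) : B52 b0 b1 c0 c1 q1 * J52 k = B52 0 b0 0 c0 0 := by
  ext i j
  fin_cases i <;> fin_cases j <;> simp [J52, B52, Matrix.mul_apply, Fin.sum_univ_succ]

theorem B_mul_B (b0 b1 c0 c1 q1 b0' b1' c0' c1' q1' : k) :
    B52 b0 b1 c0 c1 q1 * B52 b0' b1' c0' c1' q1' =
      !![0, 0, 0, 0, 0, 0, 0;
         0, 0, 0, 0, 0, 0, 0;
         0, 0, 0, 0, 0, 0, 0;
         b0 * c0', 0, 0, 0, 0, 0, 0;
         b1 * c0' + b0 * c1', b0 * c0', 0, 0, 0, b0 * q1', 0;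
         0, 0, 0, 0, 0, 0, 0;
         q1 * c0', 0, 0, 0, 0, 0, 0] := by
  ext i j
  fin_cases i <;> fin_cases j <;> simp [B52, Matrix.mul_apply, Fin.sum_univ_succ]

theorem B_zero : B52 (0 : k) 0 0 0 0 = 0 := by
  ext i j
  fin_cases i <;> fin_cases j <;> simp [B52]

theorem B_add (s b0 b1 c0 c1 q1 b0' b1' c0' c1' q1' : k) :
    B52 b0 b1 c0 c1 q1 + s • B52 b0' b1' c0' c1' q1' =
      B52 (b0 + s * b0') (b1 + s * b1') (c0 + s * c0') (c1 + s * c1') (q1 + s * q1') := by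
  ext i j
  fin_cases i <;> fin_cases j <;> simp [B52]

theorem J_nil : IsNilpotent (J52 k) := by
  refine isNilpotent_of_weight _ ![0, 1, 2, 3, 4, 0, 1] ?_
  intro i j
  fin_cases i <;> fin_cases j <;> simp [J52]

theorem B_nil (b0 b1 c0 c1 q1 : k) : IsNilpotent (B52 b0 b1 c0 c1 q1) := by
  refine isNilpotent_of_weight _ ![0, 1, 0, 4, 5, 2, 3] ?_
  intro i j
  fin_cases i <;> fin_cases j <;> simp [B52]

theorem cn3 {b0 b1 c0 c1 q1 b0' b1' c0' c1' q1' : k} (h1 : b0 * c0' = b0' * c0)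
    (h2 : b1 * c0' + b0 * c1' = b1' * c0 + b0' * c1) (h3 : b0 * q1' = b0' * q1)
    (h4 : q1 * c0' = q1' * c0) :
    CN ![J52 k, B52 b0 b1 c0 c1 q1, B52 b0' b1' c0' c1' q1'] := by
  have hBB : B52 b0 b1 c0 c1 q1 * B52 b0' b1' c0' c1' q1' =
      B52 b0' b1' c0' c1' q1' * B52 b0 b1 c0 c1 q1 := by
    rw [B_mul_B, B_mul_B, h1, h2, h3, h4]
  constructor
  · intro i j
    fin_cases i <;> fin_cases j
    · rfl
    · exact (J_mul_B _ _ _ _ _).trans (B_mul_J _ _ _ _ _).symm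
    · exact (J_mul_B _ _ _ _ _).trans (B_mul_J _ _ _ _ _).symm
    · exact (B_mul_J _ _ _ _ _).trans (J_mul_B _ _ _ _ _).symm
    · rfl
    · exact hBB
    · exact (B_mul_J _ _ _ _ _).trans (J_mul_B _ _ _ _ _).symm
    · exact hBB.symm
    · rfl
  · intro i
    fin_cases i
    · exact J_nil
    · exact B_nil _ _ _ _ _
    · exact B_nil _ _ _ _ _

theorem cn2 (b0 b1 c0 c1 q1 : k) : CN ![J52 k, B52 b0 b1 c0 c1 q1, 0] := by
  have h := cn3 (k := k) (b0 := b0) (b1 := b1) (c0 := c0) (c1 := c1) (q1 := q1) (b0' := 0)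
    (b1' := 0) (c0' := 0) (c1' := 0) (q1' := 0) (by ring) (by ring) (by ring) (by ring)
  rwa [B_zero] at h

/-- the relations between the parameters of commuting matrices -/
theorem rels {b0 b1 c0 c1 q1 b0' b1' c0' c1' q1' : k}
    (h : B52 b0 b1 c0 c1 q1 * B52 b0' b1' c0' c1' q1' =
      B52 b0' b1' c0' c1' q1' * B52 b0 b1 c0 c1 q1) :
    b0 * c0' = b0' * c0 ∧ b1 * c0' + b0 * c1' = b1' * c0 + b0' * c1 ∧ b0 * q1' = b0' * q1 ∧
      q1 * c0' = q1' * c0 := by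
  rw [B_mul_B, B_mul_B] at h
  refine ⟨?_, ?_, ?_, ?_⟩
  · have := congrFun (congrFun h 3) 0
    simpa using this
  · have := congrFun (congrFun h 4) 0
    simpa using this
  · have := congrFun (congrFun h 4) 5
    simpa using this
  · have := congrFun (congrFun h 6) 0
    simpa using this

/-! ### the shape of the matrices commuting with `J52` -/

theorem J2 : J52 k * J52 k =
    !![0, 0, 0, 0, 0, 0, 0;
       0, 0, 0, 0, 0, 0, 0;
       1, 0, 0, 0, 0, 0, 0;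
       0, 1, 0, 0, 0, 0, 0;
       0, 0, 1, 0, 0, 0, 0;
       0, 0, 0, 0, 0, 0, 0;
       0, 0, 0, 0, 0, 0, 0] := by
  ext i j
  fin_cases i <;> fin_cases j <;> simp [J52, Matrix.mul_apply, Fin.sum_univ_succ]

theorem J3 : J52 k * (J52 k * J52 k) =
    !![0, 0, 0, 0, 0, 0, 0;
       0, 0, 0, 0, 0, 0, 0;
       0, 0, 0, 0, 0, 0, 0;
       1, 0, 0, 0, 0, 0, 0;
       0, 1, 0, 0, 0, 0, 0;
       0, 0, 0, 0, 0, 0, 0;
       0, 0, 0, 0, 0, 0, 0] := by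
  rw [J2]
  ext i j
  fin_cases i <;> fin_cases j <;> simp [J52, Matrix.mul_apply, Fin.sum_univ_succ]

theorem J4 : J52 k * (J52 k * (J52 k * J52 k)) =
    !![0, 0, 0, 0, 0, 0, 0;
       0, 0, 0, 0, 0, 0, 0;
       0, 0, 0, 0, 0, 0, 0;
       0, 0, 0, 0, 0, 0, 0;
       1, 0, 0, 0, 0, 0, 0;
       0, 0, 0, 0, 0, 0, 0;
       0, 0, 0, 0, 0, 0, 0] := by
  rw [J3]
  ext i j
  fin_cases i <;> fin_cases j <;> simp [J52, Matrix.mul_apply, Fin.sum_univ_succ]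

/-- eigenvalues of nilpotent matrices vanish -/
theorem eig {B : Matrix (Fin 7) (Fin 7) k} (hB : IsNilpotent B) {y : Fin 7 → k} {c : k}
    (h : B *ᵥ y = c • y) (i : Fin 7) : c = 0 ∨ y i = 0 := by
  obtain ⟨N, hN⟩ := hB
  have h1 : ∀ m : ℕ, (B ^ m) *ᵥ y = c ^ m • y := by
    intro m
    induction m with
    | zero => simp
    | succ m ih =>
      rw [pow_succ, ← Matrix.mulVec_mulVec, h, Matrix.mulVec_smul, ih, smul_smul, pow_succ, mul_comm]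
  have h2 := congrFun (h1 N) i
  rw [hN, Matrix.zero_mulVec, Pi.zero_apply, Pi.smul_apply, smul_eq_mul] at h2
  rcases mul_eq_zero.1 h2.symm with h3 | h3
  · left
    by_contra hc
    exact pow_ne_zero N hc h3
  · right
    exact h3

/-- the polynomials without constant term in `J52` -/
def PJ (p1 p2 p3 p4 : k) : Matrix (Fin 7) (Fin 7) k :=
  !![0, 0, 0, 0, 0, 0, 0;
     p1, 0, 0, 0, 0, 0, 0;
     p2, p1, 0, 0, 0, 0, 0;
     p3, p2, p1, 0, 0, 0, 0;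
     p4, p3, p2, p1, 0, 0, 0;
     0, 0, 0, 0, 0, 0, 0;
     0, 0, 0, 0, 0, p1, 0]

theorem PJ_eq (p1 p2 p3 p4 : k) : PJ p1 p2 p3 p4 = p1 • J52 k + p2 • (J52 k * J52 k) +
    p3 • (J52 k * (J52 k * J52 k)) + p4 • (J52 k * (J52 k * (J52 k * J52 k))) := by
  rw [J4, J3, J2]
  ext i j
  fin_cases i <;> fin_cases j <;> simp [J52, PJ]

theorem shape {B : Matrix (Fin 7) (Fin 7) k} (hc : J52 k * B = B * J52 k) (hB : IsNilpotent B) :
    ∃ p1 p2 p3 p4 b0 b1 c0 c1 q1 : k, B = PJ p1 p2 p3 p4 + B52 b0 b1 c0 c1 q1 := by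
  have e : ∀ i j, (J52 k * B) i j = (B * J52 k) i j := fun i j => by rw [hc]
  -- columns
  have c1 : ∀ i, B i 1 = (J52 k * B) i 0 := fun i => by
    rw [e]; simp [J52, Matrix.mul_apply, Fin.sum_univ_succ]
  have c2 : ∀ i, B i 2 = (J52 k * B) i 1 := fun i => by
    rw [e]; simp [J52, Matrix.mul_apply, Fin.sum_univ_succ]
  have c3 : ∀ i, B i 3 = (J52 k * B) i 2 := fun i => by
    rw [e]; simp [J52, Matrix.mul_apply, Fin.sum_univ_succ]
  have c4 : ∀ i, B i 4 = (J52 k * B) i 3 := fun i => by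
    rw [e]; simp [J52, Matrix.mul_apply, Fin.sum_univ_succ]
  have c6 : ∀ i, B i 6 = (J52 k * B) i 5 := fun i => by
    rw [e]; simp [J52, Matrix.mul_apply, Fin.sum_univ_succ]
  have z6 : ∀ i, (J52 k * B) i 6 = 0 := fun i => by
    rw [e]; simp [J52, Matrix.mul_apply, Fin.sum_univ_succ]
  have r : ∀ j, (J52 k * B) 0 j = 0 ∧ (J52 k * B) 1 j = B 0 j ∧ (J52 k * B) 2 j = B 1 j ∧
      (J52 k * B) 3 j = B 2 j ∧ (J52 k * B) 4 j = B 3 j ∧ (J52 k * B) 5 j = 0 ∧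
      (J52 k * B) 6 j = B 5 j := fun j => by
    refine ⟨?_, ?_, ?_, ?_, ?_, ?_, ?_⟩ <;> simp [J52, Matrix.mul_apply, Fin.sum_univ_succ]
  -- column 1
  have a01 : B 0 1 = 0 := by rw [c1, (r 0).1]
  have a11 : B 1 1 = B 0 0 := by rw [c1, (r 0).2.1]
  have a21 : B 2 1 = B 1 0 := by rw [c1, (r 0).2.2.1]
  have a31 : B 3 1 = B 2 0 := by rw [c1, (r 0).2.2.2.1]
  have a41 : B 4 1 = B 3 0 := by rw [c1, (r 0).2.2.2.2.1]
  have a51 : B 5 1 = 0 := by rw [c1, (r 0).2.2.2.2.2.1]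
  have a61 : B 6 1 = B 5 0 := by rw [c1, (r 0).2.2.2.2.2.2]
  -- column 2
  have a02 : B 0 2 = 0 := by rw [c2, (r 1).1]
  have a12 : B 1 2 = 0 := by rw [c2, (r 1).2.1, a01]
  have a22 : B 2 2 = B 0 0 := by rw [c2, (r 1).2.2.1, a11]
  have a32 : B 3 2 = B 1 0 := by rw [c2, (r 1).2.2.2.1, a21]
  have a42 : B 4 2 = B 2 0 := by rw [c2, (r 1).2.2.2.2.1, a31]
  have a52 : B 5 2 = 0 := by rw [c2, (r 1).2.2.2.2.2.1]
  have a62 : B 6 2 = 0 := by rw [c2, (r 1).2.2.2.2.2.2, a51]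
  -- column 3
  have a03 : B 0 3 = 0 := by rw [c3, (r 2).1]
  have a13 : B 1 3 = 0 := by rw [c3, (r 2).2.1, a02]
  have a23 : B 2 3 = 0 := by rw [c3, (r 2).2.2.1, a12]
  have a33 : B 3 3 = B 0 0 := by rw [c3, (r 2).2.2.2.1, a22]
  have a43 : B 4 3 = B 1 0 := by rw [c3, (r 2).2.2.2.2.1, a32]
  have a53 : B 5 3 = 0 := by rw [c3, (r 2).2.2.2.2.2.1]
  have a63 : B 6 3 = 0 := by rw [c3, (r 2).2.2.2.2.2.2, a52]
  -- column 4
  have a04 : B 0 4 = 0 := by rw [c4, (r 3).1]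
  have a14 : B 1 4 = 0 := by rw [c4, (r 3).2.1, a03]
  have a24 : B 2 4 = 0 := by rw [c4, (r 3).2.2.1, a13]
  have a34 : B 3 4 = 0 := by rw [c4, (r 3).2.2.2.1, a23]
  have a44 : B 4 4 = B 0 0 := by rw [c4, (r 3).2.2.2.2.1, a33]
  have a54 : B 5 4 = 0 := by rw [c4, (r 3).2.2.2.2.2.1]
  have a64 : B 6 4 = 0 := by rw [c4, (r 3).2.2.2.2.2.2, a53]
  -- column 6
  have a06 : B 0 6 = 0 := by rw [c6, (r 5).1]
  have a16 : B 1 6 = B 0 5 := by rw [c6, (r 5).2.1]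
  have a26 : B 2 6 = B 1 5 := by rw [c6, (r 5).2.2.1]
  have a36 : B 3 6 = B 2 5 := by rw [c6, (r 5).2.2.2.1]
  have a46 : B 4 6 = B 3 5 := by rw [c6, (r 5).2.2.2.2.1]
  have a56 : B 5 6 = 0 := by rw [c6, (r 5).2.2.2.2.2.1]
  have a66 : B 6 6 = B 5 5 := by rw [c6, (r 5).2.2.2.2.2.2]
  have a05 : B 0 5 = 0 := by rw [← a16, ← (r 6).2.2.1, z6]
  have a15 : B 1 5 = 0 := by rw [← a26, ← (r 6).2.2.2.1, z6]
  have a25 : B 2 5 = 0 := by rw [← a36, ← (r 6).2.2.2.2.1, z6]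
  -- the diagonal
  have a00 : B 0 0 = 0 := by
    have h1 : B *ᵥ (Pi.single 4 1) = B 0 0 • (Pi.single 4 1 : Fin 7 → k) := by
      ext i
      fin_cases i <;> simp [a04, a14, a24, a34, a44, a54, a64]
    rcases eig hB h1 4 with h2 | h2
    · exact h2
    · simp at h2
  have a55 : B 5 5 = 0 := by
    have h1 : B *ᵥ ![0, 0, 0, 0, B 3 5, 0, B 5 5] =
        B 5 5 • (![0, 0, 0, 0, B 3 5, 0, B 5 5] : Fin 7 → k) := by
      ext i
      fin_cases i <;> simp [Matrix.mulVec, dotProduct, Fin.sum_univ_succ, a04, a14, a24, a34, a44,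
        a54, a64, a00, a06, a16, a26, a36, a46, a56, a66, a05, a15, a25]
      ring
    rcases eig hB h1 6 with h2 | h2
    · exact h2
    · simpa using h2
  refine ⟨B 1 0, B 2 0, B 3 0, B 4 0, B 3 5, B 4 5, B 5 0, B 6 0, B 6 5 - B 1 0, ?_⟩
  ext i j
  fin_cases i <;> fin_cases j <;> simp [PJ, B52, a00, a01, a11, a21, a31, a41, a51, a61, a02, a12,
    a22, a32, a42, a52, a62, a03, a13, a23, a33, a43, a53, a63, a04, a14, a24, a34, a44, a54, a64,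
    a05, a15, a25, a55, a06, a16, a26, a36, a46, a56, a66]

/-! ### elements of `adj` -/

theorem PJ_mem {T : Fin 3 → Matrix (Fin 7) (Fin 7) k} (h0 : J52 k ∈ adj T) (p1 p2 p3 p4 : k) :
    PJ p1 p2 p3 p4 ∈ adj T := by
  rw [PJ_eq]
  have h2 := mul_mem h0 h0
  have h3 := mul_mem h0 h2
  have h4 := mul_mem h0 h3
  have hs : ∀ (c : k) {M : Matrix (Fin 7) (Fin 7) k}, M ∈ adj T → c • M ∈ adj T :=
    fun c M hM => SMulMemClass.smul_mem c hM
  exact add_mem (add_mem (add_mem (hs _ h0) (hs _ h2)) (hs _ h3)) (hs _ h4)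

theorem smul_mem' {T : Fin 3 → Matrix (Fin 7) (Fin 7) k} (c : k) {M : Matrix (Fin 7) (Fin 7) k}
    (hM : M ∈ adj T) : c • M ∈ adj T := SMulMemClass.smul_mem c hM

/-! ### the planar case -/

/-- `q A - B - g` -/
def XX (q g2 g3 : k) : Matrix (Fin 7) (Fin 7) k :=
  !![0, 0, 0, 0, 0, 0, 0;
     q, 0, 0, 0, 0, 0, 0;
     -g2, q, 0, 0, 0, 0, 0;
     -g3, -g2, q, 0, 0, q * g2, 0;
     0, -g3, -g2, q, 0, q * g3 - g2 ^ 2, q * g2;
     -1, 0, 0, 0, 0, 0, 0;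
     0, -1, 0, 0, 0, 0, 0]

/-- `B - g` -/
def YY (q g2 g3 : k) : Matrix (Fin 7) (Fin 7) k :=
  !![0, 0, 0, 0, 0, 0, 0;
     0, 0, 0, 0, 0, 0, 0;
     -g2, 0, 0, 0, 0, 0, 0;
     -g3, -g2, 0, 0, 0, -q * g2, 0;
     0, -g3, -g2, 0, 0, g2 ^ 2 - q * g3, -q * g2;
     1, 0, 0, 0, 0, 0, 0;
     0, 1, 0, 0, 0, q, 0]

/-- the new basis -/
def PP (q g2 g3 : k) : Matrix (Fin 7) (Fin 7) k :=
  !![1, 0, 0, 0, 0, 0, 0;
     0, q, 0, 0, 0, 0, 0;
     0, -g2, q ^ 2, 0, 0, -g2, 0;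
     0, -g3, -3 * q * g2, q ^ 3, 0, -g3, -q * g2;
     0, 0, 2 * g2 ^ 2 - 3 * q * g3, -5 * q ^ 2 * g2, q ^ 4, 0, 2 * g2 ^ 2 - q * g3;
     0, -1, 0, 0, 0, 1, 0;
     0, 0, -q, 0, 0, 0, q]

theorem XX_PP (q g2 g3 c : k) : XX q g2 g3 * PP q g2 g3 = PP q g2 g3 * Nd43 c 0 := by
  ext i j
  fin_cases i <;> fin_cases j <;> simp [XX, PP, Nd43, Matrix.mul_apply, Fin.sum_univ_succ] <;> ring

theorem YY_PP {q g2 g3 : k} (hq : q ≠ 0) :
    YY q g2 g3 * PP q g2 g3 = PP q g2 g3 * Nd43 (-g2 / q ^ 2) 1 := by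
  ext i j
  fin_cases i <;> fin_cases j <;>
    simp [YY, PP, Nd43, Matrix.mul_apply, Fin.sum_univ_succ] <;> first | ring1 | field_simp

theorem det_PP {q g2 g3 : k} (hq : q ≠ 0) : IsUnit (PP q g2 g3).det := by
  rw [isUnit_iff_ne_zero]
  intro hd
  obtain ⟨v, hv, h⟩ := Matrix.exists_mulVec_eq_zero_iff.2 hd
  have e : ∀ i, (PP q g2 g3 *ᵥ v) i = 0 := fun i => by rw [h]; rfl
  have e0 := e 0
  have e1 := e 1
  have e2 := e 2
  have e3 := e 3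
  have e4 := e 4
  have e5 := e 5
  have e6 := e 6
  simp [PP, Matrix.mulVec, dotProduct, Fin.sum_univ_succ] at e0 e1 e2 e3 e4 e5 e6
  have z1 : v 1 = 0 := e1.resolve_left hq
  have z5 : v 5 = 0 := by
    rw [z1] at e5
    simpa using e5
  have z2 : v 2 = 0 := by
    rw [z1, z5] at e2
    simpa [hq] using e2
  have z6 : v 6 = 0 := by
    rw [z2] at e6
    simpa [hq] using e6
  have z3 : v 3 = 0 := by
    rw [z1, z5, z2, z6] at e3
    simpa [hq] using e3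
  have z4 : v 4 = 0 := by
    rw [z2, z3, z6] at e4
    simpa [hq] using e4
  apply hv
  funext i
  fin_cases i
  · exact e0
  · exact z1
  · exact z2
  · exact z3
  · exact z4
  · exact z5
  · exact z6

theorem XX_eq (q g2 g3 : k) : XX q g2 g3 = q • J52 k - B52 (-q * g2) (g2 ^ 2 - q * g3) 1 0 q -
    g2 • (J52 k * J52 k) - g3 • (J52 k * (J52 k * J52 k)) := by
  rw [J3, J2]
  ext i j
  fin_cases i <;> fin_cases j <;> simp [XX, J52, B52]

theorem YY_eq (q g2 g3 : k) : YY q g2 g3 = B52 (-q * g2) (g2 ^ 2 - q * g3) 1 0 q -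
    g2 • (J52 k * J52 k) - g3 • (J52 k * (J52 k * J52 k)) := by
  rw [J3, J2]
  ext i j
  fin_cases i <;> fin_cases j <;> simp [YY, B52]

section

variable [IsAlgClosed k] [CharZero k]

theorem planar_norm {ρ : ℕ → ℕ} {q g2 g3 : k} (hq : q ≠ 0) (hg : g2 ≠ 0)
    (hT : MaxR ρ ![J52 k, B52 (-q * g2) (g2 ^ 2 - q * g3) 1 0 q, 0]) : False := by
  set B := B52 (-q * g2) (g2 ^ 2 - q * g3) 1 0 q with hB
  have m0 : J52 k ∈ adj ![J52 k, B, 0] := mem_adj ![J52 k, B, 0] 0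
  have m1 : B ∈ adj ![J52 k, B, 0] := mem_adj ![J52 k, B, 0] 1
  have m00 := mul_mem m0 m0
  have m000 := mul_mem m0 m00
  have h' : ∀ i, (![XX q g2 g3, YY q g2 g3, 0] : Fin 3 → Matrix (Fin 7) (Fin 7) k) i ∈
      adj ![J52 k, B, 0] := by
    intro i
    fin_cases i
    · show XX q g2 g3 ∈ _
      rw [XX_eq]
      exact sub_mem (sub_mem (sub_mem (smul_mem' _ m0) m1) (smul_mem' _ m00)) (smul_mem' _ m000)
    · show YY q g2 g3 ∈ _
      rw [YY_eq]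
      exact sub_mem (sub_mem m1 (smul_mem' _ m00)) (smul_mem' _ m000)
    · exact zero_mem _
  have p2 : J52 k * J52 k ∈ Submodule.span k {M : Matrix (Fin 7) (Fin 7) k |
      ∃ P ∈ adj ![J52 k, B, 0], ∃ Q ∈ adj ![J52 k, B, 0], M = P * Q} :=
    Submodule.subset_span ⟨_, m0, _, m0, rfl⟩
  have p3 : J52 k * (J52 k * J52 k) ∈ Submodule.span k {M : Matrix (Fin 7) (Fin 7) k |
      ∃ P ∈ adj ![J52 k, B, 0], ∃ Q ∈ adj ![J52 k, B, 0], M = P * Q} :=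
    Submodule.subset_span ⟨_, m0, _, m00, rfl⟩
  have m0' : XX q g2 g3 ∈ adj ![XX q g2 g3, YY q g2 g3, 0] :=
    mem_adj ![XX q g2 g3, YY q g2 g3, 0] 0
  have m1' : YY q g2 g3 ∈ adj ![XX q g2 g3, YY q g2 g3, 0] :=
    mem_adj ![XX q g2 g3, YY q g2 g3, 0] 1
  have h : ∀ i, (![J52 k, B, 0] : Fin 3 → Matrix (Fin 7) (Fin 7) k) i ∈
      adj ![XX q g2 g3, YY q g2 g3, 0] := by
    refine adj_nak hT.cn h' ?_
    intro i
    fin_cases i
    · refine ⟨q⁻¹ • (XX q g2 g3 + YY q g2 g3), smul_mem' _ (add_mem m0' m1'), ?_⟩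
      have e : J52 k - q⁻¹ • (XX q g2 g3 + YY q g2 g3) =
          (2 * q⁻¹ * g2) • (J52 k * J52 k) + (2 * q⁻¹ * g3) • (J52 k * (J52 k * J52 k)) := by
        rw [XX_eq, YY_eq]
        have e1 : J52 k = q⁻¹ • (q • J52 k) := by rw [smul_smul, inv_mul_cancel₀ hq, one_smul]
        nth_rewrite 1 [e1]
        module
      show J52 k - q⁻¹ • (XX q g2 g3 + YY q g2 g3) ∈ _
      rw [e]
      exact add_mem (Submodule.smul_mem _ _ p2) (Submodule.smul_mem _ _ p3)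
    · refine ⟨YY q g2 g3, m1', ?_⟩
      have e : B - YY q g2 g3 = g2 • (J52 k * J52 k) + g3 • (J52 k * (J52 k * J52 k)) := by
        rw [YY_eq]
        module
      show B - YY q g2 g3 ∈ _
      rw [e]
      exact add_mem (Submodule.smul_mem _ _ p2) (Submodule.smul_mem _ _ p3)
    · refine ⟨0, zero_mem _, ?_⟩
      show (0 : Matrix (Fin 7) (Fin 7) k) - 0 ∈ _
      rw [sub_zero]
      exact zero_mem _
  have hT2 := hT.change (hT.cn.of_adj h') h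
  have hP := det_PP (g2 := g2) (g3 := g3) hq
  have hT3 := hT2.conj (PP q g2 g3)⁻¹ (PP q g2 g3) (Matrix.nonsing_inv_mul _ hP)
    (Matrix.mul_nonsing_inv _ hP)
  have hN : (fun i => (PP q g2 g3)⁻¹ *
      (![XX q g2 g3, YY q g2 g3, 0] : Fin 3 → Matrix (Fin 7) (Fin 7) k) i * PP q g2 g3) =
      Nd43 (-g2 / q ^ 2) := by
    funext i
    fin_cases i
    · show (PP q g2 g3)⁻¹ * XX q g2 g3 * PP q g2 g3 = Nd43 (-g2 / q ^ 2) 0
      rw [mul_assoc, XX_PP _ _ _ (-g2 / q ^ 2), ← mul_assoc, Matrix.nonsing_inv_mul _ hP, one_mul]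
    · show (PP q g2 g3)⁻¹ * YY q g2 g3 * PP q g2 g3 = Nd43 (-g2 / q ^ 2) 1
      rw [mul_assoc, YY_PP hq, ← mul_assoc, Matrix.nonsing_inv_mul _ hP, one_mul]
    · show (PP q g2 g3)⁻¹ * 0 * PP q g2 g3 = Nd43 (-g2 / q ^ 2) 2
      rw [mul_zero, zero_mul]
      rfl
  rw [hN] at hT3
  exact hT3.ncl (cl_node43 _ (div_ne_zero (neg_ne_zero.2 hg) (pow_ne_zero 2 hq)))

/-- the change of basis of the second block -/
def DD (c0 c1 : k) : Matrix (Fin 7) (Fin 7) k :=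
  !![1, 0, 0, 0, 0, 0, 0;
     0, 1, 0, 0, 0, 0, 0;
     0, 0, 1, 0, 0, 0, 0;
     0, 0, 0, 1, 0, 0, 0;
     0, 0, 0, 0, 1, 0, 0;
     0, 0, 0, 0, 0, c0, 0;
     0, 0, 0, 0, 0, c1, c0]

/-- its inverse -/
def EE (c0 c1 : k) : Matrix (Fin 7) (Fin 7) k :=
  !![1, 0, 0, 0, 0, 0, 0;
     0, 1, 0, 0, 0, 0, 0;
     0, 0, 1, 0, 0, 0, 0;
     0, 0, 0, 1, 0, 0, 0;
     0, 0, 0, 0, 1, 0, 0;
     0, 0, 0, 0, 0, c0⁻¹, 0;
     0, 0, 0, 0, 0, -c1 * c0⁻¹ * c0⁻¹, c0⁻¹]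

omit [IsAlgClosed k] [CharZero k] in
theorem DD_EE {c0 c1 : k} (h : c0 ≠ 0) : DD c0 c1 * EE c0 c1 = 1 := by
  ext i j
  fin_cases i <;> fin_cases j <;> simp [DD, EE, Matrix.mul_apply, Fin.sum_univ_succ, h]
  field_simp
  ring

omit [IsAlgClosed k] [CharZero k] in
theorem EE_DD {c0 c1 : k} (h : c0 ≠ 0) : EE c0 c1 * DD c0 c1 = 1 := by
  ext i j
  fin_cases i <;> fin_cases j <;> simp [DD, EE, Matrix.mul_apply, Fin.sum_univ_succ, h]
  field_simp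
  ring

omit [IsAlgClosed k] [CharZero k] in
theorem J_DD (c0 c1 : k) : J52 k * DD c0 c1 = DD c0 c1 * J52 k := by
  ext i j
  fin_cases i <;> fin_cases j <;> simp [DD, J52, Matrix.mul_apply, Fin.sum_univ_succ]

omit [IsAlgClosed k] [CharZero k] in
theorem B_DD (b0 b1 c0 c1 q1 : k) : B52 b0 b1 c0 c1 q1 * DD c0 c1 =
    DD c0 c1 * B52 (b0 * c0) (b1 * c0 + b0 * c1) 1 0 q1 := by
  ext i j
  fin_cases i <;> fin_cases j <;> simp [DD, B52, Matrix.mul_apply, Fin.sum_univ_succ]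
  ring

theorem planar_gen {ρ : ℕ → ℕ} {b0 b1 c0 c1 q1 : k} (hb : b0 ≠ 0) (hc : c0 ≠ 0) (hq : q1 ≠ 0)
    (hT : MaxR ρ ![J52 k, B52 b0 b1 c0 c1 q1, 0]) : False := by
  have hT2 := hT.conj (EE c0 c1) (DD c0 c1) (EE_DD hc) (DD_EE hc)
  set g2 := -(b0 * c0) / q1 with hg2
  set g3 := (g2 ^ 2 - (b1 * c0 + b0 * c1)) / q1 with hg3
  have e2 : -q1 * g2 = b0 * c0 := by
    rw [hg2]
    field_simp
  have e3 : g2 ^ 2 - q1 * g3 = b1 * c0 + b0 * c1 := by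
    rw [hg3]
    field_simp
    ring
  have hg : g2 ≠ 0 := div_ne_zero (neg_ne_zero.2 (mul_ne_zero hb hc)) hq
  refine planar_norm (ρ := ρ) (g3 := g3) hq hg ?_
  rw [e2, e3]
  convert hT2 using 1
  funext i
  fin_cases i
  · show J52 k = EE c0 c1 * J52 k * DD c0 c1
    rw [mul_assoc, J_DD, ← mul_assoc, EE_DD hc, one_mul]
  · show B52 (b0 * c0) (b1 * c0 + b0 * c1) 1 0 q1 = EE c0 c1 * B52 b0 b1 c0 c1 q1 * DD c0 c1
    rw [mul_assoc, B_DD, ← mul_assoc, EE_DD hc, one_mul]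
  · show (0 : Matrix (Fin 7) (Fin 7) k) = EE c0 c1 * 0 * DD c0 c1
    rw [mul_zero, zero_mul]

theorem planar {ρ : ℕ → ℕ} {b0 b1 c0 c1 q1 : k}
    (hT : MaxR ρ ![J52 k, B52 b0 b1 c0 c1 q1, 0]) : False := by
  have hfam : ∀ s : k, (![J52 k, B52 b0 b1 c0 c1 q1, 0] + s • ![0, B52 1 0 1 0 1, 0] :
      Fin 3 → Matrix (Fin 7) (Fin 7) k) = ![J52 k, B52 (b0 + s) b1 (c0 + s) c1 (q1 + s), 0] := by
    intro s
    funext i
    fin_cases i
    · show J52 k + s • 0 = J52 k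
      rw [smul_zero, add_zero]
    · show B52 b0 b1 c0 c1 q1 + s • B52 1 0 1 0 1 = B52 (b0 + s) b1 (c0 + s) c1 (q1 + s)
      rw [B_add]
      simp
    · show (0 : Matrix (Fin 7) (Fin 7) k) + s • 0 = 0
      rw [smul_zero, add_zero]
  obtain ⟨E', hE', h⟩ := hT.deform _
    (PolyFam.line ![J52 k, B52 b0 b1 c0 c1 q1, 0] ![0, B52 1 0 1 0 1, 0])
    (by rw [zero_smul, add_zero]) Set.finite_empty (fun s _ => by rw [hfam]; exact cn2 _ _ _ _ _)
  obtain ⟨s, hs⟩ := ((hE'.union (Set.toFinite {-b0, -c0, -q1})).infinite_compl).nonempty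
  rw [Set.mem_compl_iff, Set.mem_union, not_or] at hs
  have h1 := h s hs.1
  rw [hfam] at h1
  simp only [Set.mem_insert_iff, Set.mem_singleton_iff, not_or] at hs
  exact planar_gen (fun h2 => hs.2.1 (eq_neg_of_add_eq_zero_right h2))
    (fun h2 => hs.2.2.1 (eq_neg_of_add_eq_zero_right h2))
    (fun h2 => hs.2.2.2 (eq_neg_of_add_eq_zero_right h2)) h1

/-- the case where one of the two constant coefficients of `B` is not zero -/
theorem case_one {ρ : ℕ → ℕ} {b0 b1 c0 c1 q1 b0' b1' c0' c1' q1' : k}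
    (hT : MaxR ρ ![J52 k, B52 b0 b1 c0 c1 q1, B52 b0' b1' c0' c1' q1'])
    (hne : ¬ (b0 = 0 ∧ c0 = 0)) : False := by
  obtain ⟨h1, h2, h3, h4⟩ := rels (hT.cn.1 1 2)
  obtain ⟨l, hl1, hl2⟩ : ∃ l, b0' = l * b0 ∧ c0' = l * c0 := by
    by_cases hb : b0 = 0
    · have hc : c0 ≠ 0 := fun h => hne ⟨hb, h⟩
      refine ⟨c0' / c0, ?_, by field_simp⟩
      rw [hb, zero_mul] at h1
      rcases mul_eq_zero.1 h1.symm with h5 | h5
      · rw [h5, hb, mul_zero]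
      · exact absurd h5 hc
    · refine ⟨b0' / b0, by field_simp, ?_⟩
      field_simp
      linear_combination h1
  subst hl1 hl2
  obtain ⟨m, hm1, hm2⟩ : ∃ m, b1' = l * b1 + m * b0 ∧ c1' = l * c1 + m * c0 := by
    by_cases hb : b0 = 0
    · have hc : c0 ≠ 0 := fun h => hne ⟨hb, h⟩
      refine ⟨(c1' - l * c1) / c0, ?_, by field_simp; ring⟩
      rw [hb, mul_zero, add_zero]
      rw [hb] at h2
      have h5 : (b1' - l * b1) * c0 = 0 := by linear_combination -h2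
      rcases mul_eq_zero.1 h5 with h6 | h6
      · exact sub_eq_zero.1 h6
      · exact absurd h6 hc
    · refine ⟨(b1' - l * b1) / b0, by field_simp; ring, ?_⟩
      field_simp
      linear_combination h2
  have hq : q1' = l * q1 := by
    by_cases hb : b0 = 0
    · have hc : c0 ≠ 0 := fun h => hne ⟨hb, h⟩
      have h5 : (q1' - l * q1) * c0 = 0 := by linear_combination -h4
      rcases mul_eq_zero.1 h5 with h6 | h6
      · exact sub_eq_zero.1 h6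
      · exact absurd h6 hc
    · have h5 : (q1' - l * q1) * b0 = 0 := by linear_combination h3
      rcases mul_eq_zero.1 h5 with h6 | h6
      · exact sub_eq_zero.1 h6
      · exact absurd h6 hb
  refine planar (hT.change (T' := ![J52 k, B52 b0 b1 c0 c1 q1, 0]) (cn2 _ _ _ _ _) ?_)
  have m0 : J52 k ∈ adj ![J52 k, B52 b0 b1 c0 c1 q1, 0] :=
    mem_adj ![J52 k, B52 b0 b1 c0 c1 q1, 0] 0
  have m1 : B52 b0 b1 c0 c1 q1 ∈ adj ![J52 k, B52 b0 b1 c0 c1 q1, 0] :=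
    mem_adj ![J52 k, B52 b0 b1 c0 c1 q1, 0] 1
  intro i
  fin_cases i
  · exact m0
  · exact m1
  · show B52 (l * b0) b1' (l * c0) c1' q1' ∈ _
    have e : B52 (l * b0) b1' (l * c0) c1' q1' =
        l • B52 b0 b1 c0 c1 q1 + m • (J52 k * B52 b0 b1 c0 c1 q1) := by
      have e1 : l • B52 b0 b1 c0 c1 q1 = B52 (l * b0) (l * b1) (l * c0) (l * c1) (l * q1) := by
        have := B_add l 0 0 0 0 0 b0 b1 c0 c1 q1
        rw [B_zero, zero_add] at this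
        rw [this]
        simp
      rw [J_mul_B, e1, B_add, hm1, hm2, hq]
      simp
    rw [e]
    exact add_mem (smul_mem' _ m1) (smul_mem' _ (mul_mem m0 m1))

omit [IsAlgClosed k] [CharZero k] in
theorem swap {ρ : ℕ → ℕ} {b0 b1 c0 c1 q1 b0' b1' c0' c1' q1' : k}
    (hT : MaxR ρ ![J52 k, B52 b0 b1 c0 c1 q1, B52 b0' b1' c0' c1' q1']) :
    MaxR ρ ![J52 k, B52 b0' b1' c0' c1' q1', B52 b0 b1 c0 c1 q1] := by
  obtain ⟨e1, e2, e3, e4⟩ := rels (hT.cn.1 1 2)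
  refine hT.change (cn3 e1.symm e2.symm e3.symm e4.symm) ?_
  have n0 : J52 k ∈ adj ![J52 k, B52 b0' b1' c0' c1' q1', B52 b0 b1 c0 c1 q1] :=
    mem_adj ![J52 k, B52 b0' b1' c0' c1' q1', B52 b0 b1 c0 c1 q1] 0
  have n1 : B52 b0' b1' c0' c1' q1' ∈
      adj ![J52 k, B52 b0' b1' c0' c1' q1', B52 b0 b1 c0 c1 q1] :=
    mem_adj ![J52 k, B52 b0' b1' c0' c1' q1', B52 b0 b1 c0 c1 q1] 1
  have n2 : B52 b0 b1 c0 c1 q1 ∈
      adj ![J52 k, B52 b0' b1' c0' c1' q1', B52 b0 b1 c0 c1 q1] :=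
    mem_adj ![J52 k, B52 b0' b1' c0' c1' q1', B52 b0 b1 c0 c1 q1] 2
  intro i
  fin_cases i
  · show J52 k ∈ _
    exact n0
  · show B52 b0 b1 c0 c1 q1 ∈ _
    exact n2
  · show B52 b0' b1' c0' c1' q1' ∈ _
    exact n1

/-- all four constant coefficients vanish, `C` has no `q1` -/
theorem case_two {ρ : ℕ → ℕ} {b1 c1 q1 b1' c1' : k}
    (hT : MaxR ρ ![J52 k, B52 0 b1 0 c1 q1, B52 0 b1' 0 c1' 0]) : False := by
  have hfam : ∀ s : k, (![J52 k, B52 0 b1 0 c1 q1, B52 0 b1' 0 c1' 0] +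
      s • ![0, B52 b1' 0 c1' 0 0, 0] : Fin 3 → Matrix (Fin 7) (Fin 7) k) =
      ![J52 k, B52 (s * b1') b1 (s * c1') c1 q1, B52 0 b1' 0 c1' 0] := by
    intro s
    funext i
    fin_cases i
    · show J52 k + s • 0 = J52 k
      rw [smul_zero, add_zero]
    · show B52 0 b1 0 c1 q1 + s • B52 b1' 0 c1' 0 0 = B52 (s * b1') b1 (s * c1') c1 q1
      rw [B_add]
      simp
    · show B52 0 b1' 0 c1' 0 + s • (0 : Matrix (Fin 7) (Fin 7) k) = B52 0 b1' 0 c1' 0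
      rw [smul_zero, add_zero]
  obtain ⟨E', hE', h⟩ := hT.deform _
    (PolyFam.line ![J52 k, B52 0 b1 0 c1 q1, B52 0 b1' 0 c1' 0] ![0, B52 b1' 0 c1' 0 0, 0])
    (by rw [zero_smul, add_zero]) Set.finite_empty (fun s _ => by
      rw [hfam]
      exact cn3 (by ring) (by ring) (by ring) (by ring))
  obtain ⟨s, hs⟩ := ((hE'.union (Set.toFinite {(0 : k)})).infinite_compl).nonempty
  rw [Set.mem_compl_iff, Set.mem_union, not_or] at hs
  have h1 := h s hs.1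
  rw [hfam] at h1
  have hs0 : s ≠ 0 := fun h2 => hs.2 h2
  refine planar (h1.change (T' := ![J52 k, B52 (s * b1') b1 (s * c1') c1 q1, 0])
    (cn2 _ _ _ _ _) ?_)
  have m0 : J52 k ∈ adj ![J52 k, B52 (s * b1') b1 (s * c1') c1 q1, 0] :=
    mem_adj ![J52 k, B52 (s * b1') b1 (s * c1') c1 q1, 0] 0
  have m1 : B52 (s * b1') b1 (s * c1') c1 q1 ∈
      adj ![J52 k, B52 (s * b1') b1 (s * c1') c1 q1, 0] :=
    mem_adj ![J52 k, B52 (s * b1') b1 (s * c1') c1 q1, 0] 1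
  intro i
  fin_cases i
  · exact m0
  · exact m1
  · show B52 0 b1' 0 c1' 0 ∈ _
    have e : B52 0 b1' 0 c1' 0 = s⁻¹ • (J52 k * B52 (s * b1') b1 (s * c1') c1 q1) := by
      have e1 := B_add s⁻¹ 0 0 0 0 0 0 (s * b1') 0 (s * c1') 0
      rw [B_zero, zero_add] at e1
      rw [J_mul_B, e1]
      congr 1 <;> field_simp <;> ring
    rw [e]
    exact smul_mem' _ (mul_mem m0 m1)

theorem case_three {ρ : ℕ → ℕ} {b1 c1 q1 b1' c1' q1' : k}
    (hT : MaxR ρ ![J52 k, B52 0 b1 0 c1 q1, B52 0 b1' 0 c1' q1']) : False := by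
  have hfam : ∀ s : k, (![J52 k, B52 0 b1 0 c1 q1, B52 0 b1' 0 c1' q1'] +
      s • ![0, B52 0 0 0 0 1, 0] : Fin 3 → Matrix (Fin 7) (Fin 7) k) =
      ![J52 k, B52 0 b1 0 c1 (q1 + s), B52 0 b1' 0 c1' q1'] := by
    intro s
    funext i
    fin_cases i
    · show J52 k + s • 0 = J52 k
      rw [smul_zero, add_zero]
    · show B52 0 b1 0 c1 q1 + s • B52 0 0 0 0 1 = B52 0 b1 0 c1 (q1 + s)
      rw [B_add]
      simp
    · show B52 0 b1' 0 c1' q1' + s • (0 : Matrix (Fin 7) (Fin 7) k) = B52 0 b1' 0 c1' q1'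
      rw [smul_zero, add_zero]
  obtain ⟨E', hE', h⟩ := hT.deform _
    (PolyFam.line ![J52 k, B52 0 b1 0 c1 q1, B52 0 b1' 0 c1' q1'] ![0, B52 0 0 0 0 1, 0])
    (by rw [zero_smul, add_zero]) Set.finite_empty (fun s _ => by
      rw [hfam]
      exact cn3 (by ring) (by ring) (by ring) (by ring))
  obtain ⟨s, hs⟩ := ((hE'.union (Set.toFinite {-q1})).infinite_compl).nonempty
  rw [Set.mem_compl_iff, Set.mem_union, not_or] at hs
  have h1 := h s hs.1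
  rw [hfam] at h1
  have hq : q1 + s ≠ 0 := fun h2 => hs.2 (eq_neg_of_add_eq_zero_right h2)
  set q := q1 + s with hqdef
  set t := q1' / q with ht
  refine case_two (h1.change (T' := ![J52 k, B52 0 b1 0 c1 q,
    B52 0 (b1' - t * b1) 0 (c1' - t * c1) 0]) (cn3 (by ring) (by ring) (by ring) (by ring)) ?_)
  have m0 : J52 k ∈ adj ![J52 k, B52 0 b1 0 c1 q, B52 0 (b1' - t * b1) 0 (c1' - t * c1) 0] :=
    mem_adj ![J52 k, B52 0 b1 0 c1 q, B52 0 (b1' - t * b1) 0 (c1' - t * c1) 0] 0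
  have m1 : B52 0 b1 0 c1 q ∈
      adj ![J52 k, B52 0 b1 0 c1 q, B52 0 (b1' - t * b1) 0 (c1' - t * c1) 0] :=
    mem_adj ![J52 k, B52 0 b1 0 c1 q, B52 0 (b1' - t * b1) 0 (c1' - t * c1) 0] 1
  have m2 : B52 0 (b1' - t * b1) 0 (c1' - t * c1) 0 ∈
      adj ![J52 k, B52 0 b1 0 c1 q, B52 0 (b1' - t * b1) 0 (c1' - t * c1) 0] :=
    mem_adj ![J52 k, B52 0 b1 0 c1 q, B52 0 (b1' - t * b1) 0 (c1' - t * c1) 0] 2
  intro i
  fin_cases i
  · exact m0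
  · exact m1
  · show B52 0 b1' 0 c1' q1' ∈ _
    have e : B52 0 b1' 0 c1' q1' =
        B52 0 (b1' - t * b1) 0 (c1' - t * c1) 0 + t • B52 0 b1 0 c1 q := by
      rw [B_add, ht]
      congr 1 <;> field_simp <;> ring
    rw [e]
    exact add_mem m2 (smul_mem' _ m1)

end

end T52Aux

open T52Aux

variable [IsAlgClosed k] [CharZero k]

theorem no_52 {ρ : ℕ → ℕ} {T : Fin 3 → Matrix (Fin 7) (Fin 7) k} (hT : MaxR ρ T)
    (hρ : ∀ i, ρ i = (J52 k ^ i).rank) (h0 : T 0 = J52 k) : False := by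
  obtain ⟨p1, p2, p3, p4, b0, b1, c0, c1, q1, h1⟩ := shape (B := T 1)
    (by rw [← h0]; exact hT.cn.1 0 1) (hT.cn.2 1)
  obtain ⟨r1, r2, r3, r4, b0', b1', c0', c1', q1', h2⟩ := shape (B := T 2)
    (by rw [← h0]; exact hT.cn.1 0 2) (hT.cn.2 2)
  have m0 : J52 k ∈ adj T := h0 ▸ mem_adj T 0
  have h' : ∀ i, (![J52 k, B52 b0 b1 c0 c1 q1, B52 b0' b1' c0' c1' q1'] :
      Fin 3 → Matrix (Fin 7) (Fin 7) k) i ∈ adj T := by
    intro i
    fin_cases i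
    · exact m0
    · show B52 b0 b1 c0 c1 q1 ∈ _
      have e : B52 b0 b1 c0 c1 q1 = T 1 - PJ p1 p2 p3 p4 := by rw [h1]; abel
      rw [e]
      exact sub_mem (mem_adj T 1) (PJ_mem m0 _ _ _ _)
    · show B52 b0' b1' c0' c1' q1' ∈ _
      have e : B52 b0' b1' c0' c1' q1' = T 2 - PJ r1 r2 r3 r4 := by rw [h2]; abel
      rw [e]
      exact sub_mem (mem_adj T 2) (PJ_mem m0 _ _ _ _)
  have hT2 := hT.change (T' := ![J52 k, B52 b0 b1 c0 c1 q1, B52 b0' b1' c0' c1' q1'])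
    (hT.cn.of_adj h') (by
      have n0 : J52 k ∈ adj ![J52 k, B52 b0 b1 c0 c1 q1, B52 b0' b1' c0' c1' q1'] :=
        mem_adj ![J52 k, B52 b0 b1 c0 c1 q1, B52 b0' b1' c0' c1' q1'] 0
      have n1 : B52 b0 b1 c0 c1 q1 ∈
          adj ![J52 k, B52 b0 b1 c0 c1 q1, B52 b0' b1' c0' c1' q1'] :=
        mem_adj ![J52 k, B52 b0 b1 c0 c1 q1, B52 b0' b1' c0' c1' q1'] 1
      have n2 : B52 b0' b1' c0' c1' q1' ∈
          adj ![J52 k, B52 b0 b1 c0 c1 q1, B52 b0' b1' c0' c1' q1'] :=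
        mem_adj ![J52 k, B52 b0 b1 c0 c1 q1, B52 b0' b1' c0' c1' q1'] 2
      intro i
      fin_cases i
      · show T 0 ∈ _
        rw [h0]
        exact n0
      · show T 1 ∈ _
        rw [h1]
        exact add_mem (PJ_mem n0 _ _ _ _) n1
      · show T 2 ∈ _
        rw [h2]
        exact add_mem (PJ_mem n0 _ _ _ _) n2)
  by_cases hne : b0 = 0 ∧ c0 = 0
  · by_cases hne' : b0' = 0 ∧ c0' = 0
    · obtain ⟨rfl, rfl⟩ := hne
      obtain ⟨rfl, rfl⟩ := hne'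
      exact case_three hT2
    · exact case_one (swap hT2) hne'
  · exact case_one hT2 hne

end Pool.Agent.Lib.D7
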