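import Pool.Agent.Lib.D7.Defs
import Pool.Agent.Lib.D7.Fams

/-!
# MP_5dcbc3_ag: the node of type `(5,2)` is a limit of curvilinear triples
-/

namespace Pool.Agent.Lib.D7

open Matrix Pool.Agent.Lib.Q5dc

variable {k : Type*} [Field k]

namespace N52Aux

theorem P_det (s : k) : (P52 s).det = -s ^ 35 := by
  have h : (P52 s).BlockTriangular id := by
    intro i j hij
    fin_cases i <;> fin_cases j <;> first | rfl | (exfalso; revert hij; decide)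
  rw [Matrix.det_of_isUpperTriangular h]
  simp [Fin.prod_univ_succ, P52]
  ring

theorem P_unit {s : k} (hs : s ≠ 0) : IsUnit (P52 s).det := by
  rw [P_det]
  exact (neg_ne_zero.2 (pow_ne_zero _ hs)).isUnit

theorem PX (s : k) : P52 s * X52 s = (s ^ 2 • J7 k) * P52 s := by
  ext i j
  fin_cases i <;> fin_cases j <;>
    simp [P52, X52, J7, Matrix.mul_apply, Fin.sum_univ_succ] <;> ring

theorem PY (s : k) : (1 + J7 k) * (P52 s * Y52 s) = (s ^ 5 • J7 k) * P52 s := by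
  have h : (1 + J7 k) = !![1, 0, 0, 0, 0, 0, 0;
     1, 1, 0, 0, 0, 0, 0;
     0, 1, 1, 0, 0, 0, 0;
     0, 0, 1, 1, 0, 0, 0;
     0, 0, 0, 1, 1, 0, 0;
     0, 0, 0, 0, 1, 1, 0;
     0, 0, 0, 0, 0, 1, 1] := by
    ext i j
    fin_cases i <;> fin_cases j <;> simp [J7]
  rw [h, ← Matrix.mul_assoc]
  have h2 : (!![1, 0, 0, 0, 0, 0, 0;
     1, 1, 0, 0, 0, 0, 0;
     0, 1, 1, 0, 0, 0, 0;
     0, 0, 1, 1, 0, 0, 0;
     0, 0, 0, 1, 1, 0, 0;
     0, 0, 0, 0, 1, 1, 0;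
     0, 0, 0, 0, 0, 1, 1] : Matrix (Fin 7) (Fin 7) k) * P52 s =
     !![1, 0, 0, 0, 0, 0, 0;
     1, s ^ 2, 0, 0, 0, 0, s ^ 5;
     0, s ^ 2, s ^ 4, 0, 0, 0, 0;
     0, 0, s ^ 4, s ^ 6, 0, 0, 0;
     0, 0, 0, s ^ 6, s ^ 8, 0, 0;
     0, 0, 0, 0, s ^ 8, s ^ 10, 0;
     0, 0, 0, 0, 0, s ^ 10, 0] := by
    ext i j
    fin_cases i <;> fin_cases j <;>
      simp [P52, Matrix.mul_apply, Fin.sum_univ_succ]
  rw [h2]
  ext i j
  fin_cases i <;> fin_cases j <;>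
    simp [P52, Y52, J7, Matrix.mul_apply, Fin.sum_univ_succ] <;> ring

theorem J7_pow2 : J7 k ^ 2 = !![0, 0, 0, 0, 0, 0, 0;
     0, 0, 0, 0, 0, 0, 0;
     1, 0, 0, 0, 0, 0, 0;
     0, 1, 0, 0, 0, 0, 0;
     0, 0, 1, 0, 0, 0, 0;
     0, 0, 0, 1, 0, 0, 0;
     0, 0, 0, 0, 1, 0, 0] := by
  rw [pow_two]
  ext i j
  fin_cases i <;> fin_cases j <;> simp [J7, Matrix.mul_apply, Fin.sum_univ_succ]

theorem J7_pow4 : J7 k ^ 4 = !![0, 0, 0, 0, 0, 0, 0;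
     0, 0, 0, 0, 0, 0, 0;
     0, 0, 0, 0, 0, 0, 0;
     0, 0, 0, 0, 0, 0, 0;
     1, 0, 0, 0, 0, 0, 0;
     0, 1, 0, 0, 0, 0, 0;
     0, 0, 1, 0, 0, 0, 0] := by
  have h : J7 k ^ 4 = J7 k ^ 2 * J7 k ^ 2 := by rw [← pow_add]
  rw [h, J7_pow2]
  ext i j
  fin_cases i <;> fin_cases j <;> simp [Matrix.mul_apply, Fin.sum_univ_succ]

theorem J7_pow6 : J7 k ^ 6 = !![0, 0, 0, 0, 0, 0, 0;
     0, 0, 0, 0, 0, 0, 0;
     0, 0, 0, 0, 0, 0, 0;
     0, 0, 0, 0, 0, 0, 0;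
     0, 0, 0, 0, 0, 0, 0;
     0, 0, 0, 0, 0, 0, 0;
     1, 0, 0, 0, 0, 0, 0] := by
  have h : J7 k ^ 6 = J7 k ^ 4 * J7 k ^ 2 := by rw [← pow_add]
  rw [h, J7_pow2, J7_pow4]
  ext i j
  fin_cases i <;> fin_cases j <;> simp [Matrix.mul_apply, Fin.sum_univ_succ]

theorem J7_pow7 : J7 k ^ 7 = 0 := by
  have h : J7 k ^ 7 = J7 k ^ 6 * J7 k := by rw [← pow_succ]
  rw [h, J7_pow6]
  ext i j
  fin_cases i <;> fin_cases j <;> simp [J7, Matrix.mul_apply, Fin.sum_univ_succ]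

theorem J7_pow6_ne : J7 k ^ 6 ≠ 0 := by
  intro h
  have h1 := congrFun (congrFun h 6) 0
  rw [J7_pow6] at h1
  simp at h1

/-- the inverse of `1 + J7` -/
theorem inv_mul : (1 - J7 k + J7 k ^ 2 - J7 k ^ 3 + J7 k ^ 4 - J7 k ^ 5 + J7 k ^ 6) * (1 + J7 k) = 1 := by
  have h : (1 - J7 k + J7 k ^ 2 - J7 k ^ 3 + J7 k ^ 4 - J7 k ^ 5 + J7 k ^ 6) * (1 + J7 k) =
      1 + J7 k ^ 7 := by noncomm_ring
  rw [h, J7_pow7, add_zero]

/-- the polynomial `t / (1 + t)` modulo `t ^ 7` -/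
noncomputable def eta (k : Type*) [Field k] : Polynomial k :=
  Polynomial.X - Polynomial.X ^ 2 + Polynomial.X ^ 3 - Polynomial.X ^ 4 + Polynomial.X ^ 5 -
    Polynomial.X ^ 6

theorem aeval_eta : Polynomial.aeval (J7 k) (eta k) =
    (1 - J7 k + J7 k ^ 2 - J7 k ^ 3 + J7 k ^ 4 - J7 k ^ 5 + J7 k ^ 6) * J7 k := by
  have h : (1 - J7 k + J7 k ^ 2 - J7 k ^ 3 + J7 k ^ 4 - J7 k ^ 5 + J7 k ^ 6) * J7 k =
      J7 k - J7 k ^ 2 + J7 k ^ 3 - J7 k ^ 4 + J7 k ^ 5 - J7 k ^ 6 + J7 k ^ 7 := by noncomm_ring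
  rw [h, J7_pow7, add_zero]
  simp [eta]

theorem PY' (s : k) : P52 s * Y52 s = (s ^ 5 • Polynomial.aeval (J7 k) (eta k)) * P52 s := by
  have h := congrArg (fun M => (1 - J7 k + J7 k ^ 2 - J7 k ^ 3 + J7 k ^ 4 - J7 k ^ 5 + J7 k ^ 6) * M)
    (PY s)
  simp only [← Matrix.mul_assoc] at h
  rw [inv_mul, Matrix.one_mul] at h
  rw [h, aeval_eta, Matrix.mul_smul]

theorem curv {s : k} (hs : s ≠ 0) : Curv ![X52 s, Y52 s, 0] := by
  have hu := P_unit hs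
  have h0 : Curv ![s ^ 2 • J7 k, s ^ 5 • Polynomial.aeval (J7 k) (eta k), 0] := by
    refine ⟨J7 k, ?_, ?_, fun i => ?_⟩
    · rw [Fintype.card_fin]
      exact J7_pow7
    · rw [Fintype.card_fin]
      exact J7_pow6_ne
    · fin_cases i
      · refine ⟨Polynomial.C (s ^ 2) * Polynomial.X, by simp, ?_⟩
        simp [Algebra.smul_def]
      · refine ⟨Polynomial.C (s ^ 5) * eta k, ?_, ?_⟩
        · rw [Polynomial.coeff_C_mul]
          simp [eta]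
        · simp [Algebra.smul_def]
      · exact ⟨0, by simp, by simp⟩
  have h1 := h0.conj (P52 s)⁻¹ (P52 s) (Matrix.nonsing_inv_mul _ hu) (Matrix.mul_nonsing_inv _ hu)
  have h2 : (fun i => (P52 s)⁻¹ * ![s ^ 2 • J7 k, s ^ 5 • Polynomial.aeval (J7 k) (eta k), 0] i *
      P52 s) = ![X52 s, Y52 s, 0] := by
    funext i
    fin_cases i
    · show (P52 s)⁻¹ * (s ^ 2 • J7 k) * P52 s = X52 s
      rw [Matrix.mul_assoc, ← PX, ← Matrix.mul_assoc, Matrix.nonsing_inv_mul _ hu, Matrix.one_mul]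
    · show (P52 s)⁻¹ * (s ^ 5 • Polynomial.aeval (J7 k) (eta k)) * P52 s = Y52 s
      rw [Matrix.mul_assoc, ← PY', ← Matrix.mul_assoc, Matrix.nonsing_inv_mul _ hu, Matrix.one_mul]
    · show (P52 s)⁻¹ * 0 * P52 s = 0
      simp
  rw [h2] at h1
  exact h1

/-- the polynomials of the family -/
noncomputable def A52 : Matrix (Fin 7) (Fin 7) (Polynomial k) :=
  !![0, 0, 0, 0, 0, 0, 0;
     1, 0, 0, 0, 0, Polynomial.X ^ 10, Polynomial.X ^ 5;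
     0, 1, 0, 0, 0, -Polynomial.X ^ 8, 0;
     0, 0, 1, 0, 0, Polynomial.X ^ 6, 0;
     0, 0, 0, 1, 0, -Polynomial.X ^ 4, 0;
     0, 0, 0, 0, 1, Polynomial.X ^ 2, 0;
     0, 0, 0, 0, 0, -Polynomial.X ^ 7, -Polynomial.X ^ 2]

/-- the polynomials of the family -/
noncomputable def C52 : Matrix (Fin 7) (Fin 7) (Polynomial k) :=
  !![0, 0, 0, 0, 0, 0, 0;
     0, Polynomial.X ^ 5, -Polynomial.X ^ 7, Polynomial.X ^ 9, -Polynomial.X ^ 11,
       Polynomial.X ^ 13, 5 * Polynomial.X ^ 8;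
     0, 0, Polynomial.X ^ 5, -Polynomial.X ^ 7, Polynomial.X ^ 9, -Polynomial.X ^ 11,
       -4 * Polynomial.X ^ 6;
     0, 0, 0, Polynomial.X ^ 5, -Polynomial.X ^ 7, Polynomial.X ^ 9, 3 * Polynomial.X ^ 4;
     0, 0, 0, 0, Polynomial.X ^ 5, -Polynomial.X ^ 7, -2 * Polynomial.X ^ 2;
     0, 0, 0, 0, 0, Polynomial.X ^ 5, 1;
     1, -Polynomial.X ^ 2, Polynomial.X ^ 4, -Polynomial.X ^ 6, Polynomial.X ^ 8,
       -Polynomial.X ^ 10, -5 * Polynomial.X ^ 5]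

theorem A52_eval (s : k) (x y : Fin 7) : (A52 x y).eval s = X52 s x y := by
  fin_cases x <;> fin_cases y <;> simp [A52, X52]

theorem C52_eval (s : k) (x y : Fin 7) : (C52 x y).eval s = Y52 s x y := by
  fin_cases x <;> fin_cases y <;> simp [C52, Y52]

theorem X52_zero : X52 (0 : k) = J61 k := by
  ext i j
  fin_cases i <;> fin_cases j <;> simp [X52, J61]

theorem Y52_zero : Y52 (0 : k) = B61 1 1 := by
  ext i j
  fin_cases i <;> fin_cases j <;> simp [Y52, B61]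

/-- the polynomials of the family -/
noncomputable def cp (i : Fin 3) (x y : Fin 7) : Polynomial k :=
  (![A52, C52, 0] : Fin 3 → Matrix (Fin 7) (Fin 7) (Polynomial k)) i x y

theorem cp_eval (s : k) : (fun i => Matrix.of fun x y => (cp i x y).eval s) =
    ![X52 s, Y52 s, 0] := by
  funext i
  fin_cases i
  · exact Matrix.ext (A52_eval s)
  · exact Matrix.ext (C52_eval s)
  · exact Matrix.ext (fun x y => Polynomial.eval_zero)

end N52Aux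

open N52Aux

theorem cl_node52 [IsAlgClosed k] [CharZero k] : Cl ![J61 k, B61 1 1, 0] := by
  have : Infinite k := CharZero.infinite k
  have h := Cl.curve (k := k) cp ?_ 0
  · rw [cp_eval, X52_zero, Y52_zero] at h
    exact h
  · have h2 : ({0} : Set k)ᶜ.Infinite := (Set.finite_singleton 0).infinite_compl
    refine h2.mono fun s hs => ?_
    show Cl _
    rw [cp_eval]
    exact Cl.of_curv (curv hs)

end Pool.Agent.Lib.D7
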