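import Pool.Agent.Lib.D7.Api
import Pool.Agent.Lib.D7.N52

/-!
# MP_5dcbc3_ag: Jordan type `(6, 1)`
-/

namespace Pool.Agent.Lib.D7

open Matrix Pool.Agent.Lib.Q5dc

variable {k : Type*} [Field k]

namespace T61Aux

theorem pow_mulVec {n : Type*} [Fintype n] [DecidableEq n] {M : Matrix n n k} {v : n → k} {c : k}
    (hv : M *ᵥ v = c • v) (i : ℕ) : (M ^ i) *ᵥ v = c ^ i • v := by
  induction i with
  | zero => simp
  | succ i ih =>
    rw [pow_succ, ← Matrix.mulVec_mulVec, hv, Matrix.mulVec_smul, ih, smul_smul, pow_succ,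
      mul_comm]

theorem eig_zero {n : Type*} [Fintype n] [DecidableEq n] {M : Matrix n n k} (hM : IsNilpotent M)
    {v : n → k} {c : k} (hv : M *ᵥ v = c • v) (hne : v ≠ 0) : c = 0 := by
  obtain ⟨i, hi⟩ := hM
  have h1 := pow_mulVec hv i
  rw [hi, Matrix.zero_mulVec] at h1
  rcases smul_eq_zero.1 h1.symm with h2 | h2
  · exact eq_zero_of_pow_eq_zero h2
  · exact absurd h2 hne

/-- the nilpotent matrices commuting with `J61` -/
def S61 (p1 p2 p3 p4 p5 c b : k) : Matrix (Fin 7) (Fin 7) k :=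
  !![0, 0, 0, 0, 0, 0, 0;
     p1, 0, 0, 0, 0, 0, 0;
     p2, p1, 0, 0, 0, 0, 0;
     p3, p2, p1, 0, 0, 0, 0;
     p4, p3, p2, p1, 0, 0, 0;
     p5, p4, p3, p2, p1, 0, b;
     c, 0, 0, 0, 0, 0, 0]

theorem shape {M : Matrix (Fin 7) (Fin 7) k} (hc : J61 k * M = M * J61 k) (hn : IsNilpotent M) :
    ∃ p1 p2 p3 p4 p5 c b : k, M = S61 p1 p2 p3 p4 p5 c b := by
  have h := hc
  rw [← Matrix.ext_iff] at h
  simp only [Matrix.mul_apply, J61, Fin.sum_univ_succ, Fin.forall_fin_succ] at h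
  simp at h
  obtain ⟨⟨a01, a02, a03, a04, a05⟩, ⟨b0, b1, b2, b3, b4, b5, b6⟩, ⟨c0, c1, c2, c3, c4, c5, c6⟩,
    ⟨d0, d1, d2, d3, d4, d5, d6⟩, ⟨e0, e1, e2, e3, e4, e5, e6⟩, ⟨f0, f1, f2, f3, f4, f5, f6⟩,
    g1, g2, g3, g4, g5⟩ := h
  have h00 : M 0 0 = 0 := by
    refine eig_zero hn (v := Pi.single 5 1) ?_ (by
      intro h
      have := congrFun h 5
      simp at this)
    funext i
    rw [Matrix.mulVec_single_one, Matrix.col_apply]
    fin_cases i
    · simpa using a05.symm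
    · simpa using c5
    · simpa using d5
    · simpa using e5
    · simpa using f5
    · simpa using (b0.trans (c1.trans (d2.trans (e3.trans f4)))).symm
    · simpa using g5.symm
  have h66 : M 6 6 = 0 := by
    by_contra hne
    refine hne (eig_zero hn (v := fun i => if i = 6 then M 6 6 else if i = 5 then M 5 6 else 0) ?_ (by
      intro h
      have := congrFun h 6
      simp at this
      exact hne this))
    funext i
    rw [Matrix.mulVec, dotProduct, Fin.sum_univ_succ]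
    simp only [Fin.sum_univ_succ]
    fin_cases i
    · simp [← a05, b6]
    · simp [c5, c6]
    · simp [d5, d6]
    · simp [e5, e6]
    · simp [f5, f6]
    · have : M 5 5 = 0 := by
        rw [← f4, ← e3, ← d2, ← c1, ← b0, h00]
      simp [this, mul_comm]
    · simp [← g5]
  refine ⟨M 1 0, M 2 0, M 3 0, M 4 0, M 5 0, M 6 0, M 5 6, ?_⟩
  ext i j
  fin_cases i <;> fin_cases j <;> simp [S61] <;> grind

theorem J_eq : J61 k = S61 1 0 0 0 0 0 0 := rfl

theorem J_mul (p1 p2 p3 p4 p5 : k) :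
    J61 k * S61 p1 p2 p3 p4 p5 0 0 = S61 0 p1 p2 p3 p4 0 0 := by
  ext i j
  rw [Matrix.mul_apply]
  fin_cases i <;> fin_cases j <;> simp [J61, S61, Fin.sum_univ_succ]

theorem S_eq (p1 p2 p3 p4 p5 c b : k) : S61 p1 p2 p3 p4 p5 c b =
    p1 • S61 1 0 0 0 0 0 0 + p2 • S61 0 1 0 0 0 0 0 + p3 • S61 0 0 1 0 0 0 0 +
      p4 • S61 0 0 0 1 0 0 0 + p5 • S61 0 0 0 0 1 0 0 + B61 c b := by
  ext i j
  fin_cases i <;> fin_cases j <;> simp [B61, S61]

theorem S_mem {A : NonUnitalSubalgebra k (Matrix (Fin 7) (Fin 7) k)} (hJ : J61 k ∈ A)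
    {c b : k} (hB : B61 c b ∈ A) (p1 p2 p3 p4 p5 : k) : S61 p1 p2 p3 p4 p5 c b ∈ A := by
  have h1 : S61 1 0 0 0 0 0 0 ∈ A := hJ
  have h2 : S61 0 1 0 0 0 0 0 ∈ A := by
    rw [← J_mul 1 0 0 0 0]; exact mul_mem hJ h1
  have h3 : S61 0 0 1 0 0 0 0 ∈ A := by
    rw [← J_mul 0 1 0 0 0]; exact mul_mem hJ h2
  have h4 : S61 0 0 0 1 0 0 0 ∈ A := by
    rw [← J_mul 0 0 1 0 0]; exact mul_mem hJ h3
  have h5 : S61 0 0 0 0 1 0 0 ∈ A := by
    rw [← J_mul 0 0 0 1 0]; exact mul_mem hJ h4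
  rw [S_eq]
  exact add_mem (add_mem (add_mem (add_mem (add_mem (SMulMemClass.smul_mem _ h1)
    (SMulMemClass.smul_mem _ h2)) (SMulMemClass.smul_mem _ h3)) (SMulMemClass.smul_mem _ h4))
    (SMulMemClass.smul_mem _ h5)) hB

theorem rel {p1 p2 p3 p4 p5 c b p1' p2' p3' p4' p5' c' b' : k}
    (h : S61 p1 p2 p3 p4 p5 c b * S61 p1' p2' p3' p4' p5' c' b' =
      S61 p1' p2' p3' p4' p5' c' b' * S61 p1 p2 p3 p4 p5 c b) : b * c' = b' * c := by
  have h1 := congrFun (congrFun h 5) 0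
  simp [Matrix.mul_apply, S61, Fin.sum_univ_succ] at h1
  linear_combination h1

theorem prop {c b c' b' : k} (h : b * c' = b' * c) :
    ∃ c0 b0 l m : k, c = l * c0 ∧ b = l * b0 ∧ c' = m * c0 ∧ b' = m * b0 := by
  by_cases hc : c = 0
  · subst hc
    by_cases hb : b = 0
    · subst hb
      exact ⟨c', b', 0, 1, by ring, by ring, by ring, by ring⟩
    · have h1 : c' = 0 := by
        rw [mul_zero] at h
        exact (mul_eq_zero.1 h).resolve_left hb
      exact ⟨0, b, 1, b' / b, by ring, by ring, by rw [h1]; ring, by field_simp⟩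
  · refine ⟨c, b, 1, c' / c, by ring, by ring, by field_simp, ?_⟩
    field_simp
    linear_combination -h

variable [IsAlgClosed k] [CharZero k]

theorem cl_xy {x y : k} (hx : x ≠ 0) (hy : y ≠ 0) : Cl ![J61 k, B61 x y, 0] := by
  obtain ⟨z, hz⟩ := IsAlgClosed.exists_pow_nat_eq (x * y) (n := 2) (by norm_num)
  have hz0 : z ≠ 0 := by
    rintro rfl
    have : x * y ≠ 0 := mul_ne_zero hx hy
    exact this (by rw [← hz]; ring)
  let g : Matrix (Fin 7) (Fin 7) k := Matrix.diagonal ![1, 1, 1, 1, 1, 1, x / z]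
  let h : Matrix (Fin 7) (Fin 7) k := Matrix.diagonal ![1, 1, 1, 1, 1, 1, z / x]
  have hgh : g * h = 1 := by
    simp only [g, h, Matrix.diagonal_mul_diagonal, ← Matrix.diagonal_one]
    congr 1
    funext i
    fin_cases i <;> simp
    field_simp
  have hhg : h * g = 1 := by
    simp only [g, h, Matrix.diagonal_mul_diagonal, ← Matrix.diagonal_one]
    congr 1
    funext i
    fin_cases i <;> simp
    field_simp
  refine cl_of_adj (T' := fun i => g * (![J61 k, B61 1 1, 0] i) * h) ?_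
    (Cl.conj g h hgh hhg cl_node52)
  intro i
  fin_cases i
  · have h1 := mem_adj (fun i => g * (![J61 k, B61 1 1, 0] i) * h) 0
    have h2 : g * (![J61 k, B61 1 1, 0] 0) * h = J61 k := by
      ext i j
      simp only [g, h, Matrix.mul_diagonal, Matrix.diagonal_mul]
      fin_cases i <;> fin_cases j <;> simp [J61]
    simp only [h2] at h1
    exact h1
  · have h1 := mem_adj (fun i => g * (![J61 k, B61 1 1, 0] i) * h) 1
    have h2 : B61 x y = z • (g * (![J61 k, B61 1 1, 0] 1) * h) := by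
      ext i j
      simp only [g, h, Matrix.smul_apply, Matrix.mul_diagonal, Matrix.diagonal_mul]
      fin_cases i <;> fin_cases j <;> simp [B61]
      · field_simp
        rw [mul_comm]
        exact hz.symm
      · field_simp
    have h3 := SMulMemClass.smul_mem (s := adj fun i => g * (![J61 k, B61 1 1, 0] i) * h) z h1
    simp only [← h2] at h3
    exact h3
  · exact zero_mem _

omit [CharZero k] in
theorem cl_polyFam {n : Type*} [Fintype n] [DecidableEq n] {c : k → Fin 3 → Matrix n n k}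
    (hc : PolyFam c) (h : {s | Cl (c s)}.Infinite) (s : k) : Cl (c s) := by
  choose p hp using hc
  have h1 : ∀ s, (fun i => Matrix.of fun x y => (p i x y).eval s) = c s := by
    intro s
    funext i
    ext x y
    exact (hp i x y s).symm
  rw [← h1 s]
  refine Cl.curve p ?_ s
  simpa only [h1] using h

theorem cl_all {c b c' b' : k} (h : b * c' = b' * c) : Cl ![J61 k, B61 c b, B61 c' b'] := by
  obtain ⟨c0, b0, l, m, rfl, rfl, rfl, rfl⟩ := prop h
  have h1 := cl_polyFam (PolyFam.line ![J61 k, B61 (l * c0) (l * b0), B61 (m * c0) (m * b0)]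
    ![0, B61 l l, B61 m m]) ?_ 0
  · simpa using h1
  · have hfin : ({-c0, -b0} : Set k).Finite := by simp
    refine (hfin.infinite_compl).mono ?_
    intro s hs
    have hx : c0 + s ≠ 0 := by
      intro h0
      apply hs
      left
      linear_combination h0
    have hy : b0 + s ≠ 0 := by
      intro h0
      apply hs
      right
      change s = -b0
      linear_combination h0
    refine cl_of_adj ?_ (cl_xy hx hy)
    have hJ : J61 k ∈ adj ![J61 k, B61 (c0 + s) (b0 + s), 0] :=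
      mem_adj ![J61 k, B61 (c0 + s) (b0 + s), 0] 0
    have hB : B61 (c0 + s) (b0 + s) ∈ adj ![J61 k, B61 (c0 + s) (b0 + s), 0] :=
      mem_adj ![J61 k, B61 (c0 + s) (b0 + s), 0] 1
    have hl : ∀ l : k, B61 (l * c0) (l * b0) + s • B61 l l = l • B61 (c0 + s) (b0 + s) := by
      intro l
      ext i j
      fin_cases i <;> fin_cases j <;> simp [B61] <;> ring
    intro i
    fin_cases i
    · change J61 k + s • (0 : Matrix (Fin 7) (Fin 7) k) ∈ _
      rw [smul_zero, add_zero]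
      exact hJ
    · change B61 (l * c0) (l * b0) + s • B61 l l ∈ _
      rw [hl]
      exact SMulMemClass.smul_mem l hB
    · change B61 (m * c0) (m * b0) + s • B61 m m ∈ _
      rw [hl]
      exact SMulMemClass.smul_mem m hB

end T61Aux

theorem no_61 [IsAlgClosed k] [CharZero k] {ρ : ℕ → ℕ} {T : Fin 3 → Matrix (Fin 7) (Fin 7) k}
    (hT : MaxR ρ T) (hρ : ∀ i, ρ i = (J61 k ^ i).rank) (h0 : T 0 = J61 k) : False := by
  have h1 := hT.cn.1 0 1
  have h2 := hT.cn.1 0 2
  have h3 := hT.cn.1 1 2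
  rw [h0] at h1 h2
  obtain ⟨p1, p2, p3, p4, p5, c, b, hB⟩ := T61Aux.shape h1 (hT.cn.2 1)
  obtain ⟨q1, q2, q3, q4, q5, c', b', hC⟩ := T61Aux.shape h2 (hT.cn.2 2)
  rw [hB, hC] at h3
  refine hT.ncl (cl_of_adj ?_ (T61Aux.cl_all (T61Aux.rel h3)))
  have hJ : J61 k ∈ adj ![J61 k, B61 c b, B61 c' b'] := mem_adj ![J61 k, B61 c b, B61 c' b'] 0
  have hB1 : B61 c b ∈ adj ![J61 k, B61 c b, B61 c' b'] :=
    mem_adj ![J61 k, B61 c b, B61 c' b'] 1
  have hC1 : B61 c' b' ∈ adj ![J61 k, B61 c b, B61 c' b'] :=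
    mem_adj ![J61 k, B61 c b, B61 c' b'] 2
  intro i
  fin_cases i
  · exact h0 ▸ hJ
  · exact hB ▸ T61Aux.S_mem hJ hB1 p1 p2 p3 p4 p5
  · exact hC ▸ T61Aux.S_mem hJ hC1 q1 q2 q3 q4 q5

end Pool.Agent.Lib.D7
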