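import Pool.Agent.Lib.Q5dc.Red
import Pool.Agent.Lib.D7.Defs

/-!
# MP_5dcbc3_ag: triples of 7 x 7 matrices with all products zero are limits of curvilinear ones
-/

namespace Pool.Agent.Lib.D7

open Matrix Pool.Agent.Lib.Q5dc

variable {k : Type*} [Field k] [CharZero k]

/-- all products zero: limit of curvilinear triples -/
theorem cl_two_step {T : Fin 3 → Matrix (Fin 7) (Fin 7) k} (h : ∀ i j, T i * T j = 0) : Cl T :=
  Q5dc.cl_two_step T h

end Pool.Agent.Lib.D7
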