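import Pool.Agent.Lib.D7.Jordan
import Pool.Agent.Lib.D7.TwoStep
import Pool.Agent.Lib.D7.T61
import Pool.Agent.Lib.D7.T52
import Pool.Agent.Lib.D7.T43
import Pool.Agent.Lib.D7.Hook
import Pool.Agent.Lib.D7.T421a
import Pool.Agent.Lib.D7.T331a
import Pool.Agent.Lib.D7.T322
import Pool.Agent.Lib.D7.T3211

/-!
# All commuting nilpotent triples of 7 x 7 matrices are limits of curvilinear ones
-/

namespace Pool.Agent.Lib.D7

open Matrix Pool.Agent.Lib.Q5dc

variable {k : Type*} [Field k] [IsAlgClosed k] [CharZero k]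

theorem j7_pow : (J7 k) ^ 6 ≠ 0 := by
  intro h
  have h1 := congrFun (congrFun h 6) 0
  simp [J7, pow_succ, Matrix.mul_apply, Fin.sum_univ_succ] at h1

theorem all_cl {T : Fin 3 → Matrix (Fin 7) (Fin 7) k} (hT : CN T) : Cl T := by
  by_contra hncl
  obtain ⟨T', hT'⟩ := exists_maxR hT hncl
  rcases jordan7 (T' 0) (hT'.cn.2 0) with h2 | ⟨g, h', hg, hh, hJ⟩
  · refine hT'.ncl (cl_two_step fun i j => ?_)
    have hsq : ∀ M ∈ adj T', M ^ 2 = 0 := by
      intro M hM
      refine hT'.pow_eq_zero hM ?_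
      show (T' 0 ^ 2).rank = 0
      rw [h2, Matrix.rank_zero]
    have h3 := hsq _ (add_mem (mem_adj T' i) (mem_adj T' j))
    have h4 := hsq _ (mem_adj T' i)
    have h5 := hsq _ (mem_adj T' j)
    have h6 : (2 : k) • (T' i * T' j) = 0 := by
      have h7 : (T' i + T' j) ^ 2 = T' i ^ 2 + T' j ^ 2 + (2 : k) • (T' i * T' j) := by
        rw [pow_two, pow_two, pow_two, add_mul, mul_add, mul_add, hT'.cn.1 j i, two_smul]
        abel
      rw [h3, h4, h5, zero_add, zero_add] at h7
      exact h7.symm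
    exact (smul_eq_zero.1 h6).resolve_left two_ne_zero
  · have hM := hT'.conj g h' hg hh
    have hρ : ∀ i, (T' 0 ^ i).rank = ((g * T' 0 * h') ^ i).rank := by
      intro i
      rw [conj_pow' g h' hg hh, rank_conj g h' hg hh]
    rcases hJ with hJ | hJ | hJ | hJ | hJ | hJ | hJ | hJ | hJ | hJ | hJ
    · refine hM.ncl (cl_of_pow_six hM.cn (mem_adj _ 0) ?_)
      show (g * T' 0 * h') ^ 6 ≠ 0
      rw [hJ]
      exact j7_pow
    · exact no_61 hM (fun i => by rw [← hJ]; exact hρ i) hJ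
    · exact no_52 hM (fun i => by rw [← hJ]; exact hρ i) hJ
    · exact no_511 hM (fun i => by rw [← hJ]; exact hρ i) hJ
    · exact no_43 hM (fun i => by rw [← hJ]; exact hρ i) hJ
    · exact no_421 hM (fun i => by rw [← hJ]; exact hρ i) hJ
    · exact no_4111 hM (fun i => by rw [← hJ]; exact hρ i) hJ
    · exact no_331 hM (fun i => by rw [← hJ]; exact hρ i) hJ
    · exact no_322 hM (fun i => by rw [← hJ]; exact hρ i) hJ
    · exact no_3211 hM (fun i => by rw [← hJ]; exact hρ i) hJ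
    · exact no_31111 hM (fun i => by rw [← hJ]; exact hρ i) hJ

end Pool.Agent.Lib.D7
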