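import Mathlib
import Pool.Agent.Lib.Q5dc.Defs
import Pool.Agent.Lib.D7.Defs
import Pool.Agent.Lib.D7.DefsS
import Pool.Agent.Lib.D7.Poly

/-!
# D7.NodeS: node algebras of lengths 4, 5, 6 are limits of curvilinear ones

For `s ≠ 0` the matrices `X s`, `Y s` are conjugate to multiples of `N` and `N - N^2 + N^3 - ...`,
`N` the full Jordan matrix; at `s = 0` they are the matrices of a node algebra. For a general
constant one multiplies `Y` by a root and rescales the basis.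
-/

namespace Pool.Agent.Lib.D7

open Matrix Pool.Agent.Lib.Q5dc

/-- the node algebra `x y = 0`, `y^3 = c x^3` (size 6) -/
def Nd33 {k : Type*} [Field k] (c : k) : Fin 3 → Matrix (Fin 6) (Fin 6) k :=
  ![!![0, 0, 0, 0, 0, 0;
     1, 0, 0, 0, 0, 0;
     0, 1, 0, 0, 0, 0;
     0, 0, 1, 0, 0, 0;
     0, 0, 0, 0, 0, 0;
     0, 0, 0, 0, 0, 0],
    !![0, 0, 0, 0, 0, 0;
     0, 0, 0, 0, 0, 0;
     0, 0, 0, 0, 0, 0;
     0, 0, 0, 0, 0, c;
     1, 0, 0, 0, 0, 0;
     0, 0, 0, 0, 1, 0],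
    0]

namespace NodeSAux

section
variable {k : Type*} [Field k]

/-- the full Jordan matrix -/
def Nn (k : Type*) [Field k] (n : ℕ) : Matrix (Fin n) (Fin n) k :=
  Matrix.of fun x y => if x.val = y.val + 1 then 1 else 0

theorem Nn_pow (n m : ℕ) (x y : Fin n) :
    (Nn k n ^ m) x y = if x.val = y.val + m then 1 else 0 := by
  induction m generalizing x y with
  | zero =>
    rw [pow_zero, Matrix.one_apply, add_zero]
    by_cases h : x = y
    · rw [if_pos h, if_pos (congrArg Fin.val h)]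
    · rw [if_neg h, if_neg (fun h' => h (Fin.ext h'))]
  | succ m ih =>
    rw [pow_succ, Matrix.mul_apply]
    by_cases h : x.val = y.val + (m + 1)
    · rw [if_pos h]
      have hy : y.val + 1 < n := by have := x.2; omega
      rw [Finset.sum_eq_single (⟨y.val + 1, hy⟩ : Fin n)]
      · rw [ih, if_pos (by simp only; omega), one_mul]
        simp [Nn]
      · intro z _ hz
        have hz' : ¬ z.val = y.val + 1 := fun h' => hz (Fin.ext h')
        have h1 : Nn k n z y = 0 := by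
          simp [Nn, hz']
        rw [h1, mul_zero]
      · intro h'
        exact absurd (Finset.mem_univ _) h'
    · rw [if_neg h]
      refine Finset.sum_eq_zero fun z _ => ?_
      rw [ih]
      by_cases h1 : x.val = z.val + m
      · have hz' : ¬ z.val = y.val + 1 := by omega
        have h2 : Nn k n z y = 0 := by
          simp [Nn, hz']
        rw [h2, mul_zero]
      · rw [if_neg h1, zero_mul]

theorem Nn_pow_card (n : ℕ) : Nn k n ^ n = 0 := by
  ext x y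
  rw [Nn_pow, if_neg (by have := x.2; omega), Matrix.zero_apply]

theorem Nn_pow_ne (n : ℕ) (hn : 0 < n) : Nn k n ^ (n - 1) ≠ 0 := by
  intro h
  have h1 := Nn_pow (k := k) n (n - 1) ⟨n - 1, by omega⟩ ⟨0, hn⟩
  rw [h, Matrix.zero_apply, if_pos (by simp)] at h1
  exact zero_ne_one h1

theorem E_exp {n : ℕ} {N E : Matrix (Fin n) (Fin n) k} (hE : E = N - N * E) (m : ℕ) :
    E = (∑ i ∈ Finset.range m, (-1 : k) ^ i • N ^ (i + 1)) + (-1 : k) ^ m • (N ^ m * E) := by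
  induction m with
  | zero => simp
  | succ m ih =>
    have h1 : N ^ m * E = N ^ (m + 1) - N ^ (m + 1) * E := by
      conv_lhs => rw [hE]
      rw [mul_sub, ← mul_assoc, ← pow_succ]
    rw [Finset.sum_range_succ]
    conv_lhs => rw [ih, h1]
    rw [smul_sub, pow_succ (-1 : k) m, mul_neg_one, neg_smul]
    abel

theorem E_poly {n : ℕ} {N E : Matrix (Fin n) (Fin n) k} (hN : N ^ n = 0) (hE : E = N - N * E) :
    ∃ p : Polynomial k, p.coeff 0 = 0 ∧ E = Polynomial.aeval N p := by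
  refine ⟨∑ i ∈ Finset.range n, Polynomial.C ((-1 : k) ^ i) * Polynomial.X ^ (i + 1), ?_, ?_⟩
  · rw [Polynomial.finset_sum_coeff]
    refine Finset.sum_eq_zero fun i _ => ?_
    rw [Polynomial.coeff_C_mul, Polynomial.coeff_X_pow, if_neg (by omega), mul_zero]
  · have h1 := E_exp hE n
    rw [hN, zero_mul, smul_zero, add_zero] at h1
    rw [map_sum]
    refine h1.trans (Finset.sum_congr rfl fun i _ => ?_)
    have h2 : Polynomial.aeval N (Polynomial.X ^ (i + 1) : Polynomial k) = N ^ (i + 1) := by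
      rw [map_pow, Polynomial.aeval_X]
    rw [map_mul, Polynomial.aeval_C, h2, Algebra.smul_def]

theorem curv0 {n : ℕ} {N E : Matrix (Fin n) (Fin n) k} (hN : N ^ n = 0) (hN' : N ^ (n - 1) ≠ 0)
    (hE : E = N - N * E) (a b : k) : Curv ![a • N, b • E, (0 : Matrix (Fin n) (Fin n) k)] := by
  obtain ⟨p, hp, hpE⟩ := E_poly hN hE
  refine ⟨N, ?_, ?_, fun i => ?_⟩
  · rw [Fintype.card_fin]; exact hN
  · rw [Fintype.card_fin]; exact hN'
  · fin_cases i
    · exact ⟨a • Polynomial.X, by simp, by simp⟩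
    · refine ⟨b • p, by rw [Polynomial.coeff_smul, hp, smul_zero], ?_⟩
      change b • E = _
      rw [map_smul, ← hpE]
    · exact ⟨0, by simp, by simp⟩

theorem curvS {n : ℕ} {N E X Y P Q : Matrix (Fin n) (Fin n) k} (hN : N ^ n = 0)
    (hN' : N ^ (n - 1) ≠ 0) (hE : E = N - N * E) {a b : k} (hPQ : P * Q = 1)
    (hX : P * X = (a • N) * P) (hY : P * Y = (b • E) * P) (l : k) :
    Curv ![X, l • Y, (0 : Matrix (Fin n) (Fin n) k)] := by
  have hQP : Q * P = 1 := mul_eq_one_comm.1 hPQ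
  have h := (curv0 hN hN' hE a (l * b)).conj Q P hQP hPQ
  have e : ![X, l • Y, (0 : Matrix (Fin n) (Fin n) k)] = fun i =>
      Q * ![a • N, (l * b) • E, (0 : Matrix (Fin n) (Fin n) k)] i * P := by
    funext i
    fin_cases i
    · change X = Q * (a • N) * P
      rw [Matrix.mul_assoc, ← hX, ← Matrix.mul_assoc, hQP, Matrix.one_mul]
    · change l • Y = Q * ((l * b) • E) * P
      rw [mul_smul, Matrix.mul_smul, Matrix.smul_mul, Matrix.mul_assoc, ← hY, ← Matrix.mul_assoc,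
        hQP, Matrix.one_mul]
    · change (0 : Matrix (Fin n) (Fin n) k) = Q * 0 * P
      rw [Matrix.mul_zero, Matrix.zero_mul]
  rw [e]
  exact h

theorem clS [Infinite k] {n : ℕ} {N E : Matrix (Fin n) (Fin n) k} (hN : N ^ n = 0)
    (hN' : N ^ (n - 1) ≠ 0) (hE : E = N - N * E) {X Y P Q : k → Matrix (Fin n) (Fin n) k}
    {a b : k → k} (hPQ : ∀ s, s ≠ 0 → P s * Q s = 1) (hX : ∀ s, P s * X s = (a s • N) * P s)
    (hY : ∀ s, P s * Y s = (b s • E) * P s) (pX : ∀ x y, IsPoly fun s => X s x y)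
    (pY : ∀ x y, IsPoly fun s => Y s x y) (l s : k) :
    Cl ![X s, l • Y s, (0 : Matrix (Fin n) (Fin n) k)] := by
  choose p hp using pX
  choose q hq using pY
  set c : Fin 3 → Fin n → Fin n → Polynomial k :=
    ![p, fun x y => Polynomial.C l * q x y, 0] with hc
  have e : ∀ s : k, (fun i => Matrix.of fun x y => (c i x y).eval s) =
      ![X s, l • Y s, (0 : Matrix (Fin n) (Fin n) k)] := by
    intro s
    funext i
    ext x y
    fin_cases i
    · exact (hp x y s).symm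
    · change (Polynomial.C l * q x y).eval s = l * Y s x y
      rw [Polynomial.eval_mul, Polynomial.eval_C]
      exact congrArg (fun w => l * w) (hq x y s).symm
    · exact Polynomial.eval_zero
  rw [← e s]
  refine Cl.curve c ?_ s
  refine (Set.Finite.infinite_compl (Set.finite_singleton (0 : k))).mono fun s hs => ?_
  rw [Set.mem_ofPred_eq, e s]
  exact Cl.of_curv (curvS hN hN' hE (hPQ s hs) (hX s) (hY s) l)

/-! ### full Jordan matrix of size 4 -/

theorem J4_eq : J4 k = Nn k 4 := by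
  ext i j
  fin_cases i <;> fin_cases j <;> simp [J4, Nn]

theorem J4_pow : J4 k ^ 4 = 0 := by
  rw [J4_eq]; exact Nn_pow_card 4

theorem J4_pow_ne : J4 k ^ (4 - 1) ≠ 0 := by
  rw [J4_eq]; exact Nn_pow_ne 4 (by norm_num)

/-- `N - N^2 + N^3 - ...` -/
def E4 (k : Type*) [Field k] : Matrix (Fin 4) (Fin 4) k :=
  !![0, 0, 0, 0;
     1, 0, 0, 0;
     -1, 1, 0, 0;
     1, -1, 1, 0]

theorem E4_eq : E4 k = J4 k - J4 k * E4 k := by
  ext i j
  fin_cases i <;> fin_cases j <;> simp [E4, J4]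

/-! ### full Jordan matrix of size 5 -/

theorem J5_eq : J5 k = Nn k 5 := by
  ext i j
  fin_cases i <;> fin_cases j <;> simp [J5, Nn]

theorem J5_pow : J5 k ^ 5 = 0 := by
  rw [J5_eq]; exact Nn_pow_card 5

theorem J5_pow_ne : J5 k ^ (5 - 1) ≠ 0 := by
  rw [J5_eq]; exact Nn_pow_ne 5 (by norm_num)

/-- `N - N^2 + N^3 - ...` -/
def E5 (k : Type*) [Field k] : Matrix (Fin 5) (Fin 5) k :=
  !![0, 0, 0, 0, 0;
     1, 0, 0, 0, 0;
     -1, 1, 0, 0, 0;
     1, -1, 1, 0, 0;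
     -1, 1, -1, 1, 0]

theorem E5_eq : E5 k = J5 k - J5 k * E5 k := by
  ext i j
  fin_cases i <;> fin_cases j <;> simp [E5, J5]

/-! ### full Jordan matrix of size 6 -/

theorem J6_eq : J6 k = Nn k 6 := by
  ext i j
  fin_cases i <;> fin_cases j <;> simp [J6, Nn]

theorem J6_pow : J6 k ^ 6 = 0 := by
  rw [J6_eq]; exact Nn_pow_card 6

theorem J6_pow_ne : J6 k ^ (6 - 1) ≠ 0 := by
  rw [J6_eq]; exact Nn_pow_ne 6 (by norm_num)

/-- `N - N^2 + N^3 - ...` -/
def E6 (k : Type*) [Field k] : Matrix (Fin 6) (Fin 6) k :=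
  !![0, 0, 0, 0, 0, 0;
     1, 0, 0, 0, 0, 0;
     -1, 1, 0, 0, 0, 0;
     1, -1, 1, 0, 0, 0;
     -1, 1, -1, 1, 0, 0;
     1, -1, 1, -1, 1, 0]

theorem E6_eq : E6 k = J6 k - J6 k * E6 k := by
  ext i j
  fin_cases i <;> fin_cases j <;> simp [E6, J6]

/-! ### the family `22` -/

/-- inverse of `Pn22 s`, `r = 1 / s` -/
def Q22 (r : k) : Matrix (Fin 4) (Fin 4) k :=
  !![1, 0, 0, 0;
     0, r, 0, -r;
     0, 0, r ^ 2, r ^ 2;
     0, 0, 0, r]

theorem PQ22 {s : k} (hs : s ≠ 0) : Pn22 s * Q22 s⁻¹ = 1 := by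
  ext i j
  fin_cases i <;> fin_cases j <;>
    simp [Pn22, Q22, Matrix.mul_apply, Fin.sum_univ_succ] <;> field_simp <;> ring

theorem PX22 (s : k) : Pn22 s * Xn22 s = (s • J4 k) * Pn22 s := by
  ext i j
  fin_cases i <;> fin_cases j <;>
    simp [Pn22, Xn22, J4, Matrix.mul_apply, Fin.sum_univ_succ] <;> ring

theorem PY22 (s : k) : Pn22 s * Yn22 s = (s • E4 k) * Pn22 s := by
  ext i j
  fin_cases i <;> fin_cases j <;>
    simp [Pn22, Yn22, E4, Matrix.mul_apply, Fin.sum_univ_succ] <;> ring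

open Polynomial in
/-- `Xn22` with the variable `X` -/
noncomputable def XP22 (k : Type*) [Field k] : Matrix (Fin 4) (Fin 4) k[X] :=
  !![0, 0, 0, 0;
     1, 0, -X ^ 2, X;
     0, 1, X, 0;
     0, 0, X ^ 2, -X]

theorem XP22_eval (s : k) (x y : Fin 4) : Xn22 s x y = (XP22 k x y).eval s := by
  fin_cases x <;> fin_cases y <;> simp [XP22, Xn22]

open Polynomial in
/-- `Yn22` with the variable `X` -/
noncomputable def YP22 (k : Type*) [Field k] : Matrix (Fin 4) (Fin 4) k[X] :=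
  !![0, 0, 0, 0;
     0, X, -X ^ 2, 2 * X;
     0, 0, X, -1;
     1, -X, X ^ 2, -2 * X]

theorem YP22_eval (s : k) (x y : Fin 4) : Yn22 s x y = (YP22 k x y).eval s := by
  fin_cases x <;> fin_cases y <;> simp [YP22, Yn22]

theorem cl22 [Infinite k] (l : k) :
    Cl ![Xn22 0, l • Yn22 0, (0 : Matrix (Fin 4) (Fin 4) k)] :=
  clS (N := J4 k) (E := E4 k) J4_pow J4_pow_ne E4_eq (X := Xn22) (Y := Yn22) (P := Pn22)
    (Q := fun s => Q22 s⁻¹) (a := fun s => s) (b := fun s => s) (fun s hs => PQ22 hs) PX22 PY22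
    (fun x y => ⟨XP22 k x y, fun s => XP22_eval s x y⟩)
    (fun x y => ⟨YP22 k x y, fun s => YP22_eval s x y⟩) l 0

/-! ### the family `32` -/

/-- inverse of `Pn32 s`, `r = 1 / s` -/
def Q32 (r : k) : Matrix (Fin 5) (Fin 5) k :=
  !![1, 0, 0, 0, 0;
     0, r ^ 2, 0, 0, r ^ 2;
     0, 0, r ^ 4, 0, -r ^ 4;
     0, 0, 0, r ^ 6, r ^ 6;
     0, 0, 0, 0, -r ^ 3]

theorem PQ32 {s : k} (hs : s ≠ 0) : Pn32 s * Q32 s⁻¹ = 1 := by
  ext i j
  fin_cases i <;> fin_cases j <;>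
    simp [Pn32, Q32, Matrix.mul_apply, Fin.sum_univ_succ] <;> field_simp <;> ring

theorem PX32 (s : k) : Pn32 s * Xn32 s = ((s ^ 2) • J5 k) * Pn32 s := by
  ext i j
  fin_cases i <;> fin_cases j <;>
    simp [Pn32, Xn32, J5, Matrix.mul_apply, Fin.sum_univ_succ] <;> ring

theorem PY32 (s : k) : Pn32 s * Yn32 s = ((s ^ 3) • E5 k) * Pn32 s := by
  ext i j
  fin_cases i <;> fin_cases j <;>
    simp [Pn32, Yn32, E5, Matrix.mul_apply, Fin.sum_univ_succ] <;> ring

open Polynomial in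
/-- `Xn32` with the variable `X` -/
noncomputable def XP32 (k : Type*) [Field k] : Matrix (Fin 5) (Fin 5) k[X] :=
  !![0, 0, 0, 0, 0;
     1, 0, 0, X ^ 6, X ^ 3;
     0, 1, 0, -X ^ 4, 0;
     0, 0, 1, X ^ 2, 0;
     0, 0, 0, -X ^ 5, -X ^ 2]

theorem XP32_eval (s : k) (x y : Fin 5) : Xn32 s x y = (XP32 k x y).eval s := by
  fin_cases x <;> fin_cases y <;> simp [XP32, Xn32]

open Polynomial in
/-- `Yn32` with the variable `X` -/
noncomputable def YP32 (k : Type*) [Field k] : Matrix (Fin 5) (Fin 5) k[X] :=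
  !![0, 0, 0, 0, 0;
     0, X ^ 3, -X ^ 5, X ^ 7, 3 * X ^ 4;
     0, 0, X ^ 3, -X ^ 5, -2 * X ^ 2;
     0, 0, 0, X ^ 3, 1;
     1, -X ^ 2, X ^ 4, -X ^ 6, -3 * X ^ 3]

theorem YP32_eval (s : k) (x y : Fin 5) : Yn32 s x y = (YP32 k x y).eval s := by
  fin_cases x <;> fin_cases y <;> simp [YP32, Yn32]

theorem cl32 [Infinite k] (l : k) :
    Cl ![Xn32 0, l • Yn32 0, (0 : Matrix (Fin 5) (Fin 5) k)] :=
  clS (N := J5 k) (E := E5 k) J5_pow J5_pow_ne E5_eq (X := Xn32) (Y := Yn32) (P := Pn32)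
    (Q := fun s => Q32 s⁻¹) (a := fun s => s ^ 2) (b := fun s => s ^ 3) (fun s hs => PQ32 hs) PX32 PY32
    (fun x y => ⟨XP32 k x y, fun s => XP32_eval s x y⟩)
    (fun x y => ⟨YP32 k x y, fun s => YP32_eval s x y⟩) l 0

/-! ### the family `42` -/

/-- inverse of `Pn42 s`, `r = 1 / s` -/
def Q42 (r : k) : Matrix (Fin 6) (Fin 6) k :=
  !![1, 0, 0, 0, 0, 0;
     0, r, 0, 0, 0, -r;
     0, 0, r ^ 2, 0, 0, r ^ 2;
     0, 0, 0, r ^ 3, 0, -r ^ 3;
     0, 0, 0, 0, r ^ 4, r ^ 4;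
     0, 0, 0, 0, 0, r ^ 2]

theorem PQ42 {s : k} (hs : s ≠ 0) : Pn42 s * Q42 s⁻¹ = 1 := by
  ext i j
  fin_cases i <;> fin_cases j <;>
    simp [Pn42, Q42, Matrix.mul_apply, Fin.sum_univ_succ] <;> field_simp <;> ring

theorem PX42 (s : k) : Pn42 s * Xn42 s = (s • J6 k) * Pn42 s := by
  ext i j
  fin_cases i <;> fin_cases j <;>
    simp [Pn42, Xn42, J6, Matrix.mul_apply, Fin.sum_univ_succ] <;> ring

theorem PY42 (s : k) : Pn42 s * Yn42 s = ((s ^ 2) • E6 k) * Pn42 s := by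
  ext i j
  fin_cases i <;> fin_cases j <;>
    simp [Pn42, Yn42, E6, Matrix.mul_apply, Fin.sum_univ_succ] <;> ring

open Polynomial in
/-- `Xn42` with the variable `X` -/
noncomputable def XP42 (k : Type*) [Field k] : Matrix (Fin 6) (Fin 6) k[X] :=
  !![0, 0, 0, 0, 0, 0;
     1, 0, 0, 0, -X ^ 4, X ^ 2;
     0, 1, 0, 0, X ^ 3, 0;
     0, 0, 1, 0, -X ^ 2, 0;
     0, 0, 0, 1, X, 0;
     0, 0, 0, 0, X ^ 3, -X]

theorem XP42_eval (s : k) (x y : Fin 6) : Xn42 s x y = (XP42 k x y).eval s := by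
  fin_cases x <;> fin_cases y <;> simp [XP42, Xn42]

open Polynomial in
/-- `Yn42` with the variable `X` -/
noncomputable def YP42 (k : Type*) [Field k] : Matrix (Fin 6) (Fin 6) k[X] :=
  !![0, 0, 0, 0, 0, 0;
     0, X ^ 2, -X ^ 3, X ^ 4, -X ^ 5, 4 * X ^ 3;
     0, 0, X ^ 2, -X ^ 3, X ^ 4, -3 * X ^ 2;
     0, 0, 0, X ^ 2, -X ^ 3, 2 * X;
     0, 0, 0, 0, X ^ 2, -1;
     1, -X, X ^ 2, -X ^ 3, X ^ 4, -4 * X ^ 2]

theorem YP42_eval (s : k) (x y : Fin 6) : Yn42 s x y = (YP42 k x y).eval s := by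
  fin_cases x <;> fin_cases y <;> simp [YP42, Yn42]

theorem cl42 [Infinite k] (l : k) :
    Cl ![Xn42 0, l • Yn42 0, (0 : Matrix (Fin 6) (Fin 6) k)] :=
  clS (N := J6 k) (E := E6 k) J6_pow J6_pow_ne E6_eq (X := Xn42) (Y := Yn42) (P := Pn42)
    (Q := fun s => Q42 s⁻¹) (a := fun s => s) (b := fun s => s ^ 2) (fun s hs => PQ42 hs) PX42 PY42
    (fun x y => ⟨XP42 k x y, fun s => XP42_eval s x y⟩)
    (fun x y => ⟨YP42 k x y, fun s => YP42_eval s x y⟩) l 0

/-! ### the family `33` -/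

/-- inverse of `Pn33 s`, `r = 1 / s` -/
def Q33 (r : k) : Matrix (Fin 6) (Fin 6) k :=
  !![1, 0, 0, 0, 0, 0;
     0, r, 0, 0, 4 * r, 3 * r;
     0, 0, r ^ 2, 0, -3 * r ^ 2, -2 * r ^ 2;
     0, 0, 0, r ^ 3, 2 * r ^ 3, r ^ 3;
     0, 0, 0, 0, -4 * r, -3 * r;
     0, 0, 0, 0, -r ^ 2, -r ^ 2]

theorem PQ33 {s : k} (hs : s ≠ 0) : Pn33 s * Q33 s⁻¹ = 1 := by
  ext i j
  fin_cases i <;> fin_cases j <;>
    simp [Pn33, Q33, Matrix.mul_apply, Fin.sum_univ_succ] <;> field_simp <;> ring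

theorem PX33 (s : k) : Pn33 s * Xn33 s = (s • J6 k) * Pn33 s := by
  ext i j
  fin_cases i <;> fin_cases j <;>
    simp [Pn33, Xn33, J6, Matrix.mul_apply, Fin.sum_univ_succ] <;> ring

theorem PY33 (s : k) : Pn33 s * Yn33 s = (s • E6 k) * Pn33 s := by
  ext i j
  fin_cases i <;> fin_cases j <;>
    simp [Pn33, Yn33, E6, Matrix.mul_apply, Fin.sum_univ_succ] <;> ring

open Polynomial in
/-- `Xn33` with the variable `X` -/
noncomputable def XP33 (k : Type*) [Field k] : Matrix (Fin 6) (Fin 6) k[X] :=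
  !![0, 0, 0, 0, 0, 0;
     1, 0, 0, 4 * X ^ 3, X, X ^ 2;
     0, 1, 0, -3 * X ^ 2, 0, 0;
     0, 0, 1, 2 * X, 0, 0;
     0, 0, 0, -4 * X ^ 3, -X, -X ^ 2;
     0, 0, 0, -X ^ 2, 0, -X]

theorem XP33_eval (s : k) (x y : Fin 6) : Xn33 s x y = (XP33 k x y).eval s := by
  fin_cases x <;> fin_cases y <;> simp [XP33, Xn33]

open Polynomial in
/-- `Yn33` with the variable `X` -/
noncomputable def YP33 (k : Type*) [Field k] : Matrix (Fin 6) (Fin 6) k[X] :=
  !![0, 0, 0, 0, 0, 0;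
     0, X, -X ^ 2, X ^ 3, 0, 6 * X ^ 2;
     0, 0, X, -X ^ 2, 0, -3 * X;
     0, 0, 0, X, 0, 1;
     1, -X, X ^ 2, -X ^ 3, 0, -6 * X ^ 2;
     0, 0, 0, 0, 1, -3 * X]

theorem YP33_eval (s : k) (x y : Fin 6) : Yn33 s x y = (YP33 k x y).eval s := by
  fin_cases x <;> fin_cases y <;> simp [YP33, Yn33]

theorem cl33 [Infinite k] (l : k) :
    Cl ![Xn33 0, l • Yn33 0, (0 : Matrix (Fin 6) (Fin 6) k)] :=
  clS (N := J6 k) (E := E6 k) J6_pow J6_pow_ne E6_eq (X := Xn33) (Y := Yn33) (P := Pn33)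
    (Q := fun s => Q33 s⁻¹) (a := fun s => s) (b := fun s => s) (fun s hs => PQ33 hs) PX33 PY33
    (fun x y => ⟨XP33 k x y, fun s => XP33_eval s x y⟩)
    (fun x y => ⟨YP33 k x y, fun s => YP33_eval s x y⟩) l 0

/-- scaling of the last basis vector (and the one before for type `33`) -/
theorem diag_mul {n : ℕ} {d e : Fin n → k} (h : ∀ i, d i * e i = 1) :
    Matrix.diagonal d * Matrix.diagonal e = 1 := by
  rw [Matrix.diagonal_mul_diagonal, ← Matrix.diagonal_one]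
  congr 1
  funext i
  exact h i

/-- the scaling argument -/
theorem cl_scale {n : ℕ} {X Y X' Y' : Matrix (Fin n) (Fin n) k} {d e : Fin n → k} {l : k}
    (hcl : Cl ![X, l • Y, (0 : Matrix (Fin n) (Fin n) k)]) (hde : ∀ i, d i * e i = 1)
    (hX : ∀ i j, X' i j = e i * X i j * d j) (hY : ∀ i j, Y' i j = e i * (l * Y i j) * d j) :
    Cl ![X', Y', (0 : Matrix (Fin n) (Fin n) k)] := by
  have h1 : Matrix.diagonal e * Matrix.diagonal d = 1 :=
    diag_mul fun i => by rw [mul_comm]; exact hde i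
  have h := hcl.conj (Matrix.diagonal e) (Matrix.diagonal d) h1 (diag_mul hde)
  have h2 : ![X', Y', (0 : Matrix (Fin n) (Fin n) k)] = fun i =>
      Matrix.diagonal e * ![X, l • Y, (0 : Matrix (Fin n) (Fin n) k)] i * Matrix.diagonal d := by
    funext i
    fin_cases i
    · change X' = Matrix.diagonal e * X * Matrix.diagonal d
      ext x y
      rw [Matrix.mul_diagonal, Matrix.diagonal_mul, hX]
    · change Y' = Matrix.diagonal e * (l • Y) * Matrix.diagonal d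
      ext x y
      rw [Matrix.mul_diagonal, Matrix.diagonal_mul, hY, Matrix.smul_apply, smul_eq_mul]
    · change (0 : Matrix (Fin n) (Fin n) k) = Matrix.diagonal e * 0 * Matrix.diagonal d
      rw [Matrix.mul_zero, Matrix.zero_mul]
  rw [h2]
  exact h

end

end NodeSAux

open NodeSAux

variable {k : Type*} [Field k] [IsAlgClosed k] [CharZero k]

omit [CharZero k] in
theorem NodeSAux.exists_root {c : k} (hc : c ≠ 0) {m : ℕ} (hm : 0 < m) : ∃ l : k, l ^ m = c ∧ l ≠ 0 := by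
  obtain ⟨l, hl⟩ := IsAlgClosed.exists_pow_nat_eq c hm
  refine ⟨l, hl, ?_⟩
  rintro rfl
  apply hc
  rw [← hl, zero_pow hm.ne']

theorem cl_n22 (c : k) (hc : c ≠ 0) : Cl ![J31 k, B31 1 c, 0] := by
  obtain ⟨l, hl, hl0⟩ := exists_root (neg_ne_zero.2 hc) (m := 2) (by norm_num)
  have : Infinite k := IsAlgClosed.instInfinite
  refine cl_scale (cl22 l) (d := ![1, 1, 1, l]) (e := ![1, 1, 1, l⁻¹]) ?_ ?_ ?_
  · intro i
    fin_cases i <;> simp [hl0]
  · intro i j
    fin_cases i <;> fin_cases j <;> simp [J31, Xn22]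
  · intro i j
    fin_cases i <;> fin_cases j <;> simp [B31, Yn22, hl0]
    linear_combination hl

theorem cl_n32 (c : k) (hc : c ≠ 0) : Cl ![J41 k, B41 1 c, 0] := by
  obtain ⟨l, hl, hl0⟩ := exists_root hc (m := 2) (by norm_num)
  have : Infinite k := IsAlgClosed.instInfinite
  refine cl_scale (cl32 l) (d := ![1, 1, 1, 1, l]) (e := ![1, 1, 1, 1, l⁻¹]) ?_ ?_ ?_
  · intro i
    fin_cases i <;> simp [hl0]
  · intro i j
    fin_cases i <;> fin_cases j <;> simp [J41, Xn32]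
  · intro i j
    fin_cases i <;> fin_cases j <;> simp [B41, Yn32, hl0]
    linear_combination -hl

theorem cl_n42 (c : k) (hc : c ≠ 0) : Cl ![J51 k, B51 1 c, 0] := by
  obtain ⟨l, hl, hl0⟩ := exists_root (neg_ne_zero.2 hc) (m := 2) (by norm_num)
  have : Infinite k := IsAlgClosed.instInfinite
  refine cl_scale (cl42 l) (d := ![1, 1, 1, 1, 1, l]) (e := ![1, 1, 1, 1, 1, l⁻¹]) ?_ ?_ ?_
  · intro i
    fin_cases i <;> simp [hl0]
  · intro i j
    fin_cases i <;> fin_cases j <;> simp [J51, Xn42]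
  · intro i j
    fin_cases i <;> fin_cases j <;> simp [B51, Yn42, hl0]
    linear_combination hl

theorem cl_n33 (c : k) (hc : c ≠ 0) : Cl (Nd33 c) := by
  obtain ⟨l, hl, hl0⟩ := exists_root hc (m := 3) (by norm_num)
  have : Infinite k := IsAlgClosed.instInfinite
  refine cl_scale (cl33 l) (d := ![1, 1, 1, 1, l, l ^ 2])
    (e := ![1, 1, 1, 1, l⁻¹, (l ^ 2)⁻¹]) ?_ ?_ ?_
  · intro i
    fin_cases i <;> simp [hl0]
  · intro i j
    fin_cases i <;> fin_cases j <;> simp [Xn33]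
  · intro i j
    fin_cases i <;> fin_cases j <;> simp [Yn33, hl0]
    · linear_combination -hl
    · field_simp

end Pool.Agent.Lib.D7
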