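import Pool.Agent.Lib.D7.Api
import Pool.Agent.Lib.D7.NodeS

/-!
# MP_5dcbc3_ag: Jordan types `(3, 1)`, `(4, 1)`, `(5, 1)`
-/

namespace Pool.Agent.Lib.D7

open Matrix Pool.Agent.Lib.Q5dc

variable {k : Type*} [Field k]

namespace T31SAux

theorem pow_mulVec {n : Type*} [Fintype n] [DecidableEq n] {M : Matrix n n k} {v : n → k} {c : k}
    (hv : M *ᵥ v = c • v) (i : ℕ) : (M ^ i) *ᵥ v = c ^ i • v := by
  induction i with
  | zero => simp
  | succ i ih =>
    rw [pow_succ, ← Matrix.mulVec_mulVec, hv, Matrix.mulVec_smul, ih, smul_smul, pow_succ,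
      mul_comm]

theorem eig_zero {n : Type*} [Fintype n] [DecidableEq n] {M : Matrix n n k} (hM : IsNilpotent M)
    {v : n → k} {c : k} (hv : M *ᵥ v = c • v) (hne : v ≠ 0) : c = 0 := by
  obtain ⟨i, hi⟩ := hM
  have h1 := pow_mulVec hv i
  rw [hi, Matrix.zero_mulVec] at h1
  rcases smul_eq_zero.1 h1.symm with h2 | h2
  · exact eq_zero_of_pow_eq_zero h2
  · exact absurd h2 hne

theorem prop {c b c' b' : k} (h : b * c' = b' * c) :
    ∃ c0 b0 l m : k, c = l * c0 ∧ b = l * b0 ∧ c' = m * c0 ∧ b' = m * b0 := by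
  by_cases hc : c = 0
  · subst hc
    by_cases hb : b = 0
    · subst hb
      exact ⟨c', b', 0, 1, by ring, by ring, by ring, by ring⟩
    · have h1 : c' = 0 := by
        rw [mul_zero] at h
        exact (mul_eq_zero.1 h).resolve_left hb
      exact ⟨0, b, 1, b' / b, by ring, by ring, by rw [h1]; ring, by field_simp⟩
  · refine ⟨c, b, 1, c' / c, by ring, by ring, by field_simp, ?_⟩
    field_simp
    linear_combination -h

theorem cl_polyFam [IsAlgClosed k] {n : Type*} [Fintype n] [DecidableEq n]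
    {c : k → Fin 3 → Matrix n n k}
    (hc : PolyFam c) (h : {s | Cl (c s)}.Infinite) (s : k) : Cl (c s) := by
  choose p hp using hc
  have h1 : ∀ s, (fun i => Matrix.of fun x y => (p i x y).eval s) = c s := by
    intro s
    funext i
    ext x y
    exact (hp i x y s).symm
  rw [← h1 s]
  refine Cl.curve p ?_ s
  simpa only [h1] using h

/-- the nilpotent matrices commuting with `J31` -/
def S31 (p1 p2 c b : k) : Matrix (Fin 4) (Fin 4) k :=
  !![0, 0, 0, 0;
     p1, 0, 0, 0;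
     p2, p1, 0, b;
     c, 0, 0, 0]

theorem shape31 {M : Matrix (Fin 4) (Fin 4) k} (hc : J31 k * M = M * J31 k) (hn : IsNilpotent M) :
    ∃ p1 p2 c b : k, M = S31 p1 p2 c b := by
  have h : ∀ i j, (J31 k * M) i j = (M * J31 k) i j := fun i j => by rw [hc]
  simp only [Matrix.mul_apply, J31, Fin.sum_univ_succ] at h
  have h00 : 0 = M 0 1 := by simpa using h 0 0
  have h01 : 0 = M 0 2 := by simpa using h 0 1
  have h10 : M 0 0 = M 1 1 := by simpa using h 1 0
  have h11 : M 0 1 = M 1 2 := by simpa using h 1 1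
  have h12 : M 0 2 = 0 := by simpa using h 1 2
  have h13 : M 0 3 = 0 := by simpa using h 1 3
  have h20 : M 1 0 = M 2 1 := by simpa using h 2 0
  have h21 : M 1 1 = M 2 2 := by simpa using h 2 1
  have h22 : M 1 2 = 0 := by simpa using h 2 2
  have h23 : M 1 3 = 0 := by simpa using h 2 3
  have h30 : 0 = M 3 1 := by simpa using h 3 0
  have h31 : 0 = M 3 2 := by simpa using h 3 1
  clear h
  have k00 : M 0 0 = 0 := by
    refine eig_zero hn (v := Pi.single 2 1) ?_ (by
      intro h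
      have := congrFun h 2
      simp at this)
    funext i
    rw [Matrix.mulVec_single_one, Matrix.col_apply]
    fin_cases i <;> simp <;> grind
  have knn : M 3 3 = 0 := by
    by_contra hne
    refine hne (eig_zero hn
      (v := fun i => if i = 3 then M 3 3 else if i = 2 then M 2 3 else 0) ?_ (by
      intro h
      have := congrFun h 3
      simp at this
      exact hne this))
    funext i
    rw [Matrix.mulVec, dotProduct]
    simp only [Fin.sum_univ_succ]
    fin_cases i <;> simp <;> grind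
  refine ⟨M 1 0, M 2 0, M 3 0, M 2 3, ?_⟩
  ext i j
  fin_cases i <;> fin_cases j <;> simp [S31] <;> grind

theorem J_mul31 (p1 p2 : k) :
    J31 k * S31 p1 p2 0 0 = S31 0 p1 0 0 := by
  ext i j
  rw [Matrix.mul_apply]
  fin_cases i <;> fin_cases j <;> simp [J31, S31, Fin.sum_univ_succ]

theorem S_eq31 (p1 p2 c b : k) : S31 p1 p2 c b =
    p1 • S31 1 0 0 0 + p2 • S31 0 1 0 0 +
      B31 c b := by
  ext i j
  fin_cases i <;> fin_cases j <;> simp [B31, S31]

theorem J_eq31 : J31 k = S31 1 0 0 0 := rfl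

theorem S_mem31 {A : NonUnitalSubalgebra k (Matrix (Fin 4) (Fin 4) k)} (hJ : J31 k ∈ A)
    {c b : k} (hB : B31 c b ∈ A) (p1 p2 : k) : S31 p1 p2 c b ∈ A := by
  have h1 : S31 1 0 0 0 ∈ A := by rw [← J_eq31]; exact hJ
  have h2 : S31 0 1 0 0 ∈ A := by
    rw [← J_mul31 1 0]; exact mul_mem hJ h1
  rw [S_eq31]
  exact add_mem (add_mem (SMulMemClass.smul_mem _ h1) (SMulMemClass.smul_mem _ h2)) hB

theorem rel31 {p1 p2 c b p1' p2' c' b' : k}
    (h : S31 p1 p2 c b * S31 p1' p2' c' b' =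
      S31 p1' p2' c' b' * S31 p1 p2 c b) : b * c' = b' * c := by
  have h1 := congrFun (congrFun h 2) 0
  simp [Matrix.mul_apply, S31, Fin.sum_univ_succ] at h1
  linear_combination h1

theorem cl_xy31 [IsAlgClosed k] [CharZero k] {x y : k} (hx : x ≠ 0) (hy : y ≠ 0) :
    Cl ![J31 k, B31 x y, 0] := by
  let g : Matrix (Fin 4) (Fin 4) k := Matrix.diagonal ![1, 1, 1, x]
  let h : Matrix (Fin 4) (Fin 4) k := Matrix.diagonal ![1, 1, 1, x⁻¹]
  have hgh : g * h = 1 := by
    simp only [g, h, Matrix.diagonal_mul_diagonal, ← Matrix.diagonal_one]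
    congr 1
    funext i
    fin_cases i <;> simp [hx]
  have hhg : h * g = 1 := by
    simp only [g, h, Matrix.diagonal_mul_diagonal, ← Matrix.diagonal_one]
    congr 1
    funext i
    fin_cases i <;> simp [hx]
  have hcl := Cl.conj g h hgh hhg (cl_n22 (x * y) (mul_ne_zero hx hy))
  have he : (fun i => g * (![J31 k, B31 1 (x * y), 0] i) * h) = ![J31 k, B31 x y, 0] := by
    funext i
    fin_cases i
    · ext i j
      simp only [g, h, Matrix.mul_diagonal, Matrix.diagonal_mul]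
      fin_cases i <;> fin_cases j <;> simp [J31]
    · ext i j
      simp only [g, h, Matrix.mul_diagonal, Matrix.diagonal_mul]
      fin_cases i <;> fin_cases j <;> simp [B31]
      field_simp
    · simp
  rwa [he] at hcl

theorem cl_all31 [IsAlgClosed k] [CharZero k] {c b c' b' : k} (h : b * c' = b' * c) :
    Cl ![J31 k, B31 c b, B31 c' b'] := by
  obtain ⟨c0, b0, l, m, rfl, rfl, rfl, rfl⟩ := prop h
  have h1 := cl_polyFam (PolyFam.line
    ![J31 k, B31 (l * c0) (l * b0), B31 (m * c0) (m * b0)]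
    ![0, B31 l l, B31 m m]) ?_ 0
  · simpa using h1
  · have hfin : ({-c0, -b0} : Set k).Finite := by simp
    refine (hfin.infinite_compl).mono ?_
    intro s hs
    have hx : c0 + s ≠ 0 := by
      intro h0
      apply hs
      left
      linear_combination h0
    have hy : b0 + s ≠ 0 := by
      intro h0
      apply hs
      right
      change s = -b0
      linear_combination h0
    refine cl_of_adj ?_ (cl_xy31 hx hy)
    have hJ : J31 k ∈ adj ![J31 k, B31 (c0 + s) (b0 + s), 0] :=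
      mem_adj ![J31 k, B31 (c0 + s) (b0 + s), 0] 0
    have hB : B31 (c0 + s) (b0 + s) ∈ adj ![J31 k, B31 (c0 + s) (b0 + s), 0] :=
      mem_adj ![J31 k, B31 (c0 + s) (b0 + s), 0] 1
    have hl : ∀ l : k, B31 (l * c0) (l * b0) + s • B31 l l =
        l • B31 (c0 + s) (b0 + s) := by
      intro l
      ext i j
      fin_cases i <;> fin_cases j <;> simp [B31] <;> ring
    intro i
    fin_cases i
    · change J31 k + s • (0 : Matrix (Fin 4) (Fin 4) k) ∈ _
      rw [smul_zero, add_zero]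
      exact hJ
    · change B31 (l * c0) (l * b0) + s • B31 l l ∈ _
      rw [hl]
      exact SMulMemClass.smul_mem l hB
    · change B31 (m * c0) (m * b0) + s • B31 m m ∈ _
      rw [hl]
      exact SMulMemClass.smul_mem m hB

/-- the nilpotent matrices commuting with `J41` -/
def S41 (p1 p2 p3 c b : k) : Matrix (Fin 5) (Fin 5) k :=
  !![0, 0, 0, 0, 0;
     p1, 0, 0, 0, 0;
     p2, p1, 0, 0, 0;
     p3, p2, p1, 0, b;
     c, 0, 0, 0, 0]

theorem shape41 {M : Matrix (Fin 5) (Fin 5) k} (hc : J41 k * M = M * J41 k) (hn : IsNilpotent M) :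
    ∃ p1 p2 p3 c b : k, M = S41 p1 p2 p3 c b := by
  have h : ∀ i j, (J41 k * M) i j = (M * J41 k) i j := fun i j => by rw [hc]
  simp only [Matrix.mul_apply, J41, Fin.sum_univ_succ] at h
  have h00 : 0 = M 0 1 := by simpa using h 0 0
  have h01 : 0 = M 0 2 := by simpa using h 0 1
  have h02 : 0 = M 0 3 := by simpa using h 0 2
  have h10 : M 0 0 = M 1 1 := by simpa using h 1 0
  have h11 : M 0 1 = M 1 2 := by simpa using h 1 1
  have h12 : M 0 2 = M 1 3 := by simpa using h 1 2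
  have h13 : M 0 3 = 0 := by simpa using h 1 3
  have h14 : M 0 4 = 0 := by simpa using h 1 4
  have h20 : M 1 0 = M 2 1 := by simpa using h 2 0
  have h21 : M 1 1 = M 2 2 := by simpa using h 2 1
  have h22 : M 1 2 = M 2 3 := by simpa using h 2 2
  have h23 : M 1 3 = 0 := by simpa using h 2 3
  have h24 : M 1 4 = 0 := by simpa using h 2 4
  have h30 : M 2 0 = M 3 1 := by simpa using h 3 0
  have h31 : M 2 1 = M 3 2 := by simpa using h 3 1
  have h32 : M 2 2 = M 3 3 := by simpa using h 3 2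
  have h33 : M 2 3 = 0 := by simpa using h 3 3
  have h34 : M 2 4 = 0 := by simpa using h 3 4
  have h40 : 0 = M 4 1 := by simpa using h 4 0
  have h41 : 0 = M 4 2 := by simpa using h 4 1
  have h42 : 0 = M 4 3 := by simpa using h 4 2
  clear h
  have k00 : M 0 0 = 0 := by
    refine eig_zero hn (v := Pi.single 3 1) ?_ (by
      intro h
      have := congrFun h 3
      simp at this)
    funext i
    rw [Matrix.mulVec_single_one, Matrix.col_apply]
    fin_cases i <;> simp <;> grind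
  have knn : M 4 4 = 0 := by
    by_contra hne
    refine hne (eig_zero hn
      (v := fun i => if i = 4 then M 4 4 else if i = 3 then M 3 4 else 0) ?_ (by
      intro h
      have := congrFun h 4
      simp at this
      exact hne this))
    funext i
    rw [Matrix.mulVec, dotProduct]
    simp only [Fin.sum_univ_succ]
    fin_cases i <;> simp <;> grind
  refine ⟨M 1 0, M 2 0, M 3 0, M 4 0, M 3 4, ?_⟩
  ext i j
  fin_cases i <;> fin_cases j <;> simp [S41] <;> grind

theorem J_mul41 (p1 p2 p3 : k) :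
    J41 k * S41 p1 p2 p3 0 0 = S41 0 p1 p2 0 0 := by
  ext i j
  rw [Matrix.mul_apply]
  fin_cases i <;> fin_cases j <;> simp [J41, S41, Fin.sum_univ_succ]

theorem S_eq41 (p1 p2 p3 c b : k) : S41 p1 p2 p3 c b =
    p1 • S41 1 0 0 0 0 + p2 • S41 0 1 0 0 0 + p3 • S41 0 0 1 0 0 +
      B41 c b := by
  ext i j
  fin_cases i <;> fin_cases j <;> simp [B41, S41]

theorem J_eq41 : J41 k = S41 1 0 0 0 0 := rfl

theorem S_mem41 {A : NonUnitalSubalgebra k (Matrix (Fin 5) (Fin 5) k)} (hJ : J41 k ∈ A)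
    {c b : k} (hB : B41 c b ∈ A) (p1 p2 p3 : k) : S41 p1 p2 p3 c b ∈ A := by
  have h1 : S41 1 0 0 0 0 ∈ A := by rw [← J_eq41]; exact hJ
  have h2 : S41 0 1 0 0 0 ∈ A := by
    rw [← J_mul41 1 0 0]; exact mul_mem hJ h1
  have h3 : S41 0 0 1 0 0 ∈ A := by
    rw [← J_mul41 0 1 0]; exact mul_mem hJ h2
  rw [S_eq41]
  exact add_mem (add_mem (add_mem (SMulMemClass.smul_mem _ h1) (SMulMemClass.smul_mem _ h2)) (SMulMemClass.smul_mem _ h3)) hB

theorem rel41 {p1 p2 p3 c b p1' p2' p3' c' b' : k}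
    (h : S41 p1 p2 p3 c b * S41 p1' p2' p3' c' b' =
      S41 p1' p2' p3' c' b' * S41 p1 p2 p3 c b) : b * c' = b' * c := by
  have h1 := congrFun (congrFun h 3) 0
  simp [Matrix.mul_apply, S41, Fin.sum_univ_succ] at h1
  linear_combination h1

theorem cl_xy41 [IsAlgClosed k] [CharZero k] {x y : k} (hx : x ≠ 0) (hy : y ≠ 0) :
    Cl ![J41 k, B41 x y, 0] := by
  let g : Matrix (Fin 5) (Fin 5) k := Matrix.diagonal ![1, 1, 1, 1, x]
  let h : Matrix (Fin 5) (Fin 5) k := Matrix.diagonal ![1, 1, 1, 1, x⁻¹]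
  have hgh : g * h = 1 := by
    simp only [g, h, Matrix.diagonal_mul_diagonal, ← Matrix.diagonal_one]
    congr 1
    funext i
    fin_cases i <;> simp [hx]
  have hhg : h * g = 1 := by
    simp only [g, h, Matrix.diagonal_mul_diagonal, ← Matrix.diagonal_one]
    congr 1
    funext i
    fin_cases i <;> simp [hx]
  have hcl := Cl.conj g h hgh hhg (cl_n32 (x * y) (mul_ne_zero hx hy))
  have he : (fun i => g * (![J41 k, B41 1 (x * y), 0] i) * h) = ![J41 k, B41 x y, 0] := by
    funext i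
    fin_cases i
    · ext i j
      simp only [g, h, Matrix.mul_diagonal, Matrix.diagonal_mul]
      fin_cases i <;> fin_cases j <;> simp [J41]
    · ext i j
      simp only [g, h, Matrix.mul_diagonal, Matrix.diagonal_mul]
      fin_cases i <;> fin_cases j <;> simp [B41]
      field_simp
    · simp
  rwa [he] at hcl

theorem cl_all41 [IsAlgClosed k] [CharZero k] {c b c' b' : k} (h : b * c' = b' * c) :
    Cl ![J41 k, B41 c b, B41 c' b'] := by
  obtain ⟨c0, b0, l, m, rfl, rfl, rfl, rfl⟩ := prop h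
  have h1 := cl_polyFam (PolyFam.line
    ![J41 k, B41 (l * c0) (l * b0), B41 (m * c0) (m * b0)]
    ![0, B41 l l, B41 m m]) ?_ 0
  · simpa using h1
  · have hfin : ({-c0, -b0} : Set k).Finite := by simp
    refine (hfin.infinite_compl).mono ?_
    intro s hs
    have hx : c0 + s ≠ 0 := by
      intro h0
      apply hs
      left
      linear_combination h0
    have hy : b0 + s ≠ 0 := by
      intro h0
      apply hs
      right
      change s = -b0
      linear_combination h0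
    refine cl_of_adj ?_ (cl_xy41 hx hy)
    have hJ : J41 k ∈ adj ![J41 k, B41 (c0 + s) (b0 + s), 0] :=
      mem_adj ![J41 k, B41 (c0 + s) (b0 + s), 0] 0
    have hB : B41 (c0 + s) (b0 + s) ∈ adj ![J41 k, B41 (c0 + s) (b0 + s), 0] :=
      mem_adj ![J41 k, B41 (c0 + s) (b0 + s), 0] 1
    have hl : ∀ l : k, B41 (l * c0) (l * b0) + s • B41 l l =
        l • B41 (c0 + s) (b0 + s) := by
      intro l
      ext i j
      fin_cases i <;> fin_cases j <;> simp [B41] <;> ring
    intro i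
    fin_cases i
    · change J41 k + s • (0 : Matrix (Fin 5) (Fin 5) k) ∈ _
      rw [smul_zero, add_zero]
      exact hJ
    · change B41 (l * c0) (l * b0) + s • B41 l l ∈ _
      rw [hl]
      exact SMulMemClass.smul_mem l hB
    · change B41 (m * c0) (m * b0) + s • B41 m m ∈ _
      rw [hl]
      exact SMulMemClass.smul_mem m hB

/-- the nilpotent matrices commuting with `J51` -/
def S51 (p1 p2 p3 p4 c b : k) : Matrix (Fin 6) (Fin 6) k :=
  !![0, 0, 0, 0, 0, 0;
     p1, 0, 0, 0, 0, 0;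
     p2, p1, 0, 0, 0, 0;
     p3, p2, p1, 0, 0, 0;
     p4, p3, p2, p1, 0, b;
     c, 0, 0, 0, 0, 0]

theorem shape51 {M : Matrix (Fin 6) (Fin 6) k} (hc : J51 k * M = M * J51 k) (hn : IsNilpotent M) :
    ∃ p1 p2 p3 p4 c b : k, M = S51 p1 p2 p3 p4 c b := by
  have h : ∀ i j, (J51 k * M) i j = (M * J51 k) i j := fun i j => by rw [hc]
  simp only [Matrix.mul_apply, J51, Fin.sum_univ_succ] at h
  have h00 : 0 = M 0 1 := by simpa using h 0 0
  have h01 : 0 = M 0 2 := by simpa using h 0 1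
  have h02 : 0 = M 0 3 := by simpa using h 0 2
  have h03 : 0 = M 0 4 := by simpa using h 0 3
  have h10 : M 0 0 = M 1 1 := by simpa using h 1 0
  have h11 : M 0 1 = M 1 2 := by simpa using h 1 1
  have h12 : M 0 2 = M 1 3 := by simpa using h 1 2
  have h13 : M 0 3 = M 1 4 := by simpa using h 1 3
  have h14 : M 0 4 = 0 := by simpa using h 1 4
  have h15 : M 0 5 = 0 := by simpa using h 1 5
  have h20 : M 1 0 = M 2 1 := by simpa using h 2 0
  have h21 : M 1 1 = M 2 2 := by simpa using h 2 1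
  have h22 : M 1 2 = M 2 3 := by simpa using h 2 2
  have h23 : M 1 3 = M 2 4 := by simpa using h 2 3
  have h24 : M 1 4 = 0 := by simpa using h 2 4
  have h25 : M 1 5 = 0 := by simpa using h 2 5
  have h30 : M 2 0 = M 3 1 := by simpa using h 3 0
  have h31 : M 2 1 = M 3 2 := by simpa using h 3 1
  have h32 : M 2 2 = M 3 3 := by simpa using h 3 2
  have h33 : M 2 3 = M 3 4 := by simpa using h 3 3
  have h34 : M 2 4 = 0 := by simpa using h 3 4
  have h35 : M 2 5 = 0 := by simpa using h 3 5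
  have h40 : M 3 0 = M 4 1 := by simpa using h 4 0
  have h41 : M 3 1 = M 4 2 := by simpa using h 4 1
  have h42 : M 3 2 = M 4 3 := by simpa using h 4 2
  have h43 : M 3 3 = M 4 4 := by simpa using h 4 3
  have h44 : M 3 4 = 0 := by simpa using h 4 4
  have h45 : M 3 5 = 0 := by simpa using h 4 5
  have h50 : 0 = M 5 1 := by simpa using h 5 0
  have h51 : 0 = M 5 2 := by simpa using h 5 1
  have h52 : 0 = M 5 3 := by simpa using h 5 2
  have h53 : 0 = M 5 4 := by simpa using h 5 3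
  clear h
  have k00 : M 0 0 = 0 := by
    refine eig_zero hn (v := Pi.single 4 1) ?_ (by
      intro h
      have := congrFun h 4
      simp at this)
    funext i
    rw [Matrix.mulVec_single_one, Matrix.col_apply]
    fin_cases i <;> simp <;> grind
  have knn : M 5 5 = 0 := by
    by_contra hne
    refine hne (eig_zero hn
      (v := fun i => if i = 5 then M 5 5 else if i = 4 then M 4 5 else 0) ?_ (by
      intro h
      have := congrFun h 5
      simp at this
      exact hne this))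
    funext i
    rw [Matrix.mulVec, dotProduct]
    simp only [Fin.sum_univ_succ]
    fin_cases i <;> simp <;> grind
  refine ⟨M 1 0, M 2 0, M 3 0, M 4 0, M 5 0, M 4 5, ?_⟩
  ext i j
  fin_cases i <;> fin_cases j <;> simp [S51] <;> grind

theorem J_mul51 (p1 p2 p3 p4 : k) :
    J51 k * S51 p1 p2 p3 p4 0 0 = S51 0 p1 p2 p3 0 0 := by
  ext i j
  rw [Matrix.mul_apply]
  fin_cases i <;> fin_cases j <;> simp [J51, S51, Fin.sum_univ_succ]

theorem S_eq51 (p1 p2 p3 p4 c b : k) : S51 p1 p2 p3 p4 c b =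
    p1 • S51 1 0 0 0 0 0 + p2 • S51 0 1 0 0 0 0 + p3 • S51 0 0 1 0 0 0 + p4 • S51 0 0 0 1 0 0 +
      B51 c b := by
  ext i j
  fin_cases i <;> fin_cases j <;> simp [B51, S51]

theorem J_eq51 : J51 k = S51 1 0 0 0 0 0 := rfl

theorem S_mem51 {A : NonUnitalSubalgebra k (Matrix (Fin 6) (Fin 6) k)} (hJ : J51 k ∈ A)
    {c b : k} (hB : B51 c b ∈ A) (p1 p2 p3 p4 : k) : S51 p1 p2 p3 p4 c b ∈ A := by
  have h1 : S51 1 0 0 0 0 0 ∈ A := by rw [← J_eq51]; exact hJ
  have h2 : S51 0 1 0 0 0 0 ∈ A := by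
    rw [← J_mul51 1 0 0 0]; exact mul_mem hJ h1
  have h3 : S51 0 0 1 0 0 0 ∈ A := by
    rw [← J_mul51 0 1 0 0]; exact mul_mem hJ h2
  have h4 : S51 0 0 0 1 0 0 ∈ A := by
    rw [← J_mul51 0 0 1 0]; exact mul_mem hJ h3
  rw [S_eq51]
  exact add_mem (add_mem (add_mem (add_mem (SMulMemClass.smul_mem _ h1) (SMulMemClass.smul_mem _ h2)) (SMulMemClass.smul_mem _ h3)) (SMulMemClass.smul_mem _ h4)) hB

theorem rel51 {p1 p2 p3 p4 c b p1' p2' p3' p4' c' b' : k}
    (h : S51 p1 p2 p3 p4 c b * S51 p1' p2' p3' p4' c' b' =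
      S51 p1' p2' p3' p4' c' b' * S51 p1 p2 p3 p4 c b) : b * c' = b' * c := by
  have h1 := congrFun (congrFun h 4) 0
  simp [Matrix.mul_apply, S51, Fin.sum_univ_succ] at h1
  linear_combination h1

theorem cl_xy51 [IsAlgClosed k] [CharZero k] {x y : k} (hx : x ≠ 0) (hy : y ≠ 0) :
    Cl ![J51 k, B51 x y, 0] := by
  let g : Matrix (Fin 6) (Fin 6) k := Matrix.diagonal ![1, 1, 1, 1, 1, x]
  let h : Matrix (Fin 6) (Fin 6) k := Matrix.diagonal ![1, 1, 1, 1, 1, x⁻¹]
  have hgh : g * h = 1 := by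
    simp only [g, h, Matrix.diagonal_mul_diagonal, ← Matrix.diagonal_one]
    congr 1
    funext i
    fin_cases i <;> simp [hx]
  have hhg : h * g = 1 := by
    simp only [g, h, Matrix.diagonal_mul_diagonal, ← Matrix.diagonal_one]
    congr 1
    funext i
    fin_cases i <;> simp [hx]
  have hcl := Cl.conj g h hgh hhg (cl_n42 (x * y) (mul_ne_zero hx hy))
  have he : (fun i => g * (![J51 k, B51 1 (x * y), 0] i) * h) = ![J51 k, B51 x y, 0] := by
    funext i
    fin_cases i
    · ext i j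
      simp only [g, h, Matrix.mul_diagonal, Matrix.diagonal_mul]
      fin_cases i <;> fin_cases j <;> simp [J51]
    · ext i j
      simp only [g, h, Matrix.mul_diagonal, Matrix.diagonal_mul]
      fin_cases i <;> fin_cases j <;> simp [B51]
      field_simp
    · simp
  rwa [he] at hcl

theorem cl_all51 [IsAlgClosed k] [CharZero k] {c b c' b' : k} (h : b * c' = b' * c) :
    Cl ![J51 k, B51 c b, B51 c' b'] := by
  obtain ⟨c0, b0, l, m, rfl, rfl, rfl, rfl⟩ := prop h
  have h1 := cl_polyFam (PolyFam.line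
    ![J51 k, B51 (l * c0) (l * b0), B51 (m * c0) (m * b0)]
    ![0, B51 l l, B51 m m]) ?_ 0
  · simpa using h1
  · have hfin : ({-c0, -b0} : Set k).Finite := by simp
    refine (hfin.infinite_compl).mono ?_
    intro s hs
    have hx : c0 + s ≠ 0 := by
      intro h0
      apply hs
      left
      linear_combination h0
    have hy : b0 + s ≠ 0 := by
      intro h0
      apply hs
      right
      change s = -b0
      linear_combination h0
    refine cl_of_adj ?_ (cl_xy51 hx hy)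
    have hJ : J51 k ∈ adj ![J51 k, B51 (c0 + s) (b0 + s), 0] :=
      mem_adj ![J51 k, B51 (c0 + s) (b0 + s), 0] 0
    have hB : B51 (c0 + s) (b0 + s) ∈ adj ![J51 k, B51 (c0 + s) (b0 + s), 0] :=
      mem_adj ![J51 k, B51 (c0 + s) (b0 + s), 0] 1
    have hl : ∀ l : k, B51 (l * c0) (l * b0) + s • B51 l l =
        l • B51 (c0 + s) (b0 + s) := by
      intro l
      ext i j
      fin_cases i <;> fin_cases j <;> simp [B51] <;> ring
    intro i
    fin_cases i
    · change J51 k + s • (0 : Matrix (Fin 6) (Fin 6) k) ∈ _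
      rw [smul_zero, add_zero]
      exact hJ
    · change B51 (l * c0) (l * b0) + s • B51 l l ∈ _
      rw [hl]
      exact SMulMemClass.smul_mem l hB
    · change B51 (m * c0) (m * b0) + s • B51 m m ∈ _
      rw [hl]
      exact SMulMemClass.smul_mem m hB

end T31SAux

theorem no_31 [IsAlgClosed k] [CharZero k] {ρ : ℕ → ℕ} {T : Fin 3 → Matrix (Fin 4) (Fin 4) k}
    (hT : MaxR ρ T) (_hρ : ∀ i, ρ i = (J31 k ^ i).rank) (h0 : T 0 = J31 k) : False := by
  have h1 := hT.cn.1 0 1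
  have h2 := hT.cn.1 0 2
  have h3 := hT.cn.1 1 2
  rw [h0] at h1 h2
  obtain ⟨p1, p2, c, b, hB⟩ := T31SAux.shape31 h1 (hT.cn.2 1)
  obtain ⟨q1, q2, c', b', hC⟩ := T31SAux.shape31 h2 (hT.cn.2 2)
  rw [hB, hC] at h3
  refine hT.ncl (cl_of_adj ?_ (T31SAux.cl_all31 (T31SAux.rel31 h3)))
  have hJ : J31 k ∈ adj ![J31 k, B31 c b, B31 c' b'] := mem_adj ![J31 k, B31 c b, B31 c' b'] 0
  have hB1 : B31 c b ∈ adj ![J31 k, B31 c b, B31 c' b'] :=
    mem_adj ![J31 k, B31 c b, B31 c' b'] 1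
  have hC1 : B31 c' b' ∈ adj ![J31 k, B31 c b, B31 c' b'] :=
    mem_adj ![J31 k, B31 c b, B31 c' b'] 2
  intro i
  fin_cases i
  · exact h0 ▸ hJ
  · exact hB ▸ T31SAux.S_mem31 hJ hB1 p1 p2
  · exact hC ▸ T31SAux.S_mem31 hJ hC1 q1 q2

theorem no_41 [IsAlgClosed k] [CharZero k] {ρ : ℕ → ℕ} {T : Fin 3 → Matrix (Fin 5) (Fin 5) k}
    (hT : MaxR ρ T) (_hρ : ∀ i, ρ i = (J41 k ^ i).rank) (h0 : T 0 = J41 k) : False := by
  have h1 := hT.cn.1 0 1
  have h2 := hT.cn.1 0 2
  have h3 := hT.cn.1 1 2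
  rw [h0] at h1 h2
  obtain ⟨p1, p2, p3, c, b, hB⟩ := T31SAux.shape41 h1 (hT.cn.2 1)
  obtain ⟨q1, q2, q3, c', b', hC⟩ := T31SAux.shape41 h2 (hT.cn.2 2)
  rw [hB, hC] at h3
  refine hT.ncl (cl_of_adj ?_ (T31SAux.cl_all41 (T31SAux.rel41 h3)))
  have hJ : J41 k ∈ adj ![J41 k, B41 c b, B41 c' b'] := mem_adj ![J41 k, B41 c b, B41 c' b'] 0
  have hB1 : B41 c b ∈ adj ![J41 k, B41 c b, B41 c' b'] :=
    mem_adj ![J41 k, B41 c b, B41 c' b'] 1
  have hC1 : B41 c' b' ∈ adj ![J41 k, B41 c b, B41 c' b'] :=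
    mem_adj ![J41 k, B41 c b, B41 c' b'] 2
  intro i
  fin_cases i
  · exact h0 ▸ hJ
  · exact hB ▸ T31SAux.S_mem41 hJ hB1 p1 p2 p3
  · exact hC ▸ T31SAux.S_mem41 hJ hC1 q1 q2 q3

theorem no_51 [IsAlgClosed k] [CharZero k] {ρ : ℕ → ℕ} {T : Fin 3 → Matrix (Fin 6) (Fin 6) k}
    (hT : MaxR ρ T) (_hρ : ∀ i, ρ i = (J51 k ^ i).rank) (h0 : T 0 = J51 k) : False := by
  have h1 := hT.cn.1 0 1
  have h2 := hT.cn.1 0 2
  have h3 := hT.cn.1 1 2
  rw [h0] at h1 h2
  obtain ⟨p1, p2, p3, p4, c, b, hB⟩ := T31SAux.shape51 h1 (hT.cn.2 1)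
  obtain ⟨q1, q2, q3, q4, c', b', hC⟩ := T31SAux.shape51 h2 (hT.cn.2 2)
  rw [hB, hC] at h3
  refine hT.ncl (cl_of_adj ?_ (T31SAux.cl_all51 (T31SAux.rel51 h3)))
  have hJ : J51 k ∈ adj ![J51 k, B51 c b, B51 c' b'] := mem_adj ![J51 k, B51 c b, B51 c' b'] 0
  have hB1 : B51 c b ∈ adj ![J51 k, B51 c b, B51 c' b'] :=
    mem_adj ![J51 k, B51 c b, B51 c' b'] 1
  have hC1 : B51 c' b' ∈ adj ![J51 k, B51 c b, B51 c' b'] :=
    mem_adj ![J51 k, B51 c b, B51 c' b'] 2
  intro i
  fin_cases i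
  · exact h0 ▸ hJ
  · exact hB ▸ T31SAux.S_mem51 hJ hB1 p1 p2 p3 p4
  · exact hC ▸ T31SAux.S_mem51 hJ hC1 q1 q2 q3 q4

end Pool.Agent.Lib.D7
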