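import Pool.Agent.Lib.D7.Api
import Pool.Agent.Lib.D7.NodeS
import Pool.Agent.Lib.Q5dc.Tan

/-!
# MP_5dcbc3_ag: algebras of length 6 with Hilbert function `(1, 3, 2)`
-/

namespace Pool.Agent.Lib.D7

open Matrix Pool.Agent.Lib.Q5dc

variable {k : Type*} [Field k]

namespace TpSAux

/-- the basis change -/
def P (t : k) : Matrix (Fin 6) (Fin 6) k :=
  !![1, 0, 0, 0, 0, 0;
     0, 0, 2 * t, 2 * t, 0, 0;
     0, 0, -(2 * t), 2 * t, 4 * t ^ 2, 4 * t ^ 2;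
     0, 0, 2 * t, 2 * t, -(8 * t ^ 2), 8 * t ^ 2;
     0, 0, -(2 * t), 2 * t, 12 * t ^ 2, 12 * t ^ 2;
     0, 1, 0, 0, 0, 0]

theorem J51_sq : J51 k * J51 k =
    !![0, 0, 0, 0, 0, 0;
     0, 0, 0, 0, 0, 0;
     1, 0, 0, 0, 0, 0;
     0, 1, 0, 0, 0, 0;
     0, 0, 1, 0, 0, 0;
     0, 0, 0, 0, 0, 0] := by
  ext i j
  fin_cases i <;> fin_cases j <;> simp [J51, Matrix.mul_apply, Fin.sum_univ_succ]

theorem J51_cu : J51 k * (J51 k * J51 k) =
    !![0, 0, 0, 0, 0, 0;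
     0, 0, 0, 0, 0, 0;
     0, 0, 0, 0, 0, 0;
     1, 0, 0, 0, 0, 0;
     0, 1, 0, 0, 0, 0;
     0, 0, 0, 0, 0, 0] := by
  rw [J51_sq]
  ext i j
  fin_cases i <;> fin_cases j <;> simp [J51, Matrix.mul_apply, Fin.sum_univ_succ]

theorem J51_four : J51 k * (J51 k * (J51 k * J51 k)) =
    !![0, 0, 0, 0, 0, 0;
     0, 0, 0, 0, 0, 0;
     0, 0, 0, 0, 0, 0;
     0, 0, 0, 0, 0, 0;
     1, 0, 0, 0, 0, 0;
     0, 0, 0, 0, 0, 0] := by
  rw [J51_cu]
  ext i j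
  fin_cases i <;> fin_cases j <;> simp [J51, Matrix.mul_apply, Fin.sum_univ_succ]

/-- the combinations of powers -/
def Q (a b c d : k) : Matrix (Fin 6) (Fin 6) k :=
  !![0, 0, 0, 0, 0, 0;
     a, 0, 0, 0, 0, 0;
     b, a, 0, 0, 0, 0;
     c, b, a, 0, 0, 0;
     d, c, b, a, 0, 0;
     0, 0, 0, 0, 0, 0]

theorem Q_eq (a b c d : k) : Q a b c d = a • J51 k + b • (J51 k * J51 k) +
    c • (J51 k * (J51 k * J51 k)) + d • (J51 k * (J51 k * (J51 k * J51 k))) := by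
  rw [J51_four, J51_cu, J51_sq]
  ext i j
  fin_cases i <;> fin_cases j <;> simp [J51, Q]

theorem Q_mem {A : NonUnitalSubalgebra k (Matrix (Fin 6) (Fin 6) k)} (hJ : J51 k ∈ A)
    (a b c d : k) : Q a b c d ∈ A := by
  rw [Q_eq]
  exact add_mem (add_mem (add_mem (SMulMemClass.smul_mem _ hJ)
    (SMulMemClass.smul_mem _ (mul_mem hJ hJ)))
    (SMulMemClass.smul_mem _ (mul_mem hJ (mul_mem hJ hJ))))
    (SMulMemClass.smul_mem _ (mul_mem hJ (mul_mem hJ (mul_mem hJ hJ))))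

theorem P_X (t : k) : P t * R321 t 0 = B51 1 (16 * t ^ 2) * P t := by
  ext i j
  fin_cases i <;> fin_cases j <;>
    simp [P, B51, R321, Matrix.mul_apply, Fin.sum_univ_succ] <;> ring

theorem P_Y (t : k) : P t * R321 t 1 = Q (2 * t) (-(2 * t)) (2 * t) (-(2 * t)) * P t := by
  ext i j
  fin_cases i <;> fin_cases j <;>
    simp [P, Q, R321, Matrix.mul_apply, Fin.sum_univ_succ] <;> ring

theorem P_Z (t : k) : P t * R321 t 2 = Q (2 * t) (2 * t) (2 * t) (2 * t) * P t := by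
  ext i j
  fin_cases i <;> fin_cases j <;>
    simp [P, Q, R321, Matrix.mul_apply, Fin.sum_univ_succ] <;> ring

/-- the inverse basis change -/
def P' (t : k) : Matrix (Fin 6) (Fin 6) k :=
  !![1, 0, 0, 0, 0, 0;
     0, 0, 0, 0, 0, 1;
     0, 1 / (4 * t), -(3 / (8 * t)), 0, 1 / (8 * t), 0;
     0, 1 / (4 * t), 3 / (8 * t), 0, -(1 / (8 * t)), 0;
     0, 1 / (16 * t ^ 2), -(1 / (16 * t ^ 2)), -(1 / (16 * t ^ 2)), 1 / (16 * t ^ 2), 0;
     0, -(1 / (16 * t ^ 2)), -(1 / (16 * t ^ 2)), 1 / (16 * t ^ 2), 1 / (16 * t ^ 2), 0]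

theorem PP' [CharZero k] {t : k} (ht : t ≠ 0) : P t * P' t = 1 := by
  ext i j
  fin_cases i <;> fin_cases j <;>
    simp [P, P', Matrix.mul_apply, Fin.sum_univ_succ] <;> field_simp <;> norm_num

theorem P'P [CharZero k] {t : k} (ht : t ≠ 0) : P' t * P t = 1 :=
  mul_eq_one_comm.1 (PP' ht)

theorem cl_R_ne [IsAlgClosed k] [CharZero k] {t : k} (ht : t ≠ 0) : Cl (R321 t) := by
  have h1 : Cl ![B51 1 (16 * t ^ 2), Q (2 * t) (-(2 * t)) (2 * t) (-(2 * t)),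
      Q (2 * t) (2 * t) (2 * t) (2 * t)] := by
    refine cl_of_adj (T' := ![J51 k, B51 1 (16 * t ^ 2), 0]) ?_
      (cl_n42 (16 * t ^ 2) (mul_ne_zero (by norm_num) (pow_ne_zero 2 ht)))
    have hJ : J51 k ∈ adj ![J51 k, B51 1 (16 * t ^ 2), 0] := mem_adj _ 0
    have hB : B51 1 (16 * t ^ 2) ∈ adj ![J51 k, B51 1 (16 * t ^ 2), 0] := mem_adj _ 1
    intro i
    fin_cases i
    · exact hB
    · exact Q_mem hJ _ _ _ _
    · exact Q_mem hJ _ _ _ _
  have h2 := Cl.conj (P' t) (P t) (P'P ht) (PP' ht) h1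
  have h3 : (fun i => P' t * (![B51 1 (16 * t ^ 2), Q (2 * t) (-(2 * t)) (2 * t) (-(2 * t)),
      Q (2 * t) (2 * t) (2 * t) (2 * t)] i) * P t) = R321 t := by
    have key : ∀ M N : Matrix (Fin 6) (Fin 6) k, P t * N = M * P t → P' t * M * P t = N := by
      intro M N h
      rw [mul_assoc, ← h, ← mul_assoc, P'P ht, one_mul]
    funext i
    fin_cases i
    · exact key _ _ (P_X t)
    · exact key _ _ (P_Y t)
    · exact key _ _ (P_Z t)
  rw [← h3]
  exact h2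

theorem cl_polyFam [Infinite k] {n : Type*} [Fintype n] [DecidableEq n]
    {c : k → Fin 3 → Matrix n n k}
    (hc : PolyFam c) (h : {s | Cl (c s)}.Infinite) (s : k) : Cl (c s) := by
  choose p hp using hc
  have h1 : ∀ s, (fun i => Matrix.of fun x y => (p i x y).eval s) = c s := by
    intro s
    funext i
    ext x y
    exact (hp i x y s).symm
  rw [← h1 s]
  refine Cl.curve p ?_ s
  simpa only [h1] using h

theorem R_poly : PolyFam fun t : k => R321 t := by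
  intro i x y
  fin_cases i <;> fin_cases x <;> fin_cases y <;> simp [R321] <;>
    first
    | exact IsPoly.const _
    | exact IsPoly.id
    | exact IsPoly.id.neg
    | exact (IsPoly.const _).mul IsPoly.id
    | exact ((IsPoly.const _).mul IsPoly.id).neg
    | exact IsPoly.id.pow 2
    | exact (IsPoly.id.pow 2).neg
    | exact (IsPoly.const _).mul (IsPoly.id.pow 2)
    | exact ((IsPoly.const _).mul (IsPoly.id.pow 2)).neg

theorem cl_R_zero [IsAlgClosed k] [CharZero k] : Cl (R321 (0 : k)) := by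
  refine cl_polyFam R_poly ?_ 0
  refine (Set.finite_singleton (0 : k)).infinite_compl.mono ?_
  intro t ht
  exact cl_R_ne ht

/-- the base point -/
def r0 : Fin 6 × Fin 2 → k := fun x => (![![1, 1], ![0, 0], ![0, 0], ![1, 0], ![0, 0], ![0, 1]] x.1) x.2

theorem R_eq : R321 (0 : k) = Tp r0 := by
  funext i
  ext x y
  fin_cases i <;> fin_cases x <;> fin_cases y <;> simp [R321, Tp, r0]

/-- first index of a pair -/
def ix : Fin 6 → Fin 3 := ![0, 0, 0, 1, 1, 2]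

/-- second index of a pair -/
def jx : Fin 6 → Fin 3 := ![0, 1, 2, 1, 2, 2]

/-- the orbit of the base point -/
def rr (G : Matrix (Fin 3) (Fin 3) k) (H : Matrix (Fin 2) (Fin 2) k) : Fin 6 × Fin 2 → k :=
  fun x => H x.2 0 * (G 0 (ix x.1) * G 0 (jx x.1) + G 1 (ix x.1) * G 1 (jx x.1)) +
    H x.2 1 * (G 0 (ix x.1) * G 0 (jx x.1) + G 2 (ix x.1) * G 2 (jx x.1))

/-- the basis changes -/
def Mx (G : Matrix (Fin 3) (Fin 3) k) (H : Matrix (Fin 2) (Fin 2) k) :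
    Matrix (Fin 6) (Fin 6) k :=
  !![1, 0, 0, 0, 0, 0;
     0, G 0 0, G 0 1, G 0 2, 0, 0;
     0, G 1 0, G 1 1, G 1 2, 0, 0;
     0, G 2 0, G 2 1, G 2 2, 0, 0;
     0, 0, 0, 0, H 0 0, H 0 1;
     0, 0, 0, 0, H 1 0, H 1 1]

theorem Mx_one : Mx (1 : Matrix (Fin 3) (Fin 3) k) 1 = 1 := by
  ext i j
  fin_cases i <;> fin_cases j <;> simp [Mx]

theorem Mx_mul (G G' : Matrix (Fin 3) (Fin 3) k) (H H' : Matrix (Fin 2) (Fin 2) k) :
    Mx G H * Mx G' H' = Mx (G * G') (H * H') := by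
  ext i j
  fin_cases i <;> fin_cases j <;> simp [Mx, Matrix.mul_apply, Fin.sum_univ_succ]

theorem Mx_G (G : Matrix (Fin 3) (Fin 3) k) (i : Fin 3) :
    (G 0 i • Tp r0 0 + G 1 i • Tp r0 1 + G 2 i • Tp r0 2) * Mx G 1 =
      Mx G 1 * Tp (rr G 1) i := by
  ext x y
  fin_cases i <;> fin_cases x <;> fin_cases y <;>
    simp [Mx, Tp, r0, rr, ix, jx, Matrix.mul_apply, Fin.sum_univ_succ] <;> ring

theorem Mx_H (G : Matrix (Fin 3) (Fin 3) k) (H : Matrix (Fin 2) (Fin 2) k) (i : Fin 3) :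
    Mx 1 H * Tp (rr G 1) i = Tp (rr G H) i * Mx 1 H := by
  ext x y
  fin_cases i <;> fin_cases x <;> fin_cases y <;>
    simp [Mx, Tp, rr, ix, jx, Matrix.mul_apply, Fin.sum_univ_succ] 

theorem cl_rr [IsAlgClosed k] [CharZero k] {G : Matrix (Fin 3) (Fin 3) k}
    {H : Matrix (Fin 2) (Fin 2) k} (hG : G.det ≠ 0) (hH : H.det ≠ 0) : Cl (Tp (rr G H)) := by
  have hG1 : G * G⁻¹ = 1 := Matrix.mul_nonsing_inv G (isUnit_iff_ne_zero.2 hG)
  have hG2 : G⁻¹ * G = 1 := Matrix.nonsing_inv_mul G (isUnit_iff_ne_zero.2 hG)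
  have hH1 : H * H⁻¹ = 1 := Matrix.mul_nonsing_inv H (isUnit_iff_ne_zero.2 hH)
  have hH2 : H⁻¹ * H = 1 := Matrix.nonsing_inv_mul H (isUnit_iff_ne_zero.2 hH)
  have h0 : Cl (Tp (r0 : Fin 6 × Fin 2 → k)) := R_eq (k := k) ▸ cl_R_zero
  have h1 : Cl (fun i : Fin 3 => G 0 i • Tp (r0 : Fin 6 × Fin 2 → k) 0 + G 1 i • Tp r0 1 +
      G 2 i • Tp r0 2) := by
    refine cl_of_adj (fun i => ?_) h0
    exact add_mem (add_mem (SMulMemClass.smul_mem _ (mem_adj _ 0))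
      (SMulMemClass.smul_mem _ (mem_adj _ 1))) (SMulMemClass.smul_mem _ (mem_adj _ 2))
  have h2 := Cl.conj (Mx G⁻¹ 1) (Mx G 1) (by rw [Mx_mul, hG2, one_mul, Mx_one])
    (by rw [Mx_mul, hG1, one_mul, Mx_one]) h1
  have h3 : (fun i => Mx G⁻¹ 1 * (G 0 i • Tp r0 0 + G 1 i • Tp r0 1 + G 2 i • Tp r0 2) *
      Mx G 1) = Tp (rr G 1) := by
    funext i
    rw [mul_assoc, Mx_G, ← mul_assoc, Mx_mul, hG2, one_mul, Mx_one, one_mul]
  rw [h3] at h2
  have h4 := Cl.conj (Mx 1 H) (Mx 1 H⁻¹) (by rw [Mx_mul, hH1, one_mul, Mx_one])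
    (by rw [Mx_mul, hH2, one_mul, Mx_one]) h2
  have h5 : (fun i => Mx 1 H * Tp (rr G 1) i * Mx 1 H⁻¹) = Tp (rr G H) := by
    funext i
    rw [Mx_H, mul_assoc, Mx_mul, hH1, one_mul, Mx_one, mul_one]
  rw [h5] at h4
  exact h4

/-- the coefficients of the base point -/
def ep : Fin 2 → Fin 3 → k := ![![1, 1, 0], ![1, 0, 1]]

/-- value at `0` -/
def q0 (m : Fin 2) (i j : Fin 3) : k :=
  ∑ l, ep m l * ((1 : Matrix (Fin 3) (Fin 3) k) l i * (1 : Matrix (Fin 3) (Fin 3) k) l j)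

/-- derivative at `0` -/
def q1 (G : Matrix (Fin 3) (Fin 3) k) (m : Fin 2) (i j : Fin 3) : k :=
  ∑ l, ep m l * ((1 : Matrix (Fin 3) (Fin 3) k) l i * G l j +
    G l i * (1 : Matrix (Fin 3) (Fin 3) k) l j)

/-- second coefficient -/
def q2 (G : Matrix (Fin 3) (Fin 3) k) (m : Fin 2) (i j : Fin 3) : k :=
  ∑ l, ep m l * (G l i * G l j)

theorem rr_eq (G : Matrix (Fin 3) (Fin 3) k) (H : Matrix (Fin 2) (Fin 2) k) (s : k)
    (x : Fin 6 × Fin 2) : rr (1 + s • G) (1 + s • H) x =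
      r0 x + s * ((q1 G x.2 (ix x.1) (jx x.1) + ∑ m, H x.2 m * q0 m (ix x.1) (jx x.1)) +
        s * (q2 G x.2 (ix x.1) (jx x.1) + ∑ m, H x.2 m * q1 G m (ix x.1) (jx x.1)) +
        s ^ 2 * (∑ m, H x.2 m * q2 G m (ix x.1) (jx x.1))) := by
  obtain ⟨q, l⟩ := x
  fin_cases q <;> fin_cases l <;>
    simp [rr, r0, q0, q1, q2, ep, ix, jx, Matrix.one_apply, Fin.sum_univ_three,
      Fin.sum_univ_two] <;> ring

/-- the infinitesimal linear change for a direction -/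
def GG (v : Fin 6 × Fin 2 → k) : Matrix (Fin 3) (Fin 3) k :=
  !![0, v (1, 1), v (2, 0);
     v (1, 0) - v (1, 1), (v (3, 0) - (v (0, 0) - v (5, 0))) / 2, v (4, 0);
     v (2, 1) - v (2, 0), v (4, 1), (v (5, 1) - (v (0, 1) - v (3, 1))) / 2]

/-- the infinitesimal change of the second part for a direction -/
def HH (v : Fin 6 × Fin 2 → k) : Matrix (Fin 2) (Fin 2) k :=
  !![v (0, 0) - v (5, 0), v (5, 0);
     v (3, 1), v (0, 1) - v (3, 1)]

theorem tangent [CharZero k] (v : Fin 6 × Fin 2 → k) (x : Fin 6 × Fin 2) :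
    q1 (GG v) x.2 (ix x.1) (jx x.1) + ∑ m, HH v x.2 m * q0 m (ix x.1) (jx x.1) = v x := by
  obtain ⟨q, l⟩ := x
  fin_cases q <;> fin_cases l <;>
    simp [q0, q1, ep, ix, jx, GG, HH, Matrix.one_apply, Fin.sum_univ_three,
      Fin.sum_univ_two] <;> ring

theorem det_ne_finite {n : ℕ} (G : Matrix (Fin n) (Fin n) k) :
    {s : k | (1 + s • G).det = 0}.Finite := by
  refine IsPoly.finite (f := fun s : k => (1 + s • G).det) ?_ (s₁ := 0) (by simp)
  have h := PolyAux.det_poly (fun s : k => 1 + s • G) (fun x y => (IsPoly.const _).add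
    (IsPoly.id.mul (IsPoly.const _))) id id
  exact h

/-- the coordinates of `Tp` as polynomials -/
noncomputable def TpP : Fin 3 → Matrix (Fin 6) (Fin 6) (MvPolynomial (Fin 6 × Fin 2) k) :=
  ![!![0, 0, 0, 0, 0, 0;
     1, 0, 0, 0, 0, 0;
     0, 0, 0, 0, 0, 0;
     0, 0, 0, 0, 0, 0;
     0, .X (0, 0), .X (1, 0), .X (2, 0), 0, 0;
     0, .X (0, 1), .X (1, 1), .X (2, 1), 0, 0],
    !![0, 0, 0, 0, 0, 0;
     0, 0, 0, 0, 0, 0;
     1, 0, 0, 0, 0, 0;
     0, 0, 0, 0, 0, 0;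
     0, .X (1, 0), .X (3, 0), .X (4, 0), 0, 0;
     0, .X (1, 1), .X (3, 1), .X (4, 1), 0, 0],
    !![0, 0, 0, 0, 0, 0;
     0, 0, 0, 0, 0, 0;
     0, 0, 0, 0, 0, 0;
     1, 0, 0, 0, 0, 0;
     0, .X (2, 0), .X (4, 0), .X (5, 0), 0, 0;
     0, .X (2, 1), .X (4, 1), .X (5, 1), 0, 0]]

theorem TpP_eval (r : Fin 6 × Fin 2 → k) (i : Fin 3) (x y : Fin 6) :
    MvPolynomial.eval r (TpP i x y) = Tp r i x y := by
  fin_cases i <;> fin_cases x <;> fin_cases y <;> simp [TpP, Tp]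

end TpSAux

theorem cl_Tp {k : Type*} [Field k] [IsAlgClosed k] [CharZero k] (r : Fin 6 × Fin 2 → k) :
    Cl (Tp r) := by
  intro F hF
  have hev : ∀ r : Fin 6 × Fin 2 → k, MvPolynomial.eval r
      (MvPolynomial.aeval (fun z : Fin 3 × Fin 6 × Fin 6 => TpSAux.TpP z.1 z.2.1 z.2.2) F) =
        MvPolynomial.eval (co (Tp r)) F := by
    intro r
    have h1 : ((MvPolynomial.aeval r : MvPolynomial (Fin 6 × Fin 2) k →ₐ[k] k).comp
        (MvPolynomial.aeval (fun z : Fin 3 × Fin 6 × Fin 6 => TpSAux.TpP z.1 z.2.1 z.2.2))) =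
        (MvPolynomial.aeval (co (Tp r)) : MvPolynomial (Fin 3 × Fin 6 × Fin 6) k →ₐ[k] k) := by
      apply MvPolynomial.algHom_ext
      rintro ⟨i, x, y⟩
      rw [AlgHom.comp_apply, MvPolynomial.aeval_X, MvPolynomial.aeval_X]
      exact TpSAux.TpP_eval r i x y
    exact congrArg (fun f => f F) h1
  have hz : MvPolynomial.aeval (fun z : Fin 3 × Fin 6 × Fin 6 => TpSAux.TpP z.1 z.2.1 z.2.2) F =
      (0 : MvPolynomial (Fin 6 × Fin 2) k) := by
    refine eq_zero_of_curves {r : Fin 6 × Fin 2 → k | Cl (Tp r)} TpSAux.r0 ?_ _ ?_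
    · intro v
      refine ⟨fun x => Polynomial.C (v x) + Polynomial.X *
          Polynomial.C (TpSAux.q2 (TpSAux.GG v) x.2 (TpSAux.ix x.1) (TpSAux.jx x.1) +
            ∑ m, TpSAux.HH v x.2 m * TpSAux.q1 (TpSAux.GG v) m (TpSAux.ix x.1)
              (TpSAux.jx x.1)) +
          Polynomial.X ^ 2 * Polynomial.C (∑ m, TpSAux.HH v x.2 m *
            TpSAux.q2 (TpSAux.GG v) m (TpSAux.ix x.1) (TpSAux.jx x.1)), ?_, ?_⟩
      · intro x
        simp
      · refine (((TpSAux.det_ne_finite (TpSAux.GG v)).union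
          (TpSAux.det_ne_finite (TpSAux.HH v))).infinite_compl).mono ?_
        intro s hs
        have hG : (1 + s • TpSAux.GG v).det ≠ 0 := fun h => hs (Or.inl h)
        have hH : (1 + s • TpSAux.HH v).det ≠ 0 := fun h => hs (Or.inr h)
        have h := TpSAux.cl_rr hG hH
        have e : TpSAux.rr (1 + s • TpSAux.GG v) (1 + s • TpSAux.HH v) =
            fun x => TpSAux.r0 x + s * (Polynomial.C (v x) + Polynomial.X *
          Polynomial.C (TpSAux.q2 (TpSAux.GG v) x.2 (TpSAux.ix x.1) (TpSAux.jx x.1) +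
            ∑ m, TpSAux.HH v x.2 m * TpSAux.q1 (TpSAux.GG v) m (TpSAux.ix x.1)
              (TpSAux.jx x.1)) +
          Polynomial.X ^ 2 * Polynomial.C (∑ m, TpSAux.HH v x.2 m *
            TpSAux.q2 (TpSAux.GG v) m (TpSAux.ix x.1) (TpSAux.jx x.1))).eval s := by
          funext x
          rw [TpSAux.rr_eq, TpSAux.tangent]
          simp only [Polynomial.eval_add, Polynomial.eval_mul, Polynomial.eval_pow,
            Polynomial.eval_C, Polynomial.eval_X]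
        rw [e] at h
        exact h
    · intro r hr
      rw [hev]
      exact hr F hF
  rw [← hev, hz, map_zero]

end Pool.Agent.Lib.D7
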