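import Pool.Agent.Lib.D7.Api
import Pool.Agent.Lib.D7.DefsS
import Pool.Agent.Lib.D7.TpS

/-!
# MP_5dcbc3_ag: no maximal bad triple with Jordan type `(3, 2, 1)`
-/

namespace Pool.Agent.Lib.D7

open Matrix

variable {k : Type*} [Field k]

namespace T321SAux

/-! ### explicit matrices -/

theorem mulB (al al1 om be be1 ga pi th et al' al1' om' be' be1' ga' pi' th' et' : k) :
    B321 al al1 om be be1 ga pi th et * B321 al' al1' om' be' be1' ga' pi' th' et' =
    !![0, 0, 0, 0, 0, 0;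
     al' * be, 0, 0, 0, 0, 0;
     al' * be1 + al1' * be + om' * th, al' * be, 0, ga' * be + pi' * th, 0, et' * be;
     0, 0, 0, 0, 0, 0;
     al' * ga + om' * et, 0, 0, al * be' + pi' * et, 0, 0;
     al' * pi, 0, 0, 0, 0, 0] := by
  ext i j
  fin_cases i <;> fin_cases j <;>
    simp [B321, Matrix.mul_apply, Fin.sum_univ_succ] <;> ring

theorem JB (al al1 om be be1 ga pi th et : k) :
    J321 k * B321 al al1 om be be1 ga pi th et = B321 0 al 0 0 be 0 0 0 0 := by
  ext i j
  fin_cases i <;> fin_cases j <;>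
    simp [B321, J321, Matrix.mul_apply, Fin.sum_univ_succ]

theorem BJ (al al1 om be be1 ga pi th et : k) :
    B321 al al1 om be be1 ga pi th et * J321 k = B321 0 al 0 0 be 0 0 0 0 := by
  ext i j
  fin_cases i <;> fin_cases j <;>
    simp [B321, J321, Matrix.mul_apply, Fin.sum_univ_succ]

theorem addB (al al1 om be be1 ga pi th et al' al1' om' be' be1' ga' pi' th' et' : k) :
    B321 al al1 om be be1 ga pi th et + B321 al' al1' om' be' be1' ga' pi' th' et' =
    B321 (al + al') (al1 + al1') (om + om') (be + be') (be1 + be1') (ga + ga') (pi + pi')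
      (th + th') (et + et') := by
  ext i j
  fin_cases i <;> fin_cases j <;> simp [B321]

theorem subB (al al1 om be be1 ga pi th et al' al1' om' be' be1' ga' pi' th' et' : k) :
    B321 al al1 om be be1 ga pi th et - B321 al' al1' om' be' be1' ga' pi' th' et' =
    B321 (al - al') (al1 - al1') (om - om') (be - be') (be1 - be1') (ga - ga') (pi - pi')
      (th - th') (et - et') := by
  ext i j
  fin_cases i <;> fin_cases j <;> simp [B321]

theorem smulB (c al al1 om be be1 ga pi th et : k) :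
    c • B321 al al1 om be be1 ga pi th et =
    B321 (c * al) (c * al1) (c * om) (c * be) (c * be1) (c * ga) (c * pi) (c * th) (c * et) := by
  ext i j
  fin_cases i <;> fin_cases j <;> simp [B321]

theorem zeroB : B321 (0 : k) 0 0 0 0 0 0 0 0 = 0 := by
  ext i j
  fin_cases i <;> fin_cases j <;> simp [B321]

theorem J2 : J321 k * J321 k =
    !![0, 0, 0, 0, 0, 0;
     0, 0, 0, 0, 0, 0;
     1, 0, 0, 0, 0, 0;
     0, 0, 0, 0, 0, 0;
     0, 0, 0, 0, 0, 0;
     0, 0, 0, 0, 0, 0] := by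
  ext i j
  fin_cases i <;> fin_cases j <;>
    simp [J321, Matrix.mul_apply, Fin.sum_univ_succ]

/-! ### nilpotency and commutation -/

theorem nilJ : IsNilpotent (J321 k) := by
  refine isNilpotent_of_weight _ ![0, 2, 4, 1, 3, 2] fun i j h => ?_
  fin_cases i <;> fin_cases j <;> first | rfl | (exfalso; revert h; decide)

theorem nilB (al al1 om be be1 ga pi th et : k) :
    IsNilpotent (B321 al al1 om be be1 ga pi th et) := by
  refine isNilpotent_of_weight _ ![0, 2, 4, 1, 3, 2] fun i j h => ?_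
  fin_cases i <;> fin_cases j <;> first | rfl | (exfalso; revert h; decide)

/-- the relations for commuting matrices -/
def Rel (al al1 om be be1 ga pi th et al' al1' om' be' be1' ga' pi' th' et' : k) : Prop :=
  al' * be = al * be' ∧ al' * pi = al * pi' ∧ al' * ga + om' * et = al * ga' + om * et' ∧
  al' * be1 + al1' * be + om' * th = al * be1' + al1 * be' + om * th' ∧ pi' * et = pi * et' ∧
  ga' * be + pi' * th = ga * be' + pi * th' ∧ et' * be = et * be'

theorem comm_of_rel {al al1 om be be1 ga pi th et al' al1' om' be' be1' ga' pi' th' et' : k}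
    (h : Rel al al1 om be be1 ga pi th et al' al1' om' be' be1' ga' pi' th' et') :
    B321 al al1 om be be1 ga pi th et * B321 al' al1' om' be' be1' ga' pi' th' et' =
      B321 al' al1' om' be' be1' ga' pi' th' et' * B321 al al1 om be be1 ga pi th et := by
  obtain ⟨h1, h2, h3, h4, h5, h6, h7⟩ := h
  rw [mulB, mulB, h1, h2, h3, h4, h5, h6, h7]

theorem rel_of_comm {al al1 om be be1 ga pi th et al' al1' om' be' be1' ga' pi' th' et' : k}
    (h : B321 al al1 om be be1 ga pi th et * B321 al' al1' om' be' be1' ga' pi' th' et' =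
      B321 al' al1' om' be' be1' ga' pi' th' et' * B321 al al1 om be be1 ga pi th et) :
    Rel al al1 om be be1 ga pi th et al' al1' om' be' be1' ga' pi' th' et' := by
  rw [mulB, mulB] at h
  have e := fun i j => congrFun (congrFun h i) j
  have e1 : al' * be = al * be' := e 1 0
  have e2 : al * be' + pi' * et = al' * be + pi * et' := e 4 3
  refine ⟨e1, ?_, ?_, ?_, ?_, ?_, ?_⟩
  · exact e 5 0
  · exact e 4 0
  · exact e 2 0
  · linear_combination e2 + e1
  · exact e 2 3
  · exact e 2 5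

theorem cnB {al al1 om be be1 ga pi th et al' al1' om' be' be1' ga' pi' th' et' : k}
    (h : Rel al al1 om be be1 ga pi th et al' al1' om' be' be1' ga' pi' th' et') :
    CN ![J321 k, B321 al al1 om be be1 ga pi th et,
      B321 al' al1' om' be' be1' ga' pi' th' et'] := by
  have h1 := comm_of_rel h
  constructor
  · intro i j
    fin_cases i <;> fin_cases j
    · rfl
    · exact (JB ..).trans (BJ ..).symm
    · exact (JB ..).trans (BJ ..).symm
    · exact (BJ ..).trans (JB ..).symm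
    · rfl
    · exact h1
    · exact (BJ ..).trans (JB ..).symm
    · exact h1.symm
    · rfl
  · intro i
    fin_cases i
    · exact nilJ
    · exact nilB ..
    · exact nilB ..

theorem rank_J : (J321 k).rank ≤ 3 := by
  refine rank_le_of_factor (r := 3) _
    !![0, 0, 0;
     1, 0, 0;
     0, 1, 0;
     0, 0, 0;
     0, 0, 1;
     0, 0, 0]
    !![1, 0, 0, 0, 0, 0;
     0, 1, 0, 0, 0, 0;
     0, 0, 0, 1, 0, 0] ?_
  ext i j
  fin_cases i <;> fin_cases j <;> simp [J321, Matrix.mul_apply, Fin.sum_univ_succ]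

theorem rank4 {al al1 om be be1 ga pi th et : k} (h : (pi - be * om) * (et - al * th) ≠ 0) :
    4 ≤ (J321 k + B321 al al1 om be be1 ga pi th et).rank := by
  refine le_rank_of_minor _ ![1, 2, 4, 5] ![0, 1, 3, 5] ?_
  have e : (J321 k + B321 al al1 om be be1 ga pi th et).submatrix ![1, 2, 4, 5]
      ![0, 1, 3, 5] = !![1, 0, be, 0;
      0, 1, be1, th;
      al1, al, 1 + ga, et;
      om, 0, pi, 0] := by
    ext i j
    fin_cases i <;> fin_cases j <;> simp [J321, B321]
  rw [e]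
  have e2 : Matrix.det !![1, 0, be, 0;
      0, 1, be1, th;
      al1, al, 1 + ga, et;
      om, 0, pi, 0] = -((pi - be * om) * (et - al * th)) := by
    simp [Matrix.det_succ_row_zero, Fin.sum_univ_succ, Fin.succAbove]
    ring
  rw [e2]
  exact neg_ne_zero.2 h

/-! ### the shape of matrices commuting with `J321` -/

theorem eig {M : Matrix (Fin 6) (Fin 6) k} (hM : IsNilpotent M) {w : Fin 6 → k} {c : k}
    (h : w ᵥ* M = c • w) (hc : c ≠ 0) : w = 0 := by
  obtain ⟨N, hN⟩ := hM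
  have key : ∀ N : ℕ, w ᵥ* M ^ N = c ^ N • w := by
    intro N
    induction N with
    | zero => simp
    | succ N ih =>
      rw [pow_succ, ← Matrix.vecMul_vecMul, ih, Matrix.smul_vecMul, h, smul_smul, pow_succ]
  have h1 := key N
  rw [hN, Matrix.vecMul_zero] at h1
  exact (smul_eq_zero.1 h1.symm).resolve_left (pow_ne_zero _ hc)

theorem shape {B : Matrix (Fin 6) (Fin 6) k} (hc : J321 k * B = B * J321 k)
    (hn : IsNilpotent B) : ∃ x1 x2 al al1 om be be1 ga pi th et : k,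
      B = x1 • J321 k + x2 • (J321 k * J321 k) +
        B321 al al1 om be be1 ga pi th et := by
  have e : ∀ i j, (J321 k * B) i j = (B * J321 k) i j := fun i j => by rw [hc]
  simp [J321, Matrix.mul_apply, Fin.sum_univ_succ, Fin.forall_fin_succ] at e
  have h01 : B 0 1 = 0 := by grind
  have h02 : B 0 2 = 0 := by grind
  have h03 : B 0 3 = 0 := by grind
  have h04 : B 0 4 = 0 := by grind
  have h05 : B 0 5 = 0 := by grind
  have h31 : B 3 1 = 0 := by grind
  have h32 : B 3 2 = 0 := by grind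
  have h34 : B 3 4 = 0 := by grind
  have h35 : B 3 5 = 0 := by grind
  have h51 : B 5 1 = 0 := by grind
  have h52 : B 5 2 = 0 := by grind
  have h54 : B 5 4 = 0 := by grind
  have d0 : B 0 0 = 0 := by
    by_contra h0
    have h1 := eig (w := ![1, 0, 0, 0, 0, 0]) hn (c := B 0 0) (by
      ext j
      fin_cases j <;>
        simp [Matrix.vecMul, dotProduct, Fin.sum_univ_succ, h01, h02, h03, h04, h05]) h0
    have h2 := congrFun h1 0
    simp at h2
  have d3 : B 3 3 = 0 := by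
    by_contra h0
    have h1 := eig (w := ![B 3 0, 0, 0, B 3 3, 0, 0]) hn (c := B 3 3) (by
      ext j
      fin_cases j <;>
        simp [Matrix.vecMul, dotProduct, Fin.sum_univ_succ, d0, h01, h02, h03, h04, h05, h31, h32,
          h34, h35]) h0
    have h2 := congrFun h1 3
    exact h0 (by simpa using h2)
  have d5 : B 5 5 = 0 := by
    by_contra h0
    have h1 := eig (w := ![B 5 5 * B 5 0 + B 5 3 * B 3 0, 0, 0, B 5 5 * B 5 3, 0,
        B 5 5 * B 5 5]) hn (c := B 5 5) (by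
      ext j
      fin_cases j <;>
        simp [Matrix.vecMul, dotProduct, Fin.sum_univ_succ, d0, d3, h01, h02, h03, h04, h05, h31,
          h32, h34, h35, h51, h52, h54] <;> ring) h0
    have h2 := congrFun h1 5
    exact h0 (by simpa using h2)
  refine ⟨B 1 0, B 2 0, B 3 0, B 4 0, B 5 0, B 1 3, B 2 3, B 4 3 - B 1 0, B 5 3, B 2 5,
    B 4 5, ?_⟩
  rw [J2]
  ext i j
  fin_cases i <;> fin_cases j <;> simp [J321, B321] <;> grind

/-! ### families -/

/-- the matrix with a vector of parameters -/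
def Bv (b : Fin 9 → k) : Matrix (Fin 6) (Fin 6) k :=
  B321 (b 0) (b 1) (b 2) (b 3) (b 4) (b 5) (b 6) (b 7) (b 8)

/-- the relations for vectors of parameters -/
def RelV (b c : Fin 9 → k) : Prop :=
  Rel (b 0) (b 1) (b 2) (b 3) (b 4) (b 5) (b 6) (b 7) (b 8)
    (c 0) (c 1) (c 2) (c 3) (c 4) (c 5) (c 6) (c 7) (c 8)

theorem Bv_line (b e : Fin 9 → k) (s : k) : Bv (b + s • e) = Bv b + s • Bv e := by
  unfold Bv
  rw [smulB, addB]
  rfl

theorem line_eq (b c e f : Fin 9 → k) (s : k) :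
    ![J321 k, Bv b, Bv c] + s • ![0, Bv e, Bv f] =
      ![J321 k, Bv (b + s • e), Bv (c + s • f)] := by
  rw [Bv_line, Bv_line]
  funext i
  fin_cases i
  · simp
  · simp
  · simp

theorem rho1 {ρ : ℕ → ℕ} (hρ : ∀ i, ρ i = (J321 k ^ i).rank) : ρ 1 ≤ 3 := by
  rw [hρ, pow_one]
  exact rank_J

theorem rho3 {ρ : ℕ → ℕ} (hρ : ∀ i, ρ i = (J321 k ^ i).rank) : ρ 3 = 0 := by
  have h : J321 k ^ 3 = 0 := by
    have h1 : J321 k ^ 3 = (J321 k * J321 k) * J321 k := by
      simp only [pow_succ, pow_zero, one_mul]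
    rw [h1, J2]
    ext i j
    fin_cases i <;> fin_cases j <;> simp [J321, Matrix.mul_apply, Fin.sum_univ_succ]
  rw [hρ, h, Matrix.rank_zero]

theorem deform_line [Infinite k] {ρ : ℕ → ℕ}
    {b c : Fin 9 → k} (e f : Fin 9 → k) (hT : MaxR ρ ![J321 k, Bv b, Bv c])
    (hrel : ∀ s : k, RelV (b + s • e) (c + s • f)) {F : Set k} (hF : F.Finite) :
    ∃ s, s ∉ F ∧ MaxR ρ ![J321 k, Bv (b + s • e), Bv (c + s • f)] := by
  obtain ⟨E', hE', h⟩ := hT.deform (fun s => ![J321 k, Bv b, Bv c] + s • ![0, Bv e, Bv f])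
    (PolyFam.line _ _) (by simp) Set.finite_empty (fun s _ => by
      rw [line_eq]
      exact cnB (hrel s))
  obtain ⟨s, hs⟩ := (hE'.union hF).infinite_compl.nonempty
  rw [Set.mem_compl_iff, Set.mem_union, not_or] at hs
  refine ⟨s, hs.2, ?_⟩
  have h1 := h s hs.1
  rwa [line_eq] at h1

theorem change3 {ρ : ℕ → ℕ} {A B C B' C' : Matrix (Fin 6) (Fin 6) k}
    (hT : MaxR ρ ![A, B, C]) (h1 : B' ∈ adj ![A, B, C]) (h2 : C' ∈ adj ![A, B, C])
    (h3 : B ∈ adj ![A, B', C']) (h4 : C ∈ adj ![A, B', C']) : MaxR ρ ![A, B', C'] := by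
  have h0 : A ∈ adj ![A, B, C] := mem_adj ![A, B, C] 0
  have h0' : A ∈ adj ![A, B', C'] := mem_adj ![A, B', C'] 0
  refine hT.change (hT.cn.of_adj fun i => ?_) fun i => ?_
  · fin_cases i
    exacts [h0, h1, h2]
  · fin_cases i
    exacts [h0', h3, h4]

theorem m0 (A B C : Matrix (Fin 6) (Fin 6) k) : A ∈ adj ![A, B, C] := mem_adj ![A, B, C] 0

theorem m1 (A B C : Matrix (Fin 6) (Fin 6) k) : B ∈ adj ![A, B, C] := mem_adj ![A, B, C] 1

theorem m2 (A B C : Matrix (Fin 6) (Fin 6) k) : C ∈ adj ![A, B, C] := mem_adj ![A, B, C] 2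

theorem swap {ρ : ℕ → ℕ} {A B C : Matrix (Fin 6) (Fin 6) k} (hT : MaxR ρ ![A, B, C]) :
    MaxR ρ ![A, C, B] :=
  change3 hT (m2 _ _ _) (m1 _ _ _) (m2 _ _ _) (m1 _ _ _)

/-! ### conditions from the maximality -/

theorem c1 [Infinite k] {ρ : ℕ → ℕ} (hρ : ∀ i, ρ i = (J321 k ^ i).rank)
    {T : Fin 3 → Matrix (Fin 6) (Fin 6) k} (hT : MaxR ρ T) (hA : J321 k ∈ adj T)
    {al al1 om be be1 ga pi th et : k} (hX : B321 al al1 om be be1 ga pi th et ∈ adj T) (s : k) :
    (s * pi - s * be * (s * om)) * (s * et - s * al * (s * th)) = 0 := by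
  by_contra h
  have hX' := SMulMemClass.smul_mem s hX
  rw [smulB] at hX'
  have h1 := hT.rank_le (add_mem hA hX') 1
  rw [pow_one] at h1
  have h2 := rank4 (al := s * al) (al1 := s * al1) (om := s * om) (be := s * be) (be1 := s * be1)
    (ga := s * ga) (th := s * th) h
  have h3 := rho1 hρ
  omega

theorem c1' [Infinite k] [CharZero k] {ρ : ℕ → ℕ} (hρ : ∀ i, ρ i = (J321 k ^ i).rank)
    {T : Fin 3 → Matrix (Fin 6) (Fin 6) k} (hT : MaxR ρ T) (hA : J321 k ∈ adj T)
    {al al1 om be1 ga pi th et : k} (hX : B321 al al1 om 0 be1 ga pi th et ∈ adj T) :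
    pi * et = 0 ∧ pi * (al * th) = 0 := by
  have h1 := c1 hρ hT hA hX 1
  have h2 := c1 hρ hT hA hX (-1)
  have h3 : (2 : k) * (pi * et) = 0 := by linear_combination h1 + h2
  have h4 : (2 : k) * (pi * (al * th)) = 0 := by linear_combination h2 - h1
  exact ⟨(mul_eq_zero.1 h3).resolve_left two_ne_zero, (mul_eq_zero.1 h4).resolve_left two_ne_zero⟩

theorem c2 [Infinite k] [CharZero k] {ρ : ℕ → ℕ} (hρ : ∀ i, ρ i = (J321 k ^ i).rank)
    {T : Fin 3 → Matrix (Fin 6) (Fin 6) k} (hT : MaxR ρ T) (hA : J321 k ∈ adj T)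
    {al al1 om be be1 ga pi th et : k} (hX : B321 al al1 om be be1 ga pi th et ∈ adj T) :
    al * be = 0 := by
  have h1 := hT.pow_eq_zero hX (rho3 hρ)
  have h2 := hT.pow_eq_zero (add_mem hA hX) (rho3 hρ)
  have e1 := congrFun (congrFun h1 2) 0
  have e2 := congrFun (congrFun h2 2) 0
  simp only [pow_succ, pow_zero, one_mul, add_mul, mul_add, JB, BJ, J2, mulB] at e1 e2
  simp [B321, J321, Matrix.mul_apply, Fin.sum_univ_succ] at e1 e2
  have h3 : (3 : k) * (al * be) = 0 := by linear_combination e2 - e1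
  exact (mul_eq_zero.1 h3).resolve_left three_ne_zero

/-! ### the case `(III)` -/

/-- the first matrix of the raising family -/
def E1 (w : k) : Matrix (Fin 6) (Fin 6) k :=
  !![0, 0, 0, 0, 0, 0;
     0, 0, 0, 0, 0, 0;
     0, 0, 0, 0, 0, 0;
     0, 0, 0, 0, 0, 0;
     0, 0, 0, 0, 0, 0;
     0, 0, w, 0, 0, 0]

/-- the second matrix of the raising family -/
def E2 (w : k) : Matrix (Fin 6) (Fin 6) k :=
  !![0, 0, 0, 0, 0, 0;
     0, 0, 0, 0, 0, 0;
     0, 0, 0, 0, 0, 0;
     0, 0, 0, 0, 0, 0;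
     0, 0, 0, 0, 0, 0;
     0, 0, 0, 0, w, 0]

theorem cnIII (be1 ga pi om' s : k) :
    CN (![J321 k, B321 1 0 0 0 be1 ga pi 0 0, B321 0 0 om' 0 0 0 0 0 0] +
      s • ![E1 om', E2 (be1 * om'), 0]) := by
  have a0 : (![J321 k, B321 1 0 0 0 be1 ga pi 0 0, B321 0 0 om' 0 0 0 0 0 0] +
      s • ![E1 om', E2 (be1 * om'), 0]) = ![J321 k + s • E1 om',
        B321 1 0 0 0 be1 ga pi 0 0 + s • E2 (be1 * om'), B321 0 0 om' 0 0 0 0 0 0] := by
    funext i
    fin_cases i <;> simp
  rw [a0]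
  have h1 : (J321 k + s • E1 om') * (B321 1 0 0 0 be1 ga pi 0 0 + s • E2 (be1 * om')) =
      (B321 1 0 0 0 be1 ga pi 0 0 + s • E2 (be1 * om')) * (J321 k + s • E1 om') := by
    ext i j
    fin_cases i <;> fin_cases j <;>
      simp [B321, J321, E1, E2, Matrix.mul_apply, Fin.sum_univ_succ] <;> ring
  have h2 : (J321 k + s • E1 om') * B321 0 0 om' 0 0 0 0 0 0 =
      B321 0 0 om' 0 0 0 0 0 0 * (J321 k + s • E1 om') := by
    ext i j
    fin_cases i <;> fin_cases j <;>
      simp [B321, J321, E1, E2, Matrix.mul_apply, Fin.sum_univ_succ]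
  have h3 : (B321 1 0 0 0 be1 ga pi 0 0 + s • E2 (be1 * om')) * B321 0 0 om' 0 0 0 0 0 0 =
      B321 0 0 om' 0 0 0 0 0 0 * (B321 1 0 0 0 be1 ga pi 0 0 + s • E2 (be1 * om')) := by
    ext i j
    fin_cases i <;> fin_cases j <;>
      simp [B321, J321, E1, E2, Matrix.mul_apply, Fin.sum_univ_succ]
  constructor
  · intro i j
    fin_cases i <;> fin_cases j
    · rfl
    · exact h1
    · exact h2
    · exact h1.symm
    · rfl
    · exact h3
    · exact h2.symm
    · exact h3.symm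
    · rfl
  · intro i
    fin_cases i
    · refine isNilpotent_of_weight _ ![0, 2, 4, 1, 3, 5] fun i j h => ?_
      fin_cases i <;> fin_cases j <;> first | (simp [J321, E1]; done) | (exfalso; revert h; decide)
    · refine isNilpotent_of_weight _ ![0, 2, 4, 1, 3, 5] fun i j h => ?_
      fin_cases i <;> fin_cases j <;> first | (simp [B321, E2]; done) | (exfalso; revert h; decide)
    · exact nilB ..

theorem caseIII3 [Infinite k] {ρ : ℕ → ℕ} (hρ : ∀ i, ρ i = (J321 k ^ i).rank)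
    {be1 ga pi om' : k} (hom : om' ≠ 0)
    (hT : MaxR ρ ![J321 k, B321 1 0 0 0 be1 ga pi 0 0, B321 0 0 om' 0 0 0 0 0 0]) : False := by
  refine hT.raise (fun s => ![J321 k, B321 1 0 0 0 be1 ga pi 0 0, B321 0 0 om' 0 0 0 0 0 0] +
      s • ![E1 om', E2 (be1 * om'), 0]) (PolyFam.line _ _) (by simp) Set.finite_empty
      (fun s _ => cnIII be1 ga pi om' s) 3 (fun s => J321 k + s • E1 om') (fun s => ?_) ?_
  · have h := mem_adj (![J321 k, B321 1 0 0 0 be1 ga pi 0 0, B321 0 0 om' 0 0 0 0 0 0] +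
      s • ![E1 om', E2 (be1 * om'), 0]) 0
    simpa using h
  · refine (Set.finite_singleton (0 : k)).infinite_compl.mono fun s hs => ?_
    have hs' : s ≠ 0 := hs
    have h3 := rho3 hρ
    have h4 : 1 ≤ ((J321 k + s • E1 om') ^ 3).rank := by
      refine le_rank_of_minor _ ![5] ![0] ?_
      have h5 : ((J321 k + s • E1 om') ^ 3) 5 0 = s * om' := by
        simp [pow_succ, J321, E1, Matrix.mul_apply, Fin.sum_univ_succ]
      rw [Matrix.det_fin_one]
      show ((J321 k + s • E1 om') ^ 3) 5 0 ≠ 0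
      rw [h5]
      exact mul_ne_zero hs' hom
    show ρ 3 < ((J321 k + s • E1 om') ^ 3).rank
    omega

/-- change of basis -/
def Hm (a b : k) : Matrix (Fin 6) (Fin 6) k :=
  !![1, 0, 0, 0, 0, 0;
     0, 1, 0, 0, 0, 0;
     0, 0, 1, 0, 0, 0;
     0, 0, 0, 1, 0, 0;
     0, 0, 0, a, 1, 0;
     0, 0, 0, b, 0, 1]

theorem Hm_mul (a b : k) : Hm (-a) (-b) * Hm a b = 1 := by
  ext i j
  fin_cases i <;> fin_cases j <;>
    simp [Hm, Matrix.mul_apply, Fin.sum_univ_succ]

theorem Hm_J (a b : k) : J321 k * Hm a b = Hm a b * J321 k := by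
  ext i j
  fin_cases i <;> fin_cases j <;>
    simp [Hm, J321, Matrix.mul_apply, Fin.sum_univ_succ]

theorem Hm_B (al1 om be1 ga pi : k) : B321 1 al1 om 0 be1 ga pi 0 0 * Hm al1 om =
    Hm al1 om * B321 1 0 0 0 be1 ga pi 0 0 := by
  ext i j
  fin_cases i <;> fin_cases j <;>
    simp [Hm, B321, Matrix.mul_apply, Fin.sum_univ_succ]

theorem Hm_C (al1 om om' : k) : B321 0 0 om' 0 0 0 0 0 0 * Hm al1 om =
    Hm al1 om * B321 0 0 om' 0 0 0 0 0 0 := by
  ext i j
  fin_cases i <;> fin_cases j <;>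
    simp [Hm, B321, Matrix.mul_apply, Fin.sum_univ_succ]

theorem caseIII2 [Infinite k] {ρ : ℕ → ℕ} (hρ : ∀ i, ρ i = (J321 k ^ i).rank)
    {al1 om be1 ga pi om' : k} (hom : om' ≠ 0)
    (hT : MaxR ρ ![J321 k, B321 1 al1 om 0 be1 ga pi 0 0, B321 0 0 om' 0 0 0 0 0 0]) :
    False := by
  have g1 := Hm_mul al1 om
  have g2 := Hm_mul (-al1) (-om)
  rw [neg_neg, neg_neg] at g2
  have h1 := hT.conj (Hm (-al1) (-om)) (Hm al1 om) g1 g2
  have h2 : (fun i => Hm (-al1) (-om) * (![J321 k, B321 1 al1 om 0 be1 ga pi 0 0,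
      B321 0 0 om' 0 0 0 0 0 0] : Fin 3 → Matrix (Fin 6) (Fin 6) k) i * Hm al1 om) =
      ![J321 k, B321 1 0 0 0 be1 ga pi 0 0, B321 0 0 om' 0 0 0 0 0 0] := by
    funext i
    fin_cases i
    · show Hm (-al1) (-om) * J321 k * Hm al1 om = J321 k
      rw [Matrix.mul_assoc, Hm_J, ← Matrix.mul_assoc, g1, Matrix.one_mul]
    · show Hm (-al1) (-om) * B321 1 al1 om 0 be1 ga pi 0 0 * Hm al1 om = _
      rw [Matrix.mul_assoc, Hm_B, ← Matrix.mul_assoc, g1, Matrix.one_mul]
      rfl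
    · show Hm (-al1) (-om) * B321 0 0 om' 0 0 0 0 0 0 * Hm al1 om = _
      rw [Matrix.mul_assoc, Hm_C, ← Matrix.mul_assoc, g1, Matrix.one_mul]
      rfl
  rw [h2] at h1
  exact caseIII3 hρ hom h1

theorem caseIII1 [Infinite k] {ρ : ℕ → ℕ} (hρ : ∀ i, ρ i = (J321 k ^ i).rank)
    {al1 om be1 ga pi om' : k}
    (hT : MaxR ρ ![J321 k, B321 1 al1 om 0 be1 ga pi 0 0, B321 0 0 om' 0 0 0 0 0 0]) :
    False := by
  obtain ⟨s, hs, hT'⟩ := deform_line (b := ![1, al1, om, 0, be1, ga, pi, 0, 0])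
      (c := ![0, 0, om', 0, 0, 0, 0, 0, 0]) ![0, 0, 0, 0, 0, 0, 0, 0, 0]
      ![0, 0, 1, 0, 0, 0, 0, 0, 0] hT (fun s => by simp [RelV, Rel])
      (Set.finite_singleton (-om'))
  have hp : om' + s ≠ 0 := fun h => hs (eq_neg_of_add_eq_zero_right h)
  refine caseIII2 (al1 := al1) (om := om) (be1 := be1) (ga := ga) (pi := pi) hρ hp ?_
  simpa [Bv] using hT'

theorem caseIII [Infinite k] {ρ : ℕ → ℕ} (hρ : ∀ i, ρ i = (J321 k ^ i).rank)
    {al1 om be1 ga pi al1' om' : k}
    (hT : MaxR ρ ![J321 k, B321 1 al1 om 0 be1 ga pi 0 0, B321 0 al1' om' 0 0 0 0 0 0]) :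
    False := by
  have e1 : B321 0 al1' om' 0 0 0 0 0 0 - al1' • (J321 k * B321 1 al1 om 0 be1 ga pi 0 0) =
      B321 0 0 om' 0 0 0 0 0 0 := by
    rw [JB, smulB, subB]
    congr 1 <;> ring
  refine caseIII1 (al1 := al1) (om := om) (be1 := be1) (ga := ga) (pi := pi) (om' := om') hρ ?_
  rw [← e1]
  refine change3 hT (m1 _ _ _) (sub_mem (m2 _ _ _) (SMulMemClass.smul_mem _
    (mul_mem (m0 _ _ _) (m1 _ _ _)))) (m1 _ _ _) ?_
  have h := add_mem (m2 (J321 k) (B321 1 al1 om 0 be1 ga pi 0 0)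
      (B321 0 al1' om' 0 0 0 0 0 0 - al1' • (J321 k * B321 1 al1 om 0 be1 ga pi 0 0)))
    (SMulMemClass.smul_mem al1' (mul_mem (m0 (J321 k) (B321 1 al1 om 0 be1 ga pi 0 0)
      (B321 0 al1' om' 0 0 0 0 0 0 - al1' • (J321 k * B321 1 al1 om 0 be1 ga pi 0 0)))
      (m1 (J321 k) (B321 1 al1 om 0 be1 ga pi 0 0)
      (B321 0 al1' om' 0 0 0 0 0 0 - al1' • (J321 k * B321 1 al1 om 0 be1 ga pi 0 0)))))
  rwa [sub_add_cancel] at h

/-! ### the case `(I)` -/

/-- change of basis -/
def Pm (al al1 om al' al1' om' : k) : Matrix (Fin 6) (Fin 6) k :=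
  !![1, 0, 0, 0, 0, 0;
     0, 1, 0, 0, 0, 0;
     0, 0, 0, 0, 1, 0;
     0, 0, al, al', 0, 0;
     0, 0, al1, al1', 0, 1;
     0, 0, om, om', 0, 0]

/-- the inverse of the change of basis, `t` is the inverse of the determinant -/
def Qm (al al1 om al' al1' om' t : k) : Matrix (Fin 6) (Fin 6) k :=
  !![1, 0, 0, 0, 0, 0;
     0, 1, 0, 0, 0, 0;
     0, 0, 0, om' * t, 0, -al' * t;
     0, 0, 0, -om * t, 0, al * t;
     0, 0, 1, 0, 0, 0;
     0, 0, 0, (al1' * om - al1 * om') * t, 1, (al1 * al' - al1' * al) * t]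

theorem PQ {al al1 om al' al1' om' t : k} (h : (al * om' - al' * om) * t = 1) :
    Pm al al1 om al' al1' om' * Qm al al1 om al' al1' om' t = 1 := by
  ext i j
  fin_cases i <;> fin_cases j <;>
    simp [Pm, Qm, Matrix.mul_apply, Fin.sum_univ_succ] <;>
    first
    | ring1
    | linear_combination h

theorem PQ' {al al1 om al' al1' om' t : k} (h : (al * om' - al' * om) * t = 1) :
    Qm al al1 om al' al1' om' t * Pm al al1 om al' al1' om' = 1 := by
  exact mul_eq_one_comm.1 (PQ h)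

/-- the parameters of the normal form -/
def Rr (al om be1 ga th et al' om' be1' ga' th' et' : k) : Fin 6 × Fin 2 → k := fun q =>
  (!![1, 0;
     0, al;
     0, al';
     al * be1 + om * th, al * ga + om * et;
     al' * be1 + om' * th, al' * ga + om' * et;
     al' * be1' + om' * th', al' * ga' + om' * et'] : Matrix (Fin 6) (Fin 2) k) q.1 q.2

theorem P0 (al al1 om be1 ga th et al' al1' om' be1' ga' th' et' : k) :
    J321 k * Pm al al1 om al' al1' om' =
      Pm al al1 om al' al1' om' * Tp (Rr al om be1 ga th et al' om' be1' ga' th' et') 0 := by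
  ext i j
  fin_cases i <;> fin_cases j <;>
    simp [Pm, J321, Tp, Rr, Matrix.mul_apply, Fin.sum_univ_succ]

theorem P1 {al al1 om be1 ga th et al' al1' om' be1' ga' th' et' : k} :
    B321 al al1 om 0 be1 ga 0 th et * Pm al al1 om al' al1' om' =
      Pm al al1 om al' al1' om' * Tp (Rr al om be1 ga th et al' om' be1' ga' th' et') 1 := by
  ext i j
  fin_cases i <;> fin_cases j <;>
    simp [Pm, B321, Tp, Rr, Matrix.mul_apply, Fin.sum_univ_succ] <;> ring

theorem P2 {al al1 om be1 ga th et al' al1' om' be1' ga' th' et' : k}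
    (r1 : al' * ga + om' * et = al * ga' + om * et')
    (r2 : al' * be1 + om' * th = al * be1' + om * th') :
    B321 al' al1' om' 0 be1' ga' 0 th' et' * Pm al al1 om al' al1' om' =
      Pm al al1 om al' al1' om' * Tp (Rr al om be1 ga th et al' om' be1' ga' th' et') 2 := by
  ext i j
  fin_cases i <;> fin_cases j <;>
    simp [Pm, B321, Tp, Rr, Matrix.mul_apply, Fin.sum_univ_succ] <;>
    first
    | ring1
    | linear_combination -r1
    | linear_combination -r2

end T321SAux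

section

open T321SAux Q5dc

variable [IsAlgClosed k] [CharZero k]

theorem T321SAux.caseI3 {ρ : ℕ → ℕ} {al al1 om be1 ga th et al' al1' om' be1' ga' th' et' : k}
    (hd : al * om' - al' * om ≠ 0)
    (hT : MaxR ρ ![J321 k, B321 al al1 om 0 be1 ga 0 th et,
      B321 al' al1' om' 0 be1' ga' 0 th' et']) : False := by
  obtain ⟨-, -, r1, r2, -, -, -⟩ := rel_of_comm (hT.cn.1 1 2)
  have r2' : al' * be1 + om' * th = al * be1' + om * th' := by linear_combination r2
  have ht : (al * om' - al' * om) * (al * om' - al' * om)⁻¹ = 1 := mul_inv_cancel₀ hd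
  generalize (al * om' - al' * om)⁻¹ = t at ht
  have hPQ := PQ (al1 := al1) (al1' := al1') ht
  have hQP := PQ' (al1 := al1) (al1' := al1') ht
  have h1 := Cl.conj _ _ hPQ hQP (cl_Tp (Rr al om be1 ga th et al' om' be1' ga' th' et'))
  apply hT.ncl
  have h2 : (fun i => Pm al al1 om al' al1' om' * Tp (Rr al om be1 ga th et al' om' be1' ga' th' et') i *
      Qm al al1 om al' al1' om' t) = ![J321 k, B321 al al1 om 0 be1 ga 0 th et,
      B321 al' al1' om' 0 be1' ga' 0 th' et'] := by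
    funext i
    fin_cases i
    · show Pm al al1 om al' al1' om' * Tp (Rr al om be1 ga th et al' om' be1' ga' th' et') 0 *
        Qm al al1 om al' al1' om' t = J321 k
      rw [← P0, Matrix.mul_assoc, hPQ, Matrix.mul_one]
    · show Pm al al1 om al' al1' om' * Tp (Rr al om be1 ga th et al' om' be1' ga' th' et') 1 *
        Qm al al1 om al' al1' om' t = B321 al al1 om 0 be1 ga 0 th et
      rw [← P1, Matrix.mul_assoc, hPQ, Matrix.mul_one]
    · show Pm al al1 om al' al1' om' * Tp (Rr al om be1 ga th et al' om' be1' ga' th' et') 2 *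
        Qm al al1 om al' al1' om' t = B321 al' al1' om' 0 be1' ga' 0 th' et'
      rw [← P2 r1 r2', Matrix.mul_assoc, hPQ, Matrix.mul_one]
  rwa [h2] at h1

end

namespace T321SAux

variable [IsAlgClosed k] [CharZero k]

theorem caseI2 {ρ : ℕ → ℕ} {al al1 om be1 ga th et al' al1' om' be1' ga' th' et' f1 f2 : k}
    (hf : f1 * al' + f2 * om' = 1)
    (hT : MaxR ρ ![J321 k, B321 al al1 om 0 be1 ga 0 th et,
      B321 al' al1' om' 0 be1' ga' 0 th' et']) : False := by
  have hinf : Infinite k := inferInstance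
  obtain ⟨-, -, r1, r2, -, -, -⟩ := rel_of_comm (hT.cn.1 1 2)
  obtain ⟨s, hs, hT'⟩ := deform_line (b := ![al, al1, om, 0, be1, ga, 0, th, et])
      (c := ![al', al1', om', 0, be1', ga', 0, th', et'])
      ![f2, 0, -f1, 0, f1 * (f2 * be1' - f1 * th'), f1 * (f2 * ga' - f1 * et'), 0,
        f2 * (f2 * be1' - f1 * th'), f2 * (f2 * ga' - f1 * et')]
      ![0, 0, 0, 0, 0, 0, 0, 0, 0] hT (fun s => by
        simp [RelV, Rel]
        constructor
        · linear_combination r1 + s * (f2 * ga' - f1 * et') * hf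
        · linear_combination r2 + s * (f2 * be1' - f1 * th') * hf)
      (Set.finite_singleton (-(al * om' - al' * om)))
  have hd : (al + s * f2) * om' - al' * (om + s * (-f1)) ≠ 0 := by
    intro h
    refine hs ?_
    show s = -(al * om' - al' * om)
    linear_combination h - s * hf
  refine caseI3 (ρ := ρ) (al1 := al1 + s * 0) (be1 := be1 + s * (f1 * (f2 * be1' - f1 * th')))
    (ga := ga + s * (f1 * (f2 * ga' - f1 * et'))) (th := th + s * (f2 * (f2 * be1' - f1 * th')))
    (et := et + s * (f2 * (f2 * ga' - f1 * et'))) (al1' := al1') (be1' := be1') (ga' := ga')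
    (th' := th') (et' := et') hd ?_
  simpa [Bv] using hT'

theorem caseI1 {ρ : ℕ → ℕ} {al al1 om be1 ga th et al' al1' om' be1' ga' th' et' : k}
    (h : al' ≠ 0 ∨ om' ≠ 0)
    (hT : MaxR ρ ![J321 k, B321 al al1 om 0 be1 ga 0 th et,
      B321 al' al1' om' 0 be1' ga' 0 th' et']) : False := by
  rcases h with h | h
  · exact caseI2 (f1 := al'⁻¹) (f2 := 0) (by field_simp; ring) hT
  · exact caseI2 (f1 := 0) (f2 := om'⁻¹) (by field_simp; ring) hT

omit [IsAlgClosed k] [CharZero k] in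
/-- two linear equations with four unknowns -/
theorem solve2 (a b c d a' b' c' d' : k) : ∃ x y z w : k, (x ≠ 0 ∨ y ≠ 0 ∨ z ≠ 0 ∨ w ≠ 0) ∧
    z * b + w * d = x * b' + y * d' ∧ z * a + w * c = x * a' + y * c' := by
  by_cases hD : a * d - b * c = 0
  · by_cases h1 : c = 0 ∧ a = 0
    · obtain ⟨rfl, rfl⟩ := h1
      by_cases h2 : d = 0 ∧ b = 0
      · obtain ⟨rfl, rfl⟩ := h2
        exact ⟨0, 0, 1, 0, by simp, by ring, by ring⟩
      · refine ⟨0, 0, d, -b, ?_, by ring, by ring⟩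
        by_contra h3
        simp only [not_or, not_not, neg_eq_zero] at h3
        exact h2 ⟨h3.2.2.1, h3.2.2.2⟩
    · refine ⟨0, 0, c, -a, ?_, by linear_combination -hD, by ring⟩
      by_contra h3
      simp only [not_or, not_not, neg_eq_zero] at h3
      exact h1 ⟨h3.2.2.1, h3.2.2.2⟩
  · exact ⟨a * d - b * c, 0, a' * d - b' * c, a * b' - a' * b, Or.inl hD, by ring, by ring⟩

theorem caseI {ρ : ℕ → ℕ} {al al1 om be1 ga th et al' al1' om' be1' ga' th' et' : k}
    (hT : MaxR ρ ![J321 k, B321 al al1 om 0 be1 ga 0 th et,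
      B321 al' al1' om' 0 be1' ga' 0 th' et']) : False := by
  have hinf : Infinite k := inferInstance
  by_cases h1 : al' ≠ 0 ∨ om' ≠ 0
  · exact caseI1 h1 hT
  by_cases h2 : al ≠ 0 ∨ om ≠ 0
  · exact caseI1 h2 (swap hT)
  simp only [not_or, not_not] at h1 h2
  obtain ⟨rfl, rfl⟩ := h1
  obtain ⟨rfl, rfl⟩ := h2
  obtain ⟨x, y, z, w, hne, e1, e2⟩ := solve2 be1 ga th et be1' ga' th' et'
  obtain ⟨s, hs, hT'⟩ := deform_line (b := ![0, al1, 0, 0, be1, ga, 0, th, et])
      (c := ![0, al1', 0, 0, be1', ga', 0, th', et'])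
      ![x, 0, y, 0, 0, 0, 0, 0, 0] ![z, 0, w, 0, 0, 0, 0, 0, 0] hT (fun s => by
        simp [RelV, Rel]
        constructor
        · linear_combination s * e1
        · linear_combination s * e2)
      (Set.finite_singleton (0 : k))
  have hs' : s ≠ 0 := hs
  have hT2 : MaxR ρ ![J321 k, B321 (s * x) al1 (s * y) 0 be1 ga 0 th et,
      B321 (s * z) al1' (s * w) 0 be1' ga' 0 th' et'] := by
    simpa [Bv] using hT'
  rcases hne with h | h | h | h
  · exact caseI1 (Or.inl (mul_ne_zero hs' h)) (swap hT2)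
  · exact caseI1 (Or.inr (mul_ne_zero hs' h)) (swap hT2)
  · exact caseI1 (Or.inl (mul_ne_zero hs' h)) hT2
  · exact caseI1 (Or.inr (mul_ne_zero hs' h)) hT2

/-! ### duality -/

omit [IsAlgClosed k] [CharZero k]

/-- permutation matrix -/
def Sg (k : Type*) [Field k] : Matrix (Fin 6) (Fin 6) k :=
  !![0, 0, 1, 0, 0, 0;
     0, 1, 0, 0, 0, 0;
     1, 0, 0, 0, 0, 0;
     0, 0, 0, 0, 1, 0;
     0, 0, 0, 1, 0, 0;
     0, 0, 0, 0, 0, 1]

theorem Sg_mul : Sg k * Sg k = 1 := by
  ext i j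
  fin_cases i <;> fin_cases j <;>
    simp [Sg, Matrix.mul_apply, Fin.sum_univ_succ]

theorem Sg_J : (J321 k)ᵀ * Sg k = Sg k * J321 k := by
  ext i j
  fin_cases i <;> fin_cases j <;>
    simp [Sg, J321, Matrix.mul_apply, Fin.sum_univ_succ]

theorem Sg_B (al al1 om be be1 ga pi th et : k) :
    (B321 al al1 om be be1 ga pi th et)ᵀ * Sg k = Sg k * B321 be be1 th al al1 ga et om pi := by
  ext i j
  fin_cases i <;> fin_cases j <;>
    simp [Sg, B321, Matrix.mul_apply, Fin.sum_univ_succ]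

theorem dual {ρ : ℕ → ℕ}
    {al al1 om be be1 ga pi th et al' al1' om' be' be1' ga' pi' th' et' : k}
    (hT : MaxR ρ ![J321 k, B321 al al1 om be be1 ga pi th et,
      B321 al' al1' om' be' be1' ga' pi' th' et']) :
    MaxR ρ ![J321 k, B321 be be1 th al al1 ga et om pi,
      B321 be' be1' th' al' al1' ga' et' om' pi'] := by
  have h1 := hT.transpose.conj (Sg k) (Sg k) Sg_mul Sg_mul
  have h2 : (fun i => Sg k * ((![J321 k, B321 al al1 om be be1 ga pi th et,
      B321 al' al1' om' be' be1' ga' pi' th' et'] : Fin 3 → Matrix (Fin 6) (Fin 6) k) i)ᵀ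
        * Sg k) =
      ![J321 k, B321 be be1 th al al1 ga et om pi,
        B321 be' be1' th' al' al1' ga' et' om' pi'] := by
    funext i
    fin_cases i
    · show Sg k * (J321 k)ᵀ * Sg k = J321 k
      rw [Matrix.mul_assoc, Sg_J, ← Matrix.mul_assoc, Sg_mul, Matrix.one_mul]
    · show Sg k * (B321 al al1 om be be1 ga pi th et)ᵀ * Sg k = _
      rw [Matrix.mul_assoc, Sg_B, ← Matrix.mul_assoc, Sg_mul, Matrix.one_mul]
      rfl
    · show Sg k * (B321 al' al1' om' be' be1' ga' pi' th' et')ᵀ * Sg k = _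
      rw [Matrix.mul_assoc, Sg_B, ← Matrix.mul_assoc, Sg_mul, Matrix.one_mul]
      rfl
  rwa [h2] at h1

variable [IsAlgClosed k] [CharZero k]

/-- the case `be = be' = et = et' = 0`, `al = 1`, `al' = 0` -/
theorem caseAl1 {ρ : ℕ → ℕ} (hρ : ∀ i, ρ i = (J321 k ^ i).rank)
    {al1 om be1 ga pi th al1' om' be1' ga' pi' th' : k}
    (hT : MaxR ρ ![J321 k, B321 1 al1 om 0 be1 ga pi th 0,
      B321 0 al1' om' 0 be1' ga' pi' th' 0]) : False := by
  have hinf : Infinite k := inferInstance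
  obtain ⟨-, h2, h3, h4, -, h6, -⟩ := rel_of_comm (hT.cn.1 1 2)
  have p0 : pi' = 0 := by simpa using h2.symm
  have g0 : ga' = 0 := by simpa using h3.symm
  subst p0 g0
  have q0 : pi * th' = 0 := by simpa using h6.symm
  have q1 := (c1' hρ hT (m0 _ _ _) (m1 _ _ _)).2
  rw [one_mul] at q1
  by_cases hp : pi = 0
  · subst hp
    exact caseI hT
  · have t0 : th = 0 := (mul_eq_zero.1 q1).resolve_left hp
    have t0' : th' = 0 := (mul_eq_zero.1 q0).resolve_left hp
    subst t0 t0'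
    have b0 : be1' = 0 := by simpa using h4.symm
    subst b0
    exact caseIII hρ hT

theorem caseAl {ρ : ℕ → ℕ} (hρ : ∀ i, ρ i = (J321 k ^ i).rank)
    {al al1 om be1 ga pi th al' al1' om' be1' ga' pi' th' : k} (hal : al ≠ 0)
    (hT : MaxR ρ ![J321 k, B321 al al1 om 0 be1 ga pi th 0,
      B321 al' al1' om' 0 be1' ga' pi' th' 0]) : False := by
  have e1 : al⁻¹ • B321 al al1 om 0 be1 ga pi th 0 = B321 1 (al⁻¹ * al1) (al⁻¹ * om) 0
      (al⁻¹ * be1) (al⁻¹ * ga) (al⁻¹ * pi) (al⁻¹ * th) 0 := by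
    rw [smulB, inv_mul_cancel₀ hal, mul_zero]
  have e2 : B321 al' al1' om' 0 be1' ga' pi' th' 0 -
      (al' / al) • B321 al al1 om 0 be1 ga pi th 0 = B321 0 (al1' - al' / al * al1)
      (om' - al' / al * om) 0 (be1' - al' / al * be1) (ga' - al' / al * ga)
      (pi' - al' / al * pi) (th' - al' / al * th) 0 := by
    rw [smulB, subB, div_mul_cancel₀ _ hal, sub_self, mul_zero, sub_zero]
  have hT2 : MaxR ρ ![J321 k, al⁻¹ • B321 al al1 om 0 be1 ga pi th 0,
      B321 al' al1' om' 0 be1' ga' pi' th' 0 -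
        (al' / al) • B321 al al1 om 0 be1 ga pi th 0] := by
    have hB : B321 al al1 om 0 be1 ga pi th 0 ∈ adj ![J321 k,
        al⁻¹ • B321 al al1 om 0 be1 ga pi th 0, B321 al' al1' om' 0 be1' ga' pi' th' 0 -
        (al' / al) • B321 al al1 om 0 be1 ga pi th 0] := by
      have h := SMulMemClass.smul_mem al (m1 (J321 k) (al⁻¹ • B321 al al1 om 0 be1 ga pi th 0)
        (B321 al' al1' om' 0 be1' ga' pi' th' 0 -
        (al' / al) • B321 al al1 om 0 be1 ga pi th 0))
      rwa [smul_smul, mul_inv_cancel₀ hal, one_smul] at h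
    refine change3 hT (SMulMemClass.smul_mem _ (m1 _ _ _)) (sub_mem (m2 _ _ _)
      (SMulMemClass.smul_mem _ (m1 _ _ _))) hB ?_
    have h := add_mem (m2 (J321 k) (al⁻¹ • B321 al al1 om 0 be1 ga pi th 0)
        (B321 al' al1' om' 0 be1' ga' pi' th' 0 -
        (al' / al) • B321 al al1 om 0 be1 ga pi th 0)) (SMulMemClass.smul_mem (al' / al) hB)
    rwa [sub_add_cancel] at h
  rw [e1, e2] at hT2
  exact caseAl1 hρ hT2

/-- the case `be = be' = 0` -/
theorem caseBe {ρ : ℕ → ℕ} (hρ : ∀ i, ρ i = (J321 k ^ i).rank)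
    {al al1 om be1 ga pi th et al' al1' om' be1' ga' pi' th' et' : k}
    (hT : MaxR ρ ![J321 k, B321 al al1 om 0 be1 ga pi th et,
      B321 al' al1' om' 0 be1' ga' pi' th' et']) : False := by
  have hinf : Infinite k := inferInstance
  obtain ⟨-, -, -, -, h5, -, -⟩ := rel_of_comm (hT.cn.1 1 2)
  have p1 := (c1' hρ hT (m0 _ _ _) (m1 _ _ _)).1
  have p2 := (c1' hρ hT (m0 _ _ _) (m2 _ _ _)).1
  have p3 : (pi + pi') * (et + et') = 0 := by
    have h := add_mem (m1 (J321 k) (B321 al al1 om 0 be1 ga pi th et)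
      (B321 al' al1' om' 0 be1' ga' pi' th' et')) (m2 (J321 k)
      (B321 al al1 om 0 be1 ga pi th et) (B321 al' al1' om' 0 be1' ga' pi' th' et'))
    rw [addB, add_zero] at h
    exact (c1' hρ hT (m0 _ _ _) h).1
  have p4 : pi * et' = 0 := by
    have h : (2 : k) * (pi * et') = 0 := by
      linear_combination p3 - p1 - p2 - h5
    exact (mul_eq_zero.1 h).resolve_left two_ne_zero
  have p5 : pi' * et = 0 := h5.trans p4
  by_cases hp : pi = 0 ∧ pi' = 0
  · obtain ⟨rfl, rfl⟩ := hp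
    exact caseI hT
  have hq : et = 0 ∧ et' = 0 := by
    by_cases hp1 : pi = 0
    · have hp2 : pi' ≠ 0 := fun h => hp ⟨hp1, h⟩
      exact ⟨(mul_eq_zero.1 p5).resolve_left hp2, (mul_eq_zero.1 p2).resolve_left hp2⟩
    · exact ⟨(mul_eq_zero.1 p1).resolve_left hp1, (mul_eq_zero.1 p4).resolve_left hp1⟩
  obtain ⟨rfl, rfl⟩ := hq
  by_cases h1 : al = 0
  · by_cases h2 : al' = 0
    · subst h1 h2
      exact caseI (dual hT)
    · exact caseAl hρ h2 (swap hT)
  · exact caseAl hρ h1 hT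

theorem caseAll {ρ : ℕ → ℕ} (hρ : ∀ i, ρ i = (J321 k ^ i).rank)
    {al al1 om be be1 ga pi th et al' al1' om' be' be1' ga' pi' th' et' : k}
    (hT : MaxR ρ ![J321 k, B321 al al1 om be be1 ga pi th et,
      B321 al' al1' om' be' be1' ga' pi' th' et']) : False := by
  have hinf : Infinite k := inferInstance
  obtain ⟨h1, -, -, -, -, -, -⟩ := rel_of_comm (hT.cn.1 1 2)
  have p1 := c2 hρ hT (m0 _ _ _) (m1 _ _ _)
  have p2 := c2 hρ hT (m0 _ _ _) (m2 _ _ _)
  have p3 : (al + al') * (be + be') = 0 := by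
    have h := add_mem (m1 (J321 k) (B321 al al1 om be be1 ga pi th et)
      (B321 al' al1' om' be' be1' ga' pi' th' et')) (m2 (J321 k)
      (B321 al al1 om be be1 ga pi th et) (B321 al' al1' om' be' be1' ga' pi' th' et'))
    rw [addB] at h
    exact c2 hρ hT (m0 _ _ _) h
  have p4 : al * be' = 0 := by
    have h : (2 : k) * (al * be') = 0 := by
      linear_combination p3 - p1 - p2 - h1
    exact (mul_eq_zero.1 h).resolve_left two_ne_zero
  have p5 : al' * be = 0 := h1.trans p4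
  by_cases ha : al = 0 ∧ al' = 0
  · obtain ⟨rfl, rfl⟩ := ha
    exact caseBe hρ (dual hT)
  have hq : be = 0 ∧ be' = 0 := by
    by_cases ha1 : al = 0
    · have ha2 : al' ≠ 0 := fun h => ha ⟨ha1, h⟩
      exact ⟨(mul_eq_zero.1 p5).resolve_left ha2, (mul_eq_zero.1 p2).resolve_left ha2⟩
    · exact ⟨(mul_eq_zero.1 p1).resolve_left ha1, (mul_eq_zero.1 p4).resolve_left ha1⟩
  obtain ⟨rfl, rfl⟩ := hq
  exact caseBe hρ hT

end T321SAux

open T321SAux

variable [IsAlgClosed k] [CharZero k]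

theorem no_321 {ρ : ℕ → ℕ} {T : Fin 3 → Matrix (Fin 6) (Fin 6) k} (hT : MaxR ρ T)
    (hρ : ∀ i, ρ i = (J321 k ^ i).rank) (h0 : T 0 = J321 k) : False := by
  have hT' : MaxR ρ ![J321 k, T 1, T 2] := by
    have e : T = ![J321 k, T 1, T 2] := by
      funext i
      fin_cases i
      exacts [h0, rfl, rfl]
    rwa [← e]
  obtain ⟨x1, x2, al, al1, om, be, be1, ga, pi, th, et, hB⟩ :=
    shape (hT'.cn.1 0 1) (hT'.cn.2 1)
  obtain ⟨y1, y2, al', al1', om', be', be1', ga', pi', th', et', hC⟩ :=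
    shape (hT'.cn.1 0 2) (hT'.cn.2 2)
  have key : ∀ (B C : Matrix (Fin 6) (Fin 6) k) (a b : k),
      a • J321 k + b • (J321 k * J321 k) ∈ adj ![J321 k, B, C] := fun B C a b =>
    add_mem (SMulMemClass.smul_mem _ (m0 _ _ _))
      (SMulMemClass.smul_mem _ (mul_mem (m0 _ _ _) (m0 _ _ _)))
  have hB' : B321 al al1 om be be1 ga pi th et ∈ adj ![J321 k, T 1, T 2] := by
    have h := sub_mem (m1 (J321 k) (T 1) (T 2)) (key (T 1) (T 2) x1 x2)
    have e : T 1 - (x1 • J321 k + x2 • (J321 k * J321 k)) =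
        B321 al al1 om be be1 ga pi th et := by
      rw [sub_eq_iff_eq_add, add_comm]
      exact hB
    rwa [e] at h
  have hC' : B321 al' al1' om' be' be1' ga' pi' th' et' ∈ adj ![J321 k, T 1, T 2] := by
    have h := sub_mem (m2 (J321 k) (T 1) (T 2)) (key (T 1) (T 2) y1 y2)
    have e : T 2 - (y1 • J321 k + y2 • (J321 k * J321 k)) =
        B321 al' al1' om' be' be1' ga' pi' th' et' := by
      rw [sub_eq_iff_eq_add, add_comm]
      exact hC
    rwa [e] at h
  refine caseAll hρ (change3 hT' hB' hC' ?_ ?_)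
  · have h := add_mem (key (B321 al al1 om be be1 ga pi th et)
      (B321 al' al1' om' be' be1' ga' pi' th' et') x1 x2) (m1 _ _ _)
    rw [← hB] at h
    exact h
  · have h := add_mem (key (B321 al al1 om be be1 ga pi th et)
      (B321 al' al1' om' be' be1' ga' pi' th' et') y1 y2) (m2 _ _ _)
    rw [← hC] at h
    exact h

end Pool.Agent.Lib.D7
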