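import Pool.Agent.Lib.D7.Api
import Pool.Agent.Lib.D7.DefsS

set_option autoImplicit false

/-!
# MP_5dcbc3_ag: type (3,3), size 6
-/

namespace Pool.Agent.Lib.D7

open Matrix Pool.Agent.Lib.Q5dc

namespace T33SAux

variable {k : Type*} [Field k]

/-- `P + Q x + R x^2` acting on `k^2 [x] / x^3` -/
def F (P Q R : Matrix (Fin 2) (Fin 2) k) : Matrix (Fin 6) (Fin 6) k :=
  !![P 0 0, 0, 0, P 0 1, 0, 0;
     Q 0 0, P 0 0, 0, Q 0 1, P 0 1, 0;
     R 0 0, Q 0 0, P 0 0, R 0 1, Q 0 1, P 0 1;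
     P 1 0, 0, 0, P 1 1, 0, 0;
     Q 1 0, P 1 0, 0, Q 1 1, P 1 1, 0;
     R 1 0, Q 1 0, P 1 0, R 1 1, Q 1 1, P 1 1]

theorem F_mul (P Q R P' Q' R' : Matrix (Fin 2) (Fin 2) k) : F P Q R * F P' Q' R' =
    F (P * P') (P * Q' + Q * P') (P * R' + Q * Q' + R * P') := by
  ext i j
  fin_cases i <;> fin_cases j <;>
    simp [F, Matrix.mul_apply, Fin.sum_univ_succ] <;> ring

theorem F_add (P Q R P' Q' R' : Matrix (Fin 2) (Fin 2) k) : F P Q R + F P' Q' R' =
    F (P + P') (Q + Q') (R + R') := by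
  ext i j
  fin_cases i <;> fin_cases j <;> simp [F]

theorem F_smul (s : k) (P Q R : Matrix (Fin 2) (Fin 2) k) : s • F P Q R =
    F (s • P) (s • Q) (s • R) := by
  ext i j
  fin_cases i <;> fin_cases j <;> simp [F]

theorem F_zero : F (0 : Matrix (Fin 2) (Fin 2) k) 0 0 = 0 := by
  ext i j
  fin_cases i <;> fin_cases j <;> simp [F]

theorem J_eq : J33 k = F 0 1 0 := by
  ext i j
  fin_cases i <;> fin_cases j <;> simp [F, J33]

theorem F_inj3 {P Q R P' Q' R' : Matrix (Fin 2) (Fin 2) k} (h : F P Q R = F P' Q' R') :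
    R = R' := by
  have h1 := fun i j => congrFun (congrFun h i) j
  ext i j
  fin_cases i <;> fin_cases j
  · simpa [F] using h1 2 0
  · simpa [F] using h1 2 3
  · simpa [F] using h1 5 0
  · simpa [F] using h1 5 3

theorem nilp0 (Q R : Matrix (Fin 2) (Fin 2) k) : IsNilpotent (F 0 Q R) := by
  refine ⟨3, ?_⟩
  rw [pow_succ, pow_two, F_mul, F_mul, ← F_zero]
  simp

theorem nilp {P : Matrix (Fin 2) (Fin 2) k} (hP : P * P = 0) (Q R : Matrix (Fin 2) (Fin 2) k) :
    IsNilpotent (F P Q R) := by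
  have h : IsNilpotent (F P Q R ^ 2) := by
    rw [pow_two, F_mul, hP]
    exact nilp0 _ _
  exact h.of_pow

theorem cn_of {P Q R P' Q' R' : Matrix (Fin 2) (Fin 2) k} (hP : P * P = 0) (hP' : P' * P' = 0)
    (h : F P Q R * F P' Q' R' = F P' Q' R' * F P Q R) :
    CN ![J33 k, F P Q R, F P' Q' R'] := by
  have hJ : ∀ P Q R : Matrix (Fin 2) (Fin 2) k, J33 k * F P Q R = F P Q R * J33 k := by
    intro P Q R
    rw [J_eq, F_mul, F_mul]
    simp
  refine ⟨fun i j => ?_, fun i => ?_⟩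
  · fin_cases i <;> fin_cases j
    · rfl
    · exact hJ ..
    · exact hJ ..
    · exact (hJ ..).symm
    · rfl
    · exact h
    · exact (hJ ..).symm
    · exact h.symm
    · rfl
  · fin_cases i
    · show IsNilpotent (J33 k)
      rw [J_eq]
      exact nilp0 _ _
    · exact nilp hP _ _
    · exact nilp hP' _ _

/-! ### the shape -/

theorem JM0 (M : Matrix (Fin 6) (Fin 6) k) (j) : (J33 k * M) 0 j = 0 := by
  rw [Matrix.mul_apply, Fin.sum_univ_six]; simp [J33]
theorem JM1 (M : Matrix (Fin 6) (Fin 6) k) (j) : (J33 k * M) 1 j = M 0 j := by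
  rw [Matrix.mul_apply, Fin.sum_univ_six]; simp [J33]
theorem JM2 (M : Matrix (Fin 6) (Fin 6) k) (j) : (J33 k * M) 2 j = M 1 j := by
  rw [Matrix.mul_apply, Fin.sum_univ_six]; simp [J33]
theorem JM3 (M : Matrix (Fin 6) (Fin 6) k) (j) : (J33 k * M) 3 j = 0 := by
  rw [Matrix.mul_apply, Fin.sum_univ_six]; simp [J33]
theorem JM4 (M : Matrix (Fin 6) (Fin 6) k) (j) : (J33 k * M) 4 j = M 3 j := by
  rw [Matrix.mul_apply, Fin.sum_univ_six]; simp [J33]
theorem JM5 (M : Matrix (Fin 6) (Fin 6) k) (j) : (J33 k * M) 5 j = M 4 j := by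
  rw [Matrix.mul_apply, Fin.sum_univ_six]; simp [J33]
theorem MJ0 (M : Matrix (Fin 6) (Fin 6) k) (i) : (M * J33 k) i 0 = M i 1 := by
  rw [Matrix.mul_apply, Fin.sum_univ_six]; simp [J33]
theorem MJ1 (M : Matrix (Fin 6) (Fin 6) k) (i) : (M * J33 k) i 1 = M i 2 := by
  rw [Matrix.mul_apply, Fin.sum_univ_six]; simp [J33]
theorem MJ3 (M : Matrix (Fin 6) (Fin 6) k) (i) : (M * J33 k) i 3 = M i 4 := by
  rw [Matrix.mul_apply, Fin.sum_univ_six]; simp [J33]
theorem MJ4 (M : Matrix (Fin 6) (Fin 6) k) (i) : (M * J33 k) i 4 = M i 5 := by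
  rw [Matrix.mul_apply, Fin.sum_univ_six]; simp [J33]

theorem gd_of {M : Matrix (Fin 6) (Fin 6) k} (h : J33 k * M = M * J33 k)
    (h2 : J33 k * (J33 k * M) = 0) : M = F 0 !![M 1 0, M 1 3; M 4 0, M 4 3]
      !![M 2 0, M 2 3; M 5 0, M 5 3] := by
  have e : ∀ i j, (J33 k * M) i j = (M * J33 k) i j := fun i j => by rw [h]
  have e2 : ∀ i j, (J33 k * (J33 k * M)) i j = 0 := fun i j => by rw [h2]; rfl
  have r0 : ∀ j, M 0 j = 0 := fun j => by
    have := e2 2 j
    rwa [JM2, JM1] at this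
  have r3 : ∀ j, M 3 j = 0 := fun j => by
    have := e2 5 j
    rwa [JM5, JM4] at this
  have m11 : M 1 1 = 0 := by have := e 1 0; rw [JM1, MJ0, r0] at this; exact this.symm
  have m12 : M 1 2 = 0 := by have := e 1 1; rw [JM1, MJ1, r0] at this; exact this.symm
  have m14 : M 1 4 = 0 := by have := e 1 3; rw [JM1, MJ3, r0] at this; exact this.symm
  have m15 : M 1 5 = 0 := by have := e 1 4; rw [JM1, MJ4, r0] at this; exact this.symm
  have m21 : M 2 1 = M 1 0 := by have := e 2 0; rw [JM2, MJ0] at this; exact this.symm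
  have m22 : M 2 2 = 0 := by have := e 2 1; rw [JM2, MJ1, m11] at this; exact this.symm
  have m24 : M 2 4 = M 1 3 := by have := e 2 3; rw [JM2, MJ3] at this; exact this.symm
  have m25 : M 2 5 = 0 := by have := e 2 4; rw [JM2, MJ4, m14] at this; exact this.symm
  have m41 : M 4 1 = 0 := by have := e 4 0; rw [JM4, MJ0, r3] at this; exact this.symm
  have m42 : M 4 2 = 0 := by have := e 4 1; rw [JM4, MJ1, r3] at this; exact this.symm
  have m44 : M 4 4 = 0 := by have := e 4 3; rw [JM4, MJ3, r3] at this; exact this.symm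
  have m45 : M 4 5 = 0 := by have := e 4 4; rw [JM4, MJ4, r3] at this; exact this.symm
  have m51 : M 5 1 = M 4 0 := by have := e 5 0; rw [JM5, MJ0] at this; exact this.symm
  have m52 : M 5 2 = 0 := by have := e 5 1; rw [JM5, MJ1, m41] at this; exact this.symm
  have m54 : M 5 4 = M 4 3 := by have := e 5 3; rw [JM5, MJ3] at this; exact this.symm
  have m55 : M 5 5 = 0 := by have := e 5 4; rw [JM5, MJ4, m44] at this; exact this.symm
  ext i j
  fin_cases i <;> fin_cases j <;> simp [F, r0, r3, m11, m12, m14, m15, m21, m22, m24, m25,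
    m41, m42, m44, m45, m51, m52, m54, m55]

section
variable [CharZero k] {n : Type*} [Fintype n] [DecidableEq n] {ρ : ℕ → ℕ}
  {T : Fin 3 → Matrix n n k}

theorem cube (hT : MaxR ρ T) (h3 : ρ 3 = 0) {X : Matrix n n k} (hX : X ∈ adj T) :
    X * X * X = 0 := by
  have h := hT.pow_eq_zero hX h3
  rw [← h, pow_succ, pow_two]

theorem sqmul (hT : MaxR ρ T) (h3 : ρ 3 = 0) {X Y : Matrix n n k} (hX : X ∈ adj T)
    (hY : Y ∈ adj T) : X * (X * Y) = 0 := by
  have c : Y * X = X * Y := hT.cn.comm hY hX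
  have h1 := cube hT h3 (add_mem hX hY)
  have h2 := cube hT h3 (sub_mem hX hY)
  have h4 := cube hT h3 hY
  have e1 : (X + Y) * (X + Y) * (X + Y) - (X - Y) * (X - Y) * (X - Y) - (2 : ℤ) • (Y * Y * Y) =
      (2 : ℤ) • (X * (X * Y)) + (2 : ℤ) • (X * (Y * X)) + (2 : ℤ) • (Y * X * X) := by
    noncomm_ring
  rw [h1, h2, h4, c, show X * Y * X = X * (X * Y) by rw [mul_assoc, c]] at e1
  have e2 : (6 : ℤ) • (X * (X * Y)) = 0 := by
    rw [show (6 : ℤ) = 2 + 2 + 2 by norm_num, add_smul, add_smul, ← e1]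
    simp
  ext i j
  have e3 := congrFun (congrFun e2 i) j
  simpa using e3

end

theorem J_cube : J33 k ^ 3 = 0 := by
  rw [J_eq, pow_succ, pow_two, F_mul, F_mul, ← F_zero]
  simp

section
variable [IsAlgClosed k] [CharZero k] {ρ : ℕ → ℕ} {T : Fin 3 → Matrix (Fin 6) (Fin 6) k}

omit [CharZero k] in
theorem pick {E : Set k} (hE : E.Finite) : ∃ s, s ∉ E ∧ s ≠ 0 := by
  have : Infinite k := IsAlgClosed.instInfinite
  obtain ⟨s, hs⟩ := (hE.union (Set.finite_singleton (0 : k))).infinite_compl.nonempty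
  rw [Set.mem_compl_iff, Set.mem_union, not_or] at hs
  exact ⟨s, hs.1, hs.2⟩

omit [CharZero k] in
theorem pick2 {E : Set k} (hE : E.Finite) (e f : k) : ∃ s, s ∉ E ∧ s * s + e * s + f ≠ 0 := by
  have : Infinite k := IsAlgClosed.instInfinite
  have hF : {s : k | s * s + e * s + f = 0}.Finite := by
    by_cases h : ∃ r : k, r * r + e * r + f = 0
    · obtain ⟨r, hr⟩ := h
      refine ((Set.finite_singleton (-e - r)).insert r).subset fun s hs => ?_
      have hs' : s * s + e * s + f = 0 := hs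
      have h1 : (s - r) * (s - (-e - r)) = 0 := by linear_combination hs' - hr
      rcases mul_eq_zero.1 h1 with h2 | h2
      · exact Or.inl (sub_eq_zero.1 h2)
      · exact Or.inr (sub_eq_zero.1 h2)
    · refine Set.finite_empty.subset fun s hs => h ⟨s, hs⟩
  obtain ⟨s, hs⟩ := (hE.union hF).infinite_compl.nonempty
  rw [Set.mem_compl_iff, Set.mem_union, not_or] at hs
  exact ⟨s, hs.1, hs.2⟩

/-- the last step: `C = x^2 Y` with `Y^2 = 0` -/
theorem last (h3 : ρ 3 = 0) {Q R Y : Matrix (Fin 2) (Fin 2) k}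
    (hT : MaxR ρ ![J33 k, F 0 Q R, F 0 0 Y]) (hY : Y * Y = 0) : False := by
  have hI : Infinite k := IsAlgClosed.instInfinite
  obtain ⟨Z, hZ, hZ2, hZY⟩ : ∃ Z : Matrix (Fin 2) (Fin 2) k, Z ≠ 0 ∧ Z * Z = 0 ∧
      Z * Y = Y * Z := by
    by_cases h : Y = 0
    · refine ⟨!![0, 0; 1, 0], fun h1 => ?_, ?_, by simp [h]⟩
      · have := congrFun (congrFun h1 1) 0
        simp at this
      · ext i j
        fin_cases i <;> fin_cases j <;> simp
    · exact ⟨Y, h, hY, rfl⟩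
  obtain ⟨E, hE, h⟩ := hT.deform (fun s => ![J33 k, F (s • Z) Q R, F 0 0 Y]) (by
    intro i x y
    fin_cases i
    · exact IsPoly.const _
    · have e : ∀ s : k, F (s • Z) Q R x y = F 0 Q R x y + s * F Z 0 0 x y := by
        intro s
        have e1 : F (s • Z) Q R = F 0 Q R + s • F Z 0 0 := by
          rw [F_smul, F_add]
          simp
        rw [e1]
        rfl
      show IsPoly fun s => F (s • Z) Q R x y
      simp only [e]
      exact (IsPoly.const _).add (IsPoly.id.mul (IsPoly.const _))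
    · exact IsPoly.const _) (by simp) Set.finite_empty (by
    intro s _
    refine cn_of ?_ (by simp) ?_
    · rw [smul_mul_smul_comm, hZ2, smul_zero]
    · rw [F_mul, F_mul]
      simp [hZY])
  obtain ⟨s, hs, hs2⟩ := pick hE
  have h1 := h s hs
  have h2 := sqmul h1 h3 (mem_adj _ 0) (mem_adj _ 1)
  have h4 : J33 k * (J33 k * F (s • Z) Q R) = 0 := h2
  rw [J_eq, F_mul, F_mul, ← F_zero] at h4
  have h5 := F_inj3 h4
  simp only [zero_mul, one_mul, zero_add, add_zero, mul_zero] at h5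
  exact (smul_ne_zero hs2 hZ) h5

/-- `C = x^2 R'`, the traceless part of `Q` is invertible -/
theorem gen (h3 : ρ 3 = 0) {Q R R' : Matrix (Fin 2) (Fin 2) k}
    (hT : MaxR ρ ![J33 k, F 0 Q R, F 0 0 R'])
    (hQ : (Q 0 0 - Q 1 1) ^ 2 + 4 * Q 0 1 * Q 1 0 ≠ 0) : False := by
  have h2 : (2 : k) ≠ 0 := two_ne_zero
  set a := (Q 0 0 - Q 1 1) ^ 2 + 4 * Q 0 1 * Q 1 0 with ha
  set b := -2 * ((R' 0 0 - R' 1 1) * (Q 0 0 - Q 1 1) + 2 * (R' 0 1 * Q 1 0 + R' 1 0 * Q 0 1))
    with hb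
  set c := (R' 0 0 - R' 1 1) ^ 2 + 4 * R' 0 1 * R' 1 0 with hc
  obtain ⟨t, ht⟩ : ∃ t : k, a * (t * t) + b * t + c = 0 := by
    have hNZ : NeZero (2 : k) := ⟨h2⟩
    obtain ⟨z, hz⟩ := IsAlgClosed.exists_pow_nat_eq (discrim a b c) (n := 2) (by norm_num)
    exact exists_quadratic_eq_zero hQ ⟨z, by rw [← hz, pow_two]⟩
  set μ : k := ((R' 0 0 - t * Q 0 0) + (R' 1 1 - t * Q 1 1)) / 2 with hμ
  have hμ2 : 2 * μ = (R' 0 0 - t * Q 0 0) + (R' 1 1 - t * Q 1 1) := by
    rw [hμ]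
    field_simp
  set Y : Matrix (Fin 2) (Fin 2) k := R' - t • Q - μ • 1 with hY
  have y00 : Y 0 0 = R' 0 0 - t * Q 0 0 - μ := by simp [hY]
  have y01 : Y 0 1 = R' 0 1 - t * Q 0 1 := by simp [hY]
  have y10 : Y 1 0 = R' 1 0 - t * Q 1 0 := by simp [hY]
  have y11 : Y 1 1 = R' 1 1 - t * Q 1 1 - μ := by simp [hY]
  have hs : Y 0 0 + Y 1 1 = 0 := by
    rw [y00, y11]
    linear_combination -hμ2
  have hd : Y 0 0 * Y 0 0 + Y 0 1 * Y 1 0 = 0 := by
    have h4 : (4 : k) ≠ 0 := by norm_num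
    refine (mul_eq_zero.1 (?_ : (4 : k) * _ = 0)).resolve_left h4
    have e1 : 2 * Y 0 0 = (R' 0 0 - R' 1 1) - t * (Q 0 0 - Q 1 1) := by
      rw [y00]
      linear_combination -hμ2
    have e2 : (2 * Y 0 0) * (2 * Y 0 0) = ((R' 0 0 - R' 1 1) - t * (Q 0 0 - Q 1 1)) *
      ((R' 0 0 - R' 1 1) - t * (Q 0 0 - Q 1 1)) := by rw [e1]
    rw [y01, y10]
    rw [ha, hb, hc] at ht
    linear_combination ht + e2
  have hY2 : Y * Y = 0 := by
    have y11' : Y 1 1 = -Y 0 0 := by linear_combination hs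
    ext i j
    fin_cases i <;> fin_cases j
    · simp only [Matrix.mul_apply, Fin.sum_univ_two]
      exact hd
    · simp only [Matrix.mul_apply, Fin.sum_univ_two]
      show Y 0 0 * Y 0 1 + Y 0 1 * Y 1 1 = 0
      rw [y11']
      ring
    · simp only [Matrix.mul_apply, Fin.sum_univ_two]
      show Y 1 0 * Y 0 0 + Y 1 1 * Y 1 0 = 0
      rw [y11']
      ring
    · simp only [Matrix.mul_apply, Fin.sum_univ_two]
      show Y 1 0 * Y 0 1 + Y 1 1 * Y 1 1 = 0
      rw [y11']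
      linear_combination hd
  have e : F 0 0 R' = F 0 0 Y + t • (J33 k * F 0 Q R) + μ • (J33 k * J33 k) := by
    rw [J_eq, F_mul, F_mul, F_smul, F_smul, F_add, F_add]
    simp only [mul_zero, zero_mul, one_mul, mul_one, add_zero, zero_add, smul_zero, hY]
    congr 1
    abel
  have hc' : CN ![J33 k, F 0 Q R, F 0 0 Y] := by
    refine cn_of (by simp) (by simp) ?_
    rw [F_mul, F_mul]
    simp
  refine last h3 (hT.change hc' fun i => ?_) hY2
  have m0 : J33 k ∈ adj ![J33 k, F 0 Q R, F 0 0 Y] := mem_adj _ 0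
  have m1 : F 0 Q R ∈ adj ![J33 k, F 0 Q R, F 0 0 Y] := mem_adj _ 1
  have m2 : F 0 0 Y ∈ adj ![J33 k, F 0 Q R, F 0 0 Y] := mem_adj _ 2
  fin_cases i
  · exact m0
  · exact m1
  · show F 0 0 R' ∈ _
    rw [e]
    exact add_mem (add_mem m2 (SMulMemClass.smul_mem _ (mul_mem m0 m1)))
      (SMulMemClass.smul_mem _ (mul_mem m0 m0))

/-- `C = x^2 R'` -/
theorem gen0 (h3 : ρ 3 = 0) {Q R R' : Matrix (Fin 2) (Fin 2) k}
    (hT : MaxR ρ ![J33 k, F 0 Q R, F 0 0 R']) : False := by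
  have hI : Infinite k := IsAlgClosed.instInfinite
  obtain ⟨E, hE, h⟩ := hT.deform (fun s => ![J33 k, F 0 (Q + s • !![1, 0; 0, 0]) R, F 0 0 R']) (by
    intro i x y
    fin_cases i
    · exact IsPoly.const _
    · have e : ∀ s : k, F 0 (Q + s • !![1, 0; 0, 0]) R x y =
          F 0 Q R x y + s * F 0 !![1, 0; 0, 0] 0 x y := by
        intro s
        have e1 : F 0 (Q + s • !![1, 0; 0, 0]) R = F 0 Q R + s • F 0 !![1, 0; 0, 0] 0 := by
          rw [F_smul, F_add, smul_zero, add_zero, add_zero]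
        rw [e1]
        rfl
      show IsPoly fun s => F 0 (Q + s • !![1, 0; 0, 0]) R x y
      simp only [e]
      exact (IsPoly.const _).add (IsPoly.id.mul (IsPoly.const _))
    · exact IsPoly.const _) (by simp) Set.finite_empty (by
    intro s _
    refine cn_of (by simp) (by simp) ?_
    rw [F_mul, F_mul]
    simp)
  obtain ⟨s, hs, hs2⟩ := pick2 hE (2 * (Q 0 0 - Q 1 1))
    ((Q 0 0 - Q 1 1) ^ 2 + 4 * Q 0 1 * Q 1 0)
  refine gen h3 (h s hs) ?_
  intro h4
  apply hs2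
  simp only [Matrix.add_apply, Matrix.smul_apply, smul_eq_mul, Matrix.of_apply, Matrix.cons_val',
    Matrix.cons_val_zero, Matrix.cons_val_one, Matrix.cons_val_fin_one] at h4
  linear_combination h4

end

/-- commuting 2 x 2 matrices -/
theorem comm2 {a00 a01 a10 a11 b00 b01 b10 b11 : k} (e1 : a01 * b10 = b01 * a10)
    (e2 : a00 * b01 + a01 * b11 = b00 * a01 + b01 * a11)
    (e3 : a10 * b00 + a11 * b10 = b10 * a00 + b11 * a10)
    (h : ¬ (b01 = 0 ∧ b10 = 0 ∧ b00 = b11)) :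
    ∃ l : k, a01 = l * b01 ∧ a10 = l * b10 ∧ a00 - a11 = l * (b00 - b11) := by
  by_cases h1 : b01 = 0
  · by_cases h2 : b10 = 0
    · have h4 : b00 - b11 ≠ 0 := fun h5 => h ⟨h1, h2, sub_eq_zero.1 h5⟩
      refine ⟨(a00 - a11) / (b00 - b11), ?_, ?_, (div_mul_cancel₀ _ h4).symm⟩
      · subst h1
        have h5 : (b00 - b11) * a01 = 0 := by linear_combination -e2
        rw [(mul_eq_zero.1 h5).resolve_left h4, mul_zero]
      · subst h2
        have h5 : (b00 - b11) * a10 = 0 := by linear_combination e3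
        rw [(mul_eq_zero.1 h5).resolve_left h4, mul_zero]
    · refine ⟨a10 / b10, ?_, (div_mul_cancel₀ _ h2).symm, ?_⟩
      · rw [div_mul_eq_mul_div, eq_div_iff h2]
        linear_combination e1
      · rw [div_mul_eq_mul_div, eq_div_iff h2]
        linear_combination -e3
  · refine ⟨a01 / b01, (div_mul_cancel₀ _ h1).symm, ?_, ?_⟩
    · rw [div_mul_eq_mul_div, eq_div_iff h1]
      linear_combination -e1
    · rw [div_mul_eq_mul_div, eq_div_iff h1]
      linear_combination e2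

/-- commuting 2 x 2 matrices: one of them is scalar or the other one is a combination -/
theorem comm2' {Q Q' : Matrix (Fin 2) (Fin 2) k} (h : Q * Q' = Q' * Q) :
    (∃ μ : k, Q' = μ • 1) ∨ ∃ l μ : k, Q = l • Q' + μ • 1 := by
  by_cases hn : Q' 0 1 = 0 ∧ Q' 1 0 = 0 ∧ Q' 0 0 = Q' 1 1
  · left
    refine ⟨Q' 0 0, ?_⟩
    ext i j
    fin_cases i <;> fin_cases j <;> simp [hn.1, hn.2.1, hn.2.2]
  · right
    have e : ∀ i j, Q i 0 * Q' 0 j + Q i 1 * Q' 1 j = Q' i 0 * Q 0 j + Q' i 1 * Q 1 j := by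
      intro i j
      have := congrFun (congrFun h i) j
      simpa only [Matrix.mul_apply, Fin.sum_univ_two] using this
    obtain ⟨l, l1, l2, l3⟩ := comm2 (a00 := Q 0 0) (a01 := Q 0 1) (a10 := Q 1 0)
      (a11 := Q 1 1) (b00 := Q' 0 0) (b01 := Q' 0 1) (b10 := Q' 1 0) (b11 := Q' 1 1)
      (by linear_combination e 0 0) (by linear_combination e 0 1)
      (by linear_combination e 1 0) hn
    refine ⟨l, Q 0 0 - l * Q' 0 0, ?_⟩
    ext i j
    fin_cases i <;> fin_cases j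
    · simp
    · simpa using l1
    · simpa using l2
    · simp
      linear_combination -l3

end T33SAux

open T33SAux in
/-- Type (3,3) does not occur. -/
theorem no_33 {k : Type*} [Field k] [IsAlgClosed k] [CharZero k] {ρ : ℕ → ℕ}
    {T : Fin 3 → Matrix (Fin 6) (Fin 6) k} (hT : MaxR ρ T)
    (hρ : ∀ i, ρ i = (J33 k ^ i).rank) (h0 : T 0 = J33 k) : False := by
  have hI : Infinite k := IsAlgClosed.instInfinite
  have h3 : ρ 3 = 0 := by rw [hρ, J_cube, Matrix.rank_zero]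
  have hA := mem_adj T 0
  rw [h0] at hA
  have g : ∀ i, T i = F 0 !![T i 1 0, T i 1 3; T i 4 0, T i 4 3]
      !![T i 2 0, T i 2 3; T i 5 0, T i 5 3] := fun i =>
    gd_of (hT.cn.comm hA (mem_adj T i)) (sqmul hT h3 hA (mem_adj T i))
  obtain ⟨Q, R, Q', R', e⟩ : ∃ Q R Q' R', T = ![J33 k, F 0 Q R, F 0 Q' R'] := by
    refine ⟨!![T 1 1 0, T 1 1 3; T 1 4 0, T 1 4 3], !![T 1 2 0, T 1 2 3; T 1 5 0, T 1 5 3],
      !![T 2 1 0, T 2 1 3; T 2 4 0, T 2 4 3], !![T 2 2 0, T 2 2 3; T 2 5 0, T 2 5 3],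
      funext fun i => ?_⟩
    fin_cases i
    · exact h0
    · exact g 1
    · exact g 2
  subst e
  have hc : F 0 Q R * F 0 Q' R' = F 0 Q' R' * F 0 Q R := hT.cn.1 1 2
  rw [F_mul, F_mul] at hc
  have hc2 := F_inj3 hc
  simp only [zero_mul, zero_add, mul_zero, add_zero] at hc2
  rcases comm2' hc2 with ⟨μ, hμ⟩ | ⟨l, μ, hl⟩
  · have hc' : CN ![J33 k, F 0 Q R, F 0 0 R'] := by
      refine cn_of (by simp) (by simp) ?_
      rw [F_mul, F_mul]
      simp
    refine gen0 h3 (hT.change hc' fun i => ?_)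
    have m0 : J33 k ∈ adj ![J33 k, F 0 Q R, F 0 0 R'] := mem_adj _ 0
    have m1 : F 0 Q R ∈ adj ![J33 k, F 0 Q R, F 0 0 R'] := mem_adj _ 1
    have m2 : F 0 0 R' ∈ adj ![J33 k, F 0 Q R, F 0 0 R'] := mem_adj _ 2
    fin_cases i
    · exact m0
    · exact m1
    · show F 0 Q' R' ∈ _
      have e1 : F 0 Q' R' = F 0 0 R' + μ • J33 k := by
        rw [J_eq, F_smul, F_add, hμ]
        simp
      rw [e1]
      exact add_mem m2 (SMulMemClass.smul_mem _ m0)
  · have hc' : CN ![J33 k, F 0 Q' R', F 0 0 (R - l • R')] := by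
      refine cn_of (by simp) (by simp) ?_
      rw [F_mul, F_mul]
      simp
    refine gen0 h3 (hT.change hc' fun i => ?_)
    have m0 : J33 k ∈ adj ![J33 k, F 0 Q' R', F 0 0 (R - l • R')] := mem_adj _ 0
    have m1 : F 0 Q' R' ∈ adj ![J33 k, F 0 Q' R', F 0 0 (R - l • R')] := mem_adj _ 1
    have m2 : F 0 0 (R - l • R') ∈ adj ![J33 k, F 0 Q' R', F 0 0 (R - l • R')] := mem_adj _ 2
    fin_cases i
    · exact m0
    · show F 0 Q R ∈ _
      have e1 : F 0 Q R = F 0 0 (R - l • R') + l • F 0 Q' R' + μ • J33 k := by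
        rw [J_eq, F_smul, F_smul, F_add, F_add, hl]
        simp
      rw [e1]
      exact add_mem (add_mem m2 (SMulMemClass.smul_mem _ m1)) (SMulMemClass.smul_mem _ m0)
    · exact m1

end Pool.Agent.Lib.D7
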