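import Pool.Agent.Lib.D7.NodeS
import Pool.Agent.Lib.D7.Api
import Pool.Agent.Lib.D7.DefsS

/-!
# MP_5dcbc3_ag: Jordan type `(4, 2)` (size 6)
-/

namespace Pool.Agent.Lib.D7

open Matrix Pool.Agent.Lib.Q5dc

namespace T42SAux

variable {k : Type*} [Field k]

theorem comm_J (b0 b1 c0 c1 q1 : k) :
    J42 k * B42 b0 b1 c0 c1 q1 = B42 b0 b1 c0 c1 q1 * J42 k := by
  ext i j
  fin_cases i <;> fin_cases j <;>
    simp [J42, B42, Matrix.mul_apply, Fin.sum_univ_succ]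

theorem J_mul (b0 b1 c0 c1 q1 : k) :
    J42 k * B42 b0 b1 c0 c1 q1 = B42 0 b0 0 c0 0 := by
  ext i j
  fin_cases i <;> fin_cases j <;>
    simp [J42, B42, Matrix.mul_apply, Fin.sum_univ_succ]

theorem comm_BB {b0 b1 c0 c1 q1 b0' b1' c0' c1' q1' : k}
    (r1 : c0' * b0 = c0 * b0') (r2 : c0' * b1 + c1' * b0 = c0 * b1' + c1 * b0')
    (r3 : c0' * q1 = c0 * q1') (r4 : q1' * b0 = q1 * b0') :
    B42 b0 b1 c0 c1 q1 * B42 b0' b1' c0' c1' q1' =
      B42 b0' b1' c0' c1' q1' * B42 b0 b1 c0 c1 q1 := by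
  ext i j
  fin_cases i <;> fin_cases j <;>
    simp [B42, Matrix.mul_apply, Fin.sum_univ_succ] <;>
    first
    | ring1
    | linear_combination r1
    | linear_combination r2
    | linear_combination r3
    | linear_combination r4

theorem rel_BB {b0 b1 c0 c1 q1 b0' b1' c0' c1' q1' : k}
    (h : B42 b0 b1 c0 c1 q1 * B42 b0' b1' c0' c1' q1' =
      B42 b0' b1' c0' c1' q1' * B42 b0 b1 c0 c1 q1) :
    c0' * b0 = c0 * b0' ∧ c0' * b1 + c1' * b0 = c0 * b1' + c1 * b0' ∧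
    c0' * q1 = c0 * q1' ∧ q1' * b0 = q1 * b0' := by
  have e1 := congrFun (congrFun h 2) 0
  have e2 := congrFun (congrFun h 3) 0
  have e3 := congrFun (congrFun h 5) 0
  have e4 := congrFun (congrFun h 3) 4
  simp [B42, Matrix.mul_apply, Fin.sum_univ_succ] at e1 e2 e3 e4
  refine ⟨?_, ?_, ?_, ?_⟩
  · linear_combination e1
  · linear_combination e2
  · linear_combination e3
  · linear_combination e4

/-- the nilpotent matrices commuting with `J42` -/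
def S42 (p1 p2 p3 b0 b1 c0 c1 q1 : k) : Matrix (Fin 6) (Fin 6) k :=
  !![0, 0, 0, 0, 0, 0;
     p1, 0, 0, 0, 0, 0;
     p2, p1, 0, 0, b0, 0;
     p3, p2, p1, 0, b1, b0;
     c0, 0, 0, 0, 0, 0;
     c1, c0, 0, 0, p1 + q1, 0]

theorem J_sq : J42 k * J42 k = S42 0 1 0 0 0 0 0 0 := by
  ext i j
  fin_cases i <;> fin_cases j <;> simp [J42, S42, Matrix.mul_apply, Fin.sum_univ_succ]

theorem J_cu : J42 k * (J42 k * J42 k) = S42 0 0 1 0 0 0 0 0 := by
  rw [J_sq]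
  ext i j
  fin_cases i <;> fin_cases j <;> simp [J42, S42, Matrix.mul_apply, Fin.sum_univ_succ]

theorem S_eq (p1 p2 p3 b0 b1 c0 c1 q1 : k) : S42 p1 p2 p3 b0 b1 c0 c1 q1 =
    p1 • J42 k + p2 • (J42 k * J42 k) + p3 • (J42 k * (J42 k * J42 k)) +
      B42 b0 b1 c0 c1 q1 := by
  rw [J_cu, J_sq]
  ext i j
  fin_cases i <;> fin_cases j <;> simp [J42, S42, B42]

theorem nil_row {M : Matrix (Fin 6) (Fin 6) k} (hM : IsNilpotent M) (w : Fin 6 → k) (c : k)
    (h : w ᵥ* M = c • w) (hw : w ≠ 0) : c = 0 := by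
  obtain ⟨n, hn⟩ := hM
  have h1 : ∀ m : ℕ, w ᵥ* M ^ m = c ^ m • w := by
    intro m
    induction m with
    | zero => simp
    | succ m ih =>
      rw [pow_succ, ← Matrix.vecMul_vecMul, ih, Matrix.smul_vecMul, h, smul_smul, pow_succ]
  have h2 := h1 n
  rw [hn, Matrix.vecMul_zero] at h2
  have h3 : c ^ n = 0 := by
    by_contra hc
    exact hw ((smul_eq_zero.1 h2.symm).resolve_left hc)
  rcases Nat.eq_zero_or_pos n with hn0 | hn0
  · rw [hn0, pow_zero] at h3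
    exact absurd h3 one_ne_zero
  · exact (pow_eq_zero_iff hn0.ne').1 h3

theorem shape (B : Matrix (Fin 6) (Fin 6) k) (hc : J42 k * B = B * J42 k) (hn : IsNilpotent B) :
    ∃ p1 p2 p3 b0 b1 c0 c1 q1 : k, B = S42 p1 p2 p3 b0 b1 c0 c1 q1 := by
  have e : ∀ i j, (J42 k * B) i j = (B * J42 k) i j := fun i j => by rw [hc]
  simp [J42, Matrix.mul_apply, Fin.sum_univ_succ, Fin.forall_fin_succ] at e
  obtain ⟨⟨a1, a2, a3, a4⟩, ⟨a5, a6, a7, a8, a9, a10⟩, ⟨a11, a12, a13, a14, a15, a16⟩,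
    ⟨a17, a18, a19, a20, a21, a22⟩, ⟨a23, a24, a25, a26⟩, a27, a28, a29, a30, a31, a32⟩ := e
  have h04 : B 0 4 = 0 := by rw [a9, a16]
  have h00 : B 0 0 = 0 := by
    refine nil_row hn (Pi.single 0 1) _ ?_ ?_
    · ext j
      fin_cases j <;> simp [Matrix.vecMul, dotProduct, Fin.sum_univ_succ, ← a1, ← a2, ← a3, ← a4,
        h04]
    · intro h
      have := congrFun h 0
      simp at this
  have h44 : B 4 4 = 0 := by
    by_contra h
    refine h (nil_row hn (B 4) _ ?_ ?_)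
    · ext j
      fin_cases j <;> simp [Matrix.vecMul, dotProduct, Fin.sum_univ_succ, ← a1, ← a2, ← a3, ← a4,
        h04, h00, ← a23, ← a24, ← a25, ← a26]
    · intro h'
      exact h (congrFun h' 4)
  refine ⟨B 1 0, B 2 0, B 3 0, B 2 4, B 3 4, B 4 0, B 5 0, B 5 4 - B 1 0, ?_⟩
  ext i j
  fin_cases i <;> fin_cases j <;> simp [S42] <;> grind

/-! ### membership in subalgebras -/

theorem poly_mem {A : NonUnitalSubalgebra k (Matrix (Fin 6) (Fin 6) k)} (hJ : J42 k ∈ A)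
    (p1 p2 p3 : k) :
    p1 • J42 k + p2 • (J42 k * J42 k) + p3 • (J42 k * (J42 k * J42 k)) ∈ A :=
  add_mem (add_mem (SMulMemClass.smul_mem _ hJ) (SMulMemClass.smul_mem _ (mul_mem hJ hJ)))
    (SMulMemClass.smul_mem _ (mul_mem hJ (mul_mem hJ hJ)))

theorem S_mem {A : NonUnitalSubalgebra k (Matrix (Fin 6) (Fin 6) k)} (hJ : J42 k ∈ A)
    {b0 b1 c0 c1 q1 : k} (hB : B42 b0 b1 c0 c1 q1 ∈ A) (p1 p2 p3 : k) :
    S42 p1 p2 p3 b0 b1 c0 c1 q1 ∈ A := by
  rw [S_eq]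
  exact add_mem (poly_mem hJ p1 p2 p3) hB

theorem B_mem {A : NonUnitalSubalgebra k (Matrix (Fin 6) (Fin 6) k)} (hJ : J42 k ∈ A)
    {p1 p2 p3 b0 b1 c0 c1 q1 : k} (hS : S42 p1 p2 p3 b0 b1 c0 c1 q1 ∈ A) :
    B42 b0 b1 c0 c1 q1 ∈ A := by
  have h : B42 b0 b1 c0 c1 q1 = S42 p1 p2 p3 b0 b1 c0 c1 q1 -
      (p1 • J42 k + p2 • (J42 k * J42 k) + p3 • (J42 k * (J42 k * J42 k))) := by
    rw [S_eq, add_sub_cancel_left]
  rw [h]
  exact sub_mem hS (poly_mem hJ p1 p2 p3)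

theorem m0 {n : Type*} [Fintype n] [DecidableEq n] (A B C : Matrix n n k) :
    A ∈ adj ![A, B, C] := mem_adj ![A, B, C] 0

theorem m1 {n : Type*} [Fintype n] [DecidableEq n] (A B C : Matrix n n k) :
    B ∈ adj ![A, B, C] := mem_adj ![A, B, C] 1

theorem m2 {n : Type*} [Fintype n] [DecidableEq n] (A B C : Matrix n n k) :
    C ∈ adj ![A, B, C] := mem_adj ![A, B, C] 2

theorem change3 {n : Type*} [Fintype n] [DecidableEq n] {ρ : ℕ → ℕ} {A B C B' C' : Matrix n n k}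
    (hT : MaxR ρ ![A, B, C]) (hB : B' ∈ adj ![A, B, C]) (hC : C' ∈ adj ![A, B, C])
    (hB' : B ∈ adj ![A, B', C']) (hC' : C ∈ adj ![A, B', C']) : MaxR ρ ![A, B', C'] := by
  refine hT.change (hT.cn.of_adj ?_) ?_
  · intro i
    fin_cases i
    · exact m0 A B C
    · exact hB
    · exact hC
  · intro i
    fin_cases i
    · exact m0 A B' C'
    · exact hB'
    · exact hC'

/-! ### commuting nilpotent triples -/

theorem nil_J : IsNilpotent (J42 k) := by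
  refine isNilpotent_of_weight _ ![0, 2, 4, 6, 1, 3] ?_
  intro i j
  fin_cases i <;> fin_cases j <;> simp [J42]

theorem nil_B (b0 b1 c0 c1 q1 : k) : IsNilpotent (B42 b0 b1 c0 c1 q1) := by
  refine isNilpotent_of_weight _ ![0, 2, 4, 6, 1, 3] ?_
  intro i j
  fin_cases i <;> fin_cases j <;> simp [B42]

theorem cn_BB {b0 b1 c0 c1 q1 b0' b1' c0' c1' q1' : k}
    (r1 : c0' * b0 = c0 * b0') (r2 : c0' * b1 + c1' * b0 = c0 * b1' + c1 * b0')
    (r3 : c0' * q1 = c0 * q1') (r4 : q1' * b0 = q1 * b0') :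
    CN ![J42 k, B42 b0 b1 c0 c1 q1, B42 b0' b1' c0' c1' q1'] := by
  have h1 := comm_J b0 b1 c0 c1 q1
  have h2 := comm_J b0' b1' c0' c1' q1'
  have h3 := comm_BB r1 r2 r3 r4
  constructor
  · intro i j
    fin_cases i <;> fin_cases j
    · rfl
    · exact h1
    · exact h2
    · exact h1.symm
    · rfl
    · exact h3
    · exact h2.symm
    · exact h3.symm
    · rfl
  · intro i
    fin_cases i
    · exact nil_J
    · exact nil_B _ _ _ _ _
    · exact nil_B _ _ _ _ _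

theorem add_smul_B (b0 b1 c0 c1 q1 b0' b1' c0' c1' q1' s : k) :
    B42 b0 b1 c0 c1 q1 + s • B42 b0' b1' c0' c1' q1' =
      B42 (b0 + s * b0') (b1 + s * b1') (c0 + s * c0') (c1 + s * c1') (q1 + s * q1') := by
  ext i j
  fin_cases i <;> fin_cases j <;> simp [B42]

theorem add_B (b0 b1 c0 c1 q1 b0' b1' c0' c1' q1' : k) :
    B42 b0 b1 c0 c1 q1 + B42 b0' b1' c0' c1' q1' =
      B42 (b0 + b0') (b1 + b1') (c0 + c0') (c1 + c1') (q1 + q1') := by
  ext i j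
  fin_cases i <;> fin_cases j <;> simp [B42]

theorem smul_B (b0 b1 c0 c1 q1 s : k) :
    s • B42 b0 b1 c0 c1 q1 = B42 (s * b0) (s * b1) (s * c0) (s * c1) (s * q1) := by
  ext i j
  fin_cases i <;> fin_cases j <;> simp [B42]

theorem zero_B : B42 (0 : k) 0 0 0 0 = 0 := by
  ext i j
  fin_cases i <;> fin_cases j <;> simp [B42]

theorem deform3 [Infinite k] {n : Type*} [Fintype n] [DecidableEq n] {ρ : ℕ → ℕ}
    {A B C D E : Matrix n n k}
    (hT : MaxR ρ ![A, B, C]) (hcn : ∀ s : k, CN ![A, B + s • D, C + s • E])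
    {F : Set k} (hF : F.Finite) : ∃ s ∉ F, MaxR ρ ![A, B + s • D, C + s • E] := by
  have hl : ∀ s : k, ![A, B, C] + s • ![0, D, E] = ![A, B + s • D, C + s • E] := by
    intro s
    funext i
    fin_cases i <;> simp
  obtain ⟨E', hE', h⟩ := hT.deform (fun s => ![A, B, C] + s • ![0, D, E]) (PolyFam.line _ _)
    (by simp) (Set.finite_empty) (by
      intro s _
      simp only [hl]
      exact hcn s)
  obtain ⟨s, hs⟩ := ((hE'.union hF).infinite_compl).nonempty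
  refine ⟨s, fun h' => hs (Or.inr h'), ?_⟩
  rw [← hl]
  exact h s fun h' => hs (Or.inl h')

/-! ### the node -/

/-- the new basis `v0, X v0, X^2 v0, X^3 v0, Y v0, Y^2 v0` -/
def Pm (c0 c1 r1 r2 g f1 : k) : Matrix (Fin 6) (Fin 6) k :=
  !![1, 0, 0, 0, 0, 0;
     0, -r2, 0, 0, -r1, 0;
     0, -g, -(r2 * (r1 - r2)), 0, 0, r1 * (r1 - r2);
     0, 0, g * (2 * r2 - r1), -(r2 * (r1 - r2) ^ 2), 0, f1;
     0, c0, 0, 0, c0, 0;
     0, c1, c0 * (r1 - r2), 0, c1, -(c0 * (r1 - r2))]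

theorem XP {b0 b1 c0 c1 r1 r2 g f1 : k} (h0 : b0 * c0 = -(r1 * r2))
    (h1 : b1 * c0 + b0 * c1 = f1) (h2 : f1 = -(r1 * g)) (c : k) :
    S42 (-r2) (-g) 0 b0 b1 c0 c1 (r1 + r2) * Pm c0 c1 r1 r2 g f1 =
      Pm c0 c1 r1 r2 g f1 * Nd33 c 0 := by
  ext i j
  fin_cases i <;> fin_cases j <;>
    simp [S42, Pm, Nd33, Matrix.mul_apply, Fin.sum_univ_succ]
  · linear_combination h0
  · linear_combination h0
  · linear_combination h1 + h2
  · linear_combination (r1 - r2) * h0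
  · linear_combination h1 + h2
  · linear_combination -(r1 - r2) * h0
  · ring
  · ring

theorem YP {b0 b1 c0 c1 r1 r2 g f1 c : k} (h0 : b0 * c0 = -(r1 * r2))
    (h1 : b1 * c0 + b0 * c1 = f1) (h2 : f1 = -(r1 * g)) (hc : c * r2 = r1) :
    S42 (-r1) 0 0 b0 b1 c0 c1 (r1 + r2) * Pm c0 c1 r1 r2 g f1 =
      Pm c0 c1 r1 r2 g f1 * Nd33 c 1 := by
  ext i j
  fin_cases i <;> fin_cases j <;>
    simp [S42, Pm, Nd33, Matrix.mul_apply, Fin.sum_univ_succ]
  · linear_combination h0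
  · linear_combination h0
  · linear_combination h1 + h2
  · linear_combination (r1 - r2) * h0
  · linear_combination h1
  · linear_combination -(r1 - r2) * h0 + (r1 - r2) ^ 2 * hc
  · ring
  · ring

theorem detP (c0 c1 r1 r2 g f1 : k) :
    (Pm c0 c1 r1 r2 g f1).det = c0 ^ 2 * r2 * (r1 - r2) ^ 6 := by
  unfold Pm
  simp [Matrix.det_succ_row_zero, Fin.sum_univ_succ, Fin.succAbove]
  ring

theorem W_sq (d g : k) : S42 d (-g) 0 0 0 0 0 0 * S42 d (-g) 0 0 0 0 0 0 =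
    S42 0 (d ^ 2) (-(2 * d * g)) 0 0 0 0 0 := by
  ext i j
  fin_cases i <;> fin_cases j <;> simp [S42, Matrix.mul_apply, Fin.sum_univ_succ] <;> ring

theorem W_cu (d g : k) : S42 d (-g) 0 0 0 0 0 0 * S42 0 (d ^ 2) (-(2 * d * g)) 0 0 0 0 0 =
    S42 0 0 (d ^ 3) 0 0 0 0 0 := by
  ext i j
  fin_cases i <;> fin_cases j <;> simp [S42, Matrix.mul_apply, Fin.sum_univ_succ]
  ring

theorem J_W {d : k} (hd : d ≠ 0) (g : k) : J42 k = d⁻¹ • S42 d (-g) 0 0 0 0 0 0 +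
    (g / d ^ 3) • S42 0 (d ^ 2) (-(2 * d * g)) 0 0 0 0 0 +
      (2 * g ^ 2 / d ^ 5) • S42 0 0 (d ^ 3) 0 0 0 0 0 := by
  ext i j
  fin_cases i <;> fin_cases j <;> simp [S42, J42] <;> field_simp <;> ring

theorem cl_node [IsAlgClosed k] [CharZero k] {b0 b1 c0 c1 r1 r2 : k} (hr1 : r1 ≠ 0) (hr2 : r2 ≠ 0)
    (hd : r1 - r2 ≠ 0) (hc0 : c0 ≠ 0) (h0 : b0 * c0 = -(r1 * r2)) :
    Cl ![J42 k, B42 b0 b1 c0 c1 (r1 + r2), 0] := by
  obtain ⟨f1, hf1⟩ : ∃ f1, b1 * c0 + b0 * c1 = f1 := ⟨_, rfl⟩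
  obtain ⟨g, hg⟩ : ∃ g, f1 = -(r1 * g) := ⟨-f1 / r1, by field_simp⟩
  have hc : r1 / r2 * r2 = r1 := by field_simp
  have hX := XP (b0 := b0) (b1 := b1) (c0 := c0) (c1 := c1) h0 hf1 hg (r1 / r2)
  have hY := YP (b0 := b0) (b1 := b1) (c0 := c0) (c1 := c1) h0 hf1 hg hc
  have hdet : IsUnit (Pm c0 c1 r1 r2 g f1).det := by
    rw [detP, isUnit_iff_ne_zero]
    exact mul_ne_zero (mul_ne_zero (pow_ne_zero 2 hc0) hr2) (pow_ne_zero 6 hd)
  have hPQ := Matrix.mul_nonsing_inv _ hdet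
  have hQP := Matrix.nonsing_inv_mul _ hdet
  have hcl := Cl.conj _ _ hPQ hQP (cl_n33 (r1 / r2) (div_ne_zero hr1 hr2))
  refine cl_of_adj ?_ hcl
  have mX : S42 (-r2) (-g) 0 b0 b1 c0 c1 (r1 + r2) ∈ adj (fun i =>
      Pm c0 c1 r1 r2 g f1 * Nd33 (r1 / r2) i * (Pm c0 c1 r1 r2 g f1)⁻¹) := by
    have h1 := mem_adj (fun i =>
      Pm c0 c1 r1 r2 g f1 * Nd33 (r1 / r2) i * (Pm c0 c1 r1 r2 g f1)⁻¹) 0
    simp only [← hX, Matrix.mul_assoc, hPQ, Matrix.mul_one] at h1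
    simpa only [Matrix.mul_assoc] using h1
  have mY : S42 (-r1) 0 0 b0 b1 c0 c1 (r1 + r2) ∈ adj (fun i =>
      Pm c0 c1 r1 r2 g f1 * Nd33 (r1 / r2) i * (Pm c0 c1 r1 r2 g f1)⁻¹) := by
    have h1 := mem_adj (fun i =>
      Pm c0 c1 r1 r2 g f1 * Nd33 (r1 / r2) i * (Pm c0 c1 r1 r2 g f1)⁻¹) 1
    simp only [← hY, Matrix.mul_assoc, hPQ, Matrix.mul_one] at h1
    simpa only [Matrix.mul_assoc] using h1
  generalize adj (fun i => Pm c0 c1 r1 r2 g f1 * Nd33 (r1 / r2) i *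
    (Pm c0 c1 r1 r2 g f1)⁻¹) = A at mX mY ⊢
  have mW : S42 (r1 - r2) (-g) 0 0 0 0 0 0 ∈ A := by
    have h1 : S42 (r1 - r2) (-g) 0 0 0 0 0 0 = S42 (-r2) (-g) 0 b0 b1 c0 c1 (r1 + r2) -
        S42 (-r1) 0 0 b0 b1 c0 c1 (r1 + r2) := by
      ext i j
      fin_cases i <;> fin_cases j <;> simp [S42] <;> ring
    rw [h1]
    exact sub_mem mX mY
  have mW2 : S42 0 ((r1 - r2) ^ 2) (-(2 * (r1 - r2) * g)) 0 0 0 0 0 ∈ A := by
    rw [← W_sq]
    exact mul_mem mW mW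
  have mW3 : S42 0 0 ((r1 - r2) ^ 3) 0 0 0 0 0 ∈ A := by
    rw [← W_cu (r1 - r2) g]
    exact mul_mem mW mW2
  have mJ : J42 k ∈ A := by
    rw [J_W hd g]
    exact add_mem (add_mem (SMulMemClass.smul_mem _ mW) (SMulMemClass.smul_mem _ mW2))
      (SMulMemClass.smul_mem _ mW3)
  have mB : B42 b0 b1 c0 c1 (r1 + r2) ∈ A := by
    have h1 : B42 b0 b1 c0 c1 (r1 + r2) = S42 (-r1) 0 0 b0 b1 c0 c1 (r1 + r2) + r1 • J42 k := by
      ext i j
      fin_cases i <;> fin_cases j <;> simp [S42, J42, B42]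
      ring
    rw [h1]
    exact add_mem mY (SMulMemClass.smul_mem _ mJ)
  intro i
  fin_cases i
  · exact mJ
  · exact mB
  · exact zero_mem _

section

variable [IsAlgClosed k] [CharZero k] {ρ : ℕ → ℕ}

theorem planar {b0 b1 c0 c1 q1 : k} (hT : MaxR ρ ![J42 k, B42 b0 b1 c0 c1 q1, 0]) : False := by
  obtain ⟨s, hs, hM⟩ := deform3 (D := B42 1 0 1 0 0) (E := 0) hT (by
    intro s
    rw [add_smul_B, smul_zero, add_zero, ← zero_B]
    apply cn_BB <;> ring) (F := {-b0, -c0}) (by simp)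
  have hb : b0 + s ≠ 0 := by
    intro h
    exact hs (Or.inl (by linear_combination h))
  have hc : c0 + s ≠ 0 := by
    intro h
    refine hs (Or.inr ?_)
    change s = -c0
    linear_combination h
  rw [add_smul_B] at hM
  simp only [smul_zero, mul_zero, add_zero, mul_one] at hM
  generalize b0 + s = x at hM hb
  generalize c0 + s = y at hM hc
  -- the discriminant
  obtain ⟨w, hw⟩ := IsAlgClosed.exists_pow_nat_eq (-(4 * (x * y))) (n := 2) (by norm_num)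
  obtain ⟨t, ht, hM2⟩ := deform3 (D := B42 0 0 0 0 1) (E := 0) hM (by
    intro s
    rw [add_smul_B, smul_zero, add_zero, ← zero_B]
    apply cn_BB <;> ring) (F := {-q1 + w, -q1 - w}) (by simp)
  rw [add_smul_B] at hM2
  simp only [smul_zero, mul_zero, add_zero, mul_one] at hM2
  have hq1 : q1 + t - w ≠ 0 := by
    intro h
    exact ht (Or.inl (by linear_combination h))
  have hq2 : q1 + t + w ≠ 0 := by
    intro h
    refine ht (Or.inr ?_)
    change t = -q1 - w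
    linear_combination h
  generalize q1 + t = q at hM2 hq1 hq2
  obtain ⟨z, hz⟩ := IsAlgClosed.exists_pow_nat_eq (q ^ 2 + 4 * (x * y)) (n := 2) (by norm_num)
  have hz0 : z ≠ 0 := by
    rintro rfl
    have : (q - w) * (q + w) = 0 := by linear_combination -hz - hw
    rcases mul_eq_zero.1 this with h | h
    · exact hq1 h
    · exact hq2 h
  have hxy : x * y ≠ 0 := mul_ne_zero hb hc
  have h2 : (2 : k) ≠ 0 := two_ne_zero
  have hprod : x * y = -((q + z) / 2 * ((q - z) / 2)) := by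
    field_simp
    linear_combination -hz
  have hr : (q + z) / 2 * ((q - z) / 2) ≠ 0 := by
    intro h
    rw [h, neg_zero] at hprod
    exact hxy hprod
  have hsum : (q + z) / 2 + (q - z) / 2 = q := by
    field_simp
    ring
  refine hM2.ncl ?_
  rw [← hsum]
  refine cl_node (left_ne_zero_of_mul hr) (right_ne_zero_of_mul hr) ?_ hc hprod
  intro h
  apply hz0
  have h3 : (q + z) / 2 - (q - z) / 2 = z := by
    field_simp
    ring
  rw [h3] at h
  exact h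

theorem caseA {b0 b1 c0 c1 q1 b0' b1' c0' c1' q1' : k}
    (hT : MaxR ρ ![J42 k, B42 b0 b1 c0 c1 q1, B42 b0' b1' c0' c1' q1'])
    (h : b0 ≠ 0 ∨ c0 ≠ 0) : False := by
  obtain ⟨r1, r2, r3, r4⟩ := rel_BB (hT.cn.1 1 2)
  have hl : ∃ l m : k, B42 b0' b1' c0' c1' q1' =
      l • B42 b0 b1 c0 c1 q1 + m • (J42 k * B42 b0 b1 c0 c1 q1) := by
    simp only [J_mul, smul_B, add_B, mul_zero, add_zero]
    rcases h with h | h
    · refine ⟨b0' / b0, (b1' - b0' / b0 * b1) / b0, ?_⟩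
      congr 1
      · field_simp
      · field_simp
        ring
      · field_simp
        linear_combination r1
      · field_simp
        linear_combination b0 * r2 - b1 * r1
      · field_simp
        linear_combination r4
    · refine ⟨c0' / c0, (c1' - c0' / c0 * c1) / c0, ?_⟩
      congr 1
      · field_simp
        linear_combination (-1 : k) * r1
      · field_simp
        linear_combination -c0 * r2 + c1 * r1
      · field_simp
      · field_simp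
        ring
      · field_simp
        linear_combination (-1 : k) * r3
  obtain ⟨l, m, hC⟩ := hl
  refine planar (change3 hT (m1 _ _ _) (zero_mem _) (m1 _ _ _) ?_)
  rw [hC]
  have h0 := m0 (J42 k) (B42 b0 b1 c0 c1 q1) 0
  have h1 := m1 (J42 k) (B42 b0 b1 c0 c1 q1) 0
  exact add_mem (SMulMemClass.smul_mem _ h1) (SMulMemClass.smul_mem _ (mul_mem h0 h1))

theorem caseC {b1 c1 q1 b1' c1' q1' : k}
    (hT : MaxR ρ ![J42 k, B42 0 b1 0 c1 q1, B42 0 b1' 0 c1' q1']) : False := by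
  -- first make `q1` nonzero
  obtain ⟨s, hs, hM⟩ := deform3 (D := B42 0 0 0 0 1) (E := 0) hT (by
    intro s
    rw [add_smul_B, smul_zero, add_zero]
    apply cn_BB <;> ring) (F := {-q1}) (by simp)
  rw [add_smul_B, smul_zero, add_zero] at hM
  simp only [mul_zero, add_zero, mul_one] at hM
  have hq : q1 + s ≠ 0 := by
    intro h
    refine hs ?_
    change s = -q1
    linear_combination h
  generalize q1 + s = q at hM hq
  -- then make `q1'` zero
  have hM2 : MaxR ρ ![J42 k, B42 0 b1 0 c1 q,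
      B42 0 (b1' - q1' / q * b1) 0 (c1' - q1' / q * c1) 0] := by
    have e1 : B42 0 (b1' - q1' / q * b1) 0 (c1' - q1' / q * c1) 0 =
        B42 0 b1' 0 c1' q1' + (-(q1' / q)) • B42 0 b1 0 c1 q := by
      rw [add_smul_B]
      congr 1 <;> field_simp <;> ring
    have e2 : B42 0 b1' 0 c1' q1' =
        B42 0 (b1' - q1' / q * b1) 0 (c1' - q1' / q * c1) 0 + (q1' / q) • B42 0 b1 0 c1 q := by
      rw [add_smul_B]
      congr 1 <;> field_simp <;> ring
    refine change3 hM (m1 _ _ _) ?_ (m1 _ _ _) ?_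
    · rw [e1]
      exact add_mem (m2 _ _ _) (SMulMemClass.smul_mem _ (m1 _ _ _))
    · have h2 := m2 (J42 k) (B42 0 b1 0 c1 q)
        (B42 0 (b1' - q1' / q * b1) 0 (c1' - q1' / q * c1) 0)
      have h3 := add_mem h2 (SMulMemClass.smul_mem (q1' / q)
        (m1 (J42 k) (B42 0 b1 0 c1 q) (B42 0 (b1' - q1' / q * b1) 0 (c1' - q1' / q * c1) 0)))
      rw [← e2] at h3
      exact h3
  generalize b1' - q1' / q * b1 = e at hM2
  generalize c1' - q1' / q * c1 = f at hM2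
  -- make the triple planar
  obtain ⟨t, ht, hM3⟩ := deform3 (D := B42 e 0 f 0 0) (E := 0) hM2 (by
    intro s
    rw [add_smul_B, smul_zero, add_zero]
    apply cn_BB <;> ring) (F := {0}) (by simp)
  rw [add_smul_B, smul_zero, add_zero] at hM3
  simp only [mul_zero, add_zero, zero_add] at hM3
  have ht0 : t ≠ 0 := ht
  refine planar (change3 hM3 (m1 _ _ _) (zero_mem _) (m1 _ _ _) ?_)
  have e3 : B42 0 e 0 f 0 = t⁻¹ • (J42 k * B42 (t * e) b1 (t * f) c1 q) := by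
    rw [J_mul, smul_B]
    congr 1 <;> field_simp <;> ring
  rw [e3]
  have h0 := m0 (J42 k) (B42 (t * e) b1 (t * f) c1 q) 0
  have h1 := m1 (J42 k) (B42 (t * e) b1 (t * f) c1 q) 0
  exact SMulMemClass.smul_mem _ (mul_mem h0 h1)

theorem no_BB {b0 b1 c0 c1 q1 b0' b1' c0' c1' q1' : k}
    (hT : MaxR ρ ![J42 k, B42 b0 b1 c0 c1 q1, B42 b0' b1' c0' c1' q1']) : False := by
  by_cases h1 : b0 ≠ 0 ∨ c0 ≠ 0
  · exact caseA hT h1
  have hT' := change3 hT (m2 _ _ _) (m1 _ _ _) (m2 _ _ _) (m1 _ _ _)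
  by_cases h2 : b0' ≠ 0 ∨ c0' ≠ 0
  · exact caseA hT' h2
  push Not at h1 h2
  obtain ⟨rfl, rfl⟩ := h1
  obtain ⟨rfl, rfl⟩ := h2
  exact caseC hT

end

end T42SAux

set_option linter.unusedVariables false in
/-- no maximal bad triple of type `(4, 2)` -/
theorem no_42 {k : Type*} [Field k] [IsAlgClosed k] [CharZero k] {ρ : ℕ → ℕ}
    {T : Fin 3 → Matrix (Fin 6) (Fin 6) k}
    (hT : MaxR ρ T) (hρ : ∀ i, ρ i = (J42 k ^ i).rank) (h0 : T 0 = J42 k) : False := by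
  have h1 := hT.cn.1 0 1
  have h2 := hT.cn.1 0 2
  rw [h0] at h1 h2
  obtain ⟨p1, p2, p3, b0, b1, c0, c1, q1, hB⟩ := T42SAux.shape _ h1 (hT.cn.2 1)
  obtain ⟨p1', p2', p3', b0', b1', c0', c1', q1', hC⟩ := T42SAux.shape _ h2 (hT.cn.2 2)
  have hJ : J42 k ∈ adj T := h0 ▸ mem_adj T 0
  have hBm : B42 b0 b1 c0 c1 q1 ∈ adj T :=
    T42SAux.B_mem (p1 := p1) (p2 := p2) (p3 := p3) hJ (hB ▸ mem_adj T 1)
  have hCm : B42 b0' b1' c0' c1' q1' ∈ adj T :=
    T42SAux.B_mem (p1 := p1') (p2 := p2') (p3 := p3') hJ (hC ▸ mem_adj T 2)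
  refine T42SAux.no_BB (b0 := b0) (b1 := b1) (c0 := c0) (c1 := c1) (q1 := q1) (b0' := b0')
    (b1' := b1') (c0' := c0') (c1' := c1') (q1' := q1') (hT.change (hT.cn.of_adj ?_) ?_)
  · intro i
    fin_cases i
    · exact hJ
    · exact hBm
    · exact hCm
  · intro i
    fin_cases i
    · exact h0 ▸ T42SAux.m0 _ _ _
    · exact hB ▸ T42SAux.S_mem (T42SAux.m0 _ _ _) (T42SAux.m1 _ _ _) p1 p2 p3
    · exact hC ▸ T42SAux.S_mem (T42SAux.m0 _ _ _) (T42SAux.m2 _ _ _) p1' p2' p3'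

end Pool.Agent.Lib.D7
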