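import Pool.Agent.Lib.D7.Fin7
import Pool.Agent.Lib.D7.FinS0
import Pool.Agent.Lib.D7.JordanS
import Pool.Agent.Lib.D7.T31S
import Pool.Agent.Lib.D7.T32S
import Pool.Agent.Lib.D7.T42S
import Pool.Agent.Lib.D7.T33S
import Pool.Agent.Lib.D7.T321S
import Pool.Agent.Lib.D7.HookS
import Pool.Agent.Lib.TSQ.Bridge

/-!
# All commuting nilpotent triples of matrices of size at most 7 are limits of curvilinear ones
-/

namespace Pool.Agent.Lib.D7

open Matrix Pool.Agent.Lib.Q5dc

universe u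

variable {k : Type u} [Field k]

variable [IsAlgClosed k] [CharZero k]

theorem all_cl1 {T : Fin 3 → Matrix (Fin 1) (Fin 1) k} (hT : CN T) : Cl T :=
  cl_of_pow one_pos hT (mem_adj T 0) (by rw [Nat.sub_self, pow_zero]; exact one_ne_zero)

theorem all_cl2 {T : Fin 3 → Matrix (Fin 2) (Fin 2) k} (hT : CN T) : Cl T := by
  have : Infinite k := IsAlgClosed.instInfinite
  by_contra hncl
  obtain ⟨T', hT'⟩ := exists_maxR hT hncl
  by_cases h : T' 0 ^ (2 - 1) = 0
  · refine hT'.cl_of_sq (n := 1) ?_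
    show (T' 0 ^ 2).rank = 0
    have h1 : T' 0 = 0 := by simpa using h
    rw [h1, zero_pow two_ne_zero, Matrix.rank_zero]
  · exact hT'.ncl (cl_of_pow two_pos hT'.cn (mem_adj _ 0) h)

theorem all_cl3 {T : Fin 3 → Matrix (Fin 3) (Fin 3) k} (hT : CN T) : Cl T := by
  have : Infinite k := IsAlgClosed.instInfinite
  by_contra hncl
  obtain ⟨T', hT'⟩ := exists_maxR hT hncl
  by_cases h : T' 0 ^ (3 - 1) = 0
  · refine hT'.cl_of_sq (n := 2) ?_
    show (T' 0 ^ 2).rank = 0
    rw [show T' 0 ^ 2 = T' 0 ^ (3 - 1) from rfl, h, Matrix.rank_zero]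
  · exact hT'.ncl (cl_of_pow three_pos hT'.cn (mem_adj _ 0) h)

theorem all_cl4 {T : Fin 3 → Matrix (Fin 4) (Fin 4) k} (hT : CN T) : Cl T := by
  have : Infinite k := IsAlgClosed.instInfinite
  by_contra hncl
  obtain ⟨T', hT'⟩ := exists_maxR hT hncl
  rcases jordan4 (T' 0) (hT'.cn.2 0) with h | h | ⟨g, h', hg, hh, hJ⟩
  · refine hT'.cl_of_sq (n := 3) ?_
    show (T' 0 ^ 2).rank = 0
    rw [h, Matrix.rank_zero]
  · exact hT'.ncl (cl_of_pow four_pos hT'.cn (mem_adj _ 0) h)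
  · have hM := hT'.conj g h' hg hh
    have hρ : ∀ i, (T' 0 ^ i).rank = ((g * T' 0 * h') ^ i).rank := by
      intro i
      rw [conj_pow' g h' hg hh, rank_conj g h' hg hh]
    exact no_31 hM (fun i => by rw [← hJ]; exact hρ i) hJ

theorem all_cl5 {T : Fin 3 → Matrix (Fin 5) (Fin 5) k} (hT : CN T) : Cl T := by
  have : Infinite k := IsAlgClosed.instInfinite
  by_contra hncl
  obtain ⟨T', hT'⟩ := exists_maxR hT hncl
  rcases jordan5 (T' 0) (hT'.cn.2 0) with h | h | ⟨g, h', hg, hh, hJ⟩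
  · refine hT'.cl_of_sq (n := 4) ?_
    show (T' 0 ^ 2).rank = 0
    rw [h, Matrix.rank_zero]
  · exact hT'.ncl (cl_of_pow (by norm_num) hT'.cn (mem_adj _ 0) h)
  · have hM := hT'.conj g h' hg hh
    have hρ : ∀ i, (T' 0 ^ i).rank = ((g * T' 0 * h') ^ i).rank := by
      intro i
      rw [conj_pow' g h' hg hh, rank_conj g h' hg hh]
    rcases hJ with hJ | hJ | hJ
    · exact no_41 hM (fun i => by rw [← hJ]; exact hρ i) hJ
    · exact no_32 hM (fun i => by rw [← hJ]; exact hρ i) hJ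
    · exact no_hookN (N := 5) (a := 3) (by norm_num) (by norm_num) hM
        (fun i => by rw [← hJ]; exact hρ i) hJ

theorem all_cl6 {T : Fin 3 → Matrix (Fin 6) (Fin 6) k} (hT : CN T) : Cl T := by
  have : Infinite k := IsAlgClosed.instInfinite
  by_contra hncl
  obtain ⟨T', hT'⟩ := exists_maxR hT hncl
  rcases jordan6 (T' 0) (hT'.cn.2 0) with h | h | ⟨g, h', hg, hh, hJ⟩
  · refine hT'.cl_of_sq (n := 5) ?_
    show (T' 0 ^ 2).rank = 0
    rw [h, Matrix.rank_zero]
  · exact hT'.ncl (cl_of_pow (by norm_num) hT'.cn (mem_adj _ 0) h)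
  · have hM := hT'.conj g h' hg hh
    have hρ : ∀ i, (T' 0 ^ i).rank = ((g * T' 0 * h') ^ i).rank := by
      intro i
      rw [conj_pow' g h' hg hh, rank_conj g h' hg hh]
    rcases hJ with hJ | hJ | hJ | hJ | hJ | hJ
    · exact no_51 hM (fun i => by rw [← hJ]; exact hρ i) hJ
    · exact no_42 hM (fun i => by rw [← hJ]; exact hρ i) hJ
    · exact no_hookN (N := 6) (a := 4) (by norm_num) (by norm_num) hM
        (fun i => by rw [← hJ]; exact hρ i) hJ
    · exact no_33 hM (fun i => by rw [← hJ]; exact hρ i) hJ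
    · exact no_321 hM (fun i => by rw [← hJ]; exact hρ i) hJ
    · exact no_hookN (N := 6) (a := 3) (by norm_num) (by norm_num) hM
        (fun i => by rw [← hJ]; exact hρ i) hJ

/-- every commuting nilpotent triple of `d x d` matrices with `d ≤ 7` is a limit of curvilinear
triples -/
theorem all_cl_le {d : ℕ} (hd : 0 < d) (hd' : d ≤ 7) {T : Fin 3 → Matrix (Fin d) (Fin d) k}
    (hT : CN T) : Cl T := by
  obtain rfl | rfl | rfl | rfl | rfl | rfl | rfl : d = 1 ∨ d = 2 ∨ d = 3 ∨ d = 4 ∨ d = 5 ∨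
      d = 6 ∨ d = 7 := by omega
  · exact all_cl1 hT
  · exact all_cl2 hT
  · exact all_cl3 hT
  · exact all_cl4 hT
  · exact all_cl5 hT
  · exact all_cl6 hT
  · exact all_cl hT

/-- the curvilinear locus is dense in the punctual Quot scheme for `d ≤ 7` -/
theorem closure_curv_le {r d : ℕ} (hr : 0 < r) (hd : 0 < d) (hd' : d ≤ 7) :
    closure (TSQ.Curv k r d) = Set.univ := by
  have : Infinite k := IsAlgClosed.instInfinite
  exact TSQ.closure_univ_of_cl hr hd fun A hA hA' => all_cl_le hd hd' ⟨hA, hA'⟩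

/-- the punctual Quot scheme is irreducible for `d ≤ 7` -/
theorem irreducible_le {r d : ℕ} (hr : 0 < r) (hd : 0 < d) (hd' : d ≤ 7) :
    IsIrreducible (Set.univ : Set (TSQ.PQuot k r d)) := by
  have : Infinite k := IsAlgClosed.instInfinite
  exact TSQ.irreducible_of_cl hr hd fun A hA hA' => all_cl_le hd hd' ⟨hA, hA'⟩

end Pool.Agent.Lib.D7
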