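import Pool.Agent.Lib.D7.Unit

/-!
# The concatenation of the units
-/

set_option autoImplicit false

open Filter Topology

namespace Pool.Agent.D7

open Pool.Agent.D6

/-- The first units. -/
def fl (U : ℕ → List Dg) : ℕ → List Dg
  | 0 => []
  | b + 1 => fl U b ++ U b

variable {U : ℕ → List Dg}

theorem fl_len (hU : ∀ b, U b ≠ []) (b : ℕ) : b ≤ (fl U b).length := by
  induction b with
  | zero => exact Nat.zero_le _
  | succ b ih =>
    rw [fl, List.length_append]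
    have := List.length_pos_of_ne_nil (hU b)
    omega

theorem fl_pre (U : ℕ → List Dg) {b c : ℕ} (h : b ≤ c) : ∃ r, fl U c = fl U b ++ r := by
  induction c with
  | zero =>
    have : b = 0 := by omega
    subst this
    exact ⟨[], by simp⟩
  | succ c ih =>
    rcases Nat.lt_or_ge b (c + 1) with h1 | h1
    · obtain ⟨r, hr⟩ := ih (by omega)
      exact ⟨r ++ U c, by rw [fl, hr, List.append_assoc]⟩
    · have : b = c + 1 := by omega
      subst this
      exact ⟨[], by simp⟩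

theorem fl_len_mono (U : ℕ → List Dg) {b c : ℕ} (h : b ≤ c) : (fl U b).length ≤ (fl U c).length := by
  obtain ⟨r, hr⟩ := fl_pre U h
  rw [hr, List.length_append]
  omega

/-- The digits. -/
def dg (U : ℕ → List Dg) (τ : ℕ) : Dg := (fl U (τ + 1)).getD τ (dC 2)

/-- The states. -/
def ts (U : ℕ → List Dg) (s : St) (τ : ℕ) : St := run ((fl U τ).take τ) s

theorem take_fl (hU : ∀ b, U b ≠ []) {τ b : ℕ} (h : τ ≤ (fl U b).length) :
    (fl U τ).take τ = (fl U b).take τ := by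
  rcases le_total b τ with h1 | h1
  · obtain ⟨r, hr⟩ := fl_pre U h1
    rw [hr, List.take_append_of_le_length h]
  · obtain ⟨r, hr⟩ := fl_pre U h1
    rw [hr, List.take_append_of_le_length (fl_len hU τ)]

theorem dg_fl (hU : ∀ b, U b ≠ []) {τ b : ℕ} (h : τ < (fl U b).length) :
    dg U τ = (fl U b).getD τ (dC 2) := by
  unfold dg
  rcases le_total b (τ + 1) with h1 | h1
  · obtain ⟨r, hr⟩ := fl_pre U h1
    rw [hr, List.getD_append _ _ _ _ h]
  · obtain ⟨r, hr⟩ := fl_pre U h1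
    rw [hr, List.getD_append _ _ _ _ (fl_len hU (τ + 1))]

theorem ts_fl (hU : ∀ b, U b ≠ []) (s : St) {τ b : ℕ} (h : τ ≤ (fl U b).length) :
    ts U s τ = run ((fl U b).take τ) s := by
  unfold ts; rw [take_fl hU h]

theorem ts_succ (hU : ∀ b, U b ≠ []) (s : St) (τ : ℕ) :
    ts U s (τ + 1) = nx (dg U τ) (ts U s τ) := by
  have h := fl_len hU (τ + 1)
  rw [ts_fl hU s h, ts_fl hU s (Nat.le_of_succ_le h), dg_fl hU h]
  have h' : τ < (fl U (τ + 1)).length := h
  rw [List.getD_eq_getElem _ _ h', ← List.take_append_getElem h', run_append]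
  rfl

theorem exists_b (hU : ∀ b, U b ≠ []) (τ : ℕ) :
    ∃ b, (fl U b).length ≤ τ ∧ τ < (fl U (b + 1)).length := by
  have hex : ∃ b, τ < (fl U (b + 1)).length := ⟨τ, fl_len hU (τ + 1)⟩
  classical
  have h1 := Nat.find_spec hex
  have h2 : ∀ k, k < Nat.find hex → ¬ τ < (fl U (k + 1)).length := fun k hk => Nat.find_min hex hk
  generalize Nat.find hex = b at h1 h2
  refine ⟨b, ?_, h1⟩
  rcases b with _ | b
  · exact Nat.zero_le _
  · exact not_lt.1 (h2 b (by omega))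

/-- The position inside a unit. -/
theorem pos_unit (hU : ∀ b, U b ≠ []) (s : St) {τ b : ℕ} (h1 : (fl U b).length ≤ τ)
    (h2 : τ < (fl U (b + 1)).length) : ∃ (k : ℕ) (hk : k < (U b).length),
    ts U s τ = run ((U b).take k) (run (fl U b) s) ∧ dg U τ = (U b)[k] ∧
    τ = (fl U b).length + k := by
  have e : fl U (b + 1) = fl U b ++ U b := rfl
  obtain ⟨k, rfl⟩ : ∃ k, τ = (fl U b).length + k := ⟨τ - (fl U b).length, by omega⟩
  have hk : k < (U b).length := by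
    rw [e, List.length_append] at h2
    omega
  refine ⟨k, hk, ?_, ?_, rfl⟩
  · rw [ts_fl hU s h2.le, e, List.take_append, List.take_of_length_le (by omega), run_append]
    simp
  · rw [dg_fl hU h2, e, List.getD_append_right _ _ _ _ h1]
    simp [hk]

/-- The size conditions at one time. -/
def Cd (σ x g : ℝ) (d : Dg) (t : St) : Prop :=
  σ * gG t + x ≤ gZ t ∧ σ * d.n * gG t - (1 + σ) * gH t + x ≤ gZ t ∧ g ≤ gG t

theorem cd_of_wd {σ x g : ℝ} (l : List Dg) : ∀ (t : St) (k : ℕ) (hk : k < l.length),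
    Wd σ x g l t → Cd σ x g l[k] (run (l.take k) t) := by
  induction l with
  | nil => intro t k hk; simp at hk
  | cons d l ih =>
    intro t k hk h
    obtain ⟨h1, h2, h3, h4⟩ := h
    rcases k with _ | k
    · exact ⟨h1, h2, h3⟩
    · have hk' : k < l.length := by simpa using hk
      have := ih (nx d t) k hk' h4
      simpa [run] using this

theorem dg_ok (hU : ∀ b, U b ≠ []) {N : ℕ} (hN : ∀ b, ∀ d ∈ U b, d.Ok N) (τ : ℕ) :
    (dg U τ).Ok N := by
  obtain ⟨b, h1, h2⟩ := exists_b hU τ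
  obtain ⟨k, hk, _, h3, _⟩ := pos_unit hU ⟨⟨0, 0, 0⟩, ⟨0, 0, 0⟩, ⟨0, 0, 0⟩⟩ h1 h2
  rw [h3]
  exact hN b _ (List.getElem_mem hk)

theorem path_ts (hU : ∀ b, U b ≠ []) {N : ℕ} (hN : ∀ b, ∀ d ∈ U b, d.Ok N) {s : St} (hs : Inv s) :
    Path (ts U s) (dg U) N where
  inv0 := by simpa [ts, fl, run] using hs
  ok := dg_ok hU hN
  st := ts_succ hU s

theorem ev_cd (hU : ∀ b, U b ≠ []) {s : St} {σ : ℝ} {x g : ℕ → ℝ} {b0 : ℕ}
    (hW : ∀ b, b0 ≤ b → Wd σ (x b) (g b) (U b) (run (fl U b) s)) {b1 : ℕ} (hb : b0 ≤ b1) :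
    ∀ τ, (fl U b1).length ≤ τ → ∃ b, b1 ≤ b ∧ Cd σ (x b) (g b) (dg U τ) (ts U s τ) := by
  intro τ hτ
  obtain ⟨b, h1, h2⟩ := exists_b hU τ
  have hbb : b1 ≤ b := by
    by_contra hlt
    have := fl_len_mono U (by omega : b + 1 ≤ b1)
    omega
  obtain ⟨k, hk, h3, h4, _⟩ := pos_unit hU s h1 h2
  refine ⟨b, hbb, ?_⟩
  rw [h3, h4]
  exact cd_of_wd _ _ _ hk (hW b (by omega))

theorem exp_beats (A : ℝ) : ∃ b1 : ℕ, ∀ b : ℕ, b1 ≤ b → A * (b + 1) ≤ 2 ^ b := by
  have h1 : Tendsto (fun n : ℕ => (n : ℝ) ^ 1 / 2 ^ n) atTop (𝓝 0) :=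
    tendsto_pow_const_div_const_pow_of_one_lt 1 (by norm_num)
  have h2 : ∀ᶠ n : ℕ in atTop, (n : ℝ) ^ 1 / 2 ^ n < 1 / (2 * (|A| + 1)) :=
    h1.eventually_lt_const (by positivity)
  obtain ⟨b1, hb1⟩ := (h2.and (eventually_ge_atTop 1)).exists_forall_of_atTop
  refine ⟨b1, fun b hb => ?_⟩
  obtain ⟨h3, h4⟩ := hb1 b hb
  have hA : 0 ≤ |A| := abs_nonneg A
  rw [pow_one, div_lt_div_iff₀ (by positivity) (by positivity)] at h3
  have h5 : (1 : ℝ) ≤ b := by exact_mod_cast h4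
  have h6 : A * (b + 1) ≤ |A| * (b + 1) := mul_le_mul_of_nonneg_right (le_abs_self A) (by linarith)
  nlinarith

end Pool.Agent.D7
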