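import Pool.Agent.Lib.D7.Defs
import Pool.Agent.Lib.P166ae0.JordanBasis

/-!
# MP_5dcbc3_ag: Jordan form of nilpotent 7 x 7 matrices
-/

namespace Pool.Agent.Lib.D7

open Matrix

variable {k : Type*} [Field k]

namespace JordanAux

theorem sigma_eq {r : ℕ} {m : Fin r → ℕ} :
    ∀ x y : (Σ a : Fin r, Fin (m a)), x.1 = y.1 → (x.2 : ℕ) = (y.2 : ℕ) → x = y := by
  rintro ⟨a, c⟩ ⟨b, d⟩ h1 h2
  dsimp only at h1
  subst h1
  congr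
  exact Fin.ext h2

/-- a Jordan basis of a known shape gives the Jordan matrix -/
theorem shape {A : Matrix (Fin 7) (Fin 7) k} {r : ℕ} {m : Fin r → ℕ}
    (b : Module.Basis (Σ a : Fin r, Fin (m a)) k (Fin 7 → k))
    (hb : ∀ (a : Fin r) (i : Fin (m a)),
      A *ᵥ (b ⟨a, i⟩) = if h : (i : ℕ) + 1 < m a then b ⟨a, ⟨(i : ℕ) + 1, h⟩⟩ else 0)
    (τ : Fin 7 → Σ a : Fin r, Fin (m a)) (hτ : Function.Injective τ)
    (J : Matrix (Fin 7) (Fin 7) k)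
    (hJ : ∀ i j, J i j = if (τ i).1 = (τ j).1 ∧ ((τ i).2 : ℕ) = (τ j).2 + 1 then 1 else 0) :
    ∃ g h : Matrix (Fin 7) (Fin 7) k, g * h = 1 ∧ h * g = 1 ∧ g * A * h = J := by
  classical
  have hcard : Fintype.card (Fin 7) = Fintype.card (Σ a : Fin r, Fin (m a)) := by
    rw [← Module.finrank_eq_card_basis b, Module.finrank_fin_fun, Fintype.card_fin]
  have hbij : Function.Bijective τ := (Fintype.bijective_iff_injective_and_card τ).2 ⟨hτ, hcard⟩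
  set e : Fin 7 ≃ (Σ a : Fin r, Fin (m a)) := Equiv.ofBijective τ hbij with he
  set b' : Module.Basis (Fin 7) k (Fin 7 → k) := b.reindex e.symm with hb'
  have hb'τ : ∀ j, b' j = b (τ j) := by
    intro j
    rw [hb', Module.Basis.reindex_apply, Equiv.symm_symm]
    rfl
  refine ⟨b'.toMatrix (Pi.basisFun k (Fin 7)), (Pi.basisFun k (Fin 7)).toMatrix b',
    Module.Basis.toMatrix_mul_toMatrix_flip _ _, Module.Basis.toMatrix_mul_toMatrix_flip _ _, ?_⟩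
  have hcol : ∀ j, A *ᵥ b' j = ∑ i, J i j • b' i := by
    intro j
    rw [hb'τ j]
    have h1 := hb (τ j).1 (τ j).2
    rw [Sigma.eta] at h1
    rw [h1]
    split_ifs with h
    · obtain ⟨i', hi'⟩ := hbij.2 ⟨(τ j).1, ⟨((τ j).2 : ℕ) + 1, h⟩⟩
      rw [Finset.sum_eq_single i']
      · rw [hb'τ, hJ, hi', if_pos ⟨rfl, rfl⟩, one_smul]
      · intro i _ hi
        rw [hJ, if_neg, zero_smul]
        rintro ⟨h2, h3⟩
        apply hi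
        apply hτ
        rw [hi']
        exact sigma_eq _ _ h2 h3
      · intro h
        exact absurd (Finset.mem_univ _) h
    · symm
      apply Finset.sum_eq_zero
      intro i _
      rw [hJ, if_neg, zero_smul]
      rintro ⟨h2, h3⟩
      apply h
      rw [← h3, ← h2]
      exact (τ i).2.2
  have hAh : A * (Pi.basisFun k (Fin 7)).toMatrix b' = (Pi.basisFun k (Fin 7)).toMatrix b' * J := by
    ext x j
    have h1 := congrFun (hcol j) x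
    rw [Matrix.mulVec, dotProduct] at h1
    rw [Matrix.mul_apply, Matrix.mul_apply]
    simp only [Module.Basis.toMatrix_apply, Pi.basisFun_repr]
    rw [h1, Finset.sum_apply]
    refine Finset.sum_congr rfl fun i _ => ?_
    rw [Pi.smul_apply, smul_eq_mul, mul_comm]
  rw [mul_assoc, hAh, ← mul_assoc, Module.Basis.toMatrix_mul_toMatrix_flip, one_mul]

/-- all blocks of size at most two -/
theorem sq_zero {A : Matrix (Fin 7) (Fin 7) k} {r : ℕ} {m : Fin r → ℕ}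
    (b : Module.Basis (Σ a : Fin r, Fin (m a)) k (Fin 7 → k))
    (hb : ∀ (a : Fin r) (i : Fin (m a)),
      A *ᵥ (b ⟨a, i⟩) = if h : (i : ℕ) + 1 < m a then b ⟨a, ⟨(i : ℕ) + 1, h⟩⟩ else 0)
    (hm : ∀ a, m a ≤ 2) : A ^ 2 = 0 := by
  have h1 : Matrix.toLin' (A ^ 2) = Matrix.toLin' 0 := by
    refine b.ext ?_
    rintro ⟨a, i⟩
    rw [Matrix.toLin'_apply, map_zero, LinearMap.zero_apply, pow_two, ← Matrix.mulVec_mulVec, hb]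
    split_ifs with h
    · rw [hb, dif_neg]
      have := hm a
      simp only
      omega
    · rw [Matrix.mulVec_zero]
  exact Matrix.toLin'.injective h1

/-- a Jordan basis with blocks of decreasing size -/
theorem sorted (A : Matrix (Fin 7) (Fin 7) k) (hA : IsNilpotent A) :
    ∃ (r : ℕ) (m : Fin r → ℕ) (b : Module.Basis (Σ a : Fin r, Fin (m a)) k (Fin 7 → k)),
      (∀ (a : Fin r) (i : Fin (m a)),
        A *ᵥ (b ⟨a, i⟩) = if h : (i : ℕ) + 1 < m a then b ⟨a, ⟨(i : ℕ) + 1, h⟩⟩ else 0) ∧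
      (∀ a, 0 < m a) ∧ (∀ a c, a ≤ c → m c ≤ m a) ∧ ∑ a, m a = 7 := by
  classical
  obtain ⟨p, hp⟩ := hA
  have hD : (Matrix.toLin' A) ^ p = 0 := by
    rw [← Matrix.toLin'_pow, hp, map_zero]
  obtain ⟨r, m₀, b₀, hm₀, hb₀⟩ := Pool.Agent.P166ae0.exists_jordan_basis (Matrix.toLin' A) p hD
  set σ : Equiv.Perm (Fin r) := Tuple.sort (fun a => -(m₀ a : ℤ)) with hσ
  have hmono : Monotone ((fun a => -(m₀ a : ℤ)) ∘ σ) := Tuple.monotone_sort _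
  set b : Module.Basis (Σ a : Fin r, Fin (m₀ (σ a))) k (Fin 7 → k) :=
    b₀.reindex (Equiv.sigmaCongrLeft (β := fun a => Fin (m₀ a)) σ).symm with hbdef
  refine ⟨r, fun a => m₀ (σ a), b, ?_, fun a => (hm₀ _).1, ?_, ?_⟩
  · intro a i
    have h1 : ∀ i : Fin (m₀ (σ a)), b ⟨a, i⟩ = b₀ ⟨σ a, i⟩ := by
      intro i
      rw [hbdef, Module.Basis.reindex_apply, Equiv.symm_symm]
      rfl
    have h2 := hb₀ (σ a) i
    rw [Matrix.toLin'_apply] at h2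
    simp only [h1]
    exact h2
  · intro a c hac
    have h1 := hmono hac
    simp only [Function.comp_apply] at h1
    change m₀ (σ c) ≤ m₀ (σ a)
    omega
  · have h1 := Module.finrank_eq_card_basis b
    rw [Module.finrank_fin_fun, Fintype.card_sigma] at h1
    simp only [Fintype.card_fin] at h1
    exact h1.symm

theorem sh7 {A : Matrix (Fin 7) (Fin 7) k}
    (b : Module.Basis (Σ a : Fin 1, Fin ((![7] : Fin 1 → ℕ) a)) k (Fin 7 → k))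
    (hb : ∀ (a : Fin 1) (i : Fin ((![7] : Fin 1 → ℕ) a)), A *ᵥ (b ⟨a, i⟩) =
      if h : (i : ℕ) + 1 < (![7] : Fin 1 → ℕ) a then b ⟨a, ⟨(i : ℕ) + 1, h⟩⟩ else 0) :
    ∃ g h : Matrix (Fin 7) (Fin 7) k, g * h = 1 ∧ h * g = 1 ∧ g * A * h = J7 k := by
  refine shape b hb ![⟨0, (0 : Fin 7)⟩, ⟨0, (1 : Fin 7)⟩, ⟨0, (2 : Fin 7)⟩, ⟨0, (3 : Fin 7)⟩,
      ⟨0, (4 : Fin 7)⟩, ⟨0, (5 : Fin 7)⟩, ⟨0, (6 : Fin 7)⟩] (by decide) _ ?_
  intro i j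
  fin_cases i <;> fin_cases j <;> rfl

theorem sh61 {A : Matrix (Fin 7) (Fin 7) k}
    (b : Module.Basis (Σ a : Fin 2, Fin ((![6, 1] : Fin 2 → ℕ) a)) k (Fin 7 → k))
    (hb : ∀ (a : Fin 2) (i : Fin ((![6, 1] : Fin 2 → ℕ) a)), A *ᵥ (b ⟨a, i⟩) =
      if h : (i : ℕ) + 1 < (![6, 1] : Fin 2 → ℕ) a then b ⟨a, ⟨(i : ℕ) + 1, h⟩⟩ else 0) :
    ∃ g h : Matrix (Fin 7) (Fin 7) k, g * h = 1 ∧ h * g = 1 ∧ g * A * h = J61 k := by
  refine shape b hb ![⟨0, (0 : Fin 6)⟩, ⟨0, (1 : Fin 6)⟩, ⟨0, (2 : Fin 6)⟩, ⟨0, (3 : Fin 6)⟩,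
      ⟨0, (4 : Fin 6)⟩, ⟨0, (5 : Fin 6)⟩, ⟨1, (0 : Fin 1)⟩] (by decide) _ ?_
  intro i j
  fin_cases i <;> fin_cases j <;> rfl

theorem sh52 {A : Matrix (Fin 7) (Fin 7) k}
    (b : Module.Basis (Σ a : Fin 2, Fin ((![5, 2] : Fin 2 → ℕ) a)) k (Fin 7 → k))
    (hb : ∀ (a : Fin 2) (i : Fin ((![5, 2] : Fin 2 → ℕ) a)), A *ᵥ (b ⟨a, i⟩) =
      if h : (i : ℕ) + 1 < (![5, 2] : Fin 2 → ℕ) a then b ⟨a, ⟨(i : ℕ) + 1, h⟩⟩ else 0) :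
    ∃ g h : Matrix (Fin 7) (Fin 7) k, g * h = 1 ∧ h * g = 1 ∧ g * A * h = J52 k := by
  refine shape b hb ![⟨0, (0 : Fin 5)⟩, ⟨0, (1 : Fin 5)⟩, ⟨0, (2 : Fin 5)⟩, ⟨0, (3 : Fin 5)⟩,
      ⟨0, (4 : Fin 5)⟩, ⟨1, (0 : Fin 2)⟩, ⟨1, (1 : Fin 2)⟩] (by decide) _ ?_
  intro i j
  fin_cases i <;> fin_cases j <;> rfl

theorem sh511 {A : Matrix (Fin 7) (Fin 7) k}
    (b : Module.Basis (Σ a : Fin 3, Fin ((![5, 1, 1] : Fin 3 → ℕ) a)) k (Fin 7 → k))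
    (hb : ∀ (a : Fin 3) (i : Fin ((![5, 1, 1] : Fin 3 → ℕ) a)), A *ᵥ (b ⟨a, i⟩) =
      if h : (i : ℕ) + 1 < (![5, 1, 1] : Fin 3 → ℕ) a then b ⟨a, ⟨(i : ℕ) + 1, h⟩⟩ else 0) :
    ∃ g h : Matrix (Fin 7) (Fin 7) k, g * h = 1 ∧ h * g = 1 ∧ g * A * h = J511 k := by
  refine shape b hb ![⟨0, (0 : Fin 5)⟩, ⟨0, (1 : Fin 5)⟩, ⟨0, (2 : Fin 5)⟩, ⟨0, (3 : Fin 5)⟩,
      ⟨0, (4 : Fin 5)⟩, ⟨1, (0 : Fin 1)⟩, ⟨2, (0 : Fin 1)⟩] (by decide) _ ?_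
  intro i j
  fin_cases i <;> fin_cases j <;> rfl

theorem sh43 {A : Matrix (Fin 7) (Fin 7) k}
    (b : Module.Basis (Σ a : Fin 2, Fin ((![4, 3] : Fin 2 → ℕ) a)) k (Fin 7 → k))
    (hb : ∀ (a : Fin 2) (i : Fin ((![4, 3] : Fin 2 → ℕ) a)), A *ᵥ (b ⟨a, i⟩) =
      if h : (i : ℕ) + 1 < (![4, 3] : Fin 2 → ℕ) a then b ⟨a, ⟨(i : ℕ) + 1, h⟩⟩ else 0) :
    ∃ g h : Matrix (Fin 7) (Fin 7) k, g * h = 1 ∧ h * g = 1 ∧ g * A * h = J43 k := by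
  refine shape b hb ![⟨0, (0 : Fin 4)⟩, ⟨0, (1 : Fin 4)⟩, ⟨0, (2 : Fin 4)⟩, ⟨0, (3 : Fin 4)⟩,
      ⟨1, (0 : Fin 3)⟩, ⟨1, (1 : Fin 3)⟩, ⟨1, (2 : Fin 3)⟩] (by decide) _ ?_
  intro i j
  fin_cases i <;> fin_cases j <;> rfl

theorem sh421 {A : Matrix (Fin 7) (Fin 7) k}
    (b : Module.Basis (Σ a : Fin 3, Fin ((![4, 2, 1] : Fin 3 → ℕ) a)) k (Fin 7 → k))
    (hb : ∀ (a : Fin 3) (i : Fin ((![4, 2, 1] : Fin 3 → ℕ) a)), A *ᵥ (b ⟨a, i⟩) =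
      if h : (i : ℕ) + 1 < (![4, 2, 1] : Fin 3 → ℕ) a then b ⟨a, ⟨(i : ℕ) + 1, h⟩⟩ else 0) :
    ∃ g h : Matrix (Fin 7) (Fin 7) k, g * h = 1 ∧ h * g = 1 ∧ g * A * h = J421 k := by
  refine shape b hb ![⟨0, (0 : Fin 4)⟩, ⟨0, (1 : Fin 4)⟩, ⟨0, (2 : Fin 4)⟩, ⟨0, (3 : Fin 4)⟩,
      ⟨1, (0 : Fin 2)⟩, ⟨1, (1 : Fin 2)⟩, ⟨2, (0 : Fin 1)⟩] (by decide) _ ?_
  intro i j
  fin_cases i <;> fin_cases j <;> rfl

theorem sh4111 {A : Matrix (Fin 7) (Fin 7) k}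
    (b : Module.Basis (Σ a : Fin 4, Fin ((![4, 1, 1, 1] : Fin 4 → ℕ) a)) k (Fin 7 → k))
    (hb : ∀ (a : Fin 4) (i : Fin ((![4, 1, 1, 1] : Fin 4 → ℕ) a)), A *ᵥ (b ⟨a, i⟩) =
      if h : (i : ℕ) + 1 < (![4, 1, 1, 1] : Fin 4 → ℕ) a then b ⟨a, ⟨(i : ℕ) + 1, h⟩⟩ else 0) :
    ∃ g h : Matrix (Fin 7) (Fin 7) k, g * h = 1 ∧ h * g = 1 ∧ g * A * h = J4111 k := by
  refine shape b hb ![⟨0, (0 : Fin 4)⟩, ⟨0, (1 : Fin 4)⟩, ⟨0, (2 : Fin 4)⟩, ⟨0, (3 : Fin 4)⟩,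
      ⟨1, (0 : Fin 1)⟩, ⟨2, (0 : Fin 1)⟩, ⟨3, (0 : Fin 1)⟩] (by decide) _ ?_
  intro i j
  fin_cases i <;> fin_cases j <;> rfl

theorem sh331 {A : Matrix (Fin 7) (Fin 7) k}
    (b : Module.Basis (Σ a : Fin 3, Fin ((![3, 3, 1] : Fin 3 → ℕ) a)) k (Fin 7 → k))
    (hb : ∀ (a : Fin 3) (i : Fin ((![3, 3, 1] : Fin 3 → ℕ) a)), A *ᵥ (b ⟨a, i⟩) =
      if h : (i : ℕ) + 1 < (![3, 3, 1] : Fin 3 → ℕ) a then b ⟨a, ⟨(i : ℕ) + 1, h⟩⟩ else 0) :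
    ∃ g h : Matrix (Fin 7) (Fin 7) k, g * h = 1 ∧ h * g = 1 ∧ g * A * h = J331 k := by
  refine shape b hb ![⟨0, (0 : Fin 3)⟩, ⟨0, (1 : Fin 3)⟩, ⟨0, (2 : Fin 3)⟩, ⟨1, (0 : Fin 3)⟩,
      ⟨1, (1 : Fin 3)⟩, ⟨1, (2 : Fin 3)⟩, ⟨2, (0 : Fin 1)⟩] (by decide) _ ?_
  intro i j
  fin_cases i <;> fin_cases j <;> rfl

theorem sh322 {A : Matrix (Fin 7) (Fin 7) k}
    (b : Module.Basis (Σ a : Fin 3, Fin ((![3, 2, 2] : Fin 3 → ℕ) a)) k (Fin 7 → k))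
    (hb : ∀ (a : Fin 3) (i : Fin ((![3, 2, 2] : Fin 3 → ℕ) a)), A *ᵥ (b ⟨a, i⟩) =
      if h : (i : ℕ) + 1 < (![3, 2, 2] : Fin 3 → ℕ) a then b ⟨a, ⟨(i : ℕ) + 1, h⟩⟩ else 0) :
    ∃ g h : Matrix (Fin 7) (Fin 7) k, g * h = 1 ∧ h * g = 1 ∧ g * A * h = J322 k := by
  refine shape b hb ![⟨0, (0 : Fin 3)⟩, ⟨0, (1 : Fin 3)⟩, ⟨0, (2 : Fin 3)⟩, ⟨1, (0 : Fin 2)⟩,
      ⟨1, (1 : Fin 2)⟩, ⟨2, (0 : Fin 2)⟩, ⟨2, (1 : Fin 2)⟩] (by decide) _ ?_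
  intro i j
  fin_cases i <;> fin_cases j <;> rfl

theorem sh3211 {A : Matrix (Fin 7) (Fin 7) k}
    (b : Module.Basis (Σ a : Fin 4, Fin ((![3, 2, 1, 1] : Fin 4 → ℕ) a)) k (Fin 7 → k))
    (hb : ∀ (a : Fin 4) (i : Fin ((![3, 2, 1, 1] : Fin 4 → ℕ) a)), A *ᵥ (b ⟨a, i⟩) =
      if h : (i : ℕ) + 1 < (![3, 2, 1, 1] : Fin 4 → ℕ) a then b ⟨a, ⟨(i : ℕ) + 1, h⟩⟩ else 0) :
    ∃ g h : Matrix (Fin 7) (Fin 7) k, g * h = 1 ∧ h * g = 1 ∧ g * A * h = J3211 k := by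
  refine shape b hb ![⟨0, (0 : Fin 3)⟩, ⟨0, (1 : Fin 3)⟩, ⟨0, (2 : Fin 3)⟩, ⟨1, (0 : Fin 2)⟩,
      ⟨1, (1 : Fin 2)⟩, ⟨2, (0 : Fin 1)⟩, ⟨3, (0 : Fin 1)⟩] (by decide) _ ?_
  intro i j
  fin_cases i <;> fin_cases j <;> rfl

theorem sh31111 {A : Matrix (Fin 7) (Fin 7) k}
    (b : Module.Basis (Σ a : Fin 5, Fin ((![3, 1, 1, 1, 1] : Fin 5 → ℕ) a)) k (Fin 7 → k))
    (hb : ∀ (a : Fin 5) (i : Fin ((![3, 1, 1, 1, 1] : Fin 5 → ℕ) a)), A *ᵥ (b ⟨a, i⟩) =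
      if h : (i : ℕ) + 1 < (![3, 1, 1, 1, 1] : Fin 5 → ℕ) a then b ⟨a, ⟨(i : ℕ) + 1, h⟩⟩ else 0) :
    ∃ g h : Matrix (Fin 7) (Fin 7) k, g * h = 1 ∧ h * g = 1 ∧ g * A * h = J31111 k := by
  refine shape b hb ![⟨0, (0 : Fin 3)⟩, ⟨0, (1 : Fin 3)⟩, ⟨0, (2 : Fin 3)⟩, ⟨1, (0 : Fin 1)⟩,
      ⟨2, (0 : Fin 1)⟩, ⟨3, (0 : Fin 1)⟩, ⟨4, (0 : Fin 1)⟩] (by decide) _ ?_
  intro i j
  fin_cases i <;> fin_cases j <;> rfl

end JordanAux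

open JordanAux

theorem jordan7 (A : Matrix (Fin 7) (Fin 7) k) (hA : IsNilpotent A) :
    A ^ 2 = 0 ∨ ∃ g h : Matrix (Fin 7) (Fin 7) k, g * h = 1 ∧ h * g = 1 ∧
      (g * A * h = J7 k ∨ g * A * h = J61 k ∨ g * A * h = J52 k ∨ g * A * h = J511 k ∨
        g * A * h = J43 k ∨ g * A * h = J421 k ∨ g * A * h = J4111 k ∨ g * A * h = J331 k ∨
        g * A * h = J322 k ∨ g * A * h = J3211 k ∨ g * A * h = J31111 k) := by
  classical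
  obtain ⟨r, m, b, hb, hpos, hanti, hsum⟩ := sorted A hA
  have hr : r ≤ 7 := by
    rw [← hsum]
    calc r = ∑ _a : Fin r, 1 := by simp
      _ ≤ ∑ a, m a := Finset.sum_le_sum fun a _ => hpos a
  by_cases h2 : ∀ a, m a ≤ 2
  · exact Or.inl (sq_zero b hb h2)
  right
  push Not at h2
  obtain ⟨a0, ha0⟩ := h2
  interval_cases r
  · exact a0.elim0
  · -- one block
    have h0 : m 0 = 7 := by
      simpa [Fin.sum_univ_succ] using hsum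
    obtain rfl : m = ![7] := by
      funext a
      fin_cases a
      exact h0
    obtain ⟨g, h, e1, e2, e3⟩ := sh7 b hb
    exact ⟨g, h, e1, e2, by tauto⟩
  · -- 2 blocks
    have h0 : 3 ≤ m 0 := ha0.trans_le (hanti 0 a0 (Fin.zero_le _))
    have g0 : m 1 ≤ m 0 := hanti 0 1 (by decide)
    have p : 0 < m 1 := hpos 1
    have hs : m 0 + m 1 = 7 := by
      refine Eq.trans ?_ hsum
      simp [Fin.sum_univ_succ, add_assoc]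
    have hc : (m 0 = 6 ∧ m 1 = 1) ∨
        (m 0 = 5 ∧ m 1 = 2) ∨
        (m 0 = 4 ∧ m 1 = 3) := by omega
    rcases hc with ⟨c0, c1⟩ | ⟨c0, c1⟩ | ⟨c0, c1⟩
    · obtain rfl : m = ![6, 1] := by
        funext a
        fin_cases a <;> assumption
      obtain ⟨g, h, e1, e2, e3⟩ := sh61 b hb
      exact ⟨g, h, e1, e2, by tauto⟩
    · obtain rfl : m = ![5, 2] := by
        funext a
        fin_cases a <;> assumption
      obtain ⟨g, h, e1, e2, e3⟩ := sh52 b hb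
      exact ⟨g, h, e1, e2, by tauto⟩
    · obtain rfl : m = ![4, 3] := by
        funext a
        fin_cases a <;> assumption
      obtain ⟨g, h, e1, e2, e3⟩ := sh43 b hb
      exact ⟨g, h, e1, e2, by tauto⟩
  · -- 3 blocks
    have h0 : 3 ≤ m 0 := ha0.trans_le (hanti 0 a0 (Fin.zero_le _))
    have g0 : m 1 ≤ m 0 := hanti 0 1 (by decide)
    have g1 : m 2 ≤ m 1 := hanti 1 2 (by decide)
    have p : 0 < m 2 := hpos 2
    have hs : m 0 + m 1 + m 2 = 7 := by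
      refine Eq.trans ?_ hsum
      simp [Fin.sum_univ_succ, add_assoc]
    have hc : (m 0 = 5 ∧ m 1 = 1 ∧ m 2 = 1) ∨
        (m 0 = 4 ∧ m 1 = 2 ∧ m 2 = 1) ∨
        (m 0 = 3 ∧ m 1 = 3 ∧ m 2 = 1) ∨
        (m 0 = 3 ∧ m 1 = 2 ∧ m 2 = 2) := by omega
    rcases hc with ⟨c0, c1, c2⟩ | ⟨c0, c1, c2⟩ | ⟨c0, c1, c2⟩ | ⟨c0, c1, c2⟩
    · obtain rfl : m = ![5, 1, 1] := by
        funext a
        fin_cases a <;> assumption
      obtain ⟨g, h, e1, e2, e3⟩ := sh511 b hb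
      exact ⟨g, h, e1, e2, by tauto⟩
    · obtain rfl : m = ![4, 2, 1] := by
        funext a
        fin_cases a <;> assumption
      obtain ⟨g, h, e1, e2, e3⟩ := sh421 b hb
      exact ⟨g, h, e1, e2, by tauto⟩
    · obtain rfl : m = ![3, 3, 1] := by
        funext a
        fin_cases a <;> assumption
      obtain ⟨g, h, e1, e2, e3⟩ := sh331 b hb
      exact ⟨g, h, e1, e2, by tauto⟩
    · obtain rfl : m = ![3, 2, 2] := by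
        funext a
        fin_cases a <;> assumption
      obtain ⟨g, h, e1, e2, e3⟩ := sh322 b hb
      exact ⟨g, h, e1, e2, by tauto⟩
  · -- 4 blocks
    have h0 : 3 ≤ m 0 := ha0.trans_le (hanti 0 a0 (Fin.zero_le _))
    have g0 : m 1 ≤ m 0 := hanti 0 1 (by decide)
    have g1 : m 2 ≤ m 1 := hanti 1 2 (by decide)
    have g2 : m 3 ≤ m 2 := hanti 2 3 (by decide)
    have p : 0 < m 3 := hpos 3
    have hs : m 0 + m 1 + m 2 + m 3 = 7 := by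
      refine Eq.trans ?_ hsum
      simp [Fin.sum_univ_succ, add_assoc]
    have hc : (m 0 = 4 ∧ m 1 = 1 ∧ m 2 = 1 ∧ m 3 = 1) ∨
        (m 0 = 3 ∧ m 1 = 2 ∧ m 2 = 1 ∧ m 3 = 1) := by omega
    rcases hc with ⟨c0, c1, c2, c3⟩ | ⟨c0, c1, c2, c3⟩
    · obtain rfl : m = ![4, 1, 1, 1] := by
        funext a
        fin_cases a <;> assumption
      obtain ⟨g, h, e1, e2, e3⟩ := sh4111 b hb
      exact ⟨g, h, e1, e2, by tauto⟩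
    · obtain rfl : m = ![3, 2, 1, 1] := by
        funext a
        fin_cases a <;> assumption
      obtain ⟨g, h, e1, e2, e3⟩ := sh3211 b hb
      exact ⟨g, h, e1, e2, by tauto⟩
  · -- 5 blocks
    have h0 : 3 ≤ m 0 := ha0.trans_le (hanti 0 a0 (Fin.zero_le _))
    have g0 : m 1 ≤ m 0 := hanti 0 1 (by decide)
    have g1 : m 2 ≤ m 1 := hanti 1 2 (by decide)
    have g2 : m 3 ≤ m 2 := hanti 2 3 (by decide)
    have g3 : m 4 ≤ m 3 := hanti 3 4 (by decide)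
    have p : 0 < m 4 := hpos 4
    have hs : m 0 + m 1 + m 2 + m 3 + m 4 = 7 := by
      refine Eq.trans ?_ hsum
      simp [Fin.sum_univ_succ, add_assoc]
    have hc : (m 0 = 3 ∧ m 1 = 1 ∧ m 2 = 1 ∧ m 3 = 1 ∧ m 4 = 1) := by omega
    obtain ⟨c0, c1, c2, c3, c4⟩ := hc
    obtain rfl : m = ![3, 1, 1, 1, 1] := by
      funext a
      fin_cases a <;> assumption
    obtain ⟨g, h, e1, e2, e3⟩ := sh31111 b hb
    exact ⟨g, h, e1, e2, by tauto⟩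
  · -- 6 blocks
    have h0 : 3 ≤ m 0 := ha0.trans_le (hanti 0 a0 (Fin.zero_le _))
    have g0 : m 1 ≤ m 0 := hanti 0 1 (by decide)
    have g1 : m 2 ≤ m 1 := hanti 1 2 (by decide)
    have g2 : m 3 ≤ m 2 := hanti 2 3 (by decide)
    have g3 : m 4 ≤ m 3 := hanti 3 4 (by decide)
    have g4 : m 5 ≤ m 4 := hanti 4 5 (by decide)
    have p : 0 < m 5 := hpos 5
    have hs : m 0 + m 1 + m 2 + m 3 + m 4 + m 5 = 7 := by
      refine Eq.trans ?_ hsum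
      simp [Fin.sum_univ_succ, add_assoc]
    omega
  · -- 7 blocks
    have h0 : 3 ≤ m 0 := ha0.trans_le (hanti 0 a0 (Fin.zero_le _))
    have g0 : m 1 ≤ m 0 := hanti 0 1 (by decide)
    have g1 : m 2 ≤ m 1 := hanti 1 2 (by decide)
    have g2 : m 3 ≤ m 2 := hanti 2 3 (by decide)
    have g3 : m 4 ≤ m 3 := hanti 3 4 (by decide)
    have g4 : m 5 ≤ m 4 := hanti 4 5 (by decide)
    have g5 : m 6 ≤ m 5 := hanti 5 6 (by decide)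
    have p : 0 < m 6 := hpos 6
    have hs : m 0 + m 1 + m 2 + m 3 + m 4 + m 5 + m 6 = 7 := by
      refine Eq.trans ?_ hsum
      simp [Fin.sum_univ_succ, add_assoc]
    omega

end Pool.Agent.Lib.D7
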