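import Pool.Agent.Lib.D7.Flow

/-!
# The size hypotheses of the limit
-/

set_option autoImplicit false

open Filter Topology

namespace Pool.Agent.D7

open Pool.Agent.D6

variable {U : ℕ → List Dg}

theorem lim_of_units (hU : ∀ b, U b ≠ []) {N : ℕ} (hN : ∀ b, ∀ d ∈ U b, d.Ok N) {s : St}
    (hs : Inv s) {σ K Λ : ℝ} (hΛ : 5 ≤ Λ) (hσ : σ = 1 / (Λ - 1)) (hK : 0 ≤ K)
    (hW : ∀ b : ℕ, 1 ≤ b → Wd σ (-(K * (b + 1))) (2 ^ b) (U b) (run (fl U b) s))
    (hS : ∀ b : ℕ, 1 ≤ b → SP σ K b (run (fl U b) s))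
    (hG : ∀ b : ℕ, 1 ≤ b → (2 : ℝ) ^ b ≤ gG (run (fl U b) s)) :
    Lim (ts U s) (dg U) Λ := by
  have hp := path_ts hU hN hs
  have hL : 0 < Λ - 1 := by linarith
  have hσ0 : 0 < σ := by rw [hσ]; positivity
  have hσL : (Λ - 1) * σ = 1 := by rw [hσ]; field_simp
  constructor
  · intro ε hε
    obtain ⟨b1, hb1⟩ := exp_beats ((Λ - 1 + ε) * K / (ε * σ))
    have key := ev_cd hU (s := s) (σ := σ) (x := fun b => -(K * (b + 1))) (g := fun b => 2 ^ b) hW
      (le_max_left 1 b1)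
    filter_upwards [eventually_ge_atTop (fl U (max 1 b1)).length] with τ hτ
    obtain ⟨b, hb, c1, c2, c3⟩ := key τ hτ
    have h1 := hb1 b ((le_max_right _ _).trans hb)
    have h2 : (Λ - 1 + ε) * K * (b + 1) ≤ ε * σ * gG (ts U s τ) := by
      have h3 := h1.trans c3
      have e : (Λ - 1 + ε) * K / (ε * σ) * (b + 1) = (Λ - 1 + ε) * K * (b + 1) / (ε * σ) := by ring
      rw [e, div_le_iff₀ (by positivity)] at h3
      linarith
    have h4 := mul_le_mul_of_nonneg_left c1 (by linarith : 0 ≤ Λ - 1 + ε)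
    have h5 : (Λ - 1 + ε) * (σ * gG (ts U s τ) + -(K * (b + 1))) =
        ((Λ - 1) * σ) * gG (ts U s τ) + ε * σ * gG (ts U s τ) - (Λ - 1 + ε) * K * (b + 1) := by ring
    rw [h5, hσL] at h4
    have h6 : lg (ts U s τ).u = gZ (ts U s τ) + gG (ts U s τ) := by unfold gG gZ; ring
    have h7 : lg (ts U s τ).z = gZ (ts U s τ) := rfl
    rw [h6, h7]
    linarith
  · intro ε hε
    obtain ⟨b1, hb1⟩ := exp_beats (((Λ - 1) * K * (1 + ε / Λ) + (N : ℝ) ^ 2) / (ε / Λ))
    have key := ev_cd hU (s := s) (σ := σ) (x := fun b => -(K * (b + 1))) (g := fun b => 2 ^ b) hW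
      (le_max_left 1 b1)
    filter_upwards [eventually_ge_atTop (fl U (max 1 b1)).length] with τ hτ
    obtain ⟨b, hb, c1, c2, c3⟩ := key τ hτ
    have h1 := hb1 b ((le_max_right _ _).trans hb)
    have hi := hp.inv τ
    have hd := hp.ok τ
    have hΛ0 : 0 < Λ := by linarith
    have hεΛ : 0 < ε / Λ := by positivity
    have hb0 : (0 : ℝ) ≤ b := Nat.cast_nonneg _
    have hz0 : 0 ≤ gZ (ts U s τ) := hi.bz.lg_pos.le
    have sz := (lg_size hi (dg U τ).n).2
    have hn1 : (1 : ℝ) ≤ (dg U τ).n := by exact_mod_cast hp.n1 τ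
    have hnN : ((dg U τ).n : ℝ) ≤ N := by exact_mod_cast hd.hN
    have hn2 : ((dg U τ).n : ℝ) ^ 2 ≤ (N : ℝ) ^ 2 := pow_le_pow_left₀ (by linarith) hnN 2
    have h2 : ((Λ - 1) * K * (1 + ε / Λ) + (N : ℝ) ^ 2) * (b + 1) ≤ ε / Λ * gG (ts U s τ) := by
      have h3 := h1.trans c3
      have e : ((Λ - 1) * K * (1 + ε / Λ) + (N : ℝ) ^ 2) / (ε / Λ) * (b + 1) =
        ((Λ - 1) * K * (1 + ε / Λ) + (N : ℝ) ^ 2) * (b + 1) / (ε / Λ) := by ring
      rw [e, div_le_iff₀ hεΛ] at h3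
      linarith
    have hNN : (N : ℝ) ^ 2 ≤ (N : ℝ) ^ 2 * (b + 1) := by
      have : (0 : ℝ) ≤ (N : ℝ) ^ 2 := sq_nonneg _
      nlinarith
    have h4 := mul_le_mul_of_nonneg_left c2 hL.le
    have h5 : (Λ - 1) * (σ * (dg U τ).n * gG (ts U s τ) - (1 + σ) * gH (ts U s τ) +
        -(K * (b + 1))) = ((Λ - 1) * σ) * ((dg U τ).n * gG (ts U s τ)) -
        (Λ - 1 + (Λ - 1) * σ) * gH (ts U s τ) - (Λ - 1) * K * (b + 1) := by ring
    rw [h5, hσL] at h4
    have hG0 : 0 ≤ gG (ts U s τ) := le_trans (by positivity) c3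
    have hnG : gG (ts U s τ) ≤ (dg U τ).n * gG (ts U s τ) := le_mul_of_one_le_left hG0 hn1
    have hW' : gG (ts U s τ) - (Λ - 1) * K * (b + 1) ≤ Λ * lg (ts U s τ).W := by
      have h7 : lg (ts U s τ).W = gZ (ts U s τ) + gH (ts U s τ) := by unfold gH gZ; ring
      rw [h7]
      linarith
    have hW'' : ε / Λ * (gG (ts U s τ) - (Λ - 1) * K * (b + 1)) ≤ ε * lg (ts U s τ).W := by
      have := mul_le_mul_of_nonneg_left hW' hεΛ.le
      have e : ε / Λ * (Λ * lg (ts U s τ).W) = ε * lg (ts U s τ).W := by field_simp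
      rw [e] at this
      exact this
    have h7 : lg (ts U s τ).W = gZ (ts U s τ) + gH (ts U s τ) := by unfold gH gZ; ring
    have h8 : lg (ts U s τ).z + (dg U τ).n * (lg (ts U s τ).u - lg (ts U s τ).z) =
      gZ (ts U s τ) + (dg U τ).n * gG (ts U s τ) := rfl
    rw [h8] at sz
    refine sz.trans ?_
    have h9 : (Λ + ε) * lg (ts U s τ).W = Λ * (gZ (ts U s τ) + gH (ts U s τ)) +
      ε * lg (ts U s τ).W := by rw [← h7]; ring
    rw [h9]
    linarith
  · intro ε hε
    rw [frequently_atTop]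
    intro τ0
    obtain ⟨b1, hb1⟩ := exp_beats (2 * Λ * K / (ε * σ))
    obtain ⟨b2, hb2⟩ := exp_beats (2 * Λ / (ε * σ))
    set b := max (max 1 τ0) (max b1 b2) with hb
    have hb1' : b1 ≤ b := (le_max_left _ _).trans (le_max_right _ _)
    have hb2' : b2 ≤ b := (le_max_right _ _).trans (le_max_right _ _)
    have h11 : 1 ≤ b := (le_max_left _ _).trans (le_max_left _ _)
    have hτ0 : τ0 ≤ b := (le_max_right _ _).trans (le_max_left _ _)
    refine ⟨(fl U b).length, hτ0.trans (fl_len hU b), ?_⟩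
    have hts : ts U s (fl U b).length = run (fl U b) s := by
      rw [ts_fl hU s le_rfl, List.take_length]
    rw [hts]
    have sp := hS b h11
    have hg := hG b h11
    have h1 := hb1 b hb1'
    have h2 := hb2 b hb2'
    have hz0 : 0 ≤ gZ (run (fl U b) s) := by
      have := (hp.inv (fl U b).length).bz.lg_pos.le
      rw [hts] at this
      exact this
    generalize run (fl U b) s = t at sp hg hz0
    have hb0 : (0 : ℝ) ≤ b := Nat.cast_nonneg _
    have hp2 : (0 : ℝ) < 2 ^ b := by positivity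
    have hG0 : 0 ≤ gG t := le_trans (by positivity) hg
    have hεσ : 0 < ε * σ := by positivity
    have e6 : lg t.u = gZ t + gG t := by unfold gG gZ; ring
    have e7 : lg t.z = gZ t := rfl
    rw [e6, e7]
    rcases le_total (Λ - 1 - ε) 0 with h3 | h3
    · have := mul_nonneg (by linarith : 0 ≤ -(Λ - 1 - ε)) hz0
      linarith
    · have h4 := mul_le_mul_of_nonneg_left sp.up h3
      have h5 : (Λ - 1 - ε) * (σ * gG t + gG t / 2 ^ b + K * b) = ((Λ - 1) * σ) * gG t -
        ε * σ * gG t + (Λ - 1 - ε) * (gG t / 2 ^ b + K * b) := by ring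
      rw [h5, hσL] at h4
      have h6 : (Λ - 1 - ε) * (gG t / 2 ^ b + K * b) ≤ Λ * (gG t / 2 ^ b + K * b) :=
        mul_le_mul_of_nonneg_right (by linarith) (by positivity)
      have h7 : 2 * Λ * K * (b + 1) ≤ ε * σ * gG t := by
        have h3 := h1.trans hg
        have e : 2 * Λ * K / (ε * σ) * (b + 1) = 2 * Λ * K * (b + 1) / (ε * σ) := by ring
        rw [e, div_le_iff₀ hεσ] at h3
        linarith
      have h8 : Λ * K * b ≤ Λ * K * (b + 1) :=
        mul_le_mul_of_nonneg_left (by linarith) (mul_nonneg (by linarith) hK)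
      have h9 : 2 * Λ ≤ ε * σ * 2 ^ b := by
        have e : 2 * Λ / (ε * σ) * (b + 1) = 2 * Λ * (b + 1) / (ε * σ) := by ring
        rw [e, div_le_iff₀ hεσ] at h2
        have : 2 * Λ ≤ 2 * Λ * (b + 1) := le_mul_of_one_le_right (by linarith) (by linarith)
        linarith
      have h10 : 2 * (Λ * (gG t / 2 ^ b)) ≤ ε * σ * gG t := by
        have e : 2 * (Λ * (gG t / 2 ^ b)) = 2 * Λ * gG t / 2 ^ b := by ring
        rw [e, div_le_iff₀ hp2]
        have := mul_le_mul_of_nonneg_right h9 hG0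
        linarith
      linarith
  · rw [tendsto_atTop]
    intro A
    obtain ⟨b1, hb1⟩ := exp_beats A
    have key := ev_cd hU (s := s) (σ := σ) (x := fun b => -(K * (b + 1))) (g := fun b => 2 ^ b) hW
      (le_max_left 1 b1)
    filter_upwards [eventually_ge_atTop (fl U (max 1 b1)).length] with τ hτ
    obtain ⟨b, hb, c1, c2, c3⟩ := key τ hτ
    have h1 := hb1 b ((le_max_right _ _).trans hb)
    have hb0 : (0 : ℝ) ≤ b := Nat.cast_nonneg _
    rcases le_total 0 A with hA | hA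
    · have : A ≤ A * (b + 1) := le_mul_of_one_le_right hA (by linarith)
      exact this.trans (h1.trans c3)
    · exact hA.trans (le_trans (by positivity) c3)

end Pool.Agent.D7
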