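import Pool.Agent.Lib.D7.Asm
import Pool.Agent.Lib.D7.C7

/-!
# The exponents for every `Λ ≥ 7`
-/

set_option autoImplicit false

namespace Pool.Agent.D7

open Pool.Agent.D6

theorem rng7 : Rng C7.P C7.T where
  ck := C7.chk_T
  sd := by decide
  γ := by decide
  lo := by decide
  lh := by decide
  bd := by
    intro κ θ h
    have h1 := h.1 ⟨1, 0, 0⟩ (by simp [C7.P, C7.B])
    have h2 := h.1 ⟨-1, 0, 1⟩ (by simp [C7.P, C7.B])
    have h3 := h.1 ⟨-75, 1000, -115⟩ (by simp [C7.P, C7.B])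
    have h4 := h.1 ⟨170, -1000, 800⟩ (by simp [C7.P, C7.B])
    simp only [Fm.ev] at h1 h2 h3 h4
    push_cast at h1 h2 h3 h4
    refine ⟨by linarith, by linarith, by linarith, by linarith⟩
  l10 := by decide
  l18 := by decide
  h19 := by decide
  h39 := by decide
  tp := by
    intro κ θ h
    have h4 := h.1 ⟨170, -1000, 800⟩ (by simp [C7.P, C7.B])
    simp only [Fm.ev] at h4
    push_cast at h4
    linarith

theorem main (Λ : ℝ) (hΛ : 7 ≤ Λ) : ∃ ξ : ℝ, Transcendental ℚ ξ ∧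
    hlam 2 ξ = ((Λ / (2 * Λ - 1) : ℝ) : EReal) ∧
    hwn 2 ξ = (((2 * Λ - 1) / (Λ - 1) : ℝ) : EReal) ∧
    WnF.hws 2 ξ = (((2 * Λ - 1) / (Λ - 1) : ℝ) : EReal) := by
  have hL : 0 < Λ - 1 := by linarith
  have hσ0 : 0 < 1 / (Λ - 1) := by positivity
  have hσ6 : 1 / (Λ - 1) ≤ 1 / 6 := one_div_le_one_div_of_le (by norm_num) (by linarith)
  refine main_of rng7 (by linarith) ?_ ?_
  · have e : ((C7.P.sn : ℤ) : ℝ) / ((C7.P.sd : ℤ) : ℝ) = 1 / 6 := by norm_num [C7.P]
    rw [e]; exact hσ6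
  · have hx0 : 0 ≤ 2 / 5 * (Λ - 1) := by linarith
    refine ⟨⌊2 / 5 * (Λ - 1)⌋₊, ?_, ?_, ?_⟩
    · exact Nat.le_floor (by push_cast; linarith)
    · have h1 := Nat.floor_le hx0
      rw [mul_one_div, div_le_one hL]
      linarith
    · have h1 := Nat.floor_le hx0
      have h2 := Nat.lt_floor_add_one (2 / 5 * (Λ - 1))
      generalize (⌊2 / 5 * (Λ - 1)⌋₊ : ℝ) = m at h1 h2
      have e1 : 2 * m * (1 / (Λ - 1)) ≤ 4 / 5 := by
        rw [mul_one_div, div_le_iff₀ hL]; linarith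
      have e2 : 4 / 5 - 2 * (1 / (Λ - 1)) ≤ 2 * m * (1 / (Λ - 1)) := by
        have : 4 / 5 - 2 * (1 / (Λ - 1)) = (2 * (2 / 5 * (Λ - 1) - 1)) * (1 / (Λ - 1)) := by
          field_simp
          ring
        rw [this]
        apply mul_le_mul_of_nonneg_right _ hσ0.le
        linarith
      refine ins_sound ?_ C7.ins_S
      intro f hf
      simp only [List.mem_cons, List.not_mem_nil, or_false] at hf
      rcases hf with rfl | rfl | rfl | rfl <;> simp only [Fm.ev] <;> push_cast <;> linarith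

end Pool.Agent.D7
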