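import Pool.Agent.Lib.D7.Defs
import Pool.Agent.Lib.D7.DefsS
import Pool.Agent.Lib.D7.Api

/-!
# MP_5dcbc3_ag: the family `R321` raises the ranks
-/

namespace Pool.Agent.Lib.D7

open Matrix Pool.Agent.Lib.Q5dc

variable {k : Type*} [Field k]

namespace R321SAux

/-- square of the first matrix -/
def X2 (t : k) : Matrix (Fin 6) (Fin 6) k :=
  !![0, 0, 0, 0, 0, 0;
     0, 0, 0, 0, 0, 0;
     2 * t, 0, 0, 0, 0, 0;
     -2 * t, 0, 0, 0, 0, 0;
     1, 0, 0, 0, 0, 0;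
     1, 0, 0, 0, 0, 0]

/-- square of the second matrix -/
def Y2 (t : k) : Matrix (Fin 6) (Fin 6) k :=
  !![0, 0, 0, 0, 0, 0;
     0, 0, 0, 0, 0, 0;
     0, 0, -3 * t ^ 2, -t ^ 2, 2 * t ^ 3, 2 * t ^ 3;
     0, 0, 3 * t ^ 2, t ^ 2, -2 * t ^ 3, -2 * t ^ 3;
     1, 0, -2 * t, -t, t ^ 2, t ^ 2;
     0, 0, -t, 0, t ^ 2, t ^ 2]

/-- square of the third matrix -/
def Z2 (t : k) : Matrix (Fin 6) (Fin 6) k :=
  !![0, 0, 0, 0, 0, 0;
     0, 0, 0, 0, 0, 0;
     0, 0, t ^ 2, 3 * t ^ 2, 2 * t ^ 3, 2 * t ^ 3;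
     0, 0, -t ^ 2, -3 * t ^ 2, -2 * t ^ 3, -2 * t ^ 3;
     0, 0, 0, t, t ^ 2, t ^ 2;
     1, 0, t, 2 * t, t ^ 2, t ^ 2]

/-- fourth power of the second and of the third matrix -/
def Y4 (t : k) : Matrix (Fin 6) (Fin 6) k :=
  !![0, 0, 0, 0, 0, 0;
     0, 0, 0, 0, 0, 0;
     2 * t ^ 3, 0, 0, 0, 0, 0;
     -2 * t ^ 3, 0, 0, 0, 0, 0;
     t ^ 2, 0, 0, 0, 0, 0;
     t ^ 2, 0, 0, 0, 0, 0]

theorem hX2 (t : k) : R321 t 0 * R321 t 0 = X2 t := by
  ext i j
  fin_cases i <;> fin_cases j <;>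
    simp [R321, X2, Matrix.mul_apply, Fin.sum_univ_succ]

theorem hX4 (t : k) : X2 t * X2 t = 0 := by
  ext i j
  fin_cases i <;> fin_cases j <;>
    simp [X2, Matrix.mul_apply, Fin.sum_univ_succ]

theorem hY2 (t : k) : R321 t 1 * R321 t 1 = Y2 t := by
  ext i j
  fin_cases i <;> fin_cases j <;>
    simp [R321, Y2, Matrix.mul_apply, Fin.sum_univ_succ] <;> ring

theorem hY4 (t : k) : Y2 t * Y2 t = Y4 t := by
  ext i j
  fin_cases i <;> fin_cases j <;>
    simp [Y2, Y4, Matrix.mul_apply, Fin.sum_univ_succ] <;> ring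

theorem hZ2 (t : k) : R321 t 2 * R321 t 2 = Z2 t := by
  ext i j
  fin_cases i <;> fin_cases j <;>
    simp [R321, Z2, Matrix.mul_apply, Fin.sum_univ_succ] <;> ring

theorem hZ4 (t : k) : Z2 t * Z2 t = Y4 t := by
  ext i j
  fin_cases i <;> fin_cases j <;>
    simp [Z2, Y4, Matrix.mul_apply, Fin.sum_univ_succ] <;> ring

theorem hY8 (t : k) : Y4 t * Y4 t = 0 := by
  ext i j
  fin_cases i <;> fin_cases j <;>
    simp [Y4, Matrix.mul_apply, Fin.sum_univ_succ]

theorem hXY (t : k) : R321 t 0 * R321 t 1 = R321 t 1 * R321 t 0 := by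
  ext i j
  fin_cases i <;> fin_cases j <;>
    simp [R321, Matrix.mul_apply, Fin.sum_univ_succ] <;> ring

theorem hXZ (t : k) : R321 t 0 * R321 t 2 = R321 t 2 * R321 t 0 := by
  ext i j
  fin_cases i <;> fin_cases j <;>
    simp [R321, Matrix.mul_apply, Fin.sum_univ_succ] <;> ring

theorem hYZ (t : k) : R321 t 1 * R321 t 2 = R321 t 2 * R321 t 1 := by
  ext i j
  fin_cases i <;> fin_cases j <;>
    simp [R321, Matrix.mul_apply, Fin.sum_univ_succ] <;> ring

theorem cn (t : k) : CN (R321 t) := by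
  constructor
  · intro i j
    fin_cases i <;> fin_cases j
    · rfl
    · exact hXY t
    · exact hXZ t
    · exact (hXY t).symm
    · rfl
    · exact hYZ t
    · exact (hXZ t).symm
    · exact (hYZ t).symm
    · rfl
  · have hp : ∀ M : Matrix (Fin 6) (Fin 6) k, M ^ 4 = (M * M) * (M * M) := fun M =>
      (pow_add M 2 2).trans (by rw [pow_two])
    intro i
    fin_cases i
    · exact ⟨4, by
        change R321 t 0 ^ 4 = 0
        rw [hp, hX2, hX4]⟩
    · exact ⟨4 * 2, by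
        change R321 t 1 ^ (4 * 2) = 0
        rw [pow_mul, hp, hY2, hY4, pow_two, hY8]⟩
    · exact ⟨4 * 2, by
        change R321 t 2 ^ (4 * 2) = 0
        rw [pow_mul, hp, hZ2, hZ4, pow_two, hY8]⟩

theorem poly : PolyFam (R321 : k → Fin 3 → Matrix (Fin 6) (Fin 6) k) := by
  have c : ∀ a : k, IsPoly fun _ : k => a := IsPoly.const
  have h1 : IsPoly fun s : k => s := IsPoly.id
  have h2 : IsPoly fun s : k => s ^ 2 := h1.pow 2
  have e1 : IsPoly fun s : k => 2 * s := (c 2).mul h1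
  have e2 : IsPoly fun s : k => -2 * s := (c (-2)).mul h1
  have e2' : IsPoly fun s : k => -(2 * s) := e1.neg
  have e3 : IsPoly fun s : k => -3 * s ^ 2 := (c (-3)).mul h2
  have e3' : IsPoly fun s : k => -(3 * s ^ 2) := ((c 3).mul h2).neg
  have e4 : IsPoly fun s : k => 3 * s ^ 2 := (c 3).mul h2
  have e5 : IsPoly fun s : k => -s ^ 2 := h2.neg
  have e6 : IsPoly fun s : k => -s := h1.neg
  intro i x y
  fin_cases i <;> fin_cases x <;> fin_cases y <;> simp [R321] <;>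
    first | exact c _ | exact h1 | exact h2 | exact e1 | exact e2 | exact e2' | exact e3 |
      exact e3' | exact e4 | exact e5 | exact e6

end R321SAux

open R321SAux

/-- the family `R321` contradicts the maximality of the ranks -/
theorem no_R321 [Infinite k] {ρ : ℕ → ℕ} (hT : MaxR ρ (R321 (0 : k))) (h4 : ρ 4 = 0) : False := by
  refine hT.raise R321 poly rfl Set.finite_empty (fun s _ => cn s) 4 (fun s => R321 s 1)
    (fun s => mem_adj _ 1) ?_
  have h1 : ({0}ᶜ : Set k).Infinite := (Set.finite_singleton 0).infinite_compl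
  refine h1.mono fun s hs => ?_
  change ρ 4 < (R321 s 1 ^ 4).rank
  have hp : R321 s 1 ^ 4 = Y4 s := by
    have h2 : R321 s 1 ^ 4 = (R321 s 1 * R321 s 1) * (R321 s 1 * R321 s 1) :=
      (pow_add (R321 s 1) 2 2).trans (by rw [pow_two])
    rw [h2, hY2, hY4]
  rw [hp, h4]
  refine le_rank_of_minor (r := 1) (Y4 s) (fun _ => 5) (fun _ => 0) ?_
  rw [Matrix.det_unique]
  change s ^ 2 ≠ 0
  exact pow_ne_zero 2 hs

end Pool.Agent.Lib.D7
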