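import Mathlib
import Pool.Agent.Lib.D7.Fams
import Pool.Agent.Lib.D7.Api

/-!
# D7.S331: raising the family `S331`

The triples `S331 l` commute and are nilpotent for all `l`; the cube of `S331 l 1` is nonzero for
`l ≠ 0`. So `S331 0` is not a maximal bad triple with `ρ 3 = 0`.
-/

set_option linter.unusedSimpArgs false

namespace Pool.Agent.Lib.D7

open Matrix

namespace S331Aux

variable {k : Type*} [Field k]

/-- explicit matrix -/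
def mX (l : k) : Matrix (Fin 7) (Fin 7) k :=
  !![0, 0, 0, 0, 0, 0, 0;
     0, 0, 4 * l ^ 2, 0, 0, 0, 0;
     1, 0, 0, 0, 0, 0, 0;
     0, 0, -(2 * l), 0, 0, 0, 0;
     0, 0, -(2 * l), 0, 0, 0, 0;
     0, 0, -1, 0, 0, 0, 0;
     0, 0, 1, 0, 0, 0, 0]

/-- explicit matrix -/
def mY (l : k) : Matrix (Fin 7) (Fin 7) k :=
  !![0, 0, 0, 0, 0, 0, 0;
     0, l, 0, 0, 0, 4 * l ^ 3, 0;
     0, 0, 0, 0, 0, 0, 0;
     1, -1, 0, 0, -(1 / 2 * l), -(11 / 4 * l ^ 2), 1 / 4 * l ^ 2;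
     0, 0, 0, 0, 1 / 2 * l, -(5 / 4 * l ^ 2), -(1 / 4 * l ^ 2);
     0, 0, 0, 1, 0, -(2 * l), 0;
     0, 0, 0, 0, 0, 1 / 2 * l, 1 / 2 * l]

/-- explicit matrix -/
def mZ (l : k) : Matrix (Fin 7) (Fin 7) k :=
  !![0, 0, 0, 0, 0, 0, 0;
     0, -(l), 0, 0, 0, 0, 4 * l ^ 3;
     0, 0, 0, 0, 0, 0, 0;
     0, 0, 0, -(1 / 2 * l), 0, -(1 / 4 * l ^ 2), -(5 / 4 * l ^ 2);
     1, 1, 0, 1 / 2 * l, 0, 1 / 4 * l ^ 2, -(11 / 4 * l ^ 2);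
     0, 0, 0, 0, 0, -(1 / 2 * l), -(1 / 2 * l);
     0, 0, 0, 0, 1, 0, 2 * l]

/-- explicit matrix -/
def mX2 (l : k) : Matrix (Fin 7) (Fin 7) k :=
  !![0, 0, 0, 0, 0, 0, 0;
     4 * l ^ 2, 0, 0, 0, 0, 0, 0;
     0, 0, 0, 0, 0, 0, 0;
     -(2 * l), 0, 0, 0, 0, 0, 0;
     -(2 * l), 0, 0, 0, 0, 0, 0;
     -1, 0, 0, 0, 0, 0, 0;
     1, 0, 0, 0, 0, 0, 0]

/-- explicit matrix -/
def mY2 (l : k) : Matrix (Fin 7) (Fin 7) k :=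
  !![0, 0, 0, 0, 0, 0, 0;
     0, l ^ 2, 0, 4 * l ^ 3, 0, -(4 * l ^ 4), 0;
     0, 0, 0, 0, 0, 0, 0;
     0, -(l), 0, -(11 / 4 * l ^ 2), -(1 / 4 * l ^ 2), 9 / 4 * l ^ 3, 1 / 4 * l ^ 3;
     0, 0, 0, -(5 / 4 * l ^ 2), 1 / 4 * l ^ 2, 7 / 4 * l ^ 3, -(1 / 4 * l ^ 3);
     1, -1, 0, -(2 * l), -(1 / 2 * l), 5 / 4 * l ^ 2, 1 / 4 * l ^ 2;
     0, 0, 0, 1 / 2 * l, 0, -(3 / 4 * l ^ 2), 1 / 4 * l ^ 2]

/-- explicit matrix -/
def mY3 (l : k) : Matrix (Fin 7) (Fin 7) k :=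
  !![0, 0, 0, 0, 0, 0, 0;
     4 * l ^ 3, -(3 * l ^ 3), 0, -(4 * l ^ 4), -(2 * l ^ 4), l ^ 5, l ^ 5;
     0, 0, 0, 0, 0, 0, 0;
     -(11 / 4 * l ^ 2), 7 / 4 * l ^ 2, 0, 9 / 4 * l ^ 3, 5 / 4 * l ^ 3, -(1 / 2 * l ^ 4), -(1 / 2 * l ^ 4);
     -(5 / 4 * l ^ 2), 5 / 4 * l ^ 2, 0, 7 / 4 * l ^ 3, 3 / 4 * l ^ 3, -(1 / 2 * l ^ 4), -(1 / 2 * l ^ 4);
     -(2 * l), l, 0, 5 / 4 * l ^ 2, 3 / 4 * l ^ 2, -(1 / 4 * l ^ 3), -(1 / 4 * l ^ 3);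
     1 / 2 * l, -(1 / 2 * l), 0, -(3 / 4 * l ^ 2), -(1 / 4 * l ^ 2), 1 / 4 * l ^ 3, 1 / 4 * l ^ 3]

/-- explicit matrix -/
def mZ2 (l : k) : Matrix (Fin 7) (Fin 7) k :=
  !![0, 0, 0, 0, 0, 0, 0;
     0, l ^ 2, 0, 0, 4 * l ^ 3, 0, 4 * l ^ 4;
     0, 0, 0, 0, 0, 0, 0;
     0, 0, 0, 1 / 4 * l ^ 2, -(5 / 4 * l ^ 2), 1 / 4 * l ^ 3, -(7 / 4 * l ^ 3);
     0, -(l), 0, -(1 / 4 * l ^ 2), -(11 / 4 * l ^ 2), -(1 / 4 * l ^ 3), -(9 / 4 * l ^ 3);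
     0, 0, 0, 0, -(1 / 2 * l), 1 / 4 * l ^ 2, -(3 / 4 * l ^ 2);
     1, 1, 0, 1 / 2 * l, 2 * l, 1 / 4 * l ^ 2, 5 / 4 * l ^ 2]

/-- explicit matrix -/
def mZ3 (l : k) : Matrix (Fin 7) (Fin 7) k :=
  !![0, 0, 0, 0, 0, 0, 0;
     4 * l ^ 3, 3 * l ^ 3, 0, 2 * l ^ 4, 4 * l ^ 4, l ^ 5, l ^ 5;
     0, 0, 0, 0, 0, 0, 0;
     -(5 / 4 * l ^ 2), -(5 / 4 * l ^ 2), 0, -(3 / 4 * l ^ 3), -(7 / 4 * l ^ 3), -(1 / 2 * l ^ 4), -(1 / 2 * l ^ 4);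
     -(11 / 4 * l ^ 2), -(7 / 4 * l ^ 2), 0, -(5 / 4 * l ^ 3), -(9 / 4 * l ^ 3), -(1 / 2 * l ^ 4), -(1 / 2 * l ^ 4);
     -(1 / 2 * l), -(1 / 2 * l), 0, -(1 / 4 * l ^ 2), -(3 / 4 * l ^ 2), -(1 / 4 * l ^ 3), -(1 / 4 * l ^ 3);
     2 * l, l, 0, 3 / 4 * l ^ 2, 5 / 4 * l ^ 2, 1 / 4 * l ^ 3, 1 / 4 * l ^ 3]

/-- explicit matrix -/
def mYZ (l : k) : Matrix (Fin 7) (Fin 7) k :=
  !![0, 0, 0, 0, 0, 0, 0;
     0, -(l ^ 2), 0, 0, 0, -(2 * l ^ 4), 2 * l ^ 4;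
     0, 0, 0, 0, 0, 0, 0;
     -(1 / 2 * l), 1 / 2 * l, 0, -(1 / 4 * l ^ 2), 1 / 4 * l ^ 2, 5 / 4 * l ^ 3, -(3 / 4 * l ^ 3);
     1 / 2 * l, 1 / 2 * l, 0, 1 / 4 * l ^ 2, -(1 / 4 * l ^ 2), 3 / 4 * l ^ 3, -(5 / 4 * l ^ 3);
     0, 0, 0, -(1 / 2 * l), 0, 3 / 4 * l ^ 2, -(1 / 4 * l ^ 2);
     0, 0, 0, 0, 1 / 2 * l, -(1 / 4 * l ^ 2), 3 / 4 * l ^ 2]

section products

theorem XY (l : k) : mX l * mY l = 0 := by
  ext i j
  fin_cases i <;> fin_cases j <;>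
    (simp [mX, mY, mZ, mX2, mY2, mY3, mZ2, mZ3, mYZ, Matrix.mul_apply, Fin.sum_univ_succ]
     try ring)

theorem XZ (l : k) : mX l * mZ l = 0 := by
  ext i j
  fin_cases i <;> fin_cases j <;>
    (simp [mX, mY, mZ, mX2, mY2, mY3, mZ2, mZ3, mYZ, Matrix.mul_apply, Fin.sum_univ_succ]
     try ring)

theorem XX (l : k) : mX l * mX l = mX2 l := by
  ext i j
  fin_cases i <;> fin_cases j <;>
    (simp [mX, mY, mZ, mX2, mY2, mY3, mZ2, mZ3, mYZ, Matrix.mul_apply, Fin.sum_univ_succ]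
     try ring)

theorem XXX (l : k) : mX2 l * mX l = 0 := by
  ext i j
  fin_cases i <;> fin_cases j <;>
    (simp [mX, mY, mZ, mX2, mY2, mY3, mZ2, mZ3, mYZ, Matrix.mul_apply, Fin.sum_univ_succ]
     try ring)

variable [CharZero k]

theorem YX (l : k) : mY l * mX l = 0 := by
  ext i j
  fin_cases i <;> fin_cases j <;>
    (simp [mX, mY, mZ, mX2, mY2, mY3, mZ2, mZ3, mYZ, Matrix.mul_apply, Fin.sum_univ_succ]
     try ring)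

theorem ZX (l : k) : mZ l * mX l = 0 := by
  ext i j
  fin_cases i <;> fin_cases j <;>
    (simp [mX, mY, mZ, mX2, mY2, mY3, mZ2, mZ3, mYZ, Matrix.mul_apply, Fin.sum_univ_succ]
     try ring)

theorem YZ (l : k) : mY l * mZ l = mYZ l := by
  ext i j
  fin_cases i <;> fin_cases j <;>
    (simp [mX, mY, mZ, mX2, mY2, mY3, mZ2, mZ3, mYZ, Matrix.mul_apply, Fin.sum_univ_succ]
     try ring)

theorem ZY (l : k) : mZ l * mY l = mYZ l := by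
  ext i j
  fin_cases i <;> fin_cases j <;>
    (simp [mX, mY, mZ, mX2, mY2, mY3, mZ2, mZ3, mYZ, Matrix.mul_apply, Fin.sum_univ_succ]
     try ring)

theorem YY (l : k) : mY l * mY l = mY2 l := by
  ext i j
  fin_cases i <;> fin_cases j <;>
    (simp [mX, mY, mZ, mX2, mY2, mY3, mZ2, mZ3, mYZ, Matrix.mul_apply, Fin.sum_univ_succ]
     try ring)

theorem YYY (l : k) : mY2 l * mY l = mY3 l := by
  ext i j
  fin_cases i <;> fin_cases j <;>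
    (simp [mX, mY, mZ, mX2, mY2, mY3, mZ2, mZ3, mYZ, Matrix.mul_apply, Fin.sum_univ_succ]
     try ring)

theorem Y6 (l : k) : mY3 l * mY3 l = 0 := by
  ext i j
  fin_cases i <;> fin_cases j <;>
    (simp [mX, mY, mZ, mX2, mY2, mY3, mZ2, mZ3, mYZ, Matrix.mul_apply, Fin.sum_univ_succ]
     try ring)

theorem ZZ (l : k) : mZ l * mZ l = mZ2 l := by
  ext i j
  fin_cases i <;> fin_cases j <;>
    (simp [mX, mY, mZ, mX2, mY2, mY3, mZ2, mZ3, mYZ, Matrix.mul_apply, Fin.sum_univ_succ]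
     try ring)

theorem ZZZ (l : k) : mZ2 l * mZ l = mZ3 l := by
  ext i j
  fin_cases i <;> fin_cases j <;>
    (simp [mX, mY, mZ, mX2, mY2, mY3, mZ2, mZ3, mYZ, Matrix.mul_apply, Fin.sum_univ_succ]
     try ring)

theorem Z6 (l : k) : mZ3 l * mZ3 l = 0 := by
  ext i j
  fin_cases i <;> fin_cases j <;>
    (simp [mX, mY, mZ, mX2, mY2, mY3, mZ2, mZ3, mYZ, Matrix.mul_apply, Fin.sum_univ_succ]
     try ring)

end products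

section fam

theorem s0 (l : k) : S331 l 0 = mX l := by
  ext i j
  fin_cases i <;> fin_cases j <;> simp [S331, mX]

theorem nilX (l : k) : IsNilpotent (mX l) := ⟨3, by rw [pow_succ, pow_two, XX, XXX]⟩

variable [CharZero k]

theorem s1 (l : k) : S331 l 1 = mY l := by
  ext i j
  fin_cases i <;> fin_cases j <;> (simp [S331, mY]; try ring)

theorem s2 (l : k) : S331 l 2 = mZ l := by
  ext i j
  fin_cases i <;> fin_cases j <;> (simp [S331, mZ]; try ring)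

theorem cube_Y (l : k) : mY l ^ 3 = mY3 l := by
  rw [pow_succ, pow_two, YY, YYY]

theorem cube_Z (l : k) : mZ l ^ 3 = mZ3 l := by
  rw [pow_succ, pow_two, ZZ, ZZZ]

theorem nilY (l : k) : IsNilpotent (mY l) :=
  ⟨3 * 2, by rw [pow_mul, pow_two, cube_Y, Y6]⟩

theorem nilZ (l : k) : IsNilpotent (mZ l) :=
  ⟨3 * 2, by rw [pow_mul, pow_two, cube_Z, Z6]⟩

theorem cn (l : k) : CN (S331 l) := by
  constructor
  · intro i j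
    fin_cases i <;> fin_cases j <;>
      simp only [Fin.zero_eta, Fin.mk_one, Fin.reduceFinMk, Fin.isValue, s0, s1, s2, XY, YX, XZ,
        ZX, YZ, ZY]
  · intro i
    fin_cases i
    · exact (s0 l).symm ▸ nilX l
    · exact (s1 l).symm ▸ nilY l
    · exact (s2 l).symm ▸ nilZ l

omit [CharZero k] in
theorem poly : PolyFam (S331 (k := k)) := by
  intro i x y
  fin_cases i <;> fin_cases x <;> fin_cases y <;> simp only [S331] <;>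
    repeat first
      | exact IsPoly.id
      | exact IsPoly.const _
      | apply IsPoly.mul
      | apply IsPoly.neg
      | apply IsPoly.pow

theorem rank_Y {l : k} (hl : l ≠ 0) : 0 < (mY3 l).rank := by
  refine le_rank_of_minor (r := 1) (mY3 l) ![1] ![0] ?_
  have h : 4 * l ^ 3 ≠ 0 := mul_ne_zero (by norm_num) (pow_ne_zero _ hl)
  simpa [mY3] using h

end fam

end S331Aux

open S331Aux in
/-- the triple `S331 0` is not a maximal bad triple with `ρ 3 = 0` -/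
theorem no_S331 {k : Type*} [Field k] [IsAlgClosed k] [CharZero k] {ρ : ℕ → ℕ}
    (hT : MaxR ρ (S331 (0 : k))) (h3 : ρ 3 = 0) : False := by
  refine hT.raise S331 poly rfl Set.finite_empty (fun s _ => cn s) 3 (fun s => S331 s 1)
    (fun s => mem_adj _ 1) ?_
  have h1 : ({0}ᶜ : Set k).Infinite := (Set.finite_singleton (0 : k)).infinite_compl
  refine h1.mono ?_
  intro s hs
  have hs0 : s ≠ 0 := hs
  change ρ 3 < ((S331 s 1) ^ 3).rank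
  rw [h3, s1, cube_Y]
  exact rank_Y hs0

end Pool.Agent.Lib.D7
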