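import Pool.Agent.Lib.D7.Api

namespace Pool.Agent.Lib.D7

open Matrix Pool.Agent.Lib.Q5dc

namespace T3211Aux

variable {k : Type*} [Field k]

theorem nilp_row {n : Type*} [Fintype n] [DecidableEq n] {M : Matrix n n k} (hM : IsNilpotent M)
    {w : n → k} {c : k} (h : w ᵥ* M = c • w) (hw : w ≠ 0) : c = 0 := by
  obtain ⟨m, hm⟩ := hM
  have h1 : ∀ i : ℕ, w ᵥ* (M ^ i) = c ^ i • w := by
    intro i
    induction i with
    | zero => simp
    | succ i ih =>
      rw [pow_succ, ← Matrix.vecMul_vecMul, ih, Matrix.smul_vecMul, h, smul_smul, pow_succ]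
  have h2 := h1 m
  rw [hm, Matrix.vecMul_zero] at h2
  have h3 : c ^ m = 0 := by
    by_contra h4
    exact hw ((smul_eq_zero.mp h2.symm).resolve_left h4)
  by_contra h4
  exact pow_ne_zero m h4 h3

theorem shape {M : Matrix (Fin 7) (Fin 7) k} (hc : J3211 k * M = M * J3211 k)
    (hM : IsNilpotent M) :
    M = B3211 (M 3 0) (M 4 0) (M 5 0) (M 6 0) (M 1 3) (M 2 3) (M 4 3 - M 1 0) (M 5 3) (M 6 3)
      (M 2 5) (M 2 6) (M 4 5) (M 4 6) (M 5 5) (M 5 6) (M 6 5) (M 6 6) +
      M 1 0 • J3211 k + M 2 0 • (J3211 k * J3211 k) := by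
  have e (i j : Fin 7) : (J3211 k * M) i j = (M * J3211 k) i j := by rw [hc]
  have e00 := e 0 0; have e01 := e 0 1; have e03 := e 0 3
  have e10 := e 1 0; have e11 := e 1 1; have e12 := e 1 2; have e13 := e 1 3; have e14 := e 1 4
  have e15 := e 1 5; have e16 := e 1 6
  have e20 := e 2 0; have e21 := e 2 1; have e22 := e 2 2; have e23 := e 2 3; have e24 := e 2 4
  have e25 := e 2 5; have e26 := e 2 6
  have e30 := e 3 0; have e31 := e 3 1; have e33 := e 3 3
  have e40 := e 4 0; have e41 := e 4 1; have e42 := e 4 2; have e43 := e 4 3; have e44 := e 4 4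
  have e45 := e 4 5; have e46 := e 4 6
  have e50 := e 5 0; have e51 := e 5 1; have e53 := e 5 3
  have e60 := e 6 0; have e61 := e 6 1; have e63 := e 6 3
  clear e
  simp [J3211, Matrix.mul_apply, Fin.sum_univ_succ] at e00 e01 e03 e10 e11 e12 e13 e14 e15 e16 e20 e21 e22 e23 e24 e25 e26 e30 e31 e33 e40 e41 e42 e43 e44 e45 e46 e50 e51 e53 e60 e61 e63
  have h03 : M 0 3 = 0 := e13.trans e24
  have h00 : M 0 0 = 0 := by
    refine nilp_row hM (w := fun j => if j = 0 then 1 else 0) (c := M 0 0) ?_ ?_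
    · funext j
      fin_cases j <;> simp [Matrix.vecMul, dotProduct, ← e00, ← e01, ← e03, e15, e16, h03]
    · intro h
      simpa using congrFun h 0
  have h33 : M 3 3 = 0 := by
    by_contra h
    refine h (nilp_row hM (w := fun j => if j = 0 then M 3 0 else if j = 3 then M 3 3 else 0)
      (c := M 3 3) ?_ ?_)
    · funext j
      fin_cases j <;> simp [Matrix.vecMul, dotProduct, Fin.sum_univ_succ, ← e00, ← e01, ← e03,
        e15, e16, h03, h00, ← e30, ← e31, ← e33, e45, e46, mul_comm]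
    · intro h2
      exact h (by simpa using congrFun h2 3)
  have h11 : M 1 1 = 0 := e10.symm.trans h00
  have h22 : M 2 2 = 0 := e21.symm.trans h11
  have h42 : M 4 2 = 0 := e41.symm.trans e30.symm
  have h44 : M 4 4 = 0 := e43.symm.trans h33
  have h12 : M 1 2 = 0 := e22
  have h14 : M 1 4 = 0 := e24
  ext i j
  fin_cases i <;> fin_cases j <;> simp [B3211, J3211] <;>
    first
    | assumption
    | (first | exact e00.symm | exact e01.symm | exact e03.symm | exact e30.symm | exact e31.symm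
             | exact e33.symm | exact e50.symm | exact e51.symm | exact e53.symm | exact e60.symm
             | exact e61.symm | exact e63.symm | exact e20.symm | exact e23.symm | exact e40.symm)

/-- commuting nilpotent triples -/
theorem cn3 {n : Type*} [Fintype n] [DecidableEq n] {A B C : Matrix n n k} (hAB : A * B = B * A)
    (hAC : A * C = C * A) (hBC : B * C = C * B) (hA : IsNilpotent A) (hB : IsNilpotent B)
    (hC : IsNilpotent C) : CN ![A, B, C] := by
  refine ⟨?_, ?_⟩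
  · intro i j
    fin_cases i <;> fin_cases j <;> simp [hAB, hAC, hBC]
  · intro i
    fin_cases i <;> simp [hA, hB, hC]

theorem pow_rankone {n : Type*} [Fintype n] [DecidableEq n] {T : Matrix n n k} {ψ f : n → k}
    (h1 : ψ ᵥ* T = 0) (h2 : ψ ⬝ᵥ f = 0) (s : k) (m : ℕ) :
    (T + s • vecMulVec f ψ) ^ (m + 1) = T ^ (m + 1) + s • vecMulVec ((T ^ m) *ᵥ f) ψ := by
  induction m with
  | zero => simp
  | succ m ih =>
    rw [pow_succ, ih, mul_add, add_mul, add_mul, ← pow_succ]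
    simp only [Matrix.smul_mul, Matrix.mul_smul, Matrix.vecMulVec_mul, Matrix.mul_vecMulVec, h1]
    simp [Matrix.smul_mulVec, Matrix.vecMulVec_mulVec, h2]

theorem cn_rankone {n : Type*} [Fintype n] [DecidableEq n] {T : Fin 3 → Matrix n n k}
    (hT : CN T) (ψ : n → k) (f : Fin 3 → n → k) (h1 : ∀ i, ψ ᵥ* T i = 0)
    (h2 : ∀ i, ψ ⬝ᵥ f i = 0) (h3 : ∀ i j, T i *ᵥ f j = T j *ᵥ f i) (s : k) :
    CN (T + s • fun i => vecMulVec (f i) ψ) := by
  refine ⟨?_, ?_⟩
  · intro i j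
    simp only [Pi.add_apply, Pi.smul_apply, mul_add, add_mul, Matrix.smul_mul, Matrix.mul_smul,
      Matrix.vecMulVec_mul, Matrix.mul_vecMulVec, h1]
    rw [hT.1 i j, h3 i j]
    simp [Matrix.smul_mulVec, Matrix.vecMulVec_mulVec, h2]
  · intro i
    obtain ⟨m, hm⟩ := hT.2 i
    refine ⟨m + 1, ?_⟩
    have := pow_rankone (h1 i) (h2 i) s m
    simp only [Pi.add_apply, Pi.smul_apply]
    rw [this, pow_succ, hm]
    simp

theorem det4 (a b c d e f g h x y : k) :
    (!![1, 0, a, 0; 0, 1, b, c; d, e, f, g; h, 0, x, y] : Matrix (Fin 4) (Fin 4) k).det =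
      (f - d * a - b * e) * y - (g - c * e) * (x - h * a) := by
  simp [Matrix.det_succ_row_zero, Fin.sum_univ_succ, Fin.succAbove]
  ring

theorem rank4 {M : Matrix (Fin 7) (Fin 7) k} (i j : Fin 7) (h10 : M 1 0 = 1) (h11 : M 1 1 = 0)
    (h1j : M 1 j = 0) (h20 : M 2 0 = 0) (h21 : M 2 1 = 1) (hi1 : M i 1 = 0)
    (h : (M 4 3 - M 4 0 * M 1 3 - M 2 3 * M 4 1) * M i j -
      (M 4 j - M 2 j * M 4 1) * (M i 3 - M i 0 * M 1 3) ≠ 0) : 4 ≤ M.rank := by
  refine le_rank_of_minor M ![1, 2, 4, i] ![0, 1, 3, j] ?_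
  have : M.submatrix ![1, 2, 4, i] ![0, 1, 3, j] = !![1, 0, M 1 3, 0; 0, 1, M 2 3, M 2 j;
      M 4 0, M 4 1, M 4 3, M 4 j; M i 0, 0, M i 3, M i j] := by
    ext a b
    fin_cases a <;> fin_cases b <;> simp [h10, h11, h1j, h20, h21, hi1]
  rw [this, det4]
  exact h

theorem rank_J : (J3211 k).rank ≤ 3 := by
  refine rank_le_of_factor _ !![0, 0, 0; 1, 0, 0; 0, 1, 0; 0, 0, 0; 0, 0, 1; 0, 0, 0; 0, 0, 0]
    !![1, 0, 0, 0, 0, 0, 0; 0, 1, 0, 0, 0, 0, 0; 0, 0, 0, 1, 0, 0, 0] ?_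
  ext i j
  fin_cases i <;> fin_cases j <;> simp [J3211, Matrix.mul_apply, Fin.sum_univ_succ]

theorem J_cube : J3211 k ^ 3 = 0 := by
  rw [pow_succ, pow_two]
  ext i j
  fin_cases i <;> fin_cases j <;> simp [J3211, Matrix.mul_apply, Fin.sum_univ_succ]

end T3211Aux
end Pool.Agent.Lib.D7
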