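import Pool.Agent.Lib.D7.T3211a

namespace Pool.Agent.Lib.D7

open Matrix Pool.Agent.Lib.Q5dc

namespace T3211Aux

variable {k : Type*} [Field k]

/-- two linear equations in three unknowns -/
theorem ker23 (a1 a2 a3 b1 b2 b3 : k) : ∃ x y z : k, (x ≠ 0 ∨ y ≠ 0 ∨ z ≠ 0) ∧
    a1 * x + a2 * y + a3 * z = 0 ∧ b1 * x + b2 * y + b3 * z = 0 := by
  have h : LinearMap.ker (Matrix.mulVecLin (!![a1, a2, a3; b1, b2, b3] :
      Matrix (Fin 2) (Fin 3) k)) ≠ ⊥ := by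
    apply LinearMap.ker_ne_bot_of_finrank_lt
    simp
  obtain ⟨v, hv, hv0⟩ := Submodule.exists_mem_ne_zero_of_ne_bot h
  rw [LinearMap.mem_ker] at hv
  refine ⟨v 0, v 1, v 2, ?_, ?_, ?_⟩
  · by_contra hc
    push Not at hc
    apply hv0
    funext i
    fin_cases i <;> simp [hc]
  · have := congrFun hv 0
    simpa [Matrix.mulVec, dotProduct, Fin.sum_univ_succ, add_assoc] using this
  · have := congrFun hv 1
    simpa [Matrix.mulVec, dotProduct, Fin.sum_univ_succ, add_assoc] using this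

/-- case I, last step -/
theorem caseI_fin [CharZero k] {ρ : ℕ → ℕ} (hρ : ρ 1 ≤ 3)
    {al1 w0 w1 be1 ga t0 t1 e0 e1 al1' w0' w1' be1' ga' t0' t1' e0' e1' : k}
    (hT : MaxR ρ ![J3211 k, B3211 1 al1 w0 w1 0 be1 ga 0 0 t0 t1 e0 e1 0 0 0 0,
      B3211 0 al1' w0' w1' 0 be1' ga' 0 0 t0' t1' e0' e1' 0 0 0 0])
    (hw : w0' ≠ 0 ∨ w1' ≠ 0) : False := by
  have : Infinite k := CharZero.infinite k
  -- the linear system
  obtain ⟨x1, x2, y2, hne, hE5, hE6⟩ : ∃ x1 x2 y2 : k, (x1 ≠ 0 ∨ x2 ≠ 0 ∨ y2 ≠ 0) ∧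
      (be1 + t0 * w0 + t1 * w1) * (ga' * x1 + e0' * (x1 * w0 + x2 * w0') + e1' * (x1 * w1 + x2 * w1')) -
      (be1' + t0' * w0 + t1' * w1) * (ga * x1 + e0 * (x1 * w0 + x2 * w0') + e1 * (x1 * w1 + x2 * w1')) -
      (t0' * w0' + t1' * w1') * y2 = 0 ∧
      (be1' * x1 + t0' * (x1 * w0 + x2 * w0') + t1' * (x1 * w1 + x2 * w1')) +
      (ga + e0 * w0 + e1 * w1) * (ga' * x1 + e0' * (x1 * w0 + x2 * w0') + e1' * (x1 * w1 + x2 * w1')) -
      (ga' + e0' * w0 + e1' * w1) * (ga * x1 + e0 * (x1 * w0 + x2 * w0') + e1 * (x1 * w1 + x2 * w1')) -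
      (e0' * w0' + e1' * w1') * y2 = 0 := by
    obtain ⟨x1, x2, y2, h0, h1, h2⟩ := ker23
      ((be1 + t0 * w0 + t1 * w1) * (ga' + e0' * w0 + e1' * w1) -
        (be1' + t0' * w0 + t1' * w1) * (ga + e0 * w0 + e1 * w1))
      ((be1 + t0 * w0 + t1 * w1) * (e0' * w0' + e1' * w1') -
        (be1' + t0' * w0 + t1' * w1) * (e0 * w0' + e1 * w1'))
      (-(t0' * w0' + t1' * w1'))
      ((be1' + t0' * w0 + t1' * w1) + (ga + e0 * w0 + e1 * w1) * (ga' + e0' * w0 + e1' * w1) -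
        (ga' + e0' * w0 + e1' * w1) * (ga + e0 * w0 + e1 * w1))
      ((t0' * w0' + t1' * w1') + (ga + e0 * w0 + e1 * w1) * (e0' * w0' + e1' * w1') -
        (ga' + e0' * w0 + e1' * w1) * (e0 * w0' + e1 * w1'))
      (-(e0' * w0' + e1' * w1'))
    refine ⟨x1, x2, y2, h0, ?_, ?_⟩
    · linear_combination h1
    · linear_combination h2
  obtain ⟨y0, hy0⟩ : ∃ y0, y0 = be1 * x1 + t0 * (x1 * w0 + x2 * w0') + t1 * (x1 * w1 + x2 * w1') :=
    ⟨_, rfl⟩
  obtain ⟨y1, hy1⟩ : ∃ y1, y1 = ga * x1 + e0 * (x1 * w0 + x2 * w0') + e1 * (x1 * w1 + x2 * w1') :=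
    ⟨_, rfl⟩
  obtain ⟨z0, hz0⟩ : ∃ z0, z0 = be1' * x1 + t0' * (x1 * w0 + x2 * w0') + t1' * (x1 * w1 + x2 * w1') :=
    ⟨_, rfl⟩
  obtain ⟨z1, hz1⟩ : ∃ z1, z1 = ga' * x1 + e0' * (x1 * w0 + x2 * w0') + e1' * (x1 * w1 + x2 * w1') :=
    ⟨_, rfl⟩
  rw [← hy1, ← hz1] at hE5 hE6
  rw [← hz0] at hE6
  let ψ : Fin 7 → k := ![0, 0, 0, w0 * w1' - w1 * w0', 0, -w1', w0']
  let f : Fin 3 → Fin 7 → k :=
    ![![0, 0, 0, x1, 0, x1 * w0 + x2 * w0', x1 * w1 + x2 * w1'],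
      ![0, y0, 0, y1, 0, y1 * w0 + y2 * w0', y1 * w1 + y2 * w1'],
      ![0, z0, 0, z1, 0, z1 * w0, z1 * w1]]
  have h1 : ∀ i, ψ ᵥ* ((![J3211 k, B3211 1 al1 w0 w1 0 be1 ga 0 0 t0 t1 e0 e1 0 0 0 0,
      B3211 0 al1' w0' w1' 0 be1' ga' 0 0 t0' t1' e0' e1' 0 0 0 0] :
        Fin 3 → Matrix (Fin 7) (Fin 7) k) i) = 0 := by
    intro i
    funext j
    fin_cases i <;> fin_cases j <;>
      simp [ψ, Matrix.vecMul, dotProduct, Fin.sum_univ_succ, J3211, B3211] <;> ring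
  have h2 : ∀ i, ψ ⬝ᵥ f i = 0 := by
    intro i
    fin_cases i <;> simp [ψ, f, dotProduct, Fin.sum_univ_succ] <;> ring
  have h3 : ∀ i j, ((![J3211 k, B3211 1 al1 w0 w1 0 be1 ga 0 0 t0 t1 e0 e1 0 0 0 0,
      B3211 0 al1' w0' w1' 0 be1' ga' 0 0 t0' t1' e0' e1' 0 0 0 0] :
        Fin 3 → Matrix (Fin 7) (Fin 7) k) i) *ᵥ f j =
      ((![J3211 k, B3211 1 al1 w0 w1 0 be1 ga 0 0 t0 t1 e0 e1 0 0 0 0,
      B3211 0 al1' w0' w1' 0 be1' ga' 0 0 t0' t1' e0' e1' 0 0 0 0] :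
        Fin 3 → Matrix (Fin 7) (Fin 7) k) j) *ᵥ f i := by
    have a01 : J3211 k *ᵥ f 1 = B3211 1 al1 w0 w1 0 be1 ga 0 0 t0 t1 e0 e1 0 0 0 0 *ᵥ f 0 := by
      funext l
      fin_cases l <;> simp [f, Matrix.mulVec, dotProduct, Fin.sum_univ_succ, J3211, B3211]
      · rw [hy0]; ring
      · rw [hy1]; ring
    have a02 : J3211 k *ᵥ f 2 =
        B3211 0 al1' w0' w1' 0 be1' ga' 0 0 t0' t1' e0' e1' 0 0 0 0 *ᵥ f 0 := by
      funext l
      fin_cases l <;> simp [f, Matrix.mulVec, dotProduct, Fin.sum_univ_succ, J3211, B3211]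
      · rw [hz0]; ring
      · rw [hz1]; ring
    have a12 : B3211 1 al1 w0 w1 0 be1 ga 0 0 t0 t1 e0 e1 0 0 0 0 *ᵥ f 2 =
        B3211 0 al1' w0' w1' 0 be1' ga' 0 0 t0' t1' e0' e1' 0 0 0 0 *ᵥ f 1 := by
      funext l
      fin_cases l <;> simp [f, Matrix.mulVec, dotProduct, Fin.sum_univ_succ, B3211]
      · linear_combination hE5
      · linear_combination hE6
    intro i j
    fin_cases i <;> fin_cases j <;> simp [a01, a02, a12]
  have hcn := cn_rankone hT.cn ψ f h1 h2 h3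
  have hψ : ψ 5 ≠ 0 ∨ ψ 6 ≠ 0 := by
    simp only [ψ]
    rcases hw with h | h
    · right; simpa using h
    · left; simpa using h
  obtain ⟨j, hj, hj'⟩ : ∃ j : Fin 7, (j = 5 ∨ j = 6) ∧ ψ j ≠ 0 := by
    rcases hψ with h | h
    · exact ⟨5, Or.inl rfl, h⟩
    · exact ⟨6, Or.inr rfl, h⟩
  have hent : ∀ (s : k) (l : Fin 3) (a b : Fin 7),
      ((![J3211 k, B3211 1 al1 w0 w1 0 be1 ga 0 0 t0 t1 e0 e1 0 0 0 0,
      B3211 0 al1' w0' w1' 0 be1' ga' 0 0 t0' t1' e0' e1' 0 0 0 0] +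
        s • fun i => vecMulVec (f i) ψ) l) a b =
      (![J3211 k, B3211 1 al1 w0 w1 0 be1 ga 0 0 t0 t1 e0 e1 0 0 0 0,
      B3211 0 al1' w0' w1' 0 be1' ga' 0 0 t0' t1' e0' e1' 0 0 0 0] :
        Fin 3 → Matrix (Fin 7) (Fin 7) k) l a b + s * (f l a * ψ b) := fun _ _ _ _ => rfl
  by_cases hf : f 0 = 0
  · have hx1 : x1 = 0 := by simpa [f] using congrFun hf 3
    subst hx1
    have hx2 : x2 = 0 := by
      have h5 := congrFun hf 5
      have h6 := congrFun hf 6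
      simp [f] at h5 h6
      rcases hw with h | h
      · exact h5.resolve_right h
      · exact h6.resolve_right h
    subst hx2
    have hy2 : y2 ≠ 0 := by simpa using hne
    have hy0' : y0 = 0 := by rw [hy0]; ring
    have hy1' : y1 = 0 := by rw [hy1]; ring
    subst hy0' hy1'
    obtain ⟨i, hi, hi'⟩ : ∃ i : Fin 7, (i = 5 ∨ i = 6) ∧ f 1 i ≠ 0 := by
      rcases hw with h | h
      · refine ⟨5, Or.inl rfl, ?_⟩
        simp [f, h, hy2]
      · refine ⟨6, Or.inr rfl, ?_⟩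
        simp [f, h, hy2]
    refine hT.raise (fun s => ![J3211 k, B3211 1 al1 w0 w1 0 be1 ga 0 0 t0 t1 e0 e1 0 0 0 0,
      B3211 0 al1' w0' w1' 0 be1' ga' 0 0 t0' t1' e0' e1' 0 0 0 0] +
        s • fun i => vecMulVec (f i) ψ) (PolyFam.line _ _) (by simp) Set.finite_empty
        (fun s _ => hcn s) 1 (fun s => (![J3211 k, B3211 1 al1 w0 w1 0 be1 ga 0 0 t0 t1 e0 e1 0 0 0 0,
      B3211 0 al1' w0' w1' 0 be1' ga' 0 0 t0' t1' e0' e1' 0 0 0 0] +
        s • fun i => vecMulVec (f i) ψ) 0 + s • (![J3211 k, B3211 1 al1 w0 w1 0 be1 ga 0 0 t0 t1 e0 e1 0 0 0 0,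
      B3211 0 al1' w0' w1' 0 be1' ga' 0 0 t0' t1' e0' e1' 0 0 0 0] +
        s • fun i => vecMulVec (f i) ψ) 1) (fun s => (adj _).add_mem (mem_adj _ 0)
          (SMulMemClass.smul_mem s (mem_adj _ 1))) ?_
    obtain ⟨ej, hej⟩ : ∃ ej, ej = B3211 1 al1 w0 w1 0 be1 ga 0 0 t0 t1 e0 e1 0 0 0 0 4 j :=
      ⟨_, rfl⟩
    obtain ⟨tj, htj⟩ : ∃ tj, tj = B3211 1 al1 w0 w1 0 be1 ga 0 0 t0 t1 e0 e1 0 0 0 0 2 j :=
      ⟨_, rfl⟩
    have hfin : {s : k | (1 + s * ga - s * s * be1) * ψ j - (s * ej - s * s * tj) * ψ 3 = 0}.Finite := by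
      refine IsPoly.finite (f := fun s => (1 + s * ga - s * s * be1) * ψ j -
        (s * ej - s * s * tj) * ψ 3) (s₁ := 0) ?_ ?_
      · exact ((((IsPoly.const _).add (IsPoly.id.mul (IsPoly.const _))).sub
          ((IsPoly.id.mul IsPoly.id).mul (IsPoly.const _))).mul (IsPoly.const _)).sub
          (((IsPoly.id.mul (IsPoly.const _)).sub ((IsPoly.id.mul IsPoly.id).mul
            (IsPoly.const _))).mul (IsPoly.const _))
      · simpa using hj'
    refine Set.Infinite.mono ?_ ((Set.finite_singleton (0 : k)).union hfin).infinite_compl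
    intro s hs
    have hs0 : s ≠ 0 := by
      intro h
      exact hs (Or.inl h)
    have hs1 : (1 + s * ga - s * s * be1) * ψ j - (s * ej - s * s * tj) * ψ 3 ≠ 0 := by
      intro h
      exact hs (Or.inr h)
    rw [Set.mem_ofPred_eq, pow_one]
    refine lt_of_le_of_lt hρ ?_
    refine Nat.lt_of_succ_le (rank4 i j ?_ ?_ ?_ ?_ ?_ ?_ ?_)
    · simp only [Matrix.add_apply, Matrix.smul_apply, hent]
      simp [J3211, B3211, f]
    · simp only [Matrix.add_apply, Matrix.smul_apply, hent]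
      simp [J3211, B3211, f]
    · simp only [Matrix.add_apply, Matrix.smul_apply, hent]
      rcases hj with rfl | rfl <;> simp [J3211, B3211, f]
    · simp only [Matrix.add_apply, Matrix.smul_apply, hent]
      simp [J3211, B3211, f]
    · simp only [Matrix.add_apply, Matrix.smul_apply, hent]
      simp [J3211, B3211, f]
    · simp only [Matrix.add_apply, Matrix.smul_apply, hent]
      rcases hi with rfl | rfl <;> simp [J3211, B3211, ψ]
    · have h4 : s * s * (f 1 i * ((1 + s * ga - s * s * be1) * ψ j -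
          (s * ej - s * s * tj) * ψ 3)) ≠ 0 := mul_ne_zero (mul_ne_zero hs0 hs0)
            (mul_ne_zero hi' hs1)
      intro h5
      apply h4
      rw [← h5]
      simp only [Matrix.add_apply, Matrix.smul_apply, hent]
      rcases hi with rfl | rfl <;> rcases hj with rfl | rfl <;>
        simp [J3211, B3211, f, ψ, hej, htj] <;> ring
  · obtain ⟨i, hi⟩ : ∃ i, f 0 i ≠ 0 := by
      by_contra h
      push Not at h
      exact hf (funext h)
    have hi' : i = 3 ∨ i = 5 ∨ i = 6 := by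
      fin_cases i <;> simp [f] at hi ⊢
    refine hT.raise (fun s => ![J3211 k, B3211 1 al1 w0 w1 0 be1 ga 0 0 t0 t1 e0 e1 0 0 0 0,
      B3211 0 al1' w0' w1' 0 be1' ga' 0 0 t0' t1' e0' e1' 0 0 0 0] +
        s • fun i => vecMulVec (f i) ψ) (PolyFam.line _ _) (by simp) Set.finite_empty
        (fun s _ => hcn s) 1 (fun s => (![J3211 k, B3211 1 al1 w0 w1 0 be1 ga 0 0 t0 t1 e0 e1 0 0 0 0,
      B3211 0 al1' w0' w1' 0 be1' ga' 0 0 t0' t1' e0' e1' 0 0 0 0] +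
        s • fun i => vecMulVec (f i) ψ) 0) (fun s => mem_adj _ 0) ?_
    refine Set.Infinite.mono ?_ (Set.finite_singleton (0 : k)).infinite_compl
    intro s hs
    have hs : s ≠ 0 := by simpa using hs
    rw [Set.mem_ofPred_eq, pow_one]
    refine lt_of_le_of_lt hρ ?_
    refine Nat.lt_of_succ_le (rank4 i j ?_ ?_ ?_ ?_ ?_ ?_ ?_)
    · simp only [hent]
      simp [J3211, f]
    · simp only [hent]
      simp [J3211, f]
    · simp only [hent]
      rcases hj with rfl | rfl <;> simp [J3211, f]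
    · simp only [hent]
      simp [J3211, f]
    · simp only [hent]
      simp [J3211, f, ψ]
    · simp only [hent]
      rcases hi' with rfl | rfl | rfl <;> simp [J3211, ψ]
    · have h4 : s * (f 0 i * ψ j) ≠ 0 := mul_ne_zero hs (mul_ne_zero hi hj')
      intro h5
      apply h4
      simp only [hent] at h5
      rcases hi' with rfl | rfl | rfl <;> rcases hj with rfl | rfl <;>
        simpa [J3211, f, ψ] using h5

end T3211Aux
end Pool.Agent.Lib.D7
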