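import Pool.Agent.Lib.D7.T3211b

namespace Pool.Agent.Lib.D7

open Matrix Pool.Agent.Lib.Q5dc

namespace T3211Aux

variable {k : Type*} [Field k]

theorem comm_J (al al1 w0 w1 be be1 ga p0 p1 t0 t1 e0 e1 n00 n01 n10 n11 : k) :
    J3211 k * B3211 al al1 w0 w1 be be1 ga p0 p1 t0 t1 e0 e1 n00 n01 n10 n11 =
      B3211 al al1 w0 w1 be be1 ga p0 p1 t0 t1 e0 e1 n00 n01 n10 n11 * J3211 k := by
  ext i j
  fin_cases i <;> fin_cases j <;> simp [J3211, B3211, Matrix.mul_apply, Fin.sum_univ_succ]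

theorem B_lin (c d al al1 w0 w1 be be1 ga p0 p1 t0 t1 e0 e1 n00 n01 n10 n11
    al' al1' w0' w1' be' be1' ga' p0' p1' t0' t1' e0' e1' n00' n01' n10' n11' : k) :
    c • B3211 al al1 w0 w1 be be1 ga p0 p1 t0 t1 e0 e1 n00 n01 n10 n11 +
      d • B3211 al' al1' w0' w1' be' be1' ga' p0' p1' t0' t1' e0' e1' n00' n01' n10' n11' =
    B3211 (c * al + d * al') (c * al1 + d * al1') (c * w0 + d * w0') (c * w1 + d * w1')
      (c * be + d * be') (c * be1 + d * be1') (c * ga + d * ga') (c * p0 + d * p0')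
      (c * p1 + d * p1') (c * t0 + d * t0') (c * t1 + d * t1') (c * e0 + d * e0')
      (c * e1 + d * e1') (c * n00 + d * n00') (c * n01 + d * n01') (c * n10 + d * n10')
      (c * n11 + d * n11') := by
  ext i j
  fin_cases i <;> fin_cases j <;> simp [B3211]

theorem B_congr {al al1 w0 w1 be be1 ga p0 p1 t0 t1 e0 e1 n00 n01 n10 n11
    al' al1' w0' w1' be' be1' ga' p0' p1' t0' t1' e0' e1' n00' n01' n10' n11' : k}
    (h1 : al = al') (h2 : al1 = al1') (h3 : w0 = w0') (h4 : w1 = w1') (h5 : be = be')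
    (h6 : be1 = be1') (h7 : ga = ga') (h8 : p0 = p0') (h9 : p1 = p1') (h10 : t0 = t0')
    (h11 : t1 = t1') (h12 : e0 = e0') (h13 : e1 = e1') (h14 : n00 = n00') (h15 : n01 = n01')
    (h16 : n10 = n10') (h17 : n11 = n11') :
    B3211 al al1 w0 w1 be be1 ga p0 p1 t0 t1 e0 e1 n00 n01 n10 n11 =
      B3211 al' al1' w0' w1' be' be1' ga' p0' p1' t0' t1' e0' e1' n00' n01' n10' n11' := by
  subst h1 h2 h3 h4 h5 h6 h7 h8 h9 h10 h11 h12 h13 h14 h15 h16 h17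
  rfl

theorem nilp_BI (al al1 w0 w1 be1 ga t0 t1 e0 e1 : k) :
    IsNilpotent (B3211 al al1 w0 w1 0 be1 ga 0 0 t0 t1 e0 e1 0 0 0 0) := by
  refine isNilpotent_of_weight _ ![0, 0, 2, 1, 2, 1, 1] ?_
  intro i j h
  fin_cases i <;> fin_cases j <;> first | (simp at h; done) | simp [B3211]

theorem comm_BI {al al1 w0 w1 be1 ga t0 t1 e0 e1 al' al1' w0' w1' be1' ga' t0' t1' e0' e1' : k}
    (h1 : al' * be1 + w0' * t0 + w1' * t1 = al * be1' + w0 * t0' + w1 * t1')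
    (h2 : al' * ga + w0' * e0 + w1' * e1 = al * ga' + w0 * e0' + w1 * e1') :
    B3211 al al1 w0 w1 0 be1 ga 0 0 t0 t1 e0 e1 0 0 0 0 *
      B3211 al' al1' w0' w1' 0 be1' ga' 0 0 t0' t1' e0' e1' 0 0 0 0 =
    B3211 al' al1' w0' w1' 0 be1' ga' 0 0 t0' t1' e0' e1' 0 0 0 0 *
      B3211 al al1 w0 w1 0 be1 ga 0 0 t0 t1 e0 e1 0 0 0 0 := by
  ext i j
  fin_cases i <;> fin_cases j <;> simp [B3211, Matrix.mul_apply, Fin.sum_univ_succ]
  · linear_combination h1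
  · linear_combination h2

theorem comm_BI' {al al1 w0 w1 be1 ga t0 t1 e0 e1 al' al1' w0' w1' be1' ga' t0' t1' e0' e1' : k}
    (h : B3211 al al1 w0 w1 0 be1 ga 0 0 t0 t1 e0 e1 0 0 0 0 *
      B3211 al' al1' w0' w1' 0 be1' ga' 0 0 t0' t1' e0' e1' 0 0 0 0 =
    B3211 al' al1' w0' w1' 0 be1' ga' 0 0 t0' t1' e0' e1' 0 0 0 0 *
      B3211 al al1 w0 w1 0 be1 ga 0 0 t0 t1 e0 e1 0 0 0 0) :
    al' * be1 + w0' * t0 + w1' * t1 = al * be1' + w0 * t0' + w1 * t1' ∧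
    al' * ga + w0' * e0 + w1' * e1 = al * ga' + w0 * e0' + w1 * e1' := by
  have h20 := congrFun (congrFun h 2) 0
  have h40 := congrFun (congrFun h 4) 0
  simp [B3211, Matrix.mul_apply, Fin.sum_univ_succ] at h20 h40
  constructor
  · linear_combination h20
  · linear_combination h40

/-- change of the second and third matrix -/
theorem lin {ρ : ℕ → ℕ} {A B C B' C' : Matrix (Fin 7) (Fin 7) k} (hT : MaxR ρ ![A, B, C])
    (hB' : B' ∈ adj ![A, B, C]) (hC' : C' ∈ adj ![A, B, C]) (hB : B ∈ adj ![A, B', C'])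
    (hC : C ∈ adj ![A, B', C']) : MaxR ρ ![A, B', C'] := by
  refine hT.change (hT.cn.of_adj ?_) ?_
  · intro i
    fin_cases i
    · exact mem_adj ![A, B, C] 0
    · exact hB'
    · exact hC'
  · intro i
    fin_cases i
    · exact mem_adj ![A, B', C'] 0
    · exact hB
    · exact hC

theorem swap {ρ : ℕ → ℕ} {A B C : Matrix (Fin 7) (Fin 7) k} (hT : MaxR ρ ![A, B, C]) :
    MaxR ρ ![A, C, B] :=
  lin hT (mem_adj ![A, B, C] 2) (mem_adj ![A, B, C] 1) (mem_adj ![A, C, B] 2)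
    (mem_adj ![A, C, B] 1)

/-- case I, normalization -/
theorem caseI_c [CharZero k] {ρ : ℕ → ℕ} (hρ : ρ 1 ≤ 3)
    {al al1 w0 w1 be1 ga t0 t1 e0 e1 al' al1' w0' w1' be1' ga' t0' t1' e0' e1' : k}
    (hT : MaxR ρ ![J3211 k, B3211 al al1 w0 w1 0 be1 ga 0 0 t0 t1 e0 e1 0 0 0 0,
      B3211 al' al1' w0' w1' 0 be1' ga' 0 0 t0' t1' e0' e1' 0 0 0 0])
    (hal : al ≠ 0) (hw : w0' - al' / al * w0 ≠ 0 ∨ w1' - al' / al * w1 ≠ 0) : False := by
  obtain ⟨B, hB⟩ : ∃ B, B = B3211 al al1 w0 w1 0 be1 ga 0 0 t0 t1 e0 e1 0 0 0 0 := ⟨_, rfl⟩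
  obtain ⟨C, hC⟩ : ∃ C, C = B3211 al' al1' w0' w1' 0 be1' ga' 0 0 t0' t1' e0' e1' 0 0 0 0 :=
    ⟨_, rfl⟩
  rw [← hB, ← hC] at hT
  have h1 : MaxR ρ ![J3211 k, al⁻¹ • B + (0 : k) • B, (1 : k) • C + (-(al' / al)) • B] := by
    refine lin hT ?_ ?_ ?_ ?_
    · exact (adj _).add_mem (SMulMemClass.smul_mem _ (mem_adj ![J3211 k, B, C] 1))
        (SMulMemClass.smul_mem _ (mem_adj ![J3211 k, B, C] 1))
    · exact (adj _).add_mem (SMulMemClass.smul_mem _ (mem_adj ![J3211 k, B, C] 2))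
        (SMulMemClass.smul_mem _ (mem_adj ![J3211 k, B, C] 1))
    · have := SMulMemClass.smul_mem al (mem_adj ![J3211 k, al⁻¹ • B + (0 : k) • B,
        (1 : k) • C + (-(al' / al)) • B] 1)
      simpa [smul_smul, hal] using this
    · have h2 := SMulMemClass.smul_mem al' (mem_adj ![J3211 k, al⁻¹ • B + (0 : k) • B,
        (1 : k) • C + (-(al' / al)) • B] 1)
      have h3 := mem_adj ![J3211 k, al⁻¹ • B + (0 : k) • B,
        (1 : k) • C + (-(al' / al)) • B] 2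
      have h4 := (adj _).add_mem h3 h2
      simpa [smul_smul, div_eq_mul_inv] using h4
  rw [hB, hC, B_lin, B_lin] at h1
  refine caseI_fin (al1 := al⁻¹ * al1) (w0 := al⁻¹ * w0) (w1 := al⁻¹ * w1) (be1 := al⁻¹ * be1)
    (ga := al⁻¹ * ga) (t0 := al⁻¹ * t0) (t1 := al⁻¹ * t1) (e0 := al⁻¹ * e0) (e1 := al⁻¹ * e1)
    (al1' := al1' - al' / al * al1) (w0' := w0' - al' / al * w0) (w1' := w1' - al' / al * w1)
    (be1' := be1' - al' / al * be1) (ga' := ga' - al' / al * ga) (t0' := t0' - al' / al * t0)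
    (t1' := t1' - al' / al * t1) (e0' := e0' - al' / al * e0) (e1' := e1' - al' / al * e1) hρ
    ?_ hw
  convert h1 using 3
  · apply B_congr <;> simp [hal]
  · congr 1
    apply B_congr <;> simp [hal] <;> ring

end T3211Aux
end Pool.Agent.Lib.D7
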