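import Pool.Agent.Lib.D7.T3211c

namespace Pool.Agent.Lib.D7

open Matrix Pool.Agent.Lib.Q5dc

namespace T3211Aux

variable {k : Type*} [Field k]

theorem deform_line [Infinite k] {ρ : ℕ → ℕ} {T : Fin 3 → Matrix (Fin 7) (Fin 7) k}
    (hT : MaxR ρ T) (D : Fin 3 → Matrix (Fin 7) (Fin 7) k)
    (T' : k → Fin 3 → Matrix (Fin 7) (Fin 7) k) (key : ∀ s, T + s • D = T' s)
    (hcn : ∀ s, CN (T' s)) : ∃ E : Set k, E.Finite ∧ ∀ s ∉ E, MaxR ρ (T' s) := by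
  obtain ⟨E, hE, hE2⟩ := hT.deform (fun s => T + s • D) (PolyFam.line T D) (by simp)
    Set.finite_empty (fun s _ => by rw [key]; exact hcn s)
  refine ⟨E, hE, fun s hs => ?_⟩
  rw [← key]
  exact hE2 s hs

/-- case I, moving `a_B` -/
theorem caseI_move [Infinite k] {ρ : ℕ → ℕ}
    {al al1 w0 w1 be1 ga t0 t1 e0 e1 al' al1' w0' w1' be1' ga' t0' t1' e0' e1' : k}
    (hT : MaxR ρ ![J3211 k, B3211 al al1 w0 w1 0 be1 ga 0 0 t0 t1 e0 e1 0 0 0 0,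
      B3211 al' al1' w0' w1' 0 be1' ga' 0 0 t0' t1' e0' e1' 0 0 0 0])
    {f3 f5 f6 : k} (hf : f3 * al' + f5 * w0' + f6 * w1' = 1) (x x0 x1 : k) :
    ∃ E : Set k, E.Finite ∧ ∀ s ∉ E, ∃ be1s gas t0s t1s e0s e1s : k,
      MaxR ρ ![J3211 k, B3211 (al + s * x) al1 (w0 + s * x0) (w1 + s * x1) 0 be1s gas 0 0
        t0s t1s e0s e1s 0 0 0 0,
      B3211 al' al1' w0' w1' 0 be1' ga' 0 0 t0' t1' e0' e1' 0 0 0 0] := by
  obtain ⟨h1, h2⟩ := comm_BI' (hT.cn.1 1 2)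
  obtain ⟨gv, hgv⟩ : ∃ gv, gv = x * be1' + x0 * t0' + x1 * t1' := ⟨_, rfl⟩
  obtain ⟨gu, hgu⟩ : ∃ gu, gu = x * ga' + x0 * e0' + x1 * e1' := ⟨_, rfl⟩
  have key : ∀ s : k, (![J3211 k, B3211 al al1 w0 w1 0 be1 ga 0 0 t0 t1 e0 e1 0 0 0 0,
      B3211 al' al1' w0' w1' 0 be1' ga' 0 0 t0' t1' e0' e1' 0 0 0 0] :
        Fin 3 → Matrix (Fin 7) (Fin 7) k) +
      s • ![0, B3211 x 0 x0 x1 0 (f3 * gv) (f3 * gu) 0 0 (f5 * gv) (f6 * gv) (f5 * gu) (f6 * gu)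
        0 0 0 0, 0] =
      ![J3211 k, B3211 (al + s * x) al1 (w0 + s * x0) (w1 + s * x1) 0 (be1 + s * (f3 * gv))
        (ga + s * (f3 * gu)) 0 0 (t0 + s * (f5 * gv)) (t1 + s * (f6 * gv)) (e0 + s * (f5 * gu))
        (e1 + s * (f6 * gu)) 0 0 0 0,
        B3211 al' al1' w0' w1' 0 be1' ga' 0 0 t0' t1' e0' e1' 0 0 0 0] := by
    intro s
    funext i
    fin_cases i
    · simp
    · have h := B_lin 1 s al al1 w0 w1 0 be1 ga 0 0 t0 t1 e0 e1 0 0 0 0 x 0 x0 x1 0 (f3 * gv)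
        (f3 * gu) 0 0 (f5 * gv) (f6 * gv) (f5 * gu) (f6 * gu) 0 0 0 0
      simpa using h
    · simp
  obtain ⟨E, hE, hE2⟩ := deform_line hT _ _ key (by
      intro s
      refine cn3 (comm_J _ _ _ _ _ _ _ _ _ _ _ _ _ _ _ _ _) (comm_J _ _ _ _ _ _ _ _ _ _ _ _ _ _ _ _ _)
        (comm_BI ?_ ?_) (hT.cn.2 0) (nilp_BI _ _ _ _ _ _ _ _ _ _) (hT.cn.2 2)
      · rw [hgv]
        linear_combination h1 + s * (x * be1' + x0 * t0' + x1 * t1') * hf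
      · rw [hgu]
        linear_combination h2 + s * (x * ga' + x0 * e0' + x1 * e1') * hf)
  exact ⟨E, hE, fun s hs => ⟨_, _, _, _, _, _, hE2 s hs⟩⟩

/-- a finite set and one more condition can be avoided -/
theorem exists_notMem [Infinite k] {E : Set k} (hE : E.Finite) (c : k) :
    ∃ s, s ∉ E ∧ c + s ≠ 0 := by
  obtain ⟨s, hs⟩ := (hE.union (Set.finite_singleton (-c))).infinite_compl.nonempty
  refine ⟨s, fun h => hs (Or.inl h), fun h => hs (Or.inr ?_)⟩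
  rw [Set.mem_singleton_iff]
  linear_combination h

theorem caseI_b [CharZero k] {ρ : ℕ → ℕ} (hρ : ρ 1 ≤ 3)
    {al al1 w0 w1 be1 ga t0 t1 e0 e1 al' al1' w0' w1' be1' ga' t0' t1' e0' e1' : k}
    (hT : MaxR ρ ![J3211 k, B3211 al al1 w0 w1 0 be1 ga 0 0 t0 t1 e0 e1 0 0 0 0,
      B3211 al' al1' w0' w1' 0 be1' ga' 0 0 t0' t1' e0' e1' 0 0 0 0])
    (hw : al' ≠ 0 ∨ w0' ≠ 0 ∨ w1' ≠ 0) : False := by
  have : Infinite k := CharZero.infinite k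
  by_cases hal : al' = 0
  · subst hal
    obtain ⟨f5, f6, hf⟩ : ∃ f5 f6 : k, (0 : k) * 0 + f5 * w0' + f6 * w1' = 1 := by
      rcases hw with h | h | h
      · exact absurd rfl h
      · exact ⟨w0'⁻¹, 0, by simp [h]⟩
      · exact ⟨0, w1'⁻¹, by simp [h]⟩
    obtain ⟨E, hE, h⟩ := caseI_move hT hf 1 0 0
    obtain ⟨s, hs, hs1⟩ := exists_notMem hE al
    obtain ⟨be1s, gas, t0s, t1s, e0s, e1s, h2⟩ := h s hs
    refine caseI_c hρ h2 (by simpa using hs1) ?_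
    rcases hw with h | h | h
    · exact absurd rfl h
    · left; simpa using h
    · right; simpa using h
  · obtain ⟨E, hE, h⟩ := caseI_move hT (f3 := al'⁻¹) (f5 := 0) (f6 := 0) (by simp [hal]) 0 1 0
    obtain ⟨s, hs, hs1⟩ := exists_notMem hE (w0 - al / al' * w0')
    obtain ⟨be1s, gas, t0s, t1s, e0s, e1s, h2⟩ := h s hs
    refine caseI_c hρ (swap h2) hal (Or.inl ?_)
    intro h3
    apply hs1
    rw [← h3]
    ring

theorem caseI [CharZero k] {ρ : ℕ → ℕ} (hρ : ρ 1 ≤ 3)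
    {al al1 w0 w1 be1 ga t0 t1 e0 e1 al' al1' w0' w1' be1' ga' t0' t1' e0' e1' : k}
    (hT : MaxR ρ ![J3211 k, B3211 al al1 w0 w1 0 be1 ga 0 0 t0 t1 e0 e1 0 0 0 0,
      B3211 al' al1' w0' w1' 0 be1' ga' 0 0 t0' t1' e0' e1' 0 0 0 0]) : False := by
  have : Infinite k := CharZero.infinite k
  by_cases hC : al' ≠ 0 ∨ w0' ≠ 0 ∨ w1' ≠ 0
  · exact caseI_b hρ hT hC
  by_cases hB : al ≠ 0 ∨ w0 ≠ 0 ∨ w1 ≠ 0
  · exact caseI_b hρ (swap hT) hB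
  push Not at hB hC
  obtain ⟨rfl, rfl, rfl⟩ := hB
  obtain ⟨rfl, rfl, rfl⟩ := hC
  obtain ⟨x, y, z, hxyz, h1, h2⟩ := ker23 be1 t0 t1 ga e0 e1
  have key : ∀ s : k, (![J3211 k, B3211 0 al1 0 0 0 be1 ga 0 0 t0 t1 e0 e1 0 0 0 0,
      B3211 0 al1' 0 0 0 be1' ga' 0 0 t0' t1' e0' e1' 0 0 0 0] :
        Fin 3 → Matrix (Fin 7) (Fin 7) k) +
      s • ![0, 0, B3211 x 0 y z 0 0 0 0 0 0 0 0 0 0 0 0 0] =
      ![J3211 k, B3211 0 al1 0 0 0 be1 ga 0 0 t0 t1 e0 e1 0 0 0 0,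
        B3211 (s * x) al1' (s * y) (s * z) 0 be1' ga' 0 0 t0' t1' e0' e1' 0 0 0 0] := by
    intro s
    funext i
    fin_cases i
    · simp
    · simp
    · have h := B_lin 1 s 0 al1' 0 0 0 be1' ga' 0 0 t0' t1' e0' e1' 0 0 0 0 x 0 y z 0 0 0 0 0 0
        0 0 0 0 0 0 0
      simpa using h
  obtain ⟨E, hE, hE2⟩ := deform_line hT _ _ key (by
      intro s
      refine cn3 (comm_J _ _ _ _ _ _ _ _ _ _ _ _ _ _ _ _ _)
        (comm_J _ _ _ _ _ _ _ _ _ _ _ _ _ _ _ _ _)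
        (comm_BI ?_ ?_) (hT.cn.2 0) (hT.cn.2 1) (nilp_BI _ _ _ _ _ _ _ _ _ _)
      · linear_combination s * h1
      · linear_combination s * h2)
  obtain ⟨s, hs, hs1⟩ := exists_notMem hE 0
  have h3 := hE2 s hs
  rw [zero_add] at hs1
  refine caseI_b hρ h3 ?_
  rcases hxyz with h | h | h
  · exact Or.inl (mul_ne_zero hs1 h)
  · exact Or.inr (Or.inl (mul_ne_zero hs1 h))
  · exact Or.inr (Or.inr (mul_ne_zero hs1 h))

end T3211Aux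
end Pool.Agent.Lib.D7
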