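import Pool.Agent.Lib.D7.T3211d

namespace Pool.Agent.Lib.D7

open Matrix Pool.Agent.Lib.Q5dc

namespace T3211Aux

variable {k : Type*} [Field k]

theorem raise_line [Infinite k] {ρ : ℕ → ℕ} {T : Fin 3 → Matrix (Fin 7) (Fin 7) k}
    (hT : MaxR ρ T) (D : Fin 3 → Matrix (Fin 7) (Fin 7) k)
    (T' : k → Fin 3 → Matrix (Fin 7) (Fin 7) k) (key : ∀ s, T + s • D = T' s)
    (hcn : ∀ s, CN (T' s)) (i : ℕ) (M : k → Matrix (Fin 7) (Fin 7) k)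
    (hM : ∀ s, M s ∈ adj (T' s)) (hx : {s | ρ i < (M s ^ i).rank}.Infinite) : False :=
  hT.raise (fun s => T + s • D) (PolyFam.line T D) (by simp) Set.finite_empty
    (fun s _ => by rw [key]; exact hcn s) i M (fun s => by rw [key]; exact hM s) hx

/-- case III, raising -/
theorem caseIII_fin [CharZero k] {ρ : ℕ → ℕ} (hρ : ρ 3 = 0)
    {al1 w0 w1 be1 ga p0 p1 w0' w1' : k}
    (hT : MaxR ρ ![J3211 k, B3211 1 al1 w0 w1 0 be1 ga p0 p1 0 0 0 0 0 0 0 0,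
      B3211 0 0 w0' w1' 0 0 0 0 0 0 0 0 0 0 0 0 0])
    (hw : w0' ≠ 0 ∨ w1' ≠ 0) : False := by
  have : Infinite k := CharZero.infinite k
  obtain ⟨A, hA⟩ : ∃ A : k → Matrix (Fin 7) (Fin 7) k, A = fun s =>
      !![0, 0, 0, 0, 0, 0, 0; 1, 0, 0, 0, 0, 0, 0; 0, 1, 0, 0, 0, 0, 0; 0, 0, 0, 0, 0, 0, 0;
        0, 0, 0, 1, 0, 0, 0; 0, 0, s * w0', 0, 0, 0, 0; 0, 0, s * w1', 0, 0, 0, 0] := ⟨_, rfl⟩
  obtain ⟨B, hB⟩ : ∃ B : k → Matrix (Fin 7) (Fin 7) k, B = fun s =>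
      !![0, 0, 0, 0, 0, 0, 0; 0, 0, 0, 0, 0, 0, 0; 0, 0, 0, be1, 0, 0, 0; 1, 0, 0, 0, 0, 0, 0;
        al1, 1, 0, ga, 0, 0, 0; w0, 0, 0, p0, s * (be1 * w0'), 0, 0;
        w1, 0, 0, p1, s * (be1 * w1'), 0, 0] := ⟨_, rfl⟩
  obtain ⟨C, hC⟩ : ∃ C : Matrix (Fin 7) (Fin 7) k, C =
      !![0, 0, 0, 0, 0, 0, 0; 0, 0, 0, 0, 0, 0, 0; 0, 0, 0, 0, 0, 0, 0; 0, 0, 0, 0, 0, 0, 0;
        0, 0, 0, 0, 0, 0, 0; w0', 0, 0, 0, 0, 0, 0; w1', 0, 0, 0, 0, 0, 0] := ⟨_, rfl⟩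
  refine raise_line hT ![
    !![0, 0, 0, 0, 0, 0, 0; 0, 0, 0, 0, 0, 0, 0; 0, 0, 0, 0, 0, 0, 0; 0, 0, 0, 0, 0, 0, 0;
      0, 0, 0, 0, 0, 0, 0; 0, 0, w0', 0, 0, 0, 0; 0, 0, w1', 0, 0, 0, 0],
    !![0, 0, 0, 0, 0, 0, 0; 0, 0, 0, 0, 0, 0, 0; 0, 0, 0, 0, 0, 0, 0; 0, 0, 0, 0, 0, 0, 0;
      0, 0, 0, 0, 0, 0, 0; 0, 0, 0, 0, be1 * w0', 0, 0; 0, 0, 0, 0, be1 * w1', 0, 0], 0]
    (fun s => ![A s, B s, C]) ?_ ?_ 3 A (fun s => mem_adj ![A s, B s, C] 0) ?_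
  · intro s
    funext l
    ext i j
    fin_cases l <;> fin_cases i <;> fin_cases j <;> simp [J3211, B3211, hA, hB, hC]
  · intro s
    rw [hA, hB, hC]
    refine cn3 ?_ ?_ ?_ ?_ ?_ ?_
    · ext i j
      fin_cases i <;> fin_cases j <;> simp [Matrix.mul_apply, Fin.sum_univ_succ] <;> ring
    · ext i j
      fin_cases i <;> fin_cases j <;> simp [Matrix.mul_apply, Fin.sum_univ_succ]
    · ext i j
      fin_cases i <;> fin_cases j <;> simp [Matrix.mul_apply, Fin.sum_univ_succ]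
    · refine isNilpotent_of_weight _ ![0, 1, 2, 0, 1, 3, 3] ?_
      intro i j h
      fin_cases i <;> fin_cases j <;> first | (simp at h; done) | simp
    · refine isNilpotent_of_weight _ ![0, 0, 2, 1, 2, 3, 3] ?_
      intro i j h
      fin_cases i <;> fin_cases j <;> first | (simp at h; done) | simp
    · refine isNilpotent_of_weight _ ![0, 0, 0, 0, 0, 1, 1] ?_
      intro i j h
      fin_cases i <;> fin_cases j <;> first | (simp at h; done) | simp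
  · refine Set.Infinite.mono ?_ (Set.finite_singleton (0 : k)).infinite_compl
    intro s hs
    have hs : s ≠ 0 := by simpa using hs
    rw [Set.mem_ofPred_eq, hρ]
    obtain ⟨i, hi⟩ : ∃ i : Fin 7, (A s ^ 3) i 0 ≠ 0 := by
      rcases hw with h | h
      · refine ⟨5, ?_⟩
        rw [pow_succ, pow_two, hA]
        simp [Matrix.mul_apply, Fin.sum_univ_succ, h, hs]
      · refine ⟨6, ?_⟩
        rw [pow_succ, pow_two, hA]
        simp [Matrix.mul_apply, Fin.sum_univ_succ, h, hs]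
    have h1 : 1 ≤ (A s ^ 3).rank := by
      refine le_rank_of_minor (r := 1) _ ![i] ![0] ?_
      rw [Matrix.det_fin_one]
      simpa using hi
    exact h1

theorem caseIII_def [CharZero k] {ρ : ℕ → ℕ} (hρ : ρ 3 = 0)
    {al1 w0 w1 be1 ga p0 p1 w0' w1' : k}
    (hT : MaxR ρ ![J3211 k, B3211 1 al1 w0 w1 0 be1 ga p0 p1 0 0 0 0 0 0 0 0,
      B3211 0 0 w0' w1' 0 0 0 0 0 0 0 0 0 0 0 0 0]) : False := by
  have : Infinite k := CharZero.infinite k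
  have key : ∀ s : k, (![J3211 k, B3211 1 al1 w0 w1 0 be1 ga p0 p1 0 0 0 0 0 0 0 0,
      B3211 0 0 w0' w1' 0 0 0 0 0 0 0 0 0 0 0 0 0] : Fin 3 → Matrix (Fin 7) (Fin 7) k) +
      s • ![0, 0, B3211 0 0 1 0 0 0 0 0 0 0 0 0 0 0 0 0 0] =
      ![J3211 k, B3211 1 al1 w0 w1 0 be1 ga p0 p1 0 0 0 0 0 0 0 0,
      B3211 0 0 (w0' + s) w1' 0 0 0 0 0 0 0 0 0 0 0 0 0] := by
    intro s
    funext i
    fin_cases i
    · simp
    · simp
    · have h := B_lin 1 s 0 0 w0' w1' 0 0 0 0 0 0 0 0 0 0 0 0 0 0 0 1 0 0 0 0 0 0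
        0 0 0 0 0 0 0 0
      simpa using h
  obtain ⟨E, hE, hE2⟩ := deform_line hT _ _ key (by
      intro s
      refine cn3 (comm_J _ _ _ _ _ _ _ _ _ _ _ _ _ _ _ _ _)
        (comm_J _ _ _ _ _ _ _ _ _ _ _ _ _ _ _ _ _) ?_ (hT.cn.2 0) (hT.cn.2 1)
        (nilp_BI _ _ _ _ _ _ _ _ _ _)
      ext i j
      fin_cases i <;> fin_cases j <;> simp [B3211, Matrix.mul_apply, Fin.sum_univ_succ])
  obtain ⟨s, hs, hs1⟩ := exists_notMem hE w0'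
  exact caseIII_fin hρ (hE2 s hs) (Or.inl hs1)

theorem caseIII_mid [CharZero k] {ρ : ℕ → ℕ} (hρ : ρ 3 = 0)
    {al1 w0 w1 be1 ga p0 p1 al1' w0' w1' be1' ga' p0' p1' : k}
    (hT : MaxR ρ ![J3211 k, B3211 1 al1 w0 w1 0 be1 ga p0 p1 0 0 0 0 0 0 0 0,
      B3211 0 al1' w0' w1' 0 be1' ga' p0' p1' 0 0 0 0 0 0 0 0]) : False := by
  obtain ⟨h1, h2, h3, h4⟩ : be1' = 0 ∧ ga' = 0 ∧ p0' = 0 ∧ p1' = 0 := by
    have h := hT.cn.1 1 2
    have h20 := congrFun (congrFun h 2) 0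
    have h40 := congrFun (congrFun h 4) 0
    have h50 := congrFun (congrFun h 5) 0
    have h60 := congrFun (congrFun h 6) 0
    simp [B3211, Matrix.mul_apply, Fin.sum_univ_succ] at h20 h40 h50 h60
    exact ⟨h20.symm, h40.symm, h50.symm, h60.symm⟩
  subst h1 h2 h3 h4
  obtain ⟨B, hB⟩ : ∃ B, B = B3211 1 al1 w0 w1 0 be1 ga p0 p1 0 0 0 0 0 0 0 0 := ⟨_, rfl⟩
  have h5 : J3211 k * B = B3211 0 1 0 0 0 0 0 0 0 0 0 0 0 0 0 0 0 := by
    rw [hB]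
    ext i j
    fin_cases i <;> fin_cases j <;> simp [J3211, B3211, Matrix.mul_apply, Fin.sum_univ_succ]
  refine caseIII_def (al1 := al1) (w0 := w0) (w1 := w1) (be1 := be1) (ga := ga) (p0 := p0)
    (p1 := p1) (w0' := w0') (w1' := w1') hρ ?_
  rw [← hB] at hT ⊢
  have h6 : B3211 0 al1' w0' w1' 0 0 0 0 0 0 0 0 0 0 0 0 0 =
      B3211 0 0 w0' w1' 0 0 0 0 0 0 0 0 0 0 0 0 0 + al1' • (J3211 k * B) := by
    rw [h5]
    have h := B_lin 1 al1' 0 0 w0' w1' 0 0 0 0 0 0 0 0 0 0 0 0 0 0 1 0 0 0 0 0 0 0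
        0 0 0 0 0 0 0 0
    simpa using h.symm
  rw [h6] at hT
  obtain ⟨C, hC⟩ : ∃ C, C = B3211 0 0 w0' w1' 0 0 0 0 0 0 0 0 0 0 0 0 0 := ⟨_, rfl⟩
  rw [← hC] at hT ⊢
  refine lin hT (mem_adj ![J3211 k, B, _] 1) ?_ (mem_adj ![J3211 k, B, C] 1) ?_
  · have h7 := mem_adj ![J3211 k, B, C + al1' • (J3211 k * B)] 0
    have h8 := mem_adj ![J3211 k, B, C + al1' • (J3211 k * B)] 1
    have h9 := mem_adj ![J3211 k, B, C + al1' • (J3211 k * B)] 2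
    have h10 := (adj _).add_mem h9 (SMulMemClass.smul_mem (-al1') ((adj _).mul_mem h7 h8))
    simpa using h10
  · have h7 := mem_adj ![J3211 k, B, C] 0
    have h8 := mem_adj ![J3211 k, B, C] 1
    have h9 := mem_adj ![J3211 k, B, C] 2
    have h10 := (adj _).add_mem h9 (SMulMemClass.smul_mem al1' ((adj _).mul_mem h7 h8))
    simpa using h10

theorem caseIII [CharZero k] {ρ : ℕ → ℕ} (hρ : ρ 3 = 0)
    {al al1 w0 w1 be1 ga p0 p1 al' al1' w0' w1' be1' ga' p0' p1' : k}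
    (hT : MaxR ρ ![J3211 k, B3211 al al1 w0 w1 0 be1 ga p0 p1 0 0 0 0 0 0 0 0,
      B3211 al' al1' w0' w1' 0 be1' ga' p0' p1' 0 0 0 0 0 0 0 0])
    (hal : al ≠ 0) : False := by
  obtain ⟨B, hB⟩ : ∃ B, B = B3211 al al1 w0 w1 0 be1 ga p0 p1 0 0 0 0 0 0 0 0 := ⟨_, rfl⟩
  obtain ⟨C, hC⟩ : ∃ C, C = B3211 al' al1' w0' w1' 0 be1' ga' p0' p1' 0 0 0 0 0 0 0 0 :=
    ⟨_, rfl⟩
  rw [← hB, ← hC] at hT
  have h1 : MaxR ρ ![J3211 k, al⁻¹ • B + (0 : k) • B, (1 : k) • C + (-(al' / al)) • B] := by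
    refine lin hT ?_ ?_ ?_ ?_
    · exact (adj _).add_mem (SMulMemClass.smul_mem _ (mem_adj ![J3211 k, B, C] 1))
        (SMulMemClass.smul_mem _ (mem_adj ![J3211 k, B, C] 1))
    · exact (adj _).add_mem (SMulMemClass.smul_mem _ (mem_adj ![J3211 k, B, C] 2))
        (SMulMemClass.smul_mem _ (mem_adj ![J3211 k, B, C] 1))
    · have := SMulMemClass.smul_mem al (mem_adj ![J3211 k, al⁻¹ • B + (0 : k) • B,
        (1 : k) • C + (-(al' / al)) • B] 1)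
      simpa [smul_smul, hal] using this
    · have h2 := SMulMemClass.smul_mem al' (mem_adj ![J3211 k, al⁻¹ • B + (0 : k) • B,
        (1 : k) • C + (-(al' / al)) • B] 1)
      have h3 := mem_adj ![J3211 k, al⁻¹ • B + (0 : k) • B,
        (1 : k) • C + (-(al' / al)) • B] 2
      have h4 := (adj _).add_mem h3 h2
      simpa [smul_smul, div_eq_mul_inv] using h4
  rw [hB, hC, B_lin, B_lin] at h1
  refine caseIII_mid (al1 := al⁻¹ * al1) (w0 := al⁻¹ * w0) (w1 := al⁻¹ * w1) (be1 := al⁻¹ * be1)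
    (ga := al⁻¹ * ga) (p0 := al⁻¹ * p0) (p1 := al⁻¹ * p1)
    (al1' := al1' - al' / al * al1) (w0' := w0' - al' / al * w0) (w1' := w1' - al' / al * w1)
    (be1' := be1' - al' / al * be1) (ga' := ga' - al' / al * ga) (p0' := p0' - al' / al * p0)
    (p1' := p1' - al' / al * p1) hρ ?_
  convert h1 using 3
  · apply B_congr <;> simp [hal]
  · congr 1
    apply B_congr <;> simp [hal] <;> ring

end T3211Aux
end Pool.Agent.Lib.D7
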