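import Pool.Agent.Lib.D7.Api

/-!
# MP_5dcbc3_ag: Jordan type `(3, 2, 2)`
-/

namespace Pool.Agent.Lib.D7

open Matrix Pool.Agent.Lib.Q5dc

variable {k : Type*} [Field k]

namespace T322Aux

theorem pow_mulVec {n : Type*} [Fintype n] [DecidableEq n] {M : Matrix n n k} {v : n → k} {c : k}
    (hv : M *ᵥ v = c • v) (i : ℕ) : (M ^ i) *ᵥ v = c ^ i • v := by
  induction i with
  | zero => simp
  | succ i ih =>
    rw [pow_succ, ← Matrix.mulVec_mulVec, hv, Matrix.mulVec_smul, ih, smul_smul, pow_succ,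
      mul_comm]

theorem eig_zero {n : Type*} [Fintype n] [DecidableEq n] {M : Matrix n n k} (hM : IsNilpotent M)
    {v : n → k} {c : k} (hv : M *ᵥ v = c • v) (hne : v ≠ 0) : c = 0 := by
  obtain ⟨i, hi⟩ := hM
  have h1 := pow_mulVec hv i
  rw [hi, Matrix.zero_mulVec] at h1
  rcases smul_eq_zero.1 h1.symm with h2 | h2
  · exact eq_zero_of_pow_eq_zero h2
  · exact absurd h2 hne

/-- `J322 ^ 2` -/
def K322 (k : Type*) [Field k] : Matrix (Fin 7) (Fin 7) k :=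
  !![0, 0, 0, 0, 0, 0, 0;
     0, 0, 0, 0, 0, 0, 0;
     1, 0, 0, 0, 0, 0, 0;
     0, 0, 0, 0, 0, 0, 0;
     0, 0, 0, 0, 0, 0, 0;
     0, 0, 0, 0, 0, 0, 0;
     0, 0, 0, 0, 0, 0, 0]

theorem K_eq : K322 k = J322 k * J322 k := by
  ext i j
  rw [Matrix.mul_apply]
  fin_cases i <;> fin_cases j <;> simp [J322, K322, Fin.sum_univ_succ]

theorem rank_J_sq : (J322 k ^ 2).rank ≤ 1 := by
  refine rank_le_of_factor _ (Matrix.of fun i _ => if i = 2 then 1 else 0)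
    (Matrix.of fun _ j => if j = 0 then 1 else 0) ?_
  rw [pow_two, ← K_eq]
  ext i j
  rw [Matrix.mul_apply]
  fin_cases i <;> fin_cases j <;> simp [K322]

/-- the nilpotent matrices commuting with `J322` -/
theorem shape {M : Matrix (Fin 7) (Fin 7) k} (hc : J322 k * M = M * J322 k) (hn : IsNilpotent M) :
    ∃ p1 p2 a0 a1 c0 c1 b0 b1 d0 d1 n00 n01 n10 n11 z00 z01 z10 z11 : k,
      M = p1 • J322 k + p2 • K322 k +
        B322 a0 a1 c0 c1 b0 b1 d0 d1 n00 n01 n10 n11 z00 z01 z10 z11 := by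
  have h := hc
  rw [← Matrix.ext_iff] at h
  simp only [Matrix.mul_apply, J322, Fin.sum_univ_succ, Fin.forall_fin_succ] at h
  simp at h
  obtain ⟨⟨x01, x02, x04, x06⟩, ⟨x00, x12, -, x14, -, x16, -⟩,
    ⟨x21, x22, y12, x24, y14, x26, y16⟩, ⟨x31, x32, x34, x36⟩, ⟨x41, x42, -, x44, -, x46, -⟩,
    ⟨x51, x52, x54, x56⟩, x61, x62, -, x64, -, x66, -⟩ := h
  have h22 : M 2 2 = 0 := by
    refine eig_zero hn (v := Pi.single 2 1) ?_ (by
      intro h
      have := congrFun h 2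
      simp at this)
    funext i
    rw [Matrix.mulVec_single_one, Matrix.col_apply]
    fin_cases i
    · simpa using x02.symm
    · simpa using y12
    · simp
    · simpa using x32.symm
    · simpa [← x42] using x31.symm
    · simpa using x52.symm
    · simpa [← x62] using x51.symm
  refine ⟨M 1 0, M 2 0, M 3 0, M 5 0, M 4 0, M 6 0, M 1 3, M 1 5, M 2 3, M 2 5, M 4 3 - M 1 0,
    M 4 5, M 6 3, M 6 5 - M 1 0, M 3 3, M 3 5, M 5 3, M 5 5, ?_⟩
  ext i j
  fin_cases i <;> fin_cases j <;> simp [J322, K322, B322] <;> grind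

/-! ### ranks -/

theorem minor_zero {n : Type*} [Fintype n] [DecidableEq n] {M : Matrix n n k} (h : M.rank ≤ 1)
    (i i' j j' : n) : M i j * M i' j' - M i j' * M i' j = 0 := by
  by_contra hne
  have := le_rank_of_minor M ![i, i'] ![j, j'] (by
    rw [Matrix.det_fin_two]
    simpa using hne)
  omega

theorem z_zero [CharZero k] {a0 a1 c0 c1 b0 b1 d0 d1 n00 n01 n10 n11 z00 z01 z10 z11 : k}
    (h : ∀ s : k, ((J322 k + s • B322 a0 a1 c0 c1 b0 b1 d0 d1 n00 n01 n10 n11 z00 z01 z10 z11)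
      ^ 2).rank ≤ 1) : z00 = 0 ∧ z01 = 0 ∧ z10 = 0 ∧ z11 = 0 := by
  refine ⟨?_, ?_, ?_, ?_⟩
  · have h1 := minor_zero (h 1) 2 4 0 3
    have h2 := minor_zero (h (-1)) 2 4 0 3
    have h3 := minor_zero (h 2) 2 4 0 3
    have h4 := minor_zero (h (-2)) 2 4 0 3
    simp [pow_two, Matrix.mul_apply, Fin.sum_univ_succ, J322, B322] at h1 h2 h3 h4
    linear_combination (8 * (h1 - h2) - (h3 - h4)) / 24
  · have h1 := minor_zero (h 1) 2 4 0 5
    have h2 := minor_zero (h (-1)) 2 4 0 5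
    have h3 := minor_zero (h 2) 2 4 0 5
    have h4 := minor_zero (h (-2)) 2 4 0 5
    simp [pow_two, Matrix.mul_apply, Fin.sum_univ_succ, J322, B322] at h1 h2 h3 h4
    linear_combination (8 * (h1 - h2) - (h3 - h4)) / 24
  · have h1 := minor_zero (h 1) 2 6 0 3
    have h2 := minor_zero (h (-1)) 2 6 0 3
    have h3 := minor_zero (h 2) 2 6 0 3
    have h4 := minor_zero (h (-2)) 2 6 0 3
    simp [pow_two, Matrix.mul_apply, Fin.sum_univ_succ, J322, B322] at h1 h2 h3 h4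
    linear_combination (8 * (h1 - h2) - (h3 - h4)) / 24
  · have h1 := minor_zero (h 1) 2 6 0 5
    have h2 := minor_zero (h (-1)) 2 6 0 5
    have h3 := minor_zero (h 2) 2 6 0 5
    have h4 := minor_zero (h (-2)) 2 6 0 5
    simp [pow_two, Matrix.mul_apply, Fin.sum_univ_succ, J322, B322] at h1 h2 h3 h4
    linear_combination (8 * (h1 - h2) - (h3 - h4)) / 24

theorem ab_zero [CharZero k] {a0 a1 c0 c1 b0 b1 d0 d1 n00 n01 n10 n11 : k}
    (h : ∀ s : k, ((J322 k + s • B322 a0 a1 c0 c1 b0 b1 d0 d1 n00 n01 n10 n11 0 0 0 0)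
      ^ 2).rank ≤ 1) : a0 * b0 = 0 ∧ a0 * b1 = 0 ∧ a1 * b0 = 0 ∧ a1 * b1 = 0 := by
  refine ⟨?_, ?_, ?_, ?_⟩
  · have h1 := minor_zero (h 1) 2 4 0 3
    have h2 := minor_zero (h (-1)) 2 4 0 3
    have h3 := minor_zero (h 2) 2 4 0 3
    have h4 := minor_zero (h (-2)) 2 4 0 3
    simp [pow_two, Matrix.mul_apply, Fin.sum_univ_succ, J322, B322] at h1 h2 h3 h4
    linear_combination (-(16 * (h1 + h2) - (h3 + h4))) / 72
  · have h1 := minor_zero (h 1) 2 4 0 5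
    have h2 := minor_zero (h (-1)) 2 4 0 5
    have h3 := minor_zero (h 2) 2 4 0 5
    have h4 := minor_zero (h (-2)) 2 4 0 5
    simp [pow_two, Matrix.mul_apply, Fin.sum_univ_succ, J322, B322] at h1 h2 h3 h4
    linear_combination (-(16 * (h1 + h2) - (h3 + h4))) / 72
  · have h1 := minor_zero (h 1) 2 6 0 3
    have h2 := minor_zero (h (-1)) 2 6 0 3
    have h3 := minor_zero (h 2) 2 6 0 3
    have h4 := minor_zero (h (-2)) 2 6 0 3
    simp [pow_two, Matrix.mul_apply, Fin.sum_univ_succ, J322, B322] at h1 h2 h3 h4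
    linear_combination (-(16 * (h1 + h2) - (h3 + h4))) / 72
  · have h1 := minor_zero (h 1) 2 6 0 5
    have h2 := minor_zero (h (-1)) 2 6 0 5
    have h3 := minor_zero (h 2) 2 6 0 5
    have h4 := minor_zero (h (-2)) 2 6 0 5
    simp [pow_two, Matrix.mul_apply, Fin.sum_univ_succ, J322, B322] at h1 h2 h3 h4
    linear_combination (-(16 * (h1 + h2) - (h3 + h4))) / 72

/-! ### the case `b = 0` -/

/-- the matrices `B322` with `b = 0`, `z = 0` -/
def E322 (a0 a1 c0 c1 d0 d1 n00 n01 n10 n11 : k) : Matrix (Fin 7) (Fin 7) k :=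
  !![0, 0, 0, 0, 0, 0, 0;
     0, 0, 0, 0, 0, 0, 0;
     0, 0, 0, d0, 0, d1, 0;
     a0, 0, 0, 0, 0, 0, 0;
     c0, a0, 0, n00, 0, n01, 0;
     a1, 0, 0, 0, 0, 0, 0;
     c1, a1, 0, n10, 0, n11, 0]

theorem E_eq (a0 a1 c0 c1 d0 d1 n00 n01 n10 n11 : k) :
    B322 a0 a1 c0 c1 0 0 d0 d1 n00 n01 n10 n11 0 0 0 0 = E322 a0 a1 c0 c1 d0 d1 n00 n01 n10 n11 :=
  rfl

/-- the basis `v0, A v0, B v0, C v0, A^2 v0, A B v0, A C v0` -/
def G322 (a0 a1 c0 c1 a0' a1' c0' c1' : k) : Matrix (Fin 7) (Fin 7) k :=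
  !![1, 0, 0, 0, 0, 0, 0;
     0, 1, 0, 0, 0, 0, 0;
     0, 0, 0, 0, 1, 0, 0;
     0, 0, a0, a0', 0, 0, 0;
     0, 0, c0, c0', 0, a0, a0';
     0, 0, a1, a1', 0, 0, 0;
     0, 0, c1, c1', 0, a1, a1']

/-- the inverse of `G322`, with `t = 1 / (a0 a1' - a1 a0')` -/
def H322 (a0 a1 c0 c1 a0' a1' c0' c1' t : k) : Matrix (Fin 7) (Fin 7) k :=
  !![1, 0, 0, 0, 0, 0, 0;
     0, 1, 0, 0, 0, 0, 0;
     0, 0, 0, a1' * t, 0, -a0' * t, 0;
     0, 0, 0, -a1 * t, 0, a0 * t, 0;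
     0, 0, 1, 0, 0, 0, 0;
     0, 0, 0, -((a1' * c0 - a1 * c0') * a1' - (a1' * c1 - a1 * c1') * a0') * t ^ 2, a1' * t,
       -((a0 * c0' - a0' * c0) * a1' - (a0 * c1' - a0' * c1) * a0') * t ^ 2, -a0' * t;
     0, 0, 0, -(-(a1' * c0 - a1 * c0') * a1 + (a1' * c1 - a1 * c1') * a0) * t ^ 2, -a1 * t,
       -(-(a0 * c0' - a0' * c0) * a1 + (a0 * c1' - a0' * c1) * a0) * t ^ 2, a0 * t]

theorem G_mul_H {a0 a1 c0 c1 a0' a1' c0' c1' t : k} (ht : t * (a0 * a1' - a1 * a0') = 1) :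
    G322 a0 a1 c0 c1 a0' a1' c0' c1' * H322 a0 a1 c0 c1 a0' a1' c0' c1' t = 1 := by
  ext i j
  rw [Matrix.mul_apply]
  fin_cases i <;> fin_cases j <;> simp [G322, H322, Fin.sum_univ_succ]
  · linear_combination ht
  · ring
  · linear_combination (-(a1' * c0 - a1 * c0') * t) * ht
  · linear_combination ht
  · linear_combination (-(a0 * c0' - a0' * c0) * t) * ht
  · ring
  · ring
  · linear_combination ht
  · linear_combination (-(a1' * c1 - a1 * c1') * t) * ht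
  · ring
  · linear_combination (-(a0 * c1' - a0' * c1) * t) * ht
  · linear_combination ht

/-- the structure constants -/
def r322 (a0 a1 d0 d1 n00 n01 n10 n11 a0' a1' d0' d1' n00' n01' n10' n11' t : k) :
    Fin 6 × Fin 3 → k := fun x =>
  (!![1, 0, 0;
      0, 1, 0;
      0, 0, 1;
      d0 * a0 + d1 * a1, t * ((n00 * a0 + n01 * a1) * a1' - (n10 * a0 + n11 * a1) * a0'),
        t * (-(n00 * a0 + n01 * a1) * a1 + (n10 * a0 + n11 * a1) * a0);
      d0 * a0' + d1 * a1', t * ((n00 * a0' + n01 * a1') * a1' - (n10 * a0' + n11 * a1') * a0'),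
        t * (-(n00 * a0' + n01 * a1') * a1 + (n10 * a0' + n11 * a1') * a0);
      d0' * a0' + d1' * a1',
        t * ((n00' * a0' + n01' * a1') * a1' - (n10' * a0' + n11' * a1') * a0'),
        t * (-(n00' * a0' + n01' * a1') * a1 + (n10' * a0' + n11' * a1') * a0)] :
    Matrix (Fin 6) (Fin 3) k) x.1 x.2

section

variable {a0 a1 c0 c1 d0 d1 n00 n01 n10 n11 a0' a1' c0' c1' d0' d1' n00' n01' n10' n11' t : k}

theorem conj0 : J322 k * G322 a0 a1 c0 c1 a0' a1' c0' c1' = G322 a0 a1 c0 c1 a0' a1' c0' c1' *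
    Tq (r322 a0 a1 d0 d1 n00 n01 n10 n11 a0' a1' d0' d1' n00' n01' n10' n11' t) 0 := by
  ext i j
  rw [Matrix.mul_apply, Matrix.mul_apply]
  fin_cases i <;> fin_cases j <;> simp [J322, G322, Tq, r322, Fin.sum_univ_succ]

theorem conj1 (ht : t * (a0 * a1' - a1 * a0') = 1) :
    E322 a0 a1 c0 c1 d0 d1 n00 n01 n10 n11 * G322 a0 a1 c0 c1 a0' a1' c0' c1' =
      G322 a0 a1 c0 c1 a0' a1' c0' c1' *
        Tq (r322 a0 a1 d0 d1 n00 n01 n10 n11 a0' a1' d0' d1' n00' n01' n10' n11' t) 1 := by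
  ext i j
  rw [Matrix.mul_apply, Matrix.mul_apply]
  fin_cases i <;> fin_cases j <;> simp [E322, G322, Tq, r322, Fin.sum_univ_succ]
  · linear_combination (-(n00 * a0 + n01 * a1)) * ht
  · linear_combination (-(n00 * a0' + n01 * a1')) * ht
  · linear_combination (-(n10 * a0 + n11 * a1)) * ht
  · linear_combination (-(n10 * a0' + n11 * a1')) * ht

theorem conj2 (ht : t * (a0 * a1' - a1 * a0') = 1)
    (h1 : d0 * a0' + d1 * a1' = d0' * a0 + d1' * a1)
    (h2 : n00 * a0' + n01 * a1' = n00' * a0 + n01' * a1)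
    (h3 : n10 * a0' + n11 * a1' = n10' * a0 + n11' * a1) :
    E322 a0' a1' c0' c1' d0' d1' n00' n01' n10' n11' * G322 a0 a1 c0 c1 a0' a1' c0' c1' =
      G322 a0 a1 c0 c1 a0' a1' c0' c1' *
        Tq (r322 a0 a1 d0 d1 n00 n01 n10 n11 a0' a1' d0' d1' n00' n01' n10' n11' t) 2 := by
  ext i j
  rw [Matrix.mul_apply, Matrix.mul_apply]
  fin_cases i <;> fin_cases j <;> simp [E322, G322, Tq, r322, Fin.sum_univ_succ]
  · linear_combination -h1
  · linear_combination -h2 + (-(n00 * a0' + n01 * a1')) * ht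
  · linear_combination (-(n00' * a0' + n01' * a1')) * ht
  · linear_combination -h3 + (-(n10 * a0' + n11 * a1')) * ht
  · linear_combination (-(n10' * a0' + n11' * a1')) * ht

theorem rel (h : E322 a0 a1 c0 c1 d0 d1 n00 n01 n10 n11 *
      E322 a0' a1' c0' c1' d0' d1' n00' n01' n10' n11' =
      E322 a0' a1' c0' c1' d0' d1' n00' n01' n10' n11' *
      E322 a0 a1 c0 c1 d0 d1 n00 n01 n10 n11) :
    d0 * a0' + d1 * a1' = d0' * a0 + d1' * a1 ∧
    n00 * a0' + n01 * a1' = n00' * a0 + n01' * a1 ∧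
    n10 * a0' + n11 * a1' = n10' * a0 + n11' * a1 := by
  have h1 := congrFun (congrFun h 2) 0
  have h2 := congrFun (congrFun h 4) 0
  have h3 := congrFun (congrFun h 6) 0
  simp [Matrix.mul_apply, E322, Fin.sum_univ_succ] at h1 h2 h3
  exact ⟨h1, h2, h3⟩

end

end T322Aux

end Pool.Agent.Lib.D7
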