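import Pool.Agent.Lib.D7.Api

/-!
# MP_5dcbc3_ag: type (3,3,1), generic case: the matrices `B331`
-/

namespace Pool.Agent.Lib.D7.T331bAux

open Matrix Pool.Agent.Lib.D7

section
variable {k : Type*} [Field k]

theorem J331_eq : J331 k = B331 1 0 0 1 0 0 0 0 0 0 0 0 := rfl

theorem B331_add (a00 a01 a10 a11 m00 m01 m10 m11 t0 t1 w0 w1 b00 b01 b10 b11 l00 l01 l10 l11
    s0 s1 z0 z1 : k) :
    B331 a00 a01 a10 a11 m00 m01 m10 m11 t0 t1 w0 w1 +
      B331 b00 b01 b10 b11 l00 l01 l10 l11 s0 s1 z0 z1 =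
    B331 (a00 + b00) (a01 + b01) (a10 + b10) (a11 + b11) (m00 + l00) (m01 + l01) (m10 + l10)
      (m11 + l11) (t0 + s0) (t1 + s1) (w0 + z0) (w1 + z1) := by
  ext i j
  fin_cases i <;> fin_cases j <;> simp [B331]

theorem B331_smul (c a00 a01 a10 a11 m00 m01 m10 m11 t0 t1 w0 w1 : k) :
    c • B331 a00 a01 a10 a11 m00 m01 m10 m11 t0 t1 w0 w1 =
    B331 (c * a00) (c * a01) (c * a10) (c * a11) (c * m00) (c * m01) (c * m10) (c * m11)
      (c * t0) (c * t1) (c * w0) (c * w1) := by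
  ext i j
  fin_cases i <;> fin_cases j <;> simp [B331]

theorem B331_mul (a00 a01 a10 a11 m00 m01 m10 m11 t0 t1 w0 w1 b00 b01 b10 b11 l00 l01 l10 l11
    s0 s1 z0 z1 : k) :
    B331 a00 a01 a10 a11 m00 m01 m10 m11 t0 t1 w0 w1 *
      B331 b00 b01 b10 b11 l00 l01 l10 l11 s0 s1 z0 z1 =
    B331 0 0 0 0 (a00 * b00 + a01 * b10 + t0 * z0) (a00 * b01 + a01 * b11 + t0 * z1)
      (a10 * b00 + a11 * b10 + t1 * z0) (a10 * b01 + a11 * b11 + t1 * z1) 0 0 0 0 := by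
  ext i j
  simp only [Matrix.mul_apply, Fin.sum_univ_seven]
  fin_cases i <;> fin_cases j <;> simp [B331]

theorem B331_inj {a00 a01 a10 a11 m00 m01 m10 m11 t0 t1 w0 w1 b00 b01 b10 b11 l00 l01 l10 l11
    s0 s1 z0 z1 : k}
    (h : B331 a00 a01 a10 a11 m00 m01 m10 m11 t0 t1 w0 w1 =
      B331 b00 b01 b10 b11 l00 l01 l10 l11 s0 s1 z0 z1) :
    m00 = l00 ∧ m01 = l01 ∧ m10 = l10 ∧ m11 = l11 := by
  have h1 := congrFun (congrFun h 2) 0
  have h2 := congrFun (congrFun h 2) 3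
  have h3 := congrFun (congrFun h 5) 0
  have h4 := congrFun (congrFun h 5) 3
  simp [B331] at h1 h2 h3 h4
  exact ⟨h1, h2, h3, h4⟩

theorem B331_nilp (a00 a01 a10 a11 m00 m01 m10 m11 t0 t1 w0 w1 : k) :
    IsNilpotent (B331 a00 a01 a10 a11 m00 m01 m10 m11 t0 t1 w0 w1) := by
  refine ⟨3, ?_⟩
  rw [pow_succ, pow_two, B331_mul, B331_mul]
  ext i j
  fin_cases i <;> fin_cases j <;> simp [B331]

/-- the triples of the generic case -/
def Tn (a00 a01 a10 a11 m00 m01 m10 m11 b00 b01 b10 b11 l00 l01 l10 l11 : k) :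
    Fin 3 → Matrix (Fin 7) (Fin 7) k :=
  ![J331 k,
    B331 a00 a01 a10 a11 m00 m01 m10 m11 1 0
      (a10 * b00 + a11 * b10 - (b10 * a00 + b11 * a10))
      (a10 * b01 + a11 * b11 - (b10 * a01 + b11 * a11)),
    B331 b00 b01 b10 b11 l00 l01 l10 l11 0 1
      (-(a00 * b00 + a01 * b10 - (b00 * a00 + b01 * a10)))
      (-(a00 * b01 + a01 * b11 - (b00 * a01 + b01 * a11)))]

theorem Tn_cn (a00 a01 a10 a11 m00 m01 m10 m11 b00 b01 b10 b11 l00 l01 l10 l11 : k) :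
    CN (Tn a00 a01 a10 a11 m00 m01 m10 m11 b00 b01 b10 b11 l00 l01 l10 l11) := by
  constructor
  · intro i j
    fin_cases i <;> fin_cases j <;>
      simp only [Tn, J331_eq, Fin.zero_eta, Fin.mk_one, Fin.reduceFinMk, cons_val, B331_mul] <;>
      congr 1 <;> ring
  · intro i
    fin_cases i
    · exact B331_nilp 1 0 0 1 0 0 0 0 0 0 0 0
    · exact B331_nilp _ _ _ _ _ _ _ _ _ _ _ _
    · exact B331_nilp _ _ _ _ _ _ _ _ _ _ _ _

theorem eq_Tn {a00 a01 a10 a11 m00 m01 m10 m11 w0 w1 b00 b01 b10 b11 l00 l01 l10 l11 z0 z1 : k}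
    (h : CN ![J331 k, B331 a00 a01 a10 a11 m00 m01 m10 m11 1 0 w0 w1,
      B331 b00 b01 b10 b11 l00 l01 l10 l11 0 1 z0 z1]) :
    ![J331 k, B331 a00 a01 a10 a11 m00 m01 m10 m11 1 0 w0 w1,
      B331 b00 b01 b10 b11 l00 l01 l10 l11 0 1 z0 z1] =
    Tn a00 a01 a10 a11 m00 m01 m10 m11 b00 b01 b10 b11 l00 l01 l10 l11 := by
  have h1 := h.1 1 2
  simp only [cons_val, B331_mul] at h1
  obtain ⟨h2, h3, h4, h5⟩ := B331_inj h1
  have e1 : w0 = a10 * b00 + a11 * b10 - (b10 * a00 + b11 * a10) := by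
    linear_combination -h4
  have e2 : w1 = a10 * b01 + a11 * b11 - (b10 * a01 + b11 * a11) := by
    linear_combination -h5
  have e3 : z0 = -(a00 * b00 + a01 * b10 - (b00 * a00 + b01 * a10)) := by
    linear_combination h2
  have e4 : z1 = -(a00 * b01 + a01 * b11 - (b00 * a01 + b01 * a11)) := by
    linear_combination h3
  rw [e1, e2, e3, e4]
  rfl

theorem B331_poly {f00 f01 f10 f11 g00 g01 g10 g11 u0 u1 v0 v1 : k → k}
    (h1 : IsPoly f00) (h2 : IsPoly f01) (h3 : IsPoly f10) (h4 : IsPoly f11)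
    (h5 : IsPoly g00) (h6 : IsPoly g01) (h7 : IsPoly g10) (h8 : IsPoly g11)
    (h9 : IsPoly u0) (h10 : IsPoly u1) (h11 : IsPoly v0) (h12 : IsPoly v1) (x y : Fin 7) :
    IsPoly fun s => B331 (f00 s) (f01 s) (f10 s) (f11 s) (g00 s) (g01 s) (g10 s) (g11 s)
      (u0 s) (u1 s) (v0 s) (v1 s) x y := by
  have h0 : IsPoly fun _ : k => (0 : k) := IsPoly.const 0
  fin_cases x <;> fin_cases y <;> first
    | exact h0
    | exact h1
    | exact h2
    | exact h3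
    | exact h4
    | exact h5
    | exact h6
    | exact h7
    | exact h8
    | exact h9
    | exact h10
    | exact h11
    | exact h12

theorem Tn_poly {f00 f01 f10 f11 g00 g01 g10 g11 p00 p01 p10 p11 q00 q01 q10 q11 : k → k}
    (h1 : IsPoly f00) (h2 : IsPoly f01) (h3 : IsPoly f10) (h4 : IsPoly f11)
    (h5 : IsPoly g00) (h6 : IsPoly g01) (h7 : IsPoly g10) (h8 : IsPoly g11)
    (i1 : IsPoly p00) (i2 : IsPoly p01) (i3 : IsPoly p10) (i4 : IsPoly p11)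
    (i5 : IsPoly q00) (i6 : IsPoly q01) (i7 : IsPoly q10) (i8 : IsPoly q11) :
    PolyFam fun s => Tn (f00 s) (f01 s) (f10 s) (f11 s) (g00 s) (g01 s) (g10 s) (g11 s)
      (p00 s) (p01 s) (p10 s) (p11 s) (q00 s) (q01 s) (q10 s) (q11 s) := by
  intro i x y
  fin_cases i
  · exact IsPoly.const _
  · exact B331_poly h1 h2 h3 h4 h5 h6 h7 h8 (IsPoly.const 1) (IsPoly.const 0)
      (((h3.mul i1).add (h4.mul i3)).sub ((i3.mul h1).add (i4.mul h3)))
      (((h3.mul i2).add (h4.mul i4)).sub ((i3.mul h2).add (i4.mul h4))) x y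
  · exact B331_poly i1 i2 i3 i4 i5 i6 i7 i8 (IsPoly.const 0) (IsPoly.const 1)
      (((h1.mul i1).add (h2.mul i3)).sub ((i1.mul h1).add (i2.mul h3))).neg
      (((h1.mul i2).add (h2.mul i4)).sub ((i1.mul h2).add (i2.mul h4))).neg x y

/-- block matrices for the change of basis -/
def Gm (g00 g01 g10 g11 : k) : Matrix (Fin 7) (Fin 7) k :=
  !![g00, 0, 0, g01, 0, 0, 0;
     0, g00, 0, 0, g01, 0, 0;
     0, 0, g00, 0, 0, g01, 0;
     g10, 0, 0, g11, 0, 0, 0;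
     0, g10, 0, 0, g11, 0, 0;
     0, 0, g10, 0, 0, g11, 0;
     0, 0, 0, 0, 0, 0, 1]

theorem Gm_mul_B331 (g00 g01 g10 g11 a00 a01 a10 a11 m00 m01 m10 m11 t0 t1 w0 w1 : k) :
    Gm g00 g01 g10 g11 * B331 a00 a01 a10 a11 m00 m01 m10 m11 t0 t1 w0 w1 =
    B331 (g00 * a00 + g01 * a10) (g00 * a01 + g01 * a11) (g10 * a00 + g11 * a10)
      (g10 * a01 + g11 * a11) (g00 * m00 + g01 * m10) (g00 * m01 + g01 * m11)
      (g10 * m00 + g11 * m10) (g10 * m01 + g11 * m11) (g00 * t0 + g01 * t1) (g10 * t0 + g11 * t1)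
      w0 w1 := by
  ext i j
  simp only [Matrix.mul_apply, Fin.sum_univ_seven]
  fin_cases i <;> fin_cases j <;> simp [B331, Gm]

theorem B331_mul_Gm (h00 h01 h10 h11 a00 a01 a10 a11 m00 m01 m10 m11 t0 t1 w0 w1 : k) :
    B331 a00 a01 a10 a11 m00 m01 m10 m11 t0 t1 w0 w1 * Gm h00 h01 h10 h11 =
    B331 (a00 * h00 + a01 * h10) (a00 * h01 + a01 * h11) (a10 * h00 + a11 * h10)
      (a10 * h01 + a11 * h11) (m00 * h00 + m01 * h10) (m00 * h01 + m01 * h11)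
      (m10 * h00 + m11 * h10) (m10 * h01 + m11 * h11) t0 t1
      (w0 * h00 + w1 * h10) (w0 * h01 + w1 * h11) := by
  ext i j
  simp only [Matrix.mul_apply, Fin.sum_univ_seven]
  fin_cases i <;> fin_cases j <;> simp [B331, Gm]

theorem Gm_mul (g00 g01 g10 g11 h00 h01 h10 h11 : k) :
    Gm g00 g01 g10 g11 * Gm h00 h01 h10 h11 =
    Gm (g00 * h00 + g01 * h10) (g00 * h01 + g01 * h11) (g10 * h00 + g11 * h10)
      (g10 * h01 + g11 * h11) := by
  ext i j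
  simp only [Matrix.mul_apply, Fin.sum_univ_seven]
  fin_cases i <;> fin_cases j <;> simp [Gm]

theorem Gm_one : Gm (1 : k) 0 0 1 = 1 := by
  ext i j
  fin_cases i <;> fin_cases j <;> simp [Gm]

/-- vectors of the top layer -/
def Vv (e0 e1 : k) : Fin 7 → k := ![e0, 0, 0, e1, 0, 0, 0]

theorem B331_Vv (a00 a01 a10 a11 m00 m01 m10 m11 t0 t1 w0 w1 e0 e1 : k) :
    B331 a00 a01 a10 a11 m00 m01 m10 m11 t0 t1 w0 w1 *ᵥ Vv e0 e1 =
    ![0, a00 * e0 + a01 * e1, m00 * e0 + m01 * e1, 0, a10 * e0 + a11 * e1, m10 * e0 + m11 * e1,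
      w0 * e0 + w1 * e1] := by
  ext i
  simp only [mulVec, dotProduct, Fin.sum_univ_seven]
  fin_cases i <;> simp [B331, Vv]

theorem conj_of_cols (v : Fin 7 → Fin 7 → k)
    (hv : ∀ c : Fin 7 → k, ∑ j, c j • v j = 0 → c = 0) (T S : Fin 3 → Matrix (Fin 7) (Fin 7) k)
    (h : ∀ i j, T i *ᵥ v j = ∑ l, S i l j • v l) :
    ∃ g h : Matrix (Fin 7) (Fin 7) k, g * h = 1 ∧ h * g = 1 ∧ ∀ i, g * T i * h = S i := by
  set H : Matrix (Fin 7) (Fin 7) k := Matrix.of fun i j => v j i with hH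
  have h1 : H.det ≠ 0 := by
    intro h0
    obtain ⟨c, hc, hc'⟩ := Matrix.exists_mulVec_eq_zero_iff.2 h0
    refine hc (hv c ?_)
    rw [← hc']
    ext i
    simp only [mulVec, dotProduct, Finset.sum_apply, Pi.smul_apply, smul_eq_mul, hH, of_apply]
    exact Finset.sum_congr rfl fun j _ => mul_comm _ _
  have h2 : IsUnit H.det := h1.isUnit
  refine ⟨H⁻¹, H, Matrix.nonsing_inv_mul H h2, Matrix.mul_nonsing_inv H h2, fun i => ?_⟩
  have h3 : T i * H = H * S i := by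
    ext x y
    have h4 := congrFun (h i y) x
    simp only [mulVec, dotProduct, Finset.sum_apply, Pi.smul_apply, smul_eq_mul] at h4
    simp only [Matrix.mul_apply, hH, of_apply]
    rw [h4]
    exact Finset.sum_congr rfl fun j _ => mul_comm _ _
  rw [Matrix.mul_assoc, h3, ← Matrix.mul_assoc, Matrix.nonsing_inv_mul H h2, Matrix.one_mul]

end

end Pool.Agent.Lib.D7.T331bAux
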