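import Pool.Agent.Lib.D7.T331bA
import Pool.Agent.Lib.D7.Fams
import Pool.Agent.Lib.D7.S331

/-!
# MP_5dcbc3_ag: type (3,3,1), generic case: the normal form
-/

namespace Pool.Agent.Lib.D7.T331bAux

open Matrix Pool.Agent.Lib.D7

section
variable {k : Type*} [Field k]

/-- recognition of the normal form -/
theorem struct331 {X Y Z : Matrix (Fin 7) (Fin 7) k} {E F : Fin 7 → k}
    (hXY : X * Y = 0) (hYX : Y * X = 0) (hXZ : X * Z = 0) (hZX : Z * X = 0) (hYZ : Y * Z = 0)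
    (hZY : Z * Y = 0) (hX : X *ᵥ F = 0) (hY : Y *ᵥ F = -(Y *ᵥ E)) (hZ : Z *ᵥ F = Z *ᵥ E)
    (h2 : X *ᵥ (X *ᵥ E) = Z *ᵥ (Z *ᵥ E) - Y *ᵥ (Y *ᵥ E))
    (hi : ∀ a b : k, a • (Y *ᵥ (Y *ᵥ E)) + b • (Z *ᵥ (Z *ᵥ E)) = 0 → a = 0 ∧ b = 0) :
    ∃ g h : Matrix (Fin 7) (Fin 7) k, g * h = 1 ∧ h * g = 1 ∧
      ∀ i, g * (![X, Y, Z] : Fin 3 → Matrix (Fin 7) (Fin 7) k) i * h = S331 0 i := by
  have xy : ∀ u, X *ᵥ (Y *ᵥ u) = 0 := fun u => by rw [mulVec_mulVec, hXY, zero_mulVec]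
  have yx : ∀ u, Y *ᵥ (X *ᵥ u) = 0 := fun u => by rw [mulVec_mulVec, hYX, zero_mulVec]
  have xz : ∀ u, X *ᵥ (Z *ᵥ u) = 0 := fun u => by rw [mulVec_mulVec, hXZ, zero_mulVec]
  have zx : ∀ u, Z *ᵥ (X *ᵥ u) = 0 := fun u => by rw [mulVec_mulVec, hZX, zero_mulVec]
  have yz : ∀ u, Y *ᵥ (Z *ᵥ u) = 0 := fun u => by rw [mulVec_mulVec, hYZ, zero_mulVec]
  have zy : ∀ u, Z *ᵥ (Y *ᵥ u) = 0 := fun u => by rw [mulVec_mulVec, hZY, zero_mulVec]
  have x3 : X *ᵥ (X *ᵥ (X *ᵥ E)) = 0 := by rw [h2, mulVec_sub, xz, xy, sub_zero]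
  have y3 : Y *ᵥ (Y *ᵥ (Y *ᵥ E)) = 0 := by
    have h3 := congrArg (fun u => Y *ᵥ u) h2
    simp only [mulVec_sub, yx, yz, zero_sub] at h3
    exact neg_eq_zero.1 h3.symm
  have z3 : Z *ᵥ (Z *ᵥ (Z *ᵥ E)) = 0 := by
    have h3 := congrArg (fun u => Z *ᵥ u) h2
    simp only [mulVec_sub, zx, zy, sub_zero] at h3
    exact h3.symm
  refine conj_of_cols ![E, F, X *ᵥ E, Y *ᵥ E, Z *ᵥ E, Y *ᵥ (Y *ᵥ E), Z *ᵥ (Z *ᵥ E)] ?_ _ _ ?_
  · intro c hc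
    simp only [Fin.sum_univ_seven, cons_val] at hc
    have hX1 := congrArg (fun u => X *ᵥ u) hc
    simp only [mulVec_add, mulVec_smul, hX, xy, xz, smul_zero, add_zero, mulVec_zero] at hX1
    have hX2 := congrArg (fun u => X *ᵥ u) hX1
    simp only [mulVec_add, mulVec_smul, x3, smul_zero, add_zero, mulVec_zero] at hX2
    have hY1 := congrArg (fun u => Y *ᵥ u) hc
    simp only [mulVec_add, mulVec_smul, hY, yx, yz, y3, smul_zero, add_zero, mulVec_zero] at hY1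
    have hY2 := congrArg (fun u => Y *ᵥ u) hY1
    simp only [mulVec_add, mulVec_smul, mulVec_neg, y3, smul_zero, add_zero, mulVec_zero] at hY2
    have hZ1 := congrArg (fun u => Z *ᵥ u) hc
    simp only [mulVec_add, mulVec_smul, hZ, zx, zy, z3, smul_zero, add_zero, mulVec_zero] at hZ1
    have c0 : c 0 = 0 := by
      have h3 : (-c 0) • (Y *ᵥ (Y *ᵥ E)) + c 0 • (Z *ᵥ (Z *ᵥ E)) = 0 := by
        rw [← hX2, h2, smul_sub, neg_smul]; abel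
      exact (hi _ _ h3).2
    have c1 : c 1 = 0 := by
      have h3 : (c 0 - c 1) • (Y *ᵥ (Y *ᵥ E)) + (0 : k) • (Z *ᵥ (Z *ᵥ E)) = 0 := by
        rw [← hY2, sub_smul, smul_neg, zero_smul]; abel
      have h4 := (hi _ _ h3).1
      rw [c0, zero_sub, neg_eq_zero] at h4
      exact h4
    have c2 : c 2 = 0 := by
      rw [c0, zero_smul, zero_add] at hX1
      have h3 : (-c 2) • (Y *ᵥ (Y *ᵥ E)) + c 2 • (Z *ᵥ (Z *ᵥ E)) = 0 := by
        rw [← hX1, h2, smul_sub, neg_smul]; abel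
      exact (hi _ _ h3).2
    have c3 : c 3 = 0 := by
      rw [c0, c1, zero_smul, zero_smul, zero_add, zero_add] at hY1
      have h3 : c 3 • (Y *ᵥ (Y *ᵥ E)) + (0 : k) • (Z *ᵥ (Z *ᵥ E)) = 0 := by
        rw [← hY1, zero_smul, add_zero]
      exact (hi _ _ h3).1
    have c4 : c 4 = 0 := by
      simp only [c0, c1, zero_smul, zero_add] at hZ1
      have h3 : (0 : k) • (Y *ᵥ (Y *ᵥ E)) + c 4 • (Z *ᵥ (Z *ᵥ E)) = 0 := by
        rw [← hZ1, zero_smul, zero_add]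
      exact (hi _ _ h3).2
    rw [c0, c1, c2, c3, c4] at hc
    simp only [zero_smul, zero_add] at hc
    obtain ⟨c5, c6⟩ := hi _ _ hc
    ext j
    fin_cases j
    · exact c0
    · exact c1
    · exact c2
    · exact c3
    · exact c4
    · exact c5
    · exact c6
  · intro i j
    fin_cases i
    · fin_cases j <;> simp [-mulVec_mulVec, Fin.sum_univ_seven, S331, hX, xy, xz, h2, sub_eq_neg_add]
    · fin_cases j <;> simp [-mulVec_mulVec, Fin.sum_univ_seven, S331, hY, yx, yz, y3]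
    · fin_cases j <;> simp [-mulVec_mulVec, Fin.sum_univ_seven, S331, hZ, zx, zy, z3]

/-- the elements of rank one -/
def XX (s x y κ m00 m01 m10 m11 : k) : Matrix (Fin 7) (Fin 7) k :=
  B331 (s * x * y) (s * y ^ 2) (s * x ^ 2) (s * x * y) m00 m01 m10 m11 y x (-(κ * x)) (-(κ * y))

theorem XX_mul {s x y κ s' x' y' : k} (h : κ = s * s' * (x * y' + y * x'))
    (m00 m01 m10 m11 l00 l01 l10 l11 : k) :
    XX s x y κ m00 m01 m10 m11 * XX s' x' y' κ l00 l01 l10 l11 = 0 := by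
  rw [XX, XX, B331_mul]
  have e : (0 : Matrix (Fin 7) (Fin 7) k) = B331 0 0 0 0 0 0 0 0 0 0 0 0 := by
    ext i j
    fin_cases i <;> fin_cases j <;> rfl
  rw [e]
  congr 1 <;> rw [h] <;> ring

theorem XX_sq {s x y κ D : k} (hD : D = 2 * s ^ 2 * x * y - κ) (m00 m01 m10 m11 : k) :
    XX s x y κ m00 m01 m10 m11 * XX s x y κ m00 m01 m10 m11 =
      B331 0 0 0 0 (D * y * x) (D * y ^ 2) (D * x ^ 2) (D * x * y) 0 0 0 0 := by
  rw [XX, B331_mul]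
  congr 1 <;> rw [hD] <;> ring

theorem XX_ker {s x y κ m00 m01 m10 m11 : k} (h0 : m00 * y - m01 * x = 0)
    (h1 : m10 * y - m11 * x = 0) (c : k) :
    XX s x y κ m00 m01 m10 m11 *ᵥ Vv (c * y) (-(c * x)) = 0 := by
  rw [XX, B331_Vv]
  ext i
  fin_cases i
  · rfl
  · show s * x * y * (c * y) + s * y ^ 2 * -(c * x) = 0
    ring
  · show m00 * (c * y) + m01 * -(c * x) = 0
    linear_combination c * h0
  · rfl
  · show s * x ^ 2 * (c * y) + s * x * y * -(c * x) = 0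
    ring
  · show m10 * (c * y) + m11 * -(c * x) = 0
    linear_combination c * h1
  · show -(κ * x) * (c * y) + -(κ * y) * -(c * x) = 0
    ring

theorem XX_add (s x y κ m00 m01 m10 m11 l00 l01 l10 l11 n00 n01 n10 n11 u v : k) :
    XX s x y κ m00 m01 m10 m11 + u • B331 0 0 0 0 l00 l01 l10 l11 0 0 0 0 +
      v • B331 0 0 0 0 n00 n01 n10 n11 0 0 0 0 =
    XX s x y κ (m00 + u * l00 + v * n00) (m01 + u * l01 + v * n01) (m10 + u * l10 + v * n10)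
      (m11 + u * l11 + v * n11) := by
  rw [XX, XX, B331_smul, B331_smul, B331_add, B331_add]
  congr 1 <;> ring

theorem corr {x1 y1 x2 y2 x3 y3 D2 D3 : k} (h2 : D2 ≠ 0) (h3 : D3 ≠ 0)
    (h12 : x1 * y2 - y1 * x2 ≠ 0) (h13 : x1 * y3 - y1 * x3 ≠ 0) (h23 : x2 * y3 - y2 * x3 ≠ 0)
    (m00 m01 m10 m11 : k) :
    ∃ u v : k,
      (m00 + u * (D2 * y2 * x2) + v * (D3 * y3 * x3)) * y1 -
        (m01 + u * (D2 * y2 ^ 2) + v * (D3 * y3 ^ 2)) * x1 = 0 ∧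
      (m10 + u * (D2 * x2 ^ 2) + v * (D3 * x3 ^ 2)) * y1 -
        (m11 + u * (D2 * x2 * y2) + v * (D3 * x3 * y3)) * x1 = 0 := by
  obtain ⟨p, hp⟩ : ∃ p : k, p * (D2 * (x1 * y2 - y1 * x2) * (x2 * y3 - y2 * x3)) = 1 :=
    ⟨(D2 * (x1 * y2 - y1 * x2) * (x2 * y3 - y2 * x3))⁻¹,
      inv_mul_cancel₀ (mul_ne_zero (mul_ne_zero h2 h12) h23)⟩
  obtain ⟨q, hq⟩ : ∃ q : k, q * (D3 * (x1 * y3 - y1 * x3) * (x2 * y3 - y2 * x3)) = 1 :=
    ⟨(D3 * (x1 * y3 - y1 * x3) * (x2 * y3 - y2 * x3))⁻¹,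
      inv_mul_cancel₀ (mul_ne_zero (mul_ne_zero h3 h13) h23)⟩
  refine ⟨-p * ((m00 * y1 - m01 * x1) * x3 - (m10 * y1 - m11 * x1) * y3),
    q * ((m00 * y1 - m01 * x1) * x2 - (m10 * y1 - m11 * x1) * y2), ?_, ?_⟩
  · refine (mul_eq_zero.1 ?_).resolve_left h23
    linear_combination ((m00 * y1 - m01 * x1) * x3 - (m10 * y1 - m11 * x1) * y3) * y2 * hp -
      ((m00 * y1 - m01 * x1) * x2 - (m10 * y1 - m11 * x1) * y2) * y3 * hq
  · refine (mul_eq_zero.1 ?_).resolve_left h23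
    linear_combination ((m00 * y1 - m01 * x1) * x3 - (m10 * y1 - m11 * x1) * y3) * x2 * hp -
      ((m00 * y1 - m01 * x1) * x2 - (m10 * y1 - m11 * x1) * y2) * x3 * hq

end

end Pool.Agent.Lib.D7.T331bAux
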