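import Pool.Agent.Lib.D7.T331bB

/-!
# MP_5dcbc3_ag: type (3,3,1), generic case: distinct roots
-/

namespace Pool.Agent.Lib.D7.T331bAux

open Matrix Pool.Agent.Lib.D7

section
variable {k : Type*} [Field k]

theorem XX_top {s x y κ D : k} (hD : D = 2 * s ^ 2 * x * y - κ) (m00 m01 m10 m11 c e0 e1 : k) :
    (c • XX s x y κ m00 m01 m10 m11) *ᵥ ((c • XX s x y κ m00 m01 m10 m11) *ᵥ Vv e0 e1) =
      ![0, 0, c ^ 2 * D * (x * e0 + y * e1) * y, 0, 0, c ^ 2 * D * (x * e0 + y * e1) * x, 0] := by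
  rw [mulVec_mulVec, smul_mul_smul_comm, XX_sq hD, smul_mulVec, B331_Vv]
  ext i
  fin_cases i
  · simp
  · simp
  · show c * c * (D * y * x * e0 + D * y ^ 2 * e1) = c ^ 2 * D * (x * e0 + y * e1) * y
    ring
  · simp
  · simp
  · show c * c * (D * x ^ 2 * e0 + D * x * y * e1) = c ^ 2 * D * (x * e0 + y * e1) * x
    ring
  · simp

/-- the linear combinations of the three matrices which have rank one on the top layer -/
theorem lin_XX {x y s κ b b' c c' : k} (h1 : y * b + x * c = s * y ^ 2)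
    (h2 : y * b' + x * c' = s * x ^ 2) (hκ : κ = b * c' - c * b')
    (m00 m01 m10 m11 l00 l01 l10 l11 : k) :
    (s * x * y) • Tn 0 b b' 0 m00 m01 m10 m11 0 c c' 0 l00 l01 l10 l11 0 +
      y • Tn 0 b b' 0 m00 m01 m10 m11 0 c c' 0 l00 l01 l10 l11 1 +
      x • Tn 0 b b' 0 m00 m01 m10 m11 0 c c' 0 l00 l01 l10 l11 2 =
    XX s x y κ (y * m00 + x * l00) (y * m01 + x * l01) (y * m10 + x * l10)
      (y * m11 + x * l11) := by
  simp only [Tn, cons_val, J331_eq, B331_smul, B331_add, XX]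
  congr 1
  · ring
  · linear_combination h1
  · linear_combination h2
  · ring
  all_goals first | ring1 | (rw [hκ]; ring1)

theorem smul_ker {X : Matrix (Fin 7) (Fin 7) k} {e0 e1 : k} (r : k) (h : X *ᵥ Vv e0 e1 = 0) :
    (r • X) *ᵥ Vv e0 e1 = 0 := by rw [smul_mulVec, h, smul_zero]

theorem Vv_add (e0 e1 f0 f1 : k) : Vv e0 e1 + Vv f0 f1 = Vv (e0 + f0) (e1 + f1) := by
  ext i
  fin_cases i <;> simp [Vv]

theorem Vv_sub (e0 e1 f0 f1 : k) : Vv e0 e1 - Vv f0 f1 = Vv (e0 - f0) (e1 - f1) := by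
  ext i
  fin_cases i <;> simp [Vv]

theorem smem {T : Fin 3 → Matrix (Fin 7) (Fin 7) k} {M : Matrix (Fin 7) (Fin 7) k}
    (h : M ∈ adj T) (r : k) : r • M ∈ adj T := SMulMemClass.smul_mem r h

theorem adj_of_sq {T' : Fin 3 → Matrix (Fin 7) (Fin 7) k} {X1 X2 X3 : Matrix (Fin 7) (Fin 7) k}
    {u v : k} (h1 : X1 + u • (X2 * X2) + v • (X3 * X3) ∈ adj T')
    (h2 : X2 * X2 ∈ adj T') (h3 : X3 * X3 ∈ adj T') : X1 ∈ adj T' := by
  have h4 : X1 = X1 + u • (X2 * X2) + v • (X3 * X3) - u • (X2 * X2) - v • (X3 * X3) := by abel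
  rw [h4]
  exact sub_mem (sub_mem h1 (smem h2 u)) (smem h3 v)

theorem mem_of_lin {T' : Fin 3 → Matrix (Fin 7) (Fin 7) k} {A B C : Matrix (Fin 7) (Fin 7) k}
    {x1 x2 x3 y1 y2 y3 : k}
    (d12 : x1 * y2 - y1 * x2 ≠ 0) (d13 : x1 * y3 - y1 * x3 ≠ 0) (d23 : x2 * y3 - y2 * x3 ≠ 0)
    (h1 : ((x2 * y3 + y2 * x3) * x1 * y1) • A + y1 • B + x1 • C ∈ adj T')
    (h2 : ((x1 * y3 + y1 * x3) * x2 * y2) • A + y2 • B + x2 • C ∈ adj T')
    (h3 : ((x1 * y2 + y1 * x2) * x3 * y3) • A + y3 • B + x3 • C ∈ adj T') :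
    A ∈ adj T' ∧ B ∈ adj T' ∧ C ∈ adj T' := by
  have hA : A ∈ adj T' := by
    have h4 := add_mem (sub_mem (smem h1 (x2 * y3 - y2 * x3))
      (smem h2 (x1 * y3 - y1 * x3))) (smem h3 (x1 * y2 - y1 * x2))
    have h5 := smem h4 (-((x1 * y2 - y1 * x2) * (x1 * y3 - y1 * x3) *
      (x2 * y3 - y2 * x3)))⁻¹
    have h6 : (-((x1 * y2 - y1 * x2) * (x1 * y3 - y1 * x3) * (x2 * y3 - y2 * x3))) ≠ 0 :=
      neg_ne_zero.2 (mul_ne_zero (mul_ne_zero d12 d13) d23)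
    have h7 : (x2 * y3 - y2 * x3) • (((x2 * y3 + y2 * x3) * x1 * y1) • A + y1 • B + x1 • C) -
        (x1 * y3 - y1 * x3) • (((x1 * y3 + y1 * x3) * x2 * y2) • A + y2 • B + x2 • C) +
        (x1 * y2 - y1 * x2) • (((x1 * y2 + y1 * x2) * x3 * y3) • A + y3 • B + x3 • C) =
        (-((x1 * y2 - y1 * x2) * (x1 * y3 - y1 * x3) * (x2 * y3 - y2 * x3))) • A := by
      ext i j
      simp only [Matrix.add_apply, Matrix.sub_apply, Matrix.smul_apply, smul_eq_mul]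
      ring
    rw [h7, smul_smul, inv_mul_cancel₀ h6, one_smul] at h5
    exact h5
  have g1 := sub_mem h1 (smem hA ((x2 * y3 + y2 * x3) * x1 * y1))
  have g2 := sub_mem h2 (smem hA ((x1 * y3 + y1 * x3) * x2 * y2))
  refine ⟨hA, ?_, ?_⟩
  · have h4 := smem (sub_mem (smem g2 x1) (smem g1 x2))
      (x1 * y2 - y1 * x2)⁻¹
    have h7 : x1 • (((x1 * y3 + y1 * x3) * x2 * y2) • A + y2 • B + x2 • C -
        ((x1 * y3 + y1 * x3) * x2 * y2) • A) -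
        x2 • (((x2 * y3 + y2 * x3) * x1 * y1) • A + y1 • B + x1 • C -
        ((x2 * y3 + y2 * x3) * x1 * y1) • A) = (x1 * y2 - y1 * x2) • B := by
      ext i j
      simp only [Matrix.add_apply, Matrix.sub_apply, Matrix.smul_apply, smul_eq_mul]
      ring
    rw [h7, smul_smul, inv_mul_cancel₀ d12, one_smul] at h4
    exact h4
  · have h4 := smem (sub_mem (smem g1 y2) (smem g2 y1))
      (x1 * y2 - y1 * x2)⁻¹
    have h7 : y2 • (((x2 * y3 + y2 * x3) * x1 * y1) • A + y1 • B + x1 • C -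
        ((x2 * y3 + y2 * x3) * x1 * y1) • A) -
        y1 • (((x1 * y3 + y1 * x3) * x2 * y2) • A + y2 • B + x2 • C -
        ((x1 * y3 + y1 * x3) * x2 * y2) • A) = (x1 * y2 - y1 * x2) • C := by
      ext i j
      simp only [Matrix.add_apply, Matrix.sub_apply, Matrix.smul_apply, smul_eq_mul]
      ring
    rw [h7, smul_smul, inv_mul_cancel₀ d12, one_smul] at h4
    exact h4

end

variable {k : Type*} [Field k] [IsAlgClosed k] [CharZero k]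

theorem final331 {ρ : ℕ → ℕ} (hρ : ρ 3 = 0) {x1 x2 x3 y1 y2 y3 : k}
    (s12 : x1 * y2 + y1 * x2 ≠ 0) (s13 : x1 * y3 + y1 * x3 ≠ 0) (s23 : x2 * y3 + y2 * x3 ≠ 0)
    (d12 : x1 * y2 - y1 * x2 ≠ 0) (d13 : x1 * y3 - y1 * x3 ≠ 0) (d23 : x2 * y3 - y2 * x3 ≠ 0)
    {b b' c c' : k} (hb' : b' = -(x1 * x2 * x3)) (hb : b = x1 * y2 * y3 + y1 * x2 * y3 + y1 * y2 * x3)
    (hc' : c' = x1 * x2 * y3 + x1 * y2 * x3 + y1 * x2 * x3) (hc : c = -(y1 * y2 * y3))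
    {m00 m01 m10 m11 l00 l01 l10 l11 : k}
    (hT : MaxR ρ (Tn 0 b b' 0 m00 m01 m10 m11 0 c c' 0 l00 l01 l10 l11)) : False := by
  obtain ⟨κ, hκ⟩ : ∃ κ : k, κ = (x1 * y2 + y1 * x2) * (x1 * y3 + y1 * x3) * (x2 * y3 + y2 * x3) :=
    ⟨_, rfl⟩
  obtain ⟨D1, hD1⟩ : ∃ D1 : k, D1 = -((x2 * y3 + y2 * x3) * (x1 * y2 - y1 * x2) *
    (x1 * y3 - y1 * x3)) := ⟨_, rfl⟩
  obtain ⟨D2, hD2⟩ : ∃ D2 : k, D2 = (x1 * y3 + y1 * x3) * (x1 * y2 - y1 * x2) *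
    (x2 * y3 - y2 * x3) := ⟨_, rfl⟩
  obtain ⟨D3, hD3⟩ : ∃ D3 : k, D3 = -((x1 * y2 + y1 * x2) * (x1 * y3 - y1 * x3) *
    (x2 * y3 - y2 * x3)) := ⟨_, rfl⟩
  have hD1' : D1 = 2 * (x2 * y3 + y2 * x3) ^ 2 * x1 * y1 - κ := by rw [hD1, hκ]; ring
  have hD2' : D2 = 2 * (x1 * y3 + y1 * x3) ^ 2 * x2 * y2 - κ := by rw [hD2, hκ]; ring
  have hD3' : D3 = 2 * (x1 * y2 + y1 * x2) ^ 2 * x3 * y3 - κ := by rw [hD3, hκ]; ring
  have nD1 : D1 ≠ 0 := by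
    rw [hD1]; exact neg_ne_zero.2 (mul_ne_zero (mul_ne_zero s23 d12) d13)
  have nD2 : D2 ≠ 0 := by rw [hD2]; exact mul_ne_zero (mul_ne_zero s13 d12) d23
  have nD3 : D3 ≠ 0 := by
    rw [hD3]; exact neg_ne_zero.2 (mul_ne_zero (mul_ne_zero s12 d13) d23)
  have d21 : x2 * y1 - y2 * x1 ≠ 0 := fun h => d12 (by linear_combination -h)
  have d31 : x3 * y1 - y3 * x1 ≠ 0 := fun h => d13 (by linear_combination -h)
  have d32 : x3 * y2 - y3 * x2 ≠ 0 := fun h => d23 (by linear_combination -h)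
  -- the corrections
  obtain ⟨u1, v1, hu1, hv1⟩ := corr nD2 nD3 d12 d13 d23 (y1 * m00 + x1 * l00)
    (y1 * m01 + x1 * l01) (y1 * m10 + x1 * l10) (y1 * m11 + x1 * l11)
  obtain ⟨u2, v2, hu2, hv2⟩ := corr nD1 nD3 d21 d23 d13 (y2 * m00 + x2 * l00)
    (y2 * m01 + x2 * l01) (y2 * m10 + x2 * l10) (y2 * m11 + x2 * l11)
  obtain ⟨u3, v3, hu3, hv3⟩ := corr nD1 nD2 d31 d32 d12 (y3 * m00 + x3 * l00)
    (y3 * m01 + x3 * l01) (y3 * m10 + x3 * l10) (y3 * m11 + x3 * l11)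
  -- the scalings
  have two : (2 : k) ≠ 0 := two_ne_zero
  obtain ⟨r1, hr1⟩ := IsAlgClosed.exists_pow_nat_eq ((x2 * y3 - y2 * x3) /
    (2 * (x2 * y3 + y2 * x3) * (x1 * y2 - y1 * x2) ^ 2 * (x1 * y3 - y1 * x3) ^ 2)) (n := 2)
    (by norm_num)
  obtain ⟨r2, hr2⟩ := IsAlgClosed.exists_pow_nat_eq ((x1 * y3 - y1 * x3) /
    ((x1 * y3 + y1 * x3) * (x1 * y2 - y1 * x2) ^ 2 * (x2 * y3 - y2 * x3) ^ 2)) (n := 2)
    (by norm_num)
  obtain ⟨r3, hr3⟩ := IsAlgClosed.exists_pow_nat_eq ((x1 * y2 - y1 * x2) /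
    ((x1 * y2 + y1 * x2) * (x1 * y3 - y1 * x3) ^ 2 * (x2 * y3 - y2 * x3) ^ 2)) (n := 2)
    (by norm_num)
  rw [eq_div_iff (mul_ne_zero (mul_ne_zero (mul_ne_zero two s23) (pow_ne_zero 2 d12))
    (pow_ne_zero 2 d13))] at hr1
  rw [eq_div_iff (mul_ne_zero (mul_ne_zero s13 (pow_ne_zero 2 d12))
    (pow_ne_zero 2 d23))] at hr2
  rw [eq_div_iff (mul_ne_zero (mul_ne_zero s12 (pow_ne_zero 2 d13))
    (pow_ne_zero 2 d23))] at hr3
  have nr1 : r1 ≠ 0 := by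
    rintro rfl
    exact d23 (by rw [← hr1]; ring)
  have nr2 : r2 ≠ 0 := by
    rintro rfl
    exact d13 (by rw [← hr2]; ring)
  have nr3 : r3 ≠ 0 := by
    rintro rfl
    exact d12 (by rw [← hr3]; ring)
  -- the matrices
  set T := Tn 0 b b' 0 m00 m01 m10 m11 0 c c' 0 l00 l01 l10 l11 with hTdef
  have hκ' : κ = b * c' - c * b' := by rw [hκ, hb, hb', hc, hc']; ring
  have L1 := lin_XX (x := x1) (y := y1) (s := x2 * y3 + y2 * x3)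
    (by rw [hb, hc]; ring) (by rw [hb', hc']; ring) hκ' m00 m01 m10 m11 l00 l01 l10 l11
  have L2 := lin_XX (x := x2) (y := y2) (s := x1 * y3 + y1 * x3)
    (by rw [hb, hc]; ring) (by rw [hb', hc']; ring) hκ' m00 m01 m10 m11 l00 l01 l10 l11
  have L3 := lin_XX (x := x3) (y := y3) (s := x1 * y2 + y1 * x2)
    (by rw [hb, hc]; ring) (by rw [hb', hc']; ring) hκ' m00 m01 m10 m11 l00 l01 l10 l11
  rw [← hTdef] at L1 L2 L3
  obtain ⟨X1, hX1⟩ : ∃ X1, X1 = ((x2 * y3 + y2 * x3) * x1 * y1) • T 0 + y1 • T 1 + x1 • T 2 :=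
    ⟨_, rfl⟩
  obtain ⟨X2, hX2⟩ : ∃ X2, X2 = ((x1 * y3 + y1 * x3) * x2 * y2) • T 0 + y2 • T 1 + x2 • T 2 :=
    ⟨_, rfl⟩
  obtain ⟨X3, hX3⟩ : ∃ X3, X3 = ((x1 * y2 + y1 * x2) * x3 * y3) • T 0 + y3 • T 1 + x3 • T 2 :=
    ⟨_, rfl⟩
  rw [← hX1] at L1
  rw [← hX2] at L2
  rw [← hX3] at L3
  have Q1 := XX_sq hD1' (y1 * m00 + x1 * l00) (y1 * m01 + x1 * l01) (y1 * m10 + x1 * l10)
    (y1 * m11 + x1 * l11)
  have Q2 := XX_sq hD2' (y2 * m00 + x2 * l00) (y2 * m01 + x2 * l01) (y2 * m10 + x2 * l10)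
    (y2 * m11 + x2 * l11)
  have Q3 := XX_sq hD3' (y3 * m00 + x3 * l00) (y3 * m01 + x3 * l01) (y3 * m10 + x3 * l10)
    (y3 * m11 + x3 * l11)
  rw [← L1] at Q1
  rw [← L2] at Q2
  rw [← L3] at Q3
  obtain ⟨Y1, hY1⟩ : ∃ Y1, Y1 = X1 + u1 • (X2 * X2) + v1 • (X3 * X3) := ⟨_, rfl⟩
  obtain ⟨Y2, hY2⟩ : ∃ Y2, Y2 = X2 + u2 • (X1 * X1) + v2 • (X3 * X3) := ⟨_, rfl⟩
  obtain ⟨Y3, hY3⟩ : ∃ Y3, Y3 = X3 + u3 • (X1 * X1) + v3 • (X2 * X2) := ⟨_, rfl⟩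
  have M1 := XX_add (x2 * y3 + y2 * x3) x1 y1 κ (y1 * m00 + x1 * l00) (y1 * m01 + x1 * l01)
    (y1 * m10 + x1 * l10) (y1 * m11 + x1 * l11) (D2 * y2 * x2) (D2 * y2 ^ 2) (D2 * x2 ^ 2)
    (D2 * x2 * y2) (D3 * y3 * x3) (D3 * y3 ^ 2) (D3 * x3 ^ 2) (D3 * x3 * y3) u1 v1
  have M2 := XX_add (x1 * y3 + y1 * x3) x2 y2 κ (y2 * m00 + x2 * l00) (y2 * m01 + x2 * l01)
    (y2 * m10 + x2 * l10) (y2 * m11 + x2 * l11) (D1 * y1 * x1) (D1 * y1 ^ 2) (D1 * x1 ^ 2)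
    (D1 * x1 * y1) (D3 * y3 * x3) (D3 * y3 ^ 2) (D3 * x3 ^ 2) (D3 * x3 * y3) u2 v2
  have M3 := XX_add (x1 * y2 + y1 * x2) x3 y3 κ (y3 * m00 + x3 * l00) (y3 * m01 + x3 * l01)
    (y3 * m10 + x3 * l10) (y3 * m11 + x3 * l11) (D1 * y1 * x1) (D1 * y1 ^ 2) (D1 * x1 ^ 2)
    (D1 * x1 * y1) (D2 * y2 * x2) (D2 * y2 ^ 2) (D2 * x2 ^ 2) (D2 * x2 * y2) u3 v3
  rw [← L1, ← Q2, ← Q3, ← hY1] at M1
  rw [← L2, ← Q1, ← Q3, ← hY2] at M2
  rw [← L3, ← Q1, ← Q2, ← hY3] at M3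
  have S1 : Y1 * Y1 = X1 * X1 := by rw [Q1, M1]; exact XX_sq hD1' _ _ _ _
  have S2 : Y2 * Y2 = X2 * X2 := by rw [Q2, M2]; exact XX_sq hD2' _ _ _ _
  have S3 : Y3 * Y3 = X3 * X3 := by rw [Q3, M3]; exact XX_sq hD3' _ _ _ _
  -- the new triple
  have hX1' : X1 ∈ adj T := by
    rw [hX1]
    exact add_mem (add_mem (smem (mem_adj T 0) _) (smem (mem_adj T 1) _))
      (smem (mem_adj T 2) _)
  have hX2' : X2 ∈ adj T := by
    rw [hX2]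
    exact add_mem (add_mem (smem (mem_adj T 0) _) (smem (mem_adj T 1) _))
      (smem (mem_adj T 2) _)
  have hX3' : X3 ∈ adj T := by
    rw [hX3]
    exact add_mem (add_mem (smem (mem_adj T 0) _) (smem (mem_adj T 1) _))
      (smem (mem_adj T 2) _)
  have q1 := mul_mem hX1' hX1'
  have q2 := mul_mem hX2' hX2'
  have q3 := mul_mem hX3' hX3'
  set T' : Fin 3 → Matrix (Fin 7) (Fin 7) k := ![r1 • Y1, r2 • Y2, r3 • Y3] with hT'
  have hT'T : ∀ i, T' i ∈ adj T := by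
    intro i
    fin_cases i
    · show r1 • Y1 ∈ adj T
      rw [hY1]
      exact smem (add_mem (add_mem hX1' (smem q2 _))
        (smem q3 _)) _
    · show r2 • Y2 ∈ adj T
      rw [hY2]
      exact smem (add_mem (add_mem hX2' (smem q1 _))
        (smem q3 _)) _
    · show r3 • Y3 ∈ adj T
      rw [hY3]
      exact smem (add_mem (add_mem hX3' (smem q1 _))
        (smem q2 _)) _
  have y1' : Y1 ∈ adj T' := by
    have h := smem (mem_adj T' 0) r1⁻¹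
    have h' : r1⁻¹ • T' 0 = Y1 := by
      show r1⁻¹ • (r1 • Y1) = Y1
      rw [smul_smul, inv_mul_cancel₀ nr1, one_smul]
    rwa [h'] at h
  have y2' : Y2 ∈ adj T' := by
    have h := smem (mem_adj T' 1) r2⁻¹
    have h' : r2⁻¹ • T' 1 = Y2 := by
      show r2⁻¹ • (r2 • Y2) = Y2
      rw [smul_smul, inv_mul_cancel₀ nr2, one_smul]
    rwa [h'] at h
  have y3' : Y3 ∈ adj T' := by
    have h := smem (mem_adj T' 2) r3⁻¹
    have h' : r3⁻¹ • T' 2 = Y3 := by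
      show r3⁻¹ • (r3 • Y3) = Y3
      rw [smul_smul, inv_mul_cancel₀ nr3, one_smul]
    rwa [h'] at h
  have z1 : X1 * X1 ∈ adj T' := S1 ▸ mul_mem y1' y1'
  have z2 : X2 * X2 ∈ adj T' := S2 ▸ mul_mem y2' y2'
  have z3 : X3 * X3 ∈ adj T' := S3 ▸ mul_mem y3' y3'
  have w1 : X1 ∈ adj T' := adj_of_sq (hY1 ▸ y1') z2 z3
  have w2 : X2 ∈ adj T' := adj_of_sq (hY2 ▸ y2') z1 z3
  have w3 : X3 ∈ adj T' := adj_of_sq (hY3 ▸ y3') z1 z2
  rw [hX1] at w1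
  rw [hX2] at w2
  rw [hX3] at w3
  obtain ⟨t0, t1, t2⟩ := mem_of_lin d12 d13 d23 w1 w2 w3
  have hM : MaxR ρ T' := hT.change (hT.cn.of_adj hT'T) (by
    intro i
    fin_cases i
    · exact t0
    · exact t1
    · exact t2)
  -- the normal form
  obtain ⟨g, h, hg, hh, hc⟩ : ∃ g h : Matrix (Fin 7) (Fin 7) k, g * h = 1 ∧ h * g = 1 ∧
      ∀ i, g * T' i * h = S331 0 i := by
    have P12 : Y1 * Y2 = 0 := by rw [M1, M2]; exact XX_mul (by rw [hκ]; ring) _ _ _ _ _ _ _ _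
    have P21 : Y2 * Y1 = 0 := by rw [M1, M2]; exact XX_mul (by rw [hκ]; ring) _ _ _ _ _ _ _ _
    have P13 : Y1 * Y3 = 0 := by rw [M1, M3]; exact XX_mul (by rw [hκ]; ring) _ _ _ _ _ _ _ _
    have P31 : Y3 * Y1 = 0 := by rw [M1, M3]; exact XX_mul (by rw [hκ]; ring) _ _ _ _ _ _ _ _
    have P23 : Y2 * Y3 = 0 := by rw [M2, M3]; exact XX_mul (by rw [hκ]; ring) _ _ _ _ _ _ _ _
    have P32 : Y3 * Y2 = 0 := by rw [M2, M3]; exact XX_mul (by rw [hκ]; ring) _ _ _ _ _ _ _ _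
    have K1 : ∀ t : k, Y1 *ᵥ Vv (t * y1) (-(t * x1)) = 0 := fun t => by
      rw [M1]; exact XX_ker hu1 hv1 t
    have K2 : ∀ t : k, Y2 *ᵥ Vv (t * y2) (-(t * x2)) = 0 := fun t => by
      rw [M2]; exact XX_ker hu2 hv2 t
    have K3 : ∀ t : k, Y3 *ᵥ Vv (t * y3) (-(t * x3)) = 0 := fun t => by
      rw [M3]; exact XX_ker hu3 hv3 t
    have W1 : ∀ e0 e1 : k, (r1 • Y1) *ᵥ ((r1 • Y1) *ᵥ Vv e0 e1) =
        ![0, 0, r1 ^ 2 * D1 * (x1 * e0 + y1 * e1) * y1, 0, 0,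
          r1 ^ 2 * D1 * (x1 * e0 + y1 * e1) * x1, 0] := fun e0 e1 => by
      rw [M1]; exact XX_top hD1' _ _ _ _ _ _ _
    have W2 : ∀ e0 e1 : k, (r2 • Y2) *ᵥ ((r2 • Y2) *ᵥ Vv e0 e1) =
        ![0, 0, r2 ^ 2 * D2 * (x2 * e0 + y2 * e1) * y2, 0, 0,
          r2 ^ 2 * D2 * (x2 * e0 + y2 * e1) * x2, 0] := fun e0 e1 => by
      rw [M2]; exact XX_top hD2' _ _ _ _ _ _ _
    have W3 : ∀ e0 e1 : k, (r3 • Y3) *ᵥ ((r3 • Y3) *ᵥ Vv e0 e1) =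
        ![0, 0, r3 ^ 2 * D3 * (x3 * e0 + y3 * e1) * y3, 0, 0,
          r3 ^ 2 * D3 * (x3 * e0 + y3 * e1) * x3, 0] := fun e0 e1 => by
      rw [M3]; exact XX_top hD3' _ _ _ _ _ _ _
    have c1 : r1 ^ 2 * D1 * (x1 * (-(x1 * y3 - y1 * x3) * y2 - (x1 * y2 - y1 * x2) * y3) +
        y1 * ((x1 * y3 - y1 * x3) * x2 + (x1 * y2 - y1 * x2) * x3)) = x2 * y3 - y2 * x3 := by
      rw [← hr1, hD1]; ring
    have c2 : r2 ^ 2 * D2 * (x2 * (-(x1 * y3 - y1 * x3) * y2 - (x1 * y2 - y1 * x2) * y3) +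
        y2 * ((x1 * y3 - y1 * x3) * x2 + (x1 * y2 - y1 * x2) * x3)) = -(x1 * y3 - y1 * x3) := by
      rw [← hr2, hD2]; ring
    have c3 : r3 ^ 2 * D3 * (x3 * (-(x1 * y3 - y1 * x3) * y2 - (x1 * y2 - y1 * x2) * y3) +
        y3 * ((x1 * y3 - y1 * x3) * x2 + (x1 * y2 - y1 * x2) * x3)) = -(x1 * y2 - y1 * x2) := by
      rw [← hr3, hD3]; ring
    refine struct331 (X := r1 • Y1) (Y := r2 • Y2) (Z := r3 • Y3)
      (E := Vv (-(x1 * y3 - y1 * x3) * y2 - (x1 * y2 - y1 * x2) * y3)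
        ((x1 * y3 - y1 * x3) * x2 + (x1 * y2 - y1 * x2) * x3))
      (F := Vv (-(x2 * y3 - y2 * x3) * y1) (-(-(x2 * y3 - y2 * x3) * x1)))
      ?_ ?_ ?_ ?_ ?_ ?_ ?_ ?_ ?_ ?_ ?_
    · rw [smul_mul_smul_comm, P12, smul_zero]
    · rw [smul_mul_smul_comm, P21, smul_zero]
    · rw [smul_mul_smul_comm, P13, smul_zero]
    · rw [smul_mul_smul_comm, P31, smul_zero]
    · rw [smul_mul_smul_comm, P23, smul_zero]
    · rw [smul_mul_smul_comm, P32, smul_zero]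
    · exact smul_ker r1 (K1 _)
    · rw [eq_neg_iff_add_eq_zero, ← mulVec_add, Vv_add]
      have e := smul_ker r2 (K2 (-(2 * (x1 * y3 - y1 * x3))))
      convert e using 3
      · ring
      · ring
    · rw [← sub_eq_zero, ← mulVec_sub, Vv_sub]
      have e := smul_ker r3 (K3 (2 * (x1 * y2 - y1 * x2)))
      convert e using 3
      · ring
      · ring
    · rw [W1, W2, W3, c1, c2, c3]
      ext i
      fin_cases i
      · simp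
      · simp
      · show (x2 * y3 - y2 * x3) * y1 = -(x1 * y2 - y1 * x2) * y3 - -(x1 * y3 - y1 * x3) * y2
        ring
      · simp
      · simp
      · show (x2 * y3 - y2 * x3) * x1 = -(x1 * y2 - y1 * x2) * x3 - -(x1 * y3 - y1 * x3) * x2
        ring
      · simp
    · intro a b hab
      rw [W2, W3, c2, c3] at hab
      have e1 : a * (-(x1 * y3 - y1 * x3) * y2) + b * (-(x1 * y2 - y1 * x2) * y3) = 0 :=
        congrFun hab 2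
      have e2 : a * (-(x1 * y3 - y1 * x3) * x2) + b * (-(x1 * y2 - y1 * x2) * x3) = 0 :=
        congrFun hab 5
      constructor
      · have e3 : a * ((x1 * y3 - y1 * x3) * (x2 * y3 - y2 * x3)) = 0 := by
          linear_combination x3 * e1 - y3 * e2
        exact (mul_eq_zero.1 e3).resolve_right (mul_ne_zero d13 d23)
      · have e3 : b * ((x1 * y2 - y1 * x2) * (x2 * y3 - y2 * x3)) = 0 := by
          linear_combination y2 * e2 - x2 * e1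
        exact (mul_eq_zero.1 e3).resolve_right (mul_ne_zero d12 d23)
  have hS := hM.conj g h hg hh
  rw [funext hc] at hS
  exact no_S331 hS hρ

end Pool.Agent.Lib.D7.T331bAux
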