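import Pool.Agent.Lib.D7.Api
import Pool.Agent.Lib.D7.Fams

/-!
# D7.T421bA: type (4, 2, 1), the last case, normal forms
-/

namespace Pool.Agent.Lib.D7

open Matrix Pool.Agent.Lib.Q5dc

namespace T421bAux

/-! ### the algebra of the normal form -/

section alg

variable {k R : Type*} [Field k] [Ring R] [Algebra k R]

/-- the relations of the normal form -/
structure Tab (be ga b g th et : k) (A B C : R) : Prop where
  ba : B * A = A * B
  ac : A * C = 0
  ca : C * A = 0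
  cb : C * B = B * C
  aab : A * (A * B) = 0
  bb : B * B = ga • (A * B) + be • (A * (A * A))
  bc : B * C = g • (A * B) + b • (A * (A * A))
  cc : C * C = et • (A * B) + th • (A * (A * A))
  a4 : A * (A * (A * A)) = 0

/-- the multiplication table -/
structure Full (be ga b g th et : k) (A B C S P Q : R) : Prop where
  aa : A * A = S
  as : A * S = Q
  sa : S * A = Q
  ss : S * S = 0
  ab : A * B = P
  ba : B * A = P
  ac : A * C = 0
  ca : C * A = 0
  sb : S * B = 0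
  bs : B * S = 0
  sc : S * C = 0
  cs : C * S = 0
  bb : B * B = ga • P + be • Q
  bc : B * C = g • P + b • Q
  cb : C * B = g • P + b • Q
  cc : C * C = et • P + th • Q
  ap : A * P = 0
  bp : B * P = 0
  cp : C * P = 0
  aq : A * Q = 0
  bq : B * Q = 0
  cq : C * Q = 0

variable {be ga b g th et : k} {A B C S P Q : R}

theorem Tab.full (t : Tab be ga b g th et A B C) :
    Full be ga b g th et A B C (A * A) (A * B) (A * (A * A)) := by
  obtain ⟨ba, ac, ca, cb, aab, bb, bc, cc, a4⟩ := t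
  have hb : ∀ W : R, B * (A * W) = A * (B * W) := fun W => by
    rw [← mul_assoc, ba, mul_assoc]
  have hc : ∀ W : R, C * (A * W) = 0 := fun W => by
    rw [← mul_assoc, ca, zero_mul]
  have bs : B * (A * A) = 0 := by rw [hb, ba, aab]
  refine ⟨rfl, rfl, mul_assoc _ _ _, ?_, rfl, ba, ac, ca, ?_, bs, ?_, hc A, bb, bc, ?_, cc, aab,
    ?_, hc B, a4, ?_, hc _⟩
  · rw [mul_assoc, a4]
  · rw [mul_assoc, aab]
  · rw [mul_assoc, ac, mul_zero]
  · rw [cb, bc]
  · rw [hb, bb, mul_add, mul_smul_comm, mul_smul_comm, aab, a4, smul_zero, smul_zero, add_zero]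
  · rw [hb, hb, ba, aab, mul_zero]

theorem Full.xy (F : Full be ga b g th et A B C S P Q) (a c r ρ l : k)
    (h1 : 1 + a * ga + c * g - r * (a * g + c * et) = 0)
    (h2 : ρ = a * be - a * r * b + c * b - c * r * th) :
    (A + a • B + c • C) * (l • (B - r • C - ρ • S)) = 0 := by
  simp only [add_mul, mul_sub, smul_mul_assoc, mul_smul_comm, F.ab, F.ac,
    F.as, F.bb, F.bc, F.bs, F.cb, F.cc, F.cs]
  match_scalars
  · linear_combination l * h1
  · rw [h2]; ring

theorem Full.yx (F : Full be ga b g th et A B C S P Q) (a c r ρ l : k)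
    (h1 : 1 + a * ga + c * g - r * (a * g + c * et) = 0)
    (h2 : ρ = a * be - a * r * b + c * b - c * r * th) :
    (l • (B - r • C - ρ • S)) * (A + a • B + c • C) = 0 := by
  simp only [mul_add, sub_mul, smul_mul_assoc, mul_smul_comm, F.ba, F.ca,
    F.sa, F.bb, F.bc, F.sb, F.cb, F.cc, F.sc]
  match_scalars
  · linear_combination l * h1
  · rw [h2]; ring

theorem Full.yz (F : Full be ga b g th et A B C S P Q) (r r' ρ ρ' l l' : k)
    (h1 : ga - (r + r') * g + r * r' * et = 0)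
    (h2 : be - (r + r') * b + r * r' * th = 0) :
    (l • (B - r • C - ρ • S)) * (l' • (B - r' • C - ρ' • S)) = 0 := by
  simp only [mul_sub, sub_mul, smul_mul_assoc, mul_smul_comm, F.bb, F.bc, F.sb, F.cb, F.cc, F.sc,
    F.bs, F.cs, F.ss]
  match_scalars
  · linear_combination l * l' * h1
  · linear_combination l * l' * h2

theorem Full.yy (F : Full be ga b g th et A B C S P Q) (r ρ l : k) :
    (l • (B - r • C - ρ • S)) * (l • (B - r • C - ρ • S)) =
      (l ^ 2 * (ga - 2 * g * r + et * r ^ 2)) • P + (l ^ 2 * (be - 2 * b * r + th * r ^ 2)) • Q := by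
  simp only [mul_sub, sub_mul, smul_mul_assoc, mul_smul_comm, F.bb, F.bc, F.sb, F.cb, F.cc, F.sc,
    F.bs, F.cs, F.ss]
  match_scalars
  · ring
  · ring

theorem Full.xx (F : Full be ga b g th et A B C S P Q) (a c : k) :
    (A + a • B + c • C) * (A + a • B + c • C) =
      S + (2 * a + a ^ 2 * ga + 2 * a * c * g + c ^ 2 * et) • P
        + (a ^ 2 * be + 2 * a * c * b + c ^ 2 * th) • Q := by
  simp only [mul_add, add_mul, smul_mul_assoc, mul_smul_comm, F.aa, F.ab, F.ac, F.ba, F.ca,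
    F.bb, F.bc, F.cb, F.cc]
  match_scalars
  · ring
  · ring
  · ring

theorem Full.xxx (F : Full be ga b g th et A B C S P Q) (a c : k) :
    (A + a • B + c • C) * ((A + a • B + c • C) * (A + a • B + c • C)) = Q := by
  rw [F.xx]
  simp only [mul_add, add_mul, smul_mul_assoc, mul_smul_comm, F.as, F.bs, F.cs, F.ap, F.bp, F.cp,
    F.aq, F.bq, F.cq, smul_zero, add_zero]

end alg

/-! ### change of basis -/

section conj

variable {k : Type*} [Field k]

/-- the columns of the new basis -/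
def cols (X Y Z : Matrix (Fin 7) (Fin 7) k) (v : Fin 7 → k) : Matrix (Fin 7) (Fin 7) k :=
  Matrix.of fun i j => (![v, X *ᵥ v, X *ᵥ (X *ᵥ v), Y *ᵥ v, Z *ᵥ v, Y *ᵥ (Y *ᵥ v),
    Z *ᵥ (Z *ᵥ v)] : Fin 7 → Fin 7 → k) j i

theorem mul_cols_apply (M X Y Z : Matrix (Fin 7) (Fin 7) k) (v : Fin 7 → k) (i j : Fin 7) :
    (M * cols X Y Z v) i j = (M *ᵥ ((![v, X *ᵥ v, X *ᵥ (X *ᵥ v), Y *ᵥ v, Z *ᵥ v, Y *ᵥ (Y *ᵥ v),
    Z *ᵥ (Z *ᵥ v)] : Fin 7 → Fin 7 → k) j)) i := by
  simp only [Matrix.mul_apply, cols, Matrix.mulVec, dotProduct, Matrix.of_apply]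

theorem cols_mul (X Y Z : Matrix (Fin 7) (Fin 7) k) (v : Fin 7 → k)
    (hXY : X * Y = 0) (hYX : Y * X = 0) (hXZ : X * Z = 0) (hZX : Z * X = 0) (hYZ : Y * Z = 0)
    (hZY : Z * Y = 0) (hX : X * (X * X) = Y * Y + Z * Z) :
    X * cols X Y Z v = cols X Y Z v * R421 (0 : k) 0 ∧
    Y * cols X Y Z v = cols X Y Z v * R421 (0 : k) 1 ∧
    Z * cols X Y Z v = cols X Y Z v * R421 (0 : k) 2 := by
  have e1 : ∀ w : Fin 7 → k, X *ᵥ (Y *ᵥ w) = 0 := fun w => by
    rw [Matrix.mulVec_mulVec, hXY, Matrix.zero_mulVec]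
  have e2 : ∀ w : Fin 7 → k, Y *ᵥ (X *ᵥ w) = 0 := fun w => by
    rw [Matrix.mulVec_mulVec, hYX, Matrix.zero_mulVec]
  have e3 : ∀ w : Fin 7 → k, X *ᵥ (Z *ᵥ w) = 0 := fun w => by
    rw [Matrix.mulVec_mulVec, hXZ, Matrix.zero_mulVec]
  have e4 : ∀ w : Fin 7 → k, Z *ᵥ (X *ᵥ w) = 0 := fun w => by
    rw [Matrix.mulVec_mulVec, hZX, Matrix.zero_mulVec]
  have e5 : ∀ w : Fin 7 → k, Y *ᵥ (Z *ᵥ w) = 0 := fun w => by
    rw [Matrix.mulVec_mulVec, hYZ, Matrix.zero_mulVec]
  have e6 : ∀ w : Fin 7 → k, Z *ᵥ (Y *ᵥ w) = 0 := fun w => by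
    rw [Matrix.mulVec_mulVec, hZY, Matrix.zero_mulVec]
  have e7 : ∀ w : Fin 7 → k, X *ᵥ (X *ᵥ (X *ᵥ w)) = Y *ᵥ (Y *ᵥ w) + Z *ᵥ (Z *ᵥ w) := fun w => by
    simp only [Matrix.mulVec_mulVec, ← Matrix.add_mulVec, hX]
  have e8 : Y *ᵥ (Y *ᵥ (Y *ᵥ v)) = 0 := by
    have h1 := congrArg (fun w => Y *ᵥ w) (e7 v)
    simp only [e2, Matrix.mulVec_add, e5, add_zero] at h1
    exact h1.symm
  have e9 : Z *ᵥ (Z *ᵥ (Z *ᵥ v)) = 0 := by
    have h1 := congrArg (fun w => Z *ᵥ w) (e7 v)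
    simp only [e4, Matrix.mulVec_add, e6, zero_add] at h1
    exact h1.symm
  refine ⟨?_, ?_, ?_⟩
  · ext i j
    rw [mul_cols_apply, Matrix.mul_apply]
    fin_cases j <;> simp [Fin.sum_univ_seven, cols, R421, e1, e3, e7,
      -Matrix.mulVec_mulVec]
  · ext i j
    rw [mul_cols_apply, Matrix.mul_apply]
    fin_cases j <;> simp [Fin.sum_univ_seven, cols, R421, e2, e5, e8,
      -Matrix.mulVec_mulVec]
  · ext i j
    rw [mul_cols_apply, Matrix.mul_apply]
    fin_cases j <;> simp [Fin.sum_univ_seven, cols, R421, e4, e6, e9,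
      -Matrix.mulVec_mulVec]

end conj

/-! ### the triples -/

section triples

variable {k : Type*} [Field k]

/-- the triples of script A -/
def TA (al al1 om be1 ga th et al' al1' om' be1' ga' th' et' : k) :
    Fin 3 → Matrix (Fin 7) (Fin 7) k :=
  ![J421 k, B421 al al1 om 0 be1 ga 0 th et, B421 al' al1' om' 0 be1' ga' 0 th' et']

theorem comm_J (al al1 om be1 ga th et : k) :
    J421 k * B421 al al1 om 0 be1 ga 0 th et = B421 al al1 om 0 be1 ga 0 th et * J421 k := by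
  ext i j
  fin_cases i <;> fin_cases j <;> simp [J421, B421, Matrix.mul_apply, Fin.sum_univ_seven]

theorem comm_B {al al1 om be1 ga th et al' al1' om' be1' ga' th' et' : k}
    (h1 : al' * ga + om' * et = al * ga' + om * et')
    (h2 : al' * be1 + om' * th = al * be1' + om * th') :
    B421 al al1 om 0 be1 ga 0 th et * B421 al' al1' om' 0 be1' ga' 0 th' et' =
      B421 al' al1' om' 0 be1' ga' 0 th' et' * B421 al al1 om 0 be1 ga 0 th et := by
  ext i j
  fin_cases i <;> fin_cases j <;> simp [B421, Matrix.mul_apply, Fin.sum_univ_seven]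
  · linear_combination h2
  · linear_combination h1

theorem rel_of_comm {al al1 om be1 ga th et al' al1' om' be1' ga' th' et' : k}
    (h : B421 al al1 om 0 be1 ga 0 th et * B421 al' al1' om' 0 be1' ga' 0 th' et' =
      B421 al' al1' om' 0 be1' ga' 0 th' et' * B421 al al1 om 0 be1 ga 0 th et) :
    al' * ga + om' * et = al * ga' + om * et' ∧ al' * be1 + om' * th = al * be1' + om * th' := by
  have h5 := congrFun (congrFun h 5) 0
  have h3 := congrFun (congrFun h 3) 0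
  simp [B421, Matrix.mul_apply, Fin.sum_univ_seven] at h5 h3
  exact ⟨by linear_combination h5, by linear_combination h3⟩

theorem nil_J : IsNilpotent (J421 k) := by
  refine isNilpotent_of_weight _ (![0, 1, 2, 3, 1, 2, 1] : Fin 7 → ℕ) ?_
  intro i j
  fin_cases i <;> fin_cases j <;> simp [J421]

theorem nil_B (al al1 om be1 ga th et : k) :
    IsNilpotent (B421 al al1 om 0 be1 ga 0 th et) := by
  refine isNilpotent_of_weight _ (![0, 1, 2, 3, 1, 2, 1] : Fin 7 → ℕ) ?_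
  intro i j
  fin_cases i <;> fin_cases j <;> simp [B421]

theorem cn_TA {al al1 om be1 ga th et al' al1' om' be1' ga' th' et' : k}
    (h1 : al' * ga + om' * et = al * ga' + om * et')
    (h2 : al' * be1 + om' * th = al * be1' + om * th') :
    CN (TA al al1 om be1 ga th et al' al1' om' be1' ga' th' et') := by
  have c1 := comm_J al al1 om be1 ga th et
  have c2 := comm_J al' al1' om' be1' ga' th' et'
  have c3 := comm_B (al1 := al1) (al1' := al1') h1 h2
  refine ⟨fun i j => ?_, fun i => ?_⟩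
  · fin_cases i <;> fin_cases j
    · rfl
    · exact c1
    · exact c2
    · exact c1.symm
    · rfl
    · exact c3
    · exact c2.symm
    · exact c3.symm
    · rfl
  · fin_cases i
    · exact nil_J
    · exact nil_B _ _ _ _ _ _ _
    · exact nil_B _ _ _ _ _ _ _
/-- `J421 ^ 2` -/
def J2 (k : Type*) [Field k] : Matrix (Fin 7) (Fin 7) k :=
  !![0, 0, 0, 0, 0, 0, 0;
     0, 0, 0, 0, 0, 0, 0;
     1, 0, 0, 0, 0, 0, 0;
     0, 1, 0, 0, 0, 0, 0;
     0, 0, 0, 0, 0, 0, 0;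
     0, 0, 0, 0, 0, 0, 0;
     0, 0, 0, 0, 0, 0, 0]

/-- `v0 -> x u1 + y v3` -/
def E2 (x y : k) : Matrix (Fin 7) (Fin 7) k :=
  !![0, 0, 0, 0, 0, 0, 0;
     0, 0, 0, 0, 0, 0, 0;
     0, 0, 0, 0, 0, 0, 0;
     y, 0, 0, 0, 0, 0, 0;
     0, 0, 0, 0, 0, 0, 0;
     x, 0, 0, 0, 0, 0, 0;
     0, 0, 0, 0, 0, 0, 0]

theorem E2_eq (x y : k) : E2 x y = x • E2 1 0 + y • E2 0 1 := by
  ext i j
  fin_cases i <;> fin_cases j <;> simp [E2]

theorem JJ : J421 k * J421 k = J2 k := by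
  ext i j
  fin_cases i <;> fin_cases j <;> simp [J421, J2, Matrix.mul_apply, Fin.sum_univ_seven]

theorem JJ2 : J421 k * J2 k = E2 0 1 := by
  ext i j
  fin_cases i <;> fin_cases j <;> simp [J421, J2, E2, Matrix.mul_apply, Fin.sum_univ_seven]

theorem JE (x y : k) : J421 k * E2 x y = 0 := by
  ext i j
  fin_cases i <;> fin_cases j <;> simp [J421, E2, Matrix.mul_apply, Fin.sum_univ_seven]

theorem JB (be1 ga th et : k) : J421 k * B421 1 0 0 0 be1 ga 0 th et = E2 1 0 := by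
  ext i j
  fin_cases i <;> fin_cases j <;> simp [J421, B421, E2, Matrix.mul_apply, Fin.sum_univ_seven]

theorem JC (be1 ga th et : k) : J421 k * B421 0 0 1 0 be1 ga 0 th et = 0 := by
  ext i j
  fin_cases i <;> fin_cases j <;> simp [J421, B421, Matrix.mul_apply, Fin.sum_univ_seven]

theorem BB' (al al1 om be1 ga th et al' al1' om' be1' ga' th' et' : k) :
    B421 al al1 om 0 be1 ga 0 th et * B421 al' al1' om' 0 be1' ga' 0 th' et' =
      E2 (ga * al' + et * om') (be1 * al' + th * om') := by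
  ext i j
  fin_cases i <;> fin_cases j <;> simp [B421, E2, Matrix.mul_apply, Fin.sum_univ_seven]

theorem B_lin (al al1 om y1 y2 y3 y4 z1 z2 z3 z4 : k) :
    B421 al al1 om 0 (al * y1 + om * z1) (al * y2 + om * z2) 0 (al * y3 + om * z3)
      (al * y4 + om * z4) =
    al • B421 1 0 0 0 y1 y2 0 y3 y4 + om • B421 0 0 1 0 z1 z2 0 z3 z4 + al1 • E2 1 0 := by
  ext i j
  fin_cases i <;> fin_cases j <;> simp [B421, E2]

theorem poly_B {al al1 om be1 ga th et : k → k} (h1 : IsPoly al) (h2 : IsPoly al1)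
    (h3 : IsPoly om) (h4 : IsPoly be1) (h5 : IsPoly ga) (h6 : IsPoly th) (h7 : IsPoly et)
    (x y : Fin 7) : IsPoly fun s => B421 (al s) (al1 s) (om s) 0 (be1 s) (ga s) 0 (th s) (et s) x y := by
  have h0 : IsPoly fun _ : k => (0 : k) := IsPoly.const 0
  fin_cases x <;> fin_cases y <;> simp [B421, h0, h1, h2, h3, h4, h5, h6, h7]

theorem poly_TA {al al1 om be1 ga th et al' al1' om' be1' ga' th' et' : k → k} (h1 : IsPoly al)
    (h2 : IsPoly al1) (h3 : IsPoly om) (h4 : IsPoly be1) (h5 : IsPoly ga) (h6 : IsPoly th)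
    (h7 : IsPoly et) (h1' : IsPoly al')
    (h2' : IsPoly al1') (h3' : IsPoly om') (h4' : IsPoly be1') (h5' : IsPoly ga')
    (h6' : IsPoly th') (h7' : IsPoly et') :
    PolyFam fun s => TA (al s) (al1 s) (om s) (be1 s) (ga s) (th s) (et s) (al' s) (al1' s)
      (om' s) (be1' s) (ga' s) (th' s) (et' s) := by
  intro i x y
  fin_cases i
  · exact IsPoly.const (J421 k x y)
  · exact poly_B h1 h2 h3 h4 h5 h6 h7 x y
  · exact poly_B h1' h2' h3' h4' h5' h6' h7' x y

/-- linear functions -/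
theorem poly_lin (a b : k) : IsPoly fun s => a + s * b :=
  IsPoly.add (IsPoly.const a) (IsPoly.mul IsPoly.id (IsPoly.const b))

variable {ρ : ℕ → ℕ}

theorem rel_TA {al al1 om be1 ga th et al' al1' om' be1' ga' th' et' : k}
    (hT : MaxR ρ (TA al al1 om be1 ga th et al' al1' om' be1' ga' th' et')) :
    al' * ga + om' * et = al * ga' + om * et' ∧ al' * be1 + om' * th = al * be1' + om * th' :=
  rel_of_comm (hT.cn.1 1 2)

theorem mem_N {y1 y2 y3 y4 z1 z2 z3 z4 : k} (x x1 y : k) (M : Matrix (Fin 7) (Fin 7) k)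
    (h : M = x • B421 1 0 0 0 y1 y2 0 y3 y4 + y • B421 0 0 1 0 z1 z2 0 z3 z4 + x1 • E2 1 0) :
    M ∈ adj (TA 1 0 0 y1 y2 y3 y4 0 0 1 z1 z2 z3 z4) := by
  have m0 : J421 k ∈ adj (TA 1 0 0 y1 y2 y3 y4 0 0 1 z1 z2 z3 z4) := mem_adj _ 0
  have m1 : B421 1 0 0 0 y1 y2 0 y3 y4 ∈ adj (TA 1 0 0 y1 y2 y3 y4 0 0 1 z1 z2 z3 z4) :=
    mem_adj _ 1
  have m2 : B421 0 0 1 0 z1 z2 0 z3 z4 ∈ adj (TA 1 0 0 y1 y2 y3 y4 0 0 1 z1 z2 z3 z4) :=
    mem_adj _ 2
  have m3 : E2 1 0 ∈ adj (TA 1 0 0 y1 y2 y3 y4 0 0 1 z1 z2 z3 z4) := by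
    rw [← JB y1 y2 y3 y4]
    exact mul_mem m0 m1
  rw [h]
  exact add_mem (add_mem (SMulMemClass.smul_mem x m1) (SMulMemClass.smul_mem y m2))
      (SMulMemClass.smul_mem x1 m3)

theorem TA0 (al al1 om be1 ga th et al' al1' om' be1' ga' th' et' : k) :
    TA al al1 om be1 ga th et al' al1' om' be1' ga' th' et' 0 = J421 k := by
  rw [TA, Matrix.cons_val_zero]

theorem TA1 (al al1 om be1 ga th et al' al1' om' be1' ga' th' et' : k) :
    TA al al1 om be1 ga th et al' al1' om' be1' ga' th' et' 1 =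
      B421 al al1 om 0 be1 ga 0 th et := by
  rw [TA, Matrix.cons_val_one, Matrix.cons_val_zero]

theorem TA2 (al al1 om be1 ga th et al' al1' om' be1' ga' th' et' : k) :
    TA al al1 om be1 ga th et al' al1' om' be1' ga' th' et' 2 =
      B421 al' al1' om' 0 be1' ga' 0 th' et' := by
  simp only [TA, Matrix.cons_val]

/-- the change of the triple -/
theorem mem_change {al al1 om al' al1' om' y1 y2 y3 y4 z1 z2 z3 z4 : k} (i : Fin 3) :
    TA al al1 om (al * y1 + om * z1) (al * y2 + om * z2) (al * y3 + om * z3)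
      (al * y4 + om * z4) al' al1' om' (al' * y1 + om' * z1) (al' * y2 + om' * z2)
      (al' * y3 + om' * z3) (al' * y4 + om' * z4) i ∈
    adj (TA 1 0 0 y1 y2 y3 y4 0 0 1 z1 z2 z3 z4) := by
  have h1 := mem_N al al1 om _ (B_lin al al1 om y1 y2 y3 y4 z1 z2 z3 z4)
  have h2 := mem_N al' al1' om' _ (B_lin al' al1' om' y1 y2 y3 y4 z1 z2 z3 z4)
  have h0 := mem_adj (TA 1 0 0 y1 y2 y3 y4 0 0 1 z1 z2 z3 z4) 0
  rw [TA0] at h0
  match i with
  | 0 => rw [TA0]; exact h0
  | 1 => rw [TA1]; exact h1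
  | 2 => rw [TA2]; exact h2

theorem step3 {al al1 om be1 ga th et al' al1' om' be1' ga' th' et' : k}
    (hT : MaxR ρ (TA al al1 om be1 ga th et al' al1' om' be1' ga' th' et'))
    (hΔ : al * om' - om * al' ≠ 0) :
    ∃ be ga b g th et : k, MaxR ρ (TA 1 0 0 be ga b g 0 0 1 b g th et) := by
  obtain ⟨r1, r2⟩ := rel_TA hT
  obtain ⟨Δ, hΔd⟩ : ∃ Δ, Δ = al * om' - om * al' := ⟨_, rfl⟩
  rw [← hΔd] at hΔ
  obtain ⟨be2, hbe2⟩ : ∃ x, x = (om' * be1 - om * be1') / Δ := ⟨_, rfl⟩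
  obtain ⟨ga2, hga2⟩ : ∃ x, x = (om' * ga - om * ga') / Δ := ⟨_, rfl⟩
  obtain ⟨b2, hb2⟩ : ∃ x, x = (om' * th - om * th') / Δ := ⟨_, rfl⟩
  obtain ⟨g2, hg2⟩ : ∃ x, x = (om' * et - om * et') / Δ := ⟨_, rfl⟩
  obtain ⟨th2, hth2⟩ : ∃ x, x = (al * th' - al' * th) / Δ := ⟨_, rfl⟩
  obtain ⟨et2, het2⟩ : ∃ x, x = (al * et' - al' * et) / Δ := ⟨_, rfl⟩
  have q1 : al * be2 + om * b2 = be1 := by
    rw [hbe2, hb2]; field_simp; rw [hΔd]; linear_combination om * r2
  have q2 : al * ga2 + om * g2 = ga := by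
    rw [hga2, hg2]; field_simp; rw [hΔd]; linear_combination om * r1
  have q3 : al * b2 + om * th2 = th := by
    rw [hb2, hth2]; field_simp; rw [hΔd]; ring
  have q4 : al * g2 + om * et2 = et := by
    rw [hg2, het2]; field_simp; rw [hΔd]; ring
  have q5 : al' * be2 + om' * b2 = be1' := by
    rw [hbe2, hb2]; field_simp; rw [hΔd]; linear_combination om' * r2
  have q6 : al' * ga2 + om' * g2 = ga' := by
    rw [hga2, hg2]; field_simp; rw [hΔd]; linear_combination om' * r1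
  have q7 : al' * b2 + om' * th2 = th' := by
    rw [hb2, hth2]; field_simp; rw [hΔd]; ring
  have q8 : al' * g2 + om' * et2 = et' := by
    rw [hg2, het2]; field_simp; rw [hΔd]; ring
  refine ⟨be2, ga2, b2, g2, th2, et2, hT.change (cn_TA (by ring) (by ring)) fun i => ?_⟩
  rw [← q1, ← q2, ← q3, ← q4, ← q5, ← q6, ← q7, ← q8]
  exact mem_change i

theorem step2 [Infinite k] {al al1 om be1 ga th et al' al1' om' be1' ga' th' et' : k}
    (hT : MaxR ρ (TA al al1 om be1 ga th et al' al1' om' be1' ga' th' et'))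
    (h : al' ≠ 0 ∨ om' ≠ 0) :
    ∃ be ga b g th et : k, MaxR ρ (TA 1 0 0 be ga b g 0 0 1 b g th et) := by
  obtain ⟨r1, r2⟩ := rel_TA hT
  obtain ⟨p1, p2, e1, e2, hp, he⟩ : ∃ p1 p2 e1 e2 : k, p1 * al' + p2 * om' = 1 ∧
      e1 * om' - e2 * al' ≠ 0 := by
    rcases h with h | h
    · exact ⟨1 / al', 0, 0, 1, by field_simp; ring, by simpa using h⟩
    · exact ⟨0, 1 / om', 1, 0, by field_simp; ring, by simpa using h⟩
  obtain ⟨E', hE', hm⟩ := hT.deform
    (fun s => TA (al + s * e1) al1 (om + s * e2) (be1 + s * (p1 * (be1' * e1 + th' * e2)))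
      (ga + s * (p1 * (ga' * e1 + et' * e2))) (th + s * (p2 * (be1' * e1 + th' * e2)))
      (et + s * (p2 * (ga' * e1 + et' * e2))) al' al1' om' be1' ga' th' et')
    (poly_TA (poly_lin _ _) (IsPoly.const _) (poly_lin _ _) (poly_lin _ _) (poly_lin _ _)
      (poly_lin _ _) (poly_lin _ _) (IsPoly.const _) (IsPoly.const _) (IsPoly.const _)
      (IsPoly.const _) (IsPoly.const _) (IsPoly.const _) (IsPoly.const _))
    (by simp) (Set.finite_empty) (fun s _ => cn_TA
      (by linear_combination r1 + s * (ga' * e1 + et' * e2) * hp)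
      (by linear_combination r2 + s * (be1' * e1 + th' * e2) * hp))
  have hf : {s : k | (al * om' - om * al') + s * (e1 * om' - e2 * al') = 0}.Finite := by
    by_cases h0 : al * om' - om * al' = 0
    · refine IsPoly.finite (poly_lin _ _) (s₁ := 1) ?_
      rw [h0, one_mul, zero_add]
      exact he
    · refine IsPoly.finite (poly_lin _ _) (s₁ := 0) ?_
      rw [zero_mul, add_zero]
      exact h0
  obtain ⟨s, hs⟩ := (hE'.union hf).exists_notMem
  rw [Set.mem_union, not_or] at hs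
  exact step3 (hm s hs.1) (fun h => hs.2 (by
    show (al * om' - om * al') + s * (e1 * om' - e2 * al') = 0
    linear_combination h))

theorem swap_TA {al al1 om be1 ga th et al' al1' om' be1' ga' th' et' : k}
    (hT : MaxR ρ (TA al al1 om be1 ga th et al' al1' om' be1' ga' th' et')) :
    MaxR ρ (TA al' al1' om' be1' ga' th' et' al al1 om be1 ga th et) := by
  obtain ⟨r1, r2⟩ := rel_TA hT
  have h0 := mem_adj (TA al' al1' om' be1' ga' th' et' al al1 om be1 ga th et) 0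
  have h1 := mem_adj (TA al' al1' om' be1' ga' th' et' al al1 om be1 ga th et) 1
  have h2 := mem_adj (TA al' al1' om' be1' ga' th' et' al al1 om be1 ga th et) 2
  rw [TA0] at h0
  rw [TA1] at h1
  rw [TA2] at h2
  refine hT.change (cn_TA r1.symm r2.symm) fun i => ?_
  match i with
  | 0 => rw [TA0]; exact h0
  | 1 => rw [TA1]; exact h2
  | 2 => rw [TA2]; exact h1

/-- two equations in four unknowns -/
theorem sol (a b c d a' b' c' d' : k) : ∃ x y x' y' : k, (x ≠ 0 ∨ y ≠ 0 ∨ x' ≠ 0 ∨ y' ≠ 0) ∧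
    x' * a + y' * b = x * a' + y * b' ∧ x' * c + y' * d = x * c' + y * d' := by
  by_cases hD : a * d - b * c = 0
  · by_cases ha : a = 0 ∧ b = 0
    · by_cases hc : c = 0 ∧ d = 0
      · refine ⟨0, 0, 1, 0, by simp, ?_, ?_⟩
        · rw [ha.1]; ring
        · rw [hc.1]; ring
      · refine ⟨0, 0, d, -c, ?_, ?_, by ring⟩
        · rw [not_and_or] at hc
          rcases hc with hc | hc
          · right; right; right; exact neg_ne_zero.2 hc
          · right; right; left; exact hc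
        · rw [ha.1, ha.2]; ring
    · refine ⟨0, 0, b, -a, ?_, by ring, by linear_combination - hD⟩
      rw [not_and_or] at ha
      rcases ha with ha | ha
      · right; right; right; exact neg_ne_zero.2 ha
      · right; right; left; exact ha
  · exact ⟨a * d - b * c, 0, d * a' - b * c', a * c' - c * a', Or.inl hD, by ring, by ring⟩

theorem step1 [Infinite k] {al al1 om be1 ga th et al' al1' om' be1' ga' th' et' : k}
    (hT : MaxR ρ (TA al al1 om be1 ga th et al' al1' om' be1' ga' th' et')) :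
    ∃ be ga b g th et : k, MaxR ρ (TA 1 0 0 be ga b g 0 0 1 b g th et) := by
  by_cases h1 : al' ≠ 0 ∨ om' ≠ 0
  · exact step2 hT h1
  by_cases h2 : al ≠ 0 ∨ om ≠ 0
  · exact step2 (swap_TA hT) h2
  push Not at h1 h2
  obtain ⟨x, y, x', y', hne, s1, s2⟩ := sol ga et be1 th ga' et' be1' th'
  obtain ⟨E', hE', hm⟩ := hT.deform
    (fun s => TA (0 + s * x) al1 (0 + s * y) be1 ga th et (0 + s * x') al1' (0 + s * y')
      be1' ga' th' et')
    (poly_TA (poly_lin _ _) (IsPoly.const _) (poly_lin _ _) (IsPoly.const _) (IsPoly.const _)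
      (IsPoly.const _) (IsPoly.const _) (poly_lin _ _) (IsPoly.const _) (poly_lin _ _)
      (IsPoly.const _) (IsPoly.const _) (IsPoly.const _) (IsPoly.const _))
    (by simp [h1.1, h1.2, h2.1, h2.2]) (Set.finite_empty) (fun s _ => cn_TA
      (by linear_combination s * s1)
      (by linear_combination s * s2))
  obtain ⟨s, hs⟩ := (hE'.union (Set.finite_singleton (0 : k))).exists_notMem
  rw [Set.mem_union, not_or, Set.mem_singleton_iff] at hs
  have hs0 : ∀ z : k, z ≠ 0 → 0 + s * z ≠ 0 := fun z hz => by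
    rw [zero_add]
    exact mul_ne_zero hs.2 hz
  have hm' := hm s hs.1
  rcases hne with h | h | h | h
  · exact step2 (swap_TA hm') (Or.inl (hs0 _ h))
  · exact step2 (swap_TA hm') (Or.inr (hs0 _ h))
  · exact step2 hm' (Or.inl (hs0 _ h))
  · exact step2 hm' (Or.inr (hs0 _ h))

/-- the four generic conditions -/
def Gen (be ga b g th et : k) : k :=
  (ga * et - g ^ 2) * (g * th - et * b) *
    ((et * be - ga * th) ^ 2 - 4 * (g * th - et * b) * (ga * b - g * be)) *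
    (((g * th - et * b) * ga - (ga * b - g * be) * et) ^ 2 +
      (2 * g * (g * th - et * b) + (et * be - ga * th) * et) *
      ((et * be - ga * th) * ga + 2 * g * (ga * b - g * be)))

theorem poly_Gen {be ga b g th et : k → k} (h1 : IsPoly be) (h2 : IsPoly ga) (h3 : IsPoly b)
    (h4 : IsPoly g) (h5 : IsPoly th) (h6 : IsPoly et) :
    IsPoly fun s => Gen (be s) (ga s) (b s) (g s) (th s) (et s) := by
  obtain ⟨p1, q1⟩ := h1
  obtain ⟨p2, q2⟩ := h2
  obtain ⟨p3, q3⟩ := h3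
  obtain ⟨p4, q4⟩ := h4
  obtain ⟨p5, q5⟩ := h5
  obtain ⟨p6, q6⟩ := h6
  refine ⟨(p2 * p6 - p4 ^ 2) * (p4 * p5 - p6 * p3) *
    ((p6 * p1 - p2 * p5) ^ 2 - Polynomial.C 4 * (p4 * p5 - p6 * p3) * (p2 * p3 - p4 * p1)) *
    (((p4 * p5 - p6 * p3) * p2 - (p2 * p3 - p4 * p1) * p6) ^ 2 +
      (Polynomial.C 2 * p4 * (p4 * p5 - p6 * p3) + (p6 * p1 - p2 * p5) * p6) *
      ((p6 * p1 - p2 * p5) * p2 + Polynomial.C 2 * p4 * (p2 * p3 - p4 * p1))), fun s => ?_⟩
  simp only [Gen, q1, q2, q3, q4, q5, q6, Polynomial.eval_mul, Polynomial.eval_sub,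
    Polynomial.eval_add, Polynomial.eval_pow, Polynomial.eval_C]

theorem step4 [CharZero k] [Infinite k] {be ga b g th et : k}
    (hT : MaxR ρ (TA 1 0 0 be ga b g 0 0 1 b g th et)) :
    ∃ be ga b g th et : k, MaxR ρ (TA 1 0 0 be ga b g 0 0 1 b g th et) ∧
      Gen be ga b g th et ≠ 0 := by
  obtain ⟨E', hE', hm⟩ := hT.deform
    (fun s => TA 1 0 0 (be + s * (0 - be)) (ga + s * (1 - ga)) (b + s * (1 - b))
      (g + s * (0 - g)) 0 0 1 (b + s * (1 - b)) (g + s * (0 - g)) (th + s * (0 - th))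
      (et + s * (1 - et)))
    (poly_TA (IsPoly.const _) (IsPoly.const _) (IsPoly.const _) (poly_lin _ _) (poly_lin _ _)
      (poly_lin _ _) (poly_lin _ _) (IsPoly.const _) (IsPoly.const _) (IsPoly.const _)
      (poly_lin _ _) (poly_lin _ _) (poly_lin _ _) (poly_lin _ _))
    (by simp) (Set.finite_empty) (fun s _ => cn_TA (by ring) (by ring))
  have hf : {s : k | Gen (be + s * (0 - be)) (ga + s * (1 - ga)) (b + s * (1 - b))
      (g + s * (0 - g)) (th + s * (0 - th)) (et + s * (1 - et)) = 0}.Finite := by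
    refine IsPoly.finite (poly_Gen (poly_lin _ _) (poly_lin _ _) (poly_lin _ _) (poly_lin _ _)
      (poly_lin _ _) (poly_lin _ _)) (s₁ := 1) ?_
    have e : Gen (be + 1 * (0 - be)) (ga + 1 * (1 - ga)) (b + 1 * (1 - b))
      (g + 1 * (0 - g)) (th + 1 * (0 - th)) (et + 1 * (1 - et)) = -16 := by
      unfold Gen
      ring
    rw [e]
    norm_num
  obtain ⟨s, hs⟩ := (hE'.union hf).exists_notMem
  rw [Set.mem_union, not_or] at hs
  exact ⟨_, _, _, _, _, _, hm s hs.1, hs.2⟩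

end triples

/-! ### the last change of basis -/

section last

variable {k : Type*} [Field k]

theorem tab_N (be ga b g th et : k) :
    Tab be ga b g th et (J421 k) (B421 1 0 0 0 be ga 0 b g) (B421 0 0 1 0 b g 0 th et) := by
  have hq : J421 k * (J421 k * J421 k) = E2 0 1 := by rw [JJ, JJ2]
  refine ⟨(comm_J _ _ _ _ _ _ _).symm, JC _ _ _ _, ?_, ?_, ?_, ?_, ?_, ?_, ?_⟩
  · rw [← comm_J, JC]
  · rw [BB', BB']
    congr 1 <;> ring
  · rw [JB, JE]
  · rw [BB', JB, hq, E2_eq]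
    congr 2 <;> ring
  · rw [BB', JB, hq, E2_eq]
    congr 2 <;> ring
  · rw [BB', JB, hq, E2_eq]
    congr 2 <;> ring
  · rw [hq, JE]

/-- the new basis -/
def HH (a c m1 l1 m2 l2 r1 r2 nu al p1 p2 q1 q2 : k) : Matrix (Fin 7) (Fin 7) k :=
  Matrix.of fun i j => (![![1, 0, 0, 0, 0, 0, 0], ![0, 1, 0, 0, a, 0, c], ![0, 0, 1, nu, 0, al, 0],
      ![0, 0, m1, 0, l1, 0, r1], ![0, 0, m2, 0, l2, 0, r2], ![0, 0, 0, p1, 0, q1, 0],
      ![0, 0, 0, p2, 0, q2, 0]] : Fin 7 → Fin 7 → k) j i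

theorem det_HH {a c m1 l1 m2 l2 r1 r2 nu al p1 p2 q1 q2 : k} (h1 : l1 * r2 - l2 * r1 ≠ 0)
    (h2 : p1 * q2 - p2 * q1 ≠ 0) : IsUnit (HH a c m1 l1 m2 l2 r1 r2 nu al p1 p2 q1 q2).det := by
  rw [isUnit_iff_ne_zero]
  intro hdet
  obtain ⟨w, hw, hz⟩ := Matrix.exists_mulVec_eq_zero_iff.2 hdet
  apply hw
  have e0 := congrFun hz 0
  have e1 := congrFun hz 1
  have e2 := congrFun hz 2
  have e3 := congrFun hz 3
  have e4 := congrFun hz 4
  have e5 := congrFun hz 5
  have e6 := congrFun hz 6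
  simp [HH, Matrix.mulVec, dotProduct, Fin.sum_univ_seven] at e0 e1 e2 e3 e4 e5 e6
  rw [e1, mul_zero, zero_add] at e4 e6
  have f3 : w 3 = 0 := by
    have : (l1 * r2 - l2 * r1) * w 3 = 0 := by linear_combination r2 * e4 - l2 * e6
    exact (mul_eq_zero.1 this).resolve_left h1
  have f4 : w 4 = 0 := by
    have : (l1 * r2 - l2 * r1) * w 4 = 0 := by linear_combination l1 * e6 - r1 * e4
    exact (mul_eq_zero.1 this).resolve_left h1
  have f2 : w 2 = 0 := by
    rw [f3, f4] at e2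
    linear_combination e2
  rw [f2, mul_zero, zero_add] at e3 e5
  have f5 : w 5 = 0 := by
    have : (p1 * q2 - p2 * q1) * w 5 = 0 := by linear_combination q2 * e3 - p2 * e5
    exact (mul_eq_zero.1 this).resolve_left h2
  have f6 : w 6 = 0 := by
    have : (p1 * q2 - p2 * q1) * w 6 = 0 := by linear_combination p1 * e5 - q1 * e3
    exact (mul_eq_zero.1 this).resolve_left h2
  funext i
  fin_cases i
  · exact e0
  · exact e1
  · exact f2
  · exact f3
  · exact f4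
  · exact f5
  · exact f6

theorem single_eq : (Pi.single 0 1 : Fin 7 → k) = ![1, 0, 0, 0, 0, 0, 0] := by
  funext i
  fin_cases i <;> simp

theorem cols_eq {X Y Z X2 Y2 Z2 : Matrix (Fin 7) (Fin 7) k} {cx cy cz cx2 cy2 cz2 : Fin 7 → k}
    (h1 : X * X = X2) (h2 : Y * Y = Y2) (h3 : Z * Z = Z2) (e1 : ∀ i, X i 0 = cx i)
    (e2 : ∀ i, X2 i 0 = cx2 i) (e3 : ∀ i, Y i 0 = cy i) (e4 : ∀ i, Z i 0 = cz i)
    (e5 : ∀ i, Y2 i 0 = cy2 i) (e6 : ∀ i, Z2 i 0 = cz2 i) :
    cols X Y Z (Pi.single 0 1) = Matrix.of fun i j =>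
      (![![1, 0, 0, 0, 0, 0, 0], cx, cx2, cy, cz, cy2, cz2] : Fin 7 → Fin 7 → k) j i := by
  have g1 : X *ᵥ (X *ᵥ Pi.single 0 1) = X2 *ᵥ Pi.single 0 1 := by
    rw [Matrix.mulVec_mulVec, h1]
  have g2 : Y *ᵥ (Y *ᵥ Pi.single 0 1) = Y2 *ᵥ Pi.single 0 1 := by
    rw [Matrix.mulVec_mulVec, h2]
  have g3 : Z *ᵥ (Z *ᵥ Pi.single 0 1) = Z2 *ᵥ Pi.single 0 1 := by
    rw [Matrix.mulVec_mulVec, h3]
  have k1 : X *ᵥ Pi.single 0 1 = cx := by
    rw [Matrix.mulVec_single_one]; exact funext e1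
  have k2 : X2 *ᵥ Pi.single 0 1 = cx2 := by
    rw [Matrix.mulVec_single_one]; exact funext e2
  have k3 : Y *ᵥ Pi.single 0 1 = cy := by
    rw [Matrix.mulVec_single_one]; exact funext e3
  have k4 : Z *ᵥ Pi.single 0 1 = cz := by
    rw [Matrix.mulVec_single_one]; exact funext e4
  have k5 : Y2 *ᵥ Pi.single 0 1 = cy2 := by
    rw [Matrix.mulVec_single_one]; exact funext e5
  have k6 : Z2 *ᵥ Pi.single 0 1 = cz2 := by
    rw [Matrix.mulVec_single_one]; exact funext e6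
  rw [cols, g1, g2, g3, k1, k2, k3, k4, k5, k6, single_eq]

theorem colX (be ga b g th et a c : k) (i : Fin 7) :
    (J421 k + a • B421 1 0 0 0 be ga 0 b g + c • B421 0 0 1 0 b g 0 th et) i 0 =
      (![0, 1, 0, 0, a, 0, c] : Fin 7 → k) i := by
  fin_cases i <;> simp [J421, B421]

theorem colX2 (x y : k) (i : Fin 7) :
    (J2 k + x • E2 1 0 + y • E2 0 1 : Matrix (Fin 7) (Fin 7) k) i 0 = (![0, 0, 1, y, 0, x, 0] : Fin 7 → k) i := by
  fin_cases i <;> simp [J2, E2]

theorem colY (be ga b g th et l r ρ : k) (i : Fin 7) :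
    (l • (B421 1 0 0 0 be ga 0 b g - r • B421 0 0 1 0 b g 0 th et - ρ • J2 k)) i 0 =
      (![0, 0, -(l * ρ), 0, l, 0, -(l * r)] : Fin 7 → k) i := by
  fin_cases i <;> simp [J2, B421]

theorem colY2 (x y : k) (i : Fin 7) :
    (x • E2 1 0 + y • E2 0 1 : Matrix (Fin 7) (Fin 7) k) i 0 = (![0, 0, 0, y, 0, x, 0] : Fin 7 → k) i := by
  fin_cases i <;> simp [E2]

/-- abbreviations -/
def fX (be ga b g th et a c : k) : Matrix (Fin 7) (Fin 7) k :=
  J421 k + a • B421 1 0 0 0 be ga 0 b g + c • B421 0 0 1 0 b g 0 th et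

/-- abbreviations -/
def fY (be ga b g th et l r ρ : k) : Matrix (Fin 7) (Fin 7) k :=
  l • (B421 1 0 0 0 be ga 0 b g - r • B421 0 0 1 0 b g 0 th et - ρ • J2 k)

theorem full_N (be ga b g th et : k) :
    Full be ga b g th et (J421 k) (B421 1 0 0 0 be ga 0 b g) (B421 0 0 1 0 b g 0 th et)
      (J2 k) (E2 1 0) (E2 0 1) := by
  have F := (tab_N be ga b g th et).full
  rw [JB, JJ, JJ2] at F
  exact F

theorem cols_fin (be ga b g th et a c r r' ρ ρ' l l' : k) :
    cols (fX be ga b g th et a c) (fY be ga b g th et l r ρ) (fY be ga b g th et l' r' ρ')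
      (Pi.single 0 1) = HH a c (-(l * ρ)) l (-(l' * ρ')) l' (-(l * r)) (-(l' * r'))
      (a ^ 2 * be + 2 * a * c * b + c ^ 2 * th)
      (2 * a + a ^ 2 * ga + 2 * a * c * g + c ^ 2 * et)
      (l ^ 2 * (be - 2 * b * r + th * r ^ 2)) (l' ^ 2 * (be - 2 * b * r' + th * r' ^ 2))
      (l ^ 2 * (ga - 2 * g * r + et * r ^ 2)) (l' ^ 2 * (ga - 2 * g * r' + et * r' ^ 2)) := by
  have F := full_N be ga b g th et
  rw [fX, fY, fY, cols_eq (F.xx a c) (F.yy r ρ l) (F.yy r' ρ' l') (colX be ga b g th et a c) (colX2 _ _)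
    (colY be ga b g th et l r ρ) (colY be ga b g th et l' r' ρ') (colY2 _ _) (colY2 _ _)]
  rfl

end last

end T421bAux

end Pool.Agent.Lib.D7
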