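import Pool.Agent.Lib.D7.Warm

/-!
# Units
-/

set_option autoImplicit false

namespace Pool.Agent.D7

open Pool.Agent.D6

/-- The start of a unit. -/
structure US (Γ : ℝ) (b : ℕ) (t : St) : Prop where
  inv : Inv t
  h0 : 0 ≤ gH t
  h1 : 100 * gH t ≤ 39 * gG t
  z : gZ t ≤ 2 * gG t
  g : Γ * 2 ^ b ≤ gG t

/-- The special condition at the start of a unit. -/
structure SP (σ K : ℝ) (b : ℕ) (t : St) : Prop where
  h : σ * gG t ≤ gH t
  lo : σ * gG t - K * b ≤ gZ t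
  up : gZ t ≤ σ * gG t + gG t / 2 ^ b + K * b

/-- The last digit of a unit. -/
def dC (m : ℕ) : Dg := ⟨m, 0, 1⟩

theorem dC_ok {m : ℕ} (hm : 2 ≤ m) : (dC m).Ok m :=
  ⟨hm, le_rfl, Nat.zero_le _, by change 1 ≤ m; omega, Or.inl rfl⟩

/-- A unit. -/
def un (m : ℕ) (w : ℕ → List Dg) (c : Bool) (b : ℕ) : List Dg := wu c ++ (bl w b ++ [dC m])

/-- The ranges of the rays. -/
structure Rng (P : Pm) (T : Tr) : Prop extends Crt P T where
  l10 : P.γ ≤ 10 * P.lo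
  l18 : 100 * P.lo ≤ 18 * P.γ
  h19 : 19 * P.γ ≤ 100 * P.hi
  h39 : 100 * P.hi ≤ 39 * P.γ
  tp : ∀ κ θ : ℝ, InK P κ θ → θ ≤ 0.8 + 0.17 * κ

theorem unit_run {P : Pm} {T : Tr} (hP : Rng P T) {σ C : ℝ} (hσ : 0 < σ) (hσ5 : σ ≤ 1 / 5)
    (hC0 : 0 ≤ C)
    (hC : ∀ l ∈ T.words, (∀ d ∈ l, d.Ok P.N) → RW σ P.sn P.sd P.γ P.N l 1 0 C)
    {w : ℕ → List Dg} {f : ℕ → ℝ × ℝ}
    (hf : ∀ k, InK P (f k).1 (f k).2) (hw : ∀ k, Bk P T (w k) (f k).1 (f k).2)
    (hs : ∀ k, f (k + 1) = (pk (w k) (f k).1 (f k).2, pt (w k) (f k).1 (f k).2))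
    {m : ℕ} (hm : 2 ≤ m) (hmσ : 2 * m * σ ≤ 1) (hf0 : f 0 = (σ, 2 * m * σ))
    {K Γ : ℝ} (hK : C + 2 * Er m ≤ K) (g1 : 100000 ≤ Γ) (g2 : (P.γ * (P.γ + P.hi) : ℝ) * C ≤ Γ)
    (g3 : 100 * K ≤ σ * Γ) (b : ℕ) (c : Bool) {t : St} (ht : US Γ b t) :
    US Γ (b + 1) (run (un m w c b) t) ∧ SP σ K (b + 1) (run (un m w c b) t) ∧
    (SP σ K b t → Wd σ (-(K * (b + 1))) (2 ^ b) (un m w c b) t) := by
  have hE := (Er_pos m).le
  have hK0 : 0 ≤ K := by linarith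
  obtain ⟨p, hp⟩ : ∃ p : ℝ, p = 2 ^ b := ⟨_, rfl⟩
  have hp1 : 1 ≤ p := by rw [hp]; exact one_le_pow₀ (by norm_num)
  have hbp : (b : ℝ) + 1 ≤ p := by
    have : b + 1 ≤ 2 ^ b := Nat.lt_two_pow_self
    rw [hp]; exact_mod_cast this
  have hb0 : (0 : ℝ) ≤ b := Nat.cast_nonneg _
  have hg := ht.g
  rw [← hp] at hg
  have hΓp : Γ ≤ Γ * p := le_mul_of_one_le_right (by linarith) hp1
  have hG : 100000 ≤ gG t := by linarith
  have we := wu_end c ht.inv ht.h0 ht.h1 ht.z hG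
  obtain ⟨s, hseq⟩ : ∃ s, s = run (wu c) t := ⟨_, rfl⟩
  rw [← hseq] at we
  have hγ : (0 : ℝ) < P.γ := by exact_mod_cast hP.γ
  have l10 : (P.γ : ℝ) ≤ 10 * P.lo := by exact_mod_cast hP.l10
  have l18 : 100 * (P.lo : ℝ) ≤ 18 * P.γ := by exact_mod_cast hP.l18
  have h19 : 19 * (P.γ : ℝ) ≤ 100 * P.hi := by exact_mod_cast hP.h19
  have h39 : 100 * (P.hi : ℝ) ≤ 39 * P.γ := by exact_mod_cast hP.h39
  have sG : gG t * 300 ≤ gG s := by linarith [we.g]
  have sG0 : 0 ≤ gG s := by linarith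
  have hr : InR P s := by
    constructor
    · have e1 := mul_le_mul_of_nonneg_right l18 sG0
      have e2 := mul_le_mul_of_nonneg_left we.l hγ.le
      linarith
    · have e1 := mul_le_mul_of_nonneg_right h19 sG0
      have e2 := mul_le_mul_of_nonneg_left we.h hγ.le
      linarith
  obtain ⟨w1, w2, w3, w4, w5⟩ := blk_run hP.toCrt hC0 hC hf hw hs b s we.inv hr
    (by linarith) sG0
  obtain ⟨k1, k2, k3, k4⟩ := hP.bd _ _ (hf b)
  have k5 := hP.tp _ _ (hf b)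
  have F0 : 0 ≤ Fn (f b).1 (f b).2 s := by
    unfold Fn
    have e1 := mul_nonneg (sub_nonneg.2 k2) (sub_nonneg.2 we.z)
    have e2 := mul_nonneg k1 (sub_nonneg.2 we.zh)
    have e3 := mul_le_mul_of_nonneg_right k5 sG0
    linarith
  have sH0 : 0 ≤ gH s := by linarith [we.l]
  have F1 : Fn (f b).1 (f b).2 s ≤ 1.01 * gG s := by
    unfold Fn
    have e1 := mul_nonneg (sub_nonneg.2 k2) sH0
    have e2 := mul_nonneg k3 sG0
    linarith [we.up]
  obtain ⟨F, hF⟩ : ∃ F, F = Fn (f b).1 (f b).2 s := ⟨_, rfl⟩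
  rw [← hF] at F0 F1 w1 w2
  obtain ⟨r, hreq⟩ : ∃ r, r = run (bl w b) s := ⟨_, rfl⟩
  rw [← hreq] at w2 w3 w4 w5
  rw [← hp] at w4
  have e0 : Fn (f 0).1 (f 0).2 r = gZ r + σ * gH r - 2 * m * σ * gG r := by
    unfold Fn; rw [hf0]
  rw [e0, abs_le] at w2
  obtain ⟨x1, x2, x3⟩ := est w5 (dC_ok hm)
  have ha : (((dC m).a : ℤ) : ℝ) = 2 * m := by simp [Dg.a, dC]
  have hs' : (((dC m).s : ℤ) : ℝ) = 1 := by simp [Dg.s, dC]
  have hj : (((dC m).j : ℕ) : ℝ) = 0 := by simp [dC]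
  rw [ha, abs_le] at x1
  rw [hs', abs_le] at x2
  rw [hj, abs_le] at x3
  obtain ⟨q, hq⟩ : ∃ q, q = nx (dC m) r := ⟨_, rfl⟩
  have hqi : Inv q := by rw [hq]; exact inv_nx w5 (dC_ok hm)
  rw [← hq] at x1 x2 x3
  have hrun : run (un m w c b) t = q := by
    rw [un, run_append, run_append, ← hseq, ← hreq, hq]; rfl
  -- sizes
  have hCb : C * b + 2 * Er m ≤ K * (b + 1) := by
    have := mul_nonneg (by linarith : 0 ≤ K - C) hb0
    linarith
  have hKp : K * (b + 1) ≤ K * p := mul_le_mul_of_nonneg_left hbp hK0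
  have hKΓ : 500 * K ≤ Γ := by
    have : σ * Γ ≤ 1 / 5 * Γ := mul_le_mul_of_nonneg_right hσ5 (by linarith)
    linarith
  have hKp2 : 500 * (K * p) ≤ Γ * p := by
    have := mul_le_mul_of_nonneg_right hKΓ (by linarith : 0 ≤ p)
    linarith
  have rG : p * gG s ≤ gG r := w4
  have rG1 : gG s ≤ gG r := by
    have := le_mul_of_one_le_left sG0 hp1
    linarith
  have rG0 : 0 ≤ gG r := by linarith
  have rGt : 300 * (p * gG t) ≤ gG r := by
    have := mul_le_mul_of_nonneg_left sG (by linarith : 0 ≤ p)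
    linarith
  have r10 : gG r ≤ 10 * gH r := by
    have e1 := mul_le_mul_of_nonneg_right l10 rG0
    have e2 := w3.1
    have e3 : P.γ * gG r ≤ P.γ * (10 * gH r) := by linarith
    exact le_of_mul_le_mul_left e3 hγ
  have r39 : 100 * gH r ≤ 39 * gG r := by
    have e1 := mul_le_mul_of_nonneg_right h39 rG0
    have e2 := w3.2
    have e3 : P.γ * (100 * gH r) ≤ P.γ * (39 * gG r) := by linarith
    exact le_of_mul_le_mul_left e3 hγ
  have hm4 : 4 * gG r ≤ 2 * m * gG r := by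
    have : (2 : ℝ) ≤ m := by exact_mod_cast hm
    have := mul_le_mul_of_nonneg_right this rG0
    linarith
  have hσr : 0 ≤ σ * gG r := mul_nonneg hσ.le rG0
  have hσh : 0 ≤ σ * gH r := mul_nonneg hσ.le (by linarith)
  have hσ4 : 4 * (σ * gG r) ≤ 2 * m * σ * gG r := by
    have := mul_le_mul_of_nonneg_left hm4 hσ.le
    linarith
  have hσ1 : 2 * m * σ * gG r ≤ gG r := by
    have := mul_le_mul_of_nonneg_right hmσ rG0
    linarith
  have hσ10 : σ * gG r ≤ 10 * (σ * gH r) := by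
    have := mul_le_mul_of_nonneg_left r10 hσ.le
    linarith
  have hσ39 : 100 * (σ * gH r) ≤ 39 * (σ * gG r) := by
    have := mul_le_mul_of_nonneg_left r39 hσ.le
    linarith
  have hσE : σ * Er m ≤ Er m := by
    have := mul_le_mul_of_nonneg_right (by linarith : σ ≤ 1) hE
    linarith
  have hσq : σ * gG q ≤ 2 * m * σ * gG r - σ * gH r + Er m := by
    have := mul_le_mul_of_nonneg_left x1.2 hσ.le
    linarith
  have hσq' : 2 * m * σ * gG r - σ * gH r - Er m ≤ σ * gG q := by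
    have := mul_le_mul_of_nonneg_left x1.1 hσ.le
    linarith
  have hΓr : 100 * K ≤ σ * gG r := by
    have : σ * Γ ≤ σ * gG r := mul_le_mul_of_nonneg_left (by linarith) hσ.le
    linarith
  have qG : 3 * gG r ≤ gG q := by linarith
  have hp2 : (2 : ℝ) ^ (b + 1) = 2 * p := by rw [hp, pow_succ]; ring
  have hcast : ((b + 1 : ℕ) : ℝ) = b + 1 := by push_cast; ring
  have hdiv : 1.5 * gG s ≤ gG q / (2 * p) := by
    rw [le_div_iff₀ (by linarith)]
    linarith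
  have hpt : gG t ≤ p * gG t := le_mul_of_one_le_left (by linarith) hp1
  rw [hrun]
  refine ⟨⟨hqi, by linarith, by linarith, by linarith, ?_⟩, ⟨by linarith, ?_, ?_⟩, ?_⟩
  · rw [hp2]
    linarith
  · rw [hcast]
    linarith
  · rw [hcast, hp2]
    linarith
  · intro sp
    rw [un, Wd_append, Wd_append, ← hseq, ← hreq]
    have hlo := sp.lo
    have hKb : 0 ≤ K * b := mul_nonneg hK0 hb0
    have v1 := wu_wd c ht.inv ht.h0 ht.h1 ht.z hG hσ.le hσ5 hKb sp.h sp.lo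
    have hCs : (C : ℝ) ≤ K := by linarith
    have hpΓ : p ≤ Γ * p := le_mul_of_one_le_left (by linarith) (by linarith)
    have hpΓ2 : 100000 * p ≤ Γ * p := mul_le_mul_of_nonneg_right g1 (by linarith)
    have hKK : K ≤ K * p := le_mul_of_one_le_right hK0 hp1
    rw [← hp]
    refine ⟨Wd_mono (by linarith) (by linarith) _ _ v1,
      Wd_mono (by linarith) (by linarith) _ _ w1, ?_, ?_, by linarith, trivial⟩
    · linarith
    · have hn : (((dC m).n : ℕ) : ℝ) = m := rfl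
      rw [hn]
      have : 0 ≤ m * (σ * gG r) := mul_nonneg (Nat.cast_nonneg _) hσr
      linarith

end Pool.Agent.D7
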