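import Pool.Agent.Lib.D7.Blk

/-!
# The first digits of a unit
-/

set_option autoImplicit false

namespace Pool.Agent.D7

open Pool.Agent.D6

/-- The digit `(2, 2, 1)`. -/
def dA : Dg := ⟨2, 2, 1⟩
/-- The digit `(4, 3, 4)`. -/
def dB : Dg := ⟨4, 3, 4⟩

theorem dA_ok : dA.Ok 2 := ⟨by decide, by decide, by decide, by decide, by decide⟩
theorem dB_ok : dB.Ok 4 := ⟨by decide, by decide, by decide, by decide, by decide⟩

theorem stA {t : St} (h : Inv t) :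
    (2 * gG t - gH t - 9 ≤ gG (nx dA t) ∧ gG (nx dA t) ≤ 2 * gG t - gH t + 9) ∧
    (-gG t - 9 ≤ gH (nx dA t) ∧ gH (nx dA t) ≤ -gG t + 9) ∧
    (gZ t + 2 * gG t - 9 ≤ gZ (nx dA t) ∧ gZ (nx dA t) ≤ gZ t + 2 * gG t + 9) := by
  obtain ⟨e1, e2, e3⟩ := est h dA_ok
  have hE : Er 2 = 9 := by unfold Er; norm_num
  have ha : ((dA.a : ℤ) : ℝ) = 2 := by norm_num [Dg.a, dA]
  have hs : ((dA.s : ℤ) : ℝ) = -1 := by norm_num [Dg.s, dA]
  have hj : ((dA.j : ℕ) : ℝ) = 2 := by norm_num [dA]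
  rw [hE, abs_le] at e1 e2 e3
  rw [ha] at e1
  rw [hs] at e2
  rw [hj] at e3
  exact ⟨⟨by linarith [e1.1], by linarith [e1.2]⟩, ⟨by linarith [e2.1], by linarith [e2.2]⟩,
    ⟨by linarith [e3.1], by linarith [e3.2]⟩⟩

theorem stB {t : St} (h : Inv t) :
    (5 * gG t - gH t - 33 ≤ gG (nx dB t) ∧ gG (nx dB t) ≤ 5 * gG t - gH t + 33) ∧
    (gG t - 33 ≤ gH (nx dB t) ∧ gH (nx dB t) ≤ gG t + 33) ∧
    (gZ t + 3 * gG t - 33 ≤ gZ (nx dB t) ∧ gZ (nx dB t) ≤ gZ t + 3 * gG t + 33) := by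
  obtain ⟨e1, e2, e3⟩ := est h dB_ok
  have hE : Er 4 = 33 := by unfold Er; norm_num
  have ha : ((dB.a : ℤ) : ℝ) = 5 := by norm_num [Dg.a, dB]
  have hs : ((dB.s : ℤ) : ℝ) = 1 := by norm_num [Dg.s, dB]
  have hj : ((dB.j : ℕ) : ℝ) = 3 := by norm_num [dB]
  rw [hE, abs_le] at e1 e2 e3
  rw [ha] at e1
  rw [hs] at e2
  rw [hj] at e3
  exact ⟨⟨by linarith [e1.1], by linarith [e1.2]⟩, ⟨by linarith [e2.1], by linarith [e2.2]⟩,
    ⟨by linarith [e3.1], by linarith [e3.2]⟩⟩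

/-- The first digits. -/
def w5 : List Dg := [dA, dA, dA, dA, dA]

/-- The first digits of a unit. -/
def wu (c : Bool) : List Dg := w5 ++ if c then [dA, dB] else [dB]

/-- The state after five digits. -/
theorem w5_end {t : St} (h : Inv t) (h0 : 0 ≤ gH t) (h1 : 100 * gH t ≤ 39 * gG t)
    (hz : gZ t ≤ 2 * gG t) (hG : 100000 ≤ gG t) :
    Inv (run w5 t) ∧ 58.6 * gG t ≤ gG (run w5 t) ∧ -0.4144 * gG (run w5 t) ≤ gH (run w5 t) ∧
    gH (run w5 t) ≤ -0.414 * gG (run w5 t) ∧ 1.399 * gG (run w5 t) ≤ gZ (run w5 t) ∧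
    gZ (run w5 t) ≤ 1.45 * gG (run w5 t) := by
  have i1 := inv_nx h dA_ok
  have i2 := inv_nx i1 dA_ok
  have i3 := inv_nx i2 dA_ok
  have i4 := inv_nx i3 dA_ok
  have i5 := inv_nx i4 dA_ok
  have e1 := stA h
  have e2 := stA i1
  have e3 := stA i2
  have e4 := stA i3
  have e5 := stA i4
  have hz0 : 0 ≤ gZ t := h.bz.lg_pos.le
  refine ⟨i5, ?_, ?_, ?_, ?_, ?_⟩ <;> simp only [w5, run]
  · linarith
  · linarith
  · linarith
  · linarith
  · linarith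

/-- The state after the first digits. -/
structure WE (t t' : St) : Prop where
  inv : Inv t'
  l : 0.18 * gG t' ≤ gH t'
  h : gH t' ≤ 0.19 * gG t'
  z : 0.8 * gG t' ≤ gZ t'
  zh : 0.97 * gG t' ≤ gZ t' + gH t'
  up : gZ t' + gH t' ≤ 1.01 * gG t'
  g : 300 * gG t ≤ gG t'

theorem wu_end (c : Bool) {t : St} (h : Inv t) (h0 : 0 ≤ gH t) (h1 : 100 * gH t ≤ 39 * gG t)
    (hz : gZ t ≤ 2 * gG t) (hG : 100000 ≤ gG t) : WE t (run (wu c) t) := by
  obtain ⟨i5, a1, a2, a3, a4, a5⟩ := w5_end h h0 h1 hz hG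
  rw [wu, run_append]
  generalize run w5 t = s at i5 a1 a2 a3 a4 a5
  cases c
  · have e := stB i5
    have i6 := inv_nx i5 dB_ok
    simp only [Bool.false_eq_true, if_false, run]
    refine ⟨i6, ?_, ?_, ?_, ?_, ?_, ?_⟩ <;> linarith
  · have i6 := inv_nx i5 dA_ok
    have i7 := inv_nx i6 dB_ok
    have e := stA i5
    have e' := stB i6
    simp only [if_true, run]
    refine ⟨i7, ?_, ?_, ?_, ?_, ?_, ?_⟩ <;> linarith

theorem fork {t : St} (h : Inv t) (h0 : 0 ≤ gH t) (h1 : 100 * gH t ≤ 39 * gG t)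
    (hz : gZ t ≤ 2 * gG t) (hG : 100000 ≤ gG t) : 5 ≤ gG (run w5 t) ∧
    5 ≤ gG (run w5 t) - gH (run w5 t) := by
  obtain ⟨i5, a1, a2, a3, a4, a5⟩ := w5_end h h0 h1 hz hG
  constructor <;> linarith

/-- The size conditions at one time. -/
theorem wd_one {σ x g : ℝ} {d : Dg} {t : St} (hσ1 : σ ≤ 1 / 5) (hx : x ≤ 0)
    (h1 : 0 ≤ gG t) (h2 : gG t / 5 ≤ gZ t) (h3 : gH t ≤ d.n * gG t)
    (h4 : (d.n : ℝ) * gG t / 5 - (1 + 1 / 5) * gH t ≤ gZ t) (hg : g ≤ gG t) :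
    σ * gG t + x ≤ gZ t ∧ σ * d.n * gG t - (1 + σ) * gH t + x ≤ gZ t ∧ g ≤ gG t := by
  have e1 : σ * gG t ≤ 1 / 5 * gG t := mul_le_mul_of_nonneg_right hσ1 h1
  have e2 : σ * (d.n * gG t - gH t) ≤ 1 / 5 * (d.n * gG t - gH t) :=
    mul_le_mul_of_nonneg_right hσ1 (by linarith)
  refine ⟨by linarith, ?_, hg⟩
  have e3 : σ * d.n * gG t - (1 + σ) * gH t = σ * (d.n * gG t - gH t) - gH t := by ring
  rw [e3]
  linarith

theorem wu_wd (c : Bool) {t : St} (h : Inv t) (h0 : 0 ≤ gH t) (h1 : 100 * gH t ≤ 39 * gG t)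
    (hz : gZ t ≤ 2 * gG t) (hG : 100000 ≤ gG t) {σ X : ℝ} (hσ : 0 ≤ σ) (hσ1 : σ ≤ 1 / 5)
    (hX : 0 ≤ X) (hH : σ * gG t ≤ gH t) (hZ : σ * gG t - X ≤ gZ t) :
    Wd σ (-X) (gG t) (wu c) t := by
  have i1 := inv_nx h dA_ok
  have i2 := inv_nx i1 dA_ok
  have i3 := inv_nx i2 dA_ok
  have i4 := inv_nx i3 dA_ok
  have e1 := stA h
  have e2 := stA i1
  have e3 := stA i2
  have e4 := stA i3
  have e5 := stA i4
  have hz0 : 0 ≤ gZ t := h.bz.lg_pos.le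
  have nA : ((dA.n : ℕ) : ℝ) = 2 := by norm_num [dA]
  have nB : ((dB.n : ℕ) : ℝ) = 4 := by norm_num [dB]
  obtain ⟨i5, a1, a2, a3, a4, a5⟩ := w5_end h h0 h1 hz hG
  rw [wu, Wd_append]
  refine ⟨?_, ?_⟩
  · clear i5 a1 a2 a3 a4 a5
    simp only [w5, Wd]
    rw [nA]
    refine ⟨by linarith, ?_, le_rfl, ?_⟩
    · have : 0 ≤ σ * gH t := mul_nonneg hσ h0
      linarith
    have q1 : σ * gG (nx dA t) ≤ σ * (2 * gG t - gH t + 9) := mul_le_mul_of_nonneg_left e1.1.2 hσ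
    have q2 : σ * (-gG t - 9) ≤ σ * gH (nx dA t) := mul_le_mul_of_nonneg_left e1.2.1.1 hσ
    have q3 : 0 ≤ σ * gH t := mul_nonneg hσ h0
    have q4 : σ * gG t ≤ 1 / 5 * gG t := mul_le_mul_of_nonneg_right hσ1 (by linarith)
    refine ⟨by linarith, by linarith, by linarith, ?_⟩
    obtain ⟨f1, f2, f3⟩ := wd_one (σ := σ) (x := -X) (g := gG t) (d := dA) (t := nx dA (nx dA t)) hσ1
      (by linarith) (by linarith) (by linarith) (by rw [nA]; linarith) (by rw [nA]; linarith) (by linarith)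
    rw [nA] at f2
    refine ⟨f1, f2, f3, ?_⟩
    obtain ⟨f1, f2, f3⟩ := wd_one (σ := σ) (x := -X) (g := gG t) (d := dA)
      (t := nx dA (nx dA (nx dA t))) hσ1
      (by linarith) (by linarith) (by linarith) (by rw [nA]; linarith) (by rw [nA]; linarith) (by linarith)
    rw [nA] at f2
    refine ⟨f1, f2, f3, ?_⟩
    obtain ⟨f1, f2, f3⟩ := wd_one (σ := σ) (x := -X) (g := gG t) (d := dA)
      (t := nx dA (nx dA (nx dA (nx dA t)))) hσ1
      (by linarith) (by linarith) (by linarith) (by rw [nA]; linarith) (by rw [nA]; linarith) (by linarith)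
    rw [nA] at f2
    exact ⟨f1, f2, f3, trivial⟩
  · clear e1 e2 e3 e4 e5 i1 i2 i3 i4
    generalize run w5 t = s at i5 a1 a2 a3 a4 a5
    cases c
    · simp only [Bool.false_eq_true, if_false, Wd]
      obtain ⟨f1, f2, f3⟩ := wd_one (σ := σ) (x := -X) (g := gG t) (d := dB) (t := s) hσ1
        (by linarith) (by linarith) (by linarith) (by rw [nB]; linarith) (by rw [nB]; linarith)
        (by linarith)
      exact ⟨f1, f2, f3, trivial⟩
    · simp only [if_true, Wd]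
      have e := stA i5
      obtain ⟨f1, f2, f3⟩ := wd_one (σ := σ) (x := -X) (g := gG t) (d := dA) (t := s) hσ1
        (by linarith) (by linarith) (by linarith) (by rw [nA]; linarith) (by rw [nA]; linarith)
        (by linarith)
      refine ⟨f1, f2, f3, ?_⟩
      obtain ⟨f1, f2, f3⟩ := wd_one (σ := σ) (x := -X) (g := gG t) (d := dB) (t := nx dA s) hσ1
        (by linarith) (by linarith) (by linarith) (by rw [nB]; linarith) (by rw [nB]; linarith)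
        (by linarith)
      exact ⟨f1, f2, f3, trivial⟩

end Pool.Agent.D7
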