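import Pool.Agent.Lib.D7.Dyn

/-!
# The run of a word whose forms are nonnegative
-/

set_option autoImplicit false

namespace Pool.Agent.D7

open Pool.Agent.D6

/-- The conclusion of `run_word`. -/
structure RW (σ : ℝ) (sn sd γ : ℤ) (N : ℕ) (l : List Dg) (K0 c0 C : ℝ) : Prop where
  c : 0 ≤ C
  w : ∀ κ θ : ℝ, |κ| ≤ K0 → |θ| ≤ K0 → ∀ t : St, Inv t → ∀ α β : ℝ, 0 ≤ α → 0 ≤ β →
    ∀ r r' : ℤ × ℤ, |gG t - (α * r.1 + β * r'.1)| ≤ c0 → |gH t - (α * r.2 + β * r'.2)| ≤ c0 →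
    (∀ f ∈ fs sn sd l r r', 0 ≤ Fm.ev f κ θ) → mono γ l r = true → mono γ l r' = true →
    Wd σ (Fn (pk l κ θ) (pt l κ θ) t - C) (γ * (α + β) - C) l t ∧
    |Fn κ θ (run l t) - Fn (pk l κ θ) (pt l κ θ) t| ≤ C ∧
    |gG (run l t) - (α * (mrs l r).1 + β * (mrs l r').1)| ≤ C ∧
    |gH (run l t) - (α * (mrs l r).2 + β * (mrs l r').2)| ≤ C

theorem mono_head {γ : ℤ} (l : List Dg) (r : ℤ × ℤ) (h : mono γ l r = true) : γ ≤ r.1 := by
  cases l with
  | nil =>
    simp only [mono, Bool.and_eq_true, decide_eq_true_eq] at h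
    exact h.1
  | cons d l =>
    simp only [mono, Bool.and_eq_true, decide_eq_true_eq] at h
    exact h.1.1

theorem run_word {σ : ℝ} {sn sd γ : ℤ} (hσ : 0 ≤ σ) (hσs : σ ≤ sn / sd) (hsd : 0 < sd)
    (hγ0 : 0 ≤ γ) {N : ℕ} {K0 : ℝ} (hK : 0 ≤ K0) (l : List Dg) (hl : ∀ d ∈ l, d.Ok N) :
    ∀ c0 : ℝ, 0 ≤ c0 → ∃ C : ℝ, RW σ sn sd γ N l K0 c0 C := by
  induction l with
  | nil =>
    intro c0 hc0
    refine ⟨c0, hc0, ?_⟩
    intro κ θ _ _ t _ α β _ _ r r' hg hh _ _ _
    refine ⟨trivial, ?_, ?_, ?_⟩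
    · rw [pk_nil, pt_nil]
      simp [run, hc0]
    · simpa [run, mrs] using hg
    · simpa [run, mrs] using hh
  | cons d l ih =>
    intro c0 hc0
    have hl' : ∀ e ∈ l, e.Ok N := fun e he => hl e (List.mem_cons_of_mem _ he)
    have hd := hl d List.mem_cons_self
    have hE := (Er_pos N).le
    have hN0 : (0 : ℝ) ≤ N := Nat.cast_nonneg _
    obtain ⟨C', hC', hw⟩ := ih hl' ((2 * N + 1) * c0 + Er N) (by positivity)
    set B := Kb N K0 l.length with hB
    have hB0 : 0 ≤ B := Kb_nonneg N hK _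
    set B' := Kb N K0 (l.length + 1) with hB'
    have hB'0 : 0 ≤ B' := Kb_nonneg N hK _
    have hsdR : (0 : ℝ) < sd := by exact_mod_cast hsd
    have hγR : (0 : ℝ) ≤ γ := by exact_mod_cast hγ0
    refine ⟨C' + Er N * (1 + 2 * B) + c0 * (2 * B' + σ * (1 + N) + 1 + |(γ : ℝ)|), by positivity, ?_⟩
    intro κ θ hκ hθ t ht α β hα hβ r r' hg hh hf hm hm'
    obtain ⟨b1, b2⟩ := pkt_bd hK l hl' hκ hθ
    obtain ⟨b3, b4⟩ := pkt_bd hK (d :: l) hl hκ hθ
    rw [List.length_cons] at b3 b4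
    obtain ⟨eg, eh, ez⟩ := est ht hd
    have hFs := Fn_step hd ht l κ θ B b1 b2
    have ha := hd.a_pos
    have ha0 : (0 : ℝ) ≤ d.a := by exact_mod_cast ha.1
    have ha1 : (d.a : ℝ) ≤ 2 * N := by exact_mod_cast ha.2
    have hsa : |((d.s : ℤ) : ℝ)| = 1 := by
      rcases hd.s_abs with e | e <;> rw [e] <;> simp
    have hn0 : (0 : ℝ) ≤ d.n := Nat.cast_nonneg _
    have hn1 : (d.n : ℝ) ≤ N := by exact_mod_cast hd.hN
    simp only [mono, Bool.and_eq_true, decide_eq_true_eq] at hm hm'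
    -- the errors of the next state
    have ng : |gG (nx d t) - (α * (mr d r).1 + β * (mr d r').1)| ≤ (2 * N + 1) * c0 + Er N := by
      have e : gG (nx d t) - (α * (mr d r).1 + β * (mr d r').1) =
          (gG (nx d t) - (d.a * gG t - gH t)) + d.a * (gG t - (α * r.1 + β * r'.1)) -
          (gH t - (α * r.2 + β * r'.2)) := by
        simp only [mr]; push_cast; ring
      rw [e]
      have e1 : |(d.a : ℝ) * (gG t - (α * r.1 + β * r'.1))| ≤ 2 * N * c0 := by
        rw [abs_mul, abs_of_nonneg ha0]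
        exact mul_le_mul ha1 hg (abs_nonneg _) (by positivity)
      calc _ ≤ |gG (nx d t) - (d.a * gG t - gH t)| + |(d.a : ℝ) * (gG t - (α * r.1 + β * r'.1))| +
            |gH t - (α * r.2 + β * r'.2)| := by
            refine (abs_sub _ _).trans ?_
            gcongr
            exact abs_add_le _ _
        _ ≤ (2 * N + 1) * c0 + Er N := by linarith
    have nh : |gH (nx d t) - (α * (mr d r).2 + β * (mr d r').2)| ≤ (2 * N + 1) * c0 + Er N := by
      have e : gH (nx d t) - (α * (mr d r).2 + β * (mr d r').2) =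
          (gH (nx d t) - d.s * gG t) + d.s * (gG t - (α * r.1 + β * r'.1)) := by
        simp only [mr]; push_cast; ring
      rw [e]
      have e1 : |(d.s : ℝ) * (gG t - (α * r.1 + β * r'.1))| ≤ c0 := by
        rw [abs_mul, hsa, one_mul]; exact hg
      refine (abs_add_le _ _).trans ?_
      nlinarith [mul_nonneg hN0 hc0]
    have hf' : ∀ f ∈ fs sn sd l (mr d r) (mr d r'), 0 ≤ Fm.ev f κ θ := by
      intro f hfm
      apply hf
      simp only [fs, List.mem_cons]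
      tauto
    obtain ⟨w1, w2, w3, w4⟩ := hw κ θ hκ hθ (nx d t) (inv_nx ht hd) α β hα hβ (mr d r) (mr d r') ng nh hf'
      hm.2 hm'.2
    -- the forms
    have q1 := hf (f1 sn sd (pf (d :: l)) r) (by simp [fs])
    have q2 := hf (f1 sn sd (pf (d :: l)) r') (by simp [fs])
    have q3 := hf (f2 sn sd d.n (pf (d :: l)) r) (by simp [fs])
    have q4 := hf (f2 sn sd d.n (pf (d :: l)) r') (by simp [fs])
    rw [f1_ev] at q1 q2
    rw [f2_ev] at q3 q4
    set k := pk (d :: l) κ θ with hk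
    set p := pt (d :: l) κ θ with hp
    -- errors
    obtain ⟨xg, hxg⟩ : ∃ x, x = gG t - (α * r.1 + β * r'.1) := ⟨_, rfl⟩
    obtain ⟨xh, hxh⟩ : ∃ x, x = gH t - (α * r.2 + β * r'.2) := ⟨_, rfl⟩
    rw [← hxg] at hg
    rw [← hxh] at hh
    have c1 : |p * xg| ≤ B' * c0 := by
      rw [abs_mul]; exact mul_le_mul b4 hg (abs_nonneg _) hB'0
    have c2 : |k * xh| ≤ B' * c0 := by
      rw [abs_mul]; exact mul_le_mul b3 hh (abs_nonneg _) hB'0
    rw [abs_le] at c1 c2 hg hh hFs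
    set s0 : ℝ := (sn : ℝ) / sd with hs
    have hsn' : (sn : ℝ) = s0 * sd := by rw [hs]; field_simp
    have hg0 : 0 ≤ α * (r.1 : ℝ) + β * r'.1 := by
      have h5 : (γ : ℝ) ≤ r.1 := by exact_mod_cast hm.1.1
      have h6 : (γ : ℝ) ≤ r'.1 := by exact_mod_cast hm'.1.1
      have := mul_nonneg hα (hγR.trans h5)
      have := mul_nonneg hβ (hγR.trans h6)
      linarith
    have hgh : α * (r.2 : ℝ) + β * r'.2 ≤ α * (r.1 : ℝ) + β * r'.1 := by
      have h5 : (r.2 : ℝ) ≤ r.1 := by exact_mod_cast hm.1.2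
      have h6 : (r'.2 : ℝ) ≤ r'.1 := by exact_mod_cast hm'.1.2
      exact add_le_add (mul_le_mul_of_nonneg_left h5 hα) (mul_le_mul_of_nonneg_left h6 hβ)
    have hn2 : (1 : ℝ) ≤ d.n := by
      have := hd.h2
      exact_mod_cast (by omega : 1 ≤ d.n)
    have T1 : σ * gG t + (Fn k p t - (c0 * (2 * B' + σ * (1 + N) + 1))) ≤ gZ t := by
      have h5 : 0 ≤ p * (α * r.1 + β * r'.1) - k * (α * r.2 + β * r'.2) - σ * (α * r.1 + β * r'.1) := by
        have h60 := mul_nonneg (sub_nonneg.2 hσs) hg0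
        refine le_trans ?_ (by linarith : p * (α * r.1 + β * r'.1) - k * (α * r.2 + β * r'.2) -
          s0 * (α * r.1 + β * r'.1) ≤ _)
        have h6 : 0 ≤ sd * (p * (α * r.1 + β * r'.1) - k * (α * r.2 + β * r'.2) -
            s0 * (α * r.1 + β * r'.1)) := by
          have h7 := mul_nonneg hα q1
          have h8 := mul_nonneg hβ q2
          rw [hsn'] at h7 h8
          linarith
        exact nonneg_of_mul_nonneg_right h6 hsdR
      have h9 : σ * xg ≤ σ * c0 := mul_le_mul_of_nonneg_left hg.2 hσ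
      have h10 : 0 ≤ σ * N * c0 := by positivity
      have e : gZ t - (σ * gG t + Fn k p t) = (p * (α * r.1 + β * r'.1) - k * (α * r.2 + β * r'.2) -
          σ * (α * r.1 + β * r'.1)) + p * xg - k * xh - σ * xg := by
        rw [hxg, hxh]; unfold Fn; ring
      linarith
    have T2 : σ * d.n * gG t - (1 + σ) * gH t + (Fn k p t - (c0 * (2 * B' + σ * (1 + N) + 1))) ≤
        gZ t := by
      have h5 : 0 ≤ p * (α * r.1 + β * r'.1) - k * (α * r.2 + β * r'.2) -
          σ * d.n * (α * r.1 + β * r'.1) + (1 + σ) * (α * r.2 + β * r'.2) := by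
        have h61 : α * (r.1 : ℝ) + β * r'.1 ≤ d.n * (α * (r.1 : ℝ) + β * r'.1) :=
          le_mul_of_one_le_left hg0 hn2
        have h60 := mul_nonneg (sub_nonneg.2 hσs) (sub_nonneg.2 (hgh.trans h61))
        refine le_trans ?_ (by linarith : p * (α * r.1 + β * r'.1) - k * (α * r.2 + β * r'.2) -
          s0 * d.n * (α * r.1 + β * r'.1) + (1 + s0) * (α * r.2 + β * r'.2) ≤ _)
        have h6 : 0 ≤ sd * (p * (α * r.1 + β * r'.1) - k * (α * r.2 + β * r'.2) -
            s0 * d.n * (α * r.1 + β * r'.1) + (1 + s0) * (α * r.2 + β * r'.2)) := by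
          have h7 := mul_nonneg hα q3
          have h8 := mul_nonneg hβ q4
          push_cast at h7 h8
          rw [hsn'] at h7 h8
          linarith
        exact nonneg_of_mul_nonneg_right h6 hsdR
      have h9 : σ * d.n * xg ≤ σ * N * c0 := by
        have : σ * d.n * xg ≤ σ * d.n * c0 := mul_le_mul_of_nonneg_left hg.2 (by positivity)
        have : σ * d.n * c0 ≤ σ * N * c0 := by gcongr
        linarith
      have h10 : -((1 + σ) * c0) ≤ (1 + σ) * xh := by
        have := mul_le_mul_of_nonneg_left hh.1 (by linarith : 0 ≤ 1 + σ)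
        linarith
      have e : gZ t - (σ * d.n * gG t - (1 + σ) * gH t + Fn k p t) =
          (p * (α * r.1 + β * r'.1) - k * (α * r.2 + β * r'.2) -
          σ * d.n * (α * r.1 + β * r'.1) + (1 + σ) * (α * r.2 + β * r'.2)) + p * xg - k * xh -
          σ * d.n * xg + (1 + σ) * xh := by
        rw [hxg, hxh]; unfold Fn; ring
      linarith
    have T3 : γ * (α + β) - c0 ≤ gG t := by
      have h5 : (γ : ℝ) ≤ r.1 := by exact_mod_cast hm.1.1
      have h6 : (γ : ℝ) ≤ r'.1 := by exact_mod_cast hm'.1.1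
      have h7 := mul_le_mul_of_nonneg_left h5 hα
      have h8 := mul_le_mul_of_nonneg_left h6 hβ
      linarith [hg.1]
    have hγ : 0 ≤ c0 * |(γ : ℝ)| := by positivity
    have hp1 : 0 ≤ Er N * (1 + 2 * B) := by positivity
    have hp2 : 0 ≤ c0 * (2 * B' + σ * (1 + N)) := by positivity
    refine ⟨⟨?_, ?_, ?_, ?_⟩, ?_, ?_, ?_⟩
    · linarith
    · linarith
    · linarith
    · refine Wd_mono ?_ ?_ _ _ w1
      · linarith [hFs.1]
      · linarith
    · change |Fn κ θ (run l (nx d t)) - Fn k p t| ≤ _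
      rw [abs_le] at w2 ⊢
      constructor <;> linarith [w2.1, w2.2, hFs.1, hFs.2]
    · change |gG (run l (nx d t)) - (α * (mrs l (mr d r)).1 + β * (mrs l (mr d r')).1)| ≤ _
      linarith
    · change |gH (run l (nx d t)) - (α * (mrs l (mr d r)).2 + β * (mrs l (mr d r')).2)| ≤ _
      linarith

/-- A larger constant. -/
theorem RW.mono {σ : ℝ} {sn sd γ : ℤ} {N : ℕ} {l : List Dg} {K0 c0 C C' : ℝ}
    (h : RW σ sn sd γ N l K0 c0 C) (hC : C ≤ C') : RW σ sn sd γ N l K0 c0 C' := by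
  refine ⟨h.c.trans hC, ?_⟩
  intro κ θ hκ hθ t ht α β hα hβ r r' hg hh hf hm hm'
  obtain ⟨w1, w2, w3, w4⟩ := h.w κ θ hκ hθ t ht α β hα hβ r r' hg hh hf hm hm'
  exact ⟨Wd_mono (by linarith) (by linarith) _ _ w1, w2.trans hC, w3.trans hC, w4.trans hC⟩

/-- A common constant for a list of words. -/
theorem run_words {σ : ℝ} {sn sd γ : ℤ} (hσ : 0 ≤ σ) (hσs : σ ≤ sn / sd) (hsd : 0 < sd)
    (hγ0 : 0 ≤ γ) {N : ℕ} {K0 : ℝ} (hK : 0 ≤ K0)
    (W : List (List Dg)) (hW : ∀ l ∈ W, ∀ d ∈ l, d.Ok N) {c0 : ℝ} (hc : 0 ≤ c0) :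
    ∃ C : ℝ, 0 ≤ C ∧ ∀ l ∈ W, RW σ sn sd γ N l K0 c0 C := by
  induction W with
  | nil => exact ⟨0, le_rfl, by simp⟩
  | cons l W ih =>
    obtain ⟨C, hC, h⟩ := ih fun l hl => hW l (List.mem_cons_of_mem _ hl)
    obtain ⟨C', h'⟩ := run_word (γ := γ) hσ hσs hsd hγ0 hK l (hW l List.mem_cons_self) c0 hc
    refine ⟨max C C', hC.trans (le_max_left _ _), ?_⟩
    intro m hm
    rcases List.mem_cons.1 hm with e | e
    · rw [e]; exact h'.mono (le_max_right _ _)
    · exact (h m e).mono (le_max_left _ _)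

end Pool.Agent.D7
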